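import Pool.Agent.Lib.MP_10e784_ag.TW.TWDefs
import Pool.Agent.Lib.MP_10e784_agF.Defs

/-!
# MP_10e784_ag, THEOREM ONE: definitions

`g` is a monic irreducible cubic polynomial, `θ` a root, `K = ℚ(θ)`; `A = G1 ^ 2 + u G1 G2 + v G2 ^ 2`; the curves are `y² = g A`.
A pair `(u, v)` is the vector `f : Vn 1 = Fin 2 → ℤ` with `f 0 = v`, `f 1 = u` (so `evn f t = v + u t`); an element `δ` of `ℤ[X]` of degree less
than three is the vector `δ : Vn 2 = Fin 3 → ℤ`, `Pf δ = δ 0 + δ 1 X + δ 2 X²`.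
-/

set_option autoImplicit false

namespace O1

open Polynomial Finset TW FQQ

/-- the data of the theorem -/
structure Dat (g G1 G2 : ℤ[X]) : Prop where
  gm : g.Monic
  gd : g.natDegree = 3
  gi : Irreducible (qq g)
  m1 : G1.Monic
  d2 : G2.natDegree < G1.natDegree
  cop : IsCoprime (qq G1) (qq G2)
  nr : ∀ s t : ℤ, g ∣ C s * G1 + C t * G2 → s = 0 ∧ t = 0

/-- `G1 ^ 2 + u G1 G2 + v G2 ^ 2` (over any ring) -/
noncomputable def AA {R : Type} [CommRing R] (G1 G2 : R[X]) (u v : R) : R[X] := G1 ^ 2 + C u * G1 * G2 + C v * G2 ^ 2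

/-- the norm of `P(θ)` (the resultant of `g` and `P`), over any ring -/
noncomputable def nm {R : Type} [CommRing R] (g P : R[X]) : R := resultant g P g.natDegree P.natDegree

/-- `h` is a monic irreducible factor of `g` modulo `p` -/
def Fac (g : ℤ[X]) (p : ℕ) (h : (ZMod p)[X]) : Prop := h.Monic ∧ Irreducible h ∧ h ∣ red p g

/-- the polynomial `P` vanishes at a place above `p` -/
def Van (g : ℤ[X]) (p : ℕ) (P : (ZMod p)[X]) : Prop := ∃ h, Fac g p h ∧ h ∣ P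

/-- the SELF condition at `p` for `δ`: `δ` vanishes at no place above `p`, or at exactly one place, of degree one, given by
the root `r`, and `δ (r - X)` is a square at the others -/
def Self (g : ℤ[X]) (p : ℕ) (P : (ZMod p)[X]) : Prop :=
  ¬ Van g p P ∨ ∃ r : ZMod p, (red p g).eval r = 0 ∧ P.eval r = 0 ∧
    ∀ h, Fac g p h → h ≠ X - C r → ¬ h ∣ P ∧ ∃ Q : (ZMod p)[X], h ∣ P * (C r - X) - Q ^ 2

/-- the condition (B) at `p` for `(u, v)` and `δ`: at every root `r` of `g` where `A` vanishes, `A` does not vanish at the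
other places and `A δ (r - X)` is a square there -/
def CB (g G1 G2 : ℤ[X]) (p : ℕ) (P : (ZMod p)[X]) (u v : ZMod p) : Prop :=
  ∀ r : ZMod p, (red p g).eval r = 0 → (AA (red p G1) (red p G2) u v).eval r = 0 →
    ∀ h, Fac g p h → h ≠ X - C r → ¬ h ∣ AA (red p G1) (red p G2) u v ∧
      ∃ Q : (ZMod p)[X], h ∣ AA (red p G1) (red p G2) u v * P * (C r - X) - Q ^ 2

/-- the condition (C) at `p` for `(u, v)` and the norm `n` of `δ` -/
def CC (p : ℕ) (n : ℤ) (u v : ℤ) : Prop := (p : ℤ) ∣ u ^ 2 - 4 * v → jacobiSym n p ≠ -1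

/-- `B` contains all bad primes and all primes at most `P0` -/
structure Good (g G1 G2 : ℤ[X]) (P0 B : ℕ) : Prop where
  ne : B ≠ 0
  two : 2 ∣ B
  small : ∀ p : ℕ, p.Prime → p ≤ P0 → p ∣ B
  sqf : ∀ p : ℕ, p.Prime → ¬ p ∣ B → Squarefree (red p g)
  cop : ∀ p : ℕ, p.Prime → ¬ p ∣ B → IsCoprime (red p G1) (red p G2)
  cog : ∀ p : ℕ, p.Prime → ¬ p ∣ B → IsCoprime (red p g) (red p G2)
  ind : ∀ p : ℕ, p.Prime → ¬ p ∣ B → ∀ x y z : ZMod p,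
    red p g ∣ C x * red p G1 ^ 2 + C y * red p G1 * red p G2 + C z * red p G2 ^ 2 → x = 0 ∧ y = 0 ∧ z = 0

/-- the limit of the sieves for a box of side `H` -/
noncomputable def zz (H : ℕ) : ℝ := Real.exp (Real.log H / (10000 * Real.log (Real.log H)))

/-- the sieving primes -/
noncomputable def QN (B H : ℕ) : Finset ℕ := (range (⌊zz H⌋₊ + 1)).filter fun p => p.Prime ∧ ¬ p ∣ B

/-- the object `δ` with its squarefree integer `M` and root `r` modulo `M` -/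
structure Ob (g : ℤ[X]) (B : ℕ) (C0 : ℝ) (δ : Vn 2) (M : ℕ) (r : ℤ) : Prop where
  sz : ∀ i, |(δ i : ℝ)| ≤ C0 * (M : ℝ) ^ ((1 : ℝ) / 3)
  sq : Squarefree M
  cop : ∀ p : ℕ, p.Prime → p ∣ M → ¬ p ∣ B
  rt : ∀ p : ℕ, p.Prime → p ∣ M → (red p g).eval (r : ZMod p) = 0 ∧ (red p (Pf δ)).eval (r : ZMod p) = 0
  un : ∀ p : ℕ, p.Prime → p ∣ M → ∀ h, Fac g p h → h ∣ red p (Pf δ) → h = X - C (r : ZMod p)
  nz : nm g (Pf δ) ≠ 0
  dv : ∀ p : ℕ, p.Prime → ¬ p ∣ B → (Van g p (red p (Pf δ)) ↔ p ∣ M)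

/-- typical pairs `(u, v)` for the box of side `N` -/
structure Typ (g G1 G2 : ℤ[X]) (B N : ℕ) (u v : ℤ) : Prop where
  t0 : ¬ IsSquare (u ^ 2 - 4 * v)
  t1 : ∀ p ∈ QN B N, ¬ ((p : ℤ) ^ 2 ∣ u ^ 2 - 4 * v)
  t2 : ∀ p : ℕ, p.Prime → ¬ p ∣ B → ∀ h h', Fac g p h → Fac g p h' → h ∣ red p (AA G1 G2 u v) → h' ∣ red p (AA G1 G2 u v) →
    h = h' ∧ h.natDegree = 1
  t3 : ∀ p ∈ QN B N, (p : ℤ) ∣ u ^ 2 - 4 * v → ¬ (p : ℤ) ∣ nm g (AA G1 G2 u v)
  t4 : ∀ p ∈ QN B N, ¬ ((p : ℤ) ^ 2 ∣ nm g (AA G1 G2 u v))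

open Classical in
/-- the density modulo `q` of a set of vectors -/
noncomputable def dn (m q : ℕ) (E : Vn m → Prop) : ℝ := ExN m q fun f => if E f then 1 else 0

/-- `A` vanishes at all places (outside `B`) at which `δ` vanishes -/
def Att (g G1 G2 : ℤ[X]) (B : ℕ) (δ : Vn 2) (u v : ℤ) : Prop :=
  ∀ p : ℕ, p.Prime → ¬ p ∣ B → ∀ h, Fac g p h → h ∣ red p (Pf δ) → h ∣ red p (AA G1 G2 u v)

open Classical in
/-- the set of the `(u, v)` in the box of side `N` which are attached to `δ` in the case `t = 0` -/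
noncomputable def U0 (g G1 G2 : ℤ[X]) (B : ℕ) (N : ℕ) (δ : Vn 2) : Finset (Vn 1) :=
  (boxN 1 N).filter fun f => Att g G1 G2 B δ (f 1) (f 0) ∧ ∀ p ∈ QN B N, CC p (nm g (Pf δ)) (f 1) (f 0)

open Classical in
/-- the set of the `(u, v)` in the box of side `N` which are attached to `δ` in the case `t = 1` -/
noncomputable def U1 (g G1 G2 : ℤ[X]) (B : ℕ) (N : ℕ) (δ : Vn 2) : Finset (Vn 1) :=
  (boxN 1 N).filter fun f => Att g G1 G2 B δ (f 1) (f 0) ∧ ∀ p ∈ QN B N, CC p (nm g (Pf δ)) (f 1) (f 0) ∧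
    (¬ Van g p (red p (Pf δ)) → CB g G1 G2 p (red p (Pf δ)) ((f 1 : ℤ) : ZMod p) ((f 0 : ℤ) : ZMod p))

/-- the side of the box of the block `j` -/
noncomputable def HJ (C0 : ℝ) (j : ℕ) : ℕ := ⌊C0 * (2 : ℝ) ^ ((j : ℝ) / 3)⌋₊

open Classical in
/-- the block `j`: the objects with `2 ^ (j - 1) < M ≤ 2 ^ j` -/
noncomputable def Blk (g : ℤ[X]) (B : ℕ) (C0 : ℝ) (j : ℕ) : Finset (Vn 2) :=
  (boxN 2 (HJ C0 j)).filter fun δ => ∃ (M : ℕ) (r : ℤ), Ob g B C0 δ M r ∧ 2 ^ j < 2 * M ∧ M ≤ 2 ^ j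

/-- `k` is a vector of the lattice attached to `(M, r)` -/
def Lt (G1 G2 : ℤ[X]) (M : ℕ) (r : ℤ) (k : Vn 1) : Prop := (M : ℤ) ∣ k 1 * G2.eval r - k 0 * G1.eval r

/-- the sup norm -/
noncomputable def nrm (k : Vn 1) : ℝ := max |(k 0 : ℝ)| |(k 1 : ℝ)|

/-- the object `δ` is bad for the box of side `N`: its lattice has a short vector -/
def BadO (g G1 G2 : ℤ[X]) (B : ℕ) (C0 : ℝ) (N : ℕ) (δ : Vn 2) : Prop :=
  ∃ (M : ℕ) (r : ℤ), Ob g B C0 δ M r ∧ ∃ k : Vn 1, k ≠ 0 ∧ Lt G1 G2 M r k ∧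
    4 * (N : ℝ) * nrm k < (⌈(N : ℝ) ^ ((1 : ℝ) / 100)⌉₊ : ℝ) * M

open Classical in
/-- the local weight: `9/4, 1/2, 0` for `3, 1, 0` roots -/
noncomputable def ew (g : ℤ[X]) (p : ℕ) : ℝ := 3 / 4 * (PT.rt g p : ℝ) - if PT.rt g p = 1 then 1 / 4 else 0

/-- the sum of `1 / p` over the primes `p ≤ z` with `(n / p) = -1` -/
noncomputable def VC (n : ℤ) (z : ℝ) : ℝ := PT.PS (fun p => if jacobiSym n p = -1 then 1 else 0) z

/-- the sum of `(n / p) / p` over the primes `w < p ≤ z` -/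
noncomputable def SC (n : ℤ) (w z : ℝ) : ℝ :=
  ∑ p ∈ (Icc 1 ⌊z⌋₊).filter (fun p : ℕ => p.Prime ∧ w < (p : ℝ)), (jacobiSym n p : ℝ) / (p : ℝ)

end O1
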