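import Pool.Agent.Lib.MP_10e784_agO.Nm
import Pool.Agent.Lib.MP_10e784_agO.Defs

/-! JOB AL.  The affine lattice attached to an object.

For `p ∣ M` the factor `h = X - C r` is in `Fac g p` and divides `red p (Pf δ)` (`hO.rt`, `hO.cop`), so `Att` gives `A(r) = 0` modulo `p`.  If `G2(r) = 0` modulo `p` then also `G1(r) ^ 2 = 0`, contradiction to `hG.cop`.  So `G2(r)` is prime to `M` (`M` squarefree), choose `t` with `M ∣ t G2(r) - G1(r)`.
`A(r) ≡ G2(r)² (t² + u t + v)` modulo every `p ∣ M`, and `M` is squarefree.  Last claim: `k 1 G2(r) - k 0 G1(r) ≡ G2(r) (k 1 - k 0 t)`.  `red p (AA G1 G2 u v) = AA (red p G1) (red p G2) u v` (`aa_red`). -/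

set_option autoImplicit false

namespace O1

open Polynomial Finset TW FQQ

theorem aa_red (G1 G2 : ℤ[X]) (p : ℕ) (u v : ℤ) :
    red p (AA G1 G2 u v) = AA (red p G1) (red p G2) (u : ZMod p) (v : ZMod p) := by
  unfold red AA
  simp [Polynomial.map_add, Polynomial.map_mul, Polynomial.map_pow]

private theorem AL_eval (P : ℤ[X]) (p : ℕ) (r : ℤ) :
    (red p P).eval (r : ZMod p) = ((P.eval r : ℤ) : ZMod p) := by
  unfold red
  exact Polynomial.eval_intCast_map (Int.castRingHom (ZMod p)) P r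

private theorem AL_sq {M : ℕ} (hM : Squarefree M) {a : ℤ}
    (h : ∀ p : ℕ, p.Prime → p ∣ M → (p : ℤ) ∣ a) : (M : ℤ) ∣ a := by
  rw [Int.natCast_dvd]
  rw [← Nat.prod_primeFactors_of_squarefree hM]
  apply Finset.prod_primes_dvd
  · intro p hp
    exact (Nat.prime_of_mem_primeFactors hp).prime
  · intro p hp
    exact Int.natCast_dvd.1 (h p (Nat.prime_of_mem_primeFactors hp) (Nat.dvd_of_mem_primeFactors hp))

theorem att_lat {g G1 G2 : ℤ[X]} (hD : Dat g G1 G2) {P0 B : ℕ} (hG : Good g G1 G2 P0 B) {C0 : ℝ} {δ : Vn 2} {M : ℕ}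
    {r : ℤ} (hO : Ob g B C0 δ M r) (f0 : Vn 1) (h0 : Att g G1 G2 B δ (f0 1) (f0 0)) :
    ∃ t : ℤ, (∀ f : Vn 1, Att g G1 G2 B δ (f 1) (f 0) → (M : ℤ) ∣ t ^ 2 + evn f t) ∧
      ∀ k : Vn 1, (Lt G1 G2 M r k ↔ (M : ℤ) ∣ k 1 - k 0 * t) := by
  -- the value of `A` at `r`
  have hA : ∀ f : Vn 1, Att g G1 G2 B δ (f 1) (f 0) → ∀ p : ℕ, p.Prime → p ∣ M →
      (p : ℤ) ∣ (G1.eval r) ^ 2 + f 1 * G1.eval r * G2.eval r + f 0 * (G2.eval r) ^ 2 := by
    intro f hf p hp hpM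
    have : Fact p.Prime := ⟨hp⟩
    obtain ⟨h1, h2⟩ := hO.rt p hp hpM
    have hFac : Fac g p (X - C (r : ZMod p)) := by
      refine ⟨monic_X_sub_C _, irreducible_X_sub_C _, ?_⟩
      rw [dvd_iff_isRoot]
      exact h1
    have hd : (X - C (r : ZMod p)) ∣ red p (Pf δ) := by
      rw [dvd_iff_isRoot]
      exact h2
    have h3 := hf p hp (hO.cop p hp hpM) _ hFac hd
    rw [dvd_iff_isRoot] at h3
    have h4 : (red p (AA G1 G2 (f 1) (f 0))).eval (r : ZMod p) = 0 := h3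
    rw [AL_eval] at h4
    rw [ZMod.intCast_zmod_eq_zero_iff_dvd] at h4
    have h5 : (AA G1 G2 (f 1) (f 0)).eval r =
        (G1.eval r) ^ 2 + f 1 * G1.eval r * G2.eval r + f 0 * (G2.eval r) ^ 2 := by
      unfold AA
      simp
    rwa [h5] at h4
  -- `G2 (r)` is prime to `M`
  have hcop : ∀ p : ℕ, p.Prime → p ∣ M → ¬ (p : ℤ) ∣ G2.eval r := by
    intro p hp hpM hdiv
    have : Fact p.Prime := ⟨hp⟩
    have h1 := hA f0 h0 p hp hpM
    have h2 : (p : ℤ) ∣ (G1.eval r) ^ 2 := by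
      have h3 : (p : ℤ) ∣ f0 1 * G1.eval r * G2.eval r + f0 0 * (G2.eval r) ^ 2 := by
        apply dvd_add
        · exact hdiv.mul_left _
        · exact (hdiv.trans (dvd_pow_self _ two_ne_zero)).mul_left _
      have h4 := dvd_sub h1 h3
      have e : (G1.eval r) ^ 2 + f0 1 * G1.eval r * G2.eval r + f0 0 * (G2.eval r) ^ 2 -
        (f0 1 * G1.eval r * G2.eval r + f0 0 * (G2.eval r) ^ 2) = (G1.eval r) ^ 2 := by ring
      rwa [e] at h4
    have h3 : (p : ℤ) ∣ G1.eval r := (Nat.prime_iff_prime_int.1 hp).dvd_of_dvd_pow h2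
    obtain ⟨a, b, hab⟩ := hG.cop p hp (hO.cop p hp hpM)
    have h4 := congrArg (Polynomial.eval (r : ZMod p)) hab
    rw [eval_add, eval_mul, eval_mul, AL_eval, AL_eval, eval_one,
      (ZMod.intCast_zmod_eq_zero_iff_dvd _ _).2 h3, (ZMod.intCast_zmod_eq_zero_iff_dvd _ _).2 hdiv] at h4
    simp at h4
  have hcopM : IsCoprime (G2.eval r) (M : ℤ) := by
    rw [Int.isCoprime_iff_gcd_eq_one]
    by_contra hne
    obtain ⟨p, hp, hpd⟩ := Nat.exists_prime_and_dvd hne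
    have h1 : (p : ℤ) ∣ G2.eval r := (Int.natCast_dvd_natCast.2 hpd).trans (Int.gcd_dvd_left ..)
    have h2 : (p : ℤ) ∣ (M : ℤ) := (Int.natCast_dvd_natCast.2 hpd).trans (Int.gcd_dvd_right ..)
    exact hcop p hp (Int.natCast_dvd_natCast.1 h2) h1
  obtain ⟨a, b, hab⟩ := hcopM
  -- `a * G2 r + b * M = 1`
  have ht : (M : ℤ) ∣ a * G1.eval r * G2.eval r - G1.eval r := by
    refine ⟨-(b * G1.eval r), ?_⟩
    linear_combination (G1.eval r) * hab
  refine ⟨a * G1.eval r, ?_, ?_⟩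
  · intro f hf
    apply AL_sq hO.sq
    intro p hp hpM
    have h1 := hA f hf p hp hpM
    have h2 : (p : ℤ) ∣ a * G1.eval r * G2.eval r - G1.eval r :=
      (Int.natCast_dvd_natCast.2 hpM).trans ht
    have hev : evn f (a * G1.eval r) = f 0 + f 1 * (a * G1.eval r) := by
      unfold evn
      simp [Fin.sum_univ_two]
    rw [hev]
    have h3 : (p : ℤ) ∣ (G2.eval r) ^ 2 * ((a * G1.eval r) ^ 2 + (f 0 + f 1 * (a * G1.eval r))) := by
      have e : (G2.eval r) ^ 2 * ((a * G1.eval r) ^ 2 + (f 0 + f 1 * (a * G1.eval r))) =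
          ((G1.eval r) ^ 2 + f 1 * G1.eval r * G2.eval r + f 0 * (G2.eval r) ^ 2) +
          (a * G1.eval r * G2.eval r - G1.eval r) *
            (a * G1.eval r * G2.eval r + G1.eval r + f 1 * G2.eval r) := by ring
      rw [e]
      exact dvd_add h1 (h2.mul_right _)
    rcases (Nat.prime_iff_prime_int.1 hp).dvd_or_dvd h3 with h4 | h4
    · exact absurd ((Nat.prime_iff_prime_int.1 hp).dvd_of_dvd_pow h4) (hcop p hp hpM)
    · exact h4
  · intro k
    unfold Lt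
    have e : k 1 * G2.eval r - k 0 * G1.eval r =
        G2.eval r * (k 1 - k 0 * (a * G1.eval r)) + k 0 * (a * G1.eval r * G2.eval r - G1.eval r) := by
      ring
    rw [e]
    have h1 : (M : ℤ) ∣ k 0 * (a * G1.eval r * G2.eval r - G1.eval r) := ht.mul_left _
    rw [dvd_add_left h1]
    have hc : IsCoprime (M : ℤ) (G2.eval r) := ⟨b, a, by linear_combination hab⟩
    exact ⟨fun h => hc.dvd_of_dvd_mul_left h, fun h => h.mul_left _⟩

end O1
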