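import Pool.Agent.Lib.MP_10e784_agO.Defs

/-! JOB BL1.  The number of points of an affine lattice in the box, in terms of the shortest vector.

`Λ = {k : M ∣ k 1 - k 0 t}`; `(0, M)` is a nonzero vector, so there is a nonzero `k ∈ Λ` with minimal `λ = nrm k` (a positive integer).  Thue/pigeonhole: `λ ^ 2 ≤ M` (the `(⌊√M⌋ + 1)² > M` vectors with coordinates in `[0, ⌊√M⌋]`, two have the same `k 1 - k 0 t` modulo `M`).
For `f, f'` in the coset: `M ∣ (f 0 - f' 0) + (f 1 - f' 1) t`, so `x = (-(f 1 - f' 1), f 0 - f' 0)` (as `(k 0, k 1)`) is in `Λ`.  `det(k, x) = k 0 * x 1 - k 1 * x 0` is divisible by `M` for `k, x ∈ Λ` (`k 1 ≡ k 0 t`, `x 1 ≡ x 0 t`).  For points of the box `|det(k, x)| ≤ 4 N λ`, so the points lie on at most `8 N λ / M + 1` lines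
(classes of the value of `det(k, ·)`); two points on the same line differ by a rational multiple `c k` which is in `Λ`, so (minimality) `|c| ≥ 1`, and in the coordinate where `|k i| = λ` the points are `λ`-separated in an interval of length `2N`: at most `2N/λ + 1` points on a line.
Total `(8 N λ / M + 1)(2 N / λ + 1) = 16 N² / M + 8 N λ / M + 2 N / λ + 1 ≤ 16 N² / M + 10 N / λ + 1` using `λ² ≤ M`. -/

set_option autoImplicit false

namespace O1

open Polynomial Finset TW FQQ

private theorem BL1_sep (L l : ℕ) (hl : 1 ≤ l) (T : Finset ℤ) (h1 : ∀ a ∈ T, |a| ≤ (L : ℤ))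
    (h2 : ∀ a ∈ T, ∀ b ∈ T, a ≠ b → (l : ℤ) ≤ |a - b|) : T.card ≤ 2 * L / l + 1 := by
  have hl' : (0 : ℤ) < l := by exact_mod_cast hl
  have : T.card ≤ (Finset.range (2 * L / l + 1)).card := by
    refine Finset.card_le_card_of_injOn (fun a => ((a + L) / l).toNat) ?_ ?_
    · intro a ha
      have h3 := abs_le.mp (h1 a ha)
      simp only [Finset.coe_range, Set.mem_Iio]
      have h4 : (a + L) / l ≤ ((2 * L / l : ℕ) : ℤ) := by
        rw [Int.natCast_div]
        push_cast
        exact Int.ediv_le_ediv hl' (by linarith)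
      exact Nat.lt_succ_of_le (Int.toNat_le.mpr h4)
    · intro a ha b hb hab
      by_contra hne
      have h5 := h2 a ha b hb hne
      have h3 := abs_le.mp (h1 a ha)
      have h4 := abs_le.mp (h1 b hb)
      have ea : 0 ≤ (a + L) / (l : ℤ) := Int.ediv_nonneg (by linarith) hl'.le
      have eb : 0 ≤ (b + L) / (l : ℤ) := Int.ediv_nonneg (by linarith) hl'.le
      simp only at hab
      have e1 : (a + L) / (l : ℤ) = (b + L) / (l : ℤ) := by omega
      have a1 := Int.emod_add_mul_ediv (a + L) l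
      have b1 := Int.emod_add_mul_ediv (b + L) l
      have a2 := Int.emod_nonneg (a + L) hl'.ne'
      have b2 := Int.emod_nonneg (b + L) hl'.ne'
      have a3 := Int.emod_lt_of_pos (a + L) hl'
      have b3 := Int.emod_lt_of_pos (b + L) hl'
      rw [e1] at a1
      have h6 : |a - b| < (l : ℤ) := by
        rw [abs_lt]
        constructor <;> linarith
      linarith
  rwa [Finset.card_range] at this

/-- the integral sup norm -/
private def BL1_nz (k : Vn 1) : ℕ := max (k 0).natAbs (k 1).natAbs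

private theorem BL1_nrm (k : Vn 1) : nrm k = (BL1_nz k : ℝ) := by
  unfold nrm BL1_nz
  rw [Nat.cast_max, Nat.cast_natAbs, Nat.cast_natAbs, Int.cast_abs, Int.cast_abs]

private theorem BL1_pos {k : Vn 1} (hk : k ≠ 0) : 1 ≤ BL1_nz k := by
  by_contra h
  have h0 : BL1_nz k = 0 := by omega
  unfold BL1_nz at h0
  have h1 : (k 0).natAbs = 0 := by
    have := le_max_left (k 0).natAbs (k 1).natAbs
    omega
  have h2 : (k 1).natAbs = 0 := by
    have := le_max_right (k 0).natAbs (k 1).natAbs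
    omega
  refine hk ?_
  funext i
  fin_cases i
  · exact Int.natAbs_eq_zero.mp h1
  · exact Int.natAbs_eq_zero.mp h2

/-- pigeonhole (Thue) -/
private theorem BL1_thue (M : ℕ) (hM : 1 ≤ M) (t : ℤ) :
    ∃ k : Vn 1, k ≠ 0 ∧ (M : ℤ) ∣ k 1 - k 0 * t ∧ BL1_nz k ^ 2 ≤ M := by
  classical
  set R := Nat.sqrt M with hR
  have hM' : (0 : ℤ) < M := by exact_mod_cast hM
  let φ : ℕ × ℕ → ℕ := fun x => (((x.2 : ℤ) - x.1 * t) % M).toNat
  have hc : (Finset.range M).card < (Finset.range (R + 1) ×ˢ Finset.range (R + 1)).card := by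
    rw [Finset.card_product, Finset.card_range, Finset.card_range]
    exact Nat.lt_succ_sqrt M
  obtain ⟨x, hx, y, hy, hxy, he⟩ := Finset.exists_ne_map_eq_of_card_lt_of_maps_to hc
    (f := φ) (by
      intro x _
      have h1 := Int.emod_nonneg ((x.2 : ℤ) - x.1 * t) hM'.ne'
      have h2 := Int.emod_lt_of_pos ((x.2 : ℤ) - x.1 * t) hM'
      simp only [Finset.coe_range, Set.mem_Iio, φ]
      omega)
  rw [Finset.mem_product, Finset.mem_range, Finset.mem_range] at hx hy
  have he' : ((x.2 : ℤ) - x.1 * t) % M = ((y.2 : ℤ) - y.1 * t) % M := by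
    have h1 := Int.emod_nonneg ((x.2 : ℤ) - x.1 * t) hM'.ne'
    have h2 := Int.emod_nonneg ((y.2 : ℤ) - y.1 * t) hM'.ne'
    simp only [φ] at he
    omega
  refine ⟨![(x.1 : ℤ) - y.1, (x.2 : ℤ) - y.2], ?_, ?_, ?_⟩
  · intro h
    have h0 := congrFun h 0
    have h1 := congrFun h 1
    simp only [Matrix.cons_val_zero, Matrix.cons_val_one, Pi.zero_apply] at h0 h1
    refine hxy (Prod.ext ?_ ?_)
    · omega
    · omega
  · simp only [Matrix.cons_val_zero, Matrix.cons_val_one]
    have := Int.ModEq.dvd (show (y.2 : ℤ) - y.1 * t ≡ (x.2 : ℤ) - x.1 * t [ZMOD M] from he'.symm)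
    have e : (x.2 : ℤ) - y.2 - (x.1 - y.1) * t = (x.2 : ℤ) - x.1 * t - (y.2 - y.1 * t) := by ring
    rw [e]
    exact this
  · have h3 : BL1_nz ![(x.1 : ℤ) - y.1, (x.2 : ℤ) - y.2] ≤ R := by
      unfold BL1_nz
      simp only [Matrix.cons_val_zero, Matrix.cons_val_one]
      refine max_le ?_ ?_ <;> omega
    calc BL1_nz ![(x.1 : ℤ) - y.1, (x.2 : ℤ) - y.2] ^ 2 ≤ R ^ 2 := Nat.pow_le_pow_left h3 2
      _ ≤ M := by rw [pow_two]; exact Nat.sqrt_le M

open Classical in
theorem lat_count (N M : ℕ) (hN : 1 ≤ N) (hM : 1 ≤ M) (t s : ℤ) :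
    ∃ k : Vn 1, k ≠ 0 ∧ (M : ℤ) ∣ k 1 - k 0 * t ∧
      (∀ k' : Vn 1, k' ≠ 0 → (M : ℤ) ∣ k' 1 - k' 0 * t → nrm k ≤ nrm k') ∧
      (((boxN 1 N).filter fun f => (M : ℤ) ∣ s + evn f t).card : ℝ) ≤ 100 * ((N : ℝ) ^ 2 / M + N / nrm k + 1) := by
  obtain ⟨k1, hk1, hd1, hn1⟩ := BL1_thue M hM t
  have hex : ∃ n : ℕ, ∃ k : Vn 1, k ≠ 0 ∧ (M : ℤ) ∣ k 1 - k 0 * t ∧ BL1_nz k = n :=
    ⟨_, k1, hk1, hd1, rfl⟩
  obtain ⟨k, hk, hd, hnz⟩ := Nat.find_spec hex
  have hmin : ∀ k' : Vn 1, k' ≠ 0 → (M : ℤ) ∣ k' 1 - k' 0 * t → BL1_nz k ≤ BL1_nz k' := by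
    intro k' h1 h2
    rw [hnz]
    exact Nat.find_min' hex ⟨k', h1, h2, rfl⟩
  refine ⟨k, hk, hd, ?_, ?_⟩
  · intro k' h1 h2
    rw [BL1_nrm, BL1_nrm]
    exact_mod_cast hmin k' h1 h2
  set l := BL1_nz k with hl
  have hl1 : 1 ≤ l := BL1_pos hk
  have hlM : l ^ 2 ≤ M := le_trans (Nat.pow_le_pow_left (hmin k1 hk1 hd1) 2) hn1
  have k0l : |k 0| ≤ (l : ℤ) := by
    have : (k 0).natAbs ≤ l := le_max_left _ _
    rw [Int.abs_eq_natAbs]
    exact_mod_cast this
  have k1l : |k 1| ≤ (l : ℤ) := by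
    have : (k 1).natAbs ≤ l := le_max_right _ _
    rw [Int.abs_eq_natAbs]
    exact_mod_cast this
  set F := (boxN 1 N).filter fun f => (M : ℤ) ∣ s + evn f t with hF
  have hev : ∀ f : Vn 1, evn f t = f 0 + f 1 * t := by
    intro f
    unfold evn
    rw [Fin.sum_univ_two]
    simp
  have hbox : ∀ f ∈ F, |f 0| ≤ (N : ℤ) ∧ |f 1| ≤ (N : ℤ) := by
    intro f hf
    have := (Finset.mem_filter.mp hf).1
    unfold boxN at this
    rw [Fintype.mem_piFinset] at this
    exact ⟨abs_le.mpr (Finset.mem_Icc.mp (this 0)), abs_le.mpr (Finset.mem_Icc.mp (this 1))⟩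
  have hdiv : ∀ f ∈ F, ∀ f' ∈ F, (M : ℤ) ∣ (f 0 - f' 0) + (f 1 - f' 1) * t := by
    intro f hf f' hf'
    have h1 := (Finset.mem_filter.mp hf).2
    have h2 := (Finset.mem_filter.mp hf').2
    rw [hev] at h1 h2
    have := dvd_sub h1 h2
    have e : s + (f 0 + f 1 * t) - (s + (f' 0 + f' 1 * t)) = (f 0 - f' 0) + (f 1 - f' 1) * t := by ring
    rwa [e] at this
  let d : Vn 1 → ℤ := fun f => k 0 * f 0 + k 1 * f 1
  have hV : (F.image d).card ≤ 2 * (2 * N * l) / M + 1 := by
    refine BL1_sep (2 * N * l) M hM _ ?_ ?_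
    · intro a ha
      obtain ⟨f, hf, rfl⟩ := Finset.mem_image.mp ha
      obtain ⟨h1, h2⟩ := hbox f hf
      have h3 : |k 0 * f 0| ≤ l * N := by
        rw [abs_mul]
        exact mul_le_mul k0l h1 (abs_nonneg _) (by positivity)
      have h4 : |k 1 * f 1| ≤ l * N := by
        rw [abs_mul]
        exact mul_le_mul k1l h2 (abs_nonneg _) (by positivity)
      calc |k 0 * f 0 + k 1 * f 1| ≤ |k 0 * f 0| + |k 1 * f 1| := abs_add_le _ _
        _ ≤ l * N + l * N := add_le_add h3 h4
        _ = ((2 * N * l : ℕ) : ℤ) := by push_cast; ring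
    · intro a ha b hb hab
      obtain ⟨f, hf, rfl⟩ := Finset.mem_image.mp ha
      obtain ⟨f', hf', rfl⟩ := Finset.mem_image.mp hb
      have h1 := hdiv f hf f' hf'
      have h2 : (M : ℤ) ∣ d f - d f' := by
        have e : d f - d f' = k 0 * ((f 0 - f' 0) + (f 1 - f' 1) * t) +
            (k 1 - k 0 * t) * (f 1 - f' 1) := by
          simp only [d]
          ring
        rw [e]
        exact dvd_add (dvd_mul_of_dvd_right h1 _) (dvd_mul_of_dvd_left hd _)
      exact Int.le_of_dvd (abs_pos.mpr (sub_ne_zero.mpr hab)) ((dvd_abs _ _).mpr h2)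
  have hfib : ∀ c ∈ F.image d, (F.filter fun f => d f = c).card ≤ 2 * N / l + 1 := by
    intro c _
    -- two different points of a fibre
    have key : ∀ f ∈ F.filter (fun f => d f = c), ∀ f' ∈ F.filter (fun f => d f = c), f ≠ f' →
        l ≤ max (f 1 - f' 1).natAbs (f 0 - f' 0).natAbs ∧
          k 0 * (f 0 - f' 0) = - (k 1 * (f 1 - f' 1)) := by
      intro f hf f' hf' hne
      rw [Finset.mem_filter] at hf hf'
      have h1 := hdiv f hf.1 f' hf'.1
      have h2 := hmin ![-(f 1 - f' 1), f 0 - f' 0] (by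
        intro h
        have h0 := congrFun h 0
        have h1 := congrFun h 1
        simp only [Matrix.cons_val_zero, Matrix.cons_val_one, Pi.zero_apply] at h0 h1
        refine hne ?_
        funext i
        fin_cases i
        · change f 0 = f' 0
          omega
        · change f 1 = f' 1
          omega) (by
        simp only [Matrix.cons_val_zero, Matrix.cons_val_one]
        have e : f 0 - f' 0 - -(f 1 - f' 1) * t = (f 0 - f' 0) + (f 1 - f' 1) * t := by ring
        rw [e]
        exact h1)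
      refine ⟨?_, ?_⟩
      · unfold BL1_nz at h2
        simp only [Matrix.cons_val_zero, Matrix.cons_val_one, Int.natAbs_neg] at h2
        exact h2
      · have h3 := hf.2.trans hf'.2.symm
        simp only [d] at h3
        linarith
    have hl0 : l = (k 0).natAbs ∨ l = (k 1).natAbs := by
      rw [hl]
      unfold BL1_nz
      rcases le_total (k 0).natAbs (k 1).natAbs with h | h
      · exact Or.inr (max_eq_right h)
      · exact Or.inl (max_eq_left h)
    rcases hl0 with hl0 | hl0
    · -- the coordinate `f 1`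
      have hk0 : |k 0| = (l : ℤ) := by rw [Int.abs_eq_natAbs, hl0]
      have hsep : ∀ f ∈ F.filter (fun f => d f = c), ∀ f' ∈ F.filter (fun f => d f = c), f ≠ f' →
          (l : ℤ) ≤ |f 1 - f' 1| := by
        intro f hf f' hf' hne
        obtain ⟨h1, h2⟩ := key f hf f' hf' hne
        have h3 : (l : ℤ) * |f 0 - f' 0| ≤ l * |f 1 - f' 1| := by
          have := congrArg abs h2
          rw [abs_neg, abs_mul, abs_mul, hk0] at this
          rw [this]
          exact mul_le_mul_of_nonneg_right k1l (abs_nonneg _)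
        have h4 : |f 0 - f' 0| ≤ |f 1 - f' 1| :=
          le_of_mul_le_mul_left h3 (by exact_mod_cast hl1)
        have a0 := Int.abs_eq_natAbs (f 0 - f' 0)
        have a1 := Int.abs_eq_natAbs (f 1 - f' 1)
        rcases le_max_iff.mp h1 with h | h <;> omega
      have : (F.filter fun f => d f = c).card = ((F.filter fun f => d f = c).image fun f => f 1).card := by
        rw [Finset.card_image_of_injOn]
        intro f hf f' hf' he
        by_contra hne
        have := hsep f hf f' hf' hne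
        simp only at he
        rw [he, sub_self, abs_zero] at this
        omega
      rw [this]
      refine BL1_sep N l hl1 _ ?_ ?_
      · intro a ha
        obtain ⟨f, hf, rfl⟩ := Finset.mem_image.mp ha
        exact (hbox f (Finset.mem_filter.mp hf).1).2
      · intro a ha b hb hab
        obtain ⟨f, hf, rfl⟩ := Finset.mem_image.mp ha
        obtain ⟨f', hf', rfl⟩ := Finset.mem_image.mp hb
        exact hsep f hf f' hf' (fun h => hab (by rw [h]))
    · -- the coordinate `f 0`
      have hk1' : |k 1| = (l : ℤ) := by rw [Int.abs_eq_natAbs, hl0]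
      have hsep : ∀ f ∈ F.filter (fun f => d f = c), ∀ f' ∈ F.filter (fun f => d f = c), f ≠ f' →
          (l : ℤ) ≤ |f 0 - f' 0| := by
        intro f hf f' hf' hne
        obtain ⟨h1, h2⟩ := key f hf f' hf' hne
        have h3 : (l : ℤ) * |f 1 - f' 1| ≤ l * |f 0 - f' 0| := by
          have := congrArg abs h2
          rw [abs_neg, abs_mul, abs_mul, hk1'] at this
          rw [← this]
          exact mul_le_mul_of_nonneg_right k0l (abs_nonneg _)
        have h4 : |f 1 - f' 1| ≤ |f 0 - f' 0| :=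
          le_of_mul_le_mul_left h3 (by exact_mod_cast hl1)
        have a0 := Int.abs_eq_natAbs (f 0 - f' 0)
        have a1 := Int.abs_eq_natAbs (f 1 - f' 1)
        rcases le_max_iff.mp h1 with h | h <;> omega
      have : (F.filter fun f => d f = c).card = ((F.filter fun f => d f = c).image fun f => f 0).card := by
        rw [Finset.card_image_of_injOn]
        intro f hf f' hf' he
        by_contra hne
        have := hsep f hf f' hf' hne
        simp only at he
        rw [he, sub_self, abs_zero] at this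
        omega
      rw [this]
      refine BL1_sep N l hl1 _ ?_ ?_
      · intro a ha
        obtain ⟨f, hf, rfl⟩ := Finset.mem_image.mp ha
        exact (hbox f (Finset.mem_filter.mp hf).1).1
      · intro a ha b hb hab
        obtain ⟨f, hf, rfl⟩ := Finset.mem_image.mp ha
        obtain ⟨f', hf', rfl⟩ := Finset.mem_image.mp hb
        exact hsep f hf f' hf' (fun h => hab (by rw [h]))
  have hcard : F.card ≤ (2 * N / l + 1) * (F.image d).card :=
    Finset.card_le_mul_card_image F _ hfib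
  have hcard2 : (F.card : ℝ) ≤ (2 * N / l + 1) * (2 * (2 * N * l) / M + 1) := by
    have h1 : (F.card : ℝ) ≤ ((2 * N / l + 1 : ℕ) : ℝ) * ((2 * (2 * N * l) / M + 1 : ℕ) : ℝ) := by
      exact_mod_cast hcard.trans (Nat.mul_le_mul_left _ hV)
    refine h1.trans ?_
    have h2 : ((2 * N / l + 1 : ℕ) : ℝ) ≤ 2 * N / l + 1 := by
      push_cast
      have := @Nat.cast_div_le ℝ _ _ _ (2 * N) l
      push_cast at this
      linarith
    have h3 : ((2 * (2 * N * l) / M + 1 : ℕ) : ℝ) ≤ 2 * (2 * N * l) / M + 1 := by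
      push_cast
      have := @Nat.cast_div_le ℝ _ _ _ (2 * (2 * N * l)) M
      push_cast at this
      linarith
    exact mul_le_mul h2 h3 (by positivity) (by positivity)
  rw [BL1_nrm]
  change (F.card : ℝ) ≤ 100 * ((N : ℝ) ^ 2 / M + N / (l : ℝ) + 1)
  have hlR : (0 : ℝ) < l := by exact_mod_cast hl1
  have hMR : (0 : ℝ) < M := by exact_mod_cast hM
  have hNR : (0 : ℝ) ≤ N := by positivity
  have hlMR : (l : ℝ) ^ 2 ≤ M := by exact_mod_cast hlM
  have h5 : (N : ℝ) * l / M ≤ N / l := by
    rw [div_le_div_iff₀ hMR hlR]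
    nlinarith
  have h6 : (2 * (N : ℝ) / l + 1) * (2 * (2 * N * l) / M + 1) =
      8 * ((N : ℝ) ^ 2 / M) + 2 * (N / l) + 4 * (N * l / M) + 1 := by
    field_simp
    ring
  rw [h6] at hcard2
  have h7 : 0 ≤ (N : ℝ) ^ 2 / M := by positivity
  have h8 : 0 ≤ (N : ℝ) / l := by positivity
  linarith

end O1
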