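import Pool.Agent.Lib.MP_10e784_agO.Nm
import Pool.Agent.Lib.MP_2a816b_nt.Divisor

/-! JOB BL2.  The number of objects whose lattice contains a given vector.

Let `k ≠ 0`, `W = C (k 1) * G2 - C (k 0) * G1`.  `g ∤ W` (`hD.nr`), so `D = nm g W ≠ 0` (`nm_ne`), and `|D| ≤ C ‖k‖ ^ 3`: `nm g W = nm g (W %ₘ g)` (`nm_congr`), the coefficients of `W %ₘ g` are linear in `k` (`nm_le`).  [`nrm k ≥ 1`.]
If `Ob g B C0 δ M r` and `Lt G1 G2 M r k`: for `p ∣ M`, `r` is a common root of `red p g` and `red p W`, so `p ∣ D` (`van_iff` with `h = X - C r`); `M` is squarefree, so `M ∣ D`.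
Number of `M`: at most the number of divisors of `D`, `≤ C_ε |D| ^ ε'` (divisor bound: there are several in the library, grep `divisors` `card` `rpow`, e.g. `Pool/Agent/Lib/MP_10e784_ag/QTau.lean`).  For given `M` the number of classes `r` modulo `M` with `red p g (r) = 0` for all `p ∣ M` is at most `3 ^ ω(M) ≤ τ(M) ^ 2` (Chinese remainder theorem: the class of `r` is determined by the vector of the
roots modulo `p`; `PT.rt_le`-type bound `≤ 3`).
For given `(M, r mod M)` the number of `δ` with `Ob g B C0 δ M r` is at most a constant: if `δ, δ'` are two of them then for `p ∣ M` the root `r` is a zero of `red p (Pf (δ - δ'))`, so `M ∣ nm g (Pf (δ - δ'))`, and `|nm| ≤ C' H ^ 3` if all coordinates of `δ - δ'` are at most `H` (`nm_le`);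
with `H = c M ^ (1/3)`, `C' c ^ 3 < 1`: `nm = 0`, so `δ = δ'` (`nm_ne`; a nonzero polynomial of degree less than three is not divisible by `g`).  Divide the cube of side `2 C0 M ^ (1/3)` into `(2 C0 / c + 1) ^ 3` cells. -/

set_option autoImplicit false

namespace O1

open Polynomial Finset TW FQQ

open Classical in
private noncomputable def BL2_rts (g : ℤ[X]) (p : ℕ) : Finset ℕ :=
  (range p).filter fun a => (red p g).eval ((a : ℕ) : ZMod p) = 0

private theorem BL2_rts_card {g : ℤ[X]} (hg : g.Monic) (hd : g.natDegree = 3) (p : ℕ) (hp : p.Prime) :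
    (BL2_rts g p).card ≤ 3 := by
  classical
  have : Fact p.Prime := ⟨hp⟩
  have h0 : red p g ≠ 0 := (hg.map (Int.castRingHom (ZMod p))).ne_zero
  have h1 : (BL2_rts g p).card ≤ ((red p g).roots.toFinset).card := by
    apply Finset.card_le_card_of_injOn (fun a : ℕ => ((a : ℕ) : ZMod p))
    · intro a ha
      rw [BL2_rts, Finset.mem_coe, Finset.mem_filter] at ha
      simp only [Finset.mem_coe, Multiset.mem_toFinset]
      rw [Polynomial.mem_roots h0]
      exact ha.2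
    · intro a ha b hb hab
      rw [BL2_rts, Finset.mem_coe, Finset.mem_filter, Finset.mem_range] at ha hb
      simp only at hab
      rw [ZMod.natCast_eq_natCast_iff] at hab
      exact Nat.ModEq.eq_of_lt_of_lt hab ha.1 hb.1
  have h2 : ((red p g).roots.toFinset).card ≤ 3 := by
    calc ((red p g).roots.toFinset).card ≤ Multiset.card (red p g).roots := Multiset.toFinset_card_le _
      _ ≤ (red p g).natDegree := Polynomial.card_roots' _
      _ ≤ g.natDegree := Polynomial.natDegree_map_le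
      _ = 3 := hd
  omega

private theorem BL2_dvd {g : ℤ[X]} (hg : g.Monic) {p : ℕ} (hp : p.Prime) {r : ℤ} {P : ℤ[X]}
    (h1 : (red p g).eval (r : ZMod p) = 0) (h2 : (red p P).eval (r : ZMod p) = 0) : (p : ℤ) ∣ nm g P := by
  have : Fact p.Prime := ⟨hp⟩
  rw [← van_iff hg p hp]
  exact ⟨X - C (r : ZMod p), ⟨monic_X_sub_C _, irreducible_X_sub_C _, dvd_iff_isRoot.2 h1⟩, dvd_iff_isRoot.2 h2⟩

private theorem BL2_sqf {M : ℕ} (hM : Squarefree M) {D : ℤ} (h : ∀ p : ℕ, p.Prime → p ∣ M → (p : ℤ) ∣ D) :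
    (M : ℤ) ∣ D := by
  rw [Int.natCast_dvd, ← Nat.prod_primeFactors_of_squarefree hM]
  apply Finset.prod_primes_dvd
  · intro p hp
    exact (Nat.prime_of_mem_primeFactors hp).prime
  · intro p hp
    rw [← Int.natCast_dvd]
    exact h p (Nat.prime_of_mem_primeFactors hp) (Nat.dvd_of_mem_primeFactors hp)

private theorem BL2_coeff (f : Vn 2) (n : ℕ) : (Pf f).coeff n = if h : n < 3 then f ⟨n, h⟩ else 0 := by
  rw [Pf, finsetSum_coeff]
  simp only [coeff_C_mul, coeff_X_pow, mul_ite, mul_one, mul_zero]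
  split_ifs with h
  · rw [Finset.sum_eq_single (⟨n, h⟩ : Fin (2 + 1))]
    · simp
    · intro b _ hb
      rw [if_neg]
      intro hnb
      exact hb (Fin.ext hnb.symm)
    · intro hb
      exact absurd (Finset.mem_univ _) hb
  · apply Finset.sum_eq_zero
    intro b _
    rw [if_neg]
    have := b.isLt
    omega

private theorem BL2_deg (f : Vn 2) : (Pf f).natDegree ≤ 2 := by
  rw [natDegree_le_iff_coeff_eq_zero]
  intro n hn
  rw [BL2_coeff, dif_neg (by omega)]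

private theorem BL2_sub (f f' : Vn 2) : Pf (fun i => f i - f' i : Vn 2) = Pf f - Pf f' := by
  ext n
  rw [coeff_sub, BL2_coeff, BL2_coeff, BL2_coeff]
  split_ifs <;> simp

/-- two objects with the same `M` and `r` which are near each other are equal -/
private theorem BL2_near {g G1 G2 : ℤ[X]} (hD : Dat g G1 G2) {B : ℕ} {C0 C1 c : ℝ}
    (hC1 : ∀ (δ : Vn 2) (H : ℝ), (∀ i, |(δ i : ℝ)| ≤ H) → |((nm g (Pf δ) : ℤ) : ℝ)| ≤ C1 * H ^ 3)
    (hc : C1 * c ^ 3 < 1) {δ δ' : Vn 2} {M : ℕ} {r r' : ℤ} (h : Ob g B C0 δ M r) (h' : Ob g B C0 δ' M r')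
    (hr : ∀ p : ℕ, p.Prime → p ∣ M → (r : ZMod p) = (r' : ZMod p))
    (hn : ∀ i, |(δ i : ℝ) - δ' i| ≤ c * (M : ℝ) ^ ((1 : ℝ) / 3)) : δ = δ' := by
  have hM0 : (0 : ℝ) < M := by
    have := h.sq.ne_zero
    positivity
  have h1 : (M : ℤ) ∣ nm g (Pf (fun i => δ i - δ' i : Vn 2)) := by
    apply BL2_sqf h.sq
    intro p hp hpM
    apply BL2_dvd hD.gm hp (h.rt p hp hpM).1
    have e1 := (h.rt p hp hpM).2
    have e2 := (h'.rt p hp hpM).2
    rw [← hr p hp hpM] at e2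
    rw [BL2_sub, red, Polynomial.map_sub, eval_sub]
    rw [red] at e1 e2
    rw [e1, e2, sub_zero]
  have h2 := hC1 (fun i => δ i - δ' i : Vn 2) (c * (M : ℝ) ^ ((1 : ℝ) / 3)) (fun i => by
    push_cast
    exact hn i)
  have h3 : C1 * (c * (M : ℝ) ^ ((1 : ℝ) / 3)) ^ 3 < M := by
    have e3 : ((M : ℝ) ^ ((1 : ℝ) / 3)) ^ 3 = M := by
      rw [← Real.rpow_natCast, ← Real.rpow_mul hM0.le]
      norm_num
    rw [mul_pow, e3]
    nlinarith
  have h4 : nm g (Pf (fun i => δ i - δ' i : Vn 2)) = 0 := by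
    apply Int.eq_zero_of_abs_lt_dvd h1
    have e4 := h2.trans_lt h3
    exact_mod_cast e4
  by_contra hne
  have h5 : Pf (fun i => δ i - δ' i : Vn 2) ≠ 0 := by
    intro h0
    apply hne
    funext i
    have e5 : (Pf (fun i => δ i - δ' i : Vn 2)).coeff (i : ℕ) = 0 := by
      rw [h0, coeff_zero]
    rw [BL2_coeff, dif_pos i.isLt] at e5
    simpa [sub_eq_zero] using e5
  have h6 : ¬ g ∣ Pf (fun i => δ i - δ' i : Vn 2) := by
    apply hD.gm.not_dvd_of_natDegree_lt h5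
    have := BL2_deg (fun i => δ i - δ' i : Vn 2)
    rw [hD.gd]
    omega
  exact nm_ne hD.gm hD.gi h6 h4

/-- a bounded number of objects for given `M`, `r` -/
private theorem BL2_few {g G1 G2 : ℤ[X]} (hD : Dat g G1 G2) (B : ℕ) (C0 : ℝ) :
    ∃ K : ℕ, ∀ (F : Finset (Vn 2)) (M : ℕ) (ρ : ∀ p ∈ M.primeFactors, ℕ),
      (∀ δ ∈ F, ∃ r : ℤ, Ob g B C0 δ M r ∧ ∀ (p : ℕ) (hp : p ∈ M.primeFactors),
        (r : ZMod p) = ((ρ p hp : ℕ) : ZMod p)) → F.card ≤ K := by
  classical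
  obtain ⟨C1, hC1, hnm⟩ := nm_le hD.gm hD.gd
  obtain ⟨c, hc⟩ : ∃ c, c = 1 / (1 + C1) := ⟨_, rfl⟩
  have hc0 : 0 < c := by
    rw [hc]
    positivity
  have hc1 : c ≤ 1 := by
    rw [hc, div_le_one (by positivity)]
    linarith
  have hcC : C1 * c ^ 3 < 1 := by
    have e1 : c ^ 3 ≤ c := by
      calc c ^ 3 = c * c ^ 2 := by ring
        _ ≤ c * 1 := mul_le_mul_of_nonneg_left (pow_le_one₀ hc0.le hc1) hc0.le
        _ = c := mul_one c
    have e2 : C1 * c < 1 := by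
      rw [hc, mul_one_div, div_lt_one (by positivity)]
      linarith
    exact (mul_le_mul_of_nonneg_left e1 hC1.le).trans_lt e2
  obtain ⟨J, hJ⟩ : ∃ J : ℕ, J = ⌈|C0| / c⌉₊ + 1 := ⟨_, rfl⟩
  refine ⟨(2 * J + 1) ^ 3, fun F M ρ hF => ?_⟩
  rcases F.eq_empty_or_nonempty with rfl | ⟨δ0, hδ0⟩
  · simp
  obtain ⟨r0, hr0, -⟩ := hF δ0 hδ0
  have hM0 : (0 : ℝ) < M := by
    have := hr0.sq.ne_zero
    positivity
  obtain ⟨x, hx⟩ : ∃ x, x = c * (M : ℝ) ^ ((1 : ℝ) / 3) := ⟨_, rfl⟩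
  have hx0 : 0 < x := by
    rw [hx]
    positivity
  have hcard : (Fintype.piFinset fun _ : Fin 3 => Icc (-(J : ℤ)) (J : ℤ)).card = (2 * J + 1) ^ 3 := by
    rw [Fintype.card_piFinset, Finset.prod_const, Finset.card_univ, Fintype.card_fin, Int.card_Icc]
    congr 1
    omega
  rw [← hcard]
  apply Finset.card_le_card_of_injOn (fun δ : Vn 2 => (fun i : Fin 3 => ⌊(δ i : ℝ) / x⌋ : Fin 3 → ℤ))
  · intro δ hδ
    obtain ⟨r, hr, -⟩ := hF δ hδ
    simp only [Finset.mem_coe, Fintype.mem_piFinset, Finset.mem_Icc]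
    intro i
    have e1 := hr.sz i
    have e2 : |(δ i : ℝ) / x| ≤ J - 1 := by
      rw [abs_div, abs_of_pos hx0, div_le_iff₀ hx0]
      calc |(δ i : ℝ)| ≤ C0 * (M : ℝ) ^ ((1 : ℝ) / 3) := e1
        _ ≤ |C0| * (M : ℝ) ^ ((1 : ℝ) / 3) := mul_le_mul_of_nonneg_right (le_abs_self _) (by positivity)
        _ = |C0| / c * x := by
            rw [hx]
            field_simp
        _ ≤ (J - 1) * x := by
            apply mul_le_mul_of_nonneg_right _ hx0.le
            rw [hJ]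
            push_cast
            have := Nat.le_ceil (|C0| / c)
            linarith
    rw [abs_le] at e2
    constructor
    · rw [Int.le_floor]
      push_cast
      linarith
    · have e3 : (⌊(δ i : ℝ) / x⌋ : ℝ) ≤ J := (Int.floor_le _).trans (by linarith)
      exact_mod_cast e3
  · intro δ hδ δ' hδ' hdd
    obtain ⟨r, hr, hr2⟩ := hF δ hδ
    obtain ⟨r', hr', hr2'⟩ := hF δ' hδ'
    apply BL2_near hD hnm hcC hr hr'
    · intro p hp hpM
      have hpm : p ∈ M.primeFactors := Nat.mem_primeFactors.2 ⟨hp, hpM, hr.sq.ne_zero⟩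
      rw [hr2 p hpm, hr2' p hpm]
    · intro i
      have e4 := congrFun hdd i
      simp only at e4
      have e5 := Int.floor_le ((δ i : ℝ) / x)
      have e6 := Int.lt_floor_add_one ((δ i : ℝ) / x)
      have e7 := Int.floor_le ((δ' i : ℝ) / x)
      have e8 := Int.lt_floor_add_one ((δ' i : ℝ) / x)
      rw [e4] at e5 e6
      have e9 : |((δ i : ℝ) - δ' i) / x| ≤ 1 := by
        rw [sub_div, abs_le]
        constructor <;> linarith
      rw [abs_div, abs_of_pos hx0, div_le_one hx0] at e9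
      rw [← hx]
      exact e9

private theorem BL2_tau {M : ℕ} (hM : M ≠ 0) : 3 ^ M.primeFactors.card ≤ M.divisors.card ^ 2 := by
  have h1 : 2 ^ M.primeFactors.card ≤ M.divisors.card := by
    rw [Nat.card_divisors hM]
    apply Finset.pow_card_le_prod
    intro p hp
    have : 0 < M.factorization p := (Nat.prime_of_mem_primeFactors hp).factorization_pos_of_dvd hM
      (Nat.dvd_of_mem_primeFactors hp)
    omega
  calc 3 ^ M.primeFactors.card ≤ 4 ^ M.primeFactors.card := Nat.pow_le_pow_left (by norm_num) _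
    _ = (2 ^ M.primeFactors.card) ^ 2 := by
        rw [← pow_mul, mul_comm, pow_mul]
        norm_num
    _ ≤ M.divisors.card ^ 2 := Nat.pow_le_pow_left h1 2

private theorem BL2_nrm {k : Vn 1} (hk : k ≠ 0) : 1 ≤ nrm k := by
  have h1 : k 0 ≠ 0 ∨ k 1 ≠ 0 := by
    by_contra h
    push Not at h
    apply hk
    funext i
    fin_cases i
    · exact h.1
    · exact h.2
  rw [nrm]
  rcases h1 with h1 | h1
  · refine le_trans ?_ (le_max_left _ _)
    exact_mod_cast Int.one_le_abs h1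
  · refine le_trans ?_ (le_max_right _ _)
    exact_mod_cast Int.one_le_abs h1

/-- the size of `D` -/
private theorem BL2_size {g G1 G2 : ℤ[X]} (hD : Dat g G1 G2) : ∃ C2 : ℝ, 0 < C2 ∧ ∀ k : Vn 1,
    |((nm g (C (k 1) * G2 - C (k 0) * G1) : ℤ) : ℝ)| ≤ C2 * nrm k ^ 3 := by
  obtain ⟨C1, hC1, hnm⟩ := nm_le hD.gm hD.gd
  obtain ⟨A, hA⟩ : ∃ A : ℝ, A = 1 + ∑ i : Fin 3, (|((G2 %ₘ g).coeff (i : ℕ) : ℝ)| + |((G1 %ₘ g).coeff (i : ℕ) : ℝ)|) :=
    ⟨_, rfl⟩
  have hA0 : 0 < A := by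
    rw [hA]
    positivity
  refine ⟨C1 * A ^ 3, by positivity, fun k => ?_⟩
  have hcong : nm g (C (k 1) * G2 - C (k 0) * G1) =
      nm g (Pf (fun i => k 1 * (G2 %ₘ g).coeff (i : ℕ) - k 0 * (G1 %ₘ g).coeff (i : ℕ) : Vn 2)) := by
    apply nm_congr hD.gm
    have e1 : Pf (fun i => k 1 * (G2 %ₘ g).coeff (i : ℕ) - k 0 * (G1 %ₘ g).coeff (i : ℕ) : Vn 2) =
        C (k 1) * (G2 %ₘ g) - C (k 0) * (G1 %ₘ g) := by
      have hlt : ∀ (G : ℤ[X]) (n : ℕ), 3 ≤ n → (G %ₘ g).coeff n = 0 := by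
        intro G n hn
        apply coeff_eq_zero_of_degree_lt
        refine (degree_modByMonic_lt G hD.gm).trans_le ?_
        rw [degree_eq_natDegree hD.gm.ne_zero, hD.gd]
        exact_mod_cast hn
      ext n
      rw [BL2_coeff, coeff_sub, coeff_C_mul, coeff_C_mul]
      split_ifs with h
      · rfl
      · rw [hlt G2 n (by omega), hlt G1 n (by omega)]
        simp
    rw [e1]
    have e2 := modByMonic_add_div G1 g
    have e3 := modByMonic_add_div G2 g
    refine ⟨C (k 1) * (G2 /ₘ g) - C (k 0) * (G1 /ₘ g), ?_⟩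
    nth_rewrite 1 [← e2]
    nth_rewrite 1 [← e3]
    ring
  rw [hcong]
  refine (hnm _ (A * nrm k) fun i => ?_).trans (le_of_eq (by ring))
  push_cast
  have f0 : |(k 0 : ℝ)| ≤ nrm k := le_max_left _ _
  have f1 : |(k 1 : ℝ)| ≤ nrm k := le_max_right _ _
  have f2 : |((G2 %ₘ g).coeff (i : ℕ) : ℝ)| + |((G1 %ₘ g).coeff (i : ℕ) : ℝ)| ≤ A := by
    rw [hA]
    have := Finset.single_le_sum (f := fun i : Fin 3 =>
      |((G2 %ₘ g).coeff (i : ℕ) : ℝ)| + |((G1 %ₘ g).coeff (i : ℕ) : ℝ)|)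
      (fun j _ => by positivity) (Finset.mem_univ i)
    linarith
  have f3 : 0 ≤ nrm k := (abs_nonneg _).trans f0
  calc |(k 1 : ℝ) * ((G2 %ₘ g).coeff (i : ℕ) : ℝ) - (k 0 : ℝ) * ((G1 %ₘ g).coeff (i : ℕ) : ℝ)|
      ≤ |(k 1 : ℝ) * ((G2 %ₘ g).coeff (i : ℕ) : ℝ)| + |(k 0 : ℝ) * ((G1 %ₘ g).coeff (i : ℕ) : ℝ)| := abs_sub _ _
    _ = |(k 1 : ℝ)| * |((G2 %ₘ g).coeff (i : ℕ) : ℝ)| + |(k 0 : ℝ)| * |((G1 %ₘ g).coeff (i : ℕ) : ℝ)| := by
        rw [abs_mul, abs_mul]
    _ ≤ nrm k * |((G2 %ₘ g).coeff (i : ℕ) : ℝ)| + nrm k * |((G1 %ₘ g).coeff (i : ℕ) : ℝ)| := by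
        gcongr
    _ = (|((G2 %ₘ g).coeff (i : ℕ) : ℝ)| + |((G1 %ₘ g).coeff (i : ℕ) : ℝ)|) * nrm k := by ring
    _ ≤ A * nrm k := mul_le_mul_of_nonneg_right f2 f3

open Classical in
theorem bad_obj {g G1 G2 : ℤ[X]} (hD : Dat g G1 G2) (B : ℕ) (C0 : ℝ) (ε : ℝ) (hε : 0 < ε) :
    ∃ C : ℝ, 0 < C ∧ ∀ (H : ℕ) (k : Vn 1), k ≠ 0 →
      (((boxN 2 H).filter fun δ => ∃ (M : ℕ) (r : ℤ), Ob g B C0 δ M r ∧ Lt G1 G2 M r k).card : ℝ) ≤ C * (nrm k) ^ ε := by
  obtain ⟨K, hK⟩ := BL2_few hD B C0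
  obtain ⟨C2, hC2, hsize⟩ := BL2_size hD
  obtain ⟨Ct, hCt, htau⟩ := Pool.Agent.Lib.MP_2a816b_nt.divisor_bound (ε / 9) (by positivity)
  refine ⟨(K + 1) * (Ct ^ 3 * C2 ^ (ε / 3)), by positivity, fun H k hk => ?_⟩
  obtain ⟨D, hDD⟩ : ∃ D, D = nm g (C (k 1) * G2 - C (k 0) * G1) := ⟨_, rfl⟩
  have hD0 : D ≠ 0 := by
    rw [hDD]
    apply nm_ne hD.gm hD.gi
    intro hdiv
    apply hk
    have e1 := hD.nr (-(k 0)) (k 1) (by
      convert hdiv using 1
      rw [C_neg]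
      ring)
    funext i
    fin_cases i
    · simpa using e1.1
    · exact e1.2
  have hDn : D.natAbs ≠ 0 := Int.natAbs_ne_zero.2 hD0
  obtain ⟨S, hS⟩ : ∃ S, S = (boxN 2 H).filter fun δ => ∃ (M : ℕ) (r : ℤ), Ob g B C0 δ M r ∧ Lt G1 G2 M r k := ⟨_, rfl⟩
  rw [← hS]
  have hsub : S ⊆ D.natAbs.divisors.biUnion fun M =>
      (M.primeFactors.pi (fun p => BL2_rts g p)).biUnion fun ρ =>
        S.filter fun δ => ∃ r : ℤ, Ob g B C0 δ M r ∧ ∀ (p : ℕ) (hp : p ∈ M.primeFactors),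
          (r : ZMod p) = ((ρ p hp : ℕ) : ZMod p) := by
    intro δ hδ
    have hδ' := hδ
    rw [hS, Finset.mem_filter] at hδ'
    obtain ⟨-, M, r, hob, hlt⟩ := hδ'
    have hMD : (M : ℤ) ∣ D := by
      apply BL2_sqf hob.sq
      intro p hp hpM
      rw [hDD]
      apply BL2_dvd hD.gm hp (hob.rt p hp hpM).1
      have e2 : ((p : ℕ) : ℤ) ∣ k 1 * G2.eval r - k 0 * G1.eval r :=
        (Int.natCast_dvd_natCast.2 hpM).trans hlt
      have e3 : (red p (C (k 1) * G2 - C (k 0) * G1)).eval (r : ZMod p) =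
          ((k 1 * G2.eval r - k 0 * G1.eval r : ℤ) : ZMod p) := by
        have e4 : (red p (C (k 1) * G2 - C (k 0) * G1)).eval (r : ZMod p) =
            (Int.castRingHom (ZMod p)) ((C (k 1) * G2 - C (k 0) * G1).eval r) := by
          rw [red, eval_map, ← Polynomial.eval₂_at_apply]
          rfl
        rw [e4, eval_sub, eval_mul, eval_mul, eval_C, eval_C]
        rfl
      rw [e3, ZMod.intCast_zmod_eq_zero_iff_dvd]
      exact e2
    rw [Finset.mem_biUnion]
    refine ⟨M, Nat.mem_divisors.2 ⟨Int.natCast_dvd.1 hMD, hDn⟩, ?_⟩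
    rw [Finset.mem_biUnion]
    have hcast : ∀ p : ℕ, p.Prime → ((((r % (p : ℤ)).toNat : ℕ)) : ZMod p) = (r : ZMod p) := by
      intro p hp
      have e5 : (((r % (p : ℤ)).toNat : ℕ) : ℤ) = r % (p : ℤ) :=
        Int.toNat_of_nonneg (Int.emod_nonneg _ (by exact_mod_cast hp.ne_zero))
      have e6 : ((((r % (p : ℤ)).toNat : ℕ)) : ZMod p) = ((((r % (p : ℤ)).toNat : ℕ) : ℤ) : ZMod p) := by
        push_cast
        rfl
      rw [e6, e5, ZMod.intCast_mod]
    refine ⟨fun p _ => (r % (p : ℤ)).toNat, ?_, ?_⟩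
    · rw [Finset.mem_pi]
      intro p hp
      have hpp := Nat.prime_of_mem_primeFactors hp
      rw [BL2_rts, Finset.mem_filter, Finset.mem_range]
      constructor
      · have e7 : r % (p : ℤ) < p := Int.emod_lt_of_pos _ (by exact_mod_cast hpp.pos)
        have e8 : 0 ≤ r % (p : ℤ) := Int.emod_nonneg _ (by exact_mod_cast hpp.ne_zero)
        omega
      · rw [hcast p hpp]
        exact (hob.rt p hpp (Nat.dvd_of_mem_primeFactors hp)).1
    · rw [Finset.mem_filter]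
      refine ⟨hδ, r, hob, fun p hp => ?_⟩
      rw [hcast p (Nat.prime_of_mem_primeFactors hp)]
  have hcard : S.card ≤ D.natAbs.divisors.card * (D.natAbs.divisors.card ^ 2 * K) := by
    refine (Finset.card_le_card hsub).trans ?_
    refine Finset.card_biUnion_le.trans ?_
    refine (Finset.sum_le_card_nsmul _ _ (D.natAbs.divisors.card ^ 2 * K) fun M hM => ?_).trans (by
      rw [smul_eq_mul])
    have hM0 : M ≠ 0 := (Nat.pos_of_mem_divisors hM).ne'
    refine Finset.card_biUnion_le.trans ?_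
    refine (Finset.sum_le_card_nsmul _ _ K fun ρ _ => hK _ M ρ fun δ hδ => ?_).trans ?_
    · exact (Finset.mem_filter.1 hδ).2
    · rw [smul_eq_mul]
      apply Nat.mul_le_mul_right
      rw [Finset.card_pi]
      calc ∏ p ∈ M.primeFactors, (BL2_rts g p).card ≤ ∏ p ∈ M.primeFactors, 3 :=
            Finset.prod_le_prod' fun p hp => BL2_rts_card hD.gm hD.gd p (Nat.prime_of_mem_primeFactors hp)
        _ = 3 ^ M.primeFactors.card := by rw [Finset.prod_const]
        _ ≤ M.divisors.card ^ 2 := BL2_tau hM0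
        _ ≤ D.natAbs.divisors.card ^ 2 := Nat.pow_le_pow_left (Finset.card_le_card
            (Nat.divisors_subset_of_dvd hDn (Nat.dvd_of_mem_divisors hM))) 2
  have hn1 := BL2_nrm hk
  have hn0 : 0 < nrm k := by linarith
  have hDle : (D.natAbs : ℝ) ≤ C2 * nrm k ^ 3 := by
    have e9 := hsize k
    rw [← hDD] at e9
    rw [Nat.cast_natAbs, Int.cast_abs]
    exact e9
  have ht := htau D.natAbs (Nat.pos_of_ne_zero hDn)
  have ht3 : (D.natAbs.divisors.card : ℝ) ^ 3 ≤ Ct ^ 3 * C2 ^ (ε / 3) * nrm k ^ ε := by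
    calc (D.natAbs.divisors.card : ℝ) ^ 3 ≤ (Ct * (D.natAbs : ℝ) ^ (ε / 9)) ^ 3 :=
          pow_le_pow_left₀ (by positivity) ht 3
      _ ≤ (Ct * (C2 * nrm k ^ 3) ^ (ε / 9)) ^ 3 := by
          apply pow_le_pow_left₀ (by positivity)
          apply mul_le_mul_of_nonneg_left _ (by positivity)
          exact Real.rpow_le_rpow (by positivity) hDle (by positivity)
      _ = Ct ^ 3 * ((C2 * nrm k ^ 3) ^ (ε / 9)) ^ 3 := by ring
      _ = Ct ^ 3 * (C2 * nrm k ^ 3) ^ (ε / 3) := by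
          congr 1
          rw [← Real.rpow_natCast, ← Real.rpow_mul (by positivity)]
          congr 1
          push_cast
          ring
      _ = Ct ^ 3 * C2 ^ (ε / 3) * nrm k ^ ε := by
          rw [Real.mul_rpow hC2.le (by positivity), ← Real.rpow_natCast (nrm k) 3, ← Real.rpow_mul hn0.le, ← mul_assoc]
          congr 2
          push_cast
          ring
  calc (S.card : ℝ) ≤ ((D.natAbs.divisors.card * (D.natAbs.divisors.card ^ 2 * K) : ℕ) : ℝ) := by
        exact_mod_cast hcard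
    _ = K * (D.natAbs.divisors.card : ℝ) ^ 3 := by
        push_cast
        ring
    _ ≤ (K + 1) * (D.natAbs.divisors.card : ℝ) ^ 3 := by
        apply mul_le_mul_of_nonneg_right _ (by positivity)
        linarith
    _ ≤ (K + 1) * (Ct ^ 3 * C2 ^ (ε / 3) * nrm k ^ ε) := mul_le_mul_of_nonneg_left ht3 (by positivity)
    _ = (K + 1) * (Ct ^ 3 * C2 ^ (ε / 3)) * nrm k ^ ε := by ring

end O1
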