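import Pool.Agent.Lib.MP_10e784_agO.AL
import Pool.Agent.Lib.MP_10e784_agO.BL1
import Pool.Agent.Lib.MP_10e784_agO.BL2

/-! JOB BL3.  The total contribution of the bad objects.

Let `q0 = ⌈N ^ (1/100)⌉`.  `M` and `r mod M` are determined by `δ` up to the choice (any `Ob g B C0 δ M r`, `Ob g B C0 δ M' r'` have `M = M'` by `dv`, `cop`, `sq`, and `r ≡ r'` modulo `M` by `un`), so `BadO` gives a short vector for the same `(M, r)` as in the hypothesis `M ≤ C0 N ^ (3/2)`.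
If no `f` in the box has `Att` the term is zero; otherwise `att_lat` and `lat_count` (with `s = t ^ 2`): a shortest vector `k`, `4 N nrm k < q0 M`, and the term is at most `100 (N² / M + N / nrm k + 1) ≤ 100 (q0 N / nrm k + N / nrm k + 1) ≤ 300 q0 N / nrm k` as `nrm k ≤ q0 M / (4N) ≤ q0 C0 N ^ (1/2) ≤ N`.
The map `δ ↦ k`: for every `k` with `1 ≤ nrm k ≤ K := q0 C0 N ^ (1/2)` at most `C K ^ ε` objects (`bad_obj`, take `H` so large that `S ⊆ boxN 2 H`).  The sum over `k` of `1 / nrm k` is at most `8 K` (there are at most `8 l` vectors with `nrm k = l`) .  Total `≤ C q0 N K ^ (1 + ε) ≤ N ^ (19/10)` for large `N` (`ε = 1/10`). -/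

set_option autoImplicit false

namespace O1

open Polynomial Finset TW FQQ

theorem ob_unique {g : ℤ[X]} {B : ℕ} {C0 C0' : ℝ} {δ : Vn 2} {M M' : ℕ} {r r' : ℤ} (h : Ob g B C0 δ M r) (h' : Ob g B C0' δ M' r') :
    M = M' ∧ (M : ℤ) ∣ r - r' := by
  have hiff : ∀ p : ℕ, p.Prime → (p ∣ M ↔ p ∣ M') := fun p hp =>
    ⟨fun hd => (h'.dv p hp (h.cop p hp hd)).1 ((h.dv p hp (h.cop p hp hd)).2 hd),
     fun hd => (h.dv p hp (h'.cop p hp hd)).1 ((h'.dv p hp (h'.cop p hp hd)).2 hd)⟩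
  have hM : M = M' := (Nat.Squarefree.ext_iff h.sq h'.sq).2 hiff
  refine ⟨hM, ?_⟩
  have hpd : ∀ p : ℕ, p.Prime → p ∣ M → (p : ℤ) ∣ r - r' := by
    intro p hp hd
    have := Fact.mk hp
    obtain ⟨h1, h2⟩ := h'.rt p hp ((hiff p hp).1 hd)
    have hF : Fac g p (X - C (r' : ZMod p)) :=
      ⟨monic_X_sub_C _, irreducible_X_sub_C _, dvd_iff_isRoot.2 h1⟩
    have h3 := h.un p hp hd _ hF (dvd_iff_isRoot.2 h2)
    have h4 : (r' : ZMod p) = (r : ZMod p) := by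
      have h5 := congrArg (fun q : (ZMod p)[X] => q.coeff 0) h3
      simpa using h5
    exact (ZMod.intCast_eq_intCast_iff_dvd_sub r' r p).1 h4
  have hprod : (∏ p ∈ M.primeFactors, p) ∣ (r - r').natAbs := by
    refine Finset.prod_primes_dvd _ (fun p hp => ?_) (fun p hp => ?_)
    · exact (Nat.prime_of_mem_primeFactors hp).prime
    · exact Int.natCast_dvd.1 (hpd p (Nat.prime_of_mem_primeFactors hp) (Nat.dvd_of_mem_primeFactors hp))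
  rw [Nat.prod_primeFactors_of_squarefree h.sq] at hprod
  exact Int.natCast_dvd.2 hprod

/-- the sup norm as a natural number -/
private def BL3_l (k : Vn 1) : ℕ := max (k 0).natAbs (k 1).natAbs

private lemma BL3_nrm (k : Vn 1) : nrm k = (BL3_l k : ℝ) := by
  unfold nrm BL3_l
  rw [Nat.cast_max, Nat.cast_natAbs, Nat.cast_natAbs]
  push_cast
  rfl

private lemma BL3_pos (k : Vn 1) (hk : k ≠ 0) : 1 ≤ BL3_l k := by
  by_contra h
  have h0 : BL3_l k = 0 := by omega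
  unfold BL3_l at h0
  apply hk
  funext i
  have h1 : (k 0).natAbs = 0 := by omega
  have h2 : (k 1).natAbs = 0 := by omega
  fin_cases i
  · exact Int.natAbs_eq_zero.1 h1
  · exact Int.natAbs_eq_zero.1 h2

private lemma BL3_mem (k : Vn 1) (l : ℕ) : k ∈ boxN 1 l ↔ BL3_l k ≤ l := by
  unfold boxN BL3_l
  rw [Fintype.mem_piFinset]
  constructor
  · intro h
    have h0 := Finset.mem_Icc.1 (h 0)
    have h1 := Finset.mem_Icc.1 (h 1)
    omega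
  · intro h i
    rw [Finset.mem_Icc]
    fin_cases i
    · show -(l : ℤ) ≤ k 0 ∧ k 0 ≤ l
      omega
    · show -(l : ℤ) ≤ k 1 ∧ k 1 ≤ l
      omega

private lemma BL3_card (l : ℕ) : (boxN 1 l).card = (2 * l + 1) ^ 2 := by
  unfold boxN
  rw [Fintype.card_piFinset_const, Int.card_Icc]
  have h1 : ((l : ℤ) + 1 - -(l : ℤ)).toNat = 2 * l + 1 := by omega
  rw [h1]

private lemma BL3_shell (l : ℕ) (hl : 1 ≤ l) : ((boxN 1 l) \ (boxN 1 (l - 1))).card = 8 * l := by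
  have hsub : boxN 1 (l - 1) ⊆ boxN 1 l := by
    intro k hk
    rw [BL3_mem] at hk ⊢
    omega
  rw [Finset.card_sdiff_of_subset hsub, BL3_card, BL3_card]
  obtain ⟨m, rfl⟩ : ∃ m, l = m + 1 := ⟨l - 1, by omega⟩
  simp only [Nat.add_sub_cancel]
  have h1 : (2 * (m + 1) + 1) ^ 2 = (2 * m + 1) ^ 2 + 8 * (m + 1) := by ring
  rw [h1, Nat.add_sub_cancel_left]

open Classical in
private lemma BL3_term {g G1 G2 : ℤ[X]} (hD : Dat g G1 G2) {P0 B : ℕ} (hG : Good g G1 G2 P0 B) (C0 : ℝ) (N : ℕ)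
    (hN : 1 ≤ N)
    (hN' : (⌈(N : ℝ) ^ ((1 : ℝ) / 100)⌉₊ : ℝ) * (C0 * (N : ℝ) ^ ((3 : ℝ) / 2)) ≤ 4 * (N : ℝ) ^ 2)
    (δ : Vn 2) (hb : BadO g G1 G2 B C0 N δ)
    (hs : ∃ (M : ℕ) (r : ℤ), Ob g B C0 δ M r ∧ (M : ℝ) ≤ C0 * (N : ℝ) ^ ((3 : ℝ) / 2))
    (hne : ∃ f : Vn 1, Att g G1 G2 B δ (f 1) (f 0)) :
    ∃ k : Vn 1, k ≠ 0 ∧ (∃ (M : ℕ) (r : ℤ), Ob g B C0 δ M r ∧ Lt G1 G2 M r k) ∧
      4 * (N : ℝ) * nrm k ≤ (⌈(N : ℝ) ^ ((1 : ℝ) / 100)⌉₊ : ℝ) * (C0 * (N : ℝ) ^ ((3 : ℝ) / 2)) ∧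
      (((boxN 1 N).filter fun f => Att g G1 G2 B δ (f 1) (f 0)).card : ℝ) ≤
        300 * (⌈(N : ℝ) ^ ((1 : ℝ) / 100)⌉₊ : ℝ) * N / nrm k := by
  obtain ⟨M, r, hO, k0, hk0, hL0, hs0⟩ := hb
  obtain ⟨M', r', hO', hM'⟩ := hs
  obtain ⟨f0, hf0⟩ := hne
  obtain rfl := (ob_unique hO hO').1
  have hM1 : 1 ≤ M := Nat.one_le_iff_ne_zero.2 hO.sq.ne_zero
  obtain ⟨t, ht, hk⟩ := att_lat hD hG hO f0 hf0
  obtain ⟨k, hkne, hkL, hmin, hcount⟩ := lat_count N M hN hM1 t (t ^ 2)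
  set q : ℝ := (⌈(N : ℝ) ^ ((1 : ℝ) / 100)⌉₊ : ℝ) with hq
  have hNr : (1 : ℝ) ≤ N := by exact_mod_cast hN
  have hNpos : (0 : ℝ) < N := by linarith
  have hMr : (0 : ℝ) < M := by exact_mod_cast hM1
  have hq1 : 1 ≤ q := by
    have h1 : (1 : ℝ) ≤ (N : ℝ) ^ ((1 : ℝ) / 100) := Real.one_le_rpow hNr (by norm_num)
    exact h1.trans (Nat.le_ceil _)
  have hkpos : (0 : ℝ) < nrm k := by
    rw [BL3_nrm]
    exact_mod_cast BL3_pos k hkne
  have hle : nrm k ≤ nrm k0 := hmin k0 hk0 ((hk k0).1 hL0)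
  have h4 : 4 * (N : ℝ) * nrm k < q * M :=
    lt_of_le_of_lt (mul_le_mul_of_nonneg_left hle (by positivity)) hs0
  have h5 : 4 * (N : ℝ) * nrm k ≤ q * (C0 * (N : ℝ) ^ ((3 : ℝ) / 2)) :=
    h4.le.trans (mul_le_mul_of_nonneg_left hM' (by linarith))
  refine ⟨k, hkne, ⟨M, r, hO, (hk k).2 hkL⟩, h5, ?_⟩
  have h6 : nrm k ≤ N := by
    have h7 : 4 * (N : ℝ) * nrm k ≤ 4 * (N : ℝ) * N := h5.trans (hN'.trans (le_of_eq (by ring)))
    exact le_of_mul_le_mul_left h7 (by positivity)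
  have hsub : ((boxN 1 N).filter fun f => Att g G1 G2 B δ (f 1) (f 0)) ⊆
      ((boxN 1 N).filter fun f => (M : ℤ) ∣ t ^ 2 + evn f t) := by
    intro f hf
    rw [Finset.mem_filter] at hf ⊢
    exact ⟨hf.1, ht f hf.2⟩
  have hcard : (((boxN 1 N).filter fun f => Att g G1 G2 B δ (f 1) (f 0)).card : ℝ) ≤
      (((boxN 1 N).filter fun f => (M : ℤ) ∣ t ^ 2 + evn f t).card : ℝ) := by
    exact_mod_cast Finset.card_le_card hsub
  refine (hcard.trans hcount).trans ?_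
  have h8 : (N : ℝ) ^ 2 / M ≤ q * N / nrm k := by
    rw [div_le_div_iff₀ hMr hkpos]
    nlinarith [mul_lt_mul_of_pos_left h4 hNpos, mul_pos hNpos hkpos, mul_pos (mul_pos hNpos hNpos) hkpos]
  have h9 : (N : ℝ) / nrm k ≤ q * N / nrm k := by
    refine div_le_div_of_nonneg_right ?_ hkpos.le
    nlinarith
  have h10 : (1 : ℝ) ≤ q * N / nrm k := by
    rw [le_div_iff₀ hkpos]
    nlinarith
  have h11 : 300 * q * N / nrm k = 100 * (q * N / nrm k + q * N / nrm k + q * N / nrm k) := by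
    ring
  rw [h11]
  refine mul_le_mul_of_nonneg_left ?_ (by norm_num)
  linarith

/-- the counting argument -/
private lemma BL3_sum {S : Finset (Vn 2)} (κ : Vn 2 → Vn 1) (T : Vn 2 → ℝ) (A C : ℝ) (hA : 0 ≤ A) (hC : 0 ≤ C)
    (Kn : ℕ) (hk : ∀ δ ∈ S, κ δ ≠ 0) (hK : ∀ δ ∈ S, BL3_l (κ δ) ≤ Kn)
    (hT : ∀ δ ∈ S, T δ ≤ A / (BL3_l (κ δ) : ℝ))
    (hcnt : ∀ k : Vn 1, k ≠ 0 → ((S.filter fun δ => κ δ = k).card : ℝ) ≤ C * (BL3_l k : ℝ) ^ ((1 : ℝ) / 10)) :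
    ∑ δ ∈ S, T δ ≤ 8 * A * C * ((Kn : ℝ) * (Kn : ℝ) ^ ((1 : ℝ) / 10)) := by
  classical
  have h1 : ∑ δ ∈ S, T δ ≤ ∑ δ ∈ S, A / (BL3_l (κ δ) : ℝ) := Finset.sum_le_sum hT
  have h2 : ∑ δ ∈ S, A / (BL3_l (κ δ) : ℝ) =
      ∑ l ∈ Icc 1 Kn, ∑ δ ∈ S.filter (fun δ => BL3_l (κ δ) = l), A / (BL3_l (κ δ) : ℝ) := by
    rw [Finset.sum_fiberwise_of_maps_to]
    intro δ hδ
    rw [Finset.mem_Icc]
    exact ⟨BL3_pos _ (hk δ hδ), hK δ hδ⟩
  have h3 : ∀ l ∈ Icc 1 Kn, ∑ δ ∈ S.filter (fun δ => BL3_l (κ δ) = l), A / (BL3_l (κ δ) : ℝ) ≤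
      8 * A * C * (Kn : ℝ) ^ ((1 : ℝ) / 10) := by
    intro l hl
    rw [Finset.mem_Icc] at hl
    have hl0 : (0 : ℝ) < l := by exact_mod_cast hl.1
    have h4 : ∑ δ ∈ S.filter (fun δ => BL3_l (κ δ) = l), A / (BL3_l (κ δ) : ℝ) =
        ((S.filter (fun δ => BL3_l (κ δ) = l)).card : ℝ) * (A / l) := by
      rw [Finset.sum_congr rfl (g := fun _ => A / (l : ℝ))]
      · rw [Finset.sum_const, nsmul_eq_mul]
      · intro δ hδ
        rw [Finset.mem_filter] at hδ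
        rw [hδ.2]
    rw [h4]
    have h5 : ((S.filter (fun δ => BL3_l (κ δ) = l)).card : ℝ) ≤ (8 * l : ℝ) * (C * (l : ℝ) ^ ((1 : ℝ) / 10)) := by
      have h6 : (S.filter (fun δ => BL3_l (κ δ) = l)).card =
          ∑ k ∈ (boxN 1 l) \ (boxN 1 (l - 1)), ((S.filter (fun δ => BL3_l (κ δ) = l)).filter
            (fun δ => κ δ = k)).card := by
        refine Finset.card_eq_sum_card_fiberwise fun δ hδ => ?_
        have hδ' := (Finset.mem_filter.1 (Finset.mem_coe.1 hδ)).2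
        have h7 : κ δ ∈ (boxN 1 l) \ (boxN 1 (l - 1)) := by
          rw [Finset.mem_sdiff, BL3_mem, BL3_mem]
          omega
        exact_mod_cast h7
      rw [h6, Nat.cast_sum]
      have h8 : ∀ k ∈ (boxN 1 l) \ (boxN 1 (l - 1)),
          (((S.filter (fun δ => BL3_l (κ δ) = l)).filter (fun δ => κ δ = k)).card : ℝ) ≤
            C * (l : ℝ) ^ ((1 : ℝ) / 10) := by
        intro k hk'
        rw [Finset.mem_sdiff, BL3_mem, BL3_mem] at hk'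
        have hkl : BL3_l k = l := by omega
        have hk0 : k ≠ 0 := by
          rintro rfl
          have : BL3_l (0 : Vn 1) = 0 := by
            unfold BL3_l
            simp
          omega
        have h9 := hcnt k hk0
        rw [hkl] at h9
        refine le_trans ?_ h9
        have h10 : ((S.filter (fun δ => BL3_l (κ δ) = l)).filter (fun δ => κ δ = k)) ⊆ S.filter fun δ => κ δ = k := by
          intro δ hδ
          rw [Finset.mem_filter, Finset.mem_filter] at hδ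
          rw [Finset.mem_filter]
          exact ⟨hδ.1.1, hδ.2⟩
        exact_mod_cast Finset.card_le_card h10
      refine (Finset.sum_le_sum h8).trans ?_
      rw [Finset.sum_const, nsmul_eq_mul, BL3_shell l hl.1]
      push_cast
      exact le_rfl
    refine (mul_le_mul_of_nonneg_right h5 (by positivity)).trans ?_
    have h11 : (8 * l : ℝ) * (C * (l : ℝ) ^ ((1 : ℝ) / 10)) * (A / l) = 8 * A * C * (l : ℝ) ^ ((1 : ℝ) / 10) := by
      field_simp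
    rw [h11]
    refine mul_le_mul_of_nonneg_left ?_ (by positivity)
    refine Real.rpow_le_rpow hl0.le ?_ (by norm_num)
    exact_mod_cast hl.2
  rw [h2] at h1
  refine (h1.trans (Finset.sum_le_sum h3)).trans (le_of_eq ?_)
  rw [Finset.sum_const, nsmul_eq_mul, Nat.card_Icc]
  simp only [Nat.add_sub_cancel]
  ring

open Classical in
theorem bad_total {g G1 G2 : ℤ[X]} (hD : Dat g G1 G2) {P0 B : ℕ} (hG : Good g G1 G2 P0 B) (C0 : ℝ) (hC0 : 0 < C0) :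
    ∃ N0 : ℕ, ∀ N : ℕ, N0 ≤ N → ∀ S : Finset (Vn 2),
      (∀ δ ∈ S, BadO g G1 G2 B C0 N δ ∧ ∃ (M : ℕ) (r : ℤ), Ob g B C0 δ M r ∧ (M : ℝ) ≤ C0 * (N : ℝ) ^ ((3 : ℝ) / 2)) →
      ∑ δ ∈ S, (((boxN 1 N).filter fun f => Att g G1 G2 B δ (f 1) (f 0)).card : ℝ) ≤ (N : ℝ) ^ ((19 : ℝ) / 10) := by
  obtain ⟨C, hC, hobj⟩ := bad_obj hD B C0 ((1 : ℝ) / 10) (by norm_num)
  -- choice of N0
  have hev1 : ∀ᶠ N : ℕ in Filter.atTop, 4800 * C * C0 ^ ((11 : ℝ) / 10) ≤ (N : ℝ) ^ ((329 : ℝ) / 1000) :=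
    ((tendsto_rpow_atTop (by norm_num)).comp tendsto_natCast_atTop_atTop).eventually_ge_atTop _
  have hev2 : ∀ᶠ N : ℕ in Filter.atTop, C0 ≤ (N : ℝ) ^ ((49 : ℝ) / 100) :=
    ((tendsto_rpow_atTop (by norm_num)).comp tendsto_natCast_atTop_atTop).eventually_ge_atTop _
  obtain ⟨N0, hN0⟩ := Filter.eventually_atTop.1 (hev1.and (hev2.and (Filter.eventually_ge_atTop 1)))
  refine ⟨N0, fun N hN S hS => ?_⟩
  obtain ⟨hA1, hA2, hN1⟩ := hN0 N hN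
  have hNr : (1 : ℝ) ≤ N := by exact_mod_cast hN1
  have hNpos : (0 : ℝ) < N := by linarith
  set q : ℝ := (⌈(N : ℝ) ^ ((1 : ℝ) / 100)⌉₊ : ℝ) with hq
  have hr1 : (1 : ℝ) ≤ (N : ℝ) ^ ((1 : ℝ) / 100) := Real.one_le_rpow hNr (by norm_num)
  have hq1 : 1 ≤ q := hr1.trans (Nat.le_ceil _)
  have hq2 : q ≤ 2 * (N : ℝ) ^ ((1 : ℝ) / 100) := by
    have h1 := (Nat.ceil_lt_add_one (zero_le_one.trans hr1)).le
    rw [← hq] at h1
    linarith
  have hN' : q * (C0 * (N : ℝ) ^ ((3 : ℝ) / 2)) ≤ 4 * (N : ℝ) ^ 2 := by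
    have h1 : q * (C0 * (N : ℝ) ^ ((3 : ℝ) / 2)) ≤
        (2 * (N : ℝ) ^ ((1 : ℝ) / 100)) * ((N : ℝ) ^ ((49 : ℝ) / 100) * (N : ℝ) ^ ((3 : ℝ) / 2)) :=
      mul_le_mul hq2 (mul_le_mul_of_nonneg_right hA2 (by positivity)) (by positivity) (by positivity)
    have h2 : (2 * (N : ℝ) ^ ((1 : ℝ) / 100)) * ((N : ℝ) ^ ((49 : ℝ) / 100) * (N : ℝ) ^ ((3 : ℝ) / 2)) =
        2 * (N : ℝ) ^ 2 := by
      rw [mul_assoc, ← Real.rpow_add hNpos, ← Real.rpow_add hNpos, ← Real.rpow_natCast]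
      norm_num
    rw [h2] at h1
    nlinarith [sq_nonneg (N : ℝ)]
  -- the objects which contribute
  set T : Vn 2 → ℝ := fun δ => (((boxN 1 N).filter fun f => Att g G1 G2 B δ (f 1) (f 0)).card : ℝ) with hT
  set S' : Finset (Vn 2) := S.filter fun δ => ∃ f : Vn 1, Att g G1 G2 B δ (f 1) (f 0) with hS'
  have hsum : ∑ δ ∈ S, T δ = ∑ δ ∈ S', T δ := by
    rw [hS', Finset.sum_filter]
    refine Finset.sum_congr rfl fun δ _ => ?_
    split_ifs with h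
    · rfl
    · have h1 : ((boxN 1 N).filter fun f => Att g G1 G2 B δ (f 1) (f 0)) = ∅ := by
        rw [Finset.filter_eq_empty_iff]
        intro f _ hf
        exact h ⟨f, hf⟩
      show (((boxN 1 N).filter fun f => Att g G1 G2 B δ (f 1) (f 0)).card : ℝ) = 0
      rw [h1]
      simp
  have hch : ∀ δ : Vn 2, ∃ k : Vn 1, δ ∈ S' → k ≠ 0 ∧ (∃ (M : ℕ) (r : ℤ), Ob g B C0 δ M r ∧ Lt G1 G2 M r k) ∧
      4 * (N : ℝ) * nrm k ≤ q * (C0 * (N : ℝ) ^ ((3 : ℝ) / 2)) ∧ T δ ≤ 300 * q * N / nrm k := by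
    intro δ
    by_cases hδ : δ ∈ S'
    · rw [hS', Finset.mem_filter] at hδ
      obtain ⟨k, hk⟩ := BL3_term hD hG C0 N hN1 hN' δ (hS δ hδ.1).1 (hS δ hδ.1).2 hδ.2
      exact ⟨k, fun _ => hk⟩
    · exact ⟨0, fun h => absurd h hδ⟩
  choose κ hκ using hch
  -- the bound for the norms
  set K : ℝ := C0 * (N : ℝ) ^ ((51 : ℝ) / 100) with hK
  have hKpos : 0 < K := by positivity
  have hKle : ∀ δ ∈ S', (BL3_l (κ δ) : ℝ) ≤ K := by
    intro δ hδ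
    have h1 := (hκ δ hδ).2.2.1
    rw [BL3_nrm] at h1
    have h2 : q * (C0 * (N : ℝ) ^ ((3 : ℝ) / 2)) ≤ (2 * (N : ℝ) ^ ((1 : ℝ) / 100)) * (C0 * (N : ℝ) ^ ((3 : ℝ) / 2)) :=
      mul_le_mul_of_nonneg_right hq2 (by positivity)
    have h3 : (2 * (N : ℝ) ^ ((1 : ℝ) / 100)) * (C0 * (N : ℝ) ^ ((3 : ℝ) / 2)) = 2 * (N : ℝ) * K := by
      have h4 : (N : ℝ) ^ ((1 : ℝ) / 100) * (N : ℝ) ^ ((3 : ℝ) / 2) = (N : ℝ) * (N : ℝ) ^ ((51 : ℝ) / 100) := by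
        rw [← Real.rpow_add hNpos]
        nth_rewrite 2 [← Real.rpow_one (N : ℝ)]
        rw [← Real.rpow_add hNpos]
        norm_num
      calc (2 * (N : ℝ) ^ ((1 : ℝ) / 100)) * (C0 * (N : ℝ) ^ ((3 : ℝ) / 2)) =
            2 * C0 * ((N : ℝ) ^ ((1 : ℝ) / 100) * (N : ℝ) ^ ((3 : ℝ) / 2)) := by ring
        _ = 2 * C0 * ((N : ℝ) * (N : ℝ) ^ ((51 : ℝ) / 100)) := by rw [h4]
        _ = 2 * (N : ℝ) * K := by rw [hK]; ring
    have h5 : 4 * (N : ℝ) * (BL3_l (κ δ) : ℝ) ≤ 4 * (N : ℝ) * K := by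
      refine (h1.trans (h2.trans_eq h3)).trans ?_
      nlinarith [mul_pos hNpos hKpos]
    exact le_of_mul_le_mul_left h5 (by positivity)
  set H : ℕ := ∑ δ ∈ S, ∑ i, (δ i).natAbs with hH
  have hbox : ∀ δ ∈ S, δ ∈ boxN 2 H := by
    intro δ hδ
    unfold boxN
    rw [Fintype.mem_piFinset]
    intro i
    have h1 : (δ i).natAbs ≤ H := by
      rw [hH]
      calc (δ i).natAbs ≤ ∑ i, (δ i).natAbs :=
            Finset.single_le_sum (f := fun i => (δ i).natAbs) (fun _ _ => Nat.zero_le _) (mem_univ i)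
        _ ≤ ∑ δ ∈ S, ∑ i, (δ i).natAbs :=
            Finset.single_le_sum (f := fun δ : Vn 2 => ∑ i, (δ i).natAbs) (fun _ _ => Nat.zero_le _) hδ
    rw [Finset.mem_Icc]
    omega
  have hcnt : ∀ k : Vn 1, k ≠ 0 → ((S'.filter fun δ => κ δ = k).card : ℝ) ≤ C * (BL3_l k : ℝ) ^ ((1 : ℝ) / 10) := by
    intro k hk
    have h1 := hobj H k hk
    rw [BL3_nrm] at h1
    refine le_trans ?_ h1
    have h2 : (S'.filter fun δ => κ δ = k) ⊆
        ((boxN 2 H).filter fun δ => ∃ (M : ℕ) (r : ℤ), Ob g B C0 δ M r ∧ Lt G1 G2 M r k) := by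
      intro δ hδ
      rw [Finset.mem_filter] at hδ
      have h3 := (hκ δ hδ.1).2.1
      rw [hδ.2] at h3
      rw [Finset.mem_filter]
      exact ⟨hbox δ (Finset.mem_filter.1 hδ.1).1, h3⟩
    exact_mod_cast Finset.card_le_card h2
  have hmain := BL3_sum (S := S') κ T (300 * q * N) C (by positivity) hC.le ⌊K⌋₊ (fun δ hδ => (hκ δ hδ).1)
    (fun δ hδ => Nat.le_floor (hKle δ hδ)) (fun δ hδ => by
      have h1 := (hκ δ hδ).2.2.2
      rw [BL3_nrm] at h1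
      exact h1) hcnt
  rw [hsum]
  refine hmain.trans ?_
  have hfl : ((⌊K⌋₊ : ℕ) : ℝ) ≤ K := Nat.floor_le hKpos.le
  have h1 : ((⌊K⌋₊ : ℕ) : ℝ) * ((⌊K⌋₊ : ℕ) : ℝ) ^ ((1 : ℝ) / 10) ≤ K * K ^ ((1 : ℝ) / 10) :=
    mul_le_mul hfl (Real.rpow_le_rpow (Nat.cast_nonneg _) hfl (by norm_num)) (by positivity) hKpos.le
  have h2 : K * K ^ ((1 : ℝ) / 10) = C0 ^ ((11 : ℝ) / 10) * (N : ℝ) ^ ((561 : ℝ) / 1000) := by
    nth_rewrite 1 [← Real.rpow_one K]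
    rw [← Real.rpow_add hKpos, hK, Real.mul_rpow hC0.le (by positivity), ← Real.rpow_mul hNpos.le]
    norm_num
  rw [h2] at h1
  have h3 : 8 * (300 * q * N) * C * (((⌊K⌋₊ : ℕ) : ℝ) * ((⌊K⌋₊ : ℕ) : ℝ) ^ ((1 : ℝ) / 10)) ≤
      8 * (300 * (2 * (N : ℝ) ^ ((1 : ℝ) / 100)) * N) * C *
        (C0 ^ ((11 : ℝ) / 10) * (N : ℝ) ^ ((561 : ℝ) / 1000)) := by
    refine mul_le_mul ?_ h1 (by positivity) (by positivity)
    refine mul_le_mul_of_nonneg_right ?_ hC.le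
    refine mul_le_mul_of_nonneg_left ?_ (by norm_num)
    refine mul_le_mul_of_nonneg_right ?_ hNpos.le
    exact mul_le_mul_of_nonneg_left hq2 (by norm_num)
  refine h3.trans ?_
  have h4 : (N : ℝ) ^ ((1 : ℝ) / 100) * N * (N : ℝ) ^ ((561 : ℝ) / 1000) = (N : ℝ) ^ ((1571 : ℝ) / 1000) := by
    nth_rewrite 2 [← Real.rpow_one (N : ℝ)]
    rw [← Real.rpow_add hNpos, ← Real.rpow_add hNpos]
    norm_num
  have h5 : 8 * (300 * (2 * (N : ℝ) ^ ((1 : ℝ) / 100)) * N) * C *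
        (C0 ^ ((11 : ℝ) / 10) * (N : ℝ) ^ ((561 : ℝ) / 1000)) =
      (4800 * C * C0 ^ ((11 : ℝ) / 10)) * (N : ℝ) ^ ((1571 : ℝ) / 1000) := by
    rw [← h4]
    ring
  rw [h5]
  have h6 : (N : ℝ) ^ ((19 : ℝ) / 10) = (N : ℝ) ^ ((329 : ℝ) / 1000) * (N : ℝ) ^ ((1571 : ℝ) / 1000) := by
    rw [← Real.rpow_add hNpos]
    norm_num
  rw [h6]
  exact mul_le_mul_of_nonneg_right hA1 (by positivity)

end O1
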