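import Pool.Agent.Lib.MP_10e784_agO.CHc
import Pool.Agent.Lib.MP_10e784_ag.QCharSum
import Pool.Agent.Lib.MP_10e784_ag.EL.ELMert

/-!
# THEOREM ONE, lemma (III): a one-sided bound for the sums of a quadratic character over primes
-/

set_option autoImplicit false

namespace O1

open Finset ArithmeticFunction Polynomial

section

variable {χ : ℕ → ℝ} {q : ℕ} (h : Ch χ q)

theorem CHl_nonneg (χ : ℕ → ℝ) (D : ℕ) : 0 ≤ CHl χ D := le_max_left _ _

theorem CH_tel_sqrt {m : ℕ} (hm : 1 ≤ m) :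
    √(m : ℝ) / (m * (m + 1)) ≤ 2 * (1 / √(m : ℝ) - 1 / √((m : ℝ) + 1)) := by
  have hm0 : (0 : ℝ) < m := by exact_mod_cast hm
  obtain ⟨a, ha⟩ : ∃ a, a = √(m : ℝ) := ⟨_, rfl⟩
  obtain ⟨b, hb⟩ : ∃ b, b = √((m : ℝ) + 1) := ⟨_, rfl⟩
  have ha0 : 0 < a := by rw [ha]; exact Real.sqrt_pos.2 hm0
  have hb0 : 0 < b := by rw [hb]; exact Real.sqrt_pos.2 (by linarith)
  have ha2 : a * a = m := by rw [ha]; exact Real.mul_self_sqrt hm0.le
  have hb2 : b * b = (m : ℝ) + 1 := by rw [hb]; exact Real.mul_self_sqrt (by linarith)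
  have hab : a ≤ b := by
    rw [ha, hb]
    exact Real.sqrt_le_sqrt (by linarith)
  rw [← ha, ← hb, ← hb2, ← ha2]
  have e1 : a / (a * a * (b * b)) = 1 / (a * b * b) := by
    field_simp
  have e2 : 2 * (1 / a - 1 / b) = 2 * (b - a) / (a * b) := by
    field_simp
  rw [e1, e2, div_le_div_iff₀ (by positivity) (by positivity)]
  have h1 : (b - a) * (b + a) = 1 := by nlinarith
  have h2 : b - a ≤ b - a := le_rfl
  have h3 : 1 ≤ 2 * (b - a) * b := by nlinarith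
  nlinarith [mul_pos ha0 hb0]

theorem CH_log_up {m : ℕ} (hm : 1 ≤ m) : 1 / ((m : ℝ) + 1) ≤ Real.log ((m : ℝ) + 1) - Real.log m := by
  have hm0 : (0 : ℝ) < m := by exact_mod_cast hm
  have h1 := Real.one_sub_inv_le_log_of_pos (x := ((m : ℝ) + 1) / m) (by positivity)
  rw [Real.log_div (by linarith) hm0.ne'] at h1
  have e : 1 - (((m : ℝ) + 1) / m)⁻¹ = 1 / ((m : ℝ) + 1) := by
    field_simp
    ring
  rw [e] at h1
  exact h1

theorem CH_log_low (m : ℕ) : Real.log ((m : ℝ) + 1 + 1) - Real.log ((m : ℝ) + 1) ≤ 1 / ((m : ℝ) + 1) := by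
  have hm0 : (0 : ℝ) < (m : ℝ) + 1 := by positivity
  have h1 := Real.log_le_sub_one_of_pos (x := ((m : ℝ) + 1 + 1) / ((m : ℝ) + 1)) (by positivity)
  rw [Real.log_div (by linarith) hm0.ne'] at h1
  have e : ((m : ℝ) + 1 + 1) / ((m : ℝ) + 1) - 1 = 1 / ((m : ℝ) + 1) := by
    field_simp
    ring
  rw [e] at h1
  exact h1

theorem CH_telescope (g : ℕ → ℝ) {a N : ℕ} (haN : a ≤ N) :
    ∑ m ∈ Ico a N, (g m - g (m + 1)) = g a - g N := by
  induction N, haN using Nat.le_induction with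
  | base => simp
  | succ n hn ih =>
    rw [Finset.sum_Ico_succ_top hn, ih]
    ring

include h

theorem CHS_one_le {N : ℕ} (hN : 1 ≤ N) : 1 ≤ CHS χ N := by
  unfold CHS
  have h1 : CHf χ 1 / ((1 : ℕ) : ℝ) ≤ ∑ m ∈ Icc 1 N, CHf χ m / m :=
    Finset.single_le_sum (f := fun m : ℕ => CHf χ m / (m : ℝ))
      (fun m _ => div_nonneg (CHf_nonneg h m) (Nat.cast_nonneg m)) (mem_Icc.2 ⟨le_rfl, hN⟩)
  rw [CHf_one h] at h1
  simpa using h1

theorem CH_sqrt_le {a : ℕ} (ha : q ≤ a) : √(q : ℝ) / √(a : ℝ) ≤ 1 := by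
  have hq0 : (0 : ℝ) < q := by
    have := h.hq
    exact_mod_cast (by omega : 0 < q)
  have h1 : √(q : ℝ) ≤ √(a : ℝ) := Real.sqrt_le_sqrt (by exact_mod_cast ha)
  have h2 : 0 < √(q : ℝ) := Real.sqrt_pos.2 hq0
  exact (div_le_one (h2.trans_le h1)).2 h1

/-- the upper bound for the increments of `S` -/
theorem CHS_up {D M : ℕ} (hD : q * M + 1 ≤ D) {a N : ℕ} (ha : q ≤ a) (haN : a ≤ N) (hNM : N ≤ M) :
    CHS χ N ≤ CHS χ a + CHl χ D * (1 + Real.log N - Real.log a) + 18 := by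
  have hq2 := h.hq
  have ha1 : 1 ≤ a := by omega
  have hN1 : 1 ≤ N := by omega
  obtain ⟨F, hF⟩ : ∃ F : ℕ → ℝ, F = fun N => ∑ m ∈ Icc 1 N, CHf χ m := ⟨_, rfl⟩
  obtain ⟨l, hl⟩ : ∃ l, l = CHl χ D := ⟨_, rfl⟩
  have hl0 : 0 ≤ l := by rw [hl]; exact CHl_nonneg χ D
  have hFb : ∀ m, 1 ≤ m → m ≤ M → F m ≤ l * m + 6 * (√(q : ℝ) * √(m : ℝ)) := by
    intro m hm1 hm2
    have h1 := CH_F_sqrt h hm1 (le_trans (by have := Nat.mul_le_mul_left q hm2; omega) hD : q * m + 1 ≤ D)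
    rw [Real.sqrt_mul (Nat.cast_nonneg q), ← hl] at h1
    have h2 := (abs_le.1 h1).2
    rw [hF]
    show ∑ m ∈ Icc 1 m, CHf χ m ≤ _
    linarith
  have hF0 : ∀ m, 0 ≤ F m := fun m => by
    rw [hF]
    exact Finset.sum_nonneg fun m _ => CHf_nonneg h m
  have hSN : CHS χ N = F N / N + ∑ m ∈ Ico 1 N, F m / (m * (m + 1)) := by
    rw [CHS_eq h N hN1, hF]
  have hSa : CHS χ a = F a / a + ∑ m ∈ Ico 1 a, F m / (m * (m + 1)) := by
    rw [CHS_eq h a ha1, hF]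
  have hsum : ∑ m ∈ Ico 1 N, F m / ((m : ℝ) * (m + 1)) =
      ∑ m ∈ Ico 1 a, F m / ((m : ℝ) * (m + 1)) + ∑ m ∈ Ico a N, F m / ((m : ℝ) * (m + 1)) :=
    (Finset.sum_Ico_consecutive _ ha1 haN).symm
  have hterm : ∑ m ∈ Ico a N, F m / ((m : ℝ) * (m + 1)) ≤
      ∑ m ∈ Ico a N, ((-(l * Real.log m) + 12 * √(q : ℝ) * (1 / √(m : ℝ))) -
        (-(l * Real.log ((m + 1 : ℕ) : ℝ)) + 12 * √(q : ℝ) * (1 / √((m + 1 : ℕ) : ℝ)))) := by
    refine Finset.sum_le_sum fun m hm => ?_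
    rw [mem_Ico] at hm
    have hm1 : 1 ≤ m := by omega
    have hm0 : (0 : ℝ) < m := by exact_mod_cast hm1
    have h1 := hFb m hm1 (by omega)
    have h2 := CH_tel_sqrt hm1
    have h3 := CH_log_up hm1
    have h4 : F m / ((m : ℝ) * (m + 1)) ≤ l * (1 / ((m : ℝ) + 1)) +
        6 * √(q : ℝ) * (√(m : ℝ) / (m * (m + 1))) := by
      calc F m / ((m : ℝ) * (m + 1)) ≤ (l * m + 6 * (√(q : ℝ) * √(m : ℝ))) / ((m : ℝ) * (m + 1)) :=
            div_le_div_of_nonneg_right h1 (by positivity)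
        _ = _ := by
          field_simp
    have h5 : l * (1 / ((m : ℝ) + 1)) ≤ l * (Real.log ((m : ℝ) + 1) - Real.log m) :=
      mul_le_mul_of_nonneg_left h3 hl0
    have h6 : 6 * √(q : ℝ) * (√(m : ℝ) / (m * (m + 1))) ≤
        6 * √(q : ℝ) * (2 * (1 / √(m : ℝ) - 1 / √((m : ℝ) + 1))) :=
      mul_le_mul_of_nonneg_left h2 (by positivity)
    push_cast
    linarith
  rw [CH_telescope (fun m : ℕ => -(l * Real.log m) + 12 * √(q : ℝ) * (1 / √(m : ℝ))) haN] at hterm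
  have hsa := CH_sqrt_le h ha
  have hsN := CH_sqrt_le h (ha.trans haN)
  have hN0 : (0 : ℝ) < N := by exact_mod_cast hN1
  have ha0 : (0 : ℝ) < a := by exact_mod_cast ha1
  have h7 : F N / N ≤ l + 6 := by
    have h8 := hFb N hN1 hNM
    calc F N / N ≤ (l * N + 6 * (√(q : ℝ) * √(N : ℝ))) / N := div_le_div_of_nonneg_right h8 hN0.le
      _ = l + 6 * (√(q : ℝ) / √(N : ℝ)) := by
        have h9 : √(N : ℝ) * √(N : ℝ) = N := Real.mul_self_sqrt hN0.le
        have h10 : 0 < √(N : ℝ) := Real.sqrt_pos.2 hN0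
        have h11 : 6 * (√(q : ℝ) * √(N : ℝ)) = 6 * (√(q : ℝ) / √(N : ℝ)) * N := by
          calc 6 * (√(q : ℝ) * √(N : ℝ)) = 6 * (√(q : ℝ) / √(N : ℝ)) * (√(N : ℝ) * √(N : ℝ)) := by
                field_simp
            _ = _ := by rw [h9]
        rw [h11, add_div, mul_div_assoc, div_self hN0.ne', mul_one, mul_div_assoc, div_self hN0.ne', mul_one]
      _ ≤ l + 6 := by linarith
  have h8 : 0 ≤ F a / a := div_nonneg (hF0 a) ha0.le
  have h9 : 12 * √(q : ℝ) * (1 / √(a : ℝ)) ≤ 12 := by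
    calc 12 * √(q : ℝ) * (1 / √(a : ℝ)) = 12 * (√(q : ℝ) / √(a : ℝ)) := by ring
      _ ≤ 12 := by linarith
  have h10 : 0 ≤ 12 * √(q : ℝ) * (1 / √(N : ℝ)) := by positivity
  rw [hSN, hSa, hsum, ← hl]
  linarith

/-- the lower bound for `S` -/
theorem CHS_low {D M : ℕ} (hD : q * M + 1 ≤ D) {N : ℕ} (hqN : q ^ 4 ≤ N) (hNM : N ≤ M) :
    CHl χ D * Real.log N ≤ 26 * CHS χ N := by
  have hq2 := h.hq
  have hq1 : q ≤ q ^ 4 := Nat.le_self_pow (by norm_num) q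
  have hqN' : q ≤ N := hq1.trans hqN
  have hN1 : 1 ≤ N := by omega
  obtain ⟨F, hF⟩ : ∃ F : ℕ → ℝ, F = fun N => ∑ m ∈ Icc 1 N, CHf χ m := ⟨_, rfl⟩
  obtain ⟨l, hl⟩ : ∃ l, l = CHl χ D := ⟨_, rfl⟩
  have hl0 : 0 ≤ l := by rw [hl]; exact CHl_nonneg χ D
  have hFb : ∀ m, 1 ≤ m → m ≤ M → l * m - 6 * (√(q : ℝ) * √(m : ℝ)) ≤ F m := by
    intro m hm1 hm2
    have h1 := CH_F_sqrt h hm1 (le_trans (by have := Nat.mul_le_mul_left q hm2; omega) hD : q * m + 1 ≤ D)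
    rw [Real.sqrt_mul (Nat.cast_nonneg q), ← hl] at h1
    have h2 := (abs_le.1 h1).1
    rw [hF]
    show _ ≤ ∑ m ∈ Icc 1 m, CHf χ m
    linarith
  have hF0 : ∀ m, 0 ≤ F m := fun m => by
    rw [hF]
    exact Finset.sum_nonneg fun m _ => CHf_nonneg h m
  have hSN : CHS χ N = F N / N + ∑ m ∈ Ico 1 N, F m / (m * (m + 1)) := by
    rw [CHS_eq h N hN1, hF]
  have hsum : ∑ m ∈ Ico 1 N, F m / ((m : ℝ) * (m + 1)) =
      ∑ m ∈ Ico 1 q, F m / ((m : ℝ) * (m + 1)) + ∑ m ∈ Ico q N, F m / ((m : ℝ) * (m + 1)) :=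
    (Finset.sum_Ico_consecutive _ (by omega) hqN').symm
  have hpos1 : 0 ≤ ∑ m ∈ Ico 1 q, F m / ((m : ℝ) * (m + 1)) :=
    Finset.sum_nonneg fun m _ => div_nonneg (hF0 m) (by positivity)
  have hterm : ∑ m ∈ Ico q N, ((-(l * Real.log ((m : ℝ) + 1)) - 12 * √(q : ℝ) * (1 / √(m : ℝ))) -
        (-(l * Real.log (((m + 1 : ℕ) : ℝ) + 1)) - 12 * √(q : ℝ) * (1 / √((m + 1 : ℕ) : ℝ)))) ≤
      ∑ m ∈ Ico q N, F m / ((m : ℝ) * (m + 1)) := by
    refine Finset.sum_le_sum fun m hm => ?_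
    rw [mem_Ico] at hm
    have hm1 : 1 ≤ m := by omega
    have hm0 : (0 : ℝ) < m := by exact_mod_cast hm1
    have h1 := hFb m hm1 (by omega)
    have h2 := CH_tel_sqrt hm1
    have h3 := CH_log_low m
    have h4 : l * (1 / ((m : ℝ) + 1)) - 6 * √(q : ℝ) * (√(m : ℝ) / (m * (m + 1))) ≤
        F m / ((m : ℝ) * (m + 1)) := by
      calc l * (1 / ((m : ℝ) + 1)) - 6 * √(q : ℝ) * (√(m : ℝ) / (m * (m + 1)))
          = (l * m - 6 * (√(q : ℝ) * √(m : ℝ))) / ((m : ℝ) * (m + 1)) := by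
            field_simp
        _ ≤ _ := div_le_div_of_nonneg_right h1 (by positivity)
    have h5 : l * (Real.log ((m : ℝ) + 1 + 1) - Real.log ((m : ℝ) + 1)) ≤ l * (1 / ((m : ℝ) + 1)) :=
      mul_le_mul_of_nonneg_left h3 hl0
    have h6 : 6 * √(q : ℝ) * (√(m : ℝ) / (m * (m + 1))) ≤
        6 * √(q : ℝ) * (2 * (1 / √(m : ℝ) - 1 / √((m : ℝ) + 1))) :=
      mul_le_mul_of_nonneg_left h2 (by positivity)
    push_cast
    linarith
  rw [CH_telescope (fun m : ℕ => -(l * Real.log ((m : ℝ) + 1)) - 12 * √(q : ℝ) * (1 / √(m : ℝ))) hqN']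
    at hterm
  have hsq := CH_sqrt_le h (le_refl q)
  have hN0 : (0 : ℝ) < N := by exact_mod_cast hN1
  have h8 : 0 ≤ F N / N := div_nonneg (hF0 N) hN0.le
  have h9 : 12 * √(q : ℝ) * (1 / √(q : ℝ)) ≤ 12 := by
    calc 12 * √(q : ℝ) * (1 / √(q : ℝ)) = 12 * (√(q : ℝ) / √(q : ℝ)) := by ring
      _ ≤ 12 := by linarith
  have h10 : 0 ≤ 12 * √(q : ℝ) * (1 / √(N : ℝ)) := by positivity
  -- the logarithms
  have h11 : Real.log ((q : ℝ) + 1) ≤ 1 / 2 * Real.log N := by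
    have h12 : (q + 1) ^ 2 ≤ N := by
      refine le_trans ?_ hqN
      have h13 : q + 1 ≤ q ^ 2 := by nlinarith
      calc (q + 1) ^ 2 ≤ (q ^ 2) ^ 2 := Nat.pow_le_pow_left h13 2
        _ = q ^ 4 := by ring
    have h14 : Real.log (((q : ℝ) + 1) ^ 2) ≤ Real.log N :=
      Real.log_le_log (by positivity) (by exact_mod_cast h12)
    rw [Real.log_pow] at h14
    push_cast at h14
    linarith
  have h15 : Real.log N ≤ Real.log ((N : ℝ) + 1) := Real.log_le_log hN0 (by linarith)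
  have h16 : l * (1 / 2 * Real.log N) ≤ l * (Real.log ((N : ℝ) + 1) - Real.log ((q : ℝ) + 1)) :=
    mul_le_mul_of_nonneg_left (by linarith) hl0
  have h17 := CHS_one_le h hN1
  rw [← hl]
  have h18 : l * (1 / 2 * Real.log N) ≤ CHS χ N + 12 := by
    rw [hSN, hsum]
    linarith
  linarith

/-- the comparison of the Euler products -/
theorem CHZ_cmp {x z : ℕ} (hqx4 : q ^ 4 ≤ x) (hz : x ≤ z) :
    CHZ χ 1 z ≤ 2638 * (Real.log z / Real.log x) * CHZ χ 1 x := by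
  have hq2 := h.hq
  have hx16 : 16 ≤ x := by
    refine le_trans ?_ hqx4
    calc 16 = 2 ^ 4 := by norm_num
      _ ≤ q ^ 4 := Nat.pow_le_pow_left hq2 4
  have hz16 : 16 ≤ z := hx16.trans hz
  have h1 := CHZ_le h (N := z) (by omega)
  have hqx : q ≤ x := (Nat.le_self_pow (by norm_num) q).trans hqx4
  have hzz : z ≤ z ^ 49 := Nat.le_self_pow (by norm_num) z
  have h2 := CHS_up h (D := q * z ^ 49 + 1) (M := z ^ 49) le_rfl (a := x) (N := z ^ 49) hqx
    (hz.trans hzz) le_rfl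
  have h3 := CHS_low h (D := q * z ^ 49 + 1) (M := z ^ 49) le_rfl (N := x) hqx4 (hz.trans hzz)
  have h4 := CHS_le h x
  have h5 := CHS_one_le h (N := x) (by omega)
  obtain ⟨l, hl⟩ : ∃ l, l = CHl χ (q * z ^ 49 + 1) := ⟨_, rfl⟩
  have hl0 : 0 ≤ l := by rw [hl]; exact CHl_nonneg χ _
  rw [← hl] at h2 h3
  obtain ⟨S, hS⟩ : ∃ S, S = CHS χ x := ⟨_, rfl⟩
  rw [← hS] at h2 h3 h4 h5
  have hlx : 1 ≤ Real.log x := by
    rw [Real.le_log_iff_exp_le (by exact_mod_cast (by omega : 0 < x))]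
    have h6 := Real.exp_one_lt_d9
    have h7 : (16 : ℝ) ≤ x := by exact_mod_cast hx16
    linarith
  have hxz : Real.log x ≤ Real.log z :=
    Real.log_le_log (by exact_mod_cast (by omega : 0 < x)) (by exact_mod_cast hz)
  obtain ⟨r, hr⟩ : ∃ r, r = Real.log z / Real.log x := ⟨_, rfl⟩
  rw [← hr]
  have hr1 : 1 ≤ r := by
    rw [hr, one_le_div (by linarith)]
    exact hxz
  have hlz : Real.log z = r * Real.log x := by
    rw [hr, div_mul_cancel₀]
    linarith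
  have e1 : Real.log ((z ^ 49 : ℕ) : ℝ) = 49 * Real.log z := by
    rw [Nat.cast_pow, Real.log_pow]
    norm_num
  rw [e1] at h2
  have h6 : l ≤ 26 * S := by
    have : l * 1 ≤ l * Real.log x := mul_le_mul_of_nonneg_left hlx hl0
    linarith
  have h7 : l * (49 * Real.log z) ≤ 1274 * r * S := by
    calc l * (49 * Real.log z) = 49 * r * (l * Real.log x) := by rw [hlz]; ring
      _ ≤ 49 * r * (26 * S) := mul_le_mul_of_nonneg_left h3 (by positivity)
      _ = 1274 * r * S := by ring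
  have h8 : 0 ≤ l * Real.log x := mul_nonneg hl0 (by linarith)
  have h9 : CHS χ (z ^ 49) ≤ 1319 * r * S := by
    have h10 : S + 26 * S + 18 ≤ 45 * r * S := by
      have h11 : S ≤ r * S := le_mul_of_one_le_left (by linarith) hr1
      linarith
    have h12 : l * (1 + 49 * Real.log z - Real.log x) = l + l * (49 * Real.log z) - l * Real.log x := by ring
    rw [h12] at h2
    linarith
  calc CHZ χ 1 z ≤ 2 * (1319 * r * S) := by linarith
    _ = 2638 * r * S := by ring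
    _ ≤ 2638 * r * CHZ χ 1 x := mul_le_mul_of_nonneg_left h4 (by positivity)

theorem CH_prod_low {x z : ℕ} (hxz : x ≤ z) :
    Real.exp (∑ p ∈ (Ioc x z).filter Nat.Prime, (1 + χ p) / p) * CHZ χ 1 x ≤ CHZ χ 1 z := by
  have hsplit : (Icc 1 z).filter Nat.Prime = (Icc 1 x).filter Nat.Prime ∪ (Ioc x z).filter Nat.Prime := by
    ext p
    simp only [mem_filter, mem_Icc, mem_union, mem_Ioc]
    constructor
    · rintro ⟨⟨h3, h4⟩, h5⟩
      rcases le_or_gt p x with h6 | h6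
      · exact Or.inl ⟨⟨h3, h6⟩, h5⟩
      · exact Or.inr ⟨⟨h6, h4⟩, h5⟩
    · rintro (⟨⟨h3, h4⟩, h5⟩ | ⟨⟨h3, h4⟩, h5⟩)
      · exact ⟨⟨h3, h4.trans hxz⟩, h5⟩
      · exact ⟨⟨by omega, h4⟩, h5⟩
  have hdisj : Disjoint ((Icc 1 x).filter Nat.Prime) ((Ioc x z).filter Nat.Prime) := by
    rw [Finset.disjoint_left]
    intro p hp hp'
    simp only [mem_filter, mem_Icc, mem_Ioc] at hp hp'
    omega
  have e : CHZ χ 1 z = CHZ χ 1 x * ∏ p ∈ (Ioc x z).filter Nat.Prime,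
      ((1 - (p : ℝ) ^ (-(1 : ℝ)))⁻¹ * (1 - χ p * (p : ℝ) ^ (-(1 : ℝ)))⁻¹) := by
    unfold CHZ
    rw [hsplit, Finset.prod_union hdisj]
  rw [e, mul_comm]
  refine mul_le_mul_of_nonneg_left ?_ (CHZ_pos h one_pos x).le
  rw [Real.exp_sum]
  refine Finset.prod_le_prod (fun p _ => (Real.exp_pos _).le) fun p hp => ?_
  have hp' : p.Prime := (mem_filter.1 hp).2
  have hp2 : (2 : ℝ) ≤ p := by exact_mod_cast hp'.two_le
  rw [Real.rpow_neg_one]
  have hy1 : (p : ℝ)⁻¹ ≤ 1 / 2 := by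
    rw [inv_eq_one_div]
    exact one_div_le_one_div_of_le two_pos hp2
  have hy0 : 0 < (p : ℝ)⁻¹ := by positivity
  have hχ : χ p * (p : ℝ)⁻¹ ≤ (p : ℝ)⁻¹ := mul_le_of_le_one_left hy0.le (abs_le.1 (h.le p)).2
  have e2 : (1 + χ p) / (p : ℝ) = (p : ℝ)⁻¹ + χ p * (p : ℝ)⁻¹ := by
    rw [div_eq_mul_inv]
    ring
  have hg : ∀ t : ℝ, t < 1 → Real.exp t ≤ (1 - t)⁻¹ := by
    intro t ht
    have h1 := Real.add_one_le_exp (-t)
    have h2 : Real.exp t * Real.exp (-t) = 1 := by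
      rw [← Real.exp_add, add_neg_cancel, Real.exp_zero]
    rw [inv_eq_one_div, le_div_iff₀ (by linarith)]
    have h3 := Real.exp_pos t
    nlinarith
  rw [e2, Real.exp_add]
  exact mul_le_mul (hg _ (by linarith)) (hg _ (by linarith)) (Real.exp_pos _).le
    (inv_nonneg.2 (by linarith))

end

/-! ### Mertens' second theorem -/

private theorem C3_rtX (p : ℕ) (hp : p.Prime) : PT.rt (X : ℤ[X]) p = 1 := by
  have : Fact p.Prime := ⟨hp⟩
  unfold PT.rt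
  simp only [Polynomial.map_X, eval_X]
  rw [Nat.card_unique]

private theorem C3_PS (x : ℝ) : PT.PS (fun p => (PT.rt (X : ℤ[X]) p : ℝ)) x = PT.PS (fun _ => 1) x := by
  unfold PT.PS
  refine Finset.sum_congr rfl fun p hp => ?_
  simp only [Finset.mem_filter] at hp
  simp only [C3_rtX p hp.2, Nat.cast_one]

/-- both sides of Mertens' second theorem -/
theorem mertens_two : ∃ A : ℝ, 0 ≤ A ∧ ∀ x : ℝ, 2 ≤ x →
    PT.PS (fun _ => 1) x ≤ Real.log (Real.log x) + A ∧ Real.log (Real.log x) - A ≤ PT.PS (fun _ => 1) x := by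
  have hirr : Irreducible ((X : ℤ[X]).map (Int.castRingHom ℚ)) := by rw [Polynomial.map_X]; exact irreducible_X
  obtain ⟨C1, hC1⟩ := PT.rt_sum (X : ℤ[X]) hirr
  obtain ⟨C2, hC2⟩ := TW.rt_low (X : ℤ[X]) monic_X hirr
  refine ⟨|C1| + |C2|, by positivity, fun x hx => ?_⟩
  have h1 := hC1 x hx
  have h2 := hC2 x hx
  rw [C3_PS x] at h1 h2
  constructor
  · linarith [le_abs_self C1, abs_nonneg C2]
  · linarith [le_abs_self C2, abs_nonneg C1]

/-- the sum of `1 / p` over `x < p ≤ z` -/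
theorem mertens_low : ∃ A : ℝ, 0 ≤ A ∧ ∀ x z : ℕ, 2 ≤ x → x ≤ z →
    Real.log (Real.log z) - Real.log (Real.log x) - A ≤ ∑ p ∈ (Ioc x z).filter Nat.Prime, 1 / (p : ℝ) := by
  obtain ⟨A, hA, h⟩ := mertens_two
  refine ⟨2 * A, by linarith, fun x z hx hxz => ?_⟩
  have h1 := (h x (by exact_mod_cast hx)).1
  have h2 := (h z (by exact_mod_cast (hx.trans hxz))).2
  have e : PT.PS (fun _ => 1) (z : ℝ) = PT.PS (fun _ => 1) (x : ℝ) +
      ∑ p ∈ (Ioc x z).filter Nat.Prime, 1 / (p : ℝ) := by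
    unfold PT.PS
    rw [Nat.floor_natCast, Nat.floor_natCast]
    have hsplit : (Icc 1 z).filter Nat.Prime = (Icc 1 x).filter Nat.Prime ∪ (Ioc x z).filter Nat.Prime := by
      ext p
      simp only [mem_filter, mem_Icc, mem_union, mem_Ioc]
      constructor
      · rintro ⟨⟨h3, h4⟩, h5⟩
        rcases le_or_gt p x with h6 | h6
        · exact Or.inl ⟨⟨h3, h6⟩, h5⟩
        · exact Or.inr ⟨⟨h6, h4⟩, h5⟩
      · rintro (⟨⟨h3, h4⟩, h5⟩ | ⟨⟨h3, h4⟩, h5⟩)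
        · exact ⟨⟨h3, h4.trans hxz⟩, h5⟩
        · exact ⟨⟨by omega, h4⟩, h5⟩
    rw [hsplit, Finset.sum_union]
    rw [Finset.disjoint_left]
    intro p hp hp'
    simp only [mem_filter, mem_Icc, mem_Ioc] at hp hp'
    omega
  linarith

/-- the abstract form of the lemma -/
theorem CH_main : ∃ C : ℝ, 0 ≤ C ∧ ∀ (χ : ℕ → ℝ) (q : ℕ), Ch χ q → ∀ x z : ℕ, q ^ 4 ≤ x → x ≤ z →
    ∑ p ∈ (Ioc x z).filter Nat.Prime, χ p / p ≤ C := by
  obtain ⟨A, hA, hm⟩ := mertens_low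
  refine ⟨Real.log 2638 + A, add_nonneg (Real.log_nonneg (by norm_num)) hA, fun χ q h x z hqx hz => ?_⟩
  have hq2 := h.hq
  have hx16 : 16 ≤ x := by
    refine le_trans ?_ hqx
    calc 16 = 2 ^ 4 := by norm_num
      _ ≤ q ^ 4 := Nat.pow_le_pow_left hq2 4
  have h1 := CHZ_cmp h hqx hz
  have h2 := CH_prod_low h hz
  have h3 := CHZ_pos h one_pos x
  have h4 := hm x z (by omega) hz
  have hlx : 1 ≤ Real.log x := by
    rw [Real.le_log_iff_exp_le (by exact_mod_cast (by omega : 0 < x))]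
    have h6 := Real.exp_one_lt_d9
    have h7 : (16 : ℝ) ≤ x := by exact_mod_cast hx16
    linarith
  have hxz : Real.log x ≤ Real.log z :=
    Real.log_le_log (by exact_mod_cast (by omega : 0 < x)) (by exact_mod_cast hz)
  have h5 : Real.exp (∑ p ∈ (Ioc x z).filter Nat.Prime, (1 + χ p) / p) ≤
      2638 * (Real.log z / Real.log x) := le_of_mul_le_mul_right (h2.trans h1) h3
  have h6 : ∑ p ∈ (Ioc x z).filter Nat.Prime, (1 + χ p) / (p : ℝ) ≤
      Real.log (2638 * (Real.log z / Real.log x)) := by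
    rw [Real.le_log_iff_exp_le (by
      have : 0 < Real.log z / Real.log x := div_pos (by linarith) (by linarith)
      linarith)]
    exact h5
  rw [Real.log_mul (by norm_num) (by
    have : 0 < Real.log z / Real.log x := div_pos (by linarith) (by linarith)
    linarith), Real.log_div (by linarith) (by linarith)] at h6
  have e : ∑ p ∈ (Ioc x z).filter Nat.Prime, (1 + χ p) / (p : ℝ) =
      ∑ p ∈ (Ioc x z).filter Nat.Prime, 1 / (p : ℝ) + ∑ p ∈ (Ioc x z).filter Nat.Prime, χ p / (p : ℝ) := by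
    rw [← Finset.sum_add_distrib]
    exact Finset.sum_congr rfl fun p _ => add_div _ _ _
  rw [e] at h6
  linarith

/-- the quadratic character -/
theorem ch_chi (n : ℤ) (hn : ¬ IsSquare n) : Ch (QT.chi n) (4 * n.natAbs) where
  zero := by simp [QT.chi]
  one := by simp [QT.chi, jacobiSym.one_right]
  mul := QT.chi_mul n
  le := QT.abs_chi_le n
  hq := by
    have hn0 : n ≠ 0 := by
      rintro rfl
      exact hn ⟨0, by simp⟩
    have := Int.natAbs_pos.mpr hn0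
    omega
  sum := fun x => by
    have := QT.abs_sum_chi_le n hn x
    push_cast
    exact this

/-- **Lemma (III)**: the sums of a quadratic character over primes in an interval above the fourth power of its period
are bounded from above by an absolute constant. -/
theorem chi_upper : ∃ C : ℝ, ∀ n : ℤ, ¬ IsSquare n → ∀ y z : ℕ, (4 * n.natAbs) ^ 4 ≤ y →
    (∑ p ∈ (Finset.Icc 1 z).filter (fun p => p.Prime ∧ y < p), (jacobiSym n p : ℝ) / p) ≤ C := by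
  obtain ⟨C, hC, h⟩ := CH_main
  refine ⟨C, fun n hn y z hy => ?_⟩
  have hch := ch_chi n hn
  have hq2 := hch.hq
  have e : ∀ p ∈ (Finset.Icc 1 z).filter (fun p => p.Prime ∧ y < p),
      (jacobiSym n p : ℝ) / p = QT.chi n p / p := by
    intro p hp
    rw [mem_filter] at hp
    have hp1 : p ≠ 2 := by
      have h1 : 2 ^ 4 ≤ (4 * n.natAbs) ^ 4 := Nat.pow_le_pow_left hq2 4
      have := hp.2.2
      omega
    unfold QT.chi
    rw [if_pos (hp.2.1.odd_of_ne_two hp1)]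
  rw [Finset.sum_congr rfl e]
  rcases le_or_gt y z with hz | hz
  · refine le_trans (le_of_eq ?_) (h (QT.chi n) (4 * n.natAbs) hch y z hy hz)
    refine Finset.sum_congr ?_ fun _ _ => rfl
    ext p
    simp only [mem_filter, mem_Icc, mem_Ioc]
    constructor
    · rintro ⟨⟨_, h2⟩, h3, h4⟩
      exact ⟨⟨h4, h2⟩, h3⟩
    · rintro ⟨⟨h1, h2⟩, h3⟩
      exact ⟨⟨h3.one_le, h2⟩, h3, h1⟩
  · rw [Finset.sum_eq_zero]
    · exact hC
    · intro p hp
      rw [mem_filter, mem_Icc] at hp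
      omega

end O1
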