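import Mathlib

/-!
# THEOREM ONE, lemma (III), part a: the function `f = 1 * χ` and its Euler product over smooth numbers
-/

set_option autoImplicit false

namespace O1

open Finset ArithmeticFunction

/-- a completely multiplicative real function with values in `[-1, 1]` whose partial sums are at most `q` -/
structure Ch (χ : ℕ → ℝ) (q : ℕ) : Prop where
  zero : χ 0 = 0
  one : χ 1 = 1
  mul : ∀ m n, χ (m * n) = χ m * χ n
  le : ∀ n, |χ n| ≤ 1
  hq : 2 ≤ q
  sum : ∀ x : ℕ, |∑ n ∈ range x, χ n| ≤ q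

/-- `f = 1 * χ` -/
noncomputable def CHf (χ : ℕ → ℝ) (n : ℕ) : ℝ := ∑ d ∈ n.divisors, χ d

noncomputable def CHX {χ : ℕ → ℝ} {q : ℕ} (h : Ch χ q) : ArithmeticFunction ℝ := ⟨χ, h.zero⟩

section

variable {χ : ℕ → ℝ} {q : ℕ} (h : Ch χ q)

include h

theorem CHX_apply (n : ℕ) : CHX h n = χ n := rfl

theorem CHf_eq (n : ℕ) : (CHX h * (zeta : ArithmeticFunction ℝ)) n = CHf χ n := by
  rw [coe_mul_zeta_apply]
  rfl

theorem CHX_mult : (CHX h).IsMultiplicative := ⟨h.one, fun _ => h.mul _ _⟩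

theorem CHf_mult : (CHX h * (zeta : ArithmeticFunction ℝ)).IsMultiplicative :=
  (CHX_mult h).mul isMultiplicative_zeta.natCast

theorem CH_pow (n k : ℕ) : χ (n ^ k) = χ n ^ k := by
  induction k with
  | zero => rw [pow_zero, pow_zero, h.one]
  | succ k ih => rw [pow_succ, h.mul, ih, pow_succ]

theorem CHf_prime_pow {p : ℕ} (hp : p.Prime) (k : ℕ) :
    CHf χ (p ^ k) = ∑ i ∈ range (k + 1), χ p ^ i := by
  unfold CHf
  rw [Nat.sum_divisors_prime_pow hp]
  exact Finset.sum_congr rfl fun i _ => CH_pow h p i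

theorem CHf_one : CHf χ 1 = 1 := by
  unfold CHf
  rw [Nat.divisors_one, sum_singleton, h.one]

theorem CHf_mul {m n : ℕ} (hmn : m.Coprime n) : CHf χ (m * n) = CHf χ m * CHf χ n := by
  rw [← CHf_eq h, ← CHf_eq h, ← CHf_eq h, (CHf_mult h).2 hmn]

omit h in
theorem CH_geom {x : ℝ} (hx : |x| ≤ 1) (k : ℕ) : 0 ≤ ∑ i ∈ range (k + 1), x ^ i := by
  rw [abs_le] at hx
  rcases hx.2.eq_or_lt with h1 | h1
  · subst h1
    simp
    positivity
  · have h2 := geom_sum_mul x (k + 1)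
    have h3 : |x ^ (k + 1)| ≤ 1 := by
      rw [abs_pow]
      exact pow_le_one₀ (abs_nonneg x) (abs_le.2 hx)
    have h4 := (abs_le.1 h3).2
    by_contra hneg
    push Not at hneg
    have h5 : 0 < (∑ i ∈ range (k + 1), x ^ i) * (x - 1) := mul_pos_of_neg_of_neg hneg (by linarith)
    rw [h2] at h5
    linarith

theorem CHf_nonneg (n : ℕ) : 0 ≤ CHf χ n := by
  by_cases hn : n = 0
  · subst hn
    unfold CHf
    simp
  · rw [← CHf_eq h, (CHf_mult h).multiplicative_factorization _ hn]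
    refine Finset.prod_nonneg fun p hp => ?_
    show 0 ≤ (CHX h * (zeta : ArithmeticFunction ℝ)) (p ^ n.factorization p)
    rw [CHf_eq h, CHf_prime_pow h (Nat.prime_of_mem_primeFactors hp)]
    exact CH_geom (h.le p) _

/-- the local factor -/
theorem CH_local {p : ℕ} (hp : p.Prime) {t : ℝ} (ht0 : 0 ≤ t) (ht1 : t < 1) :
    Summable (fun k : ℕ => ‖CHf χ (p ^ k) * t ^ k‖) ∧
    HasSum (fun k : ℕ => CHf χ (p ^ k) * t ^ k) ((1 - t)⁻¹ * (1 - χ p * t)⁻¹) := by
  have hc : |χ p * t| < 1 := by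
    rw [abs_mul, abs_of_nonneg ht0]
    exact (mul_le_of_le_one_left ht0 (h.le p)).trans_lt ht1
  have hs1 : Summable fun k : ℕ => ‖(χ p * t) ^ k‖ := by
    simp only [norm_pow]
    exact summable_geometric_of_lt_one (norm_nonneg _) (by rwa [Real.norm_eq_abs])
  have hs2 : Summable fun k : ℕ => ‖t ^ k‖ := by
    simp only [norm_pow]
    exact summable_geometric_of_lt_one (norm_nonneg _) (by rwa [Real.norm_eq_abs, abs_of_nonneg ht0])
  have e : ∀ k : ℕ, ∑ i ∈ range (k + 1), (χ p * t) ^ i * t ^ (k - i) = CHf χ (p ^ k) * t ^ k := by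
    intro k
    rw [CHf_prime_pow h hp, Finset.sum_mul]
    refine Finset.sum_congr rfl fun i hi => ?_
    have hi' : i ≤ k := Nat.lt_succ_iff.1 (mem_range.1 hi)
    rw [mul_pow, mul_assoc, ← pow_add, Nat.add_sub_cancel' hi']
  refine ⟨?_, ?_⟩
  · have := summable_norm_sum_mul_range_of_summable_norm hs1 hs2
    simpa only [e] using this
  · have h1 := hasSum_sum_range_mul_of_summable_norm hs1 hs2
    simp only [e] at h1
    rw [tsum_geometric_of_norm_lt_one (by rwa [Real.norm_eq_abs]),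
      tsum_geometric_of_norm_lt_one (by rwa [Real.norm_eq_abs, abs_of_nonneg ht0]), mul_comm] at h1
    exact h1

/-- the Euler product over the smooth numbers -/
theorem CH_smooth (N : ℕ) {s : ℝ} (hs : 0 < s) :
    HasSum (fun m : N.smoothNumbers => CHf χ m * (m : ℝ) ^ (-s))
      (∏ p ∈ N.primesBelow, ((1 - (p : ℝ) ^ (-s))⁻¹ * (1 - χ p * (p : ℝ) ^ (-s))⁻¹)) := by
  have hpk : ∀ (p k : ℕ), ((p ^ k : ℕ) : ℝ) ^ (-s) = ((p : ℝ) ^ (-s)) ^ k := by
    intro p k
    rw [Nat.cast_pow, ← Real.rpow_natCast, ← Real.rpow_natCast, ← Real.rpow_mul (Nat.cast_nonneg p),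
      ← Real.rpow_mul (Nat.cast_nonneg p), mul_comm]
  have hlt : ∀ p : ℕ, p.Prime → (p : ℝ) ^ (-s) < 1 := fun p hp =>
    Real.rpow_lt_one_of_one_lt_of_neg (by exact_mod_cast hp.one_lt) (by linarith)
  have key := (EulerProduct.summable_and_hasSum_smoothNumbers_prod_primesBelow_tsum
    (f := fun m : ℕ => CHf χ m * (m : ℝ) ^ (-s)) (by simp [CHf_one h]) (fun {m n} hmn => by
      show CHf χ (m * n) * ((m * n : ℕ) : ℝ) ^ (-s) = _
      rw [CHf_mul h hmn, Nat.cast_mul, Real.mul_rpow (Nat.cast_nonneg _) (Nat.cast_nonneg _)]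
      ring) (fun {p} hp => by
      have := (CH_local h hp (Real.rpow_nonneg (Nat.cast_nonneg p) (-s)) (hlt p hp)).1
      refine this.congr fun k => ?_
      rw [← hpk]) N).2
  refine (congrArg (HasSum _) (Finset.prod_congr rfl fun p hp => ?_)).mp key
  have hp' := Nat.prime_of_mem_primesBelow hp
  have := (CH_local h hp' (Real.rpow_nonneg (Nat.cast_nonneg p) (-s)) (hlt p hp')).2.tsum_eq
  rw [← this]
  refine tsum_congr fun k => ?_
  rw [← hpk]

end

end O1
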