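import Pool.Agent.Lib.MP_10e784_agO.CHa
import Pool.Agent.Lib.MP_10e784_ag.EL.ELMt

/-!
# THEOREM ONE, lemma (III), part b: Rankin's trick
-/

set_option autoImplicit false

namespace O1

open Finset ArithmeticFunction

/-- the partial sums of `f (m) / m` -/
noncomputable def CHS (χ : ℕ → ℝ) (N : ℕ) : ℝ := ∑ m ∈ Icc 1 N, CHf χ m / m

/-- the Euler product over the primes `p ≤ N` -/
noncomputable def CHZ (χ : ℕ → ℝ) (s : ℝ) (N : ℕ) : ℝ :=
  ∏ p ∈ (Icc 1 N).filter Nat.Prime, ((1 - (p : ℝ) ^ (-s))⁻¹ * (1 - χ p * (p : ℝ) ^ (-s))⁻¹)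

theorem CH_below (N : ℕ) : (N + 1).primesBelow = (Icc 1 N).filter Nat.Prime := by
  ext p
  rw [Nat.mem_primesBelow, mem_filter, mem_Icc]
  constructor
  · rintro ⟨h1, h2⟩
    exact ⟨⟨h2.one_le, by omega⟩, h2⟩
  · rintro ⟨h1, h2⟩
    exact ⟨by omega, h2⟩

section

variable {χ : ℕ → ℝ} {q : ℕ} (h : Ch χ q)

include h

theorem CH_ind (N : ℕ) {s : ℝ} (hs : 0 < s) :
    HasSum ((N + 1).smoothNumbers.indicator fun m : ℕ => CHf χ m * (m : ℝ) ^ (-s)) (CHZ χ s N) := by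
  have h1 := CH_smooth h (N + 1) hs
  rw [CH_below] at h1
  exact hasSum_subtype_iff_indicator.1 h1

theorem CHS_le (N : ℕ) : CHS χ N ≤ CHZ χ 1 N := by
  have h1 := CH_ind h N (s := 1) one_pos
  refine le_trans ?_ (sum_le_hasSum (Icc 1 N) (fun m _ => ?_) h1)
  · unfold CHS
    refine Finset.sum_le_sum fun m hm => ?_
    have hm' := mem_Icc.1 hm
    have hmem : m ∈ (N + 1).smoothNumbers :=
      Nat.mem_smoothNumbers_of_lt (by omega) (by omega)
    rw [Set.indicator_of_mem hmem, Real.rpow_neg_one]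
    exact le_of_eq (div_eq_mul_inv _ _)
  · exact Set.indicator_nonneg (fun m _ => mul_nonneg (CHf_nonneg h m) (Real.rpow_nonneg (Nat.cast_nonneg m) _)) m

theorem CHZ_pos {s : ℝ} (hs : 0 < s) (N : ℕ) : 0 < CHZ χ s N := by
  unfold CHZ
  refine Finset.prod_pos fun p hp => ?_
  have hp' : p.Prime := (mem_filter.1 hp).2
  have h1 : (p : ℝ) ^ (-s) < 1 :=
    Real.rpow_lt_one_of_one_lt_of_neg (by exact_mod_cast hp'.one_lt) (by linarith)
  have h2 : 0 < (p : ℝ) ^ (-s) := Real.rpow_pos_of_pos (by exact_mod_cast hp'.pos) _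
  have h3 : χ p * (p : ℝ) ^ (-s) < 1 := by
    have h4 := (abs_le.1 (h.le p)).2
    have : χ p * (p : ℝ) ^ (-s) ≤ (p : ℝ) ^ (-s) := mul_le_of_le_one_left h2.le h4
    linarith
  exact mul_pos (inv_pos.2 (by linarith)) (inv_pos.2 (by linarith))

/-- Rankin's trick -/
theorem CH_rankin (N Y : ℕ) (hY : 1 ≤ Y) {δ : ℝ} (hδ0 : 0 < δ) (hδ1 : δ < 1) :
    CHZ χ 1 N ≤ CHS χ Y + (Y : ℝ) ^ (-δ) * CHZ χ (1 - δ) N := by
  have h1 := CH_ind h N (s := 1) one_pos
  have h2 := (CH_ind h N (s := 1 - δ) (by linarith)).mul_left ((Y : ℝ) ^ (-δ))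
  have h3 : HasSum (fun m : ℕ => if m ∈ Icc 1 Y then CHf χ m / m else 0) (CHS χ Y) := by
    have h4 : HasSum (fun m : ℕ => if m ∈ Icc 1 Y then CHf χ m / m else 0)
        (∑ m ∈ Icc 1 Y, (if m ∈ Icc 1 Y then CHf χ m / m else 0)) :=
      hasSum_sum_of_ne_finset_zero (fun m hm => if_neg hm)
    have h5 : ∑ m ∈ Icc 1 Y, (if m ∈ Icc 1 Y then CHf χ m / m else 0) = CHS χ Y := by
      unfold CHS
      exact Finset.sum_congr rfl fun m hm => if_pos hm
    rwa [h5] at h4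
  refine hasSum_le (fun m => ?_) h1 (h3.add h2)
  have hY0 : (0 : ℝ) < Y := by exact_mod_cast hY
  have hnn : 0 ≤ (Y : ℝ) ^ (-δ) * ((N + 1).smoothNumbers.indicator
      (fun m : ℕ => CHf χ m * (m : ℝ) ^ (-(1 - δ))) m) :=
    mul_nonneg (Real.rpow_nonneg hY0.le _) (Set.indicator_nonneg (fun m _ =>
      mul_nonneg (CHf_nonneg h m) (Real.rpow_nonneg (Nat.cast_nonneg m) _)) m)
  by_cases hm : m ∈ (N + 1).smoothNumbers
  · rw [Set.indicator_of_mem hm] at hnn ⊢
    rw [Set.indicator_of_mem hm]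
    have hm0 : m ≠ 0 := Nat.ne_zero_of_mem_smoothNumbers hm
    have hm1 : (0 : ℝ) < m := by exact_mod_cast Nat.pos_of_ne_zero hm0
    by_cases hmY : m ∈ Icc 1 Y
    · rw [if_pos hmY, Real.rpow_neg_one, ← div_eq_mul_inv]
      linarith
    · rw [if_neg hmY, zero_add]
      have hlt : (Y : ℝ) ≤ m := by
        rw [mem_Icc] at hmY
        have : Y ≤ m := by omega
        exact_mod_cast this
      have e1 : (m : ℝ) ^ (-(1 : ℝ)) = (m : ℝ) ^ (-δ) * (m : ℝ) ^ (-(1 - δ)) := by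
        rw [← Real.rpow_add hm1]
        congr 1
        ring
      have e2 : (m : ℝ) ^ (-δ) ≤ (Y : ℝ) ^ (-δ) :=
        Real.rpow_le_rpow_of_nonpos hY0 hlt (by linarith)
      rw [e1]
      have h5 : 0 ≤ CHf χ m * (m : ℝ) ^ (-(1 - δ)) :=
        mul_nonneg (CHf_nonneg h m) (Real.rpow_nonneg (Nat.cast_nonneg m) _)
      calc CHf χ m * ((m : ℝ) ^ (-δ) * (m : ℝ) ^ (-(1 - δ)))
          = (m : ℝ) ^ (-δ) * (CHf χ m * (m : ℝ) ^ (-(1 - δ))) := by ring
        _ ≤ (Y : ℝ) ^ (-δ) * (CHf χ m * (m : ℝ) ^ (-(1 - δ))) := mul_le_mul_of_nonneg_right e2 h5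
  · rw [Set.indicator_of_notMem hm]
    refine add_nonneg ?_ hnn
    split_ifs with hmY
    · exact div_nonneg (CHf_nonneg h m) (Nat.cast_nonneg m)
    · exact le_rfl

/-- one factor -/
theorem CH_factor {p : ℕ} (hp : p.Prime) {δ : ℝ} (hδ0 : 0 < δ) (hδ1 : δ ≤ 1 / 2)
    (hδp : δ * Real.log p ≤ 1) :
    (1 - (p : ℝ) ^ (-(1 - δ)))⁻¹ * (1 - χ p * (p : ℝ) ^ (-(1 - δ)))⁻¹ ≤
      Real.exp (24 * δ * (Real.log p / p)) *
        ((1 - (p : ℝ) ^ (-(1 : ℝ)))⁻¹ * (1 - χ p * (p : ℝ) ^ (-(1 : ℝ)))⁻¹) := by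
  have hp0 : (0 : ℝ) < p := by exact_mod_cast hp.pos
  have hp2 : (2 : ℝ) ≤ p := by exact_mod_cast hp.two_le
  obtain ⟨y, hy⟩ : ∃ y, y = (p : ℝ) ^ (-(1 : ℝ)) := ⟨_, rfl⟩
  obtain ⟨x, hx⟩ : ∃ x, x = (p : ℝ) ^ (-(1 - δ)) := ⟨_, rfl⟩
  rw [← hy, ← hx]
  have hy1 : y = 1 / p := by rw [hy, Real.rpow_neg_one, one_div]
  have hy0 : 0 < y := by rw [hy1]; positivity
  have hxy : x = y * Real.exp (δ * Real.log p) := by
    have e : Real.exp (δ * Real.log p) = (p : ℝ) ^ δ := by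
      rw [Real.rpow_def_of_pos hp0, mul_comm]
    rw [hx, hy, e, ← Real.rpow_add hp0]
    congr 1
    ring
  have hlog : 0 < Real.log p := Real.log_pos (by linarith)
  have hu0 : 0 < δ * Real.log p := mul_pos hδ0 hlog
  have hyx : y ≤ x := by
    rw [hxy]
    exact le_mul_of_one_le_right hy0.le (Real.one_le_exp hu0.le)
  have hdiff : x - y ≤ 3 * δ * (Real.log p / p) := by
    have h1 : Real.exp (δ * Real.log p) - 1 ≤ 3 * (δ * Real.log p) := by
      have h2 := Real.add_one_le_exp (-(δ * Real.log p))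
      have h3 : Real.exp (δ * Real.log p) * Real.exp (-(δ * Real.log p)) = 1 := by
        rw [← Real.exp_add, add_neg_cancel, Real.exp_zero]
      have h4 : Real.exp (δ * Real.log p) ≤ 3 := by
        have := Real.exp_one_lt_d9
        have := Real.exp_le_exp.2 hδp
        linarith
      have h5 := Real.exp_pos (δ * Real.log p)
      nlinarith
    have h2 : x - y = y * (Real.exp (δ * Real.log p) - 1) := by rw [hxy]; ring
    rw [h2, hy1]
    calc 1 / (p : ℝ) * (Real.exp (δ * Real.log p) - 1) ≤ 1 / (p : ℝ) * (3 * (δ * Real.log p)) :=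
          mul_le_mul_of_nonneg_left h1 (by positivity)
      _ = 3 * δ * (Real.log p / p) := by ring
  have hx34 : x ≤ 3 / 4 := by
    have h1 : x ≤ (2 : ℝ) ^ (-(1 / 2 : ℝ)) := by
      rw [hx]
      refine (Real.rpow_le_rpow_of_nonpos two_pos hp2 (by linarith)).trans ?_
      exact Real.rpow_le_rpow_of_exponent_le (by norm_num) (by linarith)
    refine h1.trans ?_
    rw [Real.rpow_neg two_pos.le, ← Real.sqrt_eq_rpow, inv_le_comm₀ (by positivity) (by norm_num)]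
    rw [Real.le_sqrt (by norm_num) (by norm_num)]
    norm_num
  have hg : ∀ c : ℝ, |c| ≤ 1 → (1 - c * x)⁻¹ ≤ Real.exp (4 * (x - y)) * (1 - c * y)⁻¹ := by
    intro c hc
    rw [abs_le] at hc
    have h1 : c * x ≤ x := mul_le_of_le_one_left (hy0.le.trans hyx) hc.2
    have h2 : c * y ≤ y := mul_le_of_le_one_left hy0.le hc.2
    have h3 : 0 < 1 - c * x := by linarith
    have h4 : 0 < 1 - c * y := by linarith
    rw [inv_eq_one_div, ← div_eq_mul_inv, div_le_div_iff₀ h3 h4, one_mul]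
    have h5 : 1 - c * y ≤ (1 + 4 * (x - y)) * (1 - c * x) := by
      have h6 : c * (x - y) ≤ x - y := mul_le_of_le_one_left (by linarith) hc.2
      nlinarith
    exact h5.trans (mul_le_mul_of_nonneg_right (by linarith [Real.add_one_le_exp (4 * (x - y))]) h3.le)
  have g1 := hg 1 (by norm_num)
  rw [one_mul, one_mul] at g1
  have g2 := hg (χ p) (h.le p)
  have hχx : χ p * x ≤ x := mul_le_of_le_one_left (hy0.le.trans hyx) (abs_le.1 (h.le p)).2
  have hχy : χ p * y ≤ y := mul_le_of_le_one_left hy0.le (abs_le.1 (h.le p)).2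
  calc (1 - x)⁻¹ * (1 - χ p * x)⁻¹
      ≤ (Real.exp (4 * (x - y)) * (1 - y)⁻¹) * (Real.exp (4 * (x - y)) * (1 - χ p * y)⁻¹) :=
        mul_le_mul g1 g2 (inv_nonneg.2 (by linarith))
          (mul_nonneg (Real.exp_pos _).le (inv_nonneg.2 (by linarith)))
    _ = Real.exp (8 * (x - y)) * ((1 - y)⁻¹ * (1 - χ p * y)⁻¹) := by
        have : Real.exp (8 * (x - y)) = Real.exp (4 * (x - y)) * Real.exp (4 * (x - y)) := by
          rw [← Real.exp_add]
          congr 1
          ring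
        rw [this]
        ring
    _ ≤ Real.exp (24 * δ * (Real.log p / p)) * ((1 - y)⁻¹ * (1 - χ p * y)⁻¹) := by
        refine mul_le_mul_of_nonneg_right (Real.exp_le_exp.2 (by linarith)) ?_
        exact mul_nonneg (inv_nonneg.2 (by linarith)) (inv_nonneg.2 (by linarith))

theorem CHZ_ratio {N : ℕ} (hN : 8 ≤ N) :
    CHZ χ (1 - 1 / Real.log N) N ≤ Real.exp 48 * CHZ χ 1 N := by
  have hN8 : (8 : ℝ) ≤ N := by exact_mod_cast hN
  have hN0 : (0 : ℝ) < N := by linarith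
  have hlog2 : 2 ≤ Real.log N := by
    have h1 : Real.log 8 = 3 * Real.log 2 := by
      rw [show (8 : ℝ) = 2 ^ 3 by norm_num, Real.log_pow]
      norm_num
    have h2 := Real.log_two_gt_d9
    have h3 : Real.log 8 ≤ Real.log N := Real.log_le_log (by norm_num) hN8
    linarith
  obtain ⟨δ, hδ⟩ : ∃ δ, δ = 1 / Real.log N := ⟨_, rfl⟩
  have hδ0 : 0 < δ := by rw [hδ]; positivity
  have hδ1 : δ ≤ 1 / 2 := by
    rw [hδ]
    exact one_div_le_one_div_of_le (by norm_num) hlog2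
  rw [← hδ]
  have hm := EL.mert1 (N : ℝ) (by linarith)
  rw [Nat.floor_natCast] at hm
  have hlog4 : Real.log 4 ≤ Real.log N := Real.log_le_log (by norm_num) (by linarith)
  have hsum : ∑ p ∈ (Icc 1 N).filter Nat.Prime, 24 * δ * (Real.log p / p) ≤ 48 := by
    rw [← Finset.mul_sum]
    calc 24 * δ * ∑ p ∈ (Icc 1 N).filter Nat.Prime, Real.log p / p
        ≤ 24 * δ * (2 * Real.log N) := mul_le_mul_of_nonneg_left (by linarith) (by positivity)
      _ = 48 := by
        rw [hδ]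
        field_simp
        norm_num
  calc CHZ χ (1 - δ) N ≤ ∏ p ∈ (Icc 1 N).filter Nat.Prime, (Real.exp (24 * δ * (Real.log p / p)) *
        ((1 - (p : ℝ) ^ (-(1 : ℝ)))⁻¹ * (1 - χ p * (p : ℝ) ^ (-(1 : ℝ)))⁻¹)) := by
        unfold CHZ
        refine Finset.prod_le_prod (fun p hp => ?_) fun p hp => ?_
        · have hp' : p.Prime := (mem_filter.1 hp).2
          have h1 : (p : ℝ) ^ (-(1 - δ)) < 1 :=
            Real.rpow_lt_one_of_one_lt_of_neg (by exact_mod_cast hp'.one_lt) (by linarith)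
          have h2 : 0 < (p : ℝ) ^ (-(1 - δ)) := Real.rpow_pos_of_pos (by exact_mod_cast hp'.pos) _
          have h3 : χ p * (p : ℝ) ^ (-(1 - δ)) ≤ (p : ℝ) ^ (-(1 - δ)) :=
            mul_le_of_le_one_left h2.le (abs_le.1 (h.le p)).2
          exact mul_nonneg (inv_nonneg.2 (by linarith)) (inv_nonneg.2 (by linarith))
        · have hp' : p.Prime := (mem_filter.1 hp).2
          have hpN : p ≤ N := (mem_Icc.1 (mem_filter.1 hp).1).2
          refine CH_factor h hp' hδ0 hδ1 ?_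
          have h1 : Real.log p ≤ Real.log N :=
            Real.log_le_log (by exact_mod_cast hp'.pos) (by exact_mod_cast hpN)
          calc δ * Real.log p ≤ δ * Real.log N := mul_le_mul_of_nonneg_left h1 hδ0.le
            _ = 1 := by
              rw [hδ]
              field_simp
    _ = Real.exp (∑ p ∈ (Icc 1 N).filter Nat.Prime, 24 * δ * (Real.log p / p)) * CHZ χ 1 N := by
        rw [Finset.prod_mul_distrib, Real.exp_sum]
        rfl
    _ ≤ Real.exp 48 * CHZ χ 1 N :=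
        mul_le_mul_of_nonneg_right (Real.exp_le_exp.2 hsum) (CHZ_pos h one_pos N).le

theorem CHZ_le {N : ℕ} (hN : 8 ≤ N) : CHZ χ 1 N ≤ 2 * CHS χ (N ^ 49) := by
  have hN8 : (8 : ℝ) ≤ N := by exact_mod_cast hN
  have hN0 : (0 : ℝ) < N := by linarith
  have hlog2 : 2 ≤ Real.log N := by
    have h1 : Real.log 8 = 3 * Real.log 2 := by
      rw [show (8 : ℝ) = 2 ^ 3 by norm_num, Real.log_pow]
      norm_num
    have h2 := Real.log_two_gt_d9
    have h3 : Real.log 8 ≤ Real.log N := Real.log_le_log (by norm_num) hN8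
    linarith
  have h1 := CH_rankin h N (N ^ 49) (Nat.one_le_pow _ _ (by omega)) (δ := 1 / Real.log N)
    (by positivity) (by
      rw [div_lt_one (by linarith)]
      linarith)
  have h2 := CHZ_ratio h hN
  have h3 : ((N ^ 49 : ℕ) : ℝ) ^ (-(1 / Real.log N)) = Real.exp (-49) := by
    rw [Nat.cast_pow, Real.rpow_def_of_pos (by positivity), Real.log_pow]
    congr 1
    field_simp
    norm_num
  rw [h3] at h1
  have h4 := CHZ_pos h one_pos N
  have h5 : Real.exp (-49) * (Real.exp 48 * CHZ χ 1 N) ≤ 1 / 2 * CHZ χ 1 N := by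
    rw [← mul_assoc, ← Real.exp_add]
    refine mul_le_mul_of_nonneg_right ?_ h4.le
    have : (-49 : ℝ) + 48 = -1 := by norm_num
    rw [this]
    have := Real.exp_neg_one_lt_d9
    linarith
  have h6 : Real.exp (-49) * CHZ χ (1 - 1 / Real.log N) N ≤
      Real.exp (-49) * (Real.exp 48 * CHZ χ 1 N) :=
    mul_le_mul_of_nonneg_left h2 (Real.exp_pos _).le
  linarith

end

end O1
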