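import Pool.Agent.Lib.MP_10e784_agO.CHb

/-!
# THEOREM ONE, lemma (III), part c: the partial sums of `f` and of `f (m) / m`
-/

set_option autoImplicit false

namespace O1

open Finset ArithmeticFunction

/-- Abel's inequality -/
theorem CH_abel (c w : ℕ → ℝ) {B : ℝ} (hw : Antitone w) (h0 : ∀ k, 0 ≤ w k)
    (hB : ∀ k, |∑ i ∈ range k, c i| ≤ B) (n : ℕ) : |∑ i ∈ range n, c i * w i| ≤ B * w 0 := by
  have e : ∀ n, ∑ i ∈ range n, c i * w i = (∑ i ∈ range n, c i) * w n +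
      ∑ i ∈ range n, (∑ j ∈ range (i + 1), c j) * (w i - w (i + 1)) := by
    intro n
    induction n with
    | zero => simp
    | succ n ih =>
      rw [Finset.sum_range_succ, ih, Finset.sum_range_succ (fun i => (∑ j ∈ range (i + 1), c j) * (w i - w (i + 1))),
        Finset.sum_range_succ c]
      ring
  rw [e]
  have h1 : |(∑ i ∈ range n, c i) * w n| ≤ B * w n := by
    rw [abs_mul, abs_of_nonneg (h0 n)]
    exact mul_le_mul_of_nonneg_right (hB n) (h0 n)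
  have h2 : |∑ i ∈ range n, (∑ j ∈ range (i + 1), c j) * (w i - w (i + 1))| ≤
      ∑ i ∈ range n, B * (w i - w (i + 1)) := by
    refine (Finset.abs_sum_le_sum_abs _ _).trans (Finset.sum_le_sum fun i _ => ?_)
    have h3 : 0 ≤ w i - w (i + 1) := sub_nonneg.2 (hw (Nat.le_succ i))
    rw [abs_mul, abs_of_nonneg h3]
    exact mul_le_mul_of_nonneg_right (hB (i + 1)) h3
  have h4 : ∑ i ∈ range n, B * (w i - w (i + 1)) = B * (w 0 - w n) := by
    rw [← Finset.mul_sum, Finset.sum_range_sub']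
  have h5 := abs_add_le ((∑ i ∈ range n, c i) * w n)
    (∑ i ∈ range n, (∑ j ∈ range (i + 1), c j) * (w i - w (i + 1)))
  rw [h4] at h2
  linarith

section

variable {χ : ℕ → ℝ} {q : ℕ} (h : Ch χ q)

include h

/-- sums over `Ioc a b` -/
theorem CH_ioc (w : ℕ → ℝ) (a b : ℕ) (hw : ∀ m n, a < m → m ≤ n → w n ≤ w m) (h0 : ∀ k, a < k → 0 ≤ w k) :
    |∑ d ∈ Ioc a b, χ d * w d| ≤ 2 * q * w (a + 1) := by
  have hB : ∀ k, |∑ i ∈ range k, χ (a + 1 + i)| ≤ 2 * q := by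
    intro k
    have e : ∑ i ∈ range k, χ (a + 1 + i) = ∑ n ∈ range (a + 1 + k), χ n - ∑ n ∈ range (a + 1), χ n := by
      rw [Finset.sum_range_add]
      ring
    rw [e]
    have h1 := h.sum (a + 1 + k)
    have h2 := h.sum (a + 1)
    have h3 := abs_sub (∑ n ∈ range (a + 1 + k), χ n) (∑ n ∈ range (a + 1), χ n)
    linarith
  have key := CH_abel (fun i => χ (a + 1 + i)) (fun i => w (a + 1 + i)) (B := 2 * q)
    (fun i j hij => hw _ _ (by omega) (by omega)) (fun i => h0 _ (by omega)) hB (b - a)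
  rw [add_zero] at key
  have e : ∑ d ∈ Ioc a b, χ d * w d = ∑ i ∈ range (b - a), χ (a + 1 + i) * w (a + 1 + i) := by
    have h1 : Ioc a b = Ico (a + 1) (b + 1) := by
      ext x
      simp only [mem_Ioc, mem_Ico]
      omega
    rw [h1, Finset.sum_Ico_eq_sum_range]
    congr 1
    congr 1
    omega
  rw [e]
  exact key

/-- the partial sums of `f` -/
theorem CH_F (N : ℕ) : ∑ m ∈ Icc 1 N, CHf χ m = ∑ d ∈ Ioc 0 N, χ d * ((N / d : ℕ) : ℝ) := by
  have h1 := sum_Ioc_mul_zeta_eq_sum (CHX h) N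
  have h2 : Icc 1 N = Ioc 0 N := rfl
  rw [h2]
  rw [← Finset.sum_congr rfl fun n _ => (CHf_eq h n)]
  exact h1

/-- the truncated value at `1` -/
noncomputable def CHl (χ : ℕ → ℝ) (D : ℕ) : ℝ := max 0 (∑ d ∈ Ioc 0 D, χ d / d)

theorem CH_F_bound {D N A : ℕ} (hN : 1 ≤ N) (hA : 1 ≤ A) (hAD : A ≤ D) :
    |∑ m ∈ Icc 1 N, CHf χ m - CHl χ D * N| ≤ A + 4 * q * N / A := by
  have hN0 : (0 : ℝ) < N := by exact_mod_cast hN
  have hA0 : (0 : ℝ) < A := by exact_mod_cast hA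
  have hq0 : (0 : ℝ) ≤ q := Nat.cast_nonneg q
  obtain ⟨F, hF⟩ : ∃ F, F = ∑ m ∈ Icc 1 N, CHf χ m := ⟨_, rfl⟩
  obtain ⟨l, hl⟩ : ∃ l, l = ∑ d ∈ Ioc 0 D, χ d / d := ⟨_, rfl⟩
  have hF0 : 0 ≤ F := by
    rw [hF]
    exact Finset.sum_nonneg fun m _ => CHf_nonneg h m
  rw [← hF]
  -- the sum up to `A`
  have hext : ∀ M : ℕ, N ≤ M → F = ∑ d ∈ Ioc 0 M, χ d * ((N / d : ℕ) : ℝ) := by
    intro M hM
    rw [hF, CH_F h]
    refine Finset.sum_subset (Ioc_subset_Ioc_right hM) fun d hd hd' => ?_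
    rw [mem_Ioc] at hd hd'
    have : N / d = 0 := Nat.div_eq_of_lt (by omega)
    rw [this]
    simp
  have hsplit : F = ∑ d ∈ Ioc 0 A, χ d * ((N / d : ℕ) : ℝ) +
      ∑ d ∈ Ioc A (max N A), χ d * ((N / d : ℕ) : ℝ) := by
    rw [hext (max N A) (le_max_left _ _)]
    rw [← Finset.sum_union]
    · rw [Ioc_union_Ioc_eq_Ioc (Nat.zero_le _) (le_max_right _ _)]
    · rw [Finset.disjoint_left]
      intro d hd hd'
      rw [mem_Ioc] at hd hd'
      omega
  have h1 : |∑ d ∈ Ioc A (max N A), χ d * ((N / d : ℕ) : ℝ)| ≤ 2 * q * N / A := by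
    refine (CH_ioc h (fun d => ((N / d : ℕ) : ℝ)) A (max N A) (fun m n hm hmn => ?_) (fun k _ =>
      Nat.cast_nonneg _)).trans ?_
    · exact_mod_cast Nat.div_le_div_left hmn (by omega)
    · have h2 : ((N / (A + 1) : ℕ) : ℝ) ≤ N / A := by
        refine Nat.cast_div_le.trans ?_
        exact div_le_div_of_nonneg_left hN0.le hA0 (by push_cast; linarith)
      calc 2 * (q : ℝ) * ((N / (A + 1) : ℕ) : ℝ) ≤ 2 * q * (N / A) :=
            mul_le_mul_of_nonneg_left h2 (by positivity)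
        _ = 2 * q * N / A := by ring
  have h2 : |∑ d ∈ Ioc 0 A, χ d * ((N / d : ℕ) : ℝ) - N * ∑ d ∈ Ioc 0 A, χ d / d| ≤ A := by
    rw [Finset.mul_sum, ← Finset.sum_sub_distrib]
    refine (Finset.abs_sum_le_sum_abs _ _).trans ?_
    calc ∑ d ∈ Ioc 0 A, |χ d * ((N / d : ℕ) : ℝ) - N * (χ d / d)| ≤ ∑ _ ∈ Ioc 0 A, (1 : ℝ) := by
          refine Finset.sum_le_sum fun d hd => ?_
          have hd0 : 0 < d := (mem_Ioc.1 hd).1
          have hd1 : (0 : ℝ) < d := by exact_mod_cast hd0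
          have e : χ d * ((N / d : ℕ) : ℝ) - N * (χ d / d) = χ d * (((N / d : ℕ) : ℝ) - N / d) := by ring
          rw [e, abs_mul]
          refine mul_le_one₀ (h.le d) (abs_nonneg _) ?_
          have h3 : ((N / d : ℕ) : ℝ) ≤ (N : ℝ) / d := Nat.cast_div_le
          have h4 : (N : ℝ) / d < ((N / d : ℕ) : ℝ) + 1 := by
            rw [div_lt_iff₀ hd1]
            have := Nat.lt_mul_div_succ N hd0
            have h5 : N < (N / d + 1) * d := by rw [mul_comm]; exact this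
            exact_mod_cast h5
          rw [abs_le]
          constructor <;> linarith
      _ = A := by simp
  have h3 : |l - ∑ d ∈ Ioc 0 A, χ d / d| ≤ 2 * q / A := by
    have e : l - ∑ d ∈ Ioc 0 A, χ d / d = ∑ d ∈ Ioc A D, χ d * (1 / (d : ℝ)) := by
      have e1 : l = ∑ d ∈ Ioc 0 A, χ d / d + ∑ d ∈ Ioc A D, χ d / d := by
        rw [hl, ← Finset.sum_union]
        · rw [Ioc_union_Ioc_eq_Ioc (Nat.zero_le _) hAD]
        · rw [Finset.disjoint_left]
          intro d hd hd'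
          rw [mem_Ioc] at hd hd'
          omega
      rw [e1, add_sub_cancel_left]
      exact Finset.sum_congr rfl fun d _ => by ring
    rw [e]
    refine (CH_ioc h (fun d => 1 / (d : ℝ)) A D (fun m n hm hmn => ?_) (fun k _ => by positivity)).trans ?_
    · exact one_div_le_one_div_of_le (by exact_mod_cast (by omega : 0 < m)) (by exact_mod_cast hmn)
    · calc 2 * (q : ℝ) * (1 / ((A + 1 : ℕ) : ℝ)) ≤ 2 * q * (1 / A) := by
            refine mul_le_mul_of_nonneg_left (one_div_le_one_div_of_le hA0 (by push_cast; linarith)) (by positivity)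
        _ = 2 * q / A := by ring
  have h4 : |F - l * N| ≤ A + 4 * q * N / A := by
    have e : F - l * N = (∑ d ∈ Ioc 0 A, χ d * ((N / d : ℕ) : ℝ) - N * ∑ d ∈ Ioc 0 A, χ d / d) +
        ∑ d ∈ Ioc A (max N A), χ d * ((N / d : ℕ) : ℝ) - N * (l - ∑ d ∈ Ioc 0 A, χ d / d) := by
      rw [hsplit]
      ring
    rw [e]
    have h5 : |(N : ℝ) * (l - ∑ d ∈ Ioc 0 A, χ d / d)| ≤ 2 * q * N / A := by
      rw [abs_mul, abs_of_pos hN0]
      calc (N : ℝ) * |l - ∑ d ∈ Ioc 0 A, χ d / d| ≤ N * (2 * q / A) := mul_le_mul_of_nonneg_left h3 hN0.le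
        _ = 2 * q * N / A := by ring
    have h6 := abs_sub ((∑ d ∈ Ioc 0 A, χ d * ((N / d : ℕ) : ℝ) - N * ∑ d ∈ Ioc 0 A, χ d / d) +
        ∑ d ∈ Ioc A (max N A), χ d * ((N / d : ℕ) : ℝ)) (N * (l - ∑ d ∈ Ioc 0 A, χ d / d))
    have h7 := abs_add_le (∑ d ∈ Ioc 0 A, χ d * ((N / d : ℕ) : ℝ) - N * ∑ d ∈ Ioc 0 A, χ d / d)
      (∑ d ∈ Ioc A (max N A), χ d * ((N / d : ℕ) : ℝ))
    have e2 : (A : ℝ) + 4 * q * N / A = A + 2 * q * N / A + 2 * q * N / A := by ring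
    rw [e2]
    linarith
  unfold CHl
  rw [← hl]
  rcases le_total 0 l with hl0 | hl0
  · rw [max_eq_right hl0]
    exact h4
  · rw [max_eq_left hl0, zero_mul, sub_zero, abs_of_nonneg hF0]
    have h8 : l * N ≤ 0 := mul_nonpos_of_nonpos_of_nonneg hl0 hN0.le
    have := (abs_le.1 h4).2
    linarith

theorem CH_F_sqrt {D N : ℕ} (hN : 1 ≤ N) (hD : q * N + 1 ≤ D) :
    |∑ m ∈ Icc 1 N, CHf χ m - CHl χ D * N| ≤ 6 * √(q * N) := by
  have hN0 : (1 : ℝ) ≤ N := by exact_mod_cast hN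
  have hq0 : (2 : ℝ) ≤ q := by exact_mod_cast h.hq
  have hqN : (1 : ℝ) ≤ q * N := by nlinarith
  have hs1 : 1 ≤ √((q : ℝ) * N) := Real.one_le_sqrt.2 hqN
  have hs2 : √((q : ℝ) * N) * √((q : ℝ) * N) = q * N := Real.mul_self_sqrt (by linarith)
  have hA1 : 1 ≤ ⌈√((q : ℝ) * N)⌉₊ := Nat.one_le_iff_ne_zero.2 (Nat.ceil_pos.2 (by linarith)).ne'
  have hc1 := Nat.le_ceil √((q : ℝ) * N)
  have hc2 := Nat.ceil_lt_add_one (Real.sqrt_nonneg ((q : ℝ) * N))
  have hAD : ⌈√((q : ℝ) * N)⌉₊ ≤ D := by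
    have h1 : √((q : ℝ) * N) ≤ q * N := by
      nlinarith
    have h2 : (⌈√((q : ℝ) * N)⌉₊ : ℝ) < ((q * N + 1 : ℕ) : ℝ) := by
      push_cast
      linarith
    have h3 : ⌈√((q : ℝ) * N)⌉₊ < q * N + 1 := by exact_mod_cast h2
    omega
  refine (CH_F_bound h hN hA1 hAD).trans ?_
  have h4 : 4 * (q : ℝ) * N / ⌈√((q : ℝ) * N)⌉₊ ≤ 4 * √((q : ℝ) * N) := by
    rw [div_le_iff₀ (by linarith)]
    nlinarith
  linarith

/-- Abel summation for `S` -/
theorem CHS_eq (N : ℕ) (hN : 1 ≤ N) : CHS χ N = (∑ m ∈ Icc 1 N, CHf χ m) / N +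
    ∑ m ∈ Ico 1 N, (∑ j ∈ Icc 1 m, CHf χ j) / (m * (m + 1)) := by
  induction N, hN using Nat.le_induction with
  | base => unfold CHS; simp
  | succ n hn ih =>
    have hn0 : (0 : ℝ) < n := by exact_mod_cast hn
    have e1 : CHS χ (n + 1) = CHS χ n + CHf χ (n + 1) / ((n + 1 : ℕ) : ℝ) := by
      unfold CHS
      rw [Finset.sum_Icc_succ_top (by omega)]
    rw [e1, ih, Finset.sum_Icc_succ_top (by omega), Finset.sum_Ico_succ_top hn]
    push_cast
    field_simp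
    ring

end

end O1
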