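import Pool.Agent.Lib.MP_10e784_agO.Defs

/-! JOB Nm.  The norm `nm g P` (resultant) for monic `g`.

Formal degrees: `resultant_add_right_deg` with `g.coeff g.natDegree = 1` shows that for monic `g` the second formal degree may be any `n ≥ natDegree`
(`nm_deg`).  `nm_mul`: `resultant_mul_right`.  `nm_congr`: `resultant_add_mul_right` with a large formal degree.  `nm_map`: `resultant_map_map`
(`S` trivial: everything is equal).  `nm_C`: `resultant_C_zero_right` (or `nm_deg`).  `nm_lin`: for `b ≠ 0`, or directly: both sides are polynomial identities;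
over an algebraically closed field of characteristic zero `g = ∏ (X - θ_i)`, `resultant_prod_left`/`resultant_X_sub_C_left`: `∏ (a - b θ_i) = b ^ n g(a / b)`; alternatively induct on
`a - b X` by expanding the Sylvester matrix (`n = 1` column block), or use `nm_map` to `ℚ` and `TW.norm_lin`-type facts, or `TW.gen_norm` together with the equality of the
resultant and `Algebra.norm`.  `nm_eq_zero`: `resultant_eq_zero_iff`.  `van_iff`: `nm (red p g) (red p P) = 0` iff not coprime iff they have a common monic irreducible factor.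
`nm_ne`: over `ℚ` (`qq g` irreducible not dividing `qq P`, since `g` is monic: `Polynomial.map_dvd_map`), `nm_map`.
`nm_le`: formal degree `2`: the determinant of a `5 × 5` matrix with two columns of coefficients of `g` and three columns of coefficients of `Pf δ` (Leibniz formula), or: multilinear expansion.
`nm_cong`: `nm_map` to `ZMod q` (`q = 0`: equality of vectors).  `nm_smul`: `Pf (t δ) = C t * Pf δ`, `nm_mul`, `nm_C`. -/

set_option autoImplicit false

namespace O1

open Polynomial Finset TW FQQ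

theorem nm_deg {R : Type} [CommRing R] {g : R[X]} (hg : g.Monic) (P : R[X]) (n : ℕ) (hn : P.natDegree ≤ n) :
    nm g P = resultant g P g.natDegree n := by
  obtain ⟨k, rfl⟩ := Nat.exists_eq_add_of_le hn
  rw [nm, resultant_add_right_deg _ _ _ _ k le_rfl, hg.coeff_natDegree, one_pow, one_mul]

theorem nm_mul {R : Type} [CommRing R] {g : R[X]} (hg : g.Monic) (P Q : R[X]) : nm g (P * Q) = nm g P * nm g Q := by
  rw [nm_deg hg (P * Q) (P.natDegree + Q.natDegree) natDegree_mul_le, resultant_mul_right _ _ _ _ le_rfl]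
  rfl

theorem nm_congr {R : Type} [CommRing R] {g : R[X]} (hg : g.Monic) {P Q : R[X]} (h : g ∣ P - Q) : nm g P = nm g Q := by
  obtain ⟨D, hD⟩ := h
  have hP : P = Q + g * D := by rw [← hD]; ring
  have h1 : P.natDegree ≤ P.natDegree + Q.natDegree + (D.natDegree + g.natDegree) := by omega
  have h2 : Q.natDegree ≤ P.natDegree + Q.natDegree + (D.natDegree + g.natDegree) := by omega
  rw [nm_deg hg P _ h1, nm_deg hg Q _ h2]
  have h3 : D.natDegree + g.natDegree ≤ P.natDegree + Q.natDegree + (D.natDegree + g.natDegree) := by omega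
  generalize P.natDegree + Q.natDegree + (D.natDegree + g.natDegree) = n at h3
  rw [hP, resultant_add_mul_right _ _ _ _ _ h3 le_rfl]

theorem nm_map {R S : Type} [CommRing R] [CommRing S] (φ : R →+* S) {g : R[X]} (hg : g.Monic) (P : R[X]) :
    nm (g.map φ) (P.map φ) = φ (nm g P) := by
  rcases subsingleton_or_nontrivial S with hS | hS
  · exact Subsingleton.elim _ _
  · rw [nm_deg (hg.map φ) (P.map φ) P.natDegree natDegree_map_le, hg.natDegree_map φ, resultant_map_map]
    rfl

theorem nm_C {R : Type} [CommRing R] {g : R[X]} (hg : g.Monic) (c : R) : nm g (C c) = c ^ g.natDegree := by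
  rw [nm, resultant_C_right, natDegree_C, pow_zero, one_mul]

theorem nm_lin {g : ℤ[X]} (hg : g.Monic) (a b : ℤ) : nm g (C a - C b * X) = PT.hom g a b := by
  have key : ((nm g (C a - C b * X) : ℤ) : ℚ) = (PT.hom g a b : ℚ) := by
    have e1 : ((nm g (C a - C b * X) : ℤ) : ℚ) = nm (g.map (Int.castRingHom ℚ)) (C (a : ℚ) - C (b : ℚ) * X) := by
      have := nm_map (Int.castRingHom ℚ) hg (C a - C b * X)
      simp only [Polynomial.map_sub, Polynomial.map_mul, map_C, map_X] at this
      exact this.symm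
    rw [e1]
    have hgq := hg.map (Int.castRingHom ℚ)
    have hdq : (g.map (Int.castRingHom ℚ)).natDegree = g.natDegree := hg.natDegree_map _
    rw [PT.hom]
    push_cast
    by_cases hb : (b : ℚ) = 0
    · rw [hb, map_zero, zero_mul, sub_zero, nm_C hgq, hdq, Finset.sum_range_succ,
        Finset.sum_eq_zero, hg.coeff_natDegree]
      · simp
      · intro k hk
        rw [Finset.mem_range] at hk
        rw [zero_pow (by omega), mul_zero]
    · have e2 : (C (a : ℚ) - C (b : ℚ) * X : ℚ[X]) = C (-(b : ℚ)) * (X - C ((a : ℚ) / b)) := by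
        rw [mul_sub, ← C_mul, map_neg, show -(b : ℚ) * ((a : ℚ) / b) = -a by field_simp, map_neg]
        ring
      rw [e2, nm_mul hgq, nm_C hgq]
      have e3 : nm (g.map (Int.castRingHom ℚ)) (X - C ((a : ℚ) / b)) =
          (-1) ^ g.natDegree * (g.map (Int.castRingHom ℚ)).eval ((a : ℚ) / b) := by
        rw [nm, natDegree_X_sub_C, resultant_X_sub_C_right _ _ _ le_rfl, hdq]
      rw [e3, hdq, ← mul_assoc, ← mul_pow, neg_mul_neg, mul_one, eval_eq_sum_range, hdq, Finset.mul_sum]
      refine Finset.sum_congr rfl fun k hk => ?_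
      rw [Finset.mem_range] at hk
      have hk' : k ≤ g.natDegree := by omega
      rw [coeff_map, div_pow, eq_intCast]
      have : (b : ℚ) ^ g.natDegree = (b : ℚ) ^ k * (b : ℚ) ^ (g.natDegree - k) := by
        rw [← pow_add, Nat.add_sub_cancel' hk']
      rw [this]
      field_simp
  exact_mod_cast key

theorem nm_eq_zero {F : Type} [Field F] {g : F[X]} (hg : g.Monic) (P : F[X]) : nm g P = 0 ↔ ¬ IsCoprime g P := by
  rw [nm, resultant_eq_zero_iff]
  exact ⟨fun h => h.2, fun h => ⟨Or.inl hg.ne_zero, h⟩⟩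

theorem van_iff {g : ℤ[X]} (hg : g.Monic) (p : ℕ) (hp : p.Prime) (P : ℤ[X]) :
    Van g p (red p P) ↔ (p : ℤ) ∣ nm g P := by
  have : Fact p.Prime := ⟨hp⟩
  have hgp : (red p g).Monic := hg.map _
  have e1 : ((nm g P : ℤ) : ZMod p) = nm (red p g) (red p P) := by
    have := nm_map (Int.castRingHom (ZMod p)) hg P
    rw [eq_intCast] at this
    exact this.symm
  rw [← ZMod.intCast_zmod_eq_zero_iff_dvd, e1, nm_eq_zero hgp]
  constructor
  · rintro ⟨h, ⟨hm, hi, h1⟩, h2⟩ hc
    exact hi.not_isUnit (hc.isUnit_of_dvd' h1 h2)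
  · intro hc
    have hu : ¬ IsUnit (EuclideanDomain.gcd (red p g) (red p P)) := by
      rwa [EuclideanDomain.gcd_isUnit_iff]
    obtain ⟨h, hm, hi, hd⟩ := exists_monic_irreducible_factor _ hu
    exact ⟨h, ⟨hm, hi, hd.trans (EuclideanDomain.gcd_dvd_left _ _)⟩, hd.trans (EuclideanDomain.gcd_dvd_right _ _)⟩

theorem nm_ne {g : ℤ[X]} (hg : g.Monic) (hi : Irreducible (qq g)) {P : ℤ[X]} (h : ¬ g ∣ P) : nm g P ≠ 0 := by
  intro h0
  have e1 : ((nm g P : ℤ) : ℚ) = nm (qq g) (qq P) := by
    have := nm_map (Int.castRingHom ℚ) hg P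
    rw [eq_intCast] at this
    exact this.symm
  have hgq : (qq g).Monic := hg.map _
  rw [h0, Int.cast_zero] at e1
  have h1 := (nm_eq_zero hgq (qq P)).1 e1.symm
  have h2 : qq g ∣ qq P := by
    by_contra hc
    exact h1 ((hi.coprime_iff_not_dvd).2 hc)
  exact h ((Polynomial.map_dvd_map (Int.castRingHom ℚ) Int.cast_injective hg).1 h2)

theorem nm_le {g : ℤ[X]} (hg : g.Monic) (hd : g.natDegree = 3) :
    ∃ C : ℝ, 0 < C ∧ ∀ (δ : Vn 2) (H : ℝ), (∀ i, |(δ i : ℝ)| ≤ H) → |((nm g (Pf δ) : ℤ) : ℝ)| ≤ C * H ^ 3 := by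
  set G : ℝ := 1 + ∑ k ∈ range 6, |(g.coeff k : ℝ)| with hG
  have hG0 : 0 ≤ ∑ k ∈ range 6, |(g.coeff k : ℝ)| := Finset.sum_nonneg fun _ _ => abs_nonneg _
  have hG1 : 0 < G := by rw [hG]; linarith
  refine ⟨120 * G ^ 2, by positivity, fun δ H hδ => ?_⟩
  have hH : 0 ≤ H := (abs_nonneg _).trans (hδ 0)
  have hP : (Pf δ).natDegree ≤ 2 := by
    rw [Pf]
    refine natDegree_sum_le_of_forall_le _ _ fun i _ => ?_
    exact (natDegree_C_mul_X_pow_le _ _).trans (by omega)
  have hc : ∀ k, |((Pf δ).coeff k : ℝ)| ≤ H := by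
    intro k
    rw [Pf, finsetSum_coeff]
    simp only [coeff_C_mul, coeff_X_pow, mul_ite, mul_one, mul_zero]
    by_cases hk : k < 3
    · rw [Finset.sum_eq_single (⟨k, hk⟩ : Fin (2 + 1))]
      · simpa using hδ ⟨k, hk⟩
      · intro b _ hb
        rw [if_neg]
        intro h
        exact hb (Fin.ext h.symm)
      · intro h
        exact absurd (Finset.mem_univ _) h
    · rw [Finset.sum_eq_zero]
      · simpa using hH
      · intro b _
        rw [if_neg]
        have := b.2
        omega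
  have hgc : ∀ k, |(g.coeff k : ℝ)| ≤ G := by
    intro k
    by_cases hk : k < 6
    · have := Finset.single_le_sum (f := fun k => |(g.coeff k : ℝ)|) (fun _ _ => abs_nonneg _) (Finset.mem_range.2 hk)
      rw [hG]
      linarith
    · rw [coeff_eq_zero_of_natDegree_lt (by omega)]
      simpa using hG1.le
  rw [nm_deg hg (Pf δ) 2 hP, hd, resultant, Matrix.det_apply', Int.cast_sum]
  refine (Finset.abs_sum_le_sum_abs _ _).trans ?_
  have h1 : ∀ σ : Equiv.Perm (Fin (3 + 2)), |(((((Equiv.Perm.sign σ : ℤˣ) : ℤ) : ℤ) *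
      ∏ i, sylvester g (Pf δ) 3 2 (σ i) i : ℤ) : ℝ)| ≤ G ^ 2 * H ^ 3 := by
    intro σ
    rw [Int.cast_mul, abs_mul, Int.cast_prod, Finset.abs_prod]
    have hs : |((((Equiv.Perm.sign σ : ℤˣ) : ℤ) : ℤ) : ℝ)| = 1 := by
      rcases Int.units_eq_one_or (Equiv.Perm.sign σ) with h | h <;> simp [h]
    rw [hs, one_mul, Fin.prod_univ_add]
    have h2 : ∏ i : Fin 3, |((sylvester g (Pf δ) 3 2 (σ (Fin.castAdd 2 i)) (Fin.castAdd 2 i) : ℤ) : ℝ)| ≤ H ^ 3 := by
      refine (Finset.prod_le_prod (fun _ _ => abs_nonneg _) (fun i _ => ?_)).trans_eq (by simp : ∏ _i : Fin 3, H = H ^ 3)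
      rw [sylvester, Matrix.of_apply, Fin.addCases_left]
      split_ifs
      · exact hc _
      · simpa using hH
    have h3 : ∏ i : Fin 2, |((sylvester g (Pf δ) 3 2 (σ (Fin.natAdd 3 i)) (Fin.natAdd 3 i) : ℤ) : ℝ)| ≤ G ^ 2 := by
      refine (Finset.prod_le_prod (fun _ _ => abs_nonneg _) (fun i _ => ?_)).trans_eq (by simp : ∏ _i : Fin 2, G = G ^ 2)
      rw [sylvester, Matrix.of_apply, Fin.addCases_right]
      split_ifs
      · exact hgc _
      · simpa using hG1.le
    rw [mul_comm]
    exact mul_le_mul h3 h2 (Finset.prod_nonneg fun _ _ => abs_nonneg _) (by positivity)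
  refine (Finset.sum_le_sum fun σ _ => h1 σ).trans ?_
  rw [Finset.sum_const, Finset.card_univ, Fintype.card_perm, Fintype.card_fin, nsmul_eq_mul]
  norm_num [Nat.factorial]
  linarith

theorem nm_cong {g : ℤ[X]} (hg : g.Monic) (q : ℕ) {δ δ' : Vn 2} (h : CgN q δ δ') :
    (q : ℤ) ∣ nm g (Pf δ) - nm g (Pf δ') := by
  have e1 : ∀ P : ℤ[X], ((nm g P : ℤ) : ZMod q) = nm (g.map (Int.castRingHom (ZMod q))) (P.map (Int.castRingHom (ZMod q))) := by
    intro P
    have := nm_map (Int.castRingHom (ZMod q)) hg P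
    rw [eq_intCast] at this
    exact this.symm
  have e2 : (Pf δ).map (Int.castRingHom (ZMod q)) = (Pf δ').map (Int.castRingHom (ZMod q)) := by
    rw [Pf, Pf, Polynomial.map_sum, Polynomial.map_sum]
    refine Finset.sum_congr rfl fun i _ => ?_
    have h1 : ((δ i : ℤ) : ZMod q) = ((δ' i : ℤ) : ZMod q) := by
      have := (ZMod.intCast_zmod_eq_zero_iff_dvd (δ i - δ' i) q).2 (h i)
      rw [Int.cast_sub, sub_eq_zero] at this
      exact this
    rw [Polynomial.map_mul, Polynomial.map_mul, map_C, map_C, Polynomial.map_pow, eq_intCast, eq_intCast, h1]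
  rw [← ZMod.intCast_zmod_eq_zero_iff_dvd, Int.cast_sub, e1, e1, e2, sub_self]

theorem nm_smul {g : ℤ[X]} (hg : g.Monic) (hd : g.natDegree = 3) (t : ℤ) (δ : Vn 2) :
    nm g (Pf (fun i => t * δ i : Vn 2)) = t ^ 3 * nm g (Pf δ) := by
  have e : Pf (fun i => t * δ i : Vn 2) = C t * Pf δ := by
    rw [Pf, Pf, Finset.mul_sum]
    refine Finset.sum_congr rfl fun i _ => ?_
    rw [C_mul, mul_assoc]
  rw [e, nm_mul hg, nm_C hg, hd]

end O1
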