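import Pool.Agent.Lib.MP_10e784_agO.Defs2
import Pool.Agent.Lib.MP_10e784_agO.Nm
import Pool.Agent.Lib.MP_10e784_agO.AL
import Pool.Agent.Lib.MP_10e784_ag.TW.TWDesc1
import Pool.Agent.Lib.MP_10e784_ag.TW.TWDesc

/-! JOB D0.  The descent in the case `t = 0`.

`M0` from `TW.desc1 g`; for `B` with `M0 ∣ B` the constant `C0` (replace by `max C0 1`).  Given `Pt`: `TW.desc1` gives `A ∈ ℤ[X]` of degree less than three; `δ i = A.coeff i`, `Pf δ = A`.  Choose `r` with `e ∣ b r - a` (`b` is coprime to `e`: a prime dividing `e` divides `PT.hom g a b`, `TW.desc_root`).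
`rt`: for `p ∣ e`, `r` is a root of `red p g` (`desc_root`), `X - C r` divides `red p (C a - C b X)`, so it divides `red p A`.  `un`, SELF: another factor `h` does not divide the linear form, so `h ∤ red p A` and `red p A * red p (C a - C b X)` is a square modulo `h`; `red p (C a - C b X) = C b * (C r - X)` and `b = c²`, `c ≠ 0` modulo `p`: divide `Q` by `c`.
`nz`: `A` is not divisible by `g` (`κ`); `dv`: if `h ∣ red p A` (`p ∤ B`) then `h` divides the linear form (otherwise `h ∤ red p A`), so `p ∣ e`.  SELF for `p ∤ e`, `p ∤ B`: `¬ Van`.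
`Att`: `h ∣ red p (Pf δ)`, `p ∤ B`: `p ∣ e` and `h = X - C r`; `p ∣ PT.hom (AA ..) a b`, and `b ^ (2k) AA(r) ≡ PT.hom (AA ..) a b` modulo `p` (`PT.hom_mod` / `desc_root` for the monic polynomial `AA`), so `h ∣ red p AA`.
Last claim: `qq g ∣ qq A - (C a - C b X) κ²`: over `ℚ` `nm (qq g) (qq A) = nm (qq g) (C a - C b X) * nm (qq g) κ ^ 2` (`nm_congr`, `nm_mul`, `nm_map`), `nm_lin`: `nm g (Pf δ) = PT.hom g a b * q1² = s e (w q1)²`, `q1 ≠ 0`, `w ≠ 0`. -/

set_option autoImplicit false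

namespace O1

open Polynomial Finset TW FQQ

private lemma D0_Pf (A : ℤ[X]) (hA : A.natDegree < 3) : Pf (fun i : Fin 3 => A.coeff (i : ℕ)) = A := by
  unfold Pf
  conv_rhs => rw [A.as_sum_range_C_mul_X_pow' hA]
  rw [Finset.sum_range]

private lemma D0_monic (G1 G2 : ℤ[X]) (h1 : G1.Monic) (h2 : G2.natDegree < G1.natDegree) (u v : ℤ) :
    (AA G1 G2 u v).Monic := by
  have hd1 : (G1 ^ 2).degree = ((2 * G1.natDegree : ℕ) : WithBot ℕ) := by
    rw [degree_eq_natDegree (h1.pow 2).ne_zero, h1.natDegree_pow]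
  have hG1 : G1 ≠ 0 := h1.ne_zero
  have hb1 : (C u * G1 * G2).natDegree ≤ G1.natDegree + G2.natDegree := by
    refine natDegree_mul_le.trans ?_
    exact Nat.add_le_add_right (natDegree_C_mul_le u G1) _
  have hb2 : (C v * G2 ^ 2).natDegree ≤ 2 * G2.natDegree :=
    (natDegree_C_mul_le v _).trans natDegree_pow_le
  have hlt1 : (C u * G1 * G2).degree < (G1 ^ 2).degree := by
    rw [hd1]
    refine lt_of_le_of_lt degree_le_natDegree ?_
    exact_mod_cast (show (C u * G1 * G2).natDegree < 2 * G1.natDegree by omega)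
  have hlt2 : (C v * G2 ^ 2).degree < (G1 ^ 2).degree := by
    rw [hd1]
    refine lt_of_le_of_lt degree_le_natDegree ?_
    exact_mod_cast (show (C v * G2 ^ 2).natDegree < 2 * G1.natDegree by omega)
  unfold AA
  rw [add_assoc]
  refine (h1.pow 2).add_of_left ?_
  exact lt_of_le_of_lt (degree_add_le _ _) (max_lt hlt1 hlt2)

/-- the norm of a polynomial in the class of `a - b θ` -/
private lemma D0_norm {g : ℤ[X]} (hgm : g.Monic) (hgi : Irreducible (qq g)) (A : ℤ[X]) (a b : ℤ) (κ : ℚ[X])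
    (hκ : ¬ qq g ∣ κ) (hA : qq g ∣ qq A - (C (a : ℚ) - C (b : ℚ) * X) * κ ^ 2) :
    ∃ q : ℚ, q ≠ 0 ∧ ((nm g A : ℤ) : ℚ) = (PT.hom g a b : ℤ) * q ^ 2 := by
  have hqm : (qq g).Monic := hgm.map _
  refine ⟨nm (qq g) κ, ?_, ?_⟩
  · intro h0
    rw [nm_eq_zero hqm] at h0
    exact h0 ((hgi.coprime_iff_not_dvd).2 hκ)
  · have h1 : ((nm g A : ℤ) : ℚ) = nm (qq g) (qq A) := by
      have := nm_map (Int.castRingHom ℚ) hgm A
      rw [eq_intCast] at this
      exact this.symm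
    have h2 : ((nm g (C a - C b * X) : ℤ) : ℚ) = nm (qq g) (C (a : ℚ) - C (b : ℚ) * X) := by
      have h3 := nm_map (Int.castRingHom ℚ) hgm (C a - C b * X)
      have h4 : (C a - C b * X : ℤ[X]).map (Int.castRingHom ℚ) = C (a : ℚ) - C (b : ℚ) * X := by
        simp
      rw [h4] at h3
      exact h3.symm
    rw [h1, nm_congr hqm hA, nm_mul hqm, ← h2, nm_lin hgm, sq κ, nm_mul hqm, sq]

theorem desc_zero {g G1 G2 : ℤ[X]} (hD : Dat g G1 G2) :
    ∃ M0 : ℕ, M0 ≠ 0 ∧ ∀ P0 B : ℕ, Good g G1 G2 P0 B → M0 ∣ B → ∃ C0 : ℝ, 1 ≤ C0 ∧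
      ∀ (u v a b s w w' : ℤ) (e : ℕ), Pt g G1 G2 B u v a b s w w' e →
        ∃ (δ : Vn 2) (r : ℤ), Ob g B C0 δ e r ∧ SelfAll g B δ ∧ Att g G1 G2 B δ u v ∧
          ∃ q : ℚ, q ≠ 0 ∧ ((nm g (Pf δ) : ℤ) : ℚ) = s * e * q ^ 2 := by
  obtain ⟨M, hM, hdesc⟩ := desc1 g hD.gm hD.gi
  refine ⟨M, hM, fun P0 B hG hMB => ?_⟩
  obtain ⟨C1, hC1, hdesc⟩ := hdesc B hG.ne hMB
  refine ⟨max C1 1, le_max_right _ _, ?_⟩
  intro u v a b s w w' e hP
  have hse : s * (e : ℤ) ≠ 0 := by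
    intro h0
    apply hP.ns
    rw [h0]
    exact ⟨0, by simp⟩
  have hne : PT.hom g a b ≠ 0 := by
    rw [hP.hg]
    exact mul_ne_zero hse (pow_ne_zero 2 hP.w0)
  obtain ⟨A, hAd, hAc, ⟨κ, hκ, hAκ⟩, hloc⟩ := hdesc a b hP.cop hne s e w hP.hg hP.sB hP.sqf hP.eB
  rw [hD.gd] at hAd
  set δ : Vn 2 := fun i => A.coeff (i : ℕ) with hδ
  have hPf : Pf δ = A := D0_Pf A hAd
  -- primes dividing `e`
  have hpe : ∀ p : ℕ, p.Prime → p ∣ e → ¬ (p : ℤ) ∣ b ∧ ∀ r : ℤ, (p : ℤ) ∣ r * b - a → (p : ℤ) ∣ g.eval r := by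
    intro p hp hpe
    refine desc_root g hD.gm p hp a b hP.cop ?_
    rw [hP.hg]
    have h2 : (p : ℤ) ∣ (e : ℤ) := by exact_mod_cast hpe
    exact Dvd.dvd.mul_right (Dvd.dvd.mul_left h2 _) _
  have hcop : IsCoprime (e : ℤ) b := by
    have h1 : Nat.Coprime e b.natAbs := by
      refine Nat.Coprime.symm ?_
      refine Nat.Coprime.symm ?_
      rw [Nat.coprime_iff_gcd_eq_one]
      by_contra hgcd
      obtain ⟨p, hp, hpd⟩ := Nat.exists_prime_and_dvd hgcd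
      have h3 : p ∣ e := hpd.trans (Nat.gcd_dvd_left _ _)
      have h4 : p ∣ b.natAbs := hpd.trans (Nat.gcd_dvd_right _ _)
      exact (hpe p hp h3).1 (Int.natCast_dvd.2 h4)
    rw [Int.isCoprime_iff_gcd_eq_one]
    exact h1
  obtain ⟨x, y, hxy⟩ := hcop
  set r : ℤ := y * a with hr
  have hrb : (e : ℤ) ∣ r * b - a := by
    refine ⟨-(x * a), ?_⟩
    rw [hr]
    linear_combination a * hxy
  have hrp : ∀ p : ℕ, p.Prime → p ∣ e → (p : ℤ) ∣ r * b - a := by
    intro p hp hpe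
    exact (show (p : ℤ) ∣ (e : ℤ) by exact_mod_cast hpe).trans hrb
  have hrz : ∀ p : ℕ, p.Prime → p ∣ e → (b : ZMod p) ≠ 0 ∧
      ∀ _ : Fact p.Prime, (a : ZMod p) / (b : ZMod p) = (r : ZMod p) := by
    intro p hp hpe'
    have hb : (b : ZMod p) ≠ 0 := by
      intro h0
      exact (hpe p hp hpe').1 ((ZMod.intCast_zmod_eq_zero_iff_dvd _ p).1 h0)
    refine ⟨hb, fun _ => ?_⟩
    have h1 : ((r * b - a : ℤ) : ZMod p) = 0 := (ZMod.intCast_zmod_eq_zero_iff_dvd _ p).2 (hrp p hp hpe')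
    push_cast at h1
    rw [div_eq_iff hb]
    linear_combination -h1
  -- `X - C r` for `p ∣ e`
  have hroot : ∀ p : ℕ, p.Prime → p ∣ e → Fac g p (X - C (r : ZMod p)) ∧
      X - C (r : ZMod p) ∣ red p (C a - C b * X) ∧ X - C (r : ZMod p) ∣ red p A := by
    intro p hp hpe'
    have : Fact p.Prime := ⟨hp⟩
    have hhg : X - C (r : ZMod p) ∣ red p g := by
      rw [dvd_iff_isRoot, IsRoot.def, desc_eval_red]
      exact (ZMod.intCast_zmod_eq_zero_iff_dvd _ p).2 ((hpe p hp hpe').2 r (hrp p hp hpe'))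
    have hhl : X - C (r : ZMod p) ∣ red p (C a - C b * X) := by
      rw [dvd_iff_isRoot, IsRoot.def, desc_red_lin]
      have h1 : ((r * b - a : ℤ) : ZMod p) = 0 :=
        (ZMod.intCast_zmod_eq_zero_iff_dvd _ p).2 (hrp p hp hpe')
      push_cast at h1
      simp only [eval_sub, eval_C, eval_mul, eval_X]
      linear_combination -h1
    exact ⟨⟨monic_X_sub_C _, irreducible_X_sub_C _, hhg⟩, hhl,
      ((hloc p hp (hP.eB p hp hpe') _ (monic_X_sub_C _) (irreducible_X_sub_C _) hhg).1 hhl).2 hpe'⟩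
  -- a place where `δ` vanishes
  have hvan : ∀ p : ℕ, p.Prime → ¬ p ∣ B → ∀ h, Fac g p h → h ∣ red p A → p ∣ e ∧ h = X - C (r : ZMod p) := by
    intro p hp hpB h hF hhA
    have : Fact p.Prime := ⟨hp⟩
    have hhl : h ∣ red p (C a - C b * X) := by
      by_contra hnl
      exact ((hloc p hp hpB h hF.1 hF.2.1 hF.2.2).2 hnl).1 hhA
    have h1 : p ∣ e := ((hloc p hp hpB h hF.1 hF.2.1 hF.2.2).1 hhl).1 hhA
    refine ⟨h1, ?_⟩
    rw [(desc_lin p a b hP.cop h hF.1 hF.2.1 hhl).2.1, (hrz p hp h1).2 this]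
  obtain ⟨q, hq0, hq⟩ := D0_norm hD.gm hD.gi A a b κ hκ hAκ
  have hnorm : ((nm g (Pf δ) : ℤ) : ℚ) = s * e * (w * q) ^ 2 := by
    rw [hPf, hq, hP.hg]
    push_cast
    ring
  have hwq : (w : ℚ) * q ≠ 0 := mul_ne_zero (by exact_mod_cast hP.w0) hq0
  refine ⟨δ, r, ?_, ?_, ?_, (w : ℚ) * q, hwq, hnorm⟩
  · -- the object
    refine ⟨?_, hP.sqf, hP.eB, ?_, ?_, ?_, ?_⟩
    · intro i
      refine (hAc (i : ℕ)).trans ?_
      rw [hD.gd]
      push_cast
      exact mul_le_mul_of_nonneg_right (le_max_left _ _) (by positivity)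
    · intro p hp hpe'
      obtain ⟨hF, -, hhA⟩ := hroot p hp hpe'
      rw [hPf]
      exact ⟨(dvd_iff_isRoot.1 hF.2.2), (dvd_iff_isRoot.1 hhA)⟩
    · intro p hp hpe' h hF hh
      rw [hPf] at hh
      exact (hvan p hp (hP.eB p hp hpe') h hF hh).2
    · intro h0
      rw [h0] at hnorm
      have h1 : ((s * (e : ℤ) : ℤ) : ℚ) ≠ 0 := by exact_mod_cast hse
      push_cast at h1 hnorm
      exact (mul_ne_zero h1 (pow_ne_zero 2 hwq)) hnorm.symm
    · intro p hp hpB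
      rw [hPf]
      constructor
      · rintro ⟨h, hF, hh⟩
        exact (hvan p hp hpB h hF hh).1
      · intro hpe'
        obtain ⟨hF, -, hhA⟩ := hroot p hp hpe'
        exact ⟨_, hF, hhA⟩
  · -- SELF
    intro p hp hpB
    have : Fact p.Prime := ⟨hp⟩
    rw [hPf]
    by_cases hV : Van g p (red p A)
    · right
      obtain ⟨h, hF, hh⟩ := hV
      obtain ⟨hpe', -⟩ := hvan p hp hpB h hF hh
      obtain ⟨hF0, hl0, hA0⟩ := hroot p hp hpe'
      obtain ⟨hb0, hrr⟩ := hrz p hp hpe'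
      replace hrr := hrr this
      refine ⟨(r : ZMod p), dvd_iff_isRoot.1 hF0.2.2, dvd_iff_isRoot.1 hA0, ?_⟩
      intro h' hF' hne'
      have hnl : ¬ h' ∣ red p (C a - C b * X) := by
        intro hd
        apply hne'
        rw [(desc_lin p a b hP.cop h' hF'.1 hF'.2.1 hd).2.1, hrr]
      obtain ⟨h1, Q, hQ⟩ := (hloc p hp hpB h' hF'.1 hF'.2.1 hF'.2.2).2 hnl
      refine ⟨h1, ?_⟩
      obtain ⟨c, hc⟩ := hP.bsq
      have hc' : (b : ZMod p) = (c : ZMod p) ^ 2 := by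
        rw [hc]
        push_cast
        ring
      have hc0 : (c : ZMod p) ≠ 0 := by
        intro h0
        rw [hc', h0] at hb0
        exact hb0 (by ring)
      have hl : red p (C a - C b * X) = C ((c : ZMod p) ^ 2) * (C (r : ZMod p) - X) := by
        rw [(desc_lin p a b hP.cop _ (monic_X_sub_C _) (irreducible_X_sub_C _) hl0).2.2, hrr, hc']
      refine ⟨C ((c : ZMod p)⁻¹) * Q, ?_⟩
      have h2 : C ((c : ZMod p) ^ 2) * (red p A * (C (r : ZMod p) - X) - (C ((c : ZMod p)⁻¹) * Q) ^ 2) =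
          red p A * red p (C a - C b * X) - Q ^ 2 := by
        rw [hl]
        have h3 : C ((c : ZMod p) ^ 2) * C ((c : ZMod p)⁻¹) ^ 2 = (1 : (ZMod p)[X]) := by
          rw [← C_pow, ← C_mul, ← mul_pow, mul_inv_cancel₀ hc0, one_pow, C_1]
        linear_combination (-Q ^ 2) * h3
      have hunit : IsUnit (C ((c : ZMod p) ^ 2)) := isUnit_C.2 (isUnit_iff_ne_zero.2 (pow_ne_zero 2 hc0))
      rw [← hunit.dvd_mul_left, h2]
      exact hQ
    · exact Or.inl hV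
  · -- Att
    intro p hp hpB h hF hh
    have : Fact p.Prime := ⟨hp⟩
    rw [hPf] at hh
    obtain ⟨hpe', rfl⟩ := hvan p hp hpB h hF hh
    have hm : (AA G1 G2 u v).Monic := D0_monic G1 G2 hD.m1 hD.d2 u v
    have h1 := (desc_root (AA G1 G2 u v) hm p hp a b hP.cop (by
      rw [hP.hA]
      have h2 : (p : ℤ) ∣ (e : ℤ) := by exact_mod_cast hpe'
      exact Dvd.dvd.mul_right (Dvd.dvd.mul_left h2 _) _)).2 r (hrp p hp hpe')
    rw [dvd_iff_isRoot, IsRoot.def, desc_eval_red]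
    exact (ZMod.intCast_zmod_eq_zero_iff_dvd _ p).2 h1

end O1
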