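import Pool.Agent.Lib.MP_10e784_agO.Defs2
import Pool.Agent.Lib.MP_10e784_agO.Nm
import Pool.Agent.Lib.MP_10e784_agO.AL

/-! JOB DC.  The condition at the primes dividing `u² - 4v`, and Legendre symbols of numbers in the same square class.

`pt_cc`: `H_i = b ^ k G_i(a/b)` (`k = natDegree G1`; for `G2` the homogenization of formal degree `k`), `A0 = PT.hom (AA) a b = H1² + u H1 H2 + v H2²`, `4 A0 = (2 H1 + u H2)² - (u² - 4v) H2²`.  Let `p ∈ QN B N` (odd, good), `p ∣ u² - 4v`, `¬ p² ∣ u² - 4v` (`t1`).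
Suppose `jacobiSym (s e) p = -1`; in particular `p ∤ s e`.  `A0 = s e w'²`.  If `p ∤ w'` then `p ∤ A0` and `4 A0` is a square modulo `p`, so `(s e / p) = 1`, contradiction.  If `p ∣ w'` then `p² ∣ A0`, `p ∣ 2 H1 + u H2`, so `p² ∣ (u² - 4v) H2²`, hence `p ∣ H2`, `p ∣ H1`: impossible: if `p ∣ b` then `H1 ≡ a ^ k`;
if `p ∤ b` then `a/b` is a common root of `G1, G2` modulo `p` (`hG.cop`).
`jac_class`: from `n = m q²` (`q ∈ ℚ`, nonzero) with `n, m ≠ 0` integers, `¬ p² ∣ m`: clear denominators `n d² = m c²` with `c, d` coprime; `jacobiSym n p = -1` means `p ∤ n`; then `p ∤ c`? (`v_p(n) = 0`, so `v_p(m) = v_p(q^{-2})` is even, `< 2`, so `0`), hence `p ∤ m`, `v_p(q) = 0`, and the symbols agree.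
`rr_one`: modulo `p ∣ u² - 4v` (`p` odd): `4 AA ≡ (2 G1 + u G2)²`, so `64 R ≡ nm g (2 G1 + u G2) ^ 2` (`nm_mul`, `nm_C`, `nm_map`, degree three), and `p ∤ R`: `jacobiSym R p = 1`. -/

set_option autoImplicit false

namespace O1

open Polynomial Finset TW FQQ

/-- homogenization of formal degree `n` -/
private def DC_hom (P : ℤ[X]) (n : ℕ) (a b : ℤ) : ℤ := ∑ i ∈ range (n + 1), P.coeff i * a ^ i * b ^ (n - i)

private theorem DC_hom_map {F : Type} [Field F] (φ : ℤ →+* F) (P : ℤ[X]) (n : ℕ) (hn : P.natDegree ≤ n) (a b : ℤ)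
    (hb : φ b ≠ 0) : φ (DC_hom P n a b) = φ b ^ n * (P.map φ).eval (φ a / φ b) := by
  unfold DC_hom
  rw [map_sum, eval_eq_sum_range' (lt_of_le_of_lt natDegree_map_le (Nat.lt_succ_of_le hn)), mul_sum]
  refine sum_congr rfl fun i hi => ?_
  have hi' : i ≤ n := by
    have := mem_range.1 hi
    omega
  rw [coeff_map, map_mul, map_mul, map_pow, map_pow, div_pow]
  have h1 : φ b ^ n = φ b ^ (n - i) * φ b ^ i := by
    rw [← pow_add, Nat.sub_add_cancel hi']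
  rw [h1]
  have h2 : φ b ^ i ≠ 0 := pow_ne_zero _ hb
  field_simp

private theorem DC_deg {g G1 G2 : ℤ[X]} (hD : Dat g G1 G2) (u v : ℤ) :
    (AA G1 G2 u v).natDegree = 2 * G1.natDegree := by
  have h1 : (G1 ^ 2).natDegree = 2 * G1.natDegree := hD.m1.natDegree_pow 2
  have hd := hD.d2
  have h2 : (C u * G1 * G2).natDegree < (G1 ^ 2).natDegree := by
    have h3 : (C u * G1 * G2).natDegree ≤ (C u * G1).natDegree + G2.natDegree := natDegree_mul_le
    have h4 : (C u * G1).natDegree ≤ G1.natDegree := natDegree_C_mul_le _ _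
    omega
  have h5 : (C v * G2 ^ 2).natDegree < (G1 ^ 2).natDegree := by
    have h3 : (C v * G2 ^ 2).natDegree ≤ (G2 ^ 2).natDegree := natDegree_C_mul_le _ _
    have h4 : (G2 ^ 2).natDegree ≤ 2 * G2.natDegree := natDegree_pow_le
    omega
  unfold AA
  rw [natDegree_add_eq_left_of_natDegree_lt, natDegree_add_eq_left_of_natDegree_lt h2, h1]
  rw [natDegree_add_eq_left_of_natDegree_lt h2]
  exact h5

private theorem DC_A0 {g G1 G2 : ℤ[X]} (hD : Dat g G1 G2) (u v a b : ℤ) (hb : b ≠ 0) :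
    PT.hom (AA G1 G2 u v) a b = DC_hom G1 G1.natDegree a b ^ 2 +
      u * DC_hom G1 G1.natDegree a b * DC_hom G2 G1.natDegree a b + v * DC_hom G2 G1.natDegree a b ^ 2 := by
  have hbQ : (Int.castRingHom ℚ) b ≠ 0 := by simpa using hb
  have h0 : PT.hom (AA G1 G2 u v) a b = DC_hom (AA G1 G2 u v) (2 * G1.natDegree) a b := by
    unfold PT.hom DC_hom
    rw [DC_deg hD]
  have h1 := DC_hom_map (Int.castRingHom ℚ) (AA G1 G2 u v) (2 * G1.natDegree) (DC_deg hD u v).le a b hbQ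
  have h2 := DC_hom_map (Int.castRingHom ℚ) G1 G1.natDegree le_rfl a b hbQ
  have h3 := DC_hom_map (Int.castRingHom ℚ) G2 G1.natDegree hD.d2.le a b hbQ
  rw [h0]
  have inj : Function.Injective (Int.castRingHom ℚ) := Int.cast_injective
  apply inj
  simp only [map_add, map_mul, map_pow]
  rw [h1, h2, h3]
  unfold AA
  simp only [Polynomial.map_add, Polynomial.map_mul, Polynomial.map_pow, map_C, eval_add, eval_mul, eval_pow, eval_C]
  ring

private theorem DC_odd {B N p : ℕ} {g G1 G2 : ℤ[X]} {P0 : ℕ} (hG : Good g G1 G2 P0 B) (hp : p ∈ QN B N) :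
    p.Prime ∧ ¬ p ∣ B ∧ p ≠ 2 := by
  unfold QN at hp
  rw [mem_filter] at hp
  refine ⟨hp.2.1, hp.2.2, fun h => hp.2.2 ?_⟩
  rw [h]
  exact hG.two

/-- not both homogenizations vanish modulo `p` -/
private theorem DC_not {g G1 G2 : ℤ[X]} (hD : Dat g G1 G2) {P0 B p : ℕ} (hG : Good g G1 G2 P0 B) (hp : p.Prime)
    (hpB : ¬ p ∣ B) {a b : ℤ} (hab : IsCoprime a b) (h1 : (p : ℤ) ∣ DC_hom G1 G1.natDegree a b)
    (h2 : (p : ℤ) ∣ DC_hom G2 G1.natDegree a b) : False := by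
  have hpZ : Prime (p : ℤ) := Nat.prime_iff_prime_int.1 hp
  by_cases hb : (p : ℤ) ∣ b
  · have h3 : (p : ℤ) ∣ a ^ G1.natDegree := by
      unfold DC_hom at h1
      rw [sum_range_succ] at h1
      have h4 : (p : ℤ) ∣ ∑ i ∈ range G1.natDegree, G1.coeff i * a ^ i * b ^ (G1.natDegree - i) := by
        apply dvd_sum
        intro i hi
        have hi' := mem_range.1 hi
        exact Dvd.dvd.mul_left (dvd_pow hb (by omega)) _
      have h5 := (Int.dvd_add_right h4).1 h1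
      rw [Nat.sub_self, pow_zero, mul_one] at h5
      have h6 : G1.coeff G1.natDegree = 1 := hD.m1
      rw [h6, one_mul] at h5
      exact h5
    have h4 : (p : ℤ) ∣ a := hpZ.dvd_of_dvd_pow h3
    exact hpZ.not_isUnit (hab.isUnit_of_dvd' h4 hb)
  · have : Fact p.Prime := ⟨hp⟩
    have hb' : (Int.castRingHom (ZMod p)) b ≠ 0 := by
      intro h
      apply hb
      exact (ZMod.intCast_zmod_eq_zero_iff_dvd b p).1 h
    have e1 := DC_hom_map (Int.castRingHom (ZMod p)) G1 G1.natDegree le_rfl a b hb'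
    have e2 := DC_hom_map (Int.castRingHom (ZMod p)) G2 G1.natDegree hD.d2.le a b hb'
    have z1 : (Int.castRingHom (ZMod p)) (DC_hom G1 G1.natDegree a b) = 0 :=
      (ZMod.intCast_zmod_eq_zero_iff_dvd _ p).2 h1
    have z2 : (Int.castRingHom (ZMod p)) (DC_hom G2 G1.natDegree a b) = 0 :=
      (ZMod.intCast_zmod_eq_zero_iff_dvd _ p).2 h2
    rw [z1] at e1
    rw [z2] at e2
    have hbn : (Int.castRingHom (ZMod p)) b ^ G1.natDegree ≠ 0 := pow_ne_zero _ hb'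
    have r1 := (mul_eq_zero.1 e1.symm).resolve_left hbn
    have r2 := (mul_eq_zero.1 e2.symm).resolve_left hbn
    obtain ⟨U, W, hUW⟩ := hG.cop p hp hpB
    have h5 := congrArg (fun P : (ZMod p)[X] =>
      P.eval ((Int.castRingHom (ZMod p)) a / (Int.castRingHom (ZMod p)) b)) hUW
    simp only [eval_add, eval_mul, eval_one] at h5
    unfold red at h5
    rw [r1, r2, mul_zero, mul_zero, add_zero] at h5
    exact zero_ne_one h5

private theorem DC_jac0 {p : ℕ} (hp : p.Prime) {n : ℤ} (h : jacobiSym n p = -1) : ¬ (p : ℤ) ∣ n := by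
  intro hd
  have : Fact p.Prime := ⟨hp⟩
  rw [← jacobiSym.legendreSym.to_jacobiSym] at h
  have h1 : legendreSym p n = 0 := by
    rw [legendreSym.eq_zero_iff]
    exact (ZMod.intCast_zmod_eq_zero_iff_dvd n p).2 hd
  rw [h1] at h
  norm_num at h

private theorem DC_gcd {p : ℕ} (hp : p.Prime) {n : ℤ} (h : ¬ (p : ℤ) ∣ n) : n.gcd (p : ℤ) = 1 := by
  have hpZ : Prime (p : ℤ) := Nat.prime_iff_prime_int.1 hp
  rw [← Int.isCoprime_iff_gcd_eq_one]
  exact ((Prime.coprime_iff_not_dvd hpZ).2 h).symm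

private theorem DC_mod {p : ℕ} {n m : ℤ} (h : (p : ℤ) ∣ n - m) : jacobiSym n p = jacobiSym m p :=
  jacobiSym.mod_left' (Int.emod_emod_of_dvd n (dvd_refl (p : ℤ)) ▸
    (Int.emod_emod_of_dvd m (dvd_refl (p : ℤ)) ▸ (Int.emod_emod_of_dvd n (dvd_refl (p : ℤ))).symm ▸
      (Int.emod_emod_of_dvd m (dvd_refl (p : ℤ))).symm ▸ (Int.emod_eq_emod_iff_emod_sub_eq_zero.2
        (Int.emod_eq_zero_of_dvd h))))

theorem pt_cc {g G1 G2 : ℤ[X]} (hD : Dat g G1 G2) {P0 B N : ℕ} (hG : Good g G1 G2 P0 B) {u v a b s w w' : ℤ} {e : ℕ}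
    (hT : Typ g G1 G2 B N u v) (hP : Pt g G1 G2 B u v a b s w w' e) :
    ∀ p ∈ QN B N, (p : ℤ) ∣ u ^ 2 - 4 * v → jacobiSym (s * (e : ℤ)) p ≠ -1 := by
  intro p hpQ hpd hj
  obtain ⟨hp, hpB, hp2⟩ := DC_odd hG hpQ
  have hpZ : Prime (p : ℤ) := Nat.prime_iff_prime_int.1 hp
  have hE : ¬ (p : ℤ) ∣ s * (e : ℤ) := DC_jac0 hp hj
  set H1 : ℤ := DC_hom G1 G1.natDegree a b with hH1
  set H2 : ℤ := DC_hom G2 G1.natDegree a b with hH2
  have hA0 := DC_A0 hD u v a b hP.b0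
  rw [← hH1, ← hH2, hP.hA] at hA0
  have h4 : 4 * (s * e * w' ^ 2) = (2 * H1 + u * H2) ^ 2 - (u ^ 2 - 4 * v) * H2 ^ 2 := by
    rw [hA0]
    ring
  have hp2' : ¬ (p : ℤ) ∣ 2 := by
    intro h
    have h1 : p ∣ 2 := by exact_mod_cast h
    exact hp2 ((Nat.prime_dvd_prime_iff_eq hp Nat.prime_two).1 h1)
  by_cases hw : (p : ℤ) ∣ w'
  · have h5 : (p : ℤ) ^ 2 ∣ 4 * (s * e * w' ^ 2) :=
      Dvd.dvd.mul_left (Dvd.dvd.mul_left (pow_dvd_pow_of_dvd hw 2) _) _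
    have h6 : (p : ℤ) ∣ (2 * H1 + u * H2) ^ 2 := by
      have h7 : (2 * H1 + u * H2) ^ 2 = 4 * (s * e * w' ^ 2) + (u ^ 2 - 4 * v) * H2 ^ 2 := by
        rw [h4]
        ring
      rw [h7]
      exact dvd_add (dvd_trans (dvd_pow_self _ two_ne_zero) h5) (Dvd.dvd.mul_right hpd _)
    have h8 : (p : ℤ) ∣ 2 * H1 + u * H2 := hpZ.dvd_of_dvd_pow h6
    have h9 : (p : ℤ) ^ 2 ∣ (u ^ 2 - 4 * v) * H2 ^ 2 := by
      have h7 : (u ^ 2 - 4 * v) * H2 ^ 2 = (2 * H1 + u * H2) ^ 2 - 4 * (s * e * w' ^ 2) := by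
        rw [h4]
        ring
      rw [h7]
      exact dvd_sub (pow_dvd_pow_of_dvd h8 2) h5
    have h10 : (p : ℤ) ∣ H2 := by
      by_contra h11
      have h12 : IsCoprime ((p : ℤ) ^ 2) (H2 ^ 2) :=
        IsCoprime.pow ((Prime.coprime_iff_not_dvd hpZ).2 h11)
      exact hT.t1 p hpQ (h12.dvd_of_dvd_mul_right h9)
    have h11 : (p : ℤ) ∣ H1 := by
      have h12 : (p : ℤ) ∣ 2 * H1 := by
        have h13 : 2 * H1 = (2 * H1 + u * H2) - u * H2 := by ring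
        rw [h13]
        exact dvd_sub h8 (Dvd.dvd.mul_left h10 _)
      exact (hpZ.dvd_or_dvd h12).resolve_left hp2'
    exact DC_not hD hG hp hpB hP.cop h11 h10
  · have h5 : jacobiSym (4 * (s * e * w' ^ 2)) p = jacobiSym ((2 * H1 + u * H2) ^ 2) p := by
      apply DC_mod
      rw [h4]
      have h6 : (2 * H1 + u * H2) ^ 2 - (u ^ 2 - 4 * v) * H2 ^ 2 - (2 * H1 + u * H2) ^ 2 =
          -((u ^ 2 - 4 * v) * H2 ^ 2) := by ring
      rw [h6]
      exact (Dvd.dvd.mul_right hpd _).neg_right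
    have h6 : ¬ (p : ℤ) ∣ 4 * (s * e * w' ^ 2) := by
      intro h
      rcases hpZ.dvd_or_dvd h with h7 | h7
      · have h8 : (4 : ℤ) = 2 ^ 2 := by norm_num
        rw [h8] at h7
        exact hp2' (hpZ.dvd_of_dvd_pow h7)
      · rcases hpZ.dvd_or_dvd h7 with h8 | h8
        · exact hE h8
        · exact hw (hpZ.dvd_of_dvd_pow h8)
    have h7 : ¬ (p : ℤ) ∣ 2 * H1 + u * H2 := by
      intro h
      apply h6
      rw [h4]
      exact dvd_sub (dvd_trans h (dvd_pow_self _ two_ne_zero)) (Dvd.dvd.mul_right hpd _)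
    rw [jacobiSym.sq_one' (DC_gcd hp h7)] at h5
    have h8 : (4 : ℤ) * (s * e * w' ^ 2) = 2 ^ 2 * (s * e) * w' ^ 2 := by ring
    rw [h8, jacobiSym.mul_left, jacobiSym.mul_left, jacobiSym.sq_one' (DC_gcd hp hp2'),
      jacobiSym.sq_one' (DC_gcd hp hw), hj] at h5
    norm_num at h5

theorem jac_class (p : ℕ) (hp : p.Prime) (n m : ℤ) (hn : n ≠ 0) (hm : m ≠ 0) (q : ℚ) (h : (n : ℚ) = (m : ℚ) * q ^ 2)
    (hpm : ¬ (p : ℤ) ^ 2 ∣ m) (hj : jacobiSym n p = -1) : jacobiSym m p = -1 := by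
  have hpZ : Prime (p : ℤ) := Nat.prime_iff_prime_int.1 hp
  have hpn := DC_jac0 hp hj
  set c : ℤ := q.num with hc
  set d : ℤ := (q.den : ℤ) with hd
  have hd0 : (q.den : ℚ) ≠ 0 := by exact_mod_cast q.den_nz
  have hcd : IsCoprime c d := by
    rw [Int.isCoprime_iff_gcd_eq_one]
    exact q.reduced
  have hZ : n * d ^ 2 = m * c ^ 2 := by
    have h1 : (n : ℚ) * (q.den : ℚ) ^ 2 = (m : ℚ) * (q.num : ℚ) ^ 2 := by
      have h2 : (q.num : ℚ) = q * q.den := (Rat.mul_den_eq_num q).symm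
      rw [h, h2]
      ring
    rw [hc, hd]
    exact_mod_cast h1
  have hpc : ¬ (p : ℤ) ∣ c := by
    intro h1
    have h2 : ¬ (p : ℤ) ∣ d := fun h3 => hpZ.not_isUnit (hcd.isUnit_of_dvd' h1 h3)
    have h3 : (p : ℤ) ∣ n * d ^ 2 := by
      rw [hZ]
      exact Dvd.dvd.mul_left (dvd_pow h1 two_ne_zero) _
    rcases hpZ.dvd_or_dvd h3 with h4 | h4
    · exact hpn h4
    · exact h2 (hpZ.dvd_of_dvd_pow h4)
  have hpd : ¬ (p : ℤ) ∣ d := by
    intro h1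
    have h2 : (p : ℤ) ^ 2 ∣ m * c ^ 2 := by
      rw [← hZ]
      exact Dvd.dvd.mul_left (pow_dvd_pow_of_dvd h1 2) _
    have h3 : IsCoprime ((p : ℤ) ^ 2) (c ^ 2) := IsCoprime.pow ((Prime.coprime_iff_not_dvd hpZ).2 hpc)
    exact hpm (h3.dvd_of_dvd_mul_right h2)
  have h1 : jacobiSym (n * d ^ 2) p = jacobiSym (m * c ^ 2) p := by rw [hZ]
  rw [jacobiSym.mul_left, jacobiSym.mul_left, jacobiSym.sq_one' (DC_gcd hp hpd),
    jacobiSym.sq_one' (DC_gcd hp hpc), hj, mul_one, mul_one] at h1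
  exact h1.symm

theorem rr_one {g G1 G2 : ℤ[X]} (hD : Dat g G1 G2) (p : ℕ) (hp : p.Prime) (h2 : p ≠ 2) (u v : ℤ)
    (h : (p : ℤ) ∣ u ^ 2 - 4 * v) (hR : ¬ (p : ℤ) ∣ nm g (AA G1 G2 u v)) : jacobiSym (nm g (AA G1 G2 u v)) p = 1 := by
  have hpZ : Prime (p : ℤ) := Nat.prime_iff_prime_int.1 hp
  have hp2' : ¬ (p : ℤ) ∣ 2 := by
    intro h0
    have h1 : p ∣ 2 := by exact_mod_cast h0
    exact h2 ((Nat.prime_dvd_prime_iff_eq hp Nat.prime_two).1 h1)
  set φ : ℤ →+* ZMod p := Int.castRingHom (ZMod p) with hφ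
  set Q : ℤ[X] := C 2 * G1 + C u * G2 with hQ
  have hz : φ (u ^ 2 - 4 * v) = 0 := (ZMod.intCast_zmod_eq_zero_iff_dvd _ p).2 h
  have h1 : (C 4 * AA G1 G2 u v).map φ = (Q * Q).map φ := by
    have h3 : C 4 * AA G1 G2 u v = Q * Q - C (u ^ 2 - 4 * v) * G2 ^ 2 := by
      rw [hQ]
      unfold AA
      simp only [map_sub, map_mul, map_pow]
      have e4 : (C (4 : ℤ) : ℤ[X]) = 4 := rfl
      have e2 : (C (2 : ℤ) : ℤ[X]) = 2 := rfl
      rw [e4, e2]
      ring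
    rw [h3, Polynomial.map_sub, Polynomial.map_mul (f := φ) (p := C (u ^ 2 - 4 * v)), map_C, hz, C_0, zero_mul,
      sub_zero]
  have h3 : φ (nm g (C 4 * AA G1 G2 u v)) = φ (nm g (Q * Q)) := by
    rw [← nm_map φ hD.gm, ← nm_map φ hD.gm, h1]
  rw [nm_mul hD.gm, nm_mul hD.gm, nm_C hD.gm, hD.gd] at h3
  set R : ℤ := nm g (AA G1 G2 u v) with hRR
  set n : ℤ := nm g Q with hn
  have h4 : (p : ℤ) ∣ 8 ^ 2 * R - n ^ 2 := by
    rw [← ZMod.intCast_zmod_eq_zero_iff_dvd]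
    have h5 : φ (8 ^ 2 * R - n ^ 2) = 0 := by
      have h6 : (8 : ℤ) ^ 2 * R - n ^ 2 = 4 ^ 3 * R - n * n := by ring
      rw [h6, map_sub, h3, sub_self]
    exact h5
  have h8 : ¬ (p : ℤ) ∣ 8 := by
    intro h0
    have h5 : (8 : ℤ) = 2 ^ 3 := by norm_num
    rw [h5] at h0
    exact hp2' (hpZ.dvd_of_dvd_pow h0)
  have h9 : ¬ (p : ℤ) ∣ n := by
    intro h0
    have h5 : (p : ℤ) ∣ 8 ^ 2 * R := by
      have h6 : (8 : ℤ) ^ 2 * R = (8 ^ 2 * R - n ^ 2) + n ^ 2 := by ring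
      rw [h6]
      exact dvd_add h4 (dvd_pow h0 two_ne_zero)
    rcases hpZ.dvd_or_dvd h5 with h6 | h6
    · exact h8 (hpZ.dvd_of_dvd_pow h6)
    · exact hR h6
  have h10 := DC_mod h4
  rw [jacobiSym.mul_left, jacobiSym.sq_one' (DC_gcd hp h8), jacobiSym.sq_one' (DC_gcd hp h9), one_mul] at h10
  exact h10

end O1
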