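import Pool.Agent.Lib.MP_10e784_agO.AL

/-! JOB IN.  Consequences of the independence of `G1 ^ 2, G1 G2, G2 ^ 2` modulo `g`; size of the norm of `A`.

`ind_two`: `W = s G1 + t G2`.  If `h ≠ h'` both divide `W`, or `h` has degree at least two, then `red p g` divides `W * (s' G1 + t' G2)` for suitable `(s', t') ≠ 0`: the product of the remaining factors of the squarefree cubic `red p g` has degree at most one, say `X - ρ` (or `1`), and `s' G1(ρ) + t' G2(ρ) = 0` can be solved.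
`hG.ind` with `x = s s'`, `y = s t' + t s'`, `z = t t'` gives `x = y = z = 0`; since `(s', t') ≠ 0` this implies `s = t = 0` (a product of two nonzero linear forms over a field is nonzero).
`aa_ne`: `g ∤ AA G1 G2 u v` over `ℤ` (or `nm = 0`): take a prime `p ∤ B` (exists): `nm` of the reduction... simpler: if `g ∣ AA` then modulo a prime `p ∤ B` `hG.ind` with `x = 1` is violated (`red p` of `AA` is divisible by `red p g`).  `nm_ne`.
`aa_le`: `nm g (AA) = nm g (AA %ₘ g)`, `AA %ₘ g = R0 + u R1 + v R2` with fixed `R_i` of degree at most two; `nm_le` with `H = C N`. -/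

set_option autoImplicit false

namespace O1

open Polynomial Finset TW FQQ

theorem ind_two {g G1 G2 : ℤ[X]} (hD : Dat g G1 G2) {P0 B : ℕ} (hG : Good g G1 G2 P0 B) (p : ℕ) (hp : p.Prime)
    (hpB : ¬ p ∣ B) (s t : ZMod p) (h h' : (ZMod p)[X]) (hh : Fac g p h) (hh' : Fac g p h')
    (h1 : h ∣ C s * red p G1 + C t * red p G2) (h2 : h' ∣ C s * red p G1 + C t * red p G2)
    (hne : ¬ (h = h' ∧ h.natDegree = 1)) : s = 0 ∧ t = 0 := by
  have : Fact p.Prime := ⟨hp⟩
  have hgm : (red p g).Monic := hD.gm.map _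
  have hgd : (red p g).natDegree = 3 := by
    unfold red
    rw [hD.gm.natDegree_map, hD.gd]
  -- the common divisor
  obtain ⟨D, k, hDk, hDW, hk1⟩ : ∃ D k : (ZMod p)[X], red p g = D * k ∧
      D ∣ C s * red p G1 + C t * red p G2 ∧ k.natDegree ≤ 1 := by
    by_cases hhh : h = h'
    · obtain ⟨k, hk⟩ := hh.2.2
      refine ⟨h, k, hk, h1, ?_⟩
      have hk0 : k ≠ 0 := by
        rintro rfl
        rw [mul_zero] at hk
        exact hgm.ne_zero hk
      have hd := congrArg natDegree hk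
      rw [hgd, natDegree_mul hh.1.ne_zero hk0] at hd
      have hh1 : h.natDegree ≠ 1 := fun h0 => hne ⟨hhh, h0⟩
      have hh0 : h.natDegree ≠ 0 := by
        have := hh.2.1.natDegree_pos
        omega
      omega
    · have hcop : IsCoprime h h' := by
        rw [hh.2.1.coprime_iff_not_dvd]
        intro hdv
        have h3 := (hh.2.1.associated_of_dvd hh'.2.1 hdv)
        exact hhh (eq_of_monic_of_associated hh.1 hh'.1 h3)
      obtain ⟨k, hk⟩ := hcop.mul_dvd hh.2.2 hh'.2.2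
      refine ⟨h * h', k, hk, hcop.mul_dvd h1 h2, ?_⟩
      have hk0 : k ≠ 0 := by
        rintro rfl
        rw [mul_zero] at hk
        exact hgm.ne_zero hk
      have hd := congrArg natDegree hk
      rw [hgd, natDegree_mul (mul_ne_zero hh.1.ne_zero hh'.1.ne_zero) hk0,
        natDegree_mul hh.1.ne_zero hh'.1.ne_zero] at hd
      have := hh.2.1.natDegree_pos
      have := hh'.2.1.natDegree_pos
      omega
  have hk0 : k ≠ 0 := by
    rintro rfl
    rw [mul_zero] at hDk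
    exact hgm.ne_zero hDk
  obtain ⟨a, b, hab⟩ := exists_eq_X_add_C_of_natDegree_le_one hk1
  obtain ⟨s', t', hst, hkW⟩ : ∃ s' t' : ZMod p, ¬ (s' = 0 ∧ t' = 0) ∧
      k ∣ C s' * red p G1 + C t' * red p G2 := by
    by_cases ha : a = 0
    · refine ⟨1, 0, fun h0 => one_ne_zero h0.1, ?_⟩
      rw [ha, C_0, zero_mul, zero_add] at hab
      have hb : b ≠ 0 := by
        rintro rfl
        rw [C_0] at hab
        exact hk0 hab
      rw [hab]
      exact (isUnit_C.2 (isUnit_iff_ne_zero.2 hb)).dvd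
    · obtain ⟨ρ, hρ⟩ : ∃ ρ : ZMod p, ρ = -b / a := ⟨_, rfl⟩
      have hkρ : k = C a * (X - C ρ) := by
        rw [hab, mul_sub, ← C_mul, hρ]
        have : a * (-b / a) = -b := by field_simp
        rw [this, C_neg, sub_neg_eq_add]
      have hdvd : ∀ W : (ZMod p)[X], W.eval ρ = 0 → k ∣ W := by
        intro W hW
        rw [hkρ]
        exact (isUnit_C.2 (isUnit_iff_ne_zero.2 ha)).mul_left_dvd.2 (dvd_iff_isRoot.2 hW)
      by_cases hz : (red p G1).eval ρ = 0 ∧ (red p G2).eval ρ = 0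
      · refine ⟨1, 0, fun h0 => one_ne_zero h0.1, hdvd _ ?_⟩
        rw [eval_add, eval_mul, eval_mul, eval_C, eval_C, hz.1, hz.2]
        ring
      · refine ⟨(red p G2).eval ρ, -(red p G1).eval ρ, fun h0 => hz ⟨neg_eq_zero.1 h0.2, h0.1⟩, hdvd _ ?_⟩
        rw [eval_add, eval_mul, eval_mul, eval_C, eval_C]
        ring
  have hdiv : red p g ∣ C (s * s') * red p G1 ^ 2 + C (s * t' + t * s') * red p G1 * red p G2 +
      C (t * t') * red p G2 ^ 2 := by
    rw [hDk]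
    have h3 := mul_dvd_mul hDW hkW
    have h4 : (C s * red p G1 + C t * red p G2) * (C s' * red p G1 + C t' * red p G2) =
        C (s * s') * red p G1 ^ 2 + C (s * t' + t * s') * red p G1 * red p G2 +
        C (t * t') * red p G2 ^ 2 := by
      rw [C_mul, C_add, C_mul, C_mul, C_mul]
      ring
    rw [h4] at h3
    exact h3
  obtain ⟨e1, e2, e3⟩ := hG.ind p hp hpB _ _ _ hdiv
  by_cases hs' : s' = 0
  · have ht' : t' ≠ 0 := fun h0 => hst ⟨hs', h0⟩
    have ht : t = 0 := (mul_eq_zero.1 e3).resolve_right ht'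
    rw [hs', mul_zero, add_zero] at e2
    exact ⟨(mul_eq_zero.1 e2).resolve_right ht', ht⟩
  · have hs : s = 0 := (mul_eq_zero.1 e1).resolve_right hs'
    rw [hs, zero_mul, zero_add] at e2
    exact ⟨hs, (mul_eq_zero.1 e2).resolve_right hs'⟩

theorem aa_ne {g G1 G2 : ℤ[X]} (hD : Dat g G1 G2) {P0 B : ℕ} (hG : Good g G1 G2 P0 B) (u v : ℤ) :
    nm g (AA G1 G2 u v) ≠ 0 := by
  refine nm_ne hD.gm hD.gi fun hdv => ?_
  obtain ⟨p, hpB, hp⟩ := Nat.exists_infinite_primes (B + 1)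
  have : Fact p.Prime := ⟨hp⟩
  have hnB : ¬ p ∣ B := fun h0 => by
    have := Nat.le_of_dvd (Nat.pos_of_ne_zero hG.ne) h0
    omega
  have h1 : red p g ∣ red p (AA G1 G2 u v) := Polynomial.map_dvd _ hdv
  rw [aa_red] at h1
  have h2 : AA (red p G1) (red p G2) (u : ZMod p) (v : ZMod p) = C 1 * red p G1 ^ 2 +
      C (u : ZMod p) * red p G1 * red p G2 + C (v : ZMod p) * red p G2 ^ 2 := by
    unfold AA
    rw [C_1, one_mul]
  rw [h2] at h1
  exact one_ne_zero (hG.ind p hp hnB _ _ _ h1).1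

theorem aa_le {g G1 G2 : ℤ[X]} (hD : Dat g G1 G2) :
    ∃ C : ℝ, 0 < C ∧ ∀ (N : ℕ) (u v : ℤ), 1 ≤ N → |u| ≤ N → |v| ≤ N →
      |((nm g (AA G1 G2 u v) : ℤ) : ℝ)| ≤ C * (N : ℝ) ^ 3 := by
  obtain ⟨C0, hC0, hle⟩ := nm_le hD.gm hD.gd
  obtain ⟨R0, hR0⟩ : ∃ R : ℤ[X], R = (G1 ^ 2) %ₘ g := ⟨_, rfl⟩
  obtain ⟨R1, hR1⟩ : ∃ R : ℤ[X], R = (G1 * G2) %ₘ g := ⟨_, rfl⟩
  obtain ⟨R2, hR2⟩ : ∃ R : ℤ[X], R = (G2 ^ 2) %ₘ g := ⟨_, rfl⟩
  obtain ⟨c, hc⟩ : ∃ c : ℝ, c = ∑ i : Fin 3, (|(R0.coeff i : ℝ)| + |(R1.coeff i : ℝ)| + |(R2.coeff i : ℝ)|) :=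
    ⟨_, rfl⟩
  have hc0 : 0 ≤ c := by
    rw [hc]
    exact Finset.sum_nonneg fun i _ => by positivity
  refine ⟨C0 * (c + 1) ^ 3, by positivity, fun N u v hN hu hv => ?_⟩
  obtain ⟨δ, hδ⟩ : ∃ δ : Vn 2, ∀ i, δ i = R0.coeff i + u * R1.coeff i + v * R2.coeff i := ⟨_, fun i => rfl⟩
  have hmod : AA G1 G2 u v %ₘ g = R0 + C u * R1 + C v * R2 := by
    unfold AA
    rw [Polynomial.add_modByMonic, Polynomial.add_modByMonic, hR0, hR1, hR2]
    have e1 : C u * G1 * G2 = u • (G1 * G2) := by rw [smul_eq_C_mul, mul_assoc]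
    have e2 : C v * G2 ^ 2 = v • (G2 ^ 2) := by rw [smul_eq_C_mul]
    rw [e1, e2, smul_modByMonic, smul_modByMonic, smul_eq_C_mul, smul_eq_C_mul]
  have hdeg : (AA G1 G2 u v %ₘ g).natDegree < 3 := by
    rw [← hD.gd]
    refine natDegree_modByMonic_lt _ hD.gm fun h1 => ?_
    have := hD.gd
    rw [h1, natDegree_one] at this
    omega
  have hPf : Pf δ = AA G1 G2 u v %ₘ g := by
    rw [as_sum_range_C_mul_X_pow' _ hdeg, ← Fin.sum_univ_eq_sum_range
      (fun i => C ((AA G1 G2 u v %ₘ g).coeff i) * X ^ i) 3]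
    unfold Pf
    refine Finset.sum_congr rfl fun i _ => ?_
    congr 2
    rw [hδ, hmod, coeff_add, coeff_add, coeff_C_mul, coeff_C_mul]
  have hnm : nm g (AA G1 G2 u v) = nm g (Pf δ) := by
    rw [hPf]
    refine nm_congr hD.gm ?_
    refine ⟨AA G1 G2 u v /ₘ g, ?_⟩
    have := modByMonic_add_div (AA G1 G2 u v) g
    linear_combination -this
  rw [hnm]
  have hN' : (1 : ℝ) ≤ N := by exact_mod_cast hN
  have hu' : |(u : ℝ)| ≤ N := by exact_mod_cast hu
  have hv' : |(v : ℝ)| ≤ N := by exact_mod_cast hv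
  have h1 : ∀ i, |(δ i : ℝ)| ≤ (c + 1) * N := by
    intro i
    rw [hδ]
    push_cast
    have e1 : |(R0.coeff i : ℝ)| + |(R1.coeff i : ℝ)| + |(R2.coeff i : ℝ)| ≤ c := by
      rw [hc]
      exact Finset.single_le_sum (f := fun i : Fin 3 => |(R0.coeff i : ℝ)| + |(R1.coeff i : ℝ)| + |(R2.coeff i : ℝ)|)
        (fun i _ => by positivity) (Finset.mem_univ i)
    have e2 : |(R0.coeff i : ℝ) + u * R1.coeff i + v * R2.coeff i| ≤
        |(R0.coeff i : ℝ)| + |(u : ℝ)| * |(R1.coeff i : ℝ)| + |(v : ℝ)| * |(R2.coeff i : ℝ)| := by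
      rw [← abs_mul, ← abs_mul]
      exact (abs_add_le _ _).trans (by linarith [abs_add_le (R0.coeff i : ℝ) (u * R1.coeff i)])
    have e3 := mul_le_mul_of_nonneg_right hu' (abs_nonneg (R1.coeff i : ℝ))
    have e4 := mul_le_mul_of_nonneg_right hv' (abs_nonneg (R2.coeff i : ℝ))
    have e5 := abs_nonneg (R0.coeff i : ℝ)
    have e6 := mul_le_mul_of_nonneg_left hN' e5
    have e7 := mul_le_mul_of_nonneg_right e1 (by linarith : (0 : ℝ) ≤ N)
    nlinarith
  refine (hle δ _ h1).trans (le_of_eq ?_)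
  ring

end O1
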