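import Pool.Agent.Lib.MP_10e784_agO.D2
import Pool.Agent.Lib.MP_10e784_agO.DC
import Pool.Agent.Lib.MP_10e784_agO.IN
import Pool.Agent.Lib.MP_10e784_ag.TW.TWDesc

/-! JOB D1.  The descent in the case `t = 1` (it does not use that `e` is large).

`desc_two` with `P = AA G1 G2 u v` (`aa_ne`; `One` is `hT.t2`; for `p ∣ e` and `h ∣ red p (C a - C b X)`: `h = X - C r`, `r = a/b`, and `p ∣ PT.hom (AA) a b`, so `AA(r) = 0` modulo `p`, as in D0).
`Ob`: `un`, `rt`: for `p ∣ M` there is `h ∣ red p (Pf δ)` (`Van`), it divides `red p AA`, so it is unique and of degree one (`t2`): `h = X - C r_p`; `r` by the Chinese remainder theorem (`M` squarefree).  `nz`: `nm g (Pf δ) = PT.hom g a b * R * q1²` (`nm_congr`, `nm_mul`, `nm_map` over `ℚ`, `nm_lin`; `R = nm g AA`), all nonzero.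
`Att`: the third but last property of `desc_two`.
(C): `p ∈ QN B N`, `p ∣ u² - 4v`: suppose `jacobiSym n p = -1`, `n = nm g (Pf δ) = (s e R) (w q1)²`; `p ∤ R` (`t3`), `¬ p² ∣ s e R` (`e` squarefree, `p ∤ s` as `p ∤ B`), `jac_class`: `jacobiSym (s e R) p = -1`, and `jacobiSym R p = 1` (`rr_one`), so `jacobiSym (s e) p = -1`, contradiction to `pt_cc`.
(B): `p ∈ QN B N`, `¬ Van`; let `r` be a root of `red p g` with `AA(r) = 0`, `h0 = X - C r`.  `¬ p² ∣ R` (`t4`), `h0 ∤ red p (Pf δ)`: so `p ∣ e` and `h0 ∣ red p (C a - C b X)`, i.e. `red p (C a - C b X) = C b (C r - X)`.  For `h ≠ h0`: `h ∤ red p AA` (`t2`), `h ∤ C b (C r - X)` (`b ≠ 0` modulo `p`, `h ≠ X - C r` irreducible monic),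
so the last property of `desc_two` gives `Q`; `b = c²`: replace `Q` by `Q / c`. -/

set_option autoImplicit false

namespace O1

open Polynomial Finset TW FQQ

private theorem D1_monic {g G1 G2 : ℤ[X]} (hD : Dat g G1 G2) (u v : ℤ) : (AA G1 G2 u v).Monic := by
  unfold AA
  have h1 : (G1 ^ 2).Monic := hD.m1.pow 2
  rw [add_assoc]
  refine h1.add_of_left ?_
  have hk : (G1 ^ 2).degree = ((2 * G1.natDegree : ℕ) : WithBot ℕ) := by
    rw [degree_eq_natDegree h1.ne_zero, hD.m1.natDegree_pow]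
  rw [hk]
  have hpos : 0 < G1.natDegree := lt_of_le_of_lt (Nat.zero_le _) hD.d2
  have h2 : (C u * G1 * G2 + C v * G2 ^ 2).natDegree < 2 * G1.natDegree := by
    have a1 : (C u * G1 * G2).natDegree ≤ G1.natDegree + G2.natDegree := by
      refine natDegree_mul_le.trans ?_
      have := natDegree_C_mul_le u G1
      omega
    have a2 : (C v * G2 ^ 2).natDegree ≤ 2 * G2.natDegree := by
      refine (natDegree_C_mul_le v _).trans ?_
      exact natDegree_pow_le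
    have := hD.d2
    refine lt_of_le_of_lt (natDegree_add_le _ _) ?_
    refine max_lt (by omega) (by omega)
  exact lt_of_le_of_lt degree_le_natDegree (by exact_mod_cast h2)

private theorem D1_root {P : ℤ[X]} (hP : P.Monic) (p : ℕ) (hp : p.Prime) (a b : ℤ) (hab : IsCoprime a b)
    (h : (p : ℤ) ∣ PT.hom P a b) (ρ : ZMod p) (hρ : ρ * (b : ZMod p) = a) : (red p P).eval ρ = 0 := by
  haveI : Fact p.Prime := ⟨hp⟩
  obtain ⟨-, h2⟩ := desc_root P hP p hp a b hab h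
  have h3 : (p : ℤ) ∣ ((ρ.val : ℕ) : ℤ) * b - a := by
    rw [← ZMod.intCast_zmod_eq_zero_iff_dvd]
    push_cast
    rw [ZMod.natCast_zmod_val, hρ, sub_self]
  have h4 := h2 _ h3
  have h5 := desc_eval_red P p ((ρ.val : ℕ) : ℤ)
  rw [(ZMod.intCast_zmod_eq_zero_iff_dvd _ p).2 h4] at h5
  rw [← h5]
  push_cast
  rw [ZMod.natCast_zmod_val]

/-- the Chinese remainder theorem for a squarefree modulus -/
private theorem D1_crt (M : ℕ) (f : ℕ → ℕ) :
    ∃ r : ℤ, ∀ p : ℕ, p.Prime → p ∣ M → M ≠ 0 → ((r : ℤ) : ZMod p) = (f p : ZMod p) := by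
  have hpw : Set.Pairwise (M.primeFactors : Set ℕ) (Function.onFun Nat.Coprime (fun p : ℕ => p)) := by
    intro p hp q hq hne
    exact (Nat.coprime_primes (Nat.prime_of_mem_primeFactors (by simpa using hp))
      (Nat.prime_of_mem_primeFactors (by simpa using hq))).2 hne
  have hnz : ∀ i ∈ M.primeFactors, (fun p : ℕ => p) i ≠ 0 := fun i hi =>
    (Nat.prime_of_mem_primeFactors hi).ne_zero
  obtain ⟨k, hk⟩ := Nat.chineseRemainderOfFinset f (fun p => p) M.primeFactors hnz hpw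
  refine ⟨(k : ℤ), fun p hp hpM hM => ?_⟩
  have h1 := hk p (Nat.mem_primeFactors.2 ⟨hp, hpM, hM⟩)
  push_cast
  exact (ZMod.natCast_eq_natCast_iff _ _ _).2 h1

private theorem D1_norm {g : ℤ[X]} (hg : g.Monic) (hi : Irreducible (qq g)) (A P : ℤ[X]) (a b : ℤ) (κ : ℚ[X]) (hκ : ¬ qq g ∣ κ)
    (h : qq g ∣ qq A - (C (a : ℚ) - C (b : ℚ) * X) * qq P * κ ^ 2) :
    ∃ q : ℚ, q ≠ 0 ∧ ((nm g A : ℤ) : ℚ) = (PT.hom g a b : ℚ) * ((nm g P : ℤ) : ℚ) * q ^ 2 := by
  have hgq : (qq g).Monic := hg.map _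
  refine ⟨nm (qq g) κ, ?_, ?_⟩
  · intro h0
    exact (nm_eq_zero hgq κ).1 h0 ((Irreducible.coprime_iff_not_dvd hi).2 hκ)
  · have h1 : nm (qq g) (qq A) = ((nm g A : ℤ) : ℚ) := nm_map (Int.castRingHom ℚ) hg A
    have h2 : nm (qq g) (qq P) = ((nm g P : ℤ) : ℚ) := nm_map (Int.castRingHom ℚ) hg P
    have h3 : nm (qq g) (C (a : ℚ) - C (b : ℚ) * X) = (PT.hom g a b : ℚ) := by
      have := nm_map (Int.castRingHom ℚ) hg (C a - C b * X)
      rw [nm_lin hg] at this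
      simp only [Polynomial.map_sub, Polynomial.map_mul, map_C, map_X] at this
      exact this
    rw [← h1, ← h2, ← h3, nm_congr hgq h, nm_mul hgq, nm_mul hgq, sq κ, nm_mul hgq]
    ring

theorem desc_one {g G1 G2 : ℤ[X]} (hD : Dat g G1 G2) :
    ∃ M0 : ℕ, M0 ≠ 0 ∧ ∀ P0 B : ℕ, Good g G1 G2 P0 B → M0 ∣ B → ∃ C0 : ℝ, 1 ≤ C0 ∧
      ∀ (N : ℕ) (u v a b s w w' : ℤ) (e : ℕ), Typ g G1 G2 B N u v → Pt g G1 G2 B u v a b s w w' e →
        ∃ (δ : Vn 2) (M : ℕ) (r : ℤ), Ob g B C0 δ M r ∧ e * M ∣ (nm g (AA G1 G2 u v)).natAbs ∧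
          Att g G1 G2 B δ u v ∧ ∀ p ∈ QN B N, CC p (nm g (Pf δ)) u v ∧
            (¬ Van g p (red p (Pf δ)) → CB g G1 G2 p (red p (Pf δ)) (u : ZMod p) (v : ZMod p)) := by
  obtain ⟨M0, hM0, hmain⟩ := desc_two hD.gm hD.gd hD.gi
  refine ⟨M0, hM0, fun P0 B hG hMB => ?_⟩
  obtain ⟨C0, hC0, hmain⟩ := hmain B hG.ne hMB
  refine ⟨C0, hC0, fun N u v a b s w w' e hT hP => ?_⟩
  have he0 : (e : ℤ) ≠ 0 := by
    have := hP.sqf.ne_zero
    exact_mod_cast this
  have hs0 : s ≠ 0 := by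
    intro h
    apply hP.ns
    rw [h, zero_mul]
    exact IsSquare.zero
  have hh0 : PT.hom g a b ≠ 0 := by
    rw [hP.hg]
    exact mul_ne_zero (mul_ne_zero hs0 he0) (pow_ne_zero 2 hP.w0)
  have hR0 : nm g (AA G1 G2 u v) ≠ 0 := aa_ne hD hG u v
  obtain ⟨c, hc⟩ := hP.bsq
  have hE : ∀ p : ℕ, p.Prime → p ∣ e → ∀ h, Fac g p h → h ∣ red p (C a - C b * X) →
      h ∣ red p (AA G1 G2 u v) := by
    intro p hp hpe h hf hl
    haveI : Fact p.Prime := ⟨hp⟩
    obtain ⟨h1, h2, -⟩ := desc_lin p a b hP.cop h hf.1 hf.2.1 hl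
    rw [h2, dvd_iff_isRoot, IsRoot.def]
    refine D1_root (D1_monic hD u v) p hp a b hP.cop ?_ _ (div_mul_cancel₀ _ h1)
    rw [hP.hA]
    refine Dvd.dvd.mul_right (Dvd.dvd.mul_left ?_ s) _
    exact_mod_cast hpe
  obtain ⟨δ, M, ⟨κ, hκ, hκd⟩, hMsq, hMc, hsz, heM, hVan, hatt, hthird, hlast⟩ :=
    hmain a b hP.cop hh0 s e w hP.hg hP.sB hP.sqf hP.eB (AA G1 G2 u v) hR0 hT.t2 hE
  obtain ⟨q1, hq1, hnm⟩ := D1_norm hD.gm hD.gi (Pf δ) (AA G1 G2 u v) a b κ hκ hκd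
  have hn0 : nm g (Pf δ) ≠ 0 := by
    intro h
    rw [h, Int.cast_zero] at hnm
    have : (PT.hom g a b : ℚ) * ((nm g (AA G1 G2 u v) : ℤ) : ℚ) * q1 ^ 2 ≠ 0 :=
      mul_ne_zero (mul_ne_zero (by exact_mod_cast hh0) (by exact_mod_cast hR0)) (pow_ne_zero 2 hq1)
    exact this hnm.symm
  -- the roots
  have hroot : ∀ p : ℕ, ∃ ρ : ℕ, p.Prime → p ∣ M → Fac g p (X - C (ρ : ZMod p)) ∧
      (X - C (ρ : ZMod p)) ∣ red p (Pf δ) := by
    intro p
    by_cases hp : p.Prime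
    · by_cases hpM : p ∣ M
      · haveI : Fact p.Prime := ⟨hp⟩
        obtain ⟨h, hf, hd⟩ := (hVan p hp (hMc p hp hpM)).2 hpM
        have hA := hatt p hp (hMc p hp hpM) h hf hd
        obtain ⟨-, hdeg⟩ := hT.t2 p hp (hMc p hp hpM) h h hf hf hA hA
        have hform : h = X - C (((-(h.coeff 0)).val : ℕ) : ZMod p) := by
          rw [ZMod.natCast_zmod_val, C_neg, sub_neg_eq_add]
          exact hf.1.eq_X_add_C hdeg
        exact ⟨(-(h.coeff 0)).val, fun _ _ => by rw [← hform]; exact ⟨hf, hd⟩⟩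
      · exact ⟨0, fun _ h => absurd h hpM⟩
    · exact ⟨0, fun h => absurd h hp⟩
  choose ρ hρ using hroot
  obtain ⟨r, hr⟩ := D1_crt M ρ
  have hr' : ∀ p : ℕ, p.Prime → p ∣ M → ((r : ℤ) : ZMod p) = (ρ p : ZMod p) := fun p hp hpM =>
    hr p hp hpM hMsq.ne_zero
  refine ⟨δ, M, r, ⟨hsz, hMsq, hMc, ?_, ?_, hn0, hVan⟩, heM, ?_, ?_⟩
  · intro p hp hpM
    obtain ⟨h1, h2⟩ := hρ p hp hpM
    rw [hr' p hp hpM]
    haveI : Fact p.Prime := ⟨hp⟩
    exact ⟨(dvd_iff_isRoot.1 h1.2.2), (dvd_iff_isRoot.1 h2)⟩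
  · intro p hp hpM h hf hd
    obtain ⟨h1, h2⟩ := hρ p hp hpM
    rw [hr' p hp hpM]
    exact (hT.t2 p hp (hMc p hp hpM) h _ hf h1 (hatt p hp (hMc p hp hpM) h hf hd)
      (hatt p hp (hMc p hp hpM) _ h1 h2)).1
  · exact hatt
  · intro p hpQ
    have hpQ' : p.Prime ∧ ¬ p ∣ B := by
      unfold QN at hpQ
      exact (Finset.mem_filter.1 hpQ).2
    obtain ⟨hp, hpB⟩ := hpQ'
    haveI : Fact p.Prime := ⟨hp⟩
    have hpz : Prime (p : ℤ) := Nat.prime_iff_prime_int.mp hp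
    have hp2 : p ≠ 2 := fun h => hpB (by rw [h]; exact hG.two)
    refine ⟨?_, ?_⟩
    · intro hdisc hj
      have hpR := hT.t3 p hpQ hdisc
      have hps : ¬ (p : ℤ) ∣ s := by
        intro h
        apply hpB
        exact (Int.natCast_dvd.1 h).trans hP.sB
      have hsq : ¬ (p : ℤ) ^ 2 ∣ s * e * nm g (AA G1 G2 u v) := by
        intro h
        have c1 : IsCoprime ((p : ℤ) ^ 2) (nm g (AA G1 G2 u v)) :=
          ((Prime.coprime_iff_not_dvd hpz).2 hpR).pow_left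
        have c2 : IsCoprime ((p : ℤ) ^ 2) s :=
          ((Prime.coprime_iff_not_dvd hpz).2 hps).pow_left
        have h1 := c2.dvd_of_dvd_mul_left (c1.dvd_of_dvd_mul_right h)
        have h2 : p ^ 2 ∣ e := by exact_mod_cast h1
        have h3 := hP.sqf p (by rw [← sq]; exact h2)
        exact hp.one_lt.ne' (Nat.isUnit_iff.1 h3)
      have hjm := jac_class p hp (nm g (Pf δ)) (s * e * nm g (AA G1 G2 u v)) hn0
        (mul_ne_zero (mul_ne_zero hs0 he0) hR0) (w * q1) (by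
          rw [hnm, hP.hg]
          push_cast
          ring) hsq hj
      rw [jacobiSym.mul_left, rr_one hD p hp hp2 u v hdisc hpR, mul_one] at hjm
      exact pt_cc hD hG hT hP p hpQ hdisc hjm
    · intro hnv r0 hr1 hr2 h hf hne
      have hf0 : Fac g p (X - C r0) := ⟨monic_X_sub_C _, irreducible_X_sub_C _, dvd_iff_isRoot.2 hr1⟩
      have hd0 : (X - C r0) ∣ red p (AA G1 G2 u v) := by
        rw [aa_red]
        exact dvd_iff_isRoot.2 hr2
      have hnd0 : ¬ (X - C r0) ∣ red p (Pf δ) := fun h => hnv ⟨_, hf0, h⟩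
      obtain ⟨hpe, hl0⟩ := hthird p hp hpB (hT.t4 p hpQ) _ hf0 hd0 hnd0
      obtain ⟨hb, h3, h4⟩ := desc_lin p a b hP.cop _ hf0.1 hf0.2.1 hl0
      have hr0 : r0 = (a : ZMod p) / b := by
        have := congrArg (fun P : (ZMod p)[X] => P.eval 0) h3
        simpa using this
      have hnA : ¬ h ∣ red p (AA G1 G2 u v) := by
        intro hh
        exact hne (hT.t2 p hp hpB h _ hf hf0 hh hd0).1
      have hnl : ¬ h ∣ red p (C a - C b * X) := by
        intro hh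
        obtain ⟨-, h5, -⟩ := desc_lin p a b hP.cop h hf.1 hf.2.1 hh
        apply hne
        rw [h5, h3]
      obtain ⟨Q, hQ⟩ := hlast p hp hpB h hf hnA hnl
      rw [← aa_red]
      refine ⟨hnA, ?_⟩
      have hcc : (c : ZMod p) ≠ 0 := by
        intro h0
        apply hb
        rw [hc]
        push_cast
        rw [h0]
        simp
      refine ⟨Q * C ((c : ZMod p)⁻¹), ?_⟩
      have e1 : red p (AA G1 G2 u v) * red p (Pf δ) * (C r0 - X) - (Q * C ((c : ZMod p)⁻¹)) ^ 2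
          = C (((c : ZMod p)⁻¹) ^ 2) * (red p (Pf δ) * (red p (C a - C b * X) * red p (AA G1 G2 u v)) - Q ^ 2) := by
        rw [h4, ← hr0]
        have e2 : C (((c : ZMod p)⁻¹) ^ 2) * C ((b : ZMod p)) = 1 := by
          rw [← C_mul, hc]
          push_cast
          rw [← mul_pow, inv_mul_cancel₀ hcc, one_pow, C_1]
        have e3 : (C ((c : ZMod p)⁻¹)) ^ 2 = C (((c : ZMod p)⁻¹) ^ 2) := by rw [C_pow]
        rw [mul_pow, e3]
        linear_combination (-(red p (AA G1 G2 u v) * red p (Pf δ) * (C r0 - X))) * e2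
      rw [e1]
      exact Dvd.dvd.mul_left hQ _

end O1
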