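import Pool.Agent.Lib.MP_10e784_agO.DI
import Pool.Agent.Lib.MP_10e784_ag.TW.TWDesc1

/-! JOB D2.  The descent for the product `(a - b θ) P(θ)`.

Model: `TW.desc1` (file `TW/TWDesc1.lean`), with `ideal_two` in place of `ideal_sqf` and `ζ = (a - b θ) P(θ)`: `rep` gives `A` with `A(θ) = ζ κ²`, coefficients `≤ C (absNorm 𝔡) ^ (1/3) ≤ C B M ^ (1/3)`; `δ i = A.coeff i` (degree less than three), `Pf δ = A`.  For `p ∤ B`, `h ∈ Fac g p`: `φ` from `gen_hom`, `𝔭 = ker φ`: `h ∣ red p A ↔ 𝔡 ≤ 𝔭`.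
`p ∣ M ↔ Van`: (←) `ideal_two`; (→) `𝔡 ≤ 𝔭`, `p ∈ 𝔭`: `A(θ) ∈ 𝔭`, and `𝔭 = Φ h` by `prime_fac`.
Last claim: if `h` divides neither `red p P` nor the linear form then `ζ ∉ 𝔭`, and `sq_transfer` (see `desc1`) gives `IsSquare (φ (A(θ)) φ (ζ))`. -/

set_option autoImplicit false

namespace O1

open Polynomial Finset TW FQQ NumberField

private theorem D2_aeval {K : Type} [Field K] [NumberField K] (θ : 𝓞 K) (A : ℤ[X]) :
    aeval (θ : K) (qq A) = ((aeval θ A : 𝓞 K) : K) := by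
  have h1 : aeval (θ : K) (qq A) = aeval (θ : K) A := by
    have h2 : qq A = A.map (algebraMap ℤ ℚ) := rfl
    rw [h2, aeval_map_algebraMap]
  rw [h1]
  exact aeval_algebraMap_apply K θ A

private theorem D2_lin {K : Type} [Field K] [NumberField K] (θ : 𝓞 K) (a b : ℤ) :
    aeval θ (C a - C b * X : ℤ[X]) = (a : 𝓞 K) - b * θ := by
  rw [map_sub, map_mul, aeval_C, aeval_C, aeval_X]
  simp

private theorem D2_coef (C d e B : ℝ) (n : ℕ) (hn : 0 < n) (hC : 0 < C) (hd : 0 ≤ d)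
    (he : 0 ≤ e) (hB : 0 ≤ B) (h : d ≤ e * B ^ n) :
    C * d ^ ((1 : ℝ) / n) ≤ C * B * e ^ ((1 : ℝ) / n) := by
  have hn' : (n : ℝ) ≠ 0 := by exact_mod_cast hn.ne'
  have h1 : d ^ ((1 : ℝ) / n) ≤ (e * B ^ n) ^ ((1 : ℝ) / n) :=
    Real.rpow_le_rpow hd h (by positivity)
  have h2 : (e * B ^ n) ^ ((1 : ℝ) / n) = e ^ ((1 : ℝ) / n) * B := by
    rw [Real.mul_rpow he (by positivity), ← Real.rpow_natCast B n, ← Real.rpow_mul hB]
    rw [mul_one_div_cancel hn', Real.rpow_one]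
  rw [h2] at h1
  calc C * d ^ ((1 : ℝ) / n) ≤ C * (e ^ ((1 : ℝ) / n) * B) :=
        mul_le_mul_of_nonneg_left h1 hC.le
    _ = C * B * e ^ ((1 : ℝ) / n) := by ring

private theorem D2_Pf (A : ℤ[X]) (hA : A.natDegree < 3) :
    Pf (fun i : Fin 3 => A.coeff (i : ℕ)) = A := by
  unfold Pf
  rw [Fin.sum_univ_eq_sum_range (fun i => C (A.coeff i) * X ^ i) 3]
  exact (as_sum_range_C_mul_X_pow' A hA).symm

theorem desc_two {g : ℤ[X]} (hg : g.Monic) (hd : g.natDegree = 3) (hi : Irreducible (qq g)) :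
    ∃ M0 : ℕ, M0 ≠ 0 ∧ ∀ B : ℕ, B ≠ 0 → M0 ∣ B → ∃ C0 : ℝ, 1 ≤ C0 ∧ ∀ a b : ℤ, IsCoprime a b → PT.hom g a b ≠ 0 →
      ∀ (s : ℤ) (e : ℕ) (w : ℤ), PT.hom g a b = s * e * w ^ 2 → s.natAbs ∣ B → Squarefree e →
      (∀ p : ℕ, p.Prime → p ∣ e → ¬ p ∣ B) →
      ∀ P : ℤ[X], nm g P ≠ 0 → One g B P →
      (∀ p : ℕ, p.Prime → p ∣ e → ∀ h, Fac g p h → h ∣ red p (C a - C b * X) → h ∣ red p P) →
      ∃ (δ : Vn 2) (M : ℕ),
        (∃ κ : ℚ[X], ¬ qq g ∣ κ ∧ qq g ∣ qq (Pf δ) - (C (a : ℚ) - C (b : ℚ) * X) * qq P * κ ^ 2) ∧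
        Squarefree M ∧ (∀ p : ℕ, p.Prime → p ∣ M → ¬ p ∣ B) ∧
        (∀ i, |(δ i : ℝ)| ≤ C0 * (M : ℝ) ^ ((1 : ℝ) / 3)) ∧ e * M ∣ (nm g P).natAbs ∧
        (∀ p : ℕ, p.Prime → ¬ p ∣ B → (Van g p (red p (Pf δ)) ↔ p ∣ M)) ∧
        (∀ p : ℕ, p.Prime → ¬ p ∣ B → ∀ h, Fac g p h → h ∣ red p (Pf δ) → h ∣ red p P) ∧
        (∀ p : ℕ, p.Prime → ¬ p ∣ B → ¬ (p : ℤ) ^ 2 ∣ nm g P → ∀ h, Fac g p h → h ∣ red p P → ¬ h ∣ red p (Pf δ) →
          p ∣ e ∧ h ∣ red p (C a - C b * X)) ∧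
        (∀ p : ℕ, p.Prime → ¬ p ∣ B → ∀ h, Fac g p h → ¬ h ∣ red p P → ¬ h ∣ red p (C a - C b * X) →
          ∃ Q : (ZMod p)[X], h ∣ red p (Pf δ) * (red p (C a - C b * X) * red p P) - Q ^ 2) := by
  obtain ⟨K, instF, instN, θ, hG⟩ := gen_exists g hg hi
  obtain ⟨M1, hM1, -, hhom⟩ := gen_hom hG
  obtain ⟨C1, M2, hC1, hM2, hrep⟩ := rep hG
  obtain ⟨M3, hM3, hid⟩ := ideal_two hG hd
  obtain ⟨M4, hM4, hfac⟩ := prime_fac hG
  refine ⟨M1 * M2 * M3 * M4, mul_ne_zero (mul_ne_zero (mul_ne_zero hM1 hM2) hM3) hM4,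
    fun B hB hMB => ?_⟩
  have hM1B : M1 ∣ B := (Dvd.intro (M2 * M3 * M4) (by ring)).trans hMB
  have hM2B : M2 ∣ B := (Dvd.intro (M1 * M3 * M4) (by ring)).trans hMB
  have hM3B : M3 ∣ B := (Dvd.intro (M1 * M2 * M4) (by ring)).trans hMB
  have hM4B : M4 ∣ B := (Dvd.intro (M1 * M2 * M3) (by ring)).trans hMB
  have hBpos : (0 : ℝ) < B := by exact_mod_cast Nat.pos_of_ne_zero hB
  refine ⟨max 1 (C1 * B), le_max_left _ _, ?_⟩
  intro a b hab hne s e w hw hs he hpe P hP hOne hE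
  have hα : (a : 𝓞 K) - b * θ ≠ 0 := by
    intro h0
    have h1 := gen_norm hG a b
    rw [h0, Algebra.norm_zero] at h1
    exact hne h1.symm
  have hρ : (aeval θ P : 𝓞 K) ≠ 0 := by
    intro h0
    have h1 := nm_norm hG P
    rw [h0, Algebra.norm_zero] at h1
    exact hP h1.symm
  obtain ⟨𝔡, 𝔞, M, hda, hnorm, hMsq, hMB', heM, hloc, hMp⟩ :=
    hid B hB hM3B a b hab hne s e w hw hs he hpe P hP hOne hE
  obtain ⟨A, κ, hκ, hdeg, hA, hcoef, hprime⟩ := hrep _ 𝔡 𝔞 (mul_ne_zero hα hρ) hda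
  have hdeg3 : A.natDegree < 3 := by rw [← hd]; exact hdeg
  have hPf : Pf (fun i : Fin 3 => A.coeff (i : ℕ)) = A := D2_Pf A hdeg3
  -- the homomorphisms
  have hker : ∀ p : ℕ, p.Prime → ¬ p ∣ B → ∀ h, Fac g p h → ∃ φ : 𝓞 K →+* AdjoinRoot h,
      (RingHom.ker φ).IsPrime ∧ (∀ R : ℤ[X], (aeval θ R ∈ RingHom.ker φ ↔ h ∣ red p R)) ∧
      (∀ R : ℤ[X], φ (aeval θ R) = AdjoinRoot.mk h (red p R)) ∧
      (h ∣ red p A ↔ 𝔡 ≤ RingHom.ker φ) := by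
    intro p hp hpB h hF
    obtain ⟨hmon, hhirr, hdvd⟩ := hF
    have : Fact p.Prime := ⟨hp⟩
    have : Fact (Irreducible h) := ⟨hhirr⟩
    obtain ⟨φ, hφ⟩ := hhom p hp (fun hh => hpB (hh.trans hM1B)) h hhirr hdvd
    have hPr : (RingHom.ker φ).IsPrime := RingHom.ker_isPrime φ
    have hM2P : (M2 : 𝓞 K) ∉ RingHom.ker φ := by
      rw [RingHom.mem_ker, map_natCast, ← map_natCast (algebraMap (ZMod p) (AdjoinRoot h)) M2]
      intro h0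
      rw [map_eq_zero_iff _ (algebraMap (ZMod p) (AdjoinRoot h)).injective,
        ZMod.natCast_eq_zero_iff] at h0
      exact hpB (h0.trans hM2B)
    have h1 : ∀ R : ℤ[X], (aeval θ R ∈ RingHom.ker φ ↔ h ∣ red p R) := by
      intro R
      rw [RingHom.mem_ker, hφ, AdjoinRoot.mk_eq_zero]
    refine ⟨φ, hPr, h1, hφ, ?_⟩
    rw [← hprime _ hPr hM2P, h1]
  refine ⟨fun i => A.coeff (i : ℕ), M, ?_, hMsq, hMB', ?_, heM, ?_, ?_, ?_, ?_⟩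
  · obtain ⟨κ', hκ'⟩ := gen_span hG κ
    refine ⟨κ', ?_, ?_⟩
    · intro h1
      rw [← gen_rat hG, ← hκ'] at h1
      exact hκ h1
    · rw [hPf, ← gen_rat hG, map_sub, map_mul, map_mul, map_pow, ← hκ', D2_aeval, D2_aeval, hA,
        map_sub, map_mul, aeval_C, aeval_C, aeval_X]
      push_cast
      simp
  · intro i
    have h1 := hcoef (i : ℕ)
    have h2 := D2_coef C1 (Ideal.absNorm 𝔡 : ℝ) M B 3 (by norm_num) hC1 (Nat.cast_nonneg _)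
      (Nat.cast_nonneg _) hBpos.le (by exact_mod_cast hnorm)
    rw [hd] at h1
    push_cast at h1 h2
    refine (h1.trans h2).trans ?_
    exact mul_le_mul_of_nonneg_right (le_max_right _ _) (Real.rpow_nonneg (Nat.cast_nonneg _) _)
  · intro p hp hpB
    rw [hPf]
    constructor
    · rintro ⟨h, hF, hh⟩
      obtain ⟨φ, hPr, h1, -, h2⟩ := hker p hp hpB h hF
      exact ((hloc p hp hpB h hF _ hPr h1).1 (h2.1 hh)).1
    · intro hpM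
      obtain ⟨𝔭, h𝔭, hp𝔭, h𝔡𝔭⟩ := hMp p hp hpM
      obtain ⟨Φ, -, hΦ, hsurj⟩ := hfac p hp (fun hh => hpB (hh.trans hM4B))
      obtain ⟨h, rfl⟩ := hsurj 𝔭 h𝔭 hp𝔭
      have hM2P : (M2 : 𝓞 K) ∉ Φ h := by
        intro h0
        have hcop : Nat.Coprime M2 p := (Nat.Prime.coprime_iff_not_dvd hp).2
          (fun hh => hpB (hh.trans hM2B)) |>.symm
        have h3 : IsCoprime (M2 : ℤ) (p : ℤ) := Nat.isCoprime_iff_coprime.2 hcop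
        obtain ⟨x, y, hxy⟩ := h3
        have h4 : ((x * (M2 : ℤ) + y * (p : ℤ) : ℤ) : 𝓞 K) = 1 := by rw [hxy, Int.cast_one]
        push_cast at h4
        have h5 : (1 : 𝓞 K) ∈ Φ h := by
          rw [← h4]
          exact Ideal.add_mem _ (Ideal.mul_mem_left _ _ h0) (Ideal.mul_mem_left _ _ hp𝔭)
        exact h𝔭.ne_top ((Ideal.eq_top_iff_one _).2 h5)
      refine ⟨h.1, h.2, ?_⟩
      rw [← (hΦ h).2.2.2 A]
      exact (hprime _ h𝔭 hM2P).2 h𝔡𝔭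
  · intro p hp hpB h hF hh
    rw [hPf] at hh
    obtain ⟨φ, hPr, h1, -, h2⟩ := hker p hp hpB h hF
    exact ((hloc p hp hpB h hF _ hPr h1).1 (h2.1 hh)).2
  · intro p hp hpB hp2 h hF hhP hhA
    rw [hPf] at hhA
    obtain ⟨φ, hPr, h1, -, h2⟩ := hker p hp hpB h hF
    exact (hloc p hp hpB h hF _ hPr h1).2 hhP hp2 (fun h3 => hhA (h2.2 h3))
  · intro p hp hpB h hF hhP hhl
    rw [hPf]
    obtain ⟨φ, hPr, h1, hφ, h2⟩ := hker p hp hpB h hF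
    have hsq : IsSquare (φ (aeval θ A) * φ (((a : 𝓞 K) - b * θ) * aeval θ P)) :=
      sq_transfer (R := 𝓞 K) (K := K) φ _ _ κ hA
    obtain ⟨r, hr⟩ := hsq
    obtain ⟨Q, rfl⟩ := AdjoinRoot.mk_surjective r
    refine ⟨Q, ?_⟩
    rw [← AdjoinRoot.mk_eq_zero, map_sub, map_mul, map_mul, map_pow, ← hφ, ← hφ, ← hφ, D2_lin, ← map_mul φ (_ - _), hr,
      sq, sub_self]

end O1
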