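import Pool.Agent.Lib.MP_10e784_agO.Defs2
import Pool.Agent.Lib.MP_10e784_ag.PT.PTDec

/-! JOB DA.  From a rational point to the data `Pt`.

`x = a / b` in lowest terms, `b > 0`; `h0 = PT.hom g a b = b ^ 3 g(x)`, `A0 = PT.hom (AA G1 G2 u v) a b = b ^ (2k) A(x)` (`AA` is monic of degree `2k`, `k = natDegree G1`).  `h0 ≠ 0` (`g` irreducible of degree three).  `A0 ≠ 0`: otherwise `A(x) = 0`, `G2(x) ≠ 0` (else `G1(x) = 0`, contradiction to `hD.cop`), `T = G1(x)/G2(x)`,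
`u² - 4v = (2T + u)²` is a square of a rational number, hence `IsSquare` in `ℤ`, contradiction to `h3`.  `g` and `AA` monic: `b` is coprime to `h0` and to `A0`.  `b * (h0 * A0)` is a square (`h1`, multiply by an even power of `b`), `b > 0`: `b = c²` and `h0 A0` is a square (coprime factors of a square).
Write `h0 = β w²` with `β` squarefree (a signed squarefree integer); `h0 A0 = square` gives `A0 = β w'²`.  `β = s e` with `e ≥ 1` the product of the primes dividing `β` and not `B`, `s` the rest with sign, `|s|` squarefree with all primes dividing `B`, so `|s| ∣ B`.  (See `PT/PTDec.lean` for similar decompositions: `ptdec_one`.)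
`β` is not a square: otherwise `β = 1` and `g(x) = h0 / b³ = w² / c⁶` is a square. -/

set_option autoImplicit false

namespace O1

open Polynomial Finset TW FQQ

theorem DA_dec (B : ℕ) (h : ℤ) (hh : h ≠ 0) : ∃ (s : ℤ) (e : ℕ) (w : ℤ), s.natAbs ∣ B ∧ Squarefree e ∧
    (∀ p : ℕ, p.Prime → p ∣ e → ¬ p ∣ B) ∧ h = s * e * w ^ 2 ∧ s ≠ 0 ∧ w ≠ 0 ∧ Squarefree (s * (e : ℤ)) := by
  obtain ⟨m, w, hmw, hm⟩ := Nat.sq_mul_squarefree h.natAbs
  have hh' : h.natAbs ≠ 0 := Int.natAbs_ne_zero.2 hh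
  have hw0 : w ≠ 0 := by
    rintro rfl
    apply hh'
    rw [← hmw]
    ring
  have hm0 : m ≠ 0 := hm.ne_zero
  have hg : m.gcd B ∣ m := Nat.gcd_dvd_left m B
  have hgm : m.gcd B * (m / m.gcd B) = m := Nat.mul_div_cancel' hg
  have hs1 : (Int.sign h).natAbs = 1 := Int.natAbs_sign_of_ne_zero hh
  refine ⟨Int.sign h * (m.gcd B : ℕ), m / m.gcd B, w, ?_, ?_, ?_, ?_, ?_, ?_, ?_⟩
  · rw [Int.natAbs_mul, hs1, one_mul, Int.natAbs_natCast]
    exact Nat.gcd_dvd_right m B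
  · exact hm.squarefree_of_dvd (Nat.div_dvd_of_dvd hg)
  · intro p hp hpe hpB
    have h1 : p ∣ m := hpe.trans (Nat.div_dvd_of_dvd hg)
    have h2 : p ∣ m.gcd B := Nat.dvd_gcd h1 hpB
    have h3 : p * p ∣ m := by
      rw [← hgm]
      exact mul_dvd_mul h2 hpe
    exact hp.one_lt.ne' (Nat.isUnit_iff.1 (hm p h3))
  · have h1 : ((h.natAbs : ℕ) : ℤ) = ((w ^ 2 * (m.gcd B * (m / m.gcd B)) : ℕ) : ℤ) := by
      rw [hgm, hmw]
    have h2 : h = Int.sign h * ((h.natAbs : ℕ) : ℤ) := (Int.sign_mul_natAbs h).symm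
    calc h = Int.sign h * ((h.natAbs : ℕ) : ℤ) := h2
      _ = Int.sign h * ((w ^ 2 * (m.gcd B * (m / m.gcd B)) : ℕ) : ℤ) := by rw [h1]
      _ = _ := by
        push_cast
        ring
  · intro h0
    rcases mul_eq_zero.1 h0 with h1 | h1
    · rw [h1] at hs1
      exact absurd hs1 (by simp)
    · have h2 : m.gcd B = 0 := by exact_mod_cast h1
      exact hm0 (Nat.gcd_eq_zero_iff.1 h2).1
  · exact_mod_cast hw0
  · rw [← Int.squarefree_natAbs, Int.natAbs_mul, Int.natAbs_mul, hs1, one_mul, Int.natAbs_natCast,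
      Int.natAbs_natCast, hgm]
    exact hm

theorem DA_hom (P : ℤ[X]) (a b : ℤ) (hb : (b : ℚ) ≠ 0) :
    ((PT.hom P a b : ℤ) : ℚ) = (b : ℚ) ^ P.natDegree * (qq P).eval ((a : ℚ) / b) := by
  have hd : (qq P).natDegree = P.natDegree := natDegree_map_eq_of_injective Int.cast_injective P
  rw [PT.hom, eval_eq_sum_range, hd, Finset.mul_sum]
  push_cast
  refine Finset.sum_congr rfl fun k hk => ?_
  rw [Finset.mem_range] at hk
  have hk' : k ≤ P.natDegree := by omega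
  rw [qq, coeff_map, div_pow, eq_intCast]
  have : (b : ℚ) ^ P.natDegree = (b : ℚ) ^ k * (b : ℚ) ^ (P.natDegree - k) := by
    rw [← pow_add, Nat.add_sub_cancel' hk']
  rw [this]
  field_simp

theorem DA_cop {P : ℤ[X]} (hP : P.Monic) {a b : ℤ} (h : IsCoprime a b) : IsCoprime b (PT.hom P a b) := by
  have h1 : ∃ t : ℤ, PT.hom P a b = a ^ P.natDegree + b * t := by
    have h2 : b ∣ ∑ k ∈ range P.natDegree, P.coeff k * a ^ k * b ^ (P.natDegree - k) := by
      refine Finset.dvd_sum fun k hk => ?_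
      rw [Finset.mem_range] at hk
      exact Dvd.dvd.mul_left (dvd_pow_self b (by omega)) _
    obtain ⟨t, ht⟩ := h2
    refine ⟨t, ?_⟩
    rw [PT.hom, Finset.sum_range_succ, ht, hP.coeff_natDegree, Nat.sub_self, pow_zero]
    ring
  obtain ⟨t, ht⟩ := h1
  rw [ht]
  exact ((h.pow_left (m := P.natDegree)).symm).add_mul_left_right t

theorem DA_sq {x y : ℤ} (hy : y ≠ 0) (h : IsSquare (x * y ^ 2)) : IsSquare x := by
  rw [← Rat.isSquare_intCast_iff] at h ⊢
  obtain ⟨r, hr⟩ := h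
  have hy' : (y : ℚ) ≠ 0 := by exact_mod_cast hy
  refine ⟨r / y, ?_⟩
  push_cast at hr
  field_simp
  linarith

theorem DA_AA {g G1 G2 : ℤ[X]} (hD : Dat g G1 G2) (u v : ℤ) :
    (AA G1 G2 u v).Monic ∧ (AA G1 G2 u v).natDegree = 2 * G1.natDegree := by
  have h1 : (AA G1 G2 u v) = G1 ^ 2 + (C u * G1 * G2 + C v * G2 ^ 2) := by
    rw [AA]
    ring
  have h2 : (C u * G1 * G2 + C v * G2 ^ 2).natDegree < 2 * G1.natDegree := by
    have h3 := hD.d2
    refine (natDegree_add_le _ _).trans_lt (max_lt ?_ ?_)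
    · refine natDegree_mul_le.trans_lt ?_
      have h4 : (C u * G1).natDegree ≤ G1.natDegree := natDegree_C_mul_le u G1
      omega
    · refine (natDegree_C_mul_le v _).trans_lt ?_
      have h4 : (G2 ^ 2).natDegree ≤ 2 * G2.natDegree := natDegree_pow_le
      omega
  have h3 : (G1 ^ 2).Monic := hD.m1.pow 2
  have h4 : (G1 ^ 2).natDegree = 2 * G1.natDegree := hD.m1.natDegree_pow 2
  have h5 : (C u * G1 * G2 + C v * G2 ^ 2).degree < (G1 ^ 2).degree := by
    rw [degree_eq_natDegree h3.ne_zero, h4]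
    exact lt_of_le_of_lt degree_le_natDegree (by exact_mod_cast h2)
  refine ⟨?_, ?_⟩
  · rw [h1]
    exact h3.add_of_left h5
  · rw [h1, natDegree_add_eq_left_of_degree_lt h5, h4]

theorem exists_pt {g G1 G2 : ℤ[X]} (hD : Dat g G1 G2) (B : ℕ) (hB : B ≠ 0) (u v : ℤ) (x : ℚ)
    (h1 : IsSquare ((qq g).eval x * (qq (AA G1 G2 u v)).eval x)) (h2 : ¬ IsSquare ((qq g).eval x))
    (h3 : ¬ IsSquare (u ^ 2 - 4 * v)) :
    ∃ (a b s w w' : ℤ) (e : ℕ), Pt g G1 G2 B u v a b s w w' e := by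
  have hx : x = (x.num : ℚ) / ((x.den : ℤ) : ℚ) := by
    rw [Int.cast_natCast, Rat.num_div_den]
  obtain ⟨a, ha⟩ : ∃ a : ℤ, a = x.num := ⟨_, rfl⟩
  obtain ⟨b, hb⟩ : ∃ b : ℤ, b = (x.den : ℤ) := ⟨_, rfl⟩
  have hb0 : 0 < b := by
    rw [hb]
    exact_mod_cast x.den_pos
  have hbq : (b : ℚ) ≠ 0 := by exact_mod_cast hb0.ne'
  have hcop : IsCoprime a b := by
    rw [ha, hb, Int.isCoprime_iff_gcd_eq_one]
    exact x.reduced
  rw [← ha, ← hb] at hx
  have hAA := DA_AA hD u v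
  have e1 := DA_hom g a b hbq
  have e2 := DA_hom (AA G1 G2 u v) a b hbq
  rw [← hx, hD.gd] at e1
  rw [← hx, hAA.2] at e2
  have hgx : (qq g).eval x ≠ 0 := by
    intro h
    exact h2 ⟨0, by rw [h, mul_zero]⟩
  have hAx : (qq (AA G1 G2 u v)).eval x ≠ 0 := by
    intro h
    have h4 : (qq (AA G1 G2 u v)).eval x = ((qq G1).eval x) ^ 2 + u * (qq G1).eval x * (qq G2).eval x +
        v * ((qq G2).eval x) ^ 2 := by
      simp only [qq, AA, Polynomial.map_add, Polynomial.map_mul, Polynomial.map_pow, map_C, eval_add, eval_mul,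
        eval_pow, eval_C, Int.coe_castRingHom]
    rw [h4] at h
    by_cases hG : (qq G2).eval x = 0
    · rw [hG] at h
      have h5 : (qq G1).eval x = 0 := by
        have : ((qq G1).eval x) ^ 2 = 0 := by linarith
        exact pow_eq_zero_iff (two_ne_zero) |>.1 this
      obtain ⟨α, β, hαβ⟩ := hD.cop
      have h6 := congrArg (fun P => P.eval x) hαβ
      simp only [eval_add, eval_mul, h5, hG, mul_zero, add_zero, eval_one] at h6
      exact zero_ne_one h6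
    · apply h3
      rw [← Rat.isSquare_intCast_iff]
      refine ⟨2 * ((qq G1).eval x / (qq G2).eval x) + u, ?_⟩
      push_cast
      field_simp
      linear_combination (-4 : ℚ) * h
  have hh0 : PT.hom g a b ≠ 0 := by
    intro h
    rw [h, Int.cast_zero] at e1
    exact (mul_ne_zero (pow_ne_zero _ hbq) hgx) e1.symm
  have hA0 : PT.hom (AA G1 G2 u v) a b ≠ 0 := by
    intro h
    rw [h, Int.cast_zero] at e2
    exact (mul_ne_zero (pow_ne_zero _ hbq) hAx) e2.symm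
  have hsq : IsSquare (b * (PT.hom g a b * PT.hom (AA G1 G2 u v) a b)) := by
    rw [← Rat.isSquare_intCast_iff]
    obtain ⟨r, hr⟩ := h1
    refine ⟨(b : ℚ) ^ (2 + G1.natDegree) * r, ?_⟩
    push_cast
    rw [e1, e2]
    have h5 : (b : ℚ) ^ (2 + G1.natDegree) * r * ((b : ℚ) ^ (2 + G1.natDegree) * r) =
        ((b : ℚ) ^ (2 + G1.natDegree)) ^ 2 * (r * r) := by ring
    rw [h5, ← hr]
    ring
  have hbc : IsCoprime b (PT.hom g a b * PT.hom (AA G1 G2 u v) a b) :=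
    (DA_cop hD.gm hcop).mul_right (DA_cop hAA.1 hcop)
  obtain ⟨c, hc⟩ : ∃ c : ℤ, b = c ^ 2 := by
    obtain ⟨r, hr⟩ := hsq
    obtain ⟨c, hc⟩ := Int.sq_of_isCoprime hbc (hr.trans (sq r).symm)
    rcases hc with hc | hc
    · exact ⟨c, hc⟩
    · exfalso
      nlinarith [sq_nonneg c]
  have hc0 : c ≠ 0 := by
    rintro rfl
    rw [hc] at hb0
    norm_num at hb0
  have hprod : IsSquare (PT.hom g a b * PT.hom (AA G1 G2 u v) a b) := by
    refine DA_sq hc0 ?_
    rw [← hc, mul_comm]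
    exact hsq
  obtain ⟨s, e, w, d1, d2, d3, d4, d5, d6, d7⟩ := DA_dec B (PT.hom g a b) hh0
  have hse : IsSquare ((s * (e : ℤ)) * PT.hom (AA G1 G2 u v) a b) := by
    refine DA_sq d6 ?_
    have : (s * (e : ℤ)) * PT.hom (AA G1 G2 u v) a b * w ^ 2 = PT.hom g a b * PT.hom (AA G1 G2 u v) a b := by
      rw [d4]
      ring
    rw [this]
    exact hprod
  obtain ⟨w', hw'⟩ : ∃ w' : ℤ, PT.hom (AA G1 G2 u v) a b = s * e * w' ^ 2 := by
    obtain ⟨r, hr⟩ := hse
    have h5 : (s * (e : ℤ)) ∣ r := by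
      have h6 : (s * (e : ℤ)) ∣ r ^ 2 := ⟨PT.hom (AA G1 G2 u v) a b, by rw [sq, ← hr]⟩
      exact (d7.dvd_pow_iff_dvd two_ne_zero).1 h6
    obtain ⟨t, ht⟩ := h5
    refine ⟨t, ?_⟩
    have h7 : (s * (e : ℤ)) ≠ 0 := d7.ne_zero
    refine mul_left_cancel₀ h7 ?_
    rw [hr, ht]
    ring
  have hw0' : w' ≠ 0 := by
    rintro rfl
    apply hA0
    rw [hw']
    ring
  refine ⟨a, b, s, w, w', e, ⟨hcop, ⟨c, hc⟩, hb0.ne', d6, hw0', d4, hw', d2, d1, d3, ?_⟩⟩
  rintro ⟨t, ht⟩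
  apply h2
  have hcq : (c : ℚ) ≠ 0 := by exact_mod_cast hc0
  refine ⟨(t * w : ℚ) / (c : ℚ) ^ 3, ?_⟩
  have h8 : ((PT.hom g a b : ℤ) : ℚ) = ((t * w : ℤ) : ℚ) ^ 2 := by
    rw [d4, ht]
    push_cast
    ring
  have h9 : (b : ℚ) = (c : ℚ) ^ 2 := by exact_mod_cast hc
  rw [h8, h9] at e1
  push_cast at e1
  field_simp
  linear_combination - e1

end O1
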