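import Pool.Agent.Lib.MP_10e784_agO.Defs

/-! Definitions for the descent. -/

set_option autoImplicit false

namespace O1

open Polynomial Finset TW FQQ

/-- the data of a rational point `x = a / b` in a non-trivial class `s e` -/
structure Pt (g G1 G2 : ℤ[X]) (B : ℕ) (u v a b s w w' : ℤ) (e : ℕ) : Prop where
  cop : IsCoprime a b
  bsq : ∃ c : ℤ, b = c ^ 2
  b0 : b ≠ 0
  w0 : w ≠ 0
  w0' : w' ≠ 0
  hg : PT.hom g a b = s * e * w ^ 2
  hA : PT.hom (AA G1 G2 u v) a b = s * e * w' ^ 2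
  sqf : Squarefree e
  sB : s.natAbs ∣ B
  eB : ∀ p : ℕ, p.Prime → p ∣ e → ¬ p ∣ B
  ns : ¬ IsSquare (s * (e : ℤ))

/-- at every prime outside `B` the polynomial `P` vanishes at most at one place, of degree one -/
def One (g : ℤ[X]) (B : ℕ) (P : ℤ[X]) : Prop :=
  ∀ p : ℕ, p.Prime → ¬ p ∣ B → ∀ h h', Fac g p h → Fac g p h' → h ∣ red p P → h' ∣ red p P → h = h' ∧ h.natDegree = 1

/-- all primes of `e` outside `B` satisfy the SELF condition -/
def SelfAll (g : ℤ[X]) (B : ℕ) (δ : Vn 2) : Prop := ∀ p : ℕ, p.Prime → ¬ p ∣ B → Self g p (red p (Pf δ))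

end O1
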