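import Pool.Agent.Lib.MP_10e784_agO.DK
import Pool.Agent.Lib.MP_10e784_agO.Defs2
import Pool.Agent.Lib.MP_10e784_ag.TW.TWIdeal

/-! JOB DI.  The squarefree part of the ideal `((a - b θ) P(θ))`.

Model: `TW.ideal_sqf` (file `TW/TWIdeal.lean`; its private lemmas can be copied).  `M0` = product of the `M`'s of `gen_hom`, `prime_fac`.  Let `M0 ∣ B`, `α = a - b θ`, `ρ = P(θ)`, `ζ = α ρ ≠ 0` (`nm_norm`, `gen_norm`), `v_𝔭` the multiplicities, `𝔡 = ∏_{v_𝔭(ζ) odd} 𝔭`, `𝔞` the rest (as in `ideal_sqf`).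
For `p ∤ B` the primes above `p` are the `Φ h`, `h ∈ Fac g p`, of norm `p ^ deg h`.  (1) `α` lies in at most one of them, the one with `h = X - C (a/b)`, of norm `p`, so `v_𝔭(α) = v_p(PT.hom g a b)` for it; `PT.hom g a b = s e w²`, `p ∤ s`: `v_p` is odd iff `p ∣ e`.
(2) by `One` `ρ` lies in at most one of them and this one has norm `p`: `v_𝔭(ρ) = v_p(nm g P)`.
`M` = product of the primes `p ∤ B` such that some `𝔭 ∣ p` has `v_𝔭(ζ)` odd.  For such `p` and `𝔭`: if `p ∣ e`: `𝔮 = Φ(X - a/b)` contains `α` and (hypothesis `hE`) `ρ`, it is the only prime above `p` containing `ρ` and the only one containing `α`, so `𝔭 = 𝔮`, `v_𝔮(ρ) = v_p(nm g P)` is even and `≥ 1`, so `≥ 2`: `p² ∣ nm g P`.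
If `p ∤ e`: `v_𝔭(α)` is even, so `v_𝔭(ρ)` is odd: `p ∣ nm g P`, `ρ ∈ 𝔭`.  In both cases `ρ ∈ 𝔭` and `𝔭` is the only prime above `p` dividing `𝔡`, of norm `p`.  So `absNorm 𝔡 = M * (part above the primes of B)`, the latter is at most `∏_{p ∣ B} p ^ 3 ≤ B ^ 3` (`∏_{𝔭 ∣ p} 𝔭 ∣ (p)`).
`e M ∣ nm g P`: for `p ∣ e`: `p ∣ nm g P` (`ρ ∈ 𝔮`); for `p ∣ M`, `p ∣ e`: `p² ∣ nm g P`; for `p ∣ M`: `p ∣ nm g P`; `e`, `M` squarefree.
Third local claim: `h ∣ red p P`, so `ρ ∈ 𝔭 = Φ h`, `v_𝔭(ρ) = v_p(nm g P) = 1`; `𝔡 ≰ 𝔭`: `v_𝔭(ζ)` even, so `v_𝔭(α)` is odd: `α ∈ 𝔭` and `p ∣ e`. -/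

set_option autoImplicit false

namespace O1

open Polynomial Finset TW FQQ NumberField UniqueFactorizationMonoid

/-- an integer lies in a prime ideal over `p` iff it is divisible by `p` -/
private theorem DI_int {K : Type} [Field K] [NumberField K] {𝔭 : Ideal (𝓞 K)} (h𝔭 : 𝔭.IsPrime)
    {p : ℕ} (hp : p.Prime) (hmem : (p : 𝓞 K) ∈ 𝔭) (n : ℤ) : (n : 𝓞 K) ∈ 𝔭 ↔ (p : ℤ) ∣ n := by
  constructor
  · intro hn
    by_contra hnd
    have hcop : IsCoprime (p : ℤ) n := (Nat.prime_iff_prime_int.mp hp).coprime_iff_not_dvd.mpr hnd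
    obtain ⟨u, v, huv⟩ := hcop
    apply h𝔭.ne_top
    rw [Ideal.eq_top_iff_one]
    have h1 : ((u * p + v * n : ℤ) : 𝓞 K) = 1 := by rw [huv]; simp
    rw [← h1]
    push_cast
    exact 𝔭.add_mem (𝔭.mul_mem_left _ hmem) (𝔭.mul_mem_left _ hn)
  · rintro ⟨k, rfl⟩
    push_cast
    exact 𝔭.mul_mem_right _ hmem

/-- two different primes do not lie in the same prime ideal -/
private theorem DI_pp {K : Type} [Field K] [NumberField K] {𝔭 : Ideal (𝓞 K)} (h𝔭 : 𝔭.IsPrime)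
    {p q : ℕ} (hp : p.Prime) (hq : q.Prime) (hmem : (p : 𝓞 K) ∈ 𝔭) (hmem' : (q : 𝓞 K) ∈ 𝔭) : p = q := by
  have h1 : ((q : ℤ) : 𝓞 K) ∈ 𝔭 := by simpa using hmem'
  have h2 := (DI_int h𝔭 hp hmem _).1 h1
  exact (Nat.prime_dvd_prime_iff_eq hp hq).1 (by exact_mod_cast h2)

/-- a nonzero prime ideal contains a prime number -/
private theorem DI_over {K : Type} [Field K] [NumberField K] {𝔭 : Ideal (𝓞 K)} (h𝔭 : 𝔭.IsPrime)
    (h0 : 𝔭 ≠ ⊥) : ∃ p : ℕ, p.Prime ∧ (p : 𝓞 K) ∈ 𝔭 := by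
  have hn : Ideal.absNorm 𝔭 ≠ 0 := by rwa [Ne, Ideal.absNorm_eq_zero_iff]
  have key : ∀ n : ℕ, n ≠ 0 → (n : 𝓞 K) ∈ 𝔭 → ∃ p : ℕ, p.Prime ∧ (p : 𝓞 K) ∈ 𝔭 := by
    intro n
    induction n using Nat.recOnMul with
    | zero => intro h; exact absurd rfl h
    | one => intro _ h; exact absurd ((Ideal.eq_top_iff_one _).mpr (by simpa using h)) h𝔭.ne_top
    | prime p hp => intro _ h; exact ⟨p, hp, h⟩
    | mul m n ihm ihn =>
      intro h0 h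
      rw [Nat.cast_mul] at h
      rcases h𝔭.mem_or_mem h with h | h
      · exact ihm (left_ne_zero_of_mul h0) h
      · exact ihn (right_ne_zero_of_mul h0) h
  exact key _ hn (Ideal.absNorm_mem 𝔭)

/-- if `p` divides the norm of the prime ideal `𝔮`, then `p ∈ 𝔮` -/
private theorem DI_dvd {K : Type} [Field K] [NumberField K] {𝔮 : Ideal (𝓞 K)} (h𝔮 : 𝔮.IsPrime) (h0 : 𝔮 ≠ ⊥)
    {p : ℕ} (hp : p.Prime) (hd : p ∣ Ideal.absNorm 𝔮) : (p : 𝓞 K) ∈ 𝔮 := by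
  obtain ⟨P, hP, hP1, hP2⟩ := Ideal.exists_isMaximal_dvd_of_dvd_absNorm' hp 𝔮 hd
  have h1 : 𝔮 ≤ P := Ideal.le_of_dvd hP2
  have h2 : (p : 𝓞 K) ∈ P := by
    have : (p : ℤ) ∈ P.under ℤ := by rw [hP1]; exact Ideal.mem_span_singleton_self _
    rw [Ideal.under_def, Ideal.mem_comap] at this
    simpa using this
  have := (h𝔮.isMaximal h0).eq_of_le hP.ne_top h1
  rwa [this]

/-- the exponent of `p` in a product in which exactly one factor is divisible by `p` -/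
private theorem DI_val {K : Type} [Field K] [NumberField K] {p : ℕ} (hp : p.Prime) (S : Finset (Ideal (𝓞 K)))
    (v : Ideal (𝓞 K) → ℕ) {𝔭 : Ideal (𝓞 K)} (h𝔭 : 𝔭 ∈ S) (hn : Ideal.absNorm 𝔭 = p)
    (hS : ∀ 𝔮 ∈ S, 𝔮 ≠ 𝔭 → ¬ p ∣ Ideal.absNorm 𝔮) :
    (∏ 𝔮 ∈ S, Ideal.absNorm 𝔮 ^ v 𝔮).factorization p = v 𝔭 := by
  classical
  rw [← Finset.mul_prod_erase S _ h𝔭, hn]
  have h1 : ¬ p ∣ ∏ 𝔮 ∈ S.erase 𝔭, Ideal.absNorm 𝔮 ^ v 𝔮 := by
    rw [Prime.dvd_finsetProd_iff hp.prime]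
    rintro ⟨𝔮, hq, hd⟩
    rw [Finset.mem_erase] at hq
    exact hS 𝔮 hq.2 hq.1 (hp.dvd_of_dvd_pow hd)
  have h2 : ∏ 𝔮 ∈ S.erase 𝔭, Ideal.absNorm 𝔮 ^ v 𝔮 ≠ 0 := fun h => h1 (h ▸ dvd_zero p)
  rw [Nat.factorization_mul (pow_ne_zero _ hp.ne_zero) h2, Finsupp.add_apply, hp.factorization_pow,
    Finsupp.single_eq_same, Nat.factorization_eq_zero_of_not_dvd h1, add_zero]

open Classical in
private theorem DI_mem {K : Type} [Field K] [NumberField K] {x : 𝓞 K} (hx : x ≠ 0) (𝔮 : Ideal (𝓞 K)) :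
    𝔮 ∈ normalizedFactors (Ideal.span {x}) ↔ 𝔮.IsPrime ∧ 𝔮 ≠ ⊥ ∧ x ∈ 𝔮 := by
  have hI0 : Ideal.span {x} ≠ ⊥ := by rwa [Ne, Ideal.span_singleton_eq_bot]
  constructor
  · intro h
    have hpr := prime_of_normalized_factor 𝔮 h
    have h0 : 𝔮 ≠ ⊥ := hpr.ne_zero
    refine ⟨(Ideal.prime_iff_isPrime h0).mp hpr, h0, ?_⟩
    have hd := dvd_of_mem_normalizedFactors h
    exact (Ideal.le_of_dvd hd) (Ideal.mem_span_singleton_self x)
  · rintro ⟨h1, h2, h3⟩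
    have hpr : Prime 𝔮 := (Ideal.prime_iff_isPrime h2).mpr h1
    rw [mem_normalizedFactors_iff' hI0]
    refine ⟨hpr.irreducible, normalize_eq _, ?_⟩
    rw [Ideal.dvd_iff_le, Ideal.span_singleton_le_iff_mem]
    exact h3

open Classical in
/-- the multiplicity of a prime of norm `p` in `x`, if it is the only prime above `p` which contains `x` -/
private theorem DI_mult {K : Type} [Field K] [NumberField K] {x : 𝓞 K} (hx : x ≠ 0) {𝔭 : Ideal (𝓞 K)}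
    (h𝔭 : 𝔭.IsPrime) (h0 : 𝔭 ≠ ⊥) {p : ℕ} (hp : p.Prime) (hn : Ideal.absNorm 𝔭 = p) (hx𝔭 : x ∈ 𝔭)
    (huniq : ∀ 𝔮 : Ideal (𝓞 K), 𝔮.IsPrime → (p : 𝓞 K) ∈ 𝔮 → x ∈ 𝔮 → 𝔮 = 𝔭) :
    (normalizedFactors (Ideal.span {x})).count 𝔭 = (Algebra.norm ℤ x).natAbs.factorization p := by
  have hI0 : Ideal.span {x} ≠ ⊥ := by rwa [Ne, Ideal.span_singleton_eq_bot]
  set F := normalizedFactors (Ideal.span {x}) with hF
  have hprod : F.prod = Ideal.span {x} := Ideal.prod_normalizedFactors_eq_self hI0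
  have habs : ∏ 𝔮 ∈ F.toFinset, Ideal.absNorm 𝔮 ^ F.count 𝔮 = (Algebra.norm ℤ x).natAbs := by
    have h1 : Ideal.absNorm (Ideal.span {x}) = (Algebra.norm ℤ x).natAbs := Ideal.absNorm_span_singleton x
    rw [← hprod, Finset.prod_multiset_count, map_prod] at h1
    simp only [map_pow] at h1
    exact h1
  have h𝔭F : 𝔭 ∈ F := (DI_mem hx 𝔭).2 ⟨h𝔭, h0, hx𝔭⟩
  have hval := DI_val hp F.toFinset (fun 𝔮 => F.count 𝔮) (Multiset.mem_toFinset.mpr h𝔭F) hn (by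
    intro 𝔮 h𝔮 hne' hd
    obtain ⟨h𝔮p, h𝔮0, hα𝔮⟩ := (DI_mem hx 𝔮).mp (Multiset.mem_toFinset.mp h𝔮)
    exact hne' (huniq 𝔮 h𝔮p (DI_dvd h𝔮p h𝔮0 hp hd) hα𝔮))
  rw [habs] at hval
  exact hval.symm

/-- the primes above `p` -/
private structure DI_Pr {K : Type} [Field K] [NumberField K] (g : ℤ[X]) (θ : 𝓞 K) (p : ℕ)
    (Φ : {h : (ZMod p)[X] // Fac g p h} → Ideal (𝓞 K)) : Prop where
  inj : Function.Injective Φ
  pr : ∀ h, (Φ h).IsPrime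
  mem : ∀ h, (p : 𝓞 K) ∈ Φ h
  nrm : ∀ h, Ideal.absNorm (Φ h) = p ^ (h.1).natDegree
  iff : ∀ h, ∀ P : ℤ[X], (aeval θ P ∈ Φ h ↔ h.1 ∣ red p P)
  sur : ∀ 𝔭 : Ideal (𝓞 K), 𝔭.IsPrime → (p : 𝓞 K) ∈ 𝔭 → ∃ h, Φ h = 𝔭

private theorem DI_bot {K : Type} [Field K] [NumberField K] {𝔭 : Ideal (𝓞 K)} {p : ℕ} (hp : p.Prime)
    (hmem : (p : 𝓞 K) ∈ 𝔭) : 𝔭 ≠ ⊥ := by
  intro h
  rw [h, Ideal.mem_bot] at hmem
  exact hp.ne_zero (by exact_mod_cast hmem)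

open Classical in
private theorem DI_cnt {g : ℤ[X]} {K : Type} [Field K] [NumberField K] {θ : 𝓞 K} (hG : Gen g K θ) {p : ℕ}
    (hp : p.Prime) {Φ : {h : (ZMod p)[X] // Fac g p h} → Ideal (𝓞 K)} (hΦ : DI_Pr g θ p Φ) {R : ℤ[X]} (hR : nm g R ≠ 0)
    (hone : ∀ h h', Fac g p h → Fac g p h' → h ∣ red p R → h' ∣ red p R → h = h' ∧ h.natDegree = 1)
    (h : {h : (ZMod p)[X] // Fac g p h}) :
    (h.1 ∣ red p R → (normalizedFactors (Ideal.span {aeval θ R})).count (Φ h) = (nm g R).natAbs.factorization p) ∧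
      (¬ h.1 ∣ red p R → (normalizedFactors (Ideal.span {aeval θ R})).count (Φ h) = 0) := by
  have hnorm := nm_norm hG R
  have hx : aeval θ R ≠ 0 := by
    intro h0
    rw [h0, Algebra.norm_zero] at hnorm
    exact hR hnorm.symm
  constructor
  · intro hd
    rw [← hnorm]
    refine DI_mult hx (hΦ.pr h) (DI_bot hp (hΦ.mem h)) hp ?_ ((hΦ.iff h R).2 hd) ?_
    · rw [hΦ.nrm, (hone _ _ h.2 h.2 hd hd).2, pow_one]
    · intro 𝔮 h1 h2 h3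
      obtain ⟨h', rfl⟩ := hΦ.sur 𝔮 h1 h2
      have h4 := (hΦ.iff h' R).1 h3
      have h5 := (hone _ _ h'.2 h.2 h4 hd).1
      rw [Subtype.ext h5]
  · intro hd
    rw [Multiset.count_eq_zero, DI_mem hx]
    rintro ⟨_, _, h3⟩
    exact hd ((hΦ.iff h R).1 h3)

/-- a linear polynomial vanishes at most at one place -/
private theorem DI_lin {g : ℤ[X]} {p : ℕ} (hp : p.Prime) {a b : ℤ} (hab : IsCoprime a b) :
    ∀ h h' : (ZMod p)[X], Fac g p h → Fac g p h' → h ∣ red p (C a - C b * X) → h' ∣ red p (C a - C b * X) →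
      h = h' ∧ h.natDegree = 1 := by
  have : Fact p.Prime := ⟨hp⟩
  have e : red p (C a - C b * X) = C (a : ZMod p) - C (b : ZMod p) * X := by
    simp [red]
  set q : (ZMod p)[X] := C (a : ZMod p) - C (b : ZMod p) * X with hq
  have hq0 : q ≠ 0 := by
    intro h0
    have c0 : (a : ZMod p) = 0 := by
      have := congrArg (fun f => coeff f 0) h0
      simpa [hq] using this
    have c1 : (b : ZMod p) = 0 := by
      have := congrArg (fun f => coeff f 1) h0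
      simp only [hq, coeff_sub, coeff_C_mul, coeff_X_one, coeff_zero, mul_one] at this
      rw [coeff_C_of_ne_zero one_ne_zero, zero_sub, neg_eq_zero] at this
      exact this
    rw [ZMod.intCast_zmod_eq_zero_iff_dvd] at c0 c1
    have := hab.isUnit_of_dvd' c0 c1
    exact (Nat.prime_iff_prime_int.mp hp).not_isUnit this
  have hqd : q.natDegree ≤ 1 := by
    rw [hq]
    refine (natDegree_sub_le _ _).trans ?_
    rw [natDegree_C, max_eq_right (Nat.zero_le _)]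
    exact (natDegree_C_mul_le _ _).trans natDegree_X_le
  have key : ∀ h : (ZMod p)[X], Fac g p h → h ∣ q → h.natDegree = 1 ∧ q = C q.leadingCoeff * h := by
    intro h hf hd
    have h1 : h.natDegree ≤ q.natDegree := natDegree_le_of_dvd hd hq0
    have h2 : 0 < h.natDegree := hf.2.1.natDegree_pos
    refine ⟨by omega, ?_⟩
    obtain ⟨k, hk⟩ := hd
    have hk0 : k ≠ 0 := by
      rintro rfl
      exact hq0 (by rw [hk, mul_zero])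
    have h3 : q.natDegree = h.natDegree + k.natDegree := by
      rw [hk]
      exact natDegree_mul hf.1.ne_zero hk0
    have h4 : k.natDegree = 0 := by omega
    rw [natDegree_eq_zero] at h4
    obtain ⟨c, rfl⟩ := h4
    have h5 : q.leadingCoeff = c := by
      rw [hk, leadingCoeff_mul, hf.1.leadingCoeff, one_mul, leadingCoeff_C]
    rw [h5, hk]
    ring
  intro h h' hf hf' hd hd'
  rw [e] at hd hd'
  obtain ⟨d1, e1⟩ := key h hf hd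
  obtain ⟨d2, e2⟩ := key h' hf' hd'
  refine ⟨?_, d1⟩
  have hc : C q.leadingCoeff ≠ (0 : (ZMod p)[X]) := by
    rw [Ne, C_eq_zero, leadingCoeff_eq_zero]
    exact hq0
  exact mul_left_cancel₀ hc (e1.symm.trans e2)

/-- a prime ideal with the same polynomials as `h` is `Φ h` -/
private theorem DI_same {g : ℤ[X]} {K : Type} [Field K] [NumberField K] {θ : 𝓞 K} {p : ℕ}
    {Φ : {h : (ZMod p)[X] // Fac g p h} → Ideal (𝓞 K)} (hΦ : DI_Pr g θ p Φ) {h : (ZMod p)[X]} (hf : Fac g p h)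
    {𝔭 : Ideal (𝓞 K)} (h𝔭 : 𝔭.IsPrime) (hiff : ∀ R : ℤ[X], (aeval θ R ∈ 𝔭 ↔ h ∣ red p R)) : Φ ⟨h, hf⟩ = 𝔭 := by
  have hmem : (p : 𝓞 K) ∈ 𝔭 := by
    have h1 := (hiff (C (p : ℤ))).2 (by simp [red])
    simpa using h1
  obtain ⟨h', hh'⟩ := hΦ.sur 𝔭 h𝔭 hmem
  obtain ⟨R, hR⟩ := Polynomial.map_surjective (Int.castRingHom (ZMod p)) (ZMod.ringHom_surjective _) h
  have h1 : aeval θ R ∈ 𝔭 := (hiff R).2 (by rw [red, hR])
  rw [← hh', hΦ.iff] at h1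
  have h2 : h'.1 ∣ h := by
    rw [red, hR] at h1
    exact h1
  have h3 : h'.1 = h := by
    have h4 : Associated h'.1 h := h'.2.2.1.associated_of_dvd hf.2.1 h2
    exact Polynomial.eq_of_monic_of_associated h'.2.1 hf.1 h4
  have h5 : (⟨h, hf⟩ : {h : (ZMod p)[X] // Fac g p h}) = h' := Subtype.ext h3.symm
  rw [h5, hh']

theorem ideal_two {g : ℤ[X]} {K : Type} [Field K] [NumberField K] {θ : 𝓞 K} (hG : Gen g K θ) (hd : g.natDegree = 3) :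
    ∃ M0 : ℕ, M0 ≠ 0 ∧ ∀ B : ℕ, B ≠ 0 → M0 ∣ B → ∀ a b : ℤ, IsCoprime a b → PT.hom g a b ≠ 0 →
      ∀ (s : ℤ) (e : ℕ) (w : ℤ), PT.hom g a b = s * e * w ^ 2 → s.natAbs ∣ B → Squarefree e →
      (∀ p : ℕ, p.Prime → p ∣ e → ¬ p ∣ B) →
      ∀ P : ℤ[X], nm g P ≠ 0 → One g B P →
      (∀ p : ℕ, p.Prime → p ∣ e → ∀ h, Fac g p h → h ∣ red p (C a - C b * X) → h ∣ red p P) →
      ∃ (𝔡 𝔞 : Ideal (𝓞 K)) (M : ℕ), Ideal.span {((a : 𝓞 K) - b * θ) * aeval θ P} = 𝔡 * 𝔞 ^ 2 ∧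
        Ideal.absNorm 𝔡 ≤ M * B ^ 3 ∧ Squarefree M ∧ (∀ p : ℕ, p.Prime → p ∣ M → ¬ p ∣ B) ∧
        e * M ∣ (nm g P).natAbs ∧
        (∀ p : ℕ, p.Prime → ¬ p ∣ B → ∀ h, Fac g p h → ∀ 𝔭 : Ideal (𝓞 K), 𝔭.IsPrime →
          (∀ R : ℤ[X], (aeval θ R ∈ 𝔭 ↔ h ∣ red p R)) →
          (𝔡 ≤ 𝔭 → p ∣ M ∧ h ∣ red p P) ∧
          (h ∣ red p P → ¬ (p : ℤ) ^ 2 ∣ nm g P → ¬ 𝔡 ≤ 𝔭 → p ∣ e ∧ h ∣ red p (C a - C b * X))) ∧
        ∀ p : ℕ, p.Prime → p ∣ M → ∃ 𝔭 : Ideal (𝓞 K), 𝔭.IsPrime ∧ (p : 𝓞 K) ∈ 𝔭 ∧ 𝔡 ≤ 𝔭 := by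
  classical
  obtain ⟨M1, hM10, hM1⟩ := prime_fac hG
  refine ⟨M1, hM10, ?_⟩
  intro B hB hMB a b hab hne s e w hsew hsB he heB P hP hone hE
  have hPr : ∀ p : ℕ, p.Prime → ¬ p ∣ B → ∃ Φ : {h : (ZMod p)[X] // Fac g p h} → Ideal (𝓞 K), DI_Pr g θ p Φ := by
    intro p hp hpB
    obtain ⟨Φ, h1, h2, h3⟩ := hM1 p hp (fun h => hpB (h.trans hMB))
    exact ⟨Φ, h1, fun h => (h2 h).1, fun h => (h2 h).2.1, fun h => (h2 h).2.2.1, fun h => (h2 h).2.2.2, h3⟩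
  have hPα : nm g (C a - C b * X) ≠ 0 := by rw [nm_lin hG.monic]; exact hne
  have hα : aeval θ (C a - C b * X : ℤ[X]) = (a : 𝓞 K) - b * θ := by
    simp
  set α : 𝓞 K := (a : 𝓞 K) - b * θ with hαd
  set ρ : 𝓞 K := aeval θ P with hρd
  have hα0 : α ≠ 0 := by
    intro h
    have := nm_norm hG (C a - C b * X)
    rw [hα, h, Algebra.norm_zero] at this
    exact hPα this.symm
  have hρ0 : ρ ≠ 0 := by
    intro h
    have := nm_norm hG P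
    rw [← hρd, h, Algebra.norm_zero] at this
    exact hP this.symm
  have hζ0 : α * ρ ≠ 0 := mul_ne_zero hα0 hρ0
  set F := normalizedFactors (Ideal.span {α * ρ}) with hF
  have hFmul : ∀ 𝔮, F.count 𝔮 = (normalizedFactors (Ideal.span {α})).count 𝔮 +
      (normalizedFactors (Ideal.span {ρ})).count 𝔮 := by
    intro 𝔮
    rw [hF, ← Ideal.span_singleton_mul_span_singleton, normalizedFactors_mul, Multiset.count_add]
    · rwa [Ne, Ideal.zero_eq_bot, Ideal.span_singleton_eq_bot]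
    · rwa [Ne, Ideal.zero_eq_bot, Ideal.span_singleton_eq_bot]
  have hI0 : Ideal.span {α * ρ} ≠ ⊥ := by rwa [Ne, Ideal.span_singleton_eq_bot]
  have hprod : F.prod = Ideal.span {α * ρ} := Ideal.prod_normalizedFactors_eq_self hI0
  have hFmem : ∀ 𝔮 : Ideal (𝓞 K), 𝔮 ∈ F ↔ 𝔮.IsPrime ∧ 𝔮 ≠ ⊥ ∧ α * ρ ∈ 𝔮 := DI_mem hζ0
  set S := F.toFinset.filter (fun 𝔮 => Odd (F.count 𝔮)) with hS
  have hspan : Ideal.span {α * ρ} = (∏ 𝔮 ∈ S, 𝔮) * (∏ 𝔮 ∈ F.toFinset, 𝔮 ^ (F.count 𝔮 / 2)) ^ 2 := by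
    rw [← hprod, Finset.prod_multiset_count, hS, Finset.prod_filter, ← Finset.prod_pow, ← Finset.prod_mul_distrib]
    apply Finset.prod_congr rfl
    intro 𝔮 _
    by_cases ho : Odd (F.count 𝔮)
    · obtain ⟨k, hk⟩ := ho
      rw [hk, if_pos ⟨k, rfl⟩, ← pow_mul, ← pow_succ']
      congr 1
      omega
    · rw [if_neg ho, one_mul, ← pow_mul]
      rw [Nat.not_odd_iff_even] at ho
      obtain ⟨k, hk⟩ := ho
      congr 1
      omega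
  have hSmem : ∀ 𝔮, 𝔮 ∈ S ↔ 𝔮 ∈ F ∧ Odd (F.count 𝔮) := by
    intro 𝔮
    rw [hS, Finset.mem_filter, Multiset.mem_toFinset]
  have hSiff : ∀ 𝔭 : Ideal (𝓞 K), 𝔭.IsPrime → ((∏ 𝔮 ∈ S, 𝔮) ≤ 𝔭 ↔ 𝔭 ∈ S) := by
    intro 𝔭 h𝔭
    rw [h𝔭.prod_le]
    constructor
    · rintro ⟨𝔮, h𝔮, hle⟩
      obtain ⟨h1, h2, h3⟩ := (hFmem 𝔮).mp ((hSmem 𝔮).1 h𝔮).1
      have := (h1.isMaximal h2).eq_of_le h𝔭.ne_top hle
      rwa [← this]
    · intro h
      exact ⟨𝔭, h, le_rfl⟩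
  -- valuations of the norm of `α`
  have hw0 : w.natAbs ≠ 0 := by
    intro h
    rw [Int.natAbs_eq_zero] at h
    apply hne
    rw [hsew, h]
    ring
  have he0 : e ≠ 0 := he.ne_zero
  have hs0 : s.natAbs ≠ 0 := by
    intro h
    rw [Int.natAbs_eq_zero] at h
    apply hne
    rw [hsew, h]
    ring
  have hvα : ∀ p : ℕ, p.Prime → ¬ p ∣ B →
      (nm g (C a - C b * X)).natAbs.factorization p = (if p ∣ e then 1 else 0) + 2 * w.natAbs.factorization p := by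
    intro p hp hpB
    have hps : ¬ p ∣ s.natAbs := fun h => hpB (h.trans hsB)
    have h1 : (nm g (C a - C b * X)).natAbs = s.natAbs * e * w.natAbs ^ 2 := by
      rw [nm_lin hG.monic, hsew]
      simp [Int.natAbs_mul, Int.natAbs_pow]
    rw [h1, Nat.factorization_mul (mul_ne_zero hs0 he0) (pow_ne_zero _ hw0), Nat.factorization_mul hs0 he0,
      Nat.factorization_pow]
    simp only [Finsupp.add_apply, Finsupp.smul_apply, smul_eq_mul,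
      Nat.factorization_eq_zero_of_not_dvd hps, zero_add]
    have hle : e.factorization p ≤ 1 := (Nat.squarefree_iff_factorization_le_one he0).mp he p
    split_ifs with hpe
    · have : 1 ≤ e.factorization p := (hp.dvd_iff_one_le_factorization he0).mp hpe
      omega
    · rw [Nat.factorization_eq_zero_of_not_dvd hpe]
  have hvρ : ∀ p : ℕ, p.Prime → (p : ℤ) ∣ nm g P → 1 ≤ (nm g P).natAbs.factorization p := by
    intro p hp hd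
    exact (hp.dvd_iff_one_le_factorization (Int.natAbs_ne_zero.2 hP)).1 (Int.natCast_dvd.1 hd)
  -- the places at a prime of `e`
  have hL2 : ∀ p : ℕ, p.Prime → p ∣ e → ∃ h, Fac g p h ∧ h ∣ red p (C a - C b * X) ∧ h ∣ red p P := by
    intro p hp hpe
    have h1 := hvα p hp (heB p hp hpe)
    rw [if_pos hpe] at h1
    have h2 : p ∣ (nm g (C a - C b * X)).natAbs :=
      (hp.dvd_iff_one_le_factorization (Int.natAbs_ne_zero.2 hPα)).2 (by omega)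
    obtain ⟨h, hf, hd⟩ := (van_iff hG.monic p hp (C a - C b * X)).2 (Int.natCast_dvd.2 h2)
    exact ⟨h, hf, hd, hE p hp hpe h hf hd⟩
  have hL1 : ∀ p : ℕ, p.Prime → ¬ p ∣ B → ∀ Φ : {h : (ZMod p)[X] // Fac g p h} → Ideal (𝓞 K), DI_Pr g θ p Φ →
      ∀ h, Φ h ∈ S → h.1 ∣ red p P ∧ (p ∣ e → h.1 ∣ red p (C a - C b * X)) := by
    intro p hp hpB Φ hΦ h hhS
    have hodd := ((hSmem _).1 hhS).2
    rw [hFmul] at hodd
    have cα := DI_cnt hG hp hΦ hPα (DI_lin hp hab) h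
    have cρ := DI_cnt hG hp hΦ hP (hone p hp hpB) h
    rw [hα] at cα
    rw [← hρd] at cρ
    have hv := hvα p hp hpB
    by_cases hpe : p ∣ e
    · obtain ⟨h0, hf0, hd0, hd0'⟩ := hL2 p hp hpe
      by_cases hα' : h.1 ∣ red p (C a - C b * X)
      · have := (DI_lin hp hab h.1 h0 h.2 hf0 hα' hd0).1
        rw [this]
        exact ⟨hd0', fun _ => hd0⟩
      · by_cases hρ' : h.1 ∣ red p P
        · exfalso
          have := (hone p hp hpB h.1 h0 h.2 hf0 hρ' hd0').1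
          rw [this] at hα'
          exact hα' hd0
        · exfalso
          rw [cα.2 hα', cρ.2 hρ'] at hodd
          exact absurd hodd (by decide)
    · refine ⟨?_, fun h => absurd h hpe⟩
      by_contra hρ'
      rw [cρ.2 hρ', add_zero] at hodd
      by_cases hα' : h.1 ∣ red p (C a - C b * X)
      · rw [cα.1 hα', hv, if_neg hpe, zero_add] at hodd
        exact (Nat.not_odd_iff_even.mpr (even_two_mul _)) hodd
      · rw [cα.2 hα'] at hodd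
        exact absurd hodd (by decide)
  set S1 := S.filter (fun 𝔮 => ∃ p : ℕ, p.Prime ∧ ¬ p ∣ B ∧ (p : 𝓞 K) ∈ 𝔮) with hS1
  set S2 := S.filter (fun 𝔮 => ¬ ∃ p : ℕ, p.Prime ∧ ¬ p ∣ B ∧ (p : 𝓞 K) ∈ 𝔮) with hS2
  have hinfo0 : ∀ 𝔮 ∈ S, ∀ p : ℕ, p.Prime → ¬ p ∣ B → (p : 𝓞 K) ∈ 𝔮 → Ideal.absNorm 𝔮 = p ∧ ρ ∈ 𝔮 := by
    intro 𝔮 h𝔮 p hp hpB hpq
    obtain ⟨Φ, hΦ⟩ := hPr p hp hpB
    obtain ⟨h1, h2, h3⟩ := (hFmem 𝔮).1 ((hSmem 𝔮).1 h𝔮).1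
    obtain ⟨h, rfl⟩ := hΦ.sur 𝔮 h1 hpq
    have h4 := (hL1 p hp hpB Φ hΦ h h𝔮).1
    refine ⟨?_, (hΦ.iff h P).2 h4⟩
    rw [hΦ.nrm, (hone p hp hpB _ _ h.2 h.2 h4 h4).2, pow_one]
  have hinfo : ∀ 𝔮 ∈ S1, (Ideal.absNorm 𝔮).Prime ∧ ¬ Ideal.absNorm 𝔮 ∣ B ∧
      ((Ideal.absNorm 𝔮 : ℕ) : 𝓞 K) ∈ 𝔮 ∧ 𝔮 ∈ S ∧ ρ ∈ 𝔮 := by
    intro 𝔮 h
    rw [hS1, Finset.mem_filter] at h
    obtain ⟨hq, p, hp, hpB, hpq⟩ := h
    obtain ⟨hn, hr⟩ := hinfo0 𝔮 hq p hp hpB hpq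
    rw [hn]
    exact ⟨hp, hpB, hpq, hq, hr⟩
  have hinj : Set.InjOn (fun 𝔮 : Ideal (𝓞 K) => Ideal.absNorm 𝔮) S1 := by
    intro 𝔮 h 𝔯 h' heq
    simp only at heq
    obtain ⟨h1, h2, h3, h4, h5⟩ := hinfo 𝔮 h
    obtain ⟨k1, k2, k3, k4, k5⟩ := hinfo 𝔯 h'
    rw [← heq] at k3
    obtain ⟨Φ, hΦ⟩ := hPr _ h1 h2
    obtain ⟨x, hx⟩ := hΦ.sur 𝔮 ((hFmem 𝔮).1 ((hSmem 𝔮).1 h4).1).1 h3
    obtain ⟨y, hy⟩ := hΦ.sur 𝔯 ((hFmem 𝔯).1 ((hSmem 𝔯).1 k4).1).1 k3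
    have := (hone _ h1 h2 x.1 y.1 x.2 y.2 ((hΦ.iff x P).1 (by rw [hx]; exact h5))
      ((hΦ.iff y P).1 (by rw [hy]; exact k5))).1
    exact hx.symm.trans ((congrArg Φ (Subtype.ext this)).trans hy)
  set T := S1.image (fun 𝔮 : Ideal (𝓞 K) => Ideal.absNorm 𝔮) with hT
  have himg : ∏ p ∈ T, p = ∏ 𝔮 ∈ S1, Ideal.absNorm 𝔮 :=
    Finset.prod_image (fun x hx y hy h => hinj hx hy h)
  have hTp : ∀ p ∈ T, p.Prime ∧ ¬ p ∣ B ∧ ∃ 𝔮 ∈ S1, Ideal.absNorm 𝔮 = p := by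
    intro p hp
    rw [hT, Finset.mem_image] at hp
    obtain ⟨𝔮, h𝔮, rfl⟩ := hp
    exact ⟨(hinfo 𝔮 h𝔮).1, (hinfo 𝔮 h𝔮).2.1, 𝔮, h𝔮, rfl⟩
  set M := ∏ p ∈ T, p with hMd
  have hMT : ∀ p : ℕ, p.Prime → (p ∣ M ↔ p ∈ T) := by
    intro p hp
    constructor
    · intro h
      obtain ⟨q, hq, hd⟩ := (Prime.dvd_finsetProd_iff hp.prime _).1 h
      rw [(Nat.prime_dvd_prime_iff_eq hp (hTp q hq).1).1 hd]
      exact hq
    · intro h
      exact Finset.dvd_prod_of_mem (fun p => p) h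
  have hMB' : ∀ p : ℕ, p.Prime → p ∣ M → ¬ p ∣ B := fun p hp h => (hTp p ((hMT p hp).1 h)).2.1
  have hMsq : Squarefree M := by
    refine Finset.squarefree_prod_of_pairwise_isCoprime ?_ fun p hp => ((hTp p hp).1).prime.squarefree
    intro p hp q hq hpq
    show IsRelPrime p q
    rw [← Nat.coprime_iff_isRelPrime]
    exact (Nat.coprime_primes (hTp p hp).1 (hTp q hq).1).2 hpq
  have hM0 : M ≠ 0 := hMsq.ne_zero
  have hMS : ∀ p : ℕ, p.Prime → ¬ p ∣ B → ∀ 𝔮 ∈ S, (p : 𝓞 K) ∈ 𝔮 → p ∣ M := by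
    intro p hp hpB 𝔮 h𝔮 hpq
    rw [hMT p hp, hT, Finset.mem_image]
    refine ⟨𝔮, ?_, (hinfo0 𝔮 h𝔮 p hp hpB hpq).1⟩
    rw [hS1, Finset.mem_filter]
    exact ⟨h𝔮, p, hp, hpB, hpq⟩
  -- divisibility of the norm at the primes of `M`
  have hMn : ∀ p : ℕ, p.Prime → p ∣ M → (p : ℤ) ∣ nm g P ∧
      (p ∣ e → 2 ≤ (nm g P).natAbs.factorization p) := by
    intro p hp hpM
    obtain ⟨_, hpB, 𝔮, h𝔮, hn⟩ := hTp p ((hMT p hp).1 hpM)
    obtain ⟨i1, i2, i3, i4, i5⟩ := hinfo 𝔮 h𝔮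
    rw [hn] at i3
    obtain ⟨Φ, hΦ⟩ := hPr p hp hpB
    have hF1 := (hSmem 𝔮).1 i4
    obtain ⟨x, rfl⟩ := hΦ.sur 𝔮 ((hFmem 𝔮).1 hF1.1).1 i3
    obtain ⟨l1, l2⟩ := hL1 p hp hpB Φ hΦ x i4
    have hdn : (p : ℤ) ∣ nm g P := (van_iff hG.monic p hp P).1 ⟨x.1, x.2, l1⟩
    refine ⟨hdn, fun hpe => ?_⟩
    have hodd := hF1.2
    rw [hFmul] at hodd
    have cα := (DI_cnt hG hp hΦ hPα (DI_lin hp hab) x).1 (l2 hpe)
    have cρ := (DI_cnt hG hp hΦ hP (hone p hp hpB) x).1 l1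
    rw [hα] at cα
    rw [← hρd] at cρ
    rw [cα, cρ, hvα p hp hpB, if_pos hpe] at hodd
    have h1 := hvρ p hp hdn
    obtain ⟨k, hk⟩ := hodd
    omega
  refine ⟨∏ 𝔮 ∈ S, 𝔮, _, M, hspan, ?_, hMsq, hMB', ?_, ?_, ?_⟩
  · -- bound
    rw [map_prod]
    have hsplit : ∏ 𝔮 ∈ S, Ideal.absNorm 𝔮 = (∏ 𝔮 ∈ S1, Ideal.absNorm 𝔮) * ∏ 𝔮 ∈ S2, Ideal.absNorm 𝔮 :=
      (Finset.prod_filter_mul_prod_filter_not S _ _).symm
    rw [hsplit, ← himg]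
    apply Nat.mul_le_mul le_rfl
    have hd' : ∏ 𝔮 ∈ S2, 𝔮 ∣ Ideal.span {((B : ℤ) : 𝓞 K)} := by
      apply Finset.prod_primes_dvd
      · intro 𝔮 h
        rw [hS2, Finset.mem_filter] at h
        obtain ⟨h1, h2, h3⟩ := (hFmem 𝔮).mp ((hSmem 𝔮).1 h.1).1
        exact (Ideal.prime_iff_isPrime h2).mpr h1
      · intro 𝔮 h
        rw [hS2, Finset.mem_filter] at h
        obtain ⟨h1, h2, h3⟩ := (hFmem 𝔮).mp ((hSmem 𝔮).1 h.1).1
        obtain ⟨p, hp, hpq⟩ := DI_over h1 h2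
        have hpB : p ∣ B := by
          by_contra hpB
          exact h.2 ⟨p, hp, hpB, hpq⟩
        rw [Ideal.dvd_iff_le, Ideal.span_singleton_le_iff_mem]
        exact (DI_int h1 hp hpq _).mpr (by exact_mod_cast hpB)
    have hd2 := Ideal.absNorm_dvd_absNorm_of_le (Ideal.le_of_dvd hd')
    rw [map_prod, Ideal.absNorm_span_singleton] at hd2
    have hnB : Algebra.norm ℤ ((B : ℤ) : 𝓞 K) = (B : ℤ) ^ 3 := by
      have h1 : ((B : ℤ) : 𝓞 K) = algebraMap ℤ (𝓞 K) B := by simp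
      rw [h1, Algebra.norm_algebraMap, NumberField.RingOfIntegers.rank, hG.deg, hd]
    rw [hnB, Int.natAbs_pow, Int.natAbs_natCast] at hd2
    exact Nat.le_of_dvd (Nat.pos_of_ne_zero (pow_ne_zero _ hB)) hd2
  · -- divisibility
    rw [← Nat.factorization_prime_le_iff_dvd (mul_ne_zero he0 hM0) (Int.natAbs_ne_zero.2 hP)]
    intro p hp
    rw [Nat.factorization_mul he0 hM0, Finsupp.add_apply]
    have h1 : e.factorization p ≤ 1 := (Nat.squarefree_iff_factorization_le_one he0).mp he p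
    have h2 : M.factorization p ≤ 1 := (Nat.squarefree_iff_factorization_le_one hM0).mp hMsq p
    by_cases hpe : p ∣ e
    · have h3 : 1 ≤ (nm g P).natAbs.factorization p := by
        obtain ⟨h, hf, hd1, hd2⟩ := hL2 p hp hpe
        exact hvρ p hp ((van_iff hG.monic p hp P).1 ⟨h, hf, hd2⟩)
      by_cases hpM : p ∣ M
      · have h4 := (hMn p hp hpM).2 hpe
        omega
      · rw [Nat.factorization_eq_zero_of_not_dvd hpM]
        omega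
    · rw [Nat.factorization_eq_zero_of_not_dvd hpe, zero_add]
      by_cases hpM : p ∣ M
      · have h4 := hvρ p hp (hMn p hp hpM).1
        omega
      · rw [Nat.factorization_eq_zero_of_not_dvd hpM]
        omega
  · intro p hp hpB h hf 𝔭 h𝔭 hiff
    obtain ⟨Φ, hΦ⟩ := hPr p hp hpB
    have hsame := DI_same hΦ hf h𝔭 hiff
    subst hsame
    rw [hSiff _ (hΦ.pr _)]
    constructor
    · intro hmem
      exact ⟨hMS p hp hpB _ hmem (hΦ.mem _), (hL1 p hp hpB Φ hΦ _ hmem).1⟩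
    · intro hdP hp2 hnS
      have cα := DI_cnt hG hp hΦ hPα (DI_lin hp hab) ⟨h, hf⟩
      have cρ := (DI_cnt hG hp hΦ hP (hone p hp hpB) ⟨h, hf⟩).1 hdP
      rw [hα] at cα
      rw [← hρd] at cρ
      have hρm : ρ ∈ Φ ⟨h, hf⟩ := (hΦ.iff _ P).2 hdP
      have hFm : Φ ⟨h, hf⟩ ∈ F := (hFmem _).2 ⟨hΦ.pr _, DI_bot hp (hΦ.mem _), Ideal.mul_mem_left _ _ hρm⟩
      have hev : ¬ Odd (F.count (Φ ⟨h, hf⟩)) := fun ho => hnS ((hSmem _).2 ⟨hFm, ho⟩)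
      have hv1 := hvρ p hp ((van_iff hG.monic p hp P).1 ⟨h, hf, hdP⟩)
      have hv2 : (nm g P).natAbs.factorization p < 2 := by
        by_contra hge
        push Not at hge
        apply hp2
        have h3 := (hp.pow_dvd_iff_le_factorization (Int.natAbs_ne_zero.2 hP)).2 hge
        have h4 : ((p ^ 2 : ℕ) : ℤ) ∣ nm g P := Int.natCast_dvd.2 h3
        exact_mod_cast h4
      rw [hFmul, cρ] at hev
      by_cases hα' : h ∣ red p (C a - C b * X)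
      · rw [cα.1 hα', hvα p hp hpB] at hev
        refine ⟨?_, hα'⟩
        by_contra hpe
        rw [if_neg hpe] at hev
        apply hev
        exact ⟨w.natAbs.factorization p, by omega⟩
      · exfalso
        rw [cα.2 hα'] at hev
        apply hev
        exact ⟨0, by omega⟩
  · intro p hp hpM
    obtain ⟨_, hpB, 𝔮, h𝔮, hn⟩ := hTp p ((hMT p hp).1 hpM)
    obtain ⟨i1, i2, i3, i4, i5⟩ := hinfo 𝔮 h𝔮
    rw [hn] at i3
    have hpr := ((hFmem 𝔮).1 ((hSmem 𝔮).1 i4).1).1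
    exact ⟨𝔮, hpr, i3, (hSiff 𝔮 hpr).2 i4⟩

end O1
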