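import Pool.Agent.Lib.MP_10e784_agO.Nm
import Pool.Agent.Lib.MP_10e784_ag.TW.TWKfHom
import Pool.Agent.Lib.MP_10e784_ag.TW.TWKfNorm

/-! JOB DK.  Prime ideals above `p` and factors of `g` modulo `p` (Kummer-Dedekind for the good primes); the norm.

`prime_fac`: `M` from `gen_hom` (`M x = P(θ)` for all integers `x`).  For `p ∤ M` prime and `h ∈ Fac g p`: `φ_h` from `gen_hom`, `Φ h = ker φ_h`; `P(θ) ∈ Φ h ↔ h ∣ red p P` (`AdjoinRoot.mk_eq_zero`).  `absNorm (Φ h) = p ^ deg h`: `φ_h` is surjective (every element of `AdjoinRoot h` is `mk h (red p P)`), the quotient is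
`AdjoinRoot h`, a vector space of dimension `deg h` over `ZMod p`.  Injective: `h' ∈ Fac`, `Φ h = Φ h'`: lift `h` to `P ∈ ℤ[X]`: `P(θ) ∈ Φ h`, so `h' ∣ h`.  Surjective: `𝔭 ∋ p` prime: the kernel of `ℤ[X] → 𝓞 K / 𝔭`, `P ↦ P(θ)`, contains `p`, so it is the preimage of a prime ideal of `(ZMod p)[X]` (a nonzero one, it contains `red p g`), generated by a monic
irreducible `h ∣ red p g`; `x ∈ 𝔭 ↔ M x ∈ 𝔭 ↔ h ∣ red p P ↔ x ∈ Φ h` where `M x = P(θ)`.
`nm_norm`: norm and resultant: over an algebraic closure both are `∏ P(θ_i)` (`Algebra.norm_eq_prod_embeddings`, model: `gen_norm`, file `TW/TWKfNorm.lean`; `nm_map`, `nm` of a product of linear factors). -/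

set_option autoImplicit false

namespace O1

open Polynomial Finset TW FQQ NumberField

private theorem DK_mul {R : Type} [CommRing R] {Q : Ideal R} (hQ : Q.IsPrime) {p M : ℕ} (hp : p.Prime)
    (hpM : ¬ p ∣ M) (hpQ : (p : R) ∈ Q) (x : R) : (M : R) * x ∈ Q ↔ x ∈ Q := by
  constructor
  · intro h
    rcases hQ.mem_or_mem h with h1 | h1
    · exfalso
      apply hQ.ne_top
      rw [Ideal.eq_top_iff_one]
      have hc : IsCoprime (p : ℤ) (M : ℤ) := Nat.isCoprime_iff_coprime.2 ((Nat.Prime.coprime_iff_not_dvd hp).2 hpM)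
      obtain ⟨a, b, hab⟩ := hc
      have h2 : (a : R) * (p : R) + (b : R) * (M : R) = 1 := by
        have h3 := congrArg (Int.cast (R := R)) hab
        push_cast at h3
        exact h3
      rw [← h2]
      exact Q.add_mem (Q.mul_mem_left _ hpQ) (Q.mul_mem_left _ h1)
    · exact h1
  · intro h
    exact Q.mul_mem_left _ h

private theorem DK_card {p : ℕ} [Fact p.Prime] {h : (ZMod p)[X]} (hm : h.Monic) :
    Nat.card (AdjoinRoot h) = p ^ h.natDegree := by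
  have hf : Module.Finite (ZMod p) (AdjoinRoot h) := (AdjoinRoot.powerBasis' hm).finite
  have h1 := Module.natCard_eq_pow_finrank (K := ZMod p) (V := AdjoinRoot h)
  rw [h1, Nat.card_zmod, (AdjoinRoot.powerBasis' hm).finrank, AdjoinRoot.powerBasis'_dim]

private theorem DK_lift (p : ℕ) (Q : (ZMod p)[X]) : ∃ P : ℤ[X], red p P = Q :=
  Polynomial.map_surjective (Int.castRingHom (ZMod p)) (ZMod.ringHom_surjective _) Q

private theorem DK_pull {K : Type} [Field K] [NumberField K] (θ : 𝓞 K) {p : ℕ} [Fact p.Prime] {𝔭 : Ideal (𝓞 K)}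
    (h𝔭 : 𝔭.IsPrime) (hp : (p : 𝓞 K) ∈ 𝔭) {g : ℤ[X]} (hg : g.Monic) (hr : aeval θ g = 0) :
    ∃ h : (ZMod p)[X], Fac g p h ∧ ∀ P : ℤ[X], aeval θ P ∈ 𝔭 ↔ h ∣ red p P := by
  classical
  obtain ⟨I, hI⟩ : ∃ I : Ideal ℤ[X], I = 𝔭.comap ((aeval θ : ℤ[X] →ₐ[ℤ] 𝓞 K) : ℤ[X] →+* 𝓞 K) := ⟨_, rfl⟩
  have hmI : ∀ P : ℤ[X], P ∈ I ↔ aeval θ P ∈ 𝔭 := by
    intro P
    rw [hI, Ideal.mem_comap]
    rfl
  have hIp : I.IsPrime := by
    rw [hI]
    exact Ideal.comap_isPrime _ _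
  obtain ⟨r, hrd⟩ : ∃ r : ℤ[X] →+* (ZMod p)[X], r = mapRingHom (Int.castRingHom (ZMod p)) := ⟨_, rfl⟩
  have hrP : ∀ P : ℤ[X], r P = red p P := by
    intro P
    rw [hrd]
    rfl
  have hrs : Function.Surjective r := by
    intro Q
    obtain ⟨P, hP⟩ := DK_lift p Q
    exact ⟨P, by rw [hrP, hP]⟩
  have hker : RingHom.ker r ≤ I := by
    rw [hrd, Polynomial.ker_mapRingHom, Ideal.map_le_iff_le_comap]
    intro m hm
    rw [RingHom.mem_ker] at hm
    rw [Ideal.mem_comap, hmI, aeval_C]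
    have h1 : (p : ℤ) ∣ m := by
      rw [← ZMod.intCast_zmod_eq_zero_iff_dvd]
      exact hm
    obtain ⟨k, hk⟩ := h1
    rw [hk, map_mul]
    refine Ideal.mul_mem_right _ _ ?_
    have h2 : algebraMap ℤ (𝓞 K) (p : ℤ) = (p : 𝓞 K) := by
      rw [map_natCast]
    rw [h2]
    exact hp
  have hJ : (I.map r).IsPrime := Ideal.map_isPrime_of_surjective hrs hker
  obtain ⟨J, hJd⟩ : ∃ J : Ideal (ZMod p)[X], J = I.map r := ⟨_, rfl⟩
  rw [← hJd] at hJ
  have hmJ : ∀ P : ℤ[X], red p P ∈ J ↔ aeval θ P ∈ 𝔭 := by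
    intro P
    rw [← hmI, ← hrP, hJd, Ideal.mem_map_iff_of_surjective r hrs]
    constructor
    · rintro ⟨x, hx, hxP⟩
      have h1 : P - x ∈ RingHom.ker r := by
        rw [RingHom.mem_ker, map_sub, hxP, sub_self]
      have h2 := I.add_mem (hker h1) hx
      rwa [sub_add_cancel] at h2
    · intro h
      exact ⟨P, h, rfl⟩
  have hgJ : red p g ∈ J := by
    rw [hmJ, hr]
    exact 𝔭.zero_mem
  have hg0 : red p g ≠ 0 := (hg.map (Int.castRingHom (ZMod p))).ne_zero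
  have hJ0 : J ≠ ⊥ := by
    intro h
    rw [h] at hgJ
    exact hg0 ((Submodule.mem_bot _).1 hgJ)
  obtain ⟨h0, hh0⟩ : ∃ h0, h0 = Submodule.IsPrincipal.generator J := ⟨_, rfl⟩
  have hdv : ∀ Q : (ZMod p)[X], Q ∈ J ↔ h0 ∣ Q := by
    intro Q
    rw [hh0]
    exact Submodule.IsPrincipal.mem_iff_generator_dvd J
  have hpr : Prime h0 := by
    rw [hh0]
    exact Submodule.IsPrincipal.prime_generator_of_isPrime J hJ0
  have has : Associated (normalize h0) h0 := normalize_associated h0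
  refine ⟨normalize h0, ⟨Polynomial.monic_normalize hpr.ne_zero, ?_, ?_⟩, fun P => ?_⟩
  · exact has.irreducible_iff.2 hpr.irreducible
  · rw [normalize_dvd_iff]
    exact (hdv _).1 hgJ
  · rw [normalize_dvd_iff, ← hdv, hmJ]

theorem prime_fac {g : ℤ[X]} {K : Type} [Field K] [NumberField K] {θ : 𝓞 K} (hG : Gen g K θ) :
    ∃ M : ℕ, M ≠ 0 ∧ ∀ p : ℕ, p.Prime → ¬ p ∣ M → ∃ Φ : {h : (ZMod p)[X] // Fac g p h} → Ideal (𝓞 K),
      Function.Injective Φ ∧
      (∀ h, (Φ h).IsPrime ∧ (p : 𝓞 K) ∈ Φ h ∧ Ideal.absNorm (Φ h) = p ^ (h.1).natDegree ∧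
        ∀ P : ℤ[X], (aeval θ P ∈ Φ h ↔ h.1 ∣ red p P)) ∧
      ∀ 𝔭 : Ideal (𝓞 K), 𝔭.IsPrime → (p : 𝓞 K) ∈ 𝔭 → ∃ h, Φ h = 𝔭 := by
  classical
  obtain ⟨M, hM0, hM1, hM2⟩ := gen_hom hG
  refine ⟨M, hM0, fun p hp hpM => ?_⟩
  have hfp := Fact.mk hp
  choose φ hφ using fun h : {h : (ZMod p)[X] // Fac g p h} => hM2 p hp hpM h.1 h.2.2.1 h.2.2.2
  have hmem : ∀ (h : {h : (ZMod p)[X] // Fac g p h}) (P : ℤ[X]), aeval θ P ∈ RingHom.ker (φ h) ↔ h.1 ∣ red p P := by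
    intro h P
    rw [RingHom.mem_ker, hφ, AdjoinRoot.mk_eq_zero]
  have hprime : ∀ h : {h : (ZMod p)[X] // Fac g p h}, (RingHom.ker (φ h)).IsPrime := by
    intro h
    have := Fact.mk h.2.2.1
    exact RingHom.ker_isPrime (φ h)
  have hpk : ∀ h : {h : (ZMod p)[X] // Fac g p h}, (p : 𝓞 K) ∈ RingHom.ker (φ h) := by
    intro h
    rw [RingHom.mem_ker, map_natCast]
    have h1 : ((p : ℕ) : AdjoinRoot h.1) = AdjoinRoot.of h.1 ((p : ℕ) : ZMod p) := by
      rw [map_natCast]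
    rw [h1, ZMod.natCast_self, map_zero]
  refine ⟨fun h => RingHom.ker (φ h), ?_, ?_, ?_⟩
  · intro h h' hhh
    have hhh' : RingHom.ker (φ h) = RingHom.ker (φ h') := hhh
    obtain ⟨P, hP⟩ := DK_lift p h.1
    have h1 : aeval θ P ∈ RingHom.ker (φ h) := by
      rw [hmem, hP]
    rw [hhh', hmem, hP] at h1
    apply Subtype.ext
    refine Polynomial.eq_of_monic_of_associated h.2.1 h'.2.1 ?_
    exact (h'.2.2.1.associated_of_dvd h.2.2.1 h1).symm
  · intro h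
    refine ⟨hprime h, hpk h, ?_, hmem h⟩
    have hsurj : Function.Surjective (φ h) := by
      intro y
      obtain ⟨Q, hQ⟩ := AdjoinRoot.mk_surjective y
      obtain ⟨P, hP⟩ := DK_lift p Q
      exact ⟨aeval θ P, by rw [hφ, hP, hQ]⟩
    rw [Ideal.absNorm_apply, Submodule.cardQuot_apply, ← DK_card h.2.1]
    exact Nat.card_congr (RingHom.quotientKerEquivOfSurjective hsurj).toEquiv
  · intro 𝔭 h𝔭 hp𝔭
    obtain ⟨h, hF, hdv⟩ := DK_pull θ h𝔭 hp𝔭 hG.monic hG.root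
    refine ⟨⟨h, hF⟩, ?_⟩
    show RingHom.ker (φ ⟨h, hF⟩) = 𝔭
    ext x
    obtain ⟨P, hP⟩ := hM1 x
    rw [← DK_mul (hprime ⟨h, hF⟩) hp hpM (hpk ⟨h, hF⟩) x, ← DK_mul h𝔭 hp hpM hp𝔭 x, hP, hmem, hdv]

private theorem DK_prod {g : ℤ[X]} {K : Type} [Field K] [NumberField K] {θ : 𝓞 K} (hG : Gen g K θ)
    (L : Type) [Field L] [Algebra ℚ L] [IsAlgClosed L] (F : L → L) :
    ∏ σ : K →ₐ[ℚ] L, F (σ (θ : K)) = (((qq g).map (algebraMap ℚ L)).roots.map F).prod := by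
  classical
  have hint : IsIntegral ℚ (θ : K) := Algebra.IsIntegral.isIntegral _
  have hadj : Algebra.adjoin ℚ {(θ : K)} = ⊤ := by
    rw [Algebra.adjoin_singleton_eq_range_aeval, eq_top_iff]
    intro x _
    obtain ⟨P, hP⟩ := gen_span hG x
    exact ⟨P, hP.symm⟩
  obtain ⟨pb, hpb⟩ : ∃ pb : PowerBasis ℚ K, pb.gen = (θ : K) :=
    ⟨PowerBasis.ofAdjoinEqTop hint hadj, PowerBasis.ofAdjoinEqTop_gen hint hadj⟩
  have hmin : qq g = minpoly ℚ pb.gen := by
    rw [hpb]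
    exact twkf_minpoly hG.monic hG.irr ((twkf_zero θ g).1 hG.root)
  rw [hmin, ← hpb]
  have hsep : IsSeparable ℚ pb.gen := Algebra.IsSeparable.isSeparable ℚ pb.gen
  rw [Fintype.prod_equiv pb.liftEquiv' (fun σ : K →ₐ[ℚ] L => F (σ pb.gen)) (fun x => F x) ?_]
  · rw [Finset.prod_mem_multiset _ _ F (fun x => rfl), Finset.prod_eq_multiset_prod, Multiset.toFinset_val,
      Multiset.dedup_eq_self.mpr]
    have hsp : (minpoly ℚ pb.gen).Separable := hsep
    exact nodup_roots hsp.map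
  · intro σ
    simp only [PowerBasis.liftEquiv'_apply_coe]

theorem nm_norm {g : ℤ[X]} {K : Type} [Field K] [NumberField K] {θ : 𝓞 K} (hG : Gen g K θ) (P : ℤ[X]) :
    Algebra.norm ℤ (aeval θ P : 𝓞 K) = nm g P := by
  classical
  have hinj : Function.Injective (Int.castRingHom (AlgebraicClosure ℚ)) := RingHom.injective_int _
  apply hinj
  have hcomp : (algebraMap ℚ (AlgebraicClosure ℚ)).comp (Int.castRingHom ℚ) =
      Int.castRingHom (AlgebraicClosure ℚ) := RingHom.ext_int _ _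
  have hmap : ∀ Q : ℤ[X], (qq Q).map (algebraMap ℚ (AlgebraicClosure ℚ)) =
      Q.map (Int.castRingHom (AlgebraicClosure ℚ)) := by
    intro Q
    rw [qq, Polynomial.map_map, hcomp]
  have hgm : (g.map (Int.castRingHom (AlgebraicClosure ℚ))).Monic := hG.monic.map _
  -- the resultant
  have hR : Int.castRingHom (AlgebraicClosure ℚ) (nm g P) =
      (((qq g).map (algebraMap ℚ (AlgebraicClosure ℚ))).roots.map
        (P.map (Int.castRingHom (AlgebraicClosure ℚ))).eval).prod := by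
    rw [← nm_map (Int.castRingHom (AlgebraicClosure ℚ)) hG.monic P, nm,
      resultant_eq_prod_eval _ _ _ le_rfl (IsAlgClosed.splits _), hgm.leadingCoeff, one_pow, one_mul, hmap]
  rw [hR, ← DK_prod hG (AlgebraicClosure ℚ) (P.map (Int.castRingHom (AlgebraicClosure ℚ))).eval]
  -- the norm
  have h1 : Int.castRingHom (AlgebraicClosure ℚ) (Algebra.norm ℤ (aeval θ P : 𝓞 K)) =
      algebraMap ℚ (AlgebraicClosure ℚ) (Algebra.norm ℚ ((aeval θ P : 𝓞 K) : K)) := by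
    rw [← Algebra.coe_norm_int, ← hcomp]
    rfl
  rw [h1, Algebra.norm_eq_prod_embeddings]
  refine Finset.prod_congr rfl fun σ _ => ?_
  rw [twkf_coe, ← hmap, eval_map_algebraMap]
  exact (aeval_algHom_apply σ (θ : K) (qq P)).symm

end O1
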