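import Pool.Agent.Lib.MP_10e784_agO.Defs
import Pool.Agent.Lib.MP_10e784_ag.PT.PTBad

/-! JOB GP.  Good primes exist.

`B = 2 * M0 * P0! * |d|` where `d ≠ 0` is an integer divisible by all bad primes of the following four conditions.
`sqf`: `qq g` is separable (irreducible, characteristic zero), so `resultant g g' ≠ 0`, and for `p ∤` this resultant `red p g` and its derivative are coprime (see `TW/TWGood.lean`: `good_exists`).
`cop`: `resultant G1 G2 ≠ 0` (`G1` monic; `resultant_ne_zero`, `isUnit_resultant_iff_isCoprime`, `resultant_map_map`); `cog`: `nm g G2 ≠ 0` because `g ∤ G2` (`hD.nr` with `s = 0, t = 1`).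
`ind`: let `R0, R1, R2 ∈ ℤ[X]` be the remainders of `G1 ^ 2, G1 G2, G2 ^ 2` by the monic `g` (degree at most two) and `D` the determinant of the `3 × 3` matrix of their coefficients.
`D ≠ 0`: otherwise there are integers `x, y, z`, not all zero, with `g ∣ x G1 ^ 2 + y G1 G2 + z G2 ^ 2`; then `t = G1/G2 (θ)` (in the field `K` of `TW.gen_exists`) satisfies a nontrivial equation of degree at most two over `ℚ`,
but `[ℚ(t) : ℚ]` divides `3`, so `t ∈ ℚ`, say `s G1(θ) + t' G2(θ) = 0` with integers `(s, t') ≠ 0`, contradicting `hD.nr`.  (Alternatively: `minpoly ℚ t` has degree dividing `3` and at most `2`.)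
For a prime `p ∤ D` the reductions of the rows are linearly independent: `red p g ∣ C x * G1 ^ 2 + ...` means that `x R0 + y R1 + z R2 = 0` modulo `p` (degree less than three), hence `x = y = z = 0`. -/

set_option autoImplicit false

namespace O1

open Polynomial Finset TW FQQ

/-- coprime over `ℚ` implies coprime modulo almost all `p` -/
private theorem GP_cop {f h : ℤ[X]} (H : IsCoprime (qq f) (qq h)) : ∃ R : ℤ, R ≠ 0 ∧
    ∀ p : ℕ, p.Prime → ¬ p ∣ R.natAbs → IsCoprime (red p f) (red p h) := by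
  obtain ⟨U, V, R, hR, hUV⟩ := PT.ptbad_bezout _ _ H
  refine ⟨R, hR, fun p hp hpR => ?_⟩
  have : Fact p.Prime := ⟨hp⟩
  have hR' : ((R : ℤ) : ZMod p) ≠ 0 := by
    intro h0
    rw [ZMod.intCast_zmod_eq_zero_iff_dvd] at h0
    exact hpR (Int.natCast_dvd.1 h0)
  have h1 := congrArg (Polynomial.map (Int.castRingHom (ZMod p))) hUV
  rw [Polynomial.map_add, Polynomial.map_mul, Polynomial.map_mul, Polynomial.map_C] at h1
  refine ⟨C (((R : ℤ) : ZMod p)⁻¹) * U.map (Int.castRingHom (ZMod p)),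
    C (((R : ℤ) : ZMod p)⁻¹) * V.map (Int.castRingHom (ZMod p)), ?_⟩
  unfold red
  rw [mul_assoc, mul_assoc, ← mul_add, h1, ← C_mul]
  rw [show (Int.castRingHom (ZMod p)) R = ((R : ℤ) : ZMod p) from rfl, inv_mul_cancel₀ hR', C_1]

private theorem GP_poly {x y z : ℚ} (h : (C x * X ^ 2 + C y * X + C z : ℚ[X]) = 0) :
    x = 0 ∧ y = 0 ∧ z = 0 := by
  refine ⟨?_, ?_, ?_⟩
  · have h1 := congrArg (fun f : ℚ[X] => f.coeff 2) h
    simpa [coeff_X, coeff_C] using h1
  · have h1 := congrArg (fun f : ℚ[X] => f.coeff 1) h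
    simpa [coeff_X, coeff_C, coeff_X_pow] using h1
  · have h1 := congrArg (fun f : ℚ[X] => f.coeff 0) h
    simpa [coeff_X, coeff_C, coeff_X_pow] using h1

private theorem GP_field {K : Type} [Field K] [Algebra ℚ K] (hfin : Module.finrank ℚ K = 3)
    {a b : K} (hb0 : b ≠ 0) (hnr : ∀ s t : ℤ, (s : K) * a + (t : K) * b = 0 → s = 0 ∧ t = 0)
    {x y z : ℤ} (hrel : (x : K) * a ^ 2 + (y : K) * (a * b) + (z : K) * b ^ 2 = 0) :
    x = 0 ∧ y = 0 ∧ z = 0 := by
  have hch : CharZero K := algebraRat.charZero K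
  have hfd : FiniteDimensional ℚ K := by
    apply FiniteDimensional.of_finrank_pos
    rw [hfin]; norm_num
  obtain ⟨t, ht⟩ : ∃ t : K, t = a / b := ⟨_, rfl⟩
  have hab : a = t * b := by rw [ht]; field_simp
  have htrel : (x : K) * t ^ 2 + (y : K) * t + (z : K) = 0 := by
    have h1 : b ^ 2 * ((x : K) * t ^ 2 + (y : K) * t + (z : K)) = 0 := by
      rw [hab] at hrel
      linear_combination hrel
    exact (mul_eq_zero.1 h1).resolve_left (pow_ne_zero 2 hb0)
  -- `t` is not rational
  have hirr : ∀ q : ℚ, algebraMap ℚ K q ≠ t := by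
    intro q hq
    have h4 : (q.den : K) ≠ 0 := by exact_mod_cast q.den_ne_zero
    have h3 : (algebraMap ℚ K q) = (q.num : K) / (q.den : K) := by
      rw [show algebraMap ℚ K q = ((q : ℚ) : K) from (eq_ratCast (algebraMap ℚ K) q)]
      exact Rat.cast_def q
    have h1 : (q.den : K) * a = (q.num : K) * b := by
      rw [hab, ← hq, h3]
      field_simp
    have h2 := hnr (q.den : ℤ) (-q.num) (by push_cast; linear_combination h1)
    have h5 : (q.den : ℤ) ≠ 0 := by exact_mod_cast q.den_ne_zero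
    exact h5 h2.1
  by_contra hne
  have hP0 : (C (x : ℚ) * X ^ 2 + C (y : ℚ) * X + C (z : ℚ) : ℚ[X]) ≠ 0 := by
    intro h0
    obtain ⟨h1, h2, h3⟩ := GP_poly h0
    exact hne ⟨by exact_mod_cast h1, by exact_mod_cast h2, by exact_mod_cast h3⟩
  have hPt : aeval t (C (x : ℚ) * X ^ 2 + C (y : ℚ) * X + C (z : ℚ) : ℚ[X]) = 0 := by
    rw [map_add, map_add, map_mul, map_mul, map_pow, aeval_C, aeval_C, aeval_C, aeval_X]
    have e : ∀ n : ℤ, algebraMap ℚ K (n : ℚ) = (n : K) := fun n => by simp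
    rw [e, e, e]
    exact htrel
  have hint : IsIntegral ℚ t := Algebra.IsIntegral.isIntegral t
  have hdeg : (minpoly ℚ t).natDegree ≤ 2 := by
    have h1 := Polynomial.natDegree_le_of_dvd (minpoly.dvd ℚ t hPt) hP0
    exact h1.trans (by compute_degree)
  have hdvd3 : (minpoly ℚ t).natDegree ∣ 3 := by
    rw [← hfin]
    exact minpoly.degree_dvd hint
  have h1 : (minpoly ℚ t).natDegree = 1 := by
    rcases (Nat.dvd_prime Nat.prime_three).1 hdvd3 with h1 | h1
    · exact h1
    · omega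
  rw [minpoly.natDegree_eq_one_iff] at h1
  obtain ⟨q, hq⟩ := h1
  exact hirr q hq

/-- no quadratic relation -/
private theorem GP_quad {g G1 G2 : ℤ[X]} (hD : Dat g G1 G2) (x y z : ℤ)
    (h : g ∣ C x * G1 ^ 2 + C y * (G1 * G2) + C z * G2 ^ 2) : x = 0 ∧ y = 0 ∧ z = 0 := by
  have hfact : Fact (Irreducible (qq g)) := ⟨hD.gi⟩
  have hval : ∀ P : ℤ[X], aeval (AdjoinRoot.root (qq g)) P = AdjoinRoot.mk (qq g) (qq P) := by
    intro P
    have h1 : aeval (AdjoinRoot.root (qq g)) (qq P) = aeval (AdjoinRoot.root (qq g)) P :=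
      aeval_map_algebraMap ℚ (AdjoinRoot.root (qq g)) P
    rw [← h1]
    exact AdjoinRoot.aeval_eq (qq P)
  have hdvd : ∀ P : ℤ[X], aeval (AdjoinRoot.root (qq g)) P = 0 ↔ g ∣ P := by
    intro P
    rw [hval, AdjoinRoot.mk_eq_zero]
    exact Polynomial.map_dvd_map _ Int.cast_injective hD.gm
  have hfin : Module.finrank ℚ (AdjoinRoot (qq g)) = 3 := by
    have hpb := (AdjoinRoot.powerBasis hD.gi.ne_zero).finrank
    rw [AdjoinRoot.powerBasis_dim] at hpb
    have hd : (qq g).natDegree = g.natDegree := hD.gm.natDegree_map _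
    rw [hpb, hd, hD.gd]
  have hC : ∀ n : ℤ, aeval (AdjoinRoot.root (qq g)) (C n : ℤ[X]) = (n : AdjoinRoot (qq g)) := by
    intro n
    rw [aeval_C]
    simp
  refine GP_field hfin (a := aeval (AdjoinRoot.root (qq g)) G1)
    (b := aeval (AdjoinRoot.root (qq g)) G2) ?_ ?_ ?_
  · intro h0
    have h1 := (hdvd G2).1 h0
    have h2 := hD.nr 0 1 (by simpa using h1)
    exact one_ne_zero h2.2
  · intro s t hst
    apply hD.nr
    rw [← hdvd, map_add, map_mul, map_mul, hC, hC]
    exact hst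
  · have h1 := (hdvd _).2 h
    rw [map_add, map_add, map_mul, map_mul, map_mul, map_mul, map_pow, map_pow, hC, hC, hC] at h1
    exact h1

theorem good_exists {g G1 G2 : ℤ[X]} (hD : Dat g G1 G2) (P0 M0 : ℕ) (hM : M0 ≠ 0) :
    ∃ B : ℕ, Good g G1 G2 P0 B ∧ M0 ∣ B := by
  classical
  -- sqf
  have hsep : IsCoprime (qq g) (qq (derivative g)) := by
    have h1 := hD.gi.separable
    unfold Polynomial.Separable at h1
    unfold qq at h1 ⊢
    rwa [Polynomial.derivative_map] at h1
  obtain ⟨R1, hR1, hs1⟩ := GP_cop hsep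
  obtain ⟨R2, hR2, hs2⟩ := GP_cop hD.cop
  have hgG2 : IsCoprime (qq g) (qq G2) := by
    rw [hD.gi.coprime_iff_not_dvd]
    intro hd
    have h1 : g ∣ G2 := (Polynomial.map_dvd_map _ Int.cast_injective hD.gm).1 hd
    have h2 := hD.nr 0 1 (by simpa using h1)
    exact one_ne_zero h2.2
  obtain ⟨R3, hR3, hs3⟩ := GP_cop hgG2
  -- the determinant
  set Pr : Fin 3 → ℤ[X] := ![G1 ^ 2, G1 * G2, G2 ^ 2] with hPr
  set Mx : Matrix (Fin 3) (Fin 3) ℤ := Matrix.of fun i j => (Pr i %ₘ g).coeff (j : ℕ) with hMx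
  have hdeg : ∀ i, (Pr i %ₘ g).degree < g.degree := fun i => Polynomial.degree_modByMonic_lt _ hD.gm
  have hgdeg : g.degree = 3 := by
    rw [Polynomial.degree_eq_natDegree hD.gm.ne_zero, hD.gd]; rfl
  have hexp : ∀ (R : Type) [CommRing R] (φ : ℤ →+* R) (c : Fin 3 → R),
      (∀ j : Fin 3, ∑ i, c i * φ (Mx i j) = 0) → ∑ i, C (c i) * (Pr i %ₘ g).map φ = 0 := by
    intro R _ φ c hc
    ext n
    rw [Polynomial.finsetSum_coeff, Polynomial.coeff_zero]
    simp only [Polynomial.coeff_C_mul, Polynomial.coeff_map]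
    by_cases hn : n < 3
    · exact hc ⟨n, hn⟩
    · refine Finset.sum_eq_zero fun i _ => ?_
      have h1 : (Pr i %ₘ g).coeff n = 0 := by
        apply Polynomial.coeff_eq_zero_of_degree_lt
        refine (hdeg i).trans_le ?_
        rw [hgdeg]
        exact_mod_cast not_lt.1 hn
      rw [h1, map_zero, mul_zero]
  have hdet : Mx.det ≠ 0 := by
    intro h0
    obtain ⟨v, hv, hv0⟩ := Matrix.exists_vecMul_eq_zero_iff.2 h0
    have h1 := hexp ℤ (RingHom.id ℤ) v (fun j => by
      have := congrFun hv0 j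
      simpa [Matrix.vecMul, dotProduct] using this)
    simp only [Polynomial.map_id] at h1
    have h2 : g ∣ ∑ i, C (v i) * Pr i := by
      have h3 : ∑ i, C (v i) * Pr i = ∑ i, C (v i) * (Pr i %ₘ g) +
          g * ∑ i, C (v i) * (Pr i /ₘ g) := by
        rw [Finset.mul_sum, ← Finset.sum_add_distrib]
        refine Finset.sum_congr rfl fun i _ => ?_
        conv_lhs => rw [← Polynomial.modByMonic_add_div (Pr i) g]
        ring
      rw [h3, h1, zero_add]
      exact dvd_mul_right _ _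
    rw [Fin.sum_univ_three] at h2
    have h3 := GP_quad hD (v 0) (v 1) (v 2) (by simpa [hPr] using h2)
    apply hv
    funext i
    fin_cases i
    · exact h3.1
    · exact h3.2.1
    · exact h3.2.2
  set B : ℕ := 2 * M0 * P0.factorial * R1.natAbs * R2.natAbs * R3.natAbs * Mx.det.natAbs with hB
  have hB0 : B ≠ 0 := by
    rw [hB]
    have := Nat.factorial_ne_zero P0
    have h1 := Int.natAbs_ne_zero.2 hR1
    have h2 := Int.natAbs_ne_zero.2 hR2
    have h3 := Int.natAbs_ne_zero.2 hR3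
    have h4 := Int.natAbs_ne_zero.2 hdet
    positivity
  have d1 : ∀ p, ¬ p ∣ B → ¬ p ∣ R1.natAbs := fun p hp h => hp (by
    rw [hB]; exact (((h.mul_left _).mul_right _).mul_right _).mul_right _)
  have d2 : ∀ p, ¬ p ∣ B → ¬ p ∣ R2.natAbs := fun p hp h => hp (by
    rw [hB]; exact ((h.mul_left _).mul_right _).mul_right _)
  have d3 : ∀ p, ¬ p ∣ B → ¬ p ∣ R3.natAbs := fun p hp h => hp (by
    rw [hB]; exact (h.mul_left _).mul_right _)
  have d4 : ∀ p, ¬ p ∣ B → ¬ p ∣ Mx.det.natAbs := fun p hp h => hp (by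
    rw [hB]; exact h.mul_left _)
  have d0 : M0 ∣ B := by
    rw [hB]
    refine Dvd.dvd.mul_right (Dvd.dvd.mul_right (Dvd.dvd.mul_right (Dvd.dvd.mul_right
      (Dvd.dvd.mul_right (dvd_mul_left _ _) _) _) _) _) _
  refine ⟨B, ⟨hB0, ?_, ?_, ?_, ?_, ?_, ?_⟩, d0⟩
  · rw [hB]
    refine Dvd.dvd.mul_right (Dvd.dvd.mul_right (Dvd.dvd.mul_right (Dvd.dvd.mul_right
      (Dvd.dvd.mul_right (dvd_mul_right _ _) _) _) _) _) _
  · intro p hp hpP
    have h1 : p ∣ P0.factorial := (Nat.Prime.dvd_factorial hp).2 hpP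
    rw [hB]
    exact ((((h1.mul_left _).mul_right _).mul_right _).mul_right _).mul_right _
  · intro p hp hpB
    have : Fact p.Prime := ⟨hp⟩
    have h1 := hs1 p hp (d1 p hpB)
    apply Polynomial.Separable.squarefree
    unfold Polynomial.Separable
    unfold red at h1 ⊢
    rwa [Polynomial.derivative_map]
  · intro p hp hpB
    exact hs2 p hp (d2 p hpB)
  · intro p hp hpB
    exact hs3 p hp (d3 p hpB)
  · intro p hp hpB x y z hdvd
    have : Fact p.Prime := ⟨hp⟩
    have hgm : (red p g).Monic := hD.gm.map _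
    have hgd : (red p g).natDegree = 3 := by
      unfold red
      rw [hD.gm.natDegree_map, hD.gd]
    set c : Fin 3 → ZMod p := ![x, y, z] with hc
    have h1 : red p g ∣ ∑ i, C (c i) * red p (Pr i) := by
      rw [Fin.sum_univ_three]
      have e : C (c 0) * red p (Pr 0) + C (c 1) * red p (Pr 1) + C (c 2) * red p (Pr 2) =
          C x * red p G1 ^ 2 + C y * red p G1 * red p G2 + C z * red p G2 ^ 2 := by
        simp [hc, hPr, red, Polynomial.map_pow, Polynomial.map_mul, mul_assoc]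
      rw [e]
      exact hdvd
    have h2 : ∑ i, C (c i) * red p (Pr i) = ∑ i, C (c i) * (Pr i %ₘ g).map (Int.castRingHom (ZMod p)) +
        red p g * ∑ i, C (c i) * (Pr i /ₘ g).map (Int.castRingHom (ZMod p)) := by
      rw [Finset.mul_sum, ← Finset.sum_add_distrib]
      refine Finset.sum_congr rfl fun i _ => ?_
      have e : red p (Pr i) = (Pr i %ₘ g).map (Int.castRingHom (ZMod p)) +
          red p g * (Pr i /ₘ g).map (Int.castRingHom (ZMod p)) := by
        unfold red
        rw [← Polynomial.map_mul, ← Polynomial.map_add, Polynomial.modByMonic_add_div]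
      rw [e]
      ring
    have h3 : red p g ∣ ∑ i, C (c i) * (Pr i %ₘ g).map (Int.castRingHom (ZMod p)) := by
      rw [h2] at h1
      exact (dvd_add_left (dvd_mul_right _ _)).1 h1
    have hrd : (red p g).degree = 3 := by
      rw [Polynomial.degree_eq_natDegree hgm.ne_zero, hgd]; rfl
    have h4 : ∑ i, C (c i) * (Pr i %ₘ g).map (Int.castRingHom (ZMod p)) = 0 := by
      by_contra hne
      refine hgm.not_dvd_of_degree_lt hne ?_ h3
      rw [hrd]
      rw [← hgdeg]
      refine lt_of_le_of_lt (Polynomial.degree_sum_le _ _) ?_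
      rw [Finset.sup_lt_iff (by rw [hgdeg]; exact bot_lt_iff_ne_bot.2 (by decide))]
      intro i _
      refine lt_of_le_of_lt ?_ (hdeg i)
      calc (C (c i) * (Pr i %ₘ g).map (Int.castRingHom (ZMod p))).degree
          ≤ (C (c i)).degree + ((Pr i %ₘ g).map (Int.castRingHom (ZMod p))).degree :=
            Polynomial.degree_mul_le _ _
        _ ≤ 0 + (Pr i %ₘ g).degree := add_le_add Polynomial.degree_C_le Polynomial.degree_map_le
        _ = _ := zero_add _
    have h5 : ∀ j : Fin 3, ∑ i, c i * (Int.castRingHom (ZMod p)) (Mx i j) = 0 := by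
      intro j
      have h6 := congrArg (fun f : (ZMod p)[X] => f.coeff (j : ℕ)) h4
      simp only [Polynomial.finsetSum_coeff, Polynomial.coeff_C_mul, Polynomial.coeff_map,
        Polynomial.coeff_zero] at h6
      exact h6
    have h6 : (Mx.map (Int.castRingHom (ZMod p))).det ≠ 0 := by
      rw [← RingHom.mapMatrix_apply, ← RingHom.map_det]
      intro h0
      have h7 : ((Mx.det : ℤ) : ZMod p) = 0 := h0
      rw [ZMod.intCast_zmod_eq_zero_iff_dvd] at h7
      exact d4 p hpB (Int.natCast_dvd.1 h7)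
    have h7 : c = 0 := by
      by_contra hne
      apply h6
      apply Matrix.exists_vecMul_eq_zero_iff.1
      refine ⟨c, hne, ?_⟩
      funext j
      simpa [Matrix.vecMul, dotProduct] using h5 j
    refine ⟨?_, ?_, ?_⟩
    · simpa [hc] using congrFun h7 0
    · simpa [hc] using congrFun h7 1
    · simpa [hc] using congrFun h7 2

end O1
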