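import Pool.Agent.Lib.MP_10e784_agO.D0
import Pool.Agent.Lib.MP_10e784_agO.D1
import Pool.Agent.Lib.MP_10e784_agO.DA
import Pool.Agent.Lib.MP_10e784_agO.GP

/-! JOB DM.  The descent: summary.

`B` from `good_exists` with `M0` the product of the `M0`'s of `desc_zero` and `desc_one`; `C0` = maximum of the two constants, `1` and the constant of `aa_le` (`Ob` is monotone in `C0`).  `exists_pt` (with `hT.t0`).  If `e ≤ N ^ (3/2)`: `desc_zero`, `M = e`; `nm g (Pf δ)` is not a square (`ns`: a rational square times `s e`);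
(C): `jac_class` with `n = nm g (Pf δ)`, `m = s e` (`¬ p² ∣ s e` for `p ∤ B`) and `pt_cc`.  If `e > N ^ (3/2)`: `desc_one`, `e M ≤ |nm g AA| ≤ C N³` (`aa_ne`, `aa_le`), so `M ≤ C N ^ (3/2)`. -/

set_option autoImplicit false

namespace O1

open Polynomial Finset TW FQQ

/-- monotonicity in the constant -/
theorem DM_mono {g : ℤ[X]} {B : ℕ} {C0 C1 : ℝ} (h : C0 ≤ C1) {δ : Vn 2} {M : ℕ} {r : ℤ}
    (hO : Ob g B C0 δ M r) : Ob g B C1 δ M r :=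
  { sz := fun i => (hO.sz i).trans (mul_le_mul_of_nonneg_right h (by positivity))
    sq := hO.sq
    cop := hO.cop
    rt := hO.rt
    un := hO.un
    nz := hO.nz
    dv := hO.dv }

/-- a class times a rational square -/
theorem DM_sq {n m : ℤ} {q : ℚ} (hq : q ≠ 0) (h : (n : ℚ) = (m : ℚ) * q ^ 2) (hn : IsSquare n) :
    IsSquare m := by
  rw [← Rat.isSquare_intCast_iff]
  have h1 : IsSquare (n : ℚ) := Rat.isSquare_intCast_iff.2 hn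
  have h2 : (m : ℚ) = (n : ℚ) / q ^ 2 := by
    rw [h]
    field_simp
  rw [h2]
  exact h1.div (IsSquare.sq q)

/-- the class is not divisible by the square of a good prime -/
theorem DM_nd {B : ℕ} {s : ℤ} {e p : ℕ} (hp : p.Prime) (hpB : ¬ p ∣ B) (hs : s.natAbs ∣ B)
    (he : Squarefree e) : ¬ (p : ℤ) ^ 2 ∣ s * (e : ℤ) := by
  intro h
  have h1 : ¬ (p : ℤ) ∣ s := by
    intro h2
    exact hpB ((Int.natCast_dvd.1 h2).trans hs)
  have h3 : IsCoprime ((p : ℤ) ^ 2) s :=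
    ((Nat.prime_iff_prime_int.1 hp).coprime_iff_not_dvd.2 h1).pow_left
  have h4 : (p : ℤ) ^ 2 ∣ (e : ℤ) := h3.dvd_of_dvd_mul_left h
  have h5 : p ^ 2 ∣ e := by exact_mod_cast h4
  rw [pow_two] at h5
  exact hp.not_isUnit (he p h5)

theorem DM_QN {B N p : ℕ} (hp : p ∈ QN B N) : p.Prime ∧ ¬ p ∣ B := by
  unfold QN at hp
  rw [Finset.mem_filter] at hp
  exact hp.2

/-- the size of `M` when `e` is large -/
theorem DM_size {N e M A : ℕ} {C3 : ℝ} (hN : 1 ≤ N) (hA : A ≠ 0) (hd : e * M ∣ A)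
    (hle : (A : ℝ) ≤ C3 * (N : ℝ) ^ 3) (he : (N : ℝ) ^ ((3 : ℝ) / 2) < e) :
    (M : ℝ) ≤ C3 * (N : ℝ) ^ ((3 : ℝ) / 2) := by
  have hN' : (1 : ℝ) ≤ N := by exact_mod_cast hN
  have hX : 0 < (N : ℝ) ^ ((3 : ℝ) / 2) := Real.rpow_pos_of_pos (by linarith) _
  have hXX : (N : ℝ) ^ ((3 : ℝ) / 2) * (N : ℝ) ^ ((3 : ℝ) / 2) = (N : ℝ) ^ 3 := by
    rw [← Real.rpow_add (by linarith)]
    norm_num
  have h1 : ((e * M : ℕ) : ℝ) ≤ C3 * (N : ℝ) ^ 3 := by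
    refine le_trans ?_ hle
    exact_mod_cast Nat.le_of_dvd (Nat.pos_of_ne_zero hA) hd
  rw [Nat.cast_mul] at h1
  have h2 : (N : ℝ) ^ ((3 : ℝ) / 2) * M ≤ (e : ℝ) * M :=
    mul_le_mul_of_nonneg_right he.le (Nat.cast_nonneg M)
  have h3 : (N : ℝ) ^ ((3 : ℝ) / 2) * M ≤ (N : ℝ) ^ ((3 : ℝ) / 2) * (C3 * (N : ℝ) ^ ((3 : ℝ) / 2)) := by
    refine (h2.trans h1).trans (le_of_eq ?_)
    rw [← hXX]
    ring
  exact le_of_mul_le_mul_left h3 hX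

theorem desc_main {g G1 G2 : ℤ[X]} (hD : Dat g G1 G2) (P0 : ℕ) :
    ∃ (B : ℕ) (C0 : ℝ), Good g G1 G2 P0 B ∧ 1 ≤ C0 ∧ ∀ (N : ℕ) (f : Vn 1), 1 ≤ N → f ∈ boxN 1 N →
      Typ g G1 G2 B N (f 1) (f 0) →
      ∀ x : ℚ, IsSquare ((qq g).eval x * (qq (AA G1 G2 (f 1) (f 0))).eval x) → ¬ IsSquare ((qq g).eval x) →
        ∃ (δ : Vn 2) (M : ℕ) (r : ℤ), Ob g B C0 δ M r ∧ (M : ℝ) ≤ C0 * (N : ℝ) ^ ((3 : ℝ) / 2) ∧
          ((SelfAll g B δ ∧ ¬ IsSquare (nm g (Pf δ)) ∧ f ∈ U0 g G1 G2 B N δ) ∨ f ∈ U1 g G1 G2 B N δ) := by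
  classical
  obtain ⟨M1, hM1, H1⟩ := desc_zero hD
  obtain ⟨M2, hM2, H2⟩ := desc_one hD
  obtain ⟨B, hG, hMB⟩ := good_exists hD P0 (M1 * M2) (mul_ne_zero hM1 hM2)
  obtain ⟨C1, hC1, K1⟩ := H1 P0 B hG ((dvd_mul_right M1 M2).trans hMB)
  obtain ⟨C2, hC2, K2⟩ := H2 P0 B hG ((dvd_mul_left M2 M1).trans hMB)
  obtain ⟨C3, hC3, K3⟩ := aa_le hD
  refine ⟨B, max (max C1 C2) C3, hG, hC1.trans ((le_max_left _ _).trans (le_max_left _ _)),
    fun N f hN hf hT x h1 h2 => ?_⟩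
  have hN' : (1 : ℝ) ≤ N := by exact_mod_cast hN
  have hX : 0 < (N : ℝ) ^ ((3 : ℝ) / 2) := Real.rpow_pos_of_pos (by linarith) _
  have hbox : ∀ i, |f i| ≤ (N : ℤ) := by
    unfold boxN at hf
    rw [Fintype.mem_piFinset] at hf
    intro i
    have := hf i
    rw [Finset.mem_Icc] at this
    exact abs_le.2 this
  obtain ⟨a, b, s, w, w', e, hP⟩ := exists_pt hD B hG.ne (f 1) (f 0) x h1 h2 hT.t0
  have hm0 : s * (e : ℤ) ≠ 0 := by
    intro h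
    apply hP.ns
    rw [h]
    exact ⟨0, by ring⟩
  rcases le_or_gt (e : ℝ) ((N : ℝ) ^ ((3 : ℝ) / 2)) with he | he
  · obtain ⟨δ, r, hO, hS, hAt, q, hq, hnq⟩ := K1 (f 1) (f 0) a b s w w' e hP
    have hnq' : ((nm g (Pf δ) : ℤ) : ℚ) = ((s * (e : ℤ) : ℤ) : ℚ) * q ^ 2 := by
      rw [hnq]
      push_cast
      ring
    refine ⟨δ, e, r, DM_mono ((le_max_left _ _).trans (le_max_left _ _)) hO, ?_,
      Or.inl ⟨hS, fun hsq => hP.ns (DM_sq hq hnq' hsq), ?_⟩⟩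
    · refine he.trans (le_mul_of_one_le_left hX.le ?_)
      exact hC1.trans ((le_max_left _ _).trans (le_max_left _ _))
    · unfold U0
      rw [Finset.mem_filter]
      refine ⟨hf, hAt, fun p hp hdv hj => ?_⟩
      obtain ⟨hpp, hpB⟩ := DM_QN hp
      exact pt_cc hD hG hT hP p hp hdv (jac_class p hpp _ _ hO.nz hm0 q hnq'
        (DM_nd hpp hpB hP.sB hP.sqf) hj)
  · obtain ⟨δ, M, r, hO, hdv, hAt, hC⟩ := K2 N (f 1) (f 0) a b s w w' e hT hP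
    refine ⟨δ, M, r, DM_mono ((le_max_right _ _).trans (le_max_left _ _)) hO, ?_, Or.inr ?_⟩
    · have h3 := aa_ne hD hG (f 1) (f 0)
      have h4 := K3 N (f 1) (f 0) hN (hbox 1) (hbox 0)
      have h5 : (((nm g (AA G1 G2 (f 1) (f 0))).natAbs : ℕ) : ℝ) ≤ C3 * (N : ℝ) ^ 3 := by
        rw [Nat.cast_natAbs, Int.cast_abs]
        exact h4
      refine (DM_size hN (Int.natAbs_ne_zero.2 h3) hdv h5 he).trans ?_
      exact mul_le_mul_of_nonneg_right (le_max_right _ _) hX.le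
    · unfold U1
      rw [Finset.mem_filter]
      exact ⟨hf, hAt, hC⟩

end O1
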