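import Mathlib

set_option autoImplicit false

namespace O1
open Polynomial

/-- The rational points of `y² = x³ - 432` are `(12, ±36)` (Fermat's last theorem for the exponent 3). -/
theorem E0_points {x y : ℚ} (h : y ^ 2 = x ^ 3 - 432) : x = 12 ∧ (y = 36 ∨ y = -36) := by
  have hx : x ≠ 0 := by
    rintro rfl
    nlinarith [sq_nonneg y]
  have hF : FermatLastTheoremWith ℚ 3 := fermatLastTheoremFor_iff_rat.1 fermatLastTheoremThree
  have hab : ((36 + y) / (6 * x)) ^ 3 + ((36 - y) / (6 * x)) ^ 3 = 1 ^ 3 := by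
    field_simp
    linear_combination 216 * h
  have h0 : (36 + y) / (6 * x) = 0 ∨ (36 - y) / (6 * x) = 0 := by
    by_contra hc
    push Not at hc
    exact hF _ _ _ hc.1 hc.2 one_ne_zero hab
  have h6 : (6 : ℚ) * x ≠ 0 := mul_ne_zero (by norm_num) hx
  have hy : y = 36 ∨ y = -36 := by
    rcases h0 with h0 | h0
    · right
      rw [div_eq_zero_iff] at h0
      rcases h0 with h0 | h0
      · linarith
      · exact absurd h0 h6
    · left
      rw [div_eq_zero_iff] at h0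
      rcases h0 with h0 | h0
      · linarith
      · exact absurd h0 h6
  refine ⟨?_, hy⟩
  have hx3 : x ^ 3 = 12 ^ 3 := by
    rcases hy with rfl | rfl <;> linarith
  nlinarith [sq_nonneg (x + 12), sq_nonneg (x - 12), sq_nonneg (x + 6)]

theorem E0_noroot (x : ℚ) : x ^ 3 ≠ 432 := by
  intro h
  have h2 : (x / 6) ^ 3 = 2 := by
    field_simp
    linarith
  have hx : x / 6 ≠ 0 := by
    intro h0
    rw [h0] at h2
    norm_num at h2
  have : Fact (Nat.Prime 2) := ⟨Nat.prime_two⟩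
  have h3 : padicValRat 2 ((x / 6) ^ 3) = 3 * padicValRat 2 (x / 6) := by
    rw [padicValRat.pow]
    rfl
  have h4 : padicValRat 2 (2 : ℚ) = 1 := by
    have := padicValRat.self (p := 2) (by norm_num)
    exact_mod_cast this
  rw [h2, h4] at h3
  omega

/-- `X ^ 3 - 432` is irreducible over `ℚ`. -/
theorem E0_irreducible : Irreducible (X ^ 3 - C 432 : ℚ[X]) := by
  have hd : (X ^ 3 - C 432 : ℚ[X]).natDegree = 3 := natDegree_X_pow_sub_C
  rw [irreducible_iff_roots_eq_zero_of_degree_le_three (by rw [hd]; norm_num) (by rw [hd])]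
  refine Multiset.eq_zero_of_forall_notMem fun x hx => ?_
  have := (mem_roots'.1 hx).2
  simp only [IsRoot.def, eval_sub, eval_pow, eval_X, eval_C] at this
  exact E0_noroot x (by linarith)

/-- The trivial class: for a fixed rational number `x₀` at most `C N^(3/2)` of the pairs `(u, v)` in the box
`|u|, |v| ≤ N` have `a² + u a b + v b²` a square (of a rational number), if `b ≠ 0`. -/
theorem E0_fixed (a b : ℤ) (hb : b ≠ 0) : ∃ C : ℝ, ∀ N : ℕ, 1 ≤ N →
    (((Finset.Icc (-(N : ℤ)) N ×ˢ Finset.Icc (-(N : ℤ)) N).filter fun w =>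
      IsSquare (a ^ 2 + w.1 * a * b + w.2 * b ^ 2)).card : ℝ) ≤ C * (N : ℝ) ^ (3 / 2 : ℝ) := by
  obtain ⟨K, hK⟩ : ∃ K : ℕ, K = (a ^ 2 + |a * b| + b ^ 2).toNat := ⟨_, rfl⟩
  have hK' : (K : ℤ) = a ^ 2 + |a * b| + b ^ 2 := by
    rw [hK, Int.toNat_of_nonneg (by positivity)]
  refine ⟨3 * (√K + 1), fun N hN => ?_⟩
  have hmaps : ∀ w ∈ (Finset.Icc (-(N : ℤ)) N ×ˢ Finset.Icc (-(N : ℤ)) N).filter fun w =>
      IsSquare (a ^ 2 + w.1 * a * b + w.2 * b ^ 2),
      (w.1, ((a ^ 2 + w.1 * a * b + w.2 * b ^ 2).toNat.sqrt)) ∈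
        Finset.Icc (-(N : ℤ)) N ×ˢ Finset.range ((K * N).sqrt + 1) := by
    intro w hw
    rw [Finset.mem_filter, Finset.mem_product, Finset.mem_Icc, Finset.mem_Icc] at hw
    rw [Finset.mem_product, Finset.mem_Icc, Finset.mem_range]
    refine ⟨hw.1.1, Nat.lt_succ_of_le (Nat.sqrt_le_sqrt ?_)⟩
    rw [Int.toNat_le]
    push_cast
    rw [hK']
    have h1 : w.1 * a * b ≤ N * |a * b| := by
      calc w.1 * a * b ≤ |w.1 * a * b| := le_abs_self _
        _ = |w.1| * |a * b| := by rw [mul_assoc, abs_mul]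
        _ ≤ N * |a * b| := by
          refine mul_le_mul_of_nonneg_right (abs_le.2 hw.1.1) (abs_nonneg _)
    have h2 : w.2 * b ^ 2 ≤ N * b ^ 2 := mul_le_mul_of_nonneg_right hw.1.2.2 (sq_nonneg b)
    have h3 : a ^ 2 ≤ a ^ 2 * N := by
      have : (1 : ℤ) ≤ N := by exact_mod_cast hN
      nlinarith [sq_nonneg a]
    nlinarith
  have hinj : ∀ w ∈ (Finset.Icc (-(N : ℤ)) N ×ˢ Finset.Icc (-(N : ℤ)) N).filter fun w =>
      IsSquare (a ^ 2 + w.1 * a * b + w.2 * b ^ 2), ∀ w' ∈ (Finset.Icc (-(N : ℤ)) N ×ˢ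
      Finset.Icc (-(N : ℤ)) N).filter fun w => IsSquare (a ^ 2 + w.1 * a * b + w.2 * b ^ 2),
      (w.1, ((a ^ 2 + w.1 * a * b + w.2 * b ^ 2).toNat.sqrt)) =
        (w'.1, ((a ^ 2 + w'.1 * a * b + w'.2 * b ^ 2).toNat.sqrt)) → w = w' := by
    intro w hw w' hw' h
    rw [Finset.mem_filter] at hw hw'
    obtain ⟨h1, h2⟩ := Prod.mk.inj h
    obtain ⟨r, hr⟩ := hw.2
    obtain ⟨r', hr'⟩ := hw'.2
    have e : ∀ t : ℤ, (t * t).toNat.sqrt = t.natAbs := by
      intro t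
      have : (t * t).toNat = t.natAbs * t.natAbs := by
        rw [← Int.natAbs_mul_self, Int.toNat_natCast]
      rw [this, Nat.sqrt_eq]
    rw [hr, hr', e, e] at h2
    have h3 : r * r = r' * r' := by
      rw [← Int.natAbs_mul_self' r, ← Int.natAbs_mul_self' r', h2]
    have h4 : w.2 * b ^ 2 = w'.2 * b ^ 2 := by
      have : a ^ 2 + w.1 * a * b + w.2 * b ^ 2 = a ^ 2 + w'.1 * a * b + w'.2 * b ^ 2 := by
        rw [hr, hr', h3]
      rw [h1] at this
      linarith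
    exact Prod.ext h1 (mul_right_cancel₀ (pow_ne_zero 2 hb) h4)
  have hcard := Finset.card_le_card_of_injOn _ hmaps (fun w hw w' hw' h => hinj w hw w' hw' h)
  rw [Finset.card_product, Finset.card_range, Int.card_Icc] at hcard
  have hN0 : (1 : ℝ) ≤ N := by exact_mod_cast hN
  have e1 : (((N : ℤ) + 1 - -(N : ℤ)).toNat : ℝ) = 2 * N + 1 := by
    have : ((N : ℤ) + 1 - -(N : ℤ)).toNat = 2 * N + 1 := by omega
    rw [this]
    push_cast
    ring
  have e2 : (((K * N).sqrt + 1 : ℕ) : ℝ) ≤ (√K + 1) * √N := by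
    have h1 : (((K * N).sqrt : ℕ) : ℝ) ≤ √((K * N : ℕ) : ℝ) := by
      exact Real.nat_sqrt_le_real_sqrt
    have h2 : √((K * N : ℕ) : ℝ) = √K * √N := by
      push_cast
      exact Real.sqrt_mul (by positivity) _
    have h3 : 1 ≤ √(N : ℝ) := Real.one_le_sqrt.2 hN0
    push_cast
    linarith [h1, h2]
  have e3 : (N : ℝ) ^ (3 / 2 : ℝ) = N * √N := by
    rw [Real.sqrt_eq_rpow, show (3 / 2 : ℝ) = 1 + 1 / 2 by norm_num,
      Real.rpow_add (by positivity), Real.rpow_one]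
  calc _ ≤ ((((N : ℤ) + 1 - -(N : ℤ)).toNat * ((K * N).sqrt + 1) : ℕ) : ℝ) := by
        exact_mod_cast hcard
    _ = (2 * N + 1) * (((K * N).sqrt + 1 : ℕ) : ℝ) := by
        rw [Nat.cast_mul, e1]
    _ ≤ (2 * N + 1) * ((√K + 1) * √N) := mul_le_mul_of_nonneg_left e2 (by positivity)
    _ ≤ (3 * N) * ((√K + 1) * √N) := mul_le_mul_of_nonneg_right (by linarith) (by positivity)
    _ = 3 * (√K + 1) * (N : ℝ) ^ (3 / 2 : ℝ) := by rw [e3]; ring

end O1
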