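import Pool.Agent.Lib.MP_10e784_agO.EWd
import Pool.Agent.Lib.MP_10e784_ag.TW.TWRtLow
import Pool.Agent.Lib.MP_10e784_ag.EL.ELMert

/-! JOB EW.  The sum of the weights.

`TW.rt_low g`: `∑_{p ≤ z} rt g p / p ≥ log log z - C`.  `[rt g p = 1] ≤ (1 - (D/p)) / 2` for `p ∤ B1` (`disc_one`; the right side is `≥ 0`, and `= 1` if `rt g p = 1`).
If `D` is a square then `(D/p) = 1 or 0`: `rt g p = 1` only for `p ∣ B1`, a bounded sum.  Otherwise `G = X ^ 2 - C D` is monic and irreducible over `ℚ`, `rt G p = 1 + (D/p)` for odd `p` (`p ∤ D`; `rt G p ≥ 0` otherwise), `TW.rt_low G`: `∑ (1 + (D/p)) / p ≥ log log z - C`, and Mertens (`ELMert`) `∑ 1 / p ≤ log log z + C` give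
`∑ (1 - (D/p)) / p = 2 ∑ 1/p - ∑ (1 + (D/p)) / p ≤ log log z + C`, so `∑ [rt g p = 1] / p ≤ (1/2) log log z + C` and
`∑ ew g p / p ≥ (3/4) log log z - (1/4)(1/2) log log z - C = (5/8) log log z - C`.  (In both cases; for square `D` even `3/4`; `log log z ≥ 0` for `z ≥ 3`.) -/

set_option autoImplicit false

namespace O1

open Polynomial Finset TW FQQ

theorem EW_le {a b : ℕ → ℝ} (h : ∀ p : ℕ, p.Prime → a p ≤ b p) (z : ℝ) : PT.PS a z ≤ PT.PS b z := by
  unfold PT.PS
  refine Finset.sum_le_sum fun p hp => ?_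
  exact div_le_div_of_nonneg_right (h p (mem_filter.1 hp).2) (Nat.cast_nonneg p)

theorem EW_add (a b : ℕ → ℝ) (z : ℝ) : PT.PS (fun p => a p + b p) z = PT.PS a z + PT.PS b z := by
  unfold PT.PS
  rw [← Finset.sum_add_distrib]
  exact Finset.sum_congr rfl fun p _ => add_div _ _ _

theorem EW_mul (c : ℝ) (a : ℕ → ℝ) (z : ℝ) : PT.PS (fun p => c * a p) z = c * PT.PS a z := by
  unfold PT.PS
  rw [Finset.mul_sum]
  exact Finset.sum_congr rfl fun p _ => mul_div_assoc _ _ _

/-- a bounded sum -/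
theorem EW_dvd (M : ℕ) (hM : M ≠ 0) (z : ℝ) : PT.PS (fun p => if p ∣ M then (1 : ℝ) else 0) z ≤ M := by
  unfold PT.PS
  have h1 : ∀ p ∈ (Icc 1 ⌊z⌋₊).filter Nat.Prime, (if p ∣ M then (1 : ℝ) else 0) / (p : ℝ) ≤
      if p ∣ M then 1 else 0 := by
    intro p hp
    simp only [mem_filter, mem_Icc] at hp
    have hp1 : (1 : ℝ) ≤ p := by exact_mod_cast hp.1.1
    split_ifs with h
    · rw [div_le_one (by linarith)]
      exact hp1
    · rw [zero_div]
  refine (Finset.sum_le_sum h1).trans ?_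
  rw [Finset.sum_ite, Finset.sum_const_zero, add_zero, Finset.sum_const, nsmul_eq_mul, mul_one]
  have h2 : (((Icc 1 ⌊z⌋₊).filter Nat.Prime).filter (fun p => p ∣ M)).card ≤ M := by
    calc (((Icc 1 ⌊z⌋₊).filter Nat.Prime).filter (fun p => p ∣ M)).card ≤ (Icc 1 M).card := by
          apply Finset.card_le_card
          intro p hp
          simp only [Finset.mem_filter, Finset.mem_Icc] at hp ⊢
          exact ⟨hp.1.1.1, Nat.le_of_dvd (Nat.pos_of_ne_zero hM) hp.2⟩
      _ = M := by simp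
  exact_mod_cast h2

/-- Mertens -/
theorem EW_one : ∃ A : ℝ, ∀ x : ℝ, 2 ≤ x → PT.PS (fun _ => 1) x ≤ Real.log (Real.log x) + A := by
  have hirr : Irreducible ((X : ℤ[X]).map (Int.castRingHom ℚ)) := by
    rw [Polynomial.map_X]
    exact irreducible_X
  obtain ⟨C1, hC1⟩ := PT.rt_sum (X : ℤ[X]) hirr
  refine ⟨C1, fun x hx => ?_⟩
  refine le_trans (EW_le (fun p hp => ?_) x) (hC1 x hx)
  have : Fact p.Prime := ⟨hp⟩
  unfold PT.rt
  simp only [Polynomial.map_X, eval_X]
  rw [Nat.card_unique, Nat.cast_one]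

theorem EW_rt_sq (D : ℤ) {p : ℕ} (hp : p.Prime) :
    (PT.rt (X ^ 2 - C D) p : ℝ) ≤ (1 + jacobiSym D p) + 2 * (if p ∣ 2 then (1 : ℝ) else 0) := by
  classical
  have hF : Fact p.Prime := ⟨hp⟩
  have hrt : PT.rt (X ^ 2 - C D) p = Nat.card {x : ZMod p // x ^ 2 = (D : ZMod p)} := by
    unfold PT.rt
    refine Nat.card_congr (Equiv.subtypeEquivRight fun x => ?_)
    simp only [Polynomial.map_sub, Polynomial.map_pow, Polynomial.map_X, Polynomial.map_intCast, eval_sub, eval_pow,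
      eval_X, eval_intCast, sub_eq_zero, eq_intCast]
  by_cases h2 : p = 2
  · subst h2
    rw [if_pos (dvd_refl 2)]
    have h1 : PT.rt (X ^ 2 - C D) 2 ≤ 2 := by
      rw [hrt]
      calc Nat.card {x : ZMod 2 // x ^ 2 = (D : ZMod 2)} ≤ Nat.card (ZMod 2) :=
            Nat.card_le_card_of_injective _ Subtype.val_injective
        _ = 2 := by rw [Nat.card_zmod]
    have h3 : (PT.rt (X ^ 2 - C D) 2 : ℝ) ≤ 2 := by exact_mod_cast h1
    have h4 : (-1 : ℝ) ≤ (jacobiSym D 2 : ℝ) := by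
      rcases jacobiSym.trichotomy D 2 with h | h | h <;> rw [h] <;> norm_num
    linarith
  · have h3 : ¬ p ∣ 2 := fun h => h2 ((Nat.prime_dvd_prime_iff_eq hp Nat.prime_two).1 h)
    rw [if_neg h3, mul_zero, add_zero]
    have h4 := legendreSym.card_sqrts (p := p) h2 D
    have h5 : Nat.card {x : ZMod p // x ^ 2 = (D : ZMod p)} = {x : ZMod p | x ^ 2 = D}.toFinset.card := by
      rw [Set.toFinset_card, Nat.card_eq_fintype_card]
      exact Fintype.card_congr (Equiv.refl _)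
    rw [hrt, h5]
    rw [jacobiSym.legendreSym.to_jacobiSym] at h4
    have h6 : (({x : ZMod p | x ^ 2 = D}.toFinset.card : ℤ) : ℝ) = ((jacobiSym D p + 1 : ℤ) : ℝ) := by rw [h4]
    push_cast at h6
    rw [h6]
    linarith

theorem ew_sum {g : ℤ[X]} (hg : g.Monic) (hd : g.natDegree = 3) (hi : Irreducible (qq g)) :
    ∃ C : ℝ, ∀ z : ℝ, 3 ≤ z → 5 / 8 * Real.log (Real.log z) - C ≤ PT.PS (ew g) z := by
  classical
  obtain ⟨D, B1, hD0, hB1, hD⟩ := disc_one hg hd hi
  obtain ⟨C0, hC0⟩ := TW.rt_low g hg hi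
  obtain ⟨A, hA⟩ := EW_one
  by_cases hsq : IsSquare D
  · obtain ⟨m, hm⟩ := hsq
    refine ⟨3 / 4 * C0 + B1, fun z hz => ?_⟩
    have h1 : PT.PS (fun p => 3 / 4 * (PT.rt g p : ℝ) + (-1) * (if p ∣ B1 then (1 : ℝ) else 0)) z ≤ PT.PS (ew g) z := by
      refine EW_le (fun p hp => ?_) z
      unfold ew
      by_cases hpB : p ∣ B1
      · rw [if_pos hpB]
        split_ifs <;> linarith
      · rw [if_neg hpB, if_neg]
        · linarith
        · intro h
          have h2 := hD p hp hpB h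
          rw [hm, jacobiSym.mul_left] at h2
          nlinarith [mul_self_nonneg (jacobiSym m p)]
    rw [EW_add, EW_mul, EW_mul] at h1
    have h2 := EW_dvd B1 hB1 z
    have h3 := hC0 z (by linarith)
    have h4 : 0 ≤ Real.log (Real.log z) := by
      refine Real.log_nonneg ?_
      rw [Real.le_log_iff_exp_le (by linarith)]
      have := Real.exp_one_lt_d9
      linarith
    linarith
  · have hmon : (X ^ 2 - C D : ℤ[X]).Monic := monic_X_pow_sub_C D two_ne_zero
    have hirr : Irreducible ((X ^ 2 - C D : ℤ[X]).map (Int.castRingHom ℚ)) := by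
      have h1 : (X ^ 2 - C D : ℤ[X]).map (Int.castRingHom ℚ) = X ^ 2 - C (D : ℚ) := by
        simp only [Polynomial.map_sub, Polynomial.map_pow, Polynomial.map_X, Polynomial.map_intCast, eq_intCast,
          map_intCast]
      rw [h1, X_pow_sub_C_irreducible_iff_of_prime Nat.prime_two]
      intro b hb
      exact hsq (Rat.isSquare_intCast_iff.1 ⟨b, by rw [← hb, sq]⟩)
    obtain ⟨C1, hC1⟩ := TW.rt_low _ hmon hirr
    refine ⟨3 / 4 * C0 + 1 / 8 * A + 1 / 8 * (C1 + A + 4) + B1, fun z hz => ?_⟩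
    have h1 : PT.PS (fun p => ((3 / 4 * (PT.rt g p : ℝ) + (-(1 / 8)) * 1) + 1 / 8 * (jacobiSym D p : ℝ)) +
        (-1) * (if p ∣ B1 then (1 : ℝ) else 0)) z ≤ PT.PS (ew g) z := by
      refine EW_le (fun p hp => ?_) z
      have h4 : (jacobiSym D p : ℝ) ≤ 1 := by
        rcases jacobiSym.trichotomy D p with h | h | h <;> rw [h] <;> norm_num
      unfold ew
      by_cases hpB : p ∣ B1
      · rw [if_pos hpB]
        split_ifs <;> linarith
      · rw [if_neg hpB]
        split_ifs with h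
        · rw [hD p hp hpB h]
          push_cast
          linarith
        · linarith
    have h1' : PT.PS (fun p => ((3 / 4 * (PT.rt g p : ℝ) + (-(1 / 8)) * 1) + 1 / 8 * (jacobiSym D p : ℝ)) +
        (-1) * (if p ∣ B1 then (1 : ℝ) else 0)) z = ((3 / 4 * PT.PS (fun p => (PT.rt g p : ℝ)) z +
          (-(1 / 8)) * PT.PS (fun _ => 1) z) + 1 / 8 * PT.PS (fun p => (jacobiSym D p : ℝ)) z) +
          (-1) * PT.PS (fun p => if p ∣ B1 then (1 : ℝ) else 0) z := by
      rw [EW_add, EW_add, EW_add, EW_mul, EW_mul, EW_mul, EW_mul]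
    have h5 : PT.PS (fun p => (PT.rt (X ^ 2 - C D) p : ℝ)) z ≤
        PT.PS (fun p => (1 + (jacobiSym D p : ℝ)) + 2 * (if p ∣ 2 then (1 : ℝ) else 0)) z :=
      EW_le (fun p hp => EW_rt_sq D hp) z
    have h5' : PT.PS (fun p => (1 + (jacobiSym D p : ℝ)) + 2 * (if p ∣ 2 then (1 : ℝ) else 0)) z =
        (PT.PS (fun _ => 1) z + PT.PS (fun p => (jacobiSym D p : ℝ)) z) +
          2 * PT.PS (fun p => if p ∣ 2 then (1 : ℝ) else 0) z := by
      rw [EW_add, EW_add, EW_mul]
    have h2 := EW_dvd B1 hB1 z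
    have h3 := hC0 z (by linarith)
    have h6 := EW_dvd 2 two_ne_zero z
    have h7 := hC1 z (by linarith)
    have h8 := hA z (by linarith)
    rw [h1'] at h1
    rw [h5'] at h5
    push_cast at h6
    linarith

end O1
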