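import Pool.Agent.Lib.MP_10e784_agO.Defs

/-! JOB EWd.  A cubic with exactly one root modulo `p` has non-square discriminant.

`D` = the discriminant of `g` (explicit formula in the coefficients: `g = X³ + a X² + b X + c`, `D = a² b² - 4 b³ - 4 a³ c - 27 c² + 18 a b c`), `B1 = 6 |D|` (`D ≠ 0` because `g` is irreducible over `ℚ`, hence separable: if `D = 0` then `g` has a double root; or: `B1 = 6 |D| + 6` and treat `D = 0`: then for every `p`
the reduction has a double root, so `rt g p = 1` is possible: this must be excluded, so `D ≠ 0` is needed; e.g. `Polynomial.discr`, or `4 (a² - 3 b)³ = (2a³ - 9ab + 27c)² + 27 D`: if `D = 0` then `g` has a rational root).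
Modulo a prime `p ∤ B1` with exactly one root `ρ`: `g = (X - ρ)(X² + β X + γ)`, the quadratic factor `q` has no root [`ρ` is the only root of `g`; if `ρ` is a root of `q` then `D = 0` mod `p`], so its discriminant `d = β² - 4 γ` is not a square (`p` odd), and `D = d * q(ρ)²` (polynomial identity), `q(ρ) ≠ 0`, so `D` is not a square modulo `p`:
`jacobiSym D p = legendreSym p D = -1`. -/

set_option autoImplicit false

namespace O1

open Polynomial Finset TW FQQ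

theorem EWd_eval {R : Type} [CommRing R] (f : ℤ →+* R) {g : ℤ[X]} (hg : g.Monic) (hd : g.natDegree = 3)
    (x : R) : (g.map f).eval x = x ^ 3 + f (g.coeff 2) * x ^ 2 + f (g.coeff 1) * x + f (g.coeff 0) := by
  have h3 : g.coeff 3 = 1 := by
    have := hg.coeff_natDegree
    rwa [hd] at this
  rw [eval_map, eval₂_eq_sum_range, hd]
  simp only [Finset.sum_range_succ, Finset.sum_range_zero, h3, map_one]
  ring

theorem EWd_frac {u v a b c : ℚ} (hv : v ≠ 0) :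
    (u / v) ^ 3 + a * (u / v) ^ 2 + b * (u / v) + c = (u ^ 3 + a * u ^ 2 * v + b * u * v ^ 2 + c * v ^ 3) / v ^ 3 := by
  field_simp

theorem EWd_sq {F : Type} [Field F] {d q z : F} (hq : q ≠ 0) (h : d * q ^ 2 = z * z) : d = z / q * (z / q) := by
  rw [div_mul_div_comm, ← h, ← pow_two, mul_div_assoc, div_self (pow_ne_zero 2 hq), mul_one]

theorem EWd_root {a b c : ℚ} (hD : a ^ 2 * b ^ 2 - 4 * b ^ 3 - 4 * a ^ 3 * c - 27 * c ^ 2 + 18 * a * b * c = 0) :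
    ∃ x : ℚ, x ^ 3 + a * x ^ 2 + b * x + c = 0 := by
  by_cases hp : a ^ 2 - 3 * b = 0
  · refine ⟨-(a / 3), ?_⟩
    have hb : b = a ^ 2 / 3 := by linarith
    subst hb
    have h1 : (27 * c - a ^ 3) ^ 2 = 0 := by
      linear_combination (-27 : ℚ) * hD
    have h2 : 27 * c - a ^ 3 = 0 := by
      exact pow_eq_zero_iff (two_ne_zero) |>.mp h1
    linear_combination (1 / 27 : ℚ) * h2
  · refine ⟨(9 * c - a * b) / (2 * (a ^ 2 - 3 * b)), ?_⟩
    have h2 : (2 * (a ^ 2 - 3 * b)) ≠ 0 := mul_ne_zero two_ne_zero hp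
    have h3 : (9 * c - a * b) ^ 3 + a * (9 * c - a * b) ^ 2 * (2 * (a ^ 2 - 3 * b)) +
        b * (9 * c - a * b) * (2 * (a ^ 2 - 3 * b)) ^ 2 + c * (2 * (a ^ 2 - 3 * b)) ^ 3 = 0 := by
      linear_combination (-(2 * a ^ 3) + 9 * a * b - 27 * c) * hD
    rw [EWd_frac h2, h3, zero_div]

theorem disc_one {g : ℤ[X]} (hg : g.Monic) (hd : g.natDegree = 3) (hi : Irreducible (qq g)) :
    ∃ (D : ℤ) (B1 : ℕ), D ≠ 0 ∧ B1 ≠ 0 ∧ ∀ p : ℕ, p.Prime → ¬ p ∣ B1 → PT.rt g p = 1 → jacobiSym D p = -1 := by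
  obtain ⟨a, ha⟩ : ∃ a, a = g.coeff 2 := ⟨_, rfl⟩
  obtain ⟨b, hb⟩ : ∃ b, b = g.coeff 1 := ⟨_, rfl⟩
  obtain ⟨c, hc⟩ : ∃ c, c = g.coeff 0 := ⟨_, rfl⟩
  obtain ⟨D, hD⟩ : ∃ D : ℤ, D = a ^ 2 * b ^ 2 - 4 * b ^ 3 - 4 * a ^ 3 * c - 27 * c ^ 2 + 18 * a * b * c := ⟨_, rfl⟩
  have hD0 : D ≠ 0 := by
    intro h0
    obtain ⟨x, hx⟩ := EWd_root (a := (a : ℚ)) (b := (b : ℚ)) (c := (c : ℚ)) (by
      have : ((a ^ 2 * b ^ 2 - 4 * b ^ 3 - 4 * a ^ 3 * c - 27 * c ^ 2 + 18 * a * b * c : ℤ) : ℚ) = 0 := by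
        rw [← hD, h0, Int.cast_zero]
      push_cast at this
      exact this)
    have h1 : (qq g).IsRoot x := by
      rw [IsRoot.def, qq, EWd_eval _ hg hd, ← ha, ← hb, ← hc]
      exact hx
    have h2 := degree_eq_one_of_irreducible_of_root hi h1
    have h3 : (qq g).natDegree = 3 := by
      rw [qq, hg.natDegree_map, hd]
    have h4 : (qq g).natDegree = 1 := natDegree_eq_of_degree_eq_some h2
    rw [h3] at h4
    exact absurd h4 (by norm_num)
  refine ⟨D, 6 * D.natAbs, hD0, by simp [hD0], fun p hp hpB hrt => ?_⟩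
  have : Fact p.Prime := ⟨hp⟩
  have hp2 : (2 : ZMod p) ≠ 0 := by
    intro h
    have : ((2 : ℕ) : ZMod p) = 0 := by exact_mod_cast h
    rw [ZMod.natCast_eq_zero_iff] at this
    exact hpB (this.trans (by exact ⟨3 * D.natAbs, by ring⟩))
  have hpD : (D : ZMod p) ≠ 0 := by
    intro h
    rw [ZMod.intCast_zmod_eq_zero_iff_dvd] at h
    exact hpB ((Int.natCast_dvd.mp h).trans (Dvd.intro_left _ rfl))
  -- the unique root
  unfold PT.rt at hrt
  rw [Nat.card_eq_one_iff_unique] at hrt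
  obtain ⟨⟨hsub⟩, ⟨ρ, hρ⟩⟩ := hrt
  have huniq : ∀ x : ZMod p, x ^ 3 + (a : ZMod p) * x ^ 2 + b * x + c = 0 → x = ρ := by
    intro x hx
    have h1 : (g.map (Int.castRingHom (ZMod p))).eval x = 0 := by
      rw [EWd_eval _ hg hd, ← ha, ← hb, ← hc]
      exact hx
    exact congrArg Subtype.val (hsub ⟨x, h1⟩ ⟨ρ, hρ⟩)
  have hρ' : ρ ^ 3 + (a : ZMod p) * ρ ^ 2 + b * ρ + c = 0 := by
    rw [EWd_eval _ hg hd, ← ha, ← hb, ← hc] at hρ
    exact hρ
  have hDp : (D : ZMod p) = ((a + ρ) ^ 2 - 4 * (b + a * ρ + ρ ^ 2)) *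
      (ρ ^ 2 + (a + ρ) * ρ + (b + a * ρ + ρ ^ 2)) ^ 2 := by
    have hc' : (c : ZMod p) = -(ρ ^ 3 + (a : ZMod p) * ρ ^ 2 + b * ρ) := by linear_combination hρ'
    rw [hD]
    push_cast
    rw [hc']
    ring
  rw [← jacobiSym.legendreSym.to_jacobiSym, legendreSym.eq_neg_one_iff]
  rintro ⟨z, hz⟩
  have hq : (ρ ^ 2 + (a + ρ) * ρ + (b + a * ρ + ρ ^ 2) : ZMod p) ≠ 0 := by
    intro h
    exact hpD (by rw [hDp, h]; ring)
  obtain ⟨s, hs⟩ : ∃ s : ZMod p, ((a + ρ) ^ 2 - 4 * (b + a * ρ + ρ ^ 2) : ZMod p) = s * s := by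
    refine ⟨z / (ρ ^ 2 + (a + ρ) * ρ + (b + a * ρ + ρ ^ 2)), ?_⟩
    rw [hDp] at hz
    exact EWd_sq hq hz
  obtain ⟨x, hx⟩ : ∃ x : ZMod p, 2 * x = -(a + ρ) + s := ⟨(-(a + ρ) + s) / 2, by field_simp⟩
  have hqx : x ^ 2 + (a + ρ) * x + (b + a * ρ + ρ ^ 2) = 0 := by
    have h4 : (4 : ZMod p) ≠ 0 := by
      have : (4 : ZMod p) = 2 * 2 := by norm_num
      rw [this]
      exact mul_ne_zero hp2 hp2
    have h5 : 4 * (x ^ 2 + (a + ρ) * x + (b + a * ρ + ρ ^ 2)) = 0 := by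
      linear_combination (2 * x + (a + ρ) + s) * hx - hs
    exact (mul_eq_zero.mp h5).resolve_left h4
  have hxρ : x = ρ := huniq x (by linear_combination (x - ρ) * hqx + hρ')
  rw [hxρ] at hqx
  exact hq hqx

end O1
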