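import Mathlib

/-! JOB LQ.  Two character sums.

`χ` the quadratic character of `ZMod p`, `p` odd.  `∑_s χ(q(s)) = - χ(lead)` for a quadratic polynomial `q` with nonzero discriminant (elementary: complete the square and count the points of a conic; there are versions in the
library, e.g. `Pool/Agent/Lib/MP_10e784_ag/QCharSum.lean`, `QJac.lean` or `Pool/Agent/Lib/MP_1ad228_ntG`; grep `quadraticChar`).
`two_lin`: `∑_s (1 + χ(a + b s)) (1 + χ(c + d s)) = p + 0 + 0 - χ(b d) ≤ p + 1`; a point with both values nonzero squares contributes `4`, all terms are `≥ 0`; at most two points have a zero value.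
`one_quad`: `F = ZMod p [X] / (h)` is a field with `p ^ 2` elements, `z ∈ F^×` is a square iff its norm `z ^ (p + 1)` is a square in `ZMod p` (cyclic group), the norm of `U - s V` (`V ≠ 0` in `F`, `t0 = U / V ∉ ZMod p`) is
`N(V) (s² - Tr(t0) s + N(t0))`, a quadratic polynomial in `s` with non-square, nonzero discriminant.  So the number of `s` is `(p ± 1) / 2`.  (Alternatively count without norms: `∑_s η(E (U - s V))`, `η` the quadratic character of `F`, equals `± ∑_s η(t0 - s)`, and
`η(s) = 1` for all `s ∈ (ZMod p)^×`; `(t0 - s)`, `s ∈ ZMod p`, together with `1` represent the `p + 1` classes of `F^× / (ZMod p)^×`, so `1 + ∑_s η(t0 - s) = 0`.)  The last argument is short. -/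

set_option autoImplicit false

namespace O1

open Polynomial Finset

/-- affine substitutions -/
private theorem LQ_aff {K : Type} [Field K] [Fintype K] (f : K → ℤ) (a b : K) (hb : b ≠ 0) :
    ∑ s, f (a + b * s) = ∑ s, f s := by
  refine Fintype.sum_bijective (fun s => a + b * s) ?_ _ _ fun s => rfl
  rw [← Finite.injective_iff_bijective]
  intro x y hxy
  exact mul_left_cancel₀ hb (add_left_cancel hxy)

/-- the sum of the values of the quadratic character at the products of two linear forms -/
private theorem LQ_two {K : Type} [Field K] [Fintype K] [DecidableEq K] (hK : ringChar K ≠ 2)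
    (a b c d : K) (hb : b ≠ 0) (hd : d ≠ 0) (h : a * d ≠ b * c) :
    ∑ s, quadraticChar K (a + b * s) * quadraticChar K (c + d * s) ≤ 1 := by
  set χ := quadraticChar K with hχ
  set e : K := b * c - a * d with he
  have he0 : e ≠ 0 := sub_ne_zero.2 h.symm
  have h1 : ∑ s, χ (a + b * s) * χ (c + d * s) = ∑ y, χ y * χ ((d * y + e) / b) := by
    rw [← LQ_aff (fun y => χ y * χ ((d * y + e) / b)) a b hb]
    refine Finset.sum_congr rfl fun s _ => ?_
    congr 2
    rw [he]
    field_simp
    ring
  have h2 : ∀ y : K, χ y * χ ((d * y + e) / b) = if y = 0 then 0 else χ ((d + e * y⁻¹) / b) := by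
    intro y
    split_ifs with hy
    · rw [hy, MulChar.map_zero, zero_mul]
    · have h3 : (d * y + e) / b = y * ((d + e * y⁻¹) / b) := by
        field_simp
      rw [h3, map_mul, ← mul_assoc, ← map_mul, ← pow_two, hχ, quadraticChar_sq_one' hy, one_mul]
  rw [h1, Finset.sum_congr rfl fun y _ => h2 y]
  have h4 : ∑ y : K, (if y = 0 then 0 else χ ((d + e * y⁻¹) / b)) =
      ∑ y : K, (if y = 0 then 0 else χ ((d + e * y) / b)) := by
    refine Fintype.sum_bijective (fun y : K => y⁻¹) (inv_involutive.bijective) _ _ fun y => ?_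
    by_cases hy : y = 0
    · rw [if_pos hy, if_pos (by rw [hy, inv_zero])]
    · rw [if_neg hy, if_neg (inv_ne_zero hy)]
  have h5 : ∑ y : K, (if y = 0 then 0 else χ ((d + e * y) / b)) =
      ∑ y : K, χ ((d + e * y) / b) - χ (d / b) := by
    rw [← Finset.sum_erase_add Finset.univ (fun y : K => χ ((d + e * y) / b)) (Finset.mem_univ 0),
      ← Finset.sum_erase_add Finset.univ (fun y : K => if y = 0 then 0 else χ ((d + e * y) / b))
        (Finset.mem_univ 0), if_pos rfl, mul_zero, add_zero, add_zero, add_sub_cancel_right]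
    refine Finset.sum_congr rfl fun y hy => ?_
    rw [if_neg (Finset.ne_of_mem_erase hy)]
  have h6 : ∑ y : K, χ ((d + e * y) / b) = 0 := by
    have h7 : ∀ y, (d + e * y) / b = d / b + e / b * y := fun y => by
      field_simp
    rw [Finset.sum_congr rfl fun y _ => by rw [h7 y], LQ_aff (fun y => χ y) _ _ (div_ne_zero he0 hb)]
    exact quadraticChar_sum_zero hK
  rw [h4, h5, h6]
  rcases quadraticChar_dichotomy (F := K) (div_ne_zero hd hb) with h8 | h8
  · rw [hχ, h8]
    norm_num
  · rw [hχ, h8]
    norm_num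

open Classical in
theorem two_lin (p : ℕ) [Fact p.Prime] (h2 : p ≠ 2) (a b c d : ZMod p) (hb : b ≠ 0) (hd : d ≠ 0) (h : a * d ≠ b * c) :
    ((((Finset.univ : Finset (ZMod p)).filter fun s => IsSquare (a + b * s) ∧ IsSquare (c + d * s)).card : ℕ) : ℝ) ≤
      (p : ℝ) / 4 + 3 := by
  have hK : ringChar (ZMod p) ≠ 2 := by
    rw [ZMod.ringChar_zmod_n]
    exact h2
  set χ := quadraticChar (ZMod p) with hχ
  have hval : ∀ x : ZMod p, -1 ≤ χ x ∧ χ x ≤ 1 := by
    intro x
    by_cases hx : x = 0
    · rw [hx, MulChar.map_zero]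
      norm_num
    · rcases quadraticChar_dichotomy hx with h8 | h8
      · rw [hχ, h8]
        norm_num
      · rw [hχ, h8]
        norm_num
  set S := (Finset.univ : Finset (ZMod p)).filter fun s => IsSquare (a + b * s) ∧ IsSquare (c + d * s) with hS
  set Z : Finset (ZMod p) := {-a / b, -c / d} with hZ
  have h1 : ∑ s, (1 + χ (a + b * s)) * (1 + χ (c + d * s)) ≤ p + 1 := by
    have e1 : ∑ s, (1 + χ (a + b * s)) * (1 + χ (c + d * s)) =
        ∑ s : ZMod p, (1 : ℤ) + ∑ s, χ (a + b * s) + ∑ s, χ (c + d * s) +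
          ∑ s, χ (a + b * s) * χ (c + d * s) := by
      rw [← Finset.sum_add_distrib, ← Finset.sum_add_distrib, ← Finset.sum_add_distrib]
      refine Finset.sum_congr rfl fun s _ => ?_
      ring
    rw [e1, LQ_aff (fun y => χ y) a b hb, LQ_aff (fun y => χ y) c d hd, quadraticChar_sum_zero hK,
      Finset.sum_const, Finset.card_univ, ZMod.card]
    have e2 := LQ_two hK a b c d hb hd h
    simp only [nsmul_eq_mul, mul_one, add_zero]
    linarith
  have h3 : 4 * ((S \ Z).card : ℤ) ≤ ∑ s, (1 + χ (a + b * s)) * (1 + χ (c + d * s)) := by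
    have e1 : ∑ s ∈ S \ Z, (1 + χ (a + b * s)) * (1 + χ (c + d * s)) ≤
        ∑ s, (1 + χ (a + b * s)) * (1 + χ (c + d * s)) := by
      refine Finset.sum_le_sum_of_subset_of_nonneg (Finset.subset_univ _) fun s _ _ => ?_
      have e3 := (hval (a + b * s)).1
      have e4 := (hval (c + d * s)).1
      exact mul_nonneg (by linarith) (by linarith)
    refine le_trans (le_of_eq ?_) e1
    rw [Finset.sum_congr rfl (g := fun _ => (4 : ℤ)), Finset.sum_const, nsmul_eq_mul, mul_comm]
    intro s hs
    rw [Finset.mem_sdiff, hS, Finset.mem_filter, hZ, Finset.mem_insert, Finset.mem_singleton] at hs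
    obtain ⟨⟨-, hs1, hs2⟩, hs3⟩ := hs
    have n1 : a + b * s ≠ 0 := by
      intro h0
      refine hs3 (Or.inl ?_)
      rw [eq_div_iff hb]
      linear_combination h0
    have n2 : c + d * s ≠ 0 := by
      intro h0
      refine hs3 (Or.inr ?_)
      rw [eq_div_iff hd]
      linear_combination h0
    have v1 : χ (a + b * s) = 1 := (quadraticChar_one_iff_isSquare n1).2 hs1
    have v2 : χ (c + d * s) = 1 := (quadraticChar_one_iff_isSquare n2).2 hs2
    rw [v1, v2]
    norm_num
  have h4 : S.card ≤ (S \ Z).card + 2 := by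
    have e1 := Finset.card_le_card_sdiff_add_card (s := S) (t := Z)
    have e2 : Z.card ≤ 2 := Finset.card_le_two
    omega
  have h5 : (4 : ℝ) * ((S \ Z).card : ℝ) ≤ p + 1 := by
    have e1 : 4 * ((S \ Z).card : ℤ) ≤ p + 1 := h3.trans h1
    exact_mod_cast e1
  have h6 : (S.card : ℝ) ≤ (S \ Z).card + 2 := by exact_mod_cast h4
  linarith

open Classical in
theorem one_quad (p : ℕ) [Fact p.Prime] (h2 : p ≠ 2) (h : (ZMod p)[X]) (hm : h.Monic) (hi : Irreducible h)
    (hd : h.natDegree = 2) (E U V : (ZMod p)[X]) (hE : ¬ h ∣ E)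
    (hUV : ∀ s t : ZMod p, h ∣ C s * U + C t * V → s = 0 ∧ t = 0) :
    ((((Finset.univ : Finset (ZMod p)).filter fun s => ∃ Q : (ZMod p)[X], h ∣ E * (U - C s * V) - Q ^ 2).card : ℕ) : ℝ) ≤
      (p : ℝ) / 2 + 3 := by
  have : Fact (Irreducible h) := ⟨hi⟩
  have hpp : p.Prime := Fact.out
  have hpodd : Odd p := hpp.odd_of_ne_two h2
  set K := AdjoinRoot h with hKdef
  set u : K := AdjoinRoot.mk h U with hu
  set v : K := AdjoinRoot.mk h V with hv
  set ε : K := AdjoinRoot.mk h E with hε
  have hε0 : ε ≠ 0 := fun h0 => hE (AdjoinRoot.mk_eq_zero.1 h0)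
  have hlin : ∀ s t : ZMod p, algebraMap (ZMod p) K s * u + algebraMap (ZMod p) K t * v = 0 → s = 0 ∧ t = 0 := by
    intro s t h0
    refine hUV s t (AdjoinRoot.mk_eq_zero.1 ?_)
    rw [map_add, map_mul, map_mul, AdjoinRoot.mk_C, AdjoinRoot.mk_C]
    exact h0
  have hv0 : v ≠ 0 := by
    intro h0
    have h1 := (hlin 0 1 (by rw [h0, mul_zero, map_zero, zero_mul, add_zero])).2
    exact one_ne_zero h1
  -- the plane
  set T : ZMod p × ZMod p →ₗ[ZMod p] K :=
    (LinearMap.toSpanSingleton (ZMod p) K 1).comp (LinearMap.fst _ _ _) +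
      (LinearMap.toSpanSingleton (ZMod p) K (u / v)).comp (LinearMap.snd _ _ _) with hT
  have hTv : ∀ x, T x = algebraMap (ZMod p) K x.1 + algebraMap (ZMod p) K x.2 * (u / v) := by
    intro x
    simp [hT, Algebra.smul_def]
  have hTi : Function.Injective T := by
    rw [injective_iff_map_eq_zero]
    rintro ⟨x, y⟩ h0
    rw [hTv] at h0
    have h1 := hlin y x (by
      have h3 := congrArg (fun z => z * v) h0
      simp only at h3
      rw [add_mul, zero_mul, mul_assoc, div_mul_cancel₀ _ hv0] at h3
      rw [← h3]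
      ring)
    rw [h1.1, h1.2]
    rfl
  have hfd : Module.Finite (ZMod p) K := (AdjoinRoot.powerBasis' hm).finite
  have hrank : Module.finrank (ZMod p) (ZMod p × ZMod p) = Module.finrank (ZMod p) K := by
    rw [Module.finrank_prod, Module.finrank_self, (AdjoinRoot.powerBasis' hm).finrank,
      AdjoinRoot.powerBasis'_dim, hd]
  set e := LinearEquiv.ofInjectiveOfFinrankEq T hTi hrank with he
  have hev : ∀ x, e x = T x := fun x => rfl
  let _ : Fintype K := Fintype.ofEquiv _ e.toEquiv
  have hcard : Fintype.card K = p * p := by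
    rw [Fintype.card_congr e.toEquiv.symm, Fintype.card_prod, ZMod.card]
  have hchar : CharP K p := charP_of_injective_algebraMap (algebraMap (ZMod p) K).injective p
  have hK : ringChar K ≠ 2 := by
    rw [ringChar.eq_iff.2 hchar]
    exact h2
  set χ := quadraticChar K with hχ
  -- elements of the prime field are squares
  have hsq : ∀ x : ZMod p, x ≠ 0 → χ (algebraMap (ZMod p) K x) = 1 := by
    intro x hx
    have hx' : algebraMap (ZMod p) K x ≠ 0 := by
      rw [Ne, map_eq_zero_iff _ (algebraMap (ZMod p) K).injective]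
      exact hx
    rw [hχ, quadraticChar_one_iff_isSquare hx', FiniteField.isSquare_iff hK hx', hcard, ← map_pow]
    obtain ⟨m, hm'⟩ := hpodd
    have h3 : p * p / 2 = (p - 1) * (m + 1) := by
      rw [hm']
      have h4 : (2 * m + 1) * (2 * m + 1) = 2 * (2 * m * (m + 1)) + 1 := by ring
      rw [h4, Nat.add_sub_cancel]
      omega
    rw [h3, pow_mul, ZMod.pow_card_sub_one_eq_one hx, one_pow, map_one]
  set σ₀ : ℤ := ∑ s : ZMod p, χ (u / v - algebraMap (ZMod p) K s) with hσ₀
  have hsum : σ₀ = -1 := by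
    have h3 : ∑ x : K, χ x = 0 := quadraticChar_sum_zero hK
    have h4 : ∑ x : K, χ x = ∑ x : ZMod p × ZMod p, χ (T x) := by
      symm
      exact Fintype.sum_bijective e e.bijective _ _ fun x => rfl
    rw [h4, Fintype.sum_prod_type_right] at h3
    have h5 : ∀ y : ZMod p, y ≠ 0 → ∑ x : ZMod p, χ (T (x, y)) = σ₀ := by
      intro y hy
      have h6 := LQ_aff (fun x => χ (T (x, y))) 0 (-y) (neg_ne_zero.2 hy)
      rw [← h6]
      refine Finset.sum_congr rfl fun s _ => ?_
      have h7 : T (0 + -y * s, y) = algebraMap (ZMod p) K y * (u / v - algebraMap (ZMod p) K s) := by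
        rw [hTv]
        simp only [zero_add, map_mul, map_neg]
        ring
      rw [h7, map_mul, hsq y hy, one_mul]
    have h8 : ∑ x : ZMod p, χ (T (x, 0)) = (p : ℤ) - 1 := by
      have h9 : ∀ x : ZMod p, χ (T (x, 0)) = if x = 0 then 0 else 1 := by
        intro x
        have h10 : T (x, 0) = algebraMap (ZMod p) K x := by
          rw [hTv]
          simp only [map_zero, zero_mul, add_zero]
        rw [h10]
        split_ifs with hx
        · rw [hx, map_zero, MulChar.map_zero]
        · exact hsq x hx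
      rw [Finset.sum_congr rfl fun x _ => h9 x, Finset.sum_ite, Finset.sum_const_zero, zero_add,
        Finset.sum_const, nsmul_eq_mul, mul_one, Finset.filter_ne' Finset.univ (0 : ZMod p),
        Finset.card_erase_of_mem (Finset.mem_univ _), Finset.card_univ, ZMod.card, Nat.cast_pred hpp.pos]
    rw [← Finset.sum_erase_add Finset.univ _ (Finset.mem_univ (0 : ZMod p)), h8,
      Finset.sum_congr rfl fun y hy => h5 y (Finset.ne_of_mem_erase hy), Finset.sum_const,
      Finset.card_erase_of_mem (Finset.mem_univ _), Finset.card_univ, ZMod.card, nsmul_eq_mul,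
      Nat.cast_pred hpp.pos] at h3
    have h11 : ((p : ℤ) - 1) * (σ₀ + 1) = 0 := by linear_combination h3
    have h12 : (p : ℤ) - 1 ≠ 0 := by
      have := hpp.one_lt
      omega
    have h13 := (mul_eq_zero.1 h11).resolve_left h12
    linarith
  -- the count
  set S := (Finset.univ : Finset (ZMod p)).filter fun s => ∃ Q : (ZMod p)[X], h ∣ E * (U - C s * V) - Q ^ 2
    with hS
  have hfac : ∀ s : ZMod p, AdjoinRoot.mk h (E * (U - C s * V)) =
      (ε * v) * (u / v - algebraMap (ZMod p) K s) := by
    intro s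
    rw [map_mul, map_sub, map_mul, AdjoinRoot.mk_C]
    change ε * (u - algebraMap (ZMod p) K s * v) = _
    have h9 : v * (u / v) = u := by rw [mul_comm, div_mul_cancel₀ _ hv0]
    linear_combination (-ε) * h9
  have hne : ∀ s : ZMod p, u / v - algebraMap (ZMod p) K s ≠ 0 := by
    intro s h0
    have h1 := (hlin 1 (-s) (by
      have h3 : (u / v - algebraMap (ZMod p) K s) * v = 0 * v := by rw [h0]
      rw [sub_mul, zero_mul, div_mul_cancel₀ _ hv0] at h3
      rw [map_one, map_neg, ← h3]
      ring)).1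
    exact one_ne_zero h1
  have h5 : ∀ s ∈ S, χ (ε * v) * χ (u / v - algebraMap (ZMod p) K s) = 1 := by
    intro s hs
    obtain ⟨Q, hQ⟩ := (Finset.mem_filter.1 hs).2
    rw [← map_mul, ← hfac s, hχ]
    refine (quadraticChar_one_iff_isSquare ?_).2 ?_
    · rw [hfac s]
      exact mul_ne_zero (mul_ne_zero hε0 hv0) (hne s)
    · refine ⟨AdjoinRoot.mk h Q, ?_⟩
      have h6 := AdjoinRoot.mk_eq_zero.2 hQ
      rw [map_sub, map_pow, sub_eq_zero] at h6
      rw [h6, pow_two]
  have h6 : 2 * (S.card : ℤ) ≤ ∑ s : ZMod p, (1 + χ (ε * v) * χ (u / v - algebraMap (ZMod p) K s)) := by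
    have e1 : ∑ s ∈ S, (1 + χ (ε * v) * χ (u / v - algebraMap (ZMod p) K s)) ≤
        ∑ s : ZMod p, (1 + χ (ε * v) * χ (u / v - algebraMap (ZMod p) K s)) := by
      refine Finset.sum_le_sum_of_subset_of_nonneg (Finset.subset_univ _) fun s _ _ => ?_
      rw [← map_mul]
      rcases quadraticChar_dichotomy (F := K) (mul_ne_zero (mul_ne_zero hε0 hv0) (hne s)) with h8 | h8
      · rw [hχ, h8]
        norm_num
      · rw [hχ, h8]
        norm_num
    refine le_trans (le_of_eq ?_) e1
    rw [Finset.sum_congr rfl (g := fun _ => (2 : ℤ)), Finset.sum_const, nsmul_eq_mul, mul_comm]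
    intro s hs
    rw [h5 s hs]
    norm_num
  have h7 : ∑ s : ZMod p, (1 + χ (ε * v) * χ (u / v - algebraMap (ZMod p) K s)) ≤ p + 1 := by
    rw [Finset.sum_add_distrib, ← Finset.mul_sum, Finset.sum_const, Finset.card_univ, ZMod.card, ← hσ₀, hsum,
      nsmul_eq_mul, mul_one]
    rcases quadraticChar_dichotomy (F := K) (mul_ne_zero hε0 hv0) with h8 | h8
    · rw [hχ, h8]
      linarith
    · rw [hχ, h8]
      linarith
  have h8 : (2 : ℝ) * (S.card : ℝ) ≤ p + 1 := by
    have e1 := h6.trans h7
    exact_mod_cast e1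
  linarith

end O1
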