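import Pool.Agent.Lib.MP_10e784_agO.Defs
import Pool.Agent.Lib.MP_10e784_agO.LQ

/-! JOB LB.  The local densities of the conditions (B) and (C) for `(u, v)` modulo `p`, `f 1 = u`, `f 0 = v`.

`dn 1 p E` is the number of `(u, v) ∈ [0, p)²` in `E` divided by `p ^ 2`; translate to pairs in `ZMod p × ZMod p` (`c_per`, `bc_per`).
`c_dens`: for `jacobiSym n p = -1` the set is `{u² = 4 v}`, `p` elements (`p` odd); otherwise empty.
`bc_lower`: for a root `ρ` of `red p g` let `t = G1(ρ) / G2(ρ)` (`hG.cog`).  `A(ρ) = 0` iff `t² + u t + v = 0` iff `(u, v) = (-(t + σ), t σ)` for a (unique) `σ`, and then `A = (G1 - t G2)(G1 - σ G2)`.  For every other factor `h` of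
`red p g`: `h ∤ G1 - t G2` (otherwise `(G1 - t G2)(s G1 + t' G2)` is divisible by `red p g` for suitable `(s, t') ≠ 0` killing the remaining factor, which has degree at most one, contradiction to `hG.ind`), `h ∤ P` (`hP`), `h ∤ X - C ρ`.
Three roots `ρ, ρ', ρ''`: (B) at `ρ` requires that `E' (G1(ρ') - σ G2(ρ'))` and `E'' (G1(ρ'') - σ G2(ρ''))` are squares, `E', E'' ≠ 0`: `two_lin` (`G1(ρ') G2(ρ'') ≠ G1(ρ'') G2(ρ')` by `hG.ind`): at most `p / 4 + 3` values of `σ`.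
One root `ρ`: the other factor `h` is quadratic, `one_quad` with `E = (G1 - C t * G2) * P * (C ρ - X)`, `U = G1`, `V = G2` (`hUV` by `hG.ind`): at most `p / 2 + 3` values.
Two different roots (or a root and (C)): at most one pair `(u, v)` (`t ≠ t'`; `u = -2 t, v = t²`).  Total number of excluded pairs: three roots `≥ 3 (3 p / 4 - 3) - 3`, one root `≥ p / 2 - 3`, and with (C): `+ p - 3`.
`bc_upper`: the set is contained in the union over the at most three roots of `{A(ρ) = 0}` (`p` pairs each) and `{u² = 4 v}`. -/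

set_option autoImplicit false

namespace O1

open Polynomial Finset TW FQQ

/-- the density as a number of pairs of residues -/
theorem LB_dn (p : ℕ) [hp : Fact p.Prime] (R : ZMod p → ZMod p → Prop)
    [DecidablePred fun x : ZMod p × ZMod p => R x.1 x.2] :
    dn 1 p (fun f => R ((f 1 : ℤ) : ZMod p) ((f 0 : ℤ) : ZMod p)) =
      (((Finset.univ : Finset (ZMod p × ZMod p)).filter fun x => R x.1 x.2).card : ℝ) / (p : ℝ) ^ 2 := by
  classical
  unfold dn ExN
  rw [Finset.sum_boole]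
  congr 2
  refine Finset.card_bij (fun f _ => (((f 1 : ℤ) : ZMod p), ((f 0 : ℤ) : ZMod p))) ?_ ?_ ?_
  · intro f hf
    exact Finset.mem_filter.2 ⟨Finset.mem_univ _, (Finset.mem_filter.1 hf).2⟩
  · intro f hf f' hf' h
    have h1 := (Finset.mem_filter.1 hf).1
    have h2 := (Finset.mem_filter.1 hf').1
    unfold cubeN at h1 h2
    rw [Fintype.mem_piFinset] at h1 h2
    have key : ∀ i : Fin 2, ((f i : ℤ) : ZMod p) = ((f' i : ℤ) : ZMod p) → f i = f' i := fun i hi => by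
      have h3 := Finset.mem_Ico.1 (h1 i)
      have h4 := Finset.mem_Ico.1 (h2 i)
      rw [ZMod.intCast_eq_intCast_iff_dvd_sub] at hi
      obtain ⟨c, hc⟩ := hi
      have hpp : (0 : ℤ) < p := by exact_mod_cast hp.out.pos
      have h5 : c = 0 := by
        have h6 : (p : ℤ) * c < p * 1 := by linarith [h3.1, h4.2]
        have h7 : (p : ℤ) * (-1) < p * c := by linarith [h3.2, h4.1]
        have h8 := lt_of_mul_lt_mul_left h6 hpp.le
        have h9 := lt_of_mul_lt_mul_left h7 hpp.le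
        omega
      rw [h5, mul_zero] at hc
      linarith
    rw [Prod.ext_iff] at h
    funext i
    fin_cases i
    · exact key 0 h.2
    · exact key 1 h.1
  · rintro ⟨u, v⟩ hx
    refine ⟨![(v.val : ℤ), (u.val : ℤ)], Finset.mem_filter.2 ⟨?_, ?_⟩, ?_⟩
    · unfold cubeN
      rw [Fintype.mem_piFinset]
      have hu' : (0 : ℤ) ≤ (u.val : ℤ) ∧ (u.val : ℤ) < p :=
        ⟨Int.natCast_nonneg _, by exact_mod_cast ZMod.val_lt u⟩
      have hv' : (0 : ℤ) ≤ (v.val : ℤ) ∧ (v.val : ℤ) < p :=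
        ⟨Int.natCast_nonneg _, by exact_mod_cast ZMod.val_lt v⟩
      intro i
      fin_cases i
      · exact Finset.mem_Ico.2 hv'
      · exact Finset.mem_Ico.2 hu'
    · simpa using (Finset.mem_filter.1 hx).2
    · simp

theorem LB_cast {p : ℕ} {f f' : Vn 1} (h : CgN p f f') (i : Fin 2) :
    ((f i : ℤ) : ZMod p) = ((f' i : ℤ) : ZMod p) := by
  have h1 := h i
  rw [← CharP.intCast_eq_zero_iff (ZMod p) p, Int.cast_sub, sub_eq_zero] at h1
  exact h1

/-- (C) in terms of residues -/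
def LB_C (p : ℕ) (n : ℤ) (u v : ZMod p) : Prop := u ^ 2 - 4 * v = 0 → jacobiSym n p ≠ -1

theorem LB_C_iff (p : ℕ) (n u v : ℤ) : CC p n u v ↔ LB_C p n (u : ZMod p) (v : ZMod p) := by
  unfold CC LB_C
  rw [← CharP.intCast_eq_zero_iff (ZMod p) p]
  push_cast
  rfl

theorem LB_four {p : ℕ} [hp : Fact p.Prime] (h2 : p ≠ 2) : (4 : ZMod p) ≠ 0 := by
  have h : (2 : ZMod p) ≠ 0 := by
    intro h
    have h1 : ((2 : ℕ) : ZMod p) = 0 := by exact_mod_cast h
    rw [ZMod.natCast_eq_zero_iff] at h1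
    exact h2 ((Nat.prime_dvd_prime_iff_eq hp.out Nat.prime_two).1 h1)
  have e : (4 : ZMod p) = 2 * 2 := by norm_num
  rw [e]
  exact mul_ne_zero h h

/-- the parabola has `p` points -/
theorem LB_Y (p : ℕ) [hp : Fact p.Prime] (h2 : p ≠ 2)
    [DecidablePred fun x : ZMod p × ZMod p => x.1 ^ 2 - 4 * x.2 = 0] :
    ((Finset.univ : Finset (ZMod p × ZMod p)).filter fun x => x.1 ^ 2 - 4 * x.2 = 0).card = p := by
  classical
  have h4 := LB_four h2
  have e : ((Finset.univ : Finset (ZMod p × ZMod p)).filter fun x => x.1 ^ 2 - 4 * x.2 = 0)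
      = (Finset.univ : Finset (ZMod p)).image fun u => (u, u ^ 2 / 4) := by
    ext x
    simp only [Finset.mem_filter, Finset.mem_univ, true_and, Finset.mem_image]
    constructor
    · intro h
      refine ⟨x.1, Prod.ext rfl ?_⟩
      show x.1 ^ 2 / 4 = x.2
      rw [div_eq_iff h4]
      linear_combination h
    · rintro ⟨u, rfl⟩
      field_simp
      ring
  rw [e, Finset.card_image_of_injective _ fun a b h => (Prod.ext_iff.1 h).1, Finset.card_univ,
    ZMod.card]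

theorem c_per (p : ℕ) (n : ℤ) (f f' : Vn 1) (h : CgN p f f') : (CC p n (f 1) (f 0) ↔ CC p n (f' 1) (f' 0)) := by
  rw [LB_C_iff, LB_C_iff, LB_cast h 1, LB_cast h 0]

theorem bc_per (g G1 G2 : ℤ[X]) (p : ℕ) (P : (ZMod p)[X]) (n : ℤ) (f f' : Vn 1) (h : CgN p f f') :
    ((CC p n (f 1) (f 0) ∧ CB g G1 G2 p P ((f 1 : ℤ) : ZMod p) ((f 0 : ℤ) : ZMod p)) ↔
      (CC p n (f' 1) (f' 0) ∧ CB g G1 G2 p P ((f' 1 : ℤ) : ZMod p) ((f' 0 : ℤ) : ZMod p))) := by
  rw [LB_C_iff, LB_C_iff, LB_cast h 1, LB_cast h 0]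

open Classical in
theorem c_dens (p : ℕ) (hp : p.Prime) (h2 : p ≠ 2) (n : ℤ) :
    dn 1 p (fun f => ¬ CC p n (f 1) (f 0)) = if jacobiSym n p = -1 then 1 / (p : ℝ) else 0 := by
  have : Fact p.Prime := ⟨hp⟩
  have hp0 : (p : ℝ) ≠ 0 := by exact_mod_cast hp.ne_zero
  have e : (fun f : Vn 1 => ¬ CC p n (f 1) (f 0))
      = fun f => (fun u v : ZMod p => ¬ LB_C p n u v) ((f 1 : ℤ) : ZMod p) ((f 0 : ℤ) : ZMod p) := by
    funext f
    rw [LB_C_iff]
  rw [e, LB_dn p (fun u v : ZMod p => ¬ LB_C p n u v)]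
  split_ifs with hn
  · have h1 : ((Finset.univ : Finset (ZMod p × ZMod p)).filter fun x => ¬ LB_C p n x.1 x.2)
        = (Finset.univ : Finset (ZMod p × ZMod p)).filter fun x => x.1 ^ 2 - 4 * x.2 = 0 := by
      ext x
      simp only [Finset.mem_filter, Finset.mem_univ, true_and]
      unfold LB_C
      constructor
      · intro h
        by_contra h2
        exact h fun h3 => absurd h3 h2
      · intro h h2
        exact h2 h hn
    rw [h1, LB_Y p h2]
    field_simp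
  · have h1 : ((Finset.univ : Finset (ZMod p × ZMod p)).filter fun x => ¬ LB_C p n x.1 x.2) = ∅ := by
      rw [Finset.filter_eq_empty_iff]
      intro x _ h
      exact h fun _ => hn
    rw [h1]
    simp

/-- the local data -/
structure LBd (g G1 G2 : ℤ[X]) (p : ℕ) : Prop where
  gm : (red p g).Monic
  gd : (red p g).natDegree = 3
  sqf : Squarefree (red p g)
  cog : ∀ ρ : ZMod p, (red p g).eval ρ = 0 → (red p G2).eval ρ ≠ 0
  ind : ∀ x y z : ZMod p,
    red p g ∣ C x * red p G1 ^ 2 + C y * red p G1 * red p G2 + C z * red p G2 ^ 2 → x = 0 ∧ y = 0 ∧ z = 0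

theorem LBd_of {g G1 G2 : ℤ[X]} (hD : Dat g G1 G2) {P0 B : ℕ} (hG : Good g G1 G2 P0 B) (p : ℕ)
    [hp : Fact p.Prime] (hpB : ¬ p ∣ B) : LBd g G1 G2 p where
  gm := hD.gm.map _
  gd := by
    unfold red
    rw [hD.gm.natDegree_map, hD.gd]
  sqf := hG.sqf p hp.out hpB
  cog := fun ρ hρ h => by
    obtain ⟨a, b, hab⟩ := hG.cog p hp.out hpB
    have h1 := congrArg (fun P => Polynomial.eval ρ P) hab
    simp [hρ, h] at h1
  ind := hG.ind p hp.out hpB

/-- the quotient `G1 / G2` at a root -/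
noncomputable def LBt (G1 G2 : ℤ[X]) (p : ℕ) [Fact p.Prime] (ρ : ZMod p) : ZMod p :=
  (red p G1).eval ρ / (red p G2).eval ρ

section loc

variable {g G1 G2 : ℤ[X]} {p : ℕ} [hp : Fact p.Prime]

theorem LBt_eq (hL : LBd g G1 G2 p) {ρ : ZMod p} (hρ : (red p g).eval ρ = 0) :
    (red p G1).eval ρ = LBt G1 G2 p ρ * (red p G2).eval ρ := by
  unfold LBt
  rw [div_mul_cancel₀ _ (hL.cog ρ hρ)]

theorem LB_Fac {ρ : ZMod p} (hρ : (red p g).eval ρ = 0) : Fac g p (X - C ρ) :=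
  ⟨monic_X_sub_C ρ, irreducible_X_sub_C ρ, dvd_iff_isRoot.2 hρ⟩

/-- two roots: there is a third one -/
theorem LB_three (hL : LBd g G1 G2 p) {ρ ρ' : ZMod p} (hρ : (red p g).eval ρ = 0)
    (hρ' : (red p g).eval ρ' = 0) (hne : ρ ≠ ρ') :
    ∃ ρ'' : ZMod p, ρ'' ≠ ρ ∧ ρ'' ≠ ρ' ∧ red p g = (X - C ρ) * (X - C ρ') * (X - C ρ'') := by
  have hcop : IsCoprime (X - C ρ) (X - C ρ' : (ZMod p)[X]) := isCoprime_X_sub_C_of_isUnit_sub
    (isUnit_iff_ne_zero.2 (sub_ne_zero.2 hne))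
  obtain ⟨q, hq⟩ := hcop.mul_dvd (dvd_iff_isRoot.2 hρ) (dvd_iff_isRoot.2 hρ')
  have hm2 : ((X - C ρ) * (X - C ρ') : (ZMod p)[X]).Monic := (monic_X_sub_C ρ).mul (monic_X_sub_C ρ')
  have hqm : q.Monic := by
    have h1 := hL.gm
    rw [hq] at h1
    exact hm2.of_mul_monic_left h1
  have hqd : q.natDegree = 1 := by
    have h1 := hL.gd
    rw [hq, hm2.natDegree_mul hqm, (monic_X_sub_C ρ).natDegree_mul (monic_X_sub_C ρ'),
      natDegree_X_sub_C, natDegree_X_sub_C] at h1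
    omega
  have hq1 : q = X - C (-(q.coeff 0)) := by
    conv_lhs => rw [hqm.eq_X_add_C hqd]
    rw [C_neg, sub_neg_eq_add]
  refine ⟨-(q.coeff 0), ?_, ?_, by rw [hq, ← hq1]⟩
  · intro h
    rw [h] at hq1
    have h1 := hL.sqf (X - C ρ) ⟨X - C ρ', by rw [hq, hq1]; ring⟩
    exact (irreducible_X_sub_C ρ).not_isUnit h1
  · intro h
    rw [h] at hq1
    have h1 := hL.sqf (X - C ρ') ⟨X - C ρ, by rw [hq, hq1]; ring⟩
    exact (irreducible_X_sub_C ρ').not_isUnit h1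

/-- the quotients at different roots are different -/
theorem LBt_ne (hL : LBd g G1 G2 p) {ρ ρ' : ZMod p} (hρ : (red p g).eval ρ = 0)
    (hρ' : (red p g).eval ρ' = 0) (hne : ρ ≠ ρ') : LBt G1 G2 p ρ ≠ LBt G1 G2 p ρ' := by
  intro ht
  obtain ⟨ρ'', h1, h2, h3⟩ := LB_three hL hρ hρ' hne
  have hρ'' : (red p g).eval ρ'' = 0 := by rw [h3]; simp
  have hcop : IsCoprime (X - C ρ) (X - C ρ' : (ZMod p)[X]) := isCoprime_X_sub_C_of_isUnit_sub
    (isUnit_iff_ne_zero.2 (sub_ne_zero.2 hne))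
  have d1 : (X - C ρ) * (X - C ρ') ∣ red p G1 - C (LBt G1 G2 p ρ) * red p G2 := by
    refine hcop.mul_dvd (dvd_iff_isRoot.2 ?_) (dvd_iff_isRoot.2 ?_)
    · show eval ρ _ = 0
      rw [eval_sub, eval_mul, eval_C, LBt_eq hL hρ, sub_self]
    · show eval ρ' _ = 0
      rw [eval_sub, eval_mul, eval_C, LBt_eq hL hρ', ht, sub_self]
  have d2 : (X - C ρ'') ∣ red p G1 - C (LBt G1 G2 p ρ'') * red p G2 := by
    refine dvd_iff_isRoot.2 ?_
    show eval ρ'' _ = 0
    rw [eval_sub, eval_mul, eval_C, LBt_eq hL hρ'', sub_self]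
  have d3 := mul_dvd_mul d1 d2
  rw [← h3] at d3
  have h4 := hL.ind 1 (-(LBt G1 G2 p ρ + LBt G1 G2 p ρ'')) (LBt G1 G2 p ρ * LBt G1 G2 p ρ'') (by
    convert d3 using 1
    rw [C_1, C_neg, C_add, C_mul]
    ring)
  exact one_ne_zero h4.1

/-- the condition (B) at the root `ρ` -/
def LBg (g G1 G2 : ℤ[X]) (p : ℕ) [Fact p.Prime] (P : (ZMod p)[X]) (ρ σ : ZMod p) : Prop :=
  ∀ h, Fac g p h → h ≠ X - C ρ →
    ¬ h ∣ AA (red p G1) (red p G2) (-(LBt G1 G2 p ρ + σ)) (LBt G1 G2 p ρ * σ) ∧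
      ∃ Q : (ZMod p)[X],
        h ∣ AA (red p G1) (red p G2) (-(LBt G1 G2 p ρ + σ)) (LBt G1 G2 p ρ * σ) * P * (C ρ - X) - Q ^ 2

theorem LB_AA (t σ : ZMod p) : AA (red p G1) (red p G2) (-(t + σ)) (t * σ)
    = (red p G1 - C t * red p G2) * (red p G1 - C σ * red p G2) := by
  unfold AA
  rw [C_neg, C_add, C_mul]
  ring

open Classical in
theorem LB_good3 (hL : LBd g G1 G2 p) (h2 : p ≠ 2) {P : (ZMod p)[X]} (hP : ¬ Van g p P)
    {ρ ρ' : ZMod p} (hρ : (red p g).eval ρ = 0) (hρ' : (red p g).eval ρ' = 0) (hne : ρ ≠ ρ') :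
    ((((Finset.univ : Finset (ZMod p)).filter fun σ => LBg g G1 G2 p P ρ σ).card : ℕ) : ℝ)
      ≤ (p : ℝ) / 4 + 3 := by
  obtain ⟨ρ'', h3, h4, h5⟩ := LB_three hL hρ hρ' hne
  have hρ'' : (red p g).eval ρ'' = 0 := by rw [h5]; simp
  have hP' : ∀ x : ZMod p, (red p g).eval x = 0 → P.eval x ≠ 0 := fun x hx h =>
    hP ⟨X - C x, LB_Fac hx, dvd_iff_isRoot.2 h⟩
  obtain ⟨E, hE⟩ : ∃ E : ZMod p → ZMod p, E = fun x =>
    ((red p G1).eval x - LBt G1 G2 p ρ * (red p G2).eval x) * P.eval x * (ρ - x) := ⟨_, rfl⟩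
  have hE0 : ∀ x : ZMod p, (red p g).eval x = 0 → ρ ≠ x → E x ≠ 0 := fun x hx hne' => by
    rw [hE]
    refine mul_ne_zero (mul_ne_zero ?_ (hP' x hx)) (sub_ne_zero.2 hne')
    rw [LBt_eq hL hx, ← sub_mul]
    exact mul_ne_zero (sub_ne_zero.2 (LBt_ne hL hx hρ (Ne.symm hne'))) (hL.cog x hx)
  have key : ∀ x : ZMod p, (red p g).eval x = 0 → ρ ≠ x → ∀ σ, LBg g G1 G2 p P ρ σ →
      IsSquare (E x * (red p G1).eval x + -(E x * (red p G2).eval x) * σ) := by
    intro x hx hne' σ hσ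
    obtain ⟨-, Q, hQ⟩ := hσ (X - C x) (LB_Fac hx) (fun h => hne' (by
      have h6 := congrArg (fun P => Polynomial.eval ρ P) h
      simp only [eval_sub, eval_X, eval_C, sub_self] at h6
      exact sub_eq_zero.1 h6))
    rw [LB_AA, dvd_iff_isRoot] at hQ
    have h7 : Polynomial.eval x _ = 0 := hQ
    simp only [eval_sub, eval_mul, eval_pow, eval_C, eval_X] at h7
    refine ⟨Q.eval x, ?_⟩
    rw [hE]
    linear_combination h7
  refine le_trans ?_ (two_lin p h2 (E ρ' * (red p G1).eval ρ') (-(E ρ' * (red p G2).eval ρ'))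
    (E ρ'' * (red p G1).eval ρ'') (-(E ρ'' * (red p G2).eval ρ''))
    (neg_ne_zero.2 (mul_ne_zero (hE0 ρ' hρ' hne) (hL.cog ρ' hρ')))
    (neg_ne_zero.2 (mul_ne_zero (hE0 ρ'' hρ'' (Ne.symm h3)) (hL.cog ρ'' hρ''))) ?_)
  · exact_mod_cast Finset.card_le_card fun σ hσ => by
      have h8 := (Finset.mem_filter.1 hσ).2
      exact Finset.mem_filter.2 ⟨Finset.mem_univ _, key ρ' hρ' hne σ h8,
        key ρ'' hρ'' (Ne.symm h3) σ h8⟩
  · intro h
    rw [LBt_eq hL hρ', LBt_eq hL hρ''] at h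
    have h9 : E ρ' * E ρ'' * (red p G2).eval ρ' * (red p G2).eval ρ''
        * (LBt G1 G2 p ρ' - LBt G1 G2 p ρ'') = 0 := by linear_combination -h
    rcases mul_eq_zero.1 h9 with h10 | h10
    · exact mul_ne_zero (mul_ne_zero (mul_ne_zero (hE0 ρ' hρ' hne) (hE0 ρ'' hρ'' (Ne.symm h3)))
        (hL.cog ρ' hρ')) (hL.cog ρ'' hρ'') h10
    · exact LBt_ne hL hρ' hρ'' (Ne.symm h4) (sub_eq_zero.1 h10)

/-- one root: the other factor is quadratic -/
theorem LB_one (hL : LBd g G1 G2 p) {ρ : ZMod p} (hρ : (red p g).eval ρ = 0)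
    (huni : ∀ x : ZMod p, (red p g).eval x = 0 → x = ρ) :
    ∃ h : (ZMod p)[X], h.Monic ∧ Irreducible h ∧ h.natDegree = 2 ∧ red p g = (X - C ρ) * h := by
  obtain ⟨h, hh⟩ := dvd_iff_isRoot.2 (show (red p g).IsRoot ρ from hρ)
  have hm : h.Monic := by
    have h1 := hL.gm
    rw [hh] at h1
    exact (monic_X_sub_C ρ).of_mul_monic_left h1
  have hd : h.natDegree = 2 := by
    have h1 := hL.gd
    rw [hh, (monic_X_sub_C ρ).natDegree_mul hm, natDegree_X_sub_C] at h1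
    omega
  refine ⟨h, hm, ?_, hd, hh⟩
  rw [hm.irreducible_iff_roots_eq_zero_of_degree_le_three (by omega) (by omega),
    Multiset.eq_zero_iff_forall_notMem]
  intro x hx
  have hx0 : h.eval x = 0 := (mem_roots'.1 hx).2
  have h1 : (red p g).eval x = 0 := by rw [hh, eval_mul, hx0, mul_zero]
  have h3 := huni x h1
  rw [h3] at hx0
  obtain ⟨q, hq⟩ := dvd_iff_isRoot.2 (show h.IsRoot ρ from hx0)
  have h4 := hL.sqf (X - C ρ) ⟨q, by rw [hh, hq]; ring⟩
  exact (irreducible_X_sub_C ρ).not_isUnit h4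

open Classical in
theorem LB_good1 (hL : LBd g G1 G2 p) (h2 : p ≠ 2) {P : (ZMod p)[X]} (hP : ¬ Van g p P)
    {ρ : ZMod p} (hρ : (red p g).eval ρ = 0)
    (huni : ∀ x : ZMod p, (red p g).eval x = 0 → x = ρ) :
    ((((Finset.univ : Finset (ZMod p)).filter fun σ => LBg g G1 G2 p P ρ σ).card : ℕ) : ℝ)
      ≤ (p : ℝ) / 2 + 3 := by
  obtain ⟨h, hm, hi, hd, hh⟩ := LB_one hL hρ huni
  have hFac : Fac g p h := ⟨hm, hi, Dvd.intro_left _ hh.symm⟩
  have hprime : Prime h := hi.prime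
  have hdX : ∀ x : ZMod p, ¬ h ∣ X - C x := fun x hx => by
    have h1 := natDegree_le_of_dvd hx (X_sub_C_ne_zero x)
    rw [hd, natDegree_X_sub_C] at h1
    omega
  have hne : h ≠ X - C ρ := fun h1 => hdX ρ (h1 ▸ dvd_rfl)
  have hcop : IsCoprime (X - C ρ) h := by
    refine (irreducible_X_sub_C ρ).coprime_iff_not_dvd.2 fun h1 => ?_
    obtain ⟨q, hq⟩ := h1
    have h4 := hL.sqf (X - C ρ) ⟨q, by rw [hh, hq]; ring⟩
    exact (irreducible_X_sub_C ρ).not_isUnit h4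
  have hX : (X - C ρ) ∣ red p G1 - C (LBt G1 G2 p ρ) * red p G2 := by
    refine dvd_iff_isRoot.2 ?_
    show eval ρ _ = 0
    rw [eval_sub, eval_mul, eval_C, LBt_eq hL hρ, sub_self]
  have hL1 : ¬ h ∣ red p G1 - C (LBt G1 G2 p ρ) * red p G2 := by
    intro h1
    have h3 := hcop.mul_dvd hX h1
    rw [← hh] at h3
    have h4 := hL.ind 1 (-(LBt G1 G2 p ρ)) 0 (by
      convert Dvd.dvd.mul_left h3 (red p G1) using 1
      rw [C_1, C_neg, C_0]
      ring)
    exact one_ne_zero h4.1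
  have hP1 : ¬ h ∣ P := fun h1 => hP ⟨h, hFac, h1⟩
  refine le_trans ?_ (one_quad p h2 h hm hi hd
    ((red p G1 - C (LBt G1 G2 p ρ) * red p G2) * P * (C ρ - X)) (red p G1) (red p G2) ?_ ?_)
  · exact_mod_cast Finset.card_le_card fun σ hσ => by
      obtain ⟨-, Q, hQ⟩ := (Finset.mem_filter.1 hσ).2 h hFac hne
      refine Finset.mem_filter.2 ⟨Finset.mem_univ _, Q, ?_⟩
      rw [LB_AA] at hQ
      convert hQ using 1
      ring
  · intro h1
    rcases hprime.dvd_or_dvd h1 with h3 | h3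
    · rcases hprime.dvd_or_dvd h3 with h4 | h4
      · exact hL1 h4
      · exact hP1 h4
    · refine hdX ρ ?_
      rw [← neg_sub, dvd_neg]
      exact h3
  · intro s t h1
    have h3 := mul_dvd_mul hX h1
    rw [← hh] at h3
    have h4 := hL.ind s (t - s * LBt G1 G2 p ρ) (-(LBt G1 G2 p ρ * t)) (by
      convert h3 using 1
      rw [C_sub, C_neg, C_mul, C_mul]
      ring)
    refine ⟨h4.1, ?_⟩
    have h5 := h4.2.1
    rw [h4.1, zero_mul, sub_zero] at h5
    exact h5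

open Classical in
/-- the roots -/
noncomputable def LBr (g : ℤ[X]) (p : ℕ) [Fact p.Prime] : Finset (ZMod p) :=
  Finset.univ.filter fun ρ => (red p g).eval ρ = 0

theorem LBr_card (hL : LBd g G1 G2 p) : (LBr g p).card ≤ 3 := by
  classical
  have h1 : LBr g p ⊆ (red p g).roots.toFinset := fun ρ hρ => by
    have h2 := (Finset.mem_filter.1 hρ).2
    rw [Multiset.mem_toFinset, mem_roots hL.gm.ne_zero]
    exact h2
  have h3 := (Finset.card_le_card h1).trans (Multiset.toFinset_card_le _)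
  have h4 := card_roots' (red p g)
  rw [hL.gd] at h4
  omega

theorem LBr_rt : PT.rt g p = (LBr g p).card := by
  classical
  unfold PT.rt LBr
  rw [Nat.card_eq_fintype_card, Fintype.card_subtype]
  rfl

/-- the pair with the quotient at `ρ` and `σ` as roots -/
noncomputable def LBf (G1 G2 : ℤ[X]) (p : ℕ) [Fact p.Prime] (ρ σ : ZMod p) : ZMod p × ZMod p :=
  (-(LBt G1 G2 p ρ + σ), LBt G1 G2 p ρ * σ)

open Classical in
/-- the excluded pairs -/
noncomputable def LBE (g G1 G2 : ℤ[X]) (p : ℕ) [Fact p.Prime] (P : (ZMod p)[X]) (n : ℤ) :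
    Finset (ZMod p × ZMod p) :=
  Finset.univ.filter fun x => ¬ (LB_C p n x.1 x.2 ∧ CB g G1 G2 p P x.1 x.2)

theorem LBE_dn (P : (ZMod p)[X]) (n : ℤ) :
    dn 1 p (fun f => ¬ (CC p n (f 1) (f 0) ∧ CB g G1 G2 p P ((f 1 : ℤ) : ZMod p) ((f 0 : ℤ) : ZMod p)))
      = ((LBE g G1 G2 p P n).card : ℝ) / (p : ℝ) ^ 2 := by
  classical
  have e : (fun f : Vn 1 => ¬ (CC p n (f 1) (f 0)
        ∧ CB g G1 G2 p P ((f 1 : ℤ) : ZMod p) ((f 0 : ℤ) : ZMod p)))
      = fun f => (fun u v : ZMod p => ¬ (LB_C p n u v ∧ CB g G1 G2 p P u v))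
        ((f 1 : ℤ) : ZMod p) ((f 0 : ℤ) : ZMod p) := by
    funext f
    rw [LB_C_iff]
  rw [e, LB_dn p (fun u v : ZMod p => ¬ (LB_C p n u v ∧ CB g G1 G2 p P u v))]
  unfold LBE
  congr

theorem LB_lower (hL : LBd g G1 G2 p) (h2 : p ≠ 2) {P : (ZMod p)[X]} (hP : ¬ Van g p P) (n : ℤ) :
    ew g p * (p : ℝ) + (if jacobiSym n p = -1 then (p : ℝ) else 0) - 18
      ≤ ((LBE g G1 G2 p P n).card : ℝ) := by
  classical
  obtain ⟨T, hT⟩ : ∃ T, T = (LBr g p).image (LBt G1 G2 p) := ⟨_, rfl⟩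
  have hTm : ∀ ρ ∈ LBr g p, LBt G1 G2 p ρ ∈ T := fun ρ hρ => by
    rw [hT]
    exact Finset.mem_image_of_mem _ hρ
  have hT3 : T.card ≤ 3 := by
    rw [hT]
    exact Finset.card_image_le.trans (LBr_card hL)
  obtain ⟨S, hS⟩ : ∃ S : ZMod p → Finset (ZMod p), S = fun ρ => Finset.univ.filter fun σ =>
    σ ∉ T ∧ ¬ LBg g G1 G2 p P ρ σ := ⟨_, rfl⟩
  obtain ⟨Y, hY⟩ : ∃ Y : Finset (ZMod p × ZMod p), Y = if jacobiSym n p = -1 then
    (Finset.univ.filter fun x : ZMod p × ZMod p => x.1 ^ 2 - 4 * x.2 = 0) else ∅ := ⟨_, rfl⟩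
  have hYc : (Y.card : ℝ) = if jacobiSym n p = -1 then (p : ℝ) else 0 := by
    rw [hY]
    split_ifs
    · rw [LB_Y p h2]
    · simp
  have hYm : ∀ x ∈ Y, jacobiSym n p = -1 ∧ x.1 ^ 2 - 4 * x.2 = 0 := fun x hx => by
    rw [hY] at hx
    split_ifs at hx with hn
    · exact ⟨hn, (Finset.mem_filter.1 hx).2⟩
    · exact absurd hx (Finset.notMem_empty _)
  -- the pairs coming from the roots
  obtain ⟨I, hI⟩ : ∃ I : Finset (ZMod p × ZMod p), I = ((LBr g p).sigma S).image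
    fun x => LBf G1 G2 p x.1 x.2 := ⟨_, rfl⟩
  have hIc : I.card = ∑ ρ ∈ LBr g p, (S ρ).card := by
    rw [hI, Finset.card_image_of_injOn, Finset.card_sigma]
    rintro ⟨ρ, σ⟩ hx ⟨ρ', σ'⟩ hx' h
    rw [Finset.mem_coe, Finset.mem_sigma] at hx hx'
    dsimp only at hx hx' h
    have h1 := congrArg Prod.fst h
    have h3 := congrArg Prod.snd h
    unfold LBf at h1 h3
    dsimp only at h1 h3
    have h4 : (LBt G1 G2 p ρ' - LBt G1 G2 p ρ) * (LBt G1 G2 p ρ' - σ) = 0 := by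
      linear_combination LBt G1 G2 p ρ' * h1 + h3
    have h5 : LBt G1 G2 p ρ' - σ ≠ 0 := fun h6 => by
      have h7 := hx.2
      rw [hS] at h7
      exact (Finset.mem_filter.1 h7).2.1 (by rw [← sub_eq_zero.1 h6]; exact hTm ρ' hx'.1)
    have h6 : LBt G1 G2 p ρ' = LBt G1 G2 p ρ := sub_eq_zero.1 ((mul_eq_zero.1 h4).resolve_right h5)
    have h7 : ρ = ρ' := by
      by_contra hne
      exact LBt_ne hL (Finset.mem_filter.1 hx.1).2 (Finset.mem_filter.1 hx'.1).2 hne h6.symm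
    subst h7
    have h8 : σ = σ' := by linear_combination -h1
    rw [h8]
  have hIE : I ⊆ LBE g G1 G2 p P n := fun x hx => by
    rw [hI, Finset.mem_image] at hx
    obtain ⟨⟨ρ, σ⟩, hx, rfl⟩ := hx
    rw [Finset.mem_sigma] at hx
    obtain ⟨hρ, hσ⟩ := hx
    dsimp only at hρ hσ ⊢
    rw [hS] at hσ
    have h1 := (Finset.mem_filter.1 hσ).2.2
    have hρ0 := (Finset.mem_filter.1 hρ).2
    refine Finset.mem_filter.2 ⟨Finset.mem_univ _, fun h3 => h1 ?_⟩
    refine h3.2 ρ hρ0 ?_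
    show eval ρ (AA (red p G1) (red p G2) (-(LBt G1 G2 p ρ + σ)) (LBt G1 G2 p ρ * σ)) = 0
    rw [LB_AA, eval_mul, eval_sub, eval_mul, eval_C, LBt_eq hL hρ0, sub_self, zero_mul]
  have hYE : Y ⊆ LBE g G1 G2 p P n := fun x hx => by
    obtain ⟨h1, h3⟩ := hYm x hx
    exact Finset.mem_filter.2 ⟨Finset.mem_univ _, fun h4 => h4.1 h3 h1⟩
  have hdis : Disjoint I Y := by
    rw [Finset.disjoint_left]
    intro x hx hy
    rw [hI, Finset.mem_image] at hx
    obtain ⟨⟨ρ, σ⟩, hx, rfl⟩ := hx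
    rw [Finset.mem_sigma] at hx
    obtain ⟨hρ, hσ⟩ := hx
    dsimp only at hρ hσ hy
    have h1 := (hYm _ hy).2
    unfold LBf at h1
    dsimp only at h1
    have h3 : (LBt G1 G2 p ρ - σ) ^ 2 = 0 := by linear_combination h1
    have h4 := sub_eq_zero.1 (pow_eq_zero_iff (two_ne_zero) |>.1 h3)
    rw [hS] at hσ
    exact (Finset.mem_filter.1 hσ).2.1 (by rw [← h4]; exact hTm ρ hρ)
  have hcard : I.card + Y.card ≤ (LBE g G1 G2 p P n).card := by
    rw [← Finset.card_union_of_disjoint hdis]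
    exact Finset.card_le_card (Finset.union_subset hIE hYE)
  have hcardR : ((∑ ρ ∈ LBr g p, (S ρ).card : ℕ) : ℝ) + (Y.card : ℝ)
      ≤ ((LBE g G1 G2 p P n).card : ℝ) := by
    rw [← hIc]
    exact_mod_cast hcard
  -- the number of `σ` for one root
  have hSc : ∀ ρ, (p : ℝ) - ((Finset.univ.filter fun σ => LBg g G1 G2 p P ρ σ).card : ℝ) - 3
      ≤ ((S ρ).card : ℝ) := fun ρ => by
    have h1 : (Finset.univ : Finset (ZMod p)) ⊆ (S ρ ∪ T) ∪ Finset.univ.filter fun σ =>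
        LBg g G1 G2 p P ρ σ := fun σ _ => by
      rw [Finset.mem_union, Finset.mem_union, hS]
      simp only [Finset.mem_filter, Finset.mem_univ, true_and]
      by_cases h5 : LBg g G1 G2 p P ρ σ
      · exact Or.inr h5
      · by_cases h6 : σ ∈ T
        · exact Or.inl (Or.inr h6)
        · exact Or.inl (Or.inl ⟨h6, h5⟩)
    have h3 := (Finset.card_le_card h1).trans ((Finset.card_union_le _ _).trans
      (Nat.add_le_add_right (Finset.card_union_le _ _) _))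
    rw [Finset.card_univ, ZMod.card] at h3
    have h4 : (p : ℝ) ≤ ((S ρ).card : ℝ) + (T.card : ℝ)
        + ((Finset.univ.filter fun σ => LBg g G1 G2 p P ρ σ).card : ℝ) := by exact_mod_cast h3
    have h5 : (T.card : ℝ) ≤ 3 := by exact_mod_cast hT3
    linarith
  have hroot : ∀ ρ ∈ LBr g p, (red p g).eval ρ = 0 := fun ρ hρ => (Finset.mem_filter.1 hρ).2
  have hroot' : ∀ ρ, (red p g).eval ρ = 0 → ρ ∈ LBr g p := fun ρ hρ =>
    Finset.mem_filter.2 ⟨Finset.mem_univ _, hρ⟩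
  have hp0 : (0 : ℝ) < p := by exact_mod_cast hp.out.pos
  have hmain : ew g p * (p : ℝ) - 18 ≤ ((∑ ρ ∈ LBr g p, (S ρ).card : ℕ) : ℝ) := by
    have hc3 := LBr_card hL
    unfold ew
    rw [LBr_rt]
    rcases Nat.eq_zero_or_pos (LBr g p).card with h0 | h0
    · rw [h0]
      refine le_trans ?_ (Nat.cast_nonneg _)
      norm_num
    · by_cases h1 : (LBr g p).card = 1
      · obtain ⟨ρ, hρ⟩ := Finset.card_eq_one.1 h1
        have h3 := LB_good1 hL h2 hP (hroot ρ (by rw [hρ]; exact Finset.mem_singleton_self _))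
          (fun x hx => by
            have h4 := hroot' x hx
            rw [hρ] at h4
            exact Finset.mem_singleton.1 h4)
        have h5 := hSc ρ
        rw [h1, hρ, Finset.sum_singleton, if_pos rfl]
        push_cast
        linarith
      · obtain ⟨ρ₁, hρ₁, ρ₂, hρ₂, hne⟩ := Finset.one_lt_card.1
          (show 1 < (LBr g p).card by omega)
        have h3 : (LBr g p).card = 3 := by
          obtain ⟨ρ₃, h4, h5, h6⟩ := LB_three hL (hroot ρ₁ hρ₁) (hroot ρ₂ hρ₂) hne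
          have h7 : ({ρ₁, ρ₂, ρ₃} : Finset (ZMod p)) ⊆ LBr g p := by
            intro x hx
            rw [Finset.mem_insert, Finset.mem_insert, Finset.mem_singleton] at hx
            rcases hx with rfl | rfl | rfl
            · exact hρ₁
            · exact hρ₂
            · exact hroot' _ (by rw [h6]; simp)
          have h8 := Finset.card_le_card h7
          rw [Finset.card_eq_three.2 ⟨ρ₁, ρ₂, ρ₃, hne, Ne.symm h4, Ne.symm h5, rfl⟩] at h8
          omega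
        have h4 : ∀ ρ ∈ LBr g p, (3 / 4 * (p : ℝ) - 6) ≤ ((S ρ).card : ℝ) := fun ρ hρ => by
          obtain ⟨ρ', hρ', hne'⟩ : ∃ ρ' ∈ LBr g p, ρ ≠ ρ' := by
            by_cases h5 : ρ = ρ₁
            · exact ⟨ρ₂, hρ₂, by rw [h5]; exact hne⟩
            · exact ⟨ρ₁, hρ₁, h5⟩
          have h6 := LB_good3 hL h2 hP (hroot ρ hρ) (hroot ρ' hρ') hne'
          have h7 := hSc ρ
          linarith
        have h5 := Finset.card_nsmul_le_sum (LBr g p) (fun ρ => ((S ρ).card : ℝ)) _ h4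
        rw [h3] at h5
        rw [h3, if_neg (by norm_num)]
        push_cast
        rw [nsmul_eq_mul] at h5
        push_cast at h5
        linarith
  rw [← hYc]
  linarith

theorem LB_upper (hL : LBd g G1 G2 p) (h2 : p ≠ 2) (P : (ZMod p)[X]) (n : ℤ) :
    ((LBE g G1 G2 p P n).card : ℝ) ≤ 4 * (p : ℝ) := by
  classical
  have h1 : LBE g G1 G2 p P n ⊆ ((LBr g p ×ˢ (Finset.univ : Finset (ZMod p))).image
      fun x => LBf G1 G2 p x.1 x.2) ∪
      Finset.univ.filter fun x : ZMod p × ZMod p => x.1 ^ 2 - 4 * x.2 = 0 := by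
    intro x hx
    have h3 := (Finset.mem_filter.1 hx).2
    rw [Finset.mem_union]
    by_cases hc : LB_C p n x.1 x.2
    · left
      have h4 : ¬ CB g G1 G2 p P x.1 x.2 := fun h => h3 ⟨hc, h⟩
      unfold CB at h4
      push Not at h4
      obtain ⟨r, hr, hA, -⟩ := h4
      have h5 := hL.cog r hr
      have h6 : LBt G1 G2 p r ^ 2 + x.1 * LBt G1 G2 p r + x.2 = 0 := by
        unfold AA at hA
        simp only [eval_add, eval_mul, eval_pow, eval_C] at hA
        rw [LBt_eq hL hr] at hA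
        have h7 : (red p G2).eval r ^ 2 * (LBt G1 G2 p r ^ 2 + x.1 * LBt G1 G2 p r + x.2) = 0 := by
          linear_combination hA
        exact (mul_eq_zero.1 h7).resolve_left (pow_ne_zero _ h5)
      refine Finset.mem_image.2 ⟨(r, -x.1 - LBt G1 G2 p r), ?_, ?_⟩
      · exact Finset.mem_product.2 ⟨Finset.mem_filter.2 ⟨Finset.mem_univ _, hr⟩, Finset.mem_univ _⟩
      · unfold LBf
        refine Prod.ext ?_ ?_
        · dsimp only
          ring
        · dsimp only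
          linear_combination -h6
    · right
      unfold LB_C at hc
      push Not at hc
      exact Finset.mem_filter.2 ⟨Finset.mem_univ _, hc.1⟩
  have h3 := (Finset.card_le_card h1).trans ((Finset.card_union_le _ _).trans
    (Nat.add_le_add_right Finset.card_image_le _))
  rw [LB_Y p h2, Finset.card_product, Finset.card_univ, ZMod.card] at h3
  have h4 := Nat.mul_le_mul_right p (LBr_card hL)
  have h5 : (LBE g G1 G2 p P n).card ≤ 4 * p := by omega
  exact_mod_cast h5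

end loc

open Classical in
theorem bc_lower {g G1 G2 : ℤ[X]} (hD : Dat g G1 G2) {P0 B : ℕ} (hG : Good g G1 G2 P0 B) (p : ℕ) (hp : p.Prime)
    (hpB : ¬ p ∣ B) (P : (ZMod p)[X]) (hP : ¬ Van g p P) (n : ℤ) :
    ew g p / (p : ℝ) + (if jacobiSym n p = -1 then 1 / (p : ℝ) else 0) - 100 / (p : ℝ) ^ 2 ≤
      dn 1 p (fun f => ¬ (CC p n (f 1) (f 0) ∧ CB g G1 G2 p P ((f 1 : ℤ) : ZMod p) ((f 0 : ℤ) : ZMod p))) := by
  have : Fact p.Prime := ⟨hp⟩
  have h2 : p ≠ 2 := fun h => hpB (h ▸ hG.two)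
  have h3 := LB_lower (LBd_of hD hG p hpB) h2 hP n
  have hp0 : (0 : ℝ) < p := by exact_mod_cast hp.pos
  rw [LBE_dn, le_div_iff₀ (by positivity)]
  refine le_trans (le_of_eq ?_) ((sub_le_sub_left (show (18 : ℝ) ≤ 100 by norm_num) _).trans h3)
  split_ifs
  · field_simp
  · field_simp
    ring

theorem bc_upper {g G1 G2 : ℤ[X]} (hD : Dat g G1 G2) {P0 B : ℕ} (hG : Good g G1 G2 P0 B) (p : ℕ) (hp : p.Prime)
    (hpB : ¬ p ∣ B) (P : (ZMod p)[X]) (n : ℤ) :
    dn 1 p (fun f => ¬ (CC p n (f 1) (f 0) ∧ CB g G1 G2 p P ((f 1 : ℤ) : ZMod p) ((f 0 : ℤ) : ZMod p))) ≤ 10 / (p : ℝ) := by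
  have : Fact p.Prime := ⟨hp⟩
  have h2 : p ≠ 2 := fun h => hpB (h ▸ hG.two)
  have h3 := LB_upper (LBd_of hD hG p hpB) h2 P n
  have hp0 : (0 : ℝ) < p := by exact_mod_cast hp.pos
  rw [LBE_dn, div_le_div_iff₀ (by positivity) hp0]
  nlinarith

end O1
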