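import Pool.Agent.Lib.MP_10e784_agO.Defs
import Pool.Agent.Lib.MP_10e784_ag.TW.TWCrt
import Pool.Agent.Lib.MP_10e784_ag.TW.TWCoset

/-! JOB LS.  The local density of the SELF condition for `δ` modulo `p`.

`dn 2 p E` is the number of vectors in `[0, p)³` in `E` divided by `p ^ 3`; `δ ↦ red p (Pf δ)` is a bijection from `[0, p)³` to the polynomials of degree less than three over `F = ZMod p`, that is to `F[X] / (red p g)`, which by the Chinese remainder theorem is the product of the
fields `F[X] / (h)`, `h` the factors (`red p g` squarefree).  (Models: `TW/TWCnt.lean`, `TWCrt.lean`, `TWFacs.lean`, where the same condition with an additional factor `s` is counted.)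
Three roots: the coordinates are the three values (Lagrange): the vectors with exactly one value zero, at `ρ`, are `p ^ 3 * (1 / p) (1 - 1 / p) ^ 2`, and among them exactly a quarter (`p` odd) satisfies that `δ(ρ') (ρ - ρ')` and `δ(ρ'') (ρ - ρ'')` are squares; so the excluded proportion
is at least `3 * (3 / 4) * (1 / p) (1 - 1 / p) ^ 2 ≥ (9 / 4) / p - (9 / 2) / p ^ 2`.
One root `ρ` and a quadratic factor: value zero at `ρ`, nonzero at `h`: `(1 / p) (1 - 1 / p ^ 2)`, half of them are squares at `h`: excluded at least `(1 / 2) (1 / p) (1 - 1 / p ^ 2)`.  No root: nothing to prove (`ew = 0`).  `rt = 2` is impossible.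
`self_upper`: excluded vectors vanish at some factor: at most `∑_h p ^ (- deg h) ≤ 3 / p`. -/

set_option autoImplicit false

namespace O1

open Polynomial Finset TW FQQ

/-- the reduction of the polynomial of a vector -/
theorem LS_red (p : ℕ) (δ : Vn 2) : red p (Pf δ) = ∑ c : Fin 3, C (cN p δ c) * X ^ (c : ℕ) := by
  unfold red Pf
  rw [Polynomial.map_sum]
  refine Finset.sum_congr rfl fun i _ => ?_
  rw [Polynomial.map_mul, Polynomial.map_pow, map_C, map_X]
  rfl

theorem self_per (g : ℤ[X]) (p : ℕ) (δ δ' : Vn 2) (h : CgN p δ δ') :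
    (Self g p (red p (Pf δ)) ↔ Self g p (red p (Pf δ'))) := by
  have h1 : cN p δ = cN p δ' := by
    funext i
    exact ((ZMod.intCast_eq_intCast_iff_dvd_sub _ _ _).2 (by
      rw [← neg_sub, dvd_neg]
      exact h i))
  rw [LS_red, LS_red, h1]

/-- densities as cardinalities -/
theorem LS_dn (p : ℕ) [Fact p.Prime] (E : Vn 2 → Prop) (E' : (Fin 3 → ZMod p) → Prop)
    (h : ∀ δ, E δ ↔ E' (cN p δ)) : dn 2 p E = (Nat.card {w // E' w} : ℝ) / (p : ℝ) ^ 3 := by
  classical
  have hmem : ∀ x : ZMod p, ((x.val : ℕ) : ℤ) ∈ Ico (0 : ℤ) (p : ℤ) := fun x => by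
    rw [mem_Ico]
    exact ⟨Int.natCast_nonneg _, by exact_mod_cast ZMod.val_lt x⟩
  have hcast : ∀ x : ZMod p, (((x.val : ℕ) : ℤ) : ZMod p) = x := fun x => by
    rw [Int.cast_natCast, ZMod.natCast_zmod_val]
  have h1 : ∑ f ∈ cubeN 2 p, (if E f then (1 : ℝ) else 0) = ∑ w : Fin 3 → ZMod p, (if E' w then (1 : ℝ) else 0) := by
    refine Finset.sum_nbij' (fun f => cN p f) (fun g i => (((g i).val : ℕ) : ℤ)) (fun _ _ => mem_univ _) ?_ ?_ ?_ ?_
    · intro g _
      unfold cubeN
      rw [Fintype.mem_piFinset]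
      exact fun i => hmem _
    · intro f hf
      unfold cubeN at hf
      rw [Fintype.mem_piFinset] at hf
      funext i
      have h2 := hf i
      rw [mem_Ico] at h2
      change ((((f i : ℤ) : ZMod p).val : ℕ) : ℤ) = f i
      rw [ZMod.val_intCast, Int.emod_eq_of_lt h2.1 h2.2]
    · intro g _
      exact funext fun i => hcast _
    · intro f _
      by_cases h3 : E f
      · rw [if_pos h3, if_pos ((h f).1 h3)]
      · rw [if_neg h3, if_neg fun h4 => h3 ((h f).2 h4)]
  unfold dn ExN
  rw [Finset.sum_congr rfl (g := fun f => if E f then (1 : ℝ) else 0) fun f _ => by congr, h1,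
    Nat.card_eq_fintype_card, Fintype.card_subtype, Finset.card_filter]
  push_cast
  rfl

/-- the structure of the factorization -/
theorem LS_fac (p : ℕ) [Fact p.Prime] (f : (ZMod p)[X]) (hm : f.Monic) (hd : f.natDegree = 3) (hs : Squarefree f) :
    ((facs f).filter fun h => h.natDegree = 1).card = 0 ∨
    (((facs f).filter fun h => h.natDegree = 1).card = 1 ∧ (facs f).card = 2) ∨
    (((facs f).filter fun h => h.natDegree = 1).card = 3 ∧ (facs f).card = 3) := by
  have h1 := sum_facs hm hs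
  rw [hd, ← Finset.sum_filter_add_sum_filter_not (facs f) (fun h => h.natDegree = 1)] at h1
  have h2 : ∑ h ∈ (facs f).filter (fun h => h.natDegree = 1), h.natDegree =
      ((facs f).filter fun h => h.natDegree = 1).card := by
    rw [Finset.card_eq_sum_ones]
    exact Finset.sum_congr rfl fun h hh => (Finset.mem_filter.1 hh).2
  have h3 : ∀ h ∈ (facs f).filter (fun h => ¬ h.natDegree = 1), 2 ≤ h.natDegree := by
    intro h hh
    rw [Finset.mem_filter, mem_facs hm.ne_zero] at hh
    have h4 := hh.1.2.1.natDegree_pos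
    have h5 := hh.2
    omega
  have h4 : ((facs f).filter (fun h => ¬ h.natDegree = 1)).card * 2 ≤
      ∑ h ∈ (facs f).filter (fun h => ¬ h.natDegree = 1), h.natDegree := by
    rw [← smul_eq_mul]
    exact Finset.card_nsmul_le_sum _ _ _ h3
  have h5 := Finset.card_filter_add_card_filter_not (s := facs f) (fun h => h.natDegree = 1)
  have h6 : ((facs f).filter (fun h => ¬ h.natDegree = 1)).card = 0 →
      ∑ h ∈ (facs f).filter (fun h => ¬ h.natDegree = 1), h.natDegree = 0 := by
    intro h0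
    rw [Finset.card_eq_zero.1 h0, Finset.sum_empty]
  rw [h2] at h1
  omega

/-- roots and factors of degree one -/
theorem LS_rt (g : ℤ[X]) (p : ℕ) [Fact p.Prime] (hne : red p g ≠ 0) :
    ((facs (red p g)).filter fun h => h.natDegree = 1).card = PT.rt g p := by
  classical
  have h1 : PT.rt g p = (Finset.univ.filter fun ρ : ZMod p => (red p g).eval ρ = 0).card := by
    unfold PT.rt red
    rw [Nat.card_eq_fintype_card, Fintype.card_subtype]
  rw [h1]
  symm
  refine Finset.card_bij (fun ρ _ => X - C ρ) ?_ ?_ ?_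
  · intro ρ hρ
    rw [Finset.mem_filter] at hρ ⊢
    rw [mem_facs hne]
    exact ⟨⟨monic_X_sub_C ρ, irreducible_X_sub_C ρ, dvd_iff_isRoot.2 hρ.2⟩, natDegree_X_sub_C ρ⟩
  · intro a _ b _ hab
    exact C_injective (sub_right_injective hab)
  · intro h hh
    rw [Finset.mem_filter, mem_facs hne] at hh
    obtain ⟨⟨hm, _, hd⟩, hdeg⟩ := hh
    have he : h = X - C (-(h.coeff 0)) := by
      rw [C_neg, sub_neg_eq_add]
      exact hm.eq_X_add_C hdeg
    refine ⟨-(h.coeff 0), ?_, he.symm⟩
    rw [Finset.mem_filter]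
    refine ⟨Finset.mem_univ _, ?_⟩
    have h2 : X - C (-(h.coeff 0)) ∣ red p g := by
      rw [← he]
      exact hd
    exact dvd_iff_isRoot.1 h2

theorem LS_mem {g : ℤ[X]} {p : ℕ} [Fact p.Prime] (hne : red p g ≠ 0) {h : (ZMod p)[X]} :
    Fac g p h ↔ h ∈ facs (red p g) := (mem_facs hne).symm

/-- the number of nonzero elements -/
theorem LS_card_ne (p : ℕ) [Fact p.Prime] (h : (ZMod p)[X]) (hm : h.Monic) (hi : Irreducible h) :
    (Nat.card ({x : AdjoinRoot h | x ≠ 0} : Set (AdjoinRoot h)) : ℝ) = (p : ℝ) ^ h.natDegree - 1 := by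
  classical
  have : Fact (Irreducible h) := ⟨hi⟩
  obtain ⟨hfin, hcard⟩ := card_adjoin p h hm
  have := hfin
  have : Fintype (AdjoinRoot h) := Fintype.ofFinite _
  have h2 : Nat.card ({x : AdjoinRoot h | x ≠ 0} : Set (AdjoinRoot h)) + 1 = p ^ h.natDegree := by
    rw [← hcard, Nat.card_eq_fintype_card, Nat.card_eq_fintype_card, Set.card_ne_eq]
    have : 0 < Fintype.card (AdjoinRoot h) := Fintype.card_pos
    omega
  have h4 : ((Nat.card ({x : AdjoinRoot h | x ≠ 0} : Set (AdjoinRoot h)) + 1 : ℕ) : ℝ) =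
    ((p ^ h.natDegree : ℕ) : ℝ) := by rw [h2]
  push_cast at h4
  linarith

/-- the vectors which vanish exactly at the root `r` -/
noncomputable def LS_A (p : ℕ) [Fact p.Prime] (f : (ZMod p)[X]) (r : ZMod p) : Finset (Fin 3 → ZMod p) := by
  classical
  exact Finset.univ.filter fun w => ∀ h ∈ facs f, AdjoinRoot.mk h (∑ c : Fin 3, C (w c) * X ^ (c : ℕ)) ∈
    (if h = X - C r then ({0} : Set (AdjoinRoot h)) else {x | x ≠ 0})

/-- the vectors which vanish exactly at the root `r` and are squares elsewhere -/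
noncomputable def LS_S (p : ℕ) [Fact p.Prime] (f : (ZMod p)[X]) (r : ZMod p) : Finset (Fin 3 → ZMod p) := by
  classical
  exact Finset.univ.filter fun w => ∀ h ∈ facs f, AdjoinRoot.mk h (∑ c : Fin 3, C (w c) * X ^ (c : ℕ)) ∈
    (if h = X - C r then ({0} : Set (AdjoinRoot h)) else {x | x ≠ 0 ∧ IsSquare (x * AdjoinRoot.mk h (C r - X))})

theorem LS_cardA (p : ℕ) [Fact p.Prime] (f : (ZMod p)[X]) (hm : f.Monic) (hd : f.natDegree = 3) (hs : Squarefree f)
    (r : ZMod p) (hr : X - C r ∈ facs f) :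
    ((LS_A p f r).card : ℝ) = ∏ h ∈ (facs f).erase (X - C r), ((p : ℝ) ^ h.natDegree - 1) := by
  classical
  have h1 : (LS_A p f r).card = ∏ h ∈ facs f, Nat.card
      (if h = X - C r then ({0} : Set (AdjoinRoot h)) else {x | x ≠ 0} : Set (AdjoinRoot h)) := by
    rw [← crt_count p 3 f hd hm hs, Nat.card_eq_fintype_card, Fintype.card_subtype]
    unfold LS_A
    congr
  rw [h1, ← Finset.mul_prod_erase (facs f) _ hr, if_pos rfl, Nat.card_unique, one_mul]
  push_cast
  refine Finset.prod_congr rfl fun h hh => ?_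
  rw [if_neg (Finset.ne_of_mem_erase hh)]
  have h2 := (mem_facs hm.ne_zero).1 (Finset.mem_of_mem_erase hh)
  exact LS_card_ne p h h2.1 h2.2.1

theorem LS_not_dvd (p : ℕ) [Fact p.Prime] {h : (ZMod p)[X]} (hm : h.Monic)
    (hi : Irreducible h) {t : ZMod p} (hne : h ≠ X - C t) : ¬ h ∣ (C t - X) := by
  intro hd
  apply hne
  have h1 : h ∣ X - C t := by
    rw [← neg_sub, dvd_neg]
    exact hd
  exact eq_of_monic_of_associated hm (monic_X_sub_C t)
    (hi.associated_of_dvd (irreducible_X_sub_C t) h1)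

theorem LS_cardS (p : ℕ) [Fact p.Prime] (hp2 : p ≠ 2) (f : (ZMod p)[X]) (hm : f.Monic) (hd : f.natDegree = 3)
    (hs : Squarefree f) (r : ZMod p) (hr : X - C r ∈ facs f) :
    ((LS_S p f r).card : ℝ) = ∏ h ∈ (facs f).erase (X - C r), (((p : ℝ) ^ h.natDegree - 1) / 2) := by
  classical
  have h1 : (LS_S p f r).card = ∏ h ∈ facs f, Nat.card
      (if h = X - C r then ({0} : Set (AdjoinRoot h)) else
        {x | x ≠ 0 ∧ IsSquare (x * AdjoinRoot.mk h (C r - X))} : Set (AdjoinRoot h)) := by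
    rw [← crt_count p 3 f hd hm hs, Nat.card_eq_fintype_card, Fintype.card_subtype]
    unfold LS_S
    congr
  rw [h1, ← Finset.mul_prod_erase (facs f) _ hr, if_pos rfl, Nat.card_unique, one_mul]
  push_cast
  refine Finset.prod_congr rfl fun h hh => ?_
  rw [if_neg (Finset.ne_of_mem_erase hh)]
  have h2 := (mem_facs hm.ne_zero).1 (Finset.mem_of_mem_erase hh)
  exact coset_adjoin p hp2 h h2.1 h2.2.1 (C r - X) (LS_not_dvd p h2.1 h2.2.1 (Finset.ne_of_mem_erase hh))

theorem LS_memA {p : ℕ} [Fact p.Prime] {f : (ZMod p)[X]} {r : ZMod p} (hr : X - C r ∈ facs f) {w : Fin 3 → ZMod p}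
    (hw : w ∈ LS_A p f r) : X - C r ∣ (∑ c : Fin 3, C (w c) * X ^ (c : ℕ)) ∧
      ∀ h ∈ facs f, h ≠ X - C r → ¬ h ∣ (∑ c : Fin 3, C (w c) * X ^ (c : ℕ)) := by
  classical
  unfold LS_A at hw
  rw [Finset.mem_filter] at hw
  refine ⟨?_, fun h hh hne hdvd => ?_⟩
  · have h1 := hw.2 _ hr
    rw [if_pos rfl, Set.mem_singleton_iff, AdjoinRoot.mk_eq_zero] at h1
    exact h1
  · have h1 := hw.2 h hh
    rw [if_neg hne] at h1
    exact h1 (AdjoinRoot.mk_eq_zero.2 hdvd)

theorem self_lower {g : ℤ[X]} (hg : g.Monic) (hd : g.natDegree = 3) (p : ℕ) (hp : p.Prime) (h2 : p ≠ 2)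
    (hs : Squarefree (red p g)) :
    ew g p / (p : ℝ) - 100 / (p : ℝ) ^ 2 ≤ dn 2 p (fun δ => ¬ Self g p (red p (Pf δ))) := by
  classical
  have : Fact p.Prime := ⟨hp⟩
  have hm : (red p g).Monic := hg.map _
  have hd3 : (red p g).natDegree = 3 := (hg.natDegree_map _).trans hd
  have hp0 : (0 : ℝ) < p := by exact_mod_cast hp.pos
  have hp1 : (1 : ℝ) ≤ p := by exact_mod_cast hp.one_lt.le
  set f := red p g with hf
  rw [LS_dn p _ (fun w => ¬ Self g p (∑ c : Fin 3, C (w c) * X ^ (c : ℕ))) fun δ => by rw [LS_red]]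
  set R : Finset (ZMod p) := Finset.univ.filter fun ρ => f.eval ρ = 0 with hR
  have hrt : PT.rt g p = R.card := by
    rw [hR, hf]
    unfold PT.rt red
    rw [Nat.card_eq_fintype_card, Fintype.card_subtype]
  have hRm : ∀ r ∈ R, X - C r ∈ facs f := by
    intro r hr
    rw [hR, Finset.mem_filter] at hr
    rw [mem_facs hm.ne_zero]
    exact ⟨monic_X_sub_C r, irreducible_X_sub_C r, dvd_iff_isRoot.2 hr.2⟩
  have hinj : ∀ r r' : ZMod p, (X - C r : (ZMod p)[X]) = X - C r' → r = r' := fun r r' h =>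
    C_injective (sub_right_injective h)
  -- the lower bound for the cardinality
  have hcard : ∑ r ∈ R, (((LS_A p f r).card : ℝ) - (LS_S p f r).card) ≤
      (Nat.card {w : Fin 3 → ZMod p // ¬ Self g p (∑ c : Fin 3, C (w c) * X ^ (c : ℕ))} : ℝ) := by
    have h3 : (R.biUnion fun r => LS_A p f r \ LS_S p f r) ⊆
        Finset.univ.filter fun w : Fin 3 → ZMod p => ¬ Self g p (∑ c : Fin 3, C (w c) * X ^ (c : ℕ)) := by
      intro w hw
      rw [Finset.mem_biUnion] at hw
      obtain ⟨r, hr, hw⟩ := hw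
      rw [Finset.mem_sdiff] at hw
      obtain ⟨hwA, hwS⟩ := hw
      obtain ⟨a1, a2⟩ := LS_memA (hRm r hr) hwA
      rw [Finset.mem_filter]
      refine ⟨Finset.mem_univ _, fun hself => ?_⟩
      rcases hself with hself | ⟨r', hr1, hr2, hr3⟩
      · exact hself ⟨X - C r, (LS_mem hm.ne_zero).2 (hRm r hr), a1⟩
      · have hr' : X - C r' ∈ facs f := hRm r' (by
          rw [hR, Finset.mem_filter]
          exact ⟨Finset.mem_univ _, hr1⟩)
        have hrr : r' = r := by
          by_contra hne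
          exact a2 _ hr' (fun h => hne (hinj _ _ h)) (dvd_iff_isRoot.2 hr2)
        subst hrr
        refine hwS ?_
        unfold LS_S
        rw [Finset.mem_filter]
        refine ⟨Finset.mem_univ _, fun h hh => ?_⟩
        by_cases hX : h = X - C r'
        · rw [if_pos hX, Set.mem_singleton_iff, AdjoinRoot.mk_eq_zero, hX]
          exact a1
        · rw [if_neg hX]
          obtain ⟨b1, b2⟩ := hr3 h ((LS_mem hm.ne_zero).2 hh) hX
          refine ⟨fun h0 => b1 (AdjoinRoot.mk_eq_zero.1 h0), ?_⟩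
          rw [← map_mul]
          exact (isSquare_adjoin h _).2 b2
    have h4 := Finset.card_le_card h3
    rw [Finset.card_biUnion (by
      intro r hr r' hr' hne
      change Disjoint (LS_A p f r \ LS_S p f r) (LS_A p f r' \ LS_S p f r')
      rw [Finset.disjoint_left]
      intro w hw hw'
      rw [Finset.mem_sdiff] at hw hw'
      obtain ⟨a1, a2⟩ := LS_memA (hRm r hr) hw.1
      obtain ⟨b1, b2⟩ := LS_memA (hRm r' hr') hw'.1
      exact a2 _ (hRm r' hr') (fun h => hne (hinj _ _ h).symm) b1)] at h4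
    rw [Nat.card_eq_fintype_card, Fintype.card_subtype]
    have h5 : ∀ r ∈ R, ((LS_A p f r).card : ℝ) - (LS_S p f r).card ≤ ((LS_A p f r \ LS_S p f r).card : ℝ) := by
      intro r _
      have h6 := Finset.card_le_card_sdiff_add_card (s := LS_A p f r) (t := LS_S p f r)
      have h7 : ((LS_A p f r).card : ℝ) ≤ ((LS_A p f r \ LS_S p f r).card : ℝ) + (LS_S p f r).card := by
        exact_mod_cast h6
      linarith
    refine (Finset.sum_le_sum h5).trans ?_
    exact_mod_cast h4
  have hfac := LS_fac p f hm hd3 hs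
  rw [LS_rt g p hm.ne_zero, hrt] at hfac
  have hfilt := LS_rt g p hm.ne_zero
  rw [hrt] at hfilt
  rw [le_div_iff₀ (by positivity)]
  refine le_trans ?_ hcard
  have hsum3 := sum_facs hm hs
  rw [hd3] at hsum3
  have hmul : ∀ x : ℝ, (x / (p : ℝ) - 100 / (p : ℝ) ^ 2) * (p : ℝ) ^ 3 = x * (p : ℝ) ^ 2 - 100 * p := by
    intro x
    field_simp
  rw [hmul]
  rcases hfac with h0 | ⟨h1, hc2⟩ | ⟨h1, hc3⟩
  · have hR0 : R = ∅ := Finset.card_eq_zero.1 h0
    have hew : ew g p = 0 := by
      unfold ew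
      rw [hrt, h0]
      norm_num
    rw [hew, hR0, Finset.sum_empty]
    linarith
  · obtain ⟨r, hr⟩ := Finset.card_eq_one.1 h1
    have hrm : X - C r ∈ facs f := hRm r (by rw [hr]; exact Finset.mem_singleton_self r)
    have hew : ew g p = 1 / 2 := by
      unfold ew
      rw [hrt, h1, if_pos rfl]
      norm_num
    have he1 : ((facs f).erase (X - C r)).card = 1 := by
      rw [Finset.card_erase_of_mem hrm, hc2]
    obtain ⟨h, hh⟩ := Finset.card_eq_one.1 he1
    have hdeg : h.natDegree = 2 := by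
      rw [← Finset.add_sum_erase (facs f) _ hrm, hh, Finset.sum_singleton, natDegree_X_sub_C] at hsum3
      omega
    rw [hew, hr, Finset.sum_singleton, LS_cardA p f hm hd3 hs r hrm, LS_cardS p h2 f hm hd3 hs r hrm, hh,
      Finset.prod_singleton, Finset.prod_singleton, hdeg]
    nlinarith
  · have hew : ew g p = 9 / 4 := by
      unfold ew
      rw [hrt, h1, if_neg (by norm_num)]
      norm_num
    have hall : ∀ h ∈ facs f, h.natDegree = 1 := by
      have h5 : (facs f).filter (fun h => h.natDegree = 1) = facs f := by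
        refine Finset.eq_of_subset_of_card_le (Finset.filter_subset _ _) ?_
        rw [hfilt, h1, hc3]
      intro h hh
      rw [← h5, Finset.mem_filter] at hh
      exact hh.2
    have hterm : ∀ r ∈ R, ((LS_A p f r).card : ℝ) - (LS_S p f r).card = 3 / 4 * ((p : ℝ) - 1) ^ 2 := by
      intro r hr
      have hrm := hRm r hr
      have he2 : ((facs f).erase (X - C r)).card = 2 := by
        rw [Finset.card_erase_of_mem hrm, hc3]
      have hA : ∏ h ∈ (facs f).erase (X - C r), ((p : ℝ) ^ h.natDegree - 1) = ((p : ℝ) - 1) ^ 2 := by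
        rw [← he2, ← Finset.prod_const]
        refine Finset.prod_congr rfl fun h hh => ?_
        rw [hall h (Finset.mem_of_mem_erase hh), pow_one]
      have hS : ∏ h ∈ (facs f).erase (X - C r), (((p : ℝ) ^ h.natDegree - 1) / 2) = (((p : ℝ) - 1) / 2) ^ 2 := by
        rw [← he2, ← Finset.prod_const]
        refine Finset.prod_congr rfl fun h hh => ?_
        rw [hall h (Finset.mem_of_mem_erase hh), pow_one]
      rw [LS_cardA p f hm hd3 hs r hrm, LS_cardS p h2 f hm hd3 hs r hrm, hA, hS]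
      ring
    rw [hew, Finset.sum_congr rfl hterm, Finset.sum_const, h1, nsmul_eq_mul]
    push_cast
    nlinarith

theorem self_upper {g : ℤ[X]} (hg : g.Monic) (hd : g.natDegree = 3) (p : ℕ) (hp : p.Prime) (h2 : p ≠ 2)
    (hs : Squarefree (red p g)) :
    dn 2 p (fun δ => ¬ Self g p (red p (Pf δ))) ≤ 10 / (p : ℝ) := by
  classical
  have : Fact p.Prime := ⟨hp⟩
  have hm : (red p g).Monic := hg.map _
  have hd3 : (red p g).natDegree = 3 := (hg.natDegree_map _).trans hd
  have hp0 : (0 : ℝ) < p := by exact_mod_cast hp.pos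
  set f := red p g with hf
  rw [LS_dn p _ (fun w => ¬ Self g p (∑ c : Fin 3, C (w c) * X ^ (c : ℕ))) fun δ => by rw [LS_red]]
  have hcard3 : (facs f).card ≤ 3 := by
    rw [← hd3, ← sum_facs hm hs, Finset.card_eq_sum_ones]
    exact Finset.sum_le_sum fun h hh => ((mem_facs hm.ne_zero).1 hh).2.1.natDegree_pos
  have hone : ∀ h ∈ facs f, (Finset.univ.filter fun w : Fin 3 → ZMod p =>
      h ∣ (∑ c : Fin 3, C (w c) * X ^ (c : ℕ))).card ≤ p ^ 2 := by
    intro h hh
    have h3 := crt_count p 3 f hd3 hm hs (fun h' => if h' = h then ({0} : Set (AdjoinRoot h')) else Set.univ)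
    have h4 : Nat.card {w : Fin 3 → ZMod p // ∀ h' ∈ facs f, AdjoinRoot.mk h' (∑ c : Fin 3, C (w c) * X ^ (c : ℕ)) ∈
        (if h' = h then ({0} : Set (AdjoinRoot h')) else Set.univ)} =
        (Finset.univ.filter fun w : Fin 3 → ZMod p => h ∣ (∑ c : Fin 3, C (w c) * X ^ (c : ℕ))).card := by
      rw [Nat.card_eq_fintype_card, Fintype.card_subtype]
      congr 1
      ext w
      rw [Finset.mem_filter, Finset.mem_filter]
      refine and_congr_right fun _ => ⟨fun h5 => ?_, fun h5 h' hh' => ?_⟩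
      · have h6 := h5 h hh
        rw [if_pos rfl, Set.mem_singleton_iff, AdjoinRoot.mk_eq_zero] at h6
        exact h6
      · by_cases h6 : h' = h
        · rw [if_pos h6, Set.mem_singleton_iff, AdjoinRoot.mk_eq_zero, h6]
          exact h5
        · rw [if_neg h6]
          exact Set.mem_univ _
    rw [← h4, h3, ← Finset.mul_prod_erase (facs f) _ hh, if_pos rfl, Nat.card_unique, one_mul]
    have h5 : ∀ h' ∈ (facs f).erase h, Nat.card
        (if h' = h then ({0} : Set (AdjoinRoot h')) else Set.univ : Set (AdjoinRoot h')) = p ^ h'.natDegree := by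
      intro h' hh'
      rw [if_neg (Finset.ne_of_mem_erase hh'), Nat.card_congr (Equiv.Set.univ _)]
      exact (card_adjoin p h' ((mem_facs hm.ne_zero).1 (Finset.mem_of_mem_erase hh')).1).2
    rw [Finset.prod_congr rfl h5, Finset.prod_pow_eq_pow_sum]
    refine Nat.pow_le_pow_right hp.pos ?_
    have h6 := sum_facs hm hs
    rw [hd3, ← Finset.add_sum_erase (facs f) _ hh] at h6
    have h7 := ((mem_facs hm.ne_zero).1 hh).2.1.natDegree_pos
    omega
  have hsub : (Finset.univ.filter fun w : Fin 3 → ZMod p => ¬ Self g p (∑ c : Fin 3, C (w c) * X ^ (c : ℕ))) ⊆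
      (facs f).biUnion fun h => Finset.univ.filter fun w : Fin 3 → ZMod p =>
        h ∣ (∑ c : Fin 3, C (w c) * X ^ (c : ℕ)) := by
    intro w hw
    rw [Finset.mem_filter] at hw
    have h3 : Van g p (∑ c : Fin 3, C (w c) * X ^ (c : ℕ)) := by
      by_contra h4
      exact hw.2 (Or.inl h4)
    obtain ⟨h, hF, hdvd⟩ := h3
    rw [Finset.mem_biUnion]
    refine ⟨h, (LS_mem hm.ne_zero).1 hF, ?_⟩
    rw [Finset.mem_filter]
    exact ⟨Finset.mem_univ _, hdvd⟩
  have hle : Nat.card {w : Fin 3 → ZMod p // ¬ Self g p (∑ c : Fin 3, C (w c) * X ^ (c : ℕ))} ≤ 3 * p ^ 2 := by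
    rw [Nat.card_eq_fintype_card, Fintype.card_subtype]
    refine (Finset.card_le_card hsub).trans (Finset.card_biUnion_le.trans ?_)
    refine (Finset.sum_le_sum hone).trans ?_
    rw [Finset.sum_const, smul_eq_mul]
    exact Nat.mul_le_mul_right _ hcard3
  have hle' : (Nat.card {w : Fin 3 → ZMod p // ¬ Self g p (∑ c : Fin 3, C (w c) * X ^ (c : ℕ))} : ℝ) ≤
      3 * (p : ℝ) ^ 2 := by exact_mod_cast hle
  rw [div_le_div_iff₀ (by positivity) hp0]
  nlinarith [pow_pos hp0 3, pow_pos hp0 2]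

end O1
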