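import Pool.Agent.Lib.MP_10e784_agO.Nm
import Pool.Agent.Lib.MP_10e784_agF.KN7

/-! JOB M2.  The second moment (Chebyshev in the box).

`S f = SC (nm g (Pf f)) w y = ∑_{p ∈ 𝒫} ψ p f / p`, `𝒫` = primes `w < p ≤ y` (odd, since `w ≥ 2`; if `y < 2` or so, `S = 0`), `ψ p f = jacobiSym (nm g (Pf f)) p`, which is `p`-periodic (`nm_cong`; for odd prime `p` the symbol depends on the residue modulo `p`) and `|ψ| ≤ 1`.
`#{f ∈ box : 1 < S f} ≤ ∑_{f ∈ box} S f ^ 2 ≤ ∑_{f ∈ cubeN (4HJ)} WN J (4HJ) f * S f ^ 2` with `J = ∏_{p ∈ 𝒫} p` (`S ^ 2` is `J`-periodic; `FQQ.box_le_cubeN` with `M = 1` and any `r`), and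
`= ∑_{p, p'} (1/(p p')) ∑_f WN f ψ p f ψ p' f = (8H)^3 ∑_{p,p'} (1/(p p')) ExN 2 (lcm) (ψ p ψ p')` by `FQQ.ex_perN` with `M = 1`, `q0 = 4H`, `q = p p'` or `q = p` (`p p' ≤ y ^ 2 ≤ 4H`; `GoodN 2 H (4H) 1 r` is trivial: `k ≠ 0` has a coordinate with `|k i| ≥ 1`; `J` must be a multiple of `q`).
For `p ≠ p'` the mean is the product of the means (`ExN_mul`) and the mean of `ψ p` is zero: choose `t` with `(t/p) = -1`; `f ↦ t f mod p` is a bijection of `cubeN 2 p` and `ψ p (t f) = (t/p)^3 ψ p f = - ψ p f` (`nm_smul`).  For `p = p'` the mean is at most `1`.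
Total `≤ 512 H ^ 3 ∑_{p > w} 1 / p ^ 2 ≤ 1024 H ^ 3 / w`.  `C = 1024` (or larger). -/

set_option autoImplicit false

namespace O1

open Polynomial Finset TW FQQ

private noncomputable def M2_P (w y : ℝ) : Finset ℕ :=
  (Icc 1 ⌊y⌋₊).filter (fun p : ℕ => p.Prime ∧ w < (p : ℝ))

private noncomputable def M2_psi (g : ℤ[X]) (p : ℕ) (f : Vn 2) : ℝ := (jacobiSym (nm g (Pf f)) p : ℝ)

private theorem M2_mem {w y : ℝ} {p : ℕ} (hp : p ∈ M2_P w y) : p.Prime ∧ w < (p : ℝ) ∧ (p : ℝ) ≤ y := by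
  unfold M2_P at hp
  rw [Finset.mem_filter, Finset.mem_Icc] at hp
  refine ⟨hp.2.1, hp.2.2, ?_⟩
  have h1 : p ≤ ⌊y⌋₊ := hp.1.2
  have h2 : p ≠ 0 := by have := hp.1.1; omega
  exact (Nat.le_floor_iff' h2).1 h1

private theorem M2_per {g : ℤ[X]} (hg : g.Monic) (p : ℕ) : PerN p (M2_psi g p) := by
  intro f f' h
  unfold M2_psi
  have h1 := nm_cong hg p h
  have h2 : nm g (Pf f) % (p : ℤ) = nm g (Pf f') % (p : ℤ) := (Int.modEq_iff_dvd.2 h1).symm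
  rw [jacobiSym.mod_left' h2]

private theorem M2_abs (g : ℤ[X]) (p : ℕ) (f : Vn 2) : M2_psi g p f * M2_psi g p f ≤ 1 := by
  unfold M2_psi
  rcases jacobiSym.trichotomy (nm g (Pf f)) p with h | h | h
  · rw [h]; norm_num
  · rw [h]; norm_num
  · rw [h]; norm_num

private theorem M2_t (p : ℕ) (hp : p.Prime) (h2 : p ≠ 2) :
    ∃ t s : ℤ, jacobiSym t p = -1 ∧ (p : ℤ) ∣ s * t - 1 := by
  have := Fact.mk hp
  obtain ⟨a, ha⟩ := FiniteField.exists_nonsquare (F := ZMod p) (by rw [ZMod.ringChar_zmod_n]; exact h2)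
  refine ⟨(a.val : ℤ), ((a⁻¹).val : ℤ), ?_, ?_⟩
  · rw [← jacobiSym.legendreSym.to_jacobiSym, legendreSym.eq_neg_one_iff]
    rw [Int.cast_natCast, ZMod.natCast_zmod_val]
    exact ha
  · have ha0 : a ≠ 0 := by
      rintro rfl
      exact ha IsSquare.zero
    rw [← ZMod.intCast_zmod_eq_zero_iff_dvd]
    push_cast
    rw [ZMod.natCast_zmod_val, ZMod.natCast_zmod_val, inv_mul_cancel₀ ha0, sub_self]

private theorem M2_inv (p : ℕ) (s t x : ℤ) (h : (p : ℤ) ∣ s * t - 1) (h0 : 0 ≤ x) (h1 : x < (p : ℤ)) :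
    (s * ((t * x) % (p : ℤ))) % (p : ℤ) = x := by
  have e1 : (s * ((t * x) % (p : ℤ))) ≡ x [ZMOD (p : ℤ)] := by
    have e2 : (t * x) % (p : ℤ) ≡ t * x [ZMOD (p : ℤ)] := Int.mod_modEq _ _
    have e3 : s * ((t * x) % (p : ℤ)) ≡ s * (t * x) [ZMOD (p : ℤ)] := e2.mul_left s
    refine e3.trans ?_
    refine (Int.modEq_iff_dvd.2 ?_).symm
    have e4 : s * (t * x) - x = (s * t - 1) * x := by ring
    rw [e4]
    exact h.mul_right x
  have e5 : (s * ((t * x) % (p : ℤ))) % (p : ℤ) = x % (p : ℤ) := e1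
  rw [e5, Int.emod_eq_of_lt h0 h1]

private theorem M2_mean {g : ℤ[X]} (hg : g.Monic) (hd : g.natDegree = 3) (p : ℕ) (hp : p.Prime)
    (h2 : p ≠ 2) : ExN 2 p (M2_psi g p) = 0 := by
  obtain ⟨t, s, ht, hst⟩ := M2_t p hp h2
  have hp0 : (0 : ℤ) < p := by exact_mod_cast hp.pos
  have hts : (p : ℤ) ∣ t * s - 1 := by rwa [mul_comm t s]
  have hsum : ∑ f ∈ cubeN 2 p, (- M2_psi g p f) = ∑ f ∈ cubeN 2 p, M2_psi g p f := by
    refine Finset.sum_nbij' (fun (f : Vn 2) i => (t * f i) % (p : ℤ))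
      (fun (f : Vn 2) i => (s * f i) % (p : ℤ)) ?_ ?_ ?_ ?_ ?_
    · intro f _
      rw [mem_cubeN]
      exact fun i => ⟨Int.emod_nonneg _ hp0.ne', Int.emod_lt_of_pos _ hp0⟩
    · intro f _
      rw [mem_cubeN]
      exact fun i => ⟨Int.emod_nonneg _ hp0.ne', Int.emod_lt_of_pos _ hp0⟩
    · intro f hf
      rw [mem_cubeN] at hf
      funext i
      exact M2_inv p s t (f i) hst (hf i).1 (hf i).2
    · intro f hf
      rw [mem_cubeN] at hf
      funext i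
      exact M2_inv p t s (f i) hts (hf i).1 (hf i).2
    · intro f _
      have h1 : M2_psi g p (fun i => (t * f i) % (p : ℤ)) = M2_psi g p (fun i => t * f i) := by
        refine M2_per hg p _ _ fun i => ?_
        have e : (t * f i) % (p : ℤ) ≡ t * f i [ZMOD (p : ℤ)] := Int.mod_modEq _ _
        exact Int.modEq_iff_dvd.1 e.symm
      rw [h1]
      unfold M2_psi
      rw [nm_smul hg hd, jacobiSym.mul_left, jacobiSym.pow_left, ht]
      push_cast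
      ring
  rw [Finset.sum_neg_distrib] at hsum
  have h0 : ∑ f ∈ cubeN 2 p, M2_psi g p f = 0 := by linarith
  unfold ExN
  rw [h0, zero_div]

private theorem M2_good (H : ℕ) (r : ℤ) : GoodN 2 H (4 * H) 1 r := by
  intro k hk _
  obtain ⟨i, hi⟩ := Function.ne_iff.1 hk
  refine ⟨i, ?_⟩
  have h1 : 1 ≤ (k i).natAbs := Nat.one_le_iff_ne_zero.2 (Int.natAbs_ne_zero.2 hi)
  calc 4 * H * 1 ≤ 4 * H * (k i).natAbs := Nat.mul_le_mul_left _ h1
    _ = _ := rfl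

private theorem M2_tail (w y : ℝ) (hw : 2 ≤ w) : ∑ p ∈ M2_P w y, 1 / ((p : ℝ) * (p : ℝ)) ≤ 2 / w := by
  have hw0 : 0 < w := by linarith
  have hfl : 1 ≤ ⌊w⌋₊ := Nat.le_floor (by push_cast; linarith)
  by_cases h : ⌊w⌋₊ ≤ ⌊y⌋₊
  · have hsub : M2_P w y ⊆ Ioc ⌊w⌋₊ ⌊y⌋₊ := by
      intro p hp
      have h1 := M2_mem hp
      rw [Finset.mem_Ioc]
      refine ⟨(Nat.floor_lt hw0.le).2 h1.2.1, ?_⟩
      exact Nat.le_floor h1.2.2
    have h2 : ∑ p ∈ M2_P w y, 1 / ((p : ℝ) * (p : ℝ)) ≤ ∑ p ∈ Ioc ⌊w⌋₊ ⌊y⌋₊, ((p : ℝ) ^ 2)⁻¹ := by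
      refine (Finset.sum_le_sum_of_subset_of_nonneg hsub fun p _ _ => by positivity).trans (le_of_eq ?_)
      refine Finset.sum_congr rfl fun p _ => ?_
      rw [one_div, sq]
    have h3 := sum_Ioc_inv_sq_le_sub (α := ℝ) (k := ⌊w⌋₊) (n := ⌊y⌋₊) (by omega) h
    have h4 : (0 : ℝ) ≤ ((⌊y⌋₊ : ℕ) : ℝ)⁻¹ := by positivity
    have h5 : ((⌊w⌋₊ : ℕ) : ℝ)⁻¹ ≤ 2 / w := by
      have h6 : w < (⌊w⌋₊ : ℝ) + 1 := Nat.lt_floor_add_one w
      have h7 : (1 : ℝ) ≤ (⌊w⌋₊ : ℝ) := by exact_mod_cast hfl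
      have h8 : (0 : ℝ) < (⌊w⌋₊ : ℝ) := by linarith
      rw [inv_eq_one_div, div_le_div_iff₀ h8 hw0]
      linarith
    linarith
  · have h1 : M2_P w y = ∅ := by
      rw [Finset.eq_empty_iff_forall_notMem]
      intro p hp
      have h2 := M2_mem hp
      apply h
      exact Nat.floor_le_floor (h2.2.1.le.trans h2.2.2)
    rw [h1, Finset.sum_empty]
    positivity

private theorem M2_second {g : ℤ[X]} (hg : g.Monic) (hd : g.natDegree = 3) (H : ℕ) (hH : 1 ≤ H)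
    (w y : ℝ) (hw : 2 ≤ w) (hy : y ^ 2 ≤ 4 * (H : ℝ)) :
    ∑ f ∈ boxN 2 H, (SC (nm g (Pf f)) w y) ^ 2 ≤
      (8 * (H : ℝ)) ^ 3 * ∑ p ∈ M2_P w y, 1 / ((p : ℝ) * (p : ℝ)) := by
  obtain ⟨P, hP⟩ : ∃ P, P = M2_P w y := ⟨_, rfl⟩
  have hPm : ∀ p ∈ P, p.Prime ∧ w < (p : ℝ) ∧ (p : ℝ) ≤ y := fun p hp => M2_mem (hP ▸ hp)
  obtain ⟨J, hJd⟩ : ∃ J : ℕ, J = ∏ p ∈ P, p := ⟨_, rfl⟩
  have hJ : 0 < J := by
    rw [hJd]
    exact Finset.prod_pos fun p hp => (hPm p hp).1.pos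
  have hpJ : ∀ p ∈ P, p ∣ J := fun p hp => by
    rw [hJd]
    exact Finset.dvd_prod_of_mem (fun p => p) hp
  have hS : ∀ f : Vn 2, SC (nm g (Pf f)) w y = ∑ p ∈ P, M2_psi g p f / (p : ℝ) := fun f => by
    rw [hP]
    rfl
  have hS2 : ∀ f : Vn 2, (SC (nm g (Pf f)) w y) ^ 2 =
      ∑ p ∈ P, ∑ p' ∈ P, (1 / ((p : ℝ) * (p' : ℝ))) * (M2_psi g p f * M2_psi g p' f) := by
    intro f
    rw [hS, sq, Finset.sum_mul_sum]
    refine Finset.sum_congr rfl fun p _ => Finset.sum_congr rfl fun p' _ => ?_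
    rw [div_mul_div_comm, one_div, div_eq_mul_inv, mul_comm]
  have hper : PerN (4 * H * J) fun f : Vn 2 => (SC (nm g (Pf f)) w y) ^ 2 := by
    intro f f' h
    have h1 : ∀ p ∈ P, M2_psi g p f = M2_psi g p f' := fun p hp =>
      (M2_per hg p).mono ((hpJ p hp).mul_left (4 * H)) f f' h
    simp only [hS]
    rw [Finset.sum_congr rfl fun p hp => by rw [h1 p hp]]
  have hbox := box_le_cubeN (m := 2) (H := H) (J := J) (M := 1) (r := 0) hH hJ (one_dvd J)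
    (fun f : Vn 2 => (SC (nm g (Pf f)) w y) ^ 2) (fun f => sq_nonneg _) hper
  have hfil : (boxN 2 H).filter (fun f => ((1 : ℕ) : ℤ) ∣ evn f 0) = boxN 2 H := by
    refine Finset.filter_true_of_mem fun f _ => ?_
    rw [Nat.cast_one]
    exact one_dvd _
  rw [hfil] at hbox
  refine hbox.trans ?_
  have hT : ∀ p ∈ P, ∀ p' ∈ P, ∑ f ∈ (cubeN 2 (4 * H * J)).filter (fun f => ((1 : ℕ) : ℤ) ∣ evn f 0),
      WN J (4 * H * J) f * (M2_psi g p f * M2_psi g p' f) ≤ if p = p' then (8 * (H : ℝ)) ^ 3 else 0 := by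
    intro p hp p' hp'
    obtain ⟨a1, a2, a3⟩ := hPm p hp
    obtain ⟨b1, b2, b3⟩ := hPm p' hp'
    have hp0 : (0 : ℝ) < p := by linarith
    have hp'0 : (0 : ℝ) < p' := by linarith
    have hq : p * p' ≤ 4 * H := by
      have h1 : (p : ℝ) * p' ≤ y * y := mul_le_mul a3 b3 hp'0.le (hp0.le.trans a3)
      have h2 : (p : ℝ) * p' ≤ 4 * (H : ℝ) := by nlinarith
      exact_mod_cast h2
    by_cases hpp : p = p'
    · subst hpp
      rw [if_pos rfl]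
      have hq2 : p ≤ 4 * H := (Nat.le_mul_of_pos_right p a1.pos).trans hq
      have hpr : PerN p fun f => M2_psi g p f * M2_psi g p f := by
        intro f f' h
        have h1 := M2_per hg p f f' h
        simp only [h1]
      have e1 := ex_perN (m := 2) (H := H) (J := J) (M := 1) (q := p) (q0 := 4 * H) (r := 0) hH hJ
        Nat.one_pos a1.pos (Nat.coprime_one_left p) (by rw [one_mul]; exact hpJ p hp) hq2
        (M2_good H 0) (fun f => M2_psi g p f * M2_psi g p f) hpr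
      rw [e1, Nat.cast_one, div_one]
      have e2 := ExN_le_one (m := 2) a1.pos (fun f => M2_psi g p f * M2_psi g p f) fun f => M2_abs g p f
      have e3 : (0 : ℝ) ≤ (8 * (H : ℝ)) ^ (2 + 1) := by positivity
      calc (8 * (H : ℝ)) ^ (2 + 1) * ExN 2 p (fun f => M2_psi g p f * M2_psi g p f)
          ≤ (8 * (H : ℝ)) ^ (2 + 1) * 1 := mul_le_mul_of_nonneg_left e2 e3
        _ = (8 * (H : ℝ)) ^ 3 := by rw [mul_one]
    · rw [if_neg hpp]
      have hco : p.Coprime p' := (Nat.coprime_primes a1 b1).2 hpp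
      have hdv : p * p' ∣ J := Nat.Coprime.mul_dvd_of_dvd_of_dvd hco (hpJ p hp) (hpJ p' hp')
      have hpr : PerN (p * p') fun f => M2_psi g p f * M2_psi g p' f := (M2_per hg p).mul (M2_per hg p')
      have e1 := ex_perN (m := 2) (H := H) (J := J) (M := 1) (q := p * p') (q0 := 4 * H) (r := 0) hH hJ
        Nat.one_pos (Nat.mul_pos a1.pos b1.pos) (Nat.coprime_one_left _) (by rw [one_mul]; exact hdv) hq
        (M2_good H 0) (fun f => M2_psi g p f * M2_psi g p' f) hpr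
      rw [e1, ExN_mul a1.pos b1.pos hco (M2_per hg p) (M2_per hg p')]
      have h2 : p ≠ 2 := by
        rintro rfl
        norm_num at a2
        linarith
      rw [M2_mean hg hd p a1 h2, zero_mul, mul_zero]
  have hexp : ∑ f ∈ (cubeN 2 (4 * H * J)).filter (fun f => ((1 : ℕ) : ℤ) ∣ evn f 0),
      WN J (4 * H * J) f * (SC (nm g (Pf f)) w y) ^ 2 =
      ∑ p ∈ P, ∑ p' ∈ P, (1 / ((p : ℝ) * (p' : ℝ))) *
        ∑ f ∈ (cubeN 2 (4 * H * J)).filter (fun f => ((1 : ℕ) : ℤ) ∣ evn f 0),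
          WN J (4 * H * J) f * (M2_psi g p f * M2_psi g p' f) := by
    simp only [hS2, Finset.mul_sum]
    rw [Finset.sum_comm]
    refine Finset.sum_congr rfl fun p _ => ?_
    rw [Finset.sum_comm]
    refine Finset.sum_congr rfl fun p' _ => Finset.sum_congr rfl fun f _ => ?_
    ring
  rw [hexp, ← hP, Finset.mul_sum]
  refine Finset.sum_le_sum fun p hp => ?_
  calc ∑ p' ∈ P, (1 / ((p : ℝ) * (p' : ℝ))) *
        ∑ f ∈ (cubeN 2 (4 * H * J)).filter (fun f => ((1 : ℕ) : ℤ) ∣ evn f 0),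
          WN J (4 * H * J) f * (M2_psi g p f * M2_psi g p' f)
      ≤ ∑ p' ∈ P, (1 / ((p : ℝ) * (p' : ℝ))) * (if p = p' then (8 * (H : ℝ)) ^ 3 else 0) :=
        Finset.sum_le_sum fun p' hp' => mul_le_mul_of_nonneg_left (hT p hp p' hp') (by positivity)
    _ = ∑ p' ∈ P, (if p = p' then (1 / ((p : ℝ) * (p' : ℝ))) * (8 * (H : ℝ)) ^ 3 else 0) := by
        refine Finset.sum_congr rfl fun p' _ => ?_
        rw [mul_ite, mul_zero]
    _ = (1 / ((p : ℝ) * (p : ℝ))) * (8 * (H : ℝ)) ^ 3 := by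
        rw [Finset.sum_ite_eq, if_pos hp]
    _ = (8 * (H : ℝ)) ^ 3 * (1 / ((p : ℝ) * (p : ℝ))) := mul_comm _ _
    _ ≤ _ := le_refl _

open Classical in
theorem cheb {g : ℤ[X]} (hg : g.Monic) (hd : g.natDegree = 3) :
    ∃ C : ℝ, 0 < C ∧ ∀ (H : ℕ) (w y : ℝ), 1 ≤ H → 2 ≤ w → y ^ 2 ≤ 4 * (H : ℝ) →
      (((boxN 2 H).filter fun δ => 1 < SC (nm g (Pf δ)) w y).card : ℝ) ≤ C * (H : ℝ) ^ 3 / w := by
  refine ⟨1024, by norm_num, fun H w y hH hw hy => ?_⟩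
  have h1 := M2_second hg hd H hH w y hw hy
  have h2 := M2_tail w y hw
  have h3 : (((boxN 2 H).filter fun δ => 1 < SC (nm g (Pf δ)) w y).card : ℝ) ≤
      ∑ f ∈ boxN 2 H, (SC (nm g (Pf f)) w y) ^ 2 := by
    calc (((boxN 2 H).filter fun δ => 1 < SC (nm g (Pf δ)) w y).card : ℝ)
        = ∑ _f ∈ (boxN 2 H).filter (fun δ => 1 < SC (nm g (Pf δ)) w y), (1 : ℝ) := by
          rw [Finset.sum_const, nsmul_eq_mul, mul_one]
      _ ≤ ∑ f ∈ (boxN 2 H).filter (fun δ => 1 < SC (nm g (Pf δ)) w y), (SC (nm g (Pf f)) w y) ^ 2 := by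
          refine Finset.sum_le_sum fun f hf => ?_
          have h4 := (Finset.mem_filter.1 hf).2
          nlinarith
      _ ≤ _ := Finset.sum_le_sum_of_subset_of_nonneg (Finset.filter_subset _ _) fun f _ _ => sq_nonneg _
  have h5 : (0 : ℝ) ≤ (8 * (H : ℝ)) ^ 3 := by positivity
  calc (((boxN 2 H).filter fun δ => 1 < SC (nm g (Pf δ)) w y).card : ℝ)
      ≤ (8 * (H : ℝ)) ^ 3 * (2 / w) := (h3.trans h1).trans (mul_le_mul_of_nonneg_left h2 h5)
    _ = 1024 * (H : ℝ) ^ 3 / w := by ring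

end O1
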