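import Pool.Agent.Lib.MP_10e784_agO.IN

/-! JOB TC.  The condition t2 is typical.

If `h, h' ∈ Fac g p` divide `red p (AA G1 G2 u v)` and `¬ (h = h' ∧ deg h = 1)` then `p ^ 2 ∣ nm g (AA)`: hence `p ≤ C N ^ (3/2)` (`aa_ne`, `aa_le`).  [`p ^ 2 ∣ nm g P`: e.g. the characteristic polynomial/Smith form: the reduction of multiplication by `P` on `ℤ[X]/(g)` modulo `p` has a kernel of dimension at least two;
alternatively use Hensel: or AVOID it: for `p > N` only the weaker `p ∣ nm` is available; so it is needed.  Proof with resultants: lift the factorization `red p g = (h h') l` (or `h l`, `deg h ≥ 2`) ... or: Let `W = h h'` (or `h`), degree `≥ 2`, lift `W` to a monic `W' ∈ ℤ[X]`; the lattice `{Q : deg Q < 3}` has the sublattice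
of the `Q` with `W ∣ red p Q`, of index `p ^ (deg W)`; multiplication by `P` maps everything into it, so `p ^ (deg W)` divides the determinant `nm g P` of the multiplication map.]
`(u, v)` modulo `p` is determined by `(h, h')`: two solutions `(u, v), (u', v')` give `h, h' ∣ G2 ((u - u') G1 + (v - v') G2)`, `G2` is prime to `h, h'` (`hG.cog`), `ind_two`.  There are at most `9` pairs `(h, h')`.  A class modulo `p` contains at most `(2N/p + 1) ^ 2` vectors of the box.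
Total: `∑_{P0 < p ≤ N} 9 (3N/p) ^ 2 + ∑_{N < p ≤ C N ^ (3/2)} 9 * 9 ≤ 81 N²/P0 + 81 C N ^ (3/2)`. -/

set_option autoImplicit false

namespace O1

open Polynomial Finset TW FQQ

private theorem TC_syl {R : Type} [CommRing R] (f g : R[X]) (m n : ℕ) (hf : f.natDegree ≤ m) (hg : g.natDegree ≤ n)
    (j : Fin (m + n)) : ∃ Q : R[X], Q.natDegree < m + n ∧ (f ∣ Q ∨ g ∣ Q) ∧
      ∀ i : Fin (m + n), sylvester f g m n i j = Q.coeff i := by
  refine Fin.addCases (fun j₁ => ?_) (fun j₁ => ?_) j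
  · refine ⟨g * X ^ (j₁ : ℕ), ?_, Or.inr (dvd_mul_right _ _), fun i => ?_⟩
    · have h1 : (g * X ^ (j₁ : ℕ)).natDegree ≤ g.natDegree + (j₁ : ℕ) :=
        natDegree_mul_le.trans (Nat.add_le_add_left (natDegree_X_pow_le _) _)
      have := j₁.2
      omega
    · rw [sylvester, Matrix.of_apply, Fin.addCases_left, coeff_mul_X_pow']
      by_cases h1 : (j₁ : ℕ) ≤ (i : ℕ)
      · rw [if_pos h1]
        split_ifs with h2
        · rfl
        · rw [coeff_eq_zero_of_natDegree_lt]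
          rw [Set.mem_Icc] at h2
          omega
      · rw [if_neg h1, if_neg]
        rw [Set.mem_Icc]
        omega
  · refine ⟨f * X ^ (j₁ : ℕ), ?_, Or.inl (dvd_mul_right _ _), fun i => ?_⟩
    · have h1 : (f * X ^ (j₁ : ℕ)).natDegree ≤ f.natDegree + (j₁ : ℕ) :=
        natDegree_mul_le.trans (Nat.add_le_add_left (natDegree_X_pow_le _) _)
      have := j₁.2
      omega
    · rw [sylvester, Matrix.of_apply, Fin.addCases_right, coeff_mul_X_pow']
      by_cases h1 : (j₁ : ℕ) ≤ (i : ℕ)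
      · rw [if_pos h1]
        split_ifs with h2
        · rfl
        · rw [coeff_eq_zero_of_natDegree_lt]
          rw [Set.mem_Icc] at h2
          omega
      · rw [if_neg h1, if_neg]
        rw [Set.mem_Icc]
        omega

/-- two rows divisible by `p` -/
private theorem TC_rows {k : ℕ} (A : Matrix (Fin k) (Fin k) ℤ) (a b : Fin k) (hab : a ≠ b) (p : ℤ)
    (ha : ∀ j, p ∣ A a j) (hb : ∀ j, p ∣ A b j) : p ^ 2 ∣ A.det := by
  rw [Matrix.det_apply]
  refine Finset.dvd_sum fun σ _ => ?_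
  rw [Units.smul_def, smul_eq_mul]
  refine Dvd.dvd.mul_left ?_ _
  have h1 : (∏ i, A (σ i) i) = (A a (σ.symm a) * A b (σ.symm b)) *
      ∏ i ∈ (Finset.univ.erase (σ.symm a)).erase (σ.symm b), A (σ i) i := by
    rw [← Finset.mul_prod_erase Finset.univ _ (Finset.mem_univ (σ.symm a)),
      ← Finset.mul_prod_erase (Finset.univ.erase (σ.symm a)) _
        (Finset.mem_erase.2 ⟨fun h => hab (σ.symm.injective h).symm, Finset.mem_univ (σ.symm b)⟩)]
    simp only [Equiv.apply_symm_apply]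
    ring
  rw [h1, sq]
  exact Dvd.dvd.mul_right (mul_dvd_mul (ha _) (hb _)) _

private theorem TC_key (p : ℕ) (f P : ℤ[X]) (m n : ℕ) (hf : f.natDegree ≤ m) (hP : P.natDegree ≤ n) (W : ℤ[X])
    (hW : W.Monic) (hd : 2 ≤ W.natDegree) (h1 : red p W ∣ red p f) (h2 : red p W ∣ red p P) (hmn : 2 ≤ m + n) :
    (p : ℤ) ^ 2 ∣ resultant f P m n := by
  set U : Matrix (Fin (m + n)) (Fin (m + n)) ℤ := fun i j =>
    if (i : ℕ) < 2 then ((X ^ (j : ℕ) : ℤ[X]) %ₘ W).coeff i else if i = j then 1 else 0 with hU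
  have hW1 : W ≠ 1 := by
    intro h
    rw [h, natDegree_one] at hd
    omega
  -- small powers are their own remainders
  have hs : ∀ j : ℕ, j < 2 → (X ^ j : ℤ[X]) %ₘ W = X ^ j := by
    intro j hj
    rw [modByMonic_eq_self_iff hW]
    apply degree_lt_degree
    rw [natDegree_X_pow]
    omega
  have hdet : U.det = 1 := by
    rw [Matrix.det_of_isUpperTriangular]
    · refine Finset.prod_eq_one fun i _ => ?_
      simp only [hU]
      split_ifs with h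
      · rw [hs _ h, coeff_X_pow, if_pos rfl]
      · rfl
    · intro i j hij
      have hij' : (j : ℕ) < (i : ℕ) := hij
      simp only [hU]
      split_ifs with h h3
      · rw [hs _ (by omega), coeff_X_pow, if_neg (by omega)]
      · exact absurd (congrArg Fin.val h3) (by omega)
      · rfl
  have hrow : ∀ i : Fin (m + n), (i : ℕ) < 2 → ∀ j, (p : ℤ) ∣ (U * sylvester f P m n) i j := by
    intro i hi j
    obtain ⟨Q, hQ, hQd, hQc⟩ := TC_syl f P m n hf hP j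
    have e1 : (U * sylvester f P m n) i j = (Q %ₘ W).coeff i := by
      rw [Matrix.mul_apply]
      have e2 : Q %ₘ W = ∑ l ∈ range (m + n), (Q.coeff l) • ((X ^ l : ℤ[X]) %ₘ W) := by
        conv_lhs => rw [Q.as_sum_range_C_mul_X_pow' hQ]
        have := map_sum (Polynomial.modByMonicHom W) (fun l => C (Q.coeff l) * X ^ l) (range (m + n))
        simp only [Polynomial.modByMonicHom_apply] at this
        rw [this]
        refine Finset.sum_congr rfl fun l _ => ?_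
        rw [← smul_eq_C_mul, smul_modByMonic]
      rw [e2, finsetSum_coeff, Finset.sum_range]
      refine Finset.sum_congr rfl fun l _ => ?_
      rw [hQc l, coeff_smul, smul_eq_mul, mul_comm]
      simp only [hU]
      rw [if_pos hi]
    rw [e1, ← ZMod.intCast_zmod_eq_zero_iff_dvd]
    have e3 : red p (Q %ₘ W) = 0 := by
      have hWr : (red p W).Monic := hW.map _
      unfold red at *
      rw [map_modByMonic _ hW, (modByMonic_eq_zero_iff_dvd hWr)]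
      rcases hQd with h | h
      · exact h1.trans (Polynomial.map_dvd _ h)
      · exact h2.trans (Polynomial.map_dvd _ h)
    have e4 := congrArg (fun q => q.coeff (i : ℕ)) e3
    simp only [red, coeff_map, coeff_zero, eq_intCast] at e4
    exact e4
  have hfin : (p : ℤ) ^ 2 ∣ (U * sylvester f P m n).det :=
    TC_rows _ ⟨0, by omega⟩ ⟨1, by omega⟩ (by intro h; simpa using congrArg Fin.val h) _
      (hrow _ (by norm_num)) (hrow _ (by norm_num))
  rw [Matrix.det_mul, hdet, one_mul] at hfin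
  exact hfin

theorem two_places {g : ℤ[X]} (hg : g.Monic) (hd : g.natDegree = 3) (p : ℕ) (hp : p.Prime) (P : ℤ[X]) (h h' : (ZMod p)[X])
    (hh : Fac g p h) (hh' : Fac g p h') (h1 : h ∣ red p P) (h2 : h' ∣ red p P) (hne : ¬ (h = h' ∧ h.natDegree = 1)) :
    (p : ℤ) ^ 2 ∣ nm g P := by
  have : Fact p.Prime := ⟨hp⟩
  -- the common factor of degree at least two
  obtain ⟨w, hwm, hwd, hwg, hwP⟩ : ∃ w : (ZMod p)[X], w.Monic ∧ 2 ≤ w.natDegree ∧ w ∣ red p g ∧ w ∣ red p P := by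
    have hpos : 1 ≤ h.natDegree := hh.2.1.natDegree_pos
    have hpos' : 1 ≤ h'.natDegree := hh'.2.1.natDegree_pos
    by_cases he : h = h'
    · refine ⟨h, hh.1, ?_, hh.2.2, h1⟩
      have : h.natDegree ≠ 1 := fun h3 => hne ⟨he, h3⟩
      omega
    · have hco : IsCoprime h h' := by
        rw [hh.2.1.coprime_iff_not_dvd]
        intro hdv
        exact he (eq_of_monic_of_associated hh.1 hh'.1 (hh.2.1.associated_of_dvd hh'.2.1 hdv))
      refine ⟨h * h', hh.1.mul hh'.1, ?_, hco.mul_dvd hh.2.2 hh'.2.2, hco.mul_dvd h1 h2⟩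
      rw [hh.1.natDegree_mul hh'.1]
      omega
  have hlift : w ∈ Polynomial.lifts (Int.castRingHom (ZMod p)) := by
    rw [Polynomial.mem_lifts]
    exact Polynomial.map_surjective _ (ZMod.intCast_surjective) w
  obtain ⟨W, hW1, hW2, hW3⟩ := lifts_and_natDegree_eq_and_monic hlift hwm
  rw [nm]
  refine TC_key p g P _ _ le_rfl le_rfl W hW3 (by rw [hW2]; exact hwd) ?_ ?_ (by omega)
  · unfold red at *
    rw [hW1]
    exact hwg
  · unfold red at *
    rw [hW1]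
    exact hwP

private theorem TC_mem {N : ℕ} {f : Vn 1} (hf : f ∈ boxN 1 N) (i : Fin 2) : f i ∈ Icc (-(N : ℤ)) (N : ℤ) := by
  unfold boxN at hf
  exact Fintype.mem_piFinset.1 hf i

/-- the number of integers of a class in an interval -/
private theorem TC_cls (N p : ℕ) (hN : 1 ≤ N) (hp : 0 < p) (a : ℤ) :
    (((Icc (-(N : ℤ)) (N : ℤ)).filter fun x => (p : ℤ) ∣ x - a).card : ℝ) ≤ 3 * (N : ℝ) / p + 1 := by
  have h1 : ((Icc (-(N : ℤ)) (N : ℤ)).filter fun x => (p : ℤ) ∣ x - a) ⊆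
      ((Ioc (-(N : ℤ) - 1) (N : ℤ)).filter fun x => x ≡ a [ZMOD (p : ℤ)]) := by
    intro x hx
    rw [Finset.mem_filter, Finset.mem_Icc] at hx
    rw [Finset.mem_filter, Finset.mem_Ioc]
    refine ⟨⟨by omega, hx.1.2⟩, ?_⟩
    exact (Int.modEq_iff_dvd.2 hx.2).symm
  have h2 := Finset.card_le_card h1
  have hp' : (0 : ℤ) < (p : ℤ) := by exact_mod_cast hp
  have h3 := Int.Ioc_filter_modEq_card (-(N : ℤ) - 1) (N : ℤ) hp' a
  have h4 : ((((Ioc (-(N : ℤ) - 1) (N : ℤ)).filter fun x => x ≡ a [ZMOD (p : ℤ)]).card : ℤ) : ℝ) ≤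
      3 * (N : ℝ) / p + 1 := by
    rw [h3]
    have hpR : (0 : ℝ) < (p : ℝ) := by exact_mod_cast hp
    have hNR : (1 : ℝ) ≤ (N : ℝ) := by exact_mod_cast hN
    have hq : (0 : ℚ) < (p : ℚ) := by exact_mod_cast hp
    have h5 : ((⌊((N : ℤ) - a : ℚ) / ((p : ℤ) : ℚ)⌋ - ⌊(((-(N : ℤ) - 1 : ℤ) : ℚ) - a) / ((p : ℤ) : ℚ)⌋ : ℤ) : ℚ) ≤
        (3 * (N : ℚ)) / p + 1 := by
      push_cast
      have h6 := Int.floor_le (((N : ℚ) - a) / (p : ℚ))
      have h7 := Int.lt_floor_add_one ((-(N : ℚ) - 1 - a) / (p : ℚ))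
      have hNQ : (1 : ℚ) ≤ (N : ℚ) := by exact_mod_cast hN
      have h8 : ((N : ℚ) - a) / (p : ℚ) - (-(N : ℚ) - 1 - a) / (p : ℚ) ≤ (3 * (N : ℚ)) / p := by
        rw [← sub_div]
        exact div_le_div_of_nonneg_right (by linarith) hq.le
      linarith
    push_cast
    refine max_le ?_ (by positivity)
    have h6 : (((⌊((N : ℤ) - a : ℚ) / ((p : ℤ) : ℚ)⌋ - ⌊(((-(N : ℤ) - 1 : ℤ) : ℚ) - a) / ((p : ℤ) : ℚ)⌋ : ℤ) : ℚ) : ℝ) ≤
        (((3 * (N : ℚ)) / p + 1 : ℚ) : ℝ) := by exact_mod_cast h5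
    push_cast at h6
    exact h6
  calc (((Icc (-(N : ℤ)) (N : ℤ)).filter fun x => (p : ℤ) ∣ x - a).card : ℝ)
      ≤ (((Ioc (-(N : ℤ) - 1) (N : ℤ)).filter fun x => x ≡ a [ZMOD (p : ℤ)]).card : ℝ) := by exact_mod_cast h2
    _ ≤ 3 * (N : ℝ) / p + 1 := by exact_mod_cast h4

/-- vectors of the box congruent to a given one -/
private theorem TC_cls2 (N p : ℕ) (hN : 1 ≤ N) (hp : 0 < p) (S : Finset (Vn 1)) (hS : S ⊆ boxN 1 N)
    (h : ∀ f ∈ S, ∀ f' ∈ S, ∀ i, (p : ℤ) ∣ f i - f' i) :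
    (S.card : ℝ) ≤ 2 + 18 * (N : ℝ) ^ 2 * ((p : ℝ) ^ 2)⁻¹ := by
  have hpR : (0 : ℝ) < (p : ℝ) := by exact_mod_cast hp
  rcases S.eq_empty_or_nonempty with h0 | ⟨f0, hf0⟩
  · rw [h0, Finset.card_empty, Nat.cast_zero]
    positivity
  · set T : Fin 2 → Finset ℤ := fun i => (Icc (-(N : ℤ)) (N : ℤ)).filter fun x => (p : ℤ) ∣ x - f0 i with hT
    have h1 : S.card ≤ (T 0 ×ˢ T 1).card := by
      refine Finset.card_le_card_of_injOn (fun f => (f 0, f 1)) ?_ ?_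
      · intro f hf
        rw [Finset.mem_coe] at hf
        rw [Finset.mem_coe, Finset.mem_product]
        exact ⟨Finset.mem_filter.2 ⟨TC_mem (hS hf) 0, h f hf f0 hf0 0⟩,
          Finset.mem_filter.2 ⟨TC_mem (hS hf) 1, h f hf f0 hf0 1⟩⟩
      · intro f _ f' _ hff
        have e1 := congrArg Prod.fst hff
        have e2 := congrArg Prod.snd hff
        simp only at e1 e2
        funext i
        fin_cases i
        · exact e1
        · exact e2
    rw [Finset.card_product] at h1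
    have h2 : (S.card : ℝ) ≤ ((T 0).card : ℝ) * ((T 1).card : ℝ) := by exact_mod_cast h1
    have h3 := TC_cls N p hN hp (f0 0)
    have h4 := TC_cls N p hN hp (f0 1)
    have h5 : ((T 0).card : ℝ) * ((T 1).card : ℝ) ≤ (3 * (N : ℝ) / p + 1) * (3 * (N : ℝ) / p + 1) :=
      mul_le_mul h3 h4 (Nat.cast_nonneg _) (by positivity)
    have h6 : (3 * (N : ℝ) / p + 1) * (3 * (N : ℝ) / p + 1) ≤ 2 + 18 * (N : ℝ) ^ 2 * ((p : ℝ) ^ 2)⁻¹ := by
      have e1 : 18 * (N : ℝ) ^ 2 * ((p : ℝ) ^ 2)⁻¹ = 2 * (3 * (N : ℝ) / p) ^ 2 := by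
        field_simp
        ring
      rw [e1]
      nlinarith [sq_nonneg (3 * (N : ℝ) / p - 1)]
    linarith

open Classical in
/-- the monic irreducible factors -/
private theorem TC_fac {g : ℤ[X]} (hg : g.Monic) (hd : g.natDegree = 3) (p : ℕ) (hp : p.Prime) :
    ∃ F : Finset (ZMod p)[X], F.card ≤ 3 ∧ ∀ h, Fac g p h → h ∈ F := by
  have : Fact p.Prime := ⟨hp⟩
  have hgm : (red p g).Monic := hg.map _
  have hgd : (red p g).natDegree = 3 := by
    unfold red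
    rw [hg.natDegree_map, hd]
  refine ⟨(UniqueFactorizationMonoid.normalizedFactors (red p g)).toFinset, ?_, ?_⟩
  · refine (Multiset.toFinset_card_le _).trans ?_
    have h0 : (0 : (ZMod p)[X]) ∉ UniqueFactorizationMonoid.normalizedFactors (red p g) :=
      UniqueFactorizationMonoid.zero_notMem_normalizedFactors _
    have h1 := leadingCoeff_mul_prod_normalizedFactors (red p g)
    rw [hgm.leadingCoeff, map_one, one_mul] at h1
    have h2 := natDegree_multiset_prod _ h0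
    rw [h1, hgd] at h2
    rw [h2]
    have h3 := Multiset.card_nsmul_le_sum (s := (UniqueFactorizationMonoid.normalizedFactors (red p g)).map natDegree)
      (a := 1) ?_
    · rw [Multiset.card_map, smul_eq_mul, mul_one] at h3
      exact h3
    · intro x hx
      rw [Multiset.mem_map] at hx
      obtain ⟨q, hq, rfl⟩ := hx
      exact (UniqueFactorizationMonoid.irreducible_of_normalized_factor q hq).natDegree_pos
  · intro h hh
    rw [Multiset.mem_toFinset, Polynomial.mem_normalizedFactors_iff hgm.ne_zero]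
    exact ⟨hh.2.1, hh.1, hh.2.2⟩

/-- the class modulo `p` is determined by the pair of places -/
private theorem TC_det {g G1 G2 : ℤ[X]} (hD : Dat g G1 G2) {P0 B : ℕ} (hG : Good g G1 G2 P0 B) (p : ℕ) (hp : p.Prime)
    (hpB : ¬ p ∣ B) (h h' : (ZMod p)[X]) (hh : Fac g p h) (hh' : Fac g p h') (hne : ¬ (h = h' ∧ h.natDegree = 1))
    (f f' : Vn 1) (a1 : h ∣ red p (AA G1 G2 (f 1) (f 0))) (a2 : h' ∣ red p (AA G1 G2 (f 1) (f 0)))
    (b1 : h ∣ red p (AA G1 G2 (f' 1) (f' 0))) (b2 : h' ∣ red p (AA G1 G2 (f' 1) (f' 0))) (i : Fin 2) :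
    (p : ℤ) ∣ f i - f' i := by
  have : Fact p.Prime := ⟨hp⟩
  rw [aa_red] at a1 a2 b1 b2
  have key : ∀ w : (ZMod p)[X], Fac g p w → w ∣ AA (red p G1) (red p G2) ((f 1 : ℤ) : ZMod p) ((f 0 : ℤ) : ZMod p) →
      w ∣ AA (red p G1) (red p G2) ((f' 1 : ℤ) : ZMod p) ((f' 0 : ℤ) : ZMod p) →
      w ∣ C (((f 1 : ℤ) : ZMod p) - ((f' 1 : ℤ) : ZMod p)) * red p G1 +
        C (((f 0 : ℤ) : ZMod p) - ((f' 0 : ℤ) : ZMod p)) * red p G2 := by
    intro w hw c1 c2
    have c3 := dvd_sub c1 c2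
    have e1 : AA (red p G1) (red p G2) ((f 1 : ℤ) : ZMod p) ((f 0 : ℤ) : ZMod p) -
        AA (red p G1) (red p G2) ((f' 1 : ℤ) : ZMod p) ((f' 0 : ℤ) : ZMod p) =
        red p G2 * (C (((f 1 : ℤ) : ZMod p) - ((f' 1 : ℤ) : ZMod p)) * red p G1 +
        C (((f 0 : ℤ) : ZMod p) - ((f' 0 : ℤ) : ZMod p)) * red p G2) := by
      unfold AA
      rw [C_sub, C_sub]
      ring
    rw [e1] at c3
    have hco : IsCoprime w (red p G2) := (hG.cog p hp hpB).of_isCoprime_of_dvd_left hw.2.2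
    exact hco.dvd_of_dvd_mul_left c3
  have hk := ind_two hD hG p hp hpB _ _ h h' hh hh' (key h hh a1 b1) (key h' hh' a2 b2) hne
  have h1 := sub_eq_zero.1 hk.1
  have h0 := sub_eq_zero.1 hk.2
  have c : ∀ i : Fin 2, ((f i : ℤ) : ZMod p) = ((f' i : ℤ) : ZMod p) := by
    intro i
    fin_cases i
    · exact h0
    · exact h1
  have := c i
  rw [ZMod.intCast_eq_intCast_iff_dvd_sub] at this
  rw [← neg_sub]
  exact (dvd_neg).2 this

open Classical in
theorem t2_count {g G1 G2 : ℤ[X]} (hD : Dat g G1 G2) : ∃ C : ℝ, 0 < C ∧ ∀ P0 B : ℕ, 1 ≤ P0 → Good g G1 G2 P0 B → ∃ N0 : ℕ, ∀ N : ℕ, N0 ≤ N →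
    (((boxN 1 N).filter fun f => ¬ ∀ p : ℕ, p.Prime → ¬ p ∣ B → ∀ h h', Fac g p h → Fac g p h' → h ∣ red p (AA G1 G2 (f 1) (f 0)) →
      h' ∣ red p (AA G1 G2 (f 1) (f 0)) → h = h' ∧ h.natDegree = 1).card : ℝ) ≤ C * (N : ℝ) ^ 2 / P0 := by
  obtain ⟨C0, hC0, hC⟩ := aa_le hD
  refine ⟨163, by norm_num, fun P0 B hP0 hG => ⟨⌈324 * C0 * (P0 : ℝ) ^ 2⌉₊ + 1, fun N hN => ?_⟩⟩
  have hN1 : 1 ≤ N := by omega
  have hNR : (1 : ℝ) ≤ (N : ℝ) := by exact_mod_cast hN1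
  have hPR : (1 : ℝ) ≤ (P0 : ℝ) := by exact_mod_cast hP0
  have hN2 : 324 * C0 * (P0 : ℝ) ^ 2 ≤ (N : ℝ) := by
    refine (Nat.le_ceil _).trans ?_
    exact_mod_cast (Nat.le_succ _).trans hN
  set L : ℕ := Nat.sqrt ⌊C0 * (N : ℝ) ^ 3⌋₊ with hL
  have hL2 : (L : ℝ) ^ 2 ≤ C0 * (N : ℝ) ^ 3 := by
    have h1 : L ^ 2 ≤ ⌊C0 * (N : ℝ) ^ 3⌋₊ := by
      rw [sq]
      exact Nat.sqrt_le _
    calc (L : ℝ) ^ 2 = ((L ^ 2 : ℕ) : ℝ) := by push_cast; rfl
      _ ≤ (⌊C0 * (N : ℝ) ^ 3⌋₊ : ℝ) := by exact_mod_cast h1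
      _ ≤ C0 * (N : ℝ) ^ 3 := Nat.floor_le (by positivity)
  -- the bad sets
  set E : ℕ → Finset (Vn 1) := fun p => (boxN 1 N).filter fun f => p.Prime ∧ ¬ p ∣ B ∧ ∃ h h', Fac g p h ∧ Fac g p h' ∧
    h ∣ red p (AA G1 G2 (f 1) (f 0)) ∧ h' ∣ red p (AA G1 G2 (f 1) (f 0)) ∧ ¬ (h = h' ∧ h.natDegree = 1) with hE
  have hsub : ((boxN 1 N).filter fun f => ¬ ∀ p : ℕ, p.Prime → ¬ p ∣ B → ∀ h h', Fac g p h → Fac g p h' →
      h ∣ red p (AA G1 G2 (f 1) (f 0)) → h' ∣ red p (AA G1 G2 (f 1) (f 0)) → h = h' ∧ h.natDegree = 1) ⊆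
      (Finset.Ioc P0 L).biUnion E := by
    intro f hf
    rw [Finset.mem_filter] at hf
    obtain ⟨hfb, hf2⟩ := hf
    push Not at hf2
    obtain ⟨p, hp, hpB, h, h', hh, hh', h1, h2, hne⟩ := hf2
    have hne' : ¬ (h = h' ∧ h.natDegree = 1) := fun hc => hne hc.1 hc.2
    rw [Finset.mem_biUnion]
    refine ⟨p, ?_, ?_⟩
    · rw [Finset.mem_Ioc]
      constructor
      · by_contra hc
        exact hpB (hG.small p hp (not_lt.1 hc))
      · have hdv := two_places hD.gm hD.gd p hp _ h h' hh hh' h1 h2 hne'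
        have hnz := aa_ne hD hG (f 1) (f 0)
        have hb0 := Finset.mem_Icc.1 (TC_mem hfb 0)
        have hb1 := Finset.mem_Icc.1 (TC_mem hfb 1)
        have hle := hC N (f 1) (f 0) hN1 (abs_le.2 hb1) (abs_le.2 hb0)
        have h3 : ((p : ℤ) ^ 2) ≤ |nm g (AA G1 G2 (f 1) (f 0))| :=
          Int.le_of_dvd (abs_pos.2 hnz) ((dvd_abs _ _).2 hdv)
        have h4 : ((p : ℝ) ^ 2) ≤ C0 * (N : ℝ) ^ 3 := by
          calc ((p : ℝ) ^ 2) = (((p : ℤ) ^ 2 : ℤ) : ℝ) := by push_cast; rfl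
            _ ≤ ((|nm g (AA G1 G2 (f 1) (f 0))| : ℤ) : ℝ) := by exact_mod_cast h3
            _ = |((nm g (AA G1 G2 (f 1) (f 0)) : ℤ) : ℝ)| := Int.cast_abs
            _ ≤ C0 * (N : ℝ) ^ 3 := hle
        rw [hL, Nat.le_sqrt]
        apply Nat.le_floor
        push_cast
        rw [← sq]
        exact h4
    · simp only [hE]
      rw [Finset.mem_filter]
      exact ⟨hfb, hp, hpB, h, h', hh, hh', h1, h2, hne'⟩
  -- every bad set is small
  have hEp : ∀ p : ℕ, ((E p).card : ℝ) ≤ 18 + 162 * (N : ℝ) ^ 2 * ((p : ℝ) ^ 2)⁻¹ := by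
    intro p
    by_cases hpp : p.Prime ∧ ¬ p ∣ B
    · obtain ⟨hp, hpB⟩ := hpp
      obtain ⟨F, hF3, hF⟩ := TC_fac hD.gm hD.gd p hp
      set S : (ZMod p)[X] × (ZMod p)[X] → Finset (Vn 1) := fun w => (boxN 1 N).filter fun f => Fac g p w.1 ∧ Fac g p w.2 ∧
        w.1 ∣ red p (AA G1 G2 (f 1) (f 0)) ∧ w.2 ∣ red p (AA G1 G2 (f 1) (f 0)) ∧ ¬ (w.1 = w.2 ∧ w.1.natDegree = 1) with hS
      have h1 : E p ⊆ (F ×ˢ F).biUnion S := by
        intro f hf
        simp only [hE] at hf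
        rw [Finset.mem_filter] at hf
        obtain ⟨hfb, -, -, h, h', hh, hh', a1, a2, hne⟩ := hf
        rw [Finset.mem_biUnion]
        refine ⟨(h, h'), Finset.mem_product.2 ⟨hF h hh, hF h' hh'⟩, ?_⟩
        simp only [hS]
        rw [Finset.mem_filter]
        exact ⟨hfb, hh, hh', a1, a2, hne⟩
      have h2 : ∀ w ∈ F ×ˢ F, ((S w).card : ℝ) ≤ 2 + 18 * (N : ℝ) ^ 2 * ((p : ℝ) ^ 2)⁻¹ := by
        intro w _
        refine TC_cls2 N p hN1 hp.pos (S w) (Finset.filter_subset _ _) ?_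
        intro f hf f' hf' i
        simp only [hS] at hf hf'
        rw [Finset.mem_filter] at hf hf'
        obtain ⟨-, hh, hh', a1, a2, hne⟩ := hf
        obtain ⟨-, -, -, b1, b2, -⟩ := hf'
        exact TC_det hD hG p hp hpB w.1 w.2 hh hh' hne f f' a1 a2 b1 b2 i
      have h3 : ((E p).card : ℝ) ≤ ∑ w ∈ F ×ˢ F, ((S w).card : ℝ) := by
        have h4 := (Finset.card_le_card h1).trans Finset.card_biUnion_le
        calc ((E p).card : ℝ) ≤ ((∑ w ∈ F ×ˢ F, (S w).card : ℕ) : ℝ) := by exact_mod_cast h4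
          _ = ∑ w ∈ F ×ˢ F, ((S w).card : ℝ) := by push_cast; rfl
      have h4 := Finset.sum_le_card_nsmul (F ×ˢ F) (fun w => ((S w).card : ℝ)) _ h2
      have h5 : ((F ×ˢ F).card : ℝ) ≤ 9 := by
        have h6 : (F ×ˢ F).card ≤ 9 := by
          rw [Finset.card_product]
          nlinarith
        exact_mod_cast h6
      rw [nsmul_eq_mul] at h4
      have h7 : (0 : ℝ) ≤ 2 + 18 * (N : ℝ) ^ 2 * ((p : ℝ) ^ 2)⁻¹ := by positivity
      have h8 := mul_le_mul_of_nonneg_right h5 h7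
      linarith
    · have h1 : E p = ∅ := by
        simp only [hE]
        rw [Finset.filter_eq_empty_iff]
        intro f _ hc
        exact hpp ⟨hc.1, hc.2.1⟩
      rw [h1, Finset.card_empty, Nat.cast_zero]
      positivity
  -- the sum
  have hcard : (((boxN 1 N).filter fun f => ¬ ∀ p : ℕ, p.Prime → ¬ p ∣ B → ∀ h h', Fac g p h → Fac g p h' →
      h ∣ red p (AA G1 G2 (f 1) (f 0)) → h' ∣ red p (AA G1 G2 (f 1) (f 0)) → h = h' ∧ h.natDegree = 1).card : ℝ) ≤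
      ∑ p ∈ Finset.Ioc P0 L, (18 + 162 * (N : ℝ) ^ 2 * ((p : ℝ) ^ 2)⁻¹) := by
    have h4 := (Finset.card_le_card hsub).trans Finset.card_biUnion_le
    calc _ ≤ ((∑ p ∈ Finset.Ioc P0 L, (E p).card : ℕ) : ℝ) := by exact_mod_cast h4
      _ = ∑ p ∈ Finset.Ioc P0 L, ((E p).card : ℝ) := by push_cast; rfl
      _ ≤ _ := Finset.sum_le_sum fun p _ => hEp p
  refine hcard.trans ?_
  rw [Finset.sum_add_distrib, Finset.sum_const, Nat.card_Ioc, nsmul_eq_mul, ← Finset.mul_sum]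
  have hinv : (P0 : ℝ)⁻¹ * (N : ℝ) ^ 2 = (N : ℝ) ^ 2 / P0 := by
    rw [div_eq_mul_inv, mul_comm]
  have h1 : ∑ i ∈ Finset.Ioc P0 L, ((i : ℝ) ^ 2)⁻¹ ≤ (P0 : ℝ)⁻¹ := by
    rcases le_total P0 L with h | h
    · have h2 := sum_Ioc_inv_sq_le_sub (α := ℝ) (show P0 ≠ 0 by omega) h
      have h3 : (0 : ℝ) ≤ (L : ℝ)⁻¹ := by positivity
      linarith
    · rw [Finset.Ioc_eq_empty (by omega), Finset.sum_empty]
      positivity
  have h2 : ((L - P0 : ℕ) : ℝ) * 18 ≤ (N : ℝ) ^ 2 / P0 := by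
    have h3 : ((L - P0 : ℕ) : ℝ) ≤ (L : ℝ) := by exact_mod_cast Nat.sub_le _ _
    have h4 : 18 * (L : ℝ) * (P0 : ℝ) ≤ (N : ℝ) ^ 2 := by
      refine le_of_sq_le_sq ?_ (by positivity)
      calc (18 * (L : ℝ) * (P0 : ℝ)) ^ 2 = 324 * (P0 : ℝ) ^ 2 * (L : ℝ) ^ 2 := by ring
        _ ≤ 324 * (P0 : ℝ) ^ 2 * (C0 * (N : ℝ) ^ 3) := mul_le_mul_of_nonneg_left hL2 (by positivity)
        _ = (324 * C0 * (P0 : ℝ) ^ 2) * (N : ℝ) ^ 3 := by ring
        _ ≤ (N : ℝ) * (N : ℝ) ^ 3 := mul_le_mul_of_nonneg_right hN2 (by positivity)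
        _ = ((N : ℝ) ^ 2) ^ 2 := by ring
    rw [le_div_iff₀ (by linarith)]
    nlinarith
  have h3 : 162 * (N : ℝ) ^ 2 * ∑ i ∈ Finset.Ioc P0 L, ((i : ℝ) ^ 2)⁻¹ ≤ 162 * ((N : ℝ) ^ 2 / P0) := by
    calc 162 * (N : ℝ) ^ 2 * ∑ i ∈ Finset.Ioc P0 L, ((i : ℝ) ^ 2)⁻¹ ≤ 162 * (N : ℝ) ^ 2 * (P0 : ℝ)⁻¹ :=
          mul_le_mul_of_nonneg_left h1 (by positivity)
      _ = 162 * ((N : ℝ) ^ 2 / P0) := by rw [div_eq_mul_inv]; ring
  have h4 : 163 * (N : ℝ) ^ 2 / P0 = 163 * ((N : ℝ) ^ 2 / P0) := by ring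
  rw [h4]
  linarith

end O1
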