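import Pool.Agent.Lib.MP_10e784_agO.IN
import Pool.Agent.Lib.MP_10e784_agF.KN1

/-! JOB TD.  The condition t3 is typical.

`p ∈ QN B N`: `P0 < p ≤ zz N ≤ N`, `p` odd, `p ∤ B`.  If `p ∣ u² - 4v` then modulo `p` `4 AA = (2 G1 + u G2) ^ 2`, so `64 nm g (AA) ≡ nm g (2 G1 + u G2) ^ 2` and `p ∣ nm g (AA)` gives a factor `h` with `h ∣ 2 G1 + u G2` (`van_iff`).  For given `h` there is at most one `u` modulo `p` (two such `u` would give `h ∣ (u - u') G2`,
but `G2` is prime to `h`, `hG.cog`), and `v = u²/4`.  So at most `3` classes of `(u, v)` modulo `p` (`red p g` has at most three monic irreducible factors), each with at most `(2N/p + 1)² ≤ 9 N²/p²` vectors of the box.  `∑_{p > P0} 27/p² ≤ 27/P0`. -/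

set_option autoImplicit false

namespace O1

open Polynomial Finset TW FQQ

private theorem td_card {g : ℤ[X]} (hm : g.Monic) (hd : g.natDegree = 3) (p : ℕ) [Fact p.Prime] (T : Finset (ZMod p)[X])
    (hT : ∀ h ∈ T, Fac g p h) : T.card ≤ 3 := by
  have h1 : ∏ h ∈ T, h ∣ red p g := by
    refine Finset.prod_dvd_of_coprime ?_ fun h hh => (hT h hh).2.2
    intro a ha b hb hab
    have ha' := hT a ha
    have hb' := hT b hb
    refine (ha'.2.1.isCoprime_or_dvd b).resolve_right fun hdv => hab ?_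
    exact Polynomial.eq_of_monic_of_associated ha'.1 hb'.1 (ha'.2.1.associated_of_dvd hb'.2.1 hdv)
  have hred : (red p g).Monic := hm.map _
  have h2 : (red p g).natDegree = 3 := by
    unfold red
    rw [hm.natDegree_map, hd]
  have h3 := Polynomial.natDegree_le_of_dvd h1 hred.ne_zero
  have h4 : (∏ h ∈ T, h).natDegree = ∑ h ∈ T, h.natDegree :=
    Polynomial.natDegree_prod_of_monic _ _ fun h hh => (hT h hh).1
  rw [h2, h4] at h3
  have h5 : ∑ _h ∈ T, 1 ≤ ∑ h ∈ T, h.natDegree :=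
    Finset.sum_le_sum fun h hh => (hT h hh).2.1.natDegree_pos
  rw [Finset.sum_const, smul_eq_mul, mul_one] at h5
  exact le_trans h5 h3

private theorem td_dvd {g G1 G2 : ℤ[X]} (p : ℕ) [Fact p.Prime] (h : (ZMod p)[X]) (hh : Fac g p h) (u v : ℤ)
    (h1 : h ∣ red p (AA G1 G2 u v)) (hd1 : (p : ℤ) ∣ u ^ 2 - 4 * v) :
    h ∣ C (2 : ZMod p) * red p G1 + C (u : ZMod p) * red p G2 := by
  have h2 : (u : ZMod p) ^ 2 = 4 * (v : ZMod p) := by
    have := (ZMod.intCast_zmod_eq_zero_iff_dvd (u ^ 2 - 4 * v) p).mpr hd1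
    push_cast at this
    linear_combination this
  rw [aa_red] at h1
  have h3 : (C (2 : ZMod p) * red p G1 + C (u : ZMod p) * red p G2) ^ 2 =
      C (4 : ZMod p) * AA (red p G1) (red p G2) (u : ZMod p) (v : ZMod p) := by
    unfold AA
    have h4 : C (u : ZMod p) ^ 2 = C (4 : ZMod p) * C (v : ZMod p) := by
      rw [← C_pow, h2, C_mul]
    have h5 : C (2 : ZMod p) ^ 2 = C (4 : ZMod p) := by
      rw [← C_pow]; norm_num
    have h6 : C (2 : ZMod p) * 2 = C (4 : ZMod p) := by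
      have h7 : (2 : (ZMod p)[X]) = C (2 : ZMod p) := (map_ofNat (C : ZMod p →+* (ZMod p)[X]) 2).symm
      rw [h7, ← C_mul]; norm_num
    calc (C (2 : ZMod p) * red p G1 + C (u : ZMod p) * red p G2) ^ 2 =
        C (2 : ZMod p) ^ 2 * red p G1 ^ 2 + (C (2 : ZMod p) * 2) * C (u : ZMod p) * red p G1 * red p G2 +
          C (u : ZMod p) ^ 2 * red p G2 ^ 2 := by ring
      _ = _ := by rw [h4, h5, h6]; ring
  exact hh.2.1.prime.dvd_of_dvd_pow (h3 ▸ Dvd.dvd.mul_left h1 _)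

private theorem td_cong {g G1 G2 : ℤ[X]} (p : ℕ) [Fact p.Prime] (hp2 : (2 : ZMod p) ≠ 0)
    (hcog : IsCoprime (red p g) (red p G2)) (h : (ZMod p)[X]) (hh : Fac g p h) (u v u' v' : ℤ)
    (h1 : h ∣ red p (AA G1 G2 u v)) (hd1 : (p : ℤ) ∣ u ^ 2 - 4 * v)
    (h2 : h ∣ red p (AA G1 G2 u' v')) (hd2 : (p : ℤ) ∣ u' ^ 2 - 4 * v') :
    (p : ℤ) ∣ u - u' ∧ (p : ℤ) ∣ v - v' := by
  have h3 := td_dvd p h hh u v h1 hd1
  have h4 := td_dvd p h hh u' v' h2 hd2
  have h5 : h ∣ C ((u : ZMod p) - (u' : ZMod p)) * red p G2 := by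
    have h6 := dvd_sub h3 h4
    have h7 : (C (2 : ZMod p) * red p G1 + C (u : ZMod p) * red p G2) -
        (C (2 : ZMod p) * red p G1 + C (u' : ZMod p) * red p G2) = C ((u : ZMod p) - (u' : ZMod p)) * red p G2 := by
      rw [C_sub]; ring
    rwa [h7] at h6
  have hcop : IsCoprime h (red p G2) := hcog.of_isCoprime_of_dvd_left hh.2.2
  have h8 : h ∣ C ((u : ZMod p) - (u' : ZMod p)) := hcop.dvd_of_dvd_mul_right h5
  have h9 : (u : ZMod p) - (u' : ZMod p) = 0 := by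
    by_contra hne
    have h10 : IsUnit (C ((u : ZMod p) - (u' : ZMod p))) := isUnit_C.mpr (isUnit_iff_ne_zero.mpr hne)
    exact hh.2.1.not_isUnit (isUnit_of_dvd_unit h8 h10)
  refine ⟨(ZMod.intCast_zmod_eq_zero_iff_dvd _ p).mp (by push_cast; exact h9), ?_⟩
  apply (ZMod.intCast_zmod_eq_zero_iff_dvd _ p).mp
  have e1 := (ZMod.intCast_zmod_eq_zero_iff_dvd (u ^ 2 - 4 * v) p).mpr hd1
  have e2 := (ZMod.intCast_zmod_eq_zero_iff_dvd (u' ^ 2 - 4 * v') p).mpr hd2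
  push_cast at e1 e2 ⊢
  have h11 : (2 : ZMod p) * 2 * ((v : ZMod p) - (v' : ZMod p)) = 0 := by
    linear_combination ((u : ZMod p) + (u' : ZMod p)) * h9 - e1 + e2
  exact (mul_eq_zero.mp h11).resolve_left (mul_ne_zero hp2 hp2)

private theorem td_fib (p N : ℕ) (hp : 0 < p) (T : Finset (Vn 1)) (hT : ∀ f ∈ T, f ∈ boxN 1 N)
    (hc : ∀ f ∈ T, ∀ f' ∈ T, ∀ i, (p : ℤ) ∣ f i - f' i) : T.card ≤ (2 * (2 * N / p) + 1) ^ 2 := by
  rcases T.eq_empty_or_nonempty with h0 | ⟨f0, hf0⟩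
  · rw [h0, Finset.card_empty]; exact Nat.zero_le _
  have hpz : (0 : ℤ) < (p : ℤ) := by exact_mod_cast hp
  rw [show (2 * (2 * N / p) + 1) ^ 2 = (boxN 1 (2 * N / p)).card from (card_boxN 1 (2 * N / p)).symm]
  refine Finset.card_le_card_of_injOn (fun f i => (f i - f0 i) / (p : ℤ)) ?_ ?_
  · intro f hf
    rw [Finset.mem_coe] at hf ⊢
    rw [mem_boxN]
    intro i
    have h1 := mem_boxN.mp (hT f hf) i
    have h2 := mem_boxN.mp (hT f0 hf0) i
    obtain ⟨k, hk⟩ := hc f hf f0 hf0 i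
    have h3 : (f i - f0 i) / (p : ℤ) = k := by rw [hk]; exact Int.mul_ediv_cancel_left k hpz.ne'
    simp only [h3]
    have h4 : (p : ℤ) * |k| ≤ 2 * N := by
      rw [← abs_of_pos hpz, ← abs_mul, ← hk]
      have := abs_sub (f i) (f0 i)
      linarith
    have h5 : |k| ≤ (2 * (N : ℤ)) / (p : ℤ) := by
      rw [Int.le_ediv_iff_mul_le hpz]
      linarith
    push_cast
    exact h5
  · intro f hf f' hf' hff
    funext i
    have h1 := congrFun hff i
    simp only at h1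
    obtain ⟨k, hk⟩ := hc f hf f0 hf0 i
    obtain ⟨k', hk'⟩ := hc f' hf' f0 hf0 i
    rw [hk, hk', Int.mul_ediv_cancel_left k hpz.ne', Int.mul_ediv_cancel_left k' hpz.ne'] at h1
    rw [← h1] at hk'
    linarith

private theorem td_zz (N : ℕ) (hN : 16 ≤ N) : zz N ≤ N := by
  unfold zz
  have hNr : (16 : ℝ) ≤ (N : ℝ) := by exact_mod_cast hN
  have hNpos : (0 : ℝ) < (N : ℝ) := by linarith
  have h1 : Real.exp 1 ≤ Real.log N := by
    have h2 : Real.log 16 ≤ Real.log N := Real.log_le_log (by norm_num) hNr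
    have h3 : Real.log 16 = 4 * Real.log 2 := by
      rw [show (16 : ℝ) = 2 ^ (4 : ℕ) by norm_num, Real.log_pow]; norm_num
    have h4 := Real.log_two_gt_d9
    have h5 := Real.exp_one_lt_d9
    linarith
  have h6 : 1 ≤ Real.log (Real.log N) := by
    rw [Real.le_log_iff_exp_le (lt_of_lt_of_le (Real.exp_pos 1) h1)]
    exact h1
  have h7 : 0 ≤ Real.log N := le_trans (Real.exp_pos 1).le h1
  calc Real.exp (Real.log N / (10000 * Real.log (Real.log N))) ≤ Real.exp (Real.log N) := by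
        apply Real.exp_le_exp.mpr
        apply div_le_self h7
        nlinarith
    _ = N := Real.exp_log hNpos

private theorem td_sum (P0 : ℕ) (hP0 : 1 ≤ P0) (Q : Finset ℕ) (hQ : ∀ p ∈ Q, P0 < p) :
    ∑ p ∈ Q, ((p : ℝ) ^ 2)⁻¹ ≤ 1 / P0 := by
  have h1 : Q ⊆ Ioc P0 (max P0 (Q.sup id)) := by
    intro p hp
    rw [Finset.mem_Ioc]
    exact ⟨hQ p hp, le_trans (Finset.le_sup (f := id) hp) (le_max_right _ _)⟩
  refine le_trans (Finset.sum_le_sum_of_subset_of_nonneg h1 fun p _ _ => by positivity) ?_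
  refine le_trans (sum_Ioc_inv_sq_le_sub (by omega) (le_max_left _ _)) ?_
  have h2 : (0 : ℝ) ≤ ((max P0 (Q.sup id) : ℕ) : ℝ)⁻¹ := by positivity
  rw [one_div]
  linarith

open Classical in
theorem t3_count {g G1 G2 : ℤ[X]} (hD : Dat g G1 G2) : ∃ C : ℝ, 0 < C ∧ ∀ P0 B : ℕ, 1 ≤ P0 → Good g G1 G2 P0 B → ∃ N0 : ℕ, ∀ N : ℕ, N0 ≤ N →
    (((boxN 1 N).filter fun f => ∃ p ∈ QN B N, (p : ℤ) ∣ f 1 ^ 2 - 4 * f 0 ∧ (p : ℤ) ∣ nm g (AA G1 G2 (f 1) (f 0))).card : ℝ) ≤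
      C * (N : ℝ) ^ 2 / P0 := by
  refine ⟨75, by norm_num, fun P0 B hP0 hG => ⟨16, fun N hN => ?_⟩⟩
  have hQ : ∀ p ∈ QN B N, p.Prime ∧ ¬ p ∣ B ∧ p ≤ N ∧ P0 < p := by
    intro p hp
    unfold QN at hp
    rw [Finset.mem_filter, Finset.mem_range] at hp
    obtain ⟨h1, h2, h3⟩ := hp
    refine ⟨h2, h3, ?_, ?_⟩
    · have h4 : p ≤ ⌊zz N⌋₊ := by omega
      refine le_trans h4 (Nat.floor_le_of_le (td_zz N hN))
    · by_contra h4
      exact h3 (hG.small p h2 (by omega))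
  set S : ℕ → Finset (Vn 1) := fun p => (boxN 1 N).filter fun f => (p : ℤ) ∣ f 1 ^ 2 - 4 * f 0 ∧
    (p : ℤ) ∣ nm g (AA G1 G2 (f 1) (f 0)) with hS
  have hone : ∀ p ∈ QN B N, ((S p).card : ℝ) ≤ 75 * (N : ℝ) ^ 2 * ((p : ℝ) ^ 2)⁻¹ := by
    intro p hp
    obtain ⟨hpp, hpB, hpN, hpP⟩ := hQ p hp
    have : Fact p.Prime := ⟨hpp⟩
    have hp2 : (2 : ZMod p) ≠ 0 := by
      intro h0
      have h1 : ((2 : ℕ) : ZMod p) = 0 := by exact_mod_cast h0
      rw [ZMod.natCast_eq_zero_iff] at h1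
      have h2 : p = 2 := (Nat.prime_dvd_prime_iff_eq hpp Nat.prime_two).mp h1
      exact hpB (h2 ▸ hG.two)
    have hex : ∀ f ∈ S p, ∃ h, Fac g p h ∧ h ∣ red p (AA G1 G2 (f 1) (f 0)) := by
      intro f hf
      rw [hS, Finset.mem_filter] at hf
      exact (van_iff hD.gm p hpp (AA G1 G2 (f 1) (f 0))).mpr hf.2.2
    choose! φ hφ1 hφ2 using hex
    have himg : ((S p).image φ).card ≤ 3 := by
      refine td_card hD.gm hD.gd p _ fun h hh => ?_
      obtain ⟨f, hf, rfl⟩ := Finset.mem_image.mp hh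
      exact hφ1 f hf
    have hfib : ∀ η ∈ (S p).image φ, #{f ∈ S p | φ f = η} ≤ (2 * (2 * N / p) + 1) ^ 2 := by
      intro η _
      refine td_fib p N hpp.pos _ ?_ ?_
      · intro f hf
        rw [Finset.mem_filter] at hf
        exact (Finset.mem_filter.mp hf.1).1
      · intro f hf f' hf' i
        rw [Finset.mem_filter] at hf hf'
        have hfS := (Finset.mem_filter.mp hf.1).2
        have hfS' := (Finset.mem_filter.mp hf'.1).2
        have hcg := td_cong p hp2 (hG.cog p hpp hpB) η (hf.2 ▸ hφ1 f hf.1) (f 1) (f 0) (f' 1) (f' 0)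
          (hf.2 ▸ hφ2 f hf.1) hfS.1 (hf'.2 ▸ hφ2 f' hf'.1) hfS'.1
        fin_cases i
        · exact hcg.2
        · exact hcg.1
    have h1 := Finset.card_le_mul_card_image (S p) _ hfib
    have h2 : (S p).card ≤ (2 * (2 * N / p) + 1) ^ 2 * 3 := le_trans h1 (Nat.mul_le_mul_left _ himg)
    have hpr : (0 : ℝ) < (p : ℝ) := by exact_mod_cast hpp.pos
    have h3 : ((2 * (2 * N / p) + 1 : ℕ) : ℝ) ≤ 5 * N / p := by
      have h4 : ((2 * N / p : ℕ) : ℝ) ≤ (2 * N : ℝ) / p := by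
        refine le_trans Nat.cast_div_le ?_
        push_cast
        exact le_rfl
      have h5 : (1 : ℝ) ≤ (N : ℝ) / p := by
        rw [le_div_iff₀ hpr, one_mul]
        exact_mod_cast hpN
      push_cast
      have h6 : (5 * N / p : ℝ) = 2 * ((2 * N : ℝ) / p) + N / p := by ring
      rw [h6]
      linarith
    calc ((S p).card : ℝ) ≤ (((2 * (2 * N / p) + 1) ^ 2 * 3 : ℕ) : ℝ) := by exact_mod_cast h2
      _ = (((2 * (2 * N / p) + 1 : ℕ) : ℝ)) ^ 2 * 3 := by push_cast; ring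
      _ ≤ (5 * N / p : ℝ) ^ 2 * 3 := by
          refine mul_le_mul_of_nonneg_right (pow_le_pow_left₀ (Nat.cast_nonneg _) h3 2) (by norm_num)
      _ = 75 * (N : ℝ) ^ 2 * ((p : ℝ) ^ 2)⁻¹ := by
          rw [div_pow, mul_pow]
          field_simp
          ring
  have hsub : ((boxN 1 N).filter fun f => ∃ p ∈ QN B N, (p : ℤ) ∣ f 1 ^ 2 - 4 * f 0 ∧
      (p : ℤ) ∣ nm g (AA G1 G2 (f 1) (f 0))) ⊆ (QN B N).biUnion S := by
    intro f hf
    rw [Finset.mem_filter] at hf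
    obtain ⟨hfb, p, hp, h1, h2⟩ := hf
    rw [Finset.mem_biUnion]
    exact ⟨p, hp, Finset.mem_filter.mpr ⟨hfb, h1, h2⟩⟩
  calc (((boxN 1 N).filter fun f => ∃ p ∈ QN B N, (p : ℤ) ∣ f 1 ^ 2 - 4 * f 0 ∧
        (p : ℤ) ∣ nm g (AA G1 G2 (f 1) (f 0))).card : ℝ) ≤ (((QN B N).biUnion S).card : ℝ) := by
        exact_mod_cast Finset.card_le_card hsub
    _ ≤ ((∑ p ∈ QN B N, (S p).card : ℕ) : ℝ) := by exact_mod_cast Finset.card_biUnion_le
    _ = ∑ p ∈ QN B N, ((S p).card : ℝ) := by push_cast; rfl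
    _ ≤ ∑ p ∈ QN B N, 75 * (N : ℝ) ^ 2 * ((p : ℝ) ^ 2)⁻¹ := Finset.sum_le_sum hone
    _ = 75 * (N : ℝ) ^ 2 * ∑ p ∈ QN B N, ((p : ℝ) ^ 2)⁻¹ := by rw [Finset.mul_sum]
    _ ≤ 75 * (N : ℝ) ^ 2 * (1 / P0) :=
        mul_le_mul_of_nonneg_left (td_sum P0 hP0 _ fun p hp => (hQ p hp).2.2.2) (by positivity)
    _ = 75 * (N : ℝ) ^ 2 / P0 := by ring

end O1
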