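import Pool.Agent.Lib.MP_10e784_agO.IN
import Pool.Agent.Lib.MP_10e784_ag.TW.TWFacs

/-! JOB TE.  The condition t4 is typical.

`p ∈ QN B N`: `P0 < p ≤ zz N`, `p ^ 2 ≤ N` for large `N`.  If `p ^ 2 ∣ nm g (AA)` then either two factors `h, h'` with `¬ (h = h' ∧ deg h = 1)` divide `red p AA`: at most `9` classes of `(u, v)` modulo `p` (as in TC: `ind_two`, `hG.cog`), or exactly one factor `h = X - C ρ` divides it.  In the second case lift: there is `r ∈ ℤ`, `r ≡ ρ`,
`p ^ 2 ∣ g(r)` (Hensel: `red p g` squarefree), `g = (X - r) q + g(r)`, so modulo `p ^ 2` `nm g P ≡ P(r) * nm q P` (`nm_map` to `ZMod (p^2)`, `resultant_mul_left`), and `p ∤ nm q P` since no factor of `red p q` divides `red p P`.  Hence `p ^ 2 ∣ AA(r) = G1(r)² + u G1(r) G2(r) + v G2(r)²`, `p ∤ G2(r)`: for every `u` one class of `v`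
modulo `p ^ 2`; `r` modulo `p ^ 2` is determined by `ρ`: at most three.  Number: `9 (2N/p + 2)² + 3 (2N+1)(2N/p² + 2) ≤ 200 N²/p²`. -/

set_option autoImplicit false

namespace O1

open Polynomial Finset TW FQQ

/-- integers of size at most `N`, pairwise congruent modulo `q` -/
theorem TE_cls (N q : ℕ) (hq : 1 ≤ q) (T : Finset ℤ) (hT : ∀ t ∈ T, |t| ≤ N)
    (hc : ∀ t ∈ T, ∀ t' ∈ T, (q : ℤ) ∣ t - t') : (T.card : ℝ) ≤ 2 * (N : ℝ) / q + 2 := by
  have hq0 : (0 : ℤ) < q := by exact_mod_cast hq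
  have hqr : (0 : ℝ) < q := by exact_mod_cast hq
  have h1 : T.card ≤ (Icc ((-(N : ℤ)) / q) ((N : ℤ) / q)).card := by
    refine Finset.card_le_card_of_injOn (fun t => t / (q : ℤ)) ?_ ?_
    · intro t ht
      have h2 := abs_le.mp (hT t ht)
      simp only [Finset.coe_Icc, Set.mem_Icc]
      exact ⟨Int.ediv_le_ediv hq0 h2.1, Int.ediv_le_ediv hq0 h2.2⟩
    · intro t ht t' ht' h2
      simp only at h2
      have h3 := hc t ht t' ht'
      have h4 : t' % (q : ℤ) = t % (q : ℤ) := Int.modEq_iff_dvd.mpr h3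
      rw [← Int.mul_ediv_add_emod t q, ← Int.mul_ediv_add_emod t' q, h2, h4]
  have h5 : ((-(N : ℤ)) / q : ℤ) ≤ (N : ℤ) / q + 1 := by
    have : (-(N : ℤ)) / q ≤ (N : ℤ) / q := Int.ediv_le_ediv hq0 (by omega)
    omega
  have h6 : ((Icc ((-(N : ℤ)) / q) ((N : ℤ) / q)).card : ℤ) = (N : ℤ) / q + 1 - (-(N : ℤ)) / q := by
    rw [Int.card_Icc, Int.toNat_of_nonneg (by omega)]
  have h7 : (((N : ℤ) / q : ℤ) : ℝ) ≤ (N : ℝ) / q := by
    rw [le_div_iff₀ hqr]
    have := Int.ediv_mul_le (N : ℤ) (ne_of_gt hq0)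
    exact_mod_cast this
  have h8 : -(N : ℝ) / q - 1 ≤ (((-(N : ℤ)) / q : ℤ) : ℝ) := by
    have h9 := Int.lt_ediv_add_one_mul_self (-(N : ℤ)) hq0
    have h10 : (-(N : ℝ)) < ((((-(N : ℤ)) / q : ℤ) : ℝ) + 1) * q := by exact_mod_cast h9
    have h11 : -(N : ℝ) / q < (((-(N : ℤ)) / q : ℤ) : ℝ) + 1 := by
      rw [div_lt_iff₀ hqr]; exact h10
    linarith
  have h12 : (T.card : ℝ) ≤ ((Icc ((-(N : ℤ)) / q) ((N : ℤ) / q)).card : ℝ) := by exact_mod_cast h1
  have h13 : ((Icc ((-(N : ℤ)) / q) ((N : ℤ) / q)).card : ℝ) =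
      (((N : ℤ) / q : ℤ) : ℝ) + 1 - (((-(N : ℤ)) / q : ℤ) : ℝ) := by exact_mod_cast h6
  have h14 : 2 * (N : ℝ) / q + 2 = (N : ℝ) / q + 1 - (-(N : ℝ) / q - 1) := by ring
  rw [h14]
  linarith

theorem TE_box (N : ℕ) {f : Vn 1} (hf : f ∈ boxN 1 N) (i : Fin 2) : |f i| ≤ N := by
  unfold boxN at hf
  have := Fintype.mem_piFinset.mp hf i
  rw [Finset.mem_Icc] at this
  exact abs_le.mpr this

/-- a set of vectors of the box which are congruent modulo `q` -/
theorem TE_cls2 (N q : ℕ) (hq : 1 ≤ q) (T : Finset (Vn 1)) (hT : ∀ f ∈ T, f ∈ boxN 1 N)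
    (hc : ∀ f ∈ T, ∀ f' ∈ T, ∀ i, (q : ℤ) ∣ f i - f' i) : (T.card : ℝ) ≤ (2 * (N : ℝ) / q + 2) ^ 2 := by
  classical
  have h1 : ∀ i : Fin 2, ((T.image fun f => f i).card : ℝ) ≤ 2 * (N : ℝ) / q + 2 := by
    intro i
    refine TE_cls N q hq _ ?_ ?_
    · intro t ht
      obtain ⟨f, hf, rfl⟩ := Finset.mem_image.mp ht
      exact TE_box N (hT f hf) i
    · intro t ht t' ht'
      obtain ⟨f, hf, rfl⟩ := Finset.mem_image.mp ht
      obtain ⟨f', hf', rfl⟩ := Finset.mem_image.mp ht'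
      exact hc f hf f' hf' i
  have h2 : T.card ≤ ((T.image fun f => f 0) ×ˢ (T.image fun f => f 1)).card := by
    refine Finset.card_le_card_of_injOn (fun f => (f 0, f 1)) ?_ ?_
    · intro f hf
      simp only [Finset.coe_product, Set.mem_prod, Finset.mem_coe]
      exact ⟨Finset.mem_image_of_mem _ hf, Finset.mem_image_of_mem _ hf⟩
    · intro f _ f' _ h
      simp only [Prod.mk.injEq] at h
      funext i
      fin_cases i
      · exact h.1
      · exact h.2
  rw [Finset.card_product] at h2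
  have h3 : (T.card : ℝ) ≤ ((T.image fun f => f 0).card : ℝ) * ((T.image fun f => f 1).card : ℝ) := by
    exact_mod_cast h2
  have h4 : (0 : ℝ) ≤ 2 * (N : ℝ) / q + 2 := by positivity
  calc (T.card : ℝ) ≤ _ := h3
    _ ≤ (2 * (N : ℝ) / q + 2) * (2 * (N : ℝ) / q + 2) := by
        exact mul_le_mul (h1 0) (h1 1) (by positivity) h4
    _ = _ := by ring

/-- a set of vectors of the box such that the coordinate `1` determines the class modulo `q` of the coordinate `0` -/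
theorem TE_cls3 (N q : ℕ) (hq : 1 ≤ q) (T : Finset (Vn 1)) (hT : ∀ f ∈ T, f ∈ boxN 1 N)
    (hc : ∀ f ∈ T, ∀ f' ∈ T, f 1 = f' 1 → (q : ℤ) ∣ f 0 - f' 0) :
    (T.card : ℝ) ≤ (2 * (N : ℝ) + 1) * (2 * (N : ℝ) / q + 2) := by
  classical
  have h1 : T.card = ∑ u ∈ Icc (-(N : ℤ)) N, (T.filter fun f => f 1 = u).card := by
    refine Finset.card_eq_sum_card_fiberwise ?_
    intro f hf
    have := abs_le.mp (TE_box N (hT f hf) 1)
    simp only [Finset.coe_Icc, Set.mem_Icc]
    exact this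
  have h2 : ∀ u ∈ Icc (-(N : ℤ)) N, ((T.filter fun f => f 1 = u).card : ℝ) ≤ 2 * (N : ℝ) / q + 2 := by
    intro u _
    have h3 : (T.filter fun f => f 1 = u).card = ((T.filter fun f => f 1 = u).image fun f => f 0).card := by
      rw [Finset.card_image_of_injOn]
      intro f hf f' hf' h
      simp only [Finset.coe_filter, Set.mem_ofPred_eq] at hf hf'
      funext i
      fin_cases i
      · exact h
      · exact hf.2.trans hf'.2.symm
    rw [h3]
    refine TE_cls N q hq _ ?_ ?_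
    · intro t ht
      obtain ⟨f, hf, rfl⟩ := Finset.mem_image.mp ht
      exact TE_box N (hT f (Finset.mem_filter.mp hf).1) 0
    · intro t ht t' ht'
      obtain ⟨f, hf, rfl⟩ := Finset.mem_image.mp ht
      obtain ⟨f', hf', rfl⟩ := Finset.mem_image.mp ht'
      rw [Finset.mem_filter] at hf hf'
      exact hc f hf.1 f' hf'.1 (hf.2.trans hf'.2.symm)
  rw [h1]
  push_cast
  calc ∑ u ∈ Icc (-(N : ℤ)) N, ((T.filter fun f => f 1 = u).card : ℝ)
      ≤ ∑ _u ∈ Icc (-(N : ℤ)) N, (2 * (N : ℝ) / q + 2) := Finset.sum_le_sum h2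
    _ = _ := by
        rw [Finset.sum_const, Int.card_Icc, nsmul_eq_mul]
        congr 1
        have : ((N : ℤ) + 1 - -(N : ℤ)).toNat = 2 * N + 1 := by omega
        rw [this]
        push_cast
        ring

/-- the two-place case -/
theorem TE_A {g G1 G2 : ℤ[X]} (hD : Dat g G1 G2) {P0 B : ℕ} (hG : Good g G1 G2 P0 B) (p : ℕ) (hp : p.Prime)
    (hpB : ¬ p ∣ B) (h h' : (ZMod p)[X]) (hh : Fac g p h) (hh' : Fac g p h')
    (hne : ¬ (h = h' ∧ h.natDegree = 1)) {u v u' v' : ℤ} (h1 : h ∣ red p (AA G1 G2 u v))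
    (h2 : h' ∣ red p (AA G1 G2 u v)) (h3 : h ∣ red p (AA G1 G2 u' v')) (h4 : h' ∣ red p (AA G1 G2 u' v')) :
    (p : ℤ) ∣ u - u' ∧ (p : ℤ) ∣ v - v' := by
  have : Fact p.Prime := ⟨hp⟩
  have key : ∀ k : (ZMod p)[X], Fac g p k → k ∣ red p (AA G1 G2 u v) → k ∣ red p (AA G1 G2 u' v') →
      k ∣ C ((u : ZMod p) - u') * red p G1 + C ((v : ZMod p) - v') * red p G2 := by
    intro k hk h5 h6
    have h7 : k ∣ red p G2 * (C ((u : ZMod p) - u') * red p G1 + C ((v : ZMod p) - v') * red p G2) := by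
      have h8 := dvd_sub h5 h6
      rw [aa_red, aa_red] at h8
      unfold AA at h8
      convert h8 using 1
      simp only [map_sub]
      ring
    have h10 : IsCoprime k (red p G2) := (hG.cog p hp hpB).of_isCoprime_of_dvd_left hk.2.2
    exact h10.dvd_of_dvd_mul_left h7
  have h9 := ind_two hD hG p hp hpB ((u : ZMod p) - u') ((v : ZMod p) - v') h h' hh hh' (key h hh h1 h3) (key h' hh' h2 h4) hne
  constructor
  · rw [← ZMod.intCast_zmod_eq_zero_iff_dvd]; push_cast; exact h9.1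
  · rw [← ZMod.intCast_zmod_eq_zero_iff_dvd]; push_cast; exact h9.2

/-- lifting a root -/
theorem TE_lift {g : ℤ[X]} (p : ℕ) (hp : p.Prime) (hs : Squarefree (red p g)) (ρ : ZMod p) (hr : (red p g).eval ρ = 0) :
    ∃ r : ℤ, (r : ZMod p) = ρ ∧ (p : ℤ) ^ 2 ∣ g.eval r := by
  have : Fact p.Prime := ⟨hp⟩
  obtain ⟨r0, hr0⟩ := ZMod.intCast_surjective ρ
  set q := g /ₘ (X - C r0) with hq
  have hgq : g = (X - C r0) * q + C (g.eval r0) := by
    conv_lhs => rw [← modByMonic_add_div g (X - C r0), modByMonic_X_sub_C_eq_C_eval]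
    rw [hq]; ring
  have h1 : ((g.eval r0 : ℤ) : ZMod p) = 0 := by
    have : (red p g).eval ((r0 : ℤ) : ZMod p) = ((g.eval r0 : ℤ) : ZMod p) := by
      unfold red
      have := Polynomial.eval_map_apply (f := Int.castRingHom (ZMod p)) (p := g) r0
      simpa using this
    rw [← this, hr0]; exact hr
  have h2 : red p g = (X - C ρ) * red p q := by
    have h3 := congrArg (red p) hgq
    unfold red at h3 ⊢
    rw [h3, Polynomial.map_add, Polynomial.map_mul, Polynomial.map_sub, Polynomial.map_X, Polynomial.map_C,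
      Polynomial.map_C, show (Int.castRingHom (ZMod p)) r0 = ρ from by simpa using hr0,
      show (Int.castRingHom (ZMod p)) (g.eval r0) = 0 from by simpa using h1, map_zero, add_zero]
  have h4 : (red p q).eval ρ ≠ 0 := by
    intro h5
    have h6 : X - C ρ ∣ red p q := dvd_iff_isRoot.mpr h5
    have h7 : (X - C ρ) * (X - C ρ) ∣ red p g := by
      rw [h2]; exact mul_dvd_mul_left _ h6
    exact (Polynomial.not_isUnit_X_sub_C ρ) (hs _ h7)
  have h5 : ((q.eval r0 : ℤ) : ZMod p) ≠ 0 := by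
    have : (red p q).eval ((r0 : ℤ) : ZMod p) = ((q.eval r0 : ℤ) : ZMod p) := by
      unfold red
      have := Polynomial.eval_map_apply (f := Int.castRingHom (ZMod p)) (p := q) r0
      simpa using this
    rw [← this, hr0]; exact h4
  obtain ⟨m, hm⟩ := (ZMod.intCast_zmod_eq_zero_iff_dvd _ p).mp h1
  obtain ⟨k, hk⟩ := ZMod.intCast_surjective (-((m : ZMod p)) * ((q.eval r0 : ℤ) : ZMod p)⁻¹)
  refine ⟨r0 + p * k, ?_, ?_⟩
  · push_cast; simp [hr0]
  · have h8 : g.eval (r0 + p * k) = p * k * q.eval (r0 + p * k) + g.eval r0 := by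
      conv_lhs => rw [hgq]
      simp
    obtain ⟨d, hd⟩ := Polynomial.sub_dvd_eval_sub (r0 + p * k) r0 q
    have h9 : q.eval (r0 + p * k) = q.eval r0 + p * (k * d) := by linear_combination hd
    have h10 : (p : ℤ) ∣ k * q.eval r0 + m := by
      rw [← ZMod.intCast_zmod_eq_zero_iff_dvd]
      push_cast
      rw [hk]
      field_simp
      ring
    obtain ⟨c, hc⟩ := h10
    refine ⟨c + k ^ 2 * d, ?_⟩
    rw [h8, h9, hm]
    linear_combination (p : ℤ) * hc

/-- the norm modulo `n` if `n ∣ g(r)` -/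
theorem TE_mod {g : ℤ[X]} (hg : g.Monic) (P : ℤ[X]) (r : ℤ) (q : ℤ[X]) (hgq : g = (X - C r) * q + C (g.eval r))
    (hqm : q.Monic) (n : ℕ) (hn : 1 < n) (hr : (n : ℤ) ∣ g.eval r) : (n : ℤ) ∣ nm g P - P.eval r * nm q P := by
  rw [← ZMod.intCast_zmod_eq_zero_iff_dvd]
  have : Fact (1 < n) := ⟨hn⟩
  have h3 : (((g.eval r : ℤ) : ZMod n)) = 0 := by
    rw [ZMod.intCast_zmod_eq_zero_iff_dvd]; exact hr
  have h4 : g.map (Int.castRingHom (ZMod n)) = (X - C ((r : ℤ) : ZMod n)) * q.map (Int.castRingHom (ZMod n)) := by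
    have h5 := congrArg (Polynomial.map (Int.castRingHom (ZMod n))) hgq
    rw [h5, Polynomial.map_add, Polynomial.map_mul, Polynomial.map_sub, Polynomial.map_X, Polynomial.map_C,
      Polynomial.map_C, show (Int.castRingHom (ZMod n)) (g.eval r) = 0 from by simpa using h3, map_zero,
      add_zero]
    rfl
  have h6 := nm_map (Int.castRingHom (ZMod n)) hg P
  have h7 := nm_map (Int.castRingHom (ZMod n)) hqm P
  have h8 : nm (g.map (Int.castRingHom (ZMod n))) (P.map (Int.castRingHom (ZMod n))) =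
      (P.map (Int.castRingHom (ZMod n))).eval ((r : ℤ) : ZMod n) *
        nm (q.map (Int.castRingHom (ZMod n))) (P.map (Int.castRingHom (ZMod n))) := by
    rw [h4]
    unfold nm
    have h9 := resultant_mul_left (X - C ((r : ℤ) : ZMod n)) (q.map (Int.castRingHom (ZMod n)))
      (P.map (Int.castRingHom (ZMod n))) (P.map (Int.castRingHom (ZMod n))).natDegree le_rfl
    rw [(monic_X_sub_C _).natDegree_mul (hqm.map _), h9, natDegree_X_sub_C, resultant_X_sub_C_left _ _ _ le_rfl]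
  rw [h6, h7] at h8
  have h10 : (P.map (Int.castRingHom (ZMod n))).eval ((r : ℤ) : ZMod n) = ((P.eval r : ℤ) : ZMod n) := by
    have := Polynomial.eval_map_apply (f := Int.castRingHom (ZMod n)) (p := P) r
    simpa using this
  rw [h10] at h8
  push_cast
  simp only [eq_intCast] at h8
  rw [h8]; ring

/-- the one-place case -/
theorem TE_one {g : ℤ[X]} (hg : g.Monic) (p : ℕ) (hp : p.Prime) (hs : Squarefree (red p g)) (P : ℤ[X]) (r : ℤ)
    (hr : (p : ℤ) ^ 2 ∣ g.eval r) (hu : ∀ h, Fac g p h → h ∣ red p P → h = X - C (r : ZMod p))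
    (hn : (p : ℤ) ^ 2 ∣ nm g P) : (p : ℤ) ^ 2 ∣ P.eval r := by
  have : Fact p.Prime := ⟨hp⟩
  have hdeg : g.natDegree ≠ 0 := by
    intro h0
    have : g = 1 := hg.natDegree_eq_zero.mp h0
    rw [this, eval_one] at hr
    have h2 := Int.eq_one_of_dvd_one (by positivity) hr
    have h3 : (1 : ℤ) < (p : ℤ) := by exact_mod_cast hp.one_lt
    nlinarith
  set q := g /ₘ (X - C r) with hq
  have hgq : g = (X - C r) * q + C (g.eval r) := by
    conv_lhs => rw [← modByMonic_add_div g (X - C r), modByMonic_X_sub_C_eq_C_eval]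
    rw [hq]; ring
  have hqm : q.Monic := by
    have h1 := Polynomial.leadingCoeff_divByMonic_of_monic (p := g) (monic_X_sub_C r) (by
      rw [degree_X_sub_C]
      exact Polynomial.natDegree_pos_iff_degree_pos.mp (Nat.pos_of_ne_zero hdeg) |> fun h => by
        rw [← Nat.cast_one, Polynomial.degree_eq_natDegree hg.ne_zero]
        exact_mod_cast Nat.one_le_iff_ne_zero.mpr hdeg)
    unfold Monic
    rw [hq, h1]; exact hg
  have h2 : (p : ℤ) ^ 2 = ((p ^ 2 : ℕ) : ℤ) := by push_cast; ring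
  have key : (p : ℤ) ^ 2 ∣ nm g P - P.eval r * nm q P := by
    rw [h2]
    exact TE_mod hg P r q hgq hqm (p ^ 2) (Nat.one_lt_pow (by norm_num) hp.one_lt) (h2 ▸ hr)
  have h11 : (p : ℤ) ^ 2 ∣ P.eval r * nm q P := by
    have := dvd_sub hn key
    rwa [sub_sub_cancel] at this
  have h12 : ¬ (p : ℤ) ∣ nm q P := by
    rw [← van_iff hqm p hp P]
    rintro ⟨h, ⟨h13, h14, h15⟩, h16⟩
    have h17 : ((g.eval r : ℤ) : ZMod p) = 0 := by
      rw [ZMod.intCast_zmod_eq_zero_iff_dvd]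
      exact (dvd_pow_self _ (by norm_num)).trans hr
    have h18 : red p g = (X - C ((r : ℤ) : ZMod p)) * red p q := by
      have h3 := congrArg (red p) hgq
      unfold red at h3 ⊢
      rw [h3, Polynomial.map_add, Polynomial.map_mul, Polynomial.map_sub, Polynomial.map_X, Polynomial.map_C,
        Polynomial.map_C, show (Int.castRingHom (ZMod p)) (g.eval r) = 0 from by simpa using h17, map_zero,
        add_zero]
      rfl
    have h19 : Fac g p h := ⟨h13, h14, by rw [h18]; exact h15.mul_left _⟩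
    have h20 := hu h h19 h16
    have h21 : (X - C ((r : ℤ) : ZMod p)) * (X - C ((r : ℤ) : ZMod p)) ∣ red p g := by
      rw [h18]; exact mul_dvd_mul_left _ (h20 ▸ h15)
    exact (Polynomial.not_isUnit_X_sub_C _) (hs _ h21)
  have h22 : IsCoprime ((p : ℤ) ^ 2) (nm q P) := by
    apply IsCoprime.pow_left
    exact (Nat.prime_iff_prime_int.mp hp).coprime_iff_not_dvd.mpr h12
  exact h22.dvd_of_dvd_mul_right h11

/-- the number of the vectors in the box with `p ^ 2 ∣ nm g (AA)` -/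
theorem TE_p {g G1 G2 : ℤ[X]} (hD : Dat g G1 G2) {P0 B : ℕ} (hG : Good g G1 G2 P0 B) (p : ℕ) (hp : p.Prime)
    (hpB : ¬ p ∣ B) (N : ℕ) (hN : p ^ 2 ≤ N) (T : Finset (Vn 1))
    (hT : ∀ f ∈ T, f ∈ boxN 1 N ∧ (p : ℤ) ^ 2 ∣ nm g (AA G1 G2 (f 1) (f 0))) :
    (T.card : ℝ) ≤ 200 * (N : ℝ) ^ 2 * ((p : ℝ) ^ 2)⁻¹ := by
  classical
  have : Fact p.Prime := ⟨hp⟩
  have hgm : (red p g).Monic := hD.gm.map _
  have hg0 : red p g ≠ 0 := hgm.ne_zero
  have hs := hG.sqf p hp hpB
  have hmem : ∀ h, h ∈ facs (red p g) ↔ Fac g p h := fun h => mem_facs hg0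
  have hcard : (facs (red p g)).card ≤ 3 := by
    have h1 := sum_facs hgm hs
    have h2 : (red p g).natDegree = 3 := by
      unfold red
      rw [hD.gm.natDegree_map, hD.gd]
    rw [h2] at h1
    calc (facs (red p g)).card = ∑ h ∈ facs (red p g), 1 := by simp
      _ ≤ ∑ h ∈ facs (red p g), h.natDegree := by
          refine Finset.sum_le_sum fun h hh => ?_
          exact ((hmem h).mp hh).2.1.natDegree_pos
      _ = 3 := h1
  have hp0 : 0 < p := hp.pos
  have hpr : (0 : ℝ) < p := by exact_mod_cast hp0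
  set A : (ZMod p)[X] × (ZMod p)[X] → Finset (Vn 1) := fun k => T.filter fun f =>
    ¬ (k.1 = k.2 ∧ k.1.natDegree = 1) ∧ k.1 ∣ red p (AA G1 G2 (f 1) (f 0)) ∧ k.2 ∣ red p (AA G1 G2 (f 1) (f 0)) with hA
  set E : (ZMod p)[X] → Finset (Vn 1) := fun k => T.filter fun f =>
    (∀ h, Fac g p h → h ∣ red p (AA G1 G2 (f 1) (f 0)) → h = k) ∧ k.natDegree = 1 ∧ k ∣ red p (AA G1 G2 (f 1) (f 0)) with hE
  have hsub : T ⊆ ((facs (red p g)) ×ˢ (facs (red p g))).biUnion A ∪ (facs (red p g)).biUnion E := by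
    intro f hf
    rw [Finset.mem_union]
    have h1 : Van g p (red p (AA G1 G2 (f 1) (f 0))) := by
      rw [van_iff hD.gm p hp]
      exact (dvd_pow_self _ (by norm_num)).trans (hT f hf).2
    obtain ⟨h, hh, h2⟩ := h1
    by_cases h3 : (∀ h', Fac g p h' → h' ∣ red p (AA G1 G2 (f 1) (f 0)) → h' = h) ∧ h.natDegree = 1
    · right
      rw [Finset.mem_biUnion]
      refine ⟨h, (hmem h).mpr hh, ?_⟩
      rw [hE, Finset.mem_filter]
      exact ⟨hf, h3.1, h3.2, h2⟩
    · left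
      rw [Finset.mem_biUnion]
      by_cases h4 : h.natDegree = 1
      · have h5 : ¬ ∀ h', Fac g p h' → h' ∣ red p (AA G1 G2 (f 1) (f 0)) → h' = h := fun h6 => h3 ⟨h6, h4⟩
        push Not at h5
        obtain ⟨h', hh', h6, h7⟩ := h5
        refine ⟨(h, h'), Finset.mem_product.mpr ⟨(hmem h).mpr hh, (hmem h').mpr hh'⟩, ?_⟩
        rw [hA, Finset.mem_filter]
        exact ⟨hf, fun h8 => h7 h8.1.symm, h2, h6⟩
      · refine ⟨(h, h), Finset.mem_product.mpr ⟨(hmem h).mpr hh, (hmem h).mpr hh⟩, ?_⟩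
        rw [hA, Finset.mem_filter]
        exact ⟨hf, fun h8 => h4 h8.2, h2, h2⟩
  have hAc : ∀ k ∈ (facs (red p g)) ×ˢ (facs (red p g)), ((A k).card : ℝ) ≤ (2 * (N : ℝ) / p + 2) ^ 2 := by
    intro k hk
    rw [Finset.mem_product] at hk
    refine TE_cls2 N p hp0 _ ?_ ?_
    · intro f hf
      rw [hA, Finset.mem_filter] at hf
      exact (hT f hf.1).1
    · intro f hf f' hf' i
      rw [hA, Finset.mem_filter] at hf hf'
      have h1 := TE_A hD hG p hp hpB k.1 k.2 ((hmem _).mp hk.1) ((hmem _).mp hk.2) hf.2.1 hf.2.2.1 hf.2.2.2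
        hf'.2.2.1 hf'.2.2.2
      fin_cases i
      · exact h1.2
      · exact h1.1
  have hEc : ∀ k ∈ facs (red p g), ((E k).card : ℝ) ≤ (2 * (N : ℝ) + 1) * (2 * (N : ℝ) / (p ^ 2 : ℕ) + 2) := by
    intro k hk
    have hFk := (hmem k).mp hk
    by_cases hd : k.natDegree = 1
    · have hk1 : k = X - C (-k.coeff 0) := by
        have := hFk.1.eq_X_add_C hd
        rw [this]; simp
      have hroot : (red p g).eval (-k.coeff 0) = 0 := by
        have := hFk.2.2
        rw [hk1] at this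
        exact dvd_iff_isRoot.mp this
      obtain ⟨r, hr, hr2⟩ := TE_lift p hp hs (-k.coeff 0) hroot
      have hk2 : k = X - C (r : ZMod p) := by rw [hr]; exact hk1
      have hG2 : ¬ (p : ℤ) ∣ G2.eval r := by
        intro h1
        have h2 : k ∣ red p G2 := by
          rw [hk2]
          refine dvd_iff_isRoot.mpr ?_
          unfold red IsRoot
          have := Polynomial.eval_map_apply (f := Int.castRingHom (ZMod p)) (p := G2) r
          simp only [eq_intCast] at this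
          rw [this, ZMod.intCast_zmod_eq_zero_iff_dvd]
          exact h1
        have h3 : IsCoprime k (red p G2) := (hG.cog p hp hpB).of_isCoprime_of_dvd_left hFk.2.2
        exact hFk.2.1.not_isUnit (h3.isUnit_of_dvd' (dvd_refl _) h2)
      refine TE_cls3 N (p ^ 2) (Nat.one_le_pow _ _ hp0) _ ?_ ?_
      · intro f hf
        rw [hE, Finset.mem_filter] at hf
        exact (hT f hf.1).1
      · intro f hf f' hf' hff
        rw [hE, Finset.mem_filter] at hf hf'
        have h1 : ∀ f : Vn 1, f ∈ T ∧ (∀ h, Fac g p h → h ∣ red p (AA G1 G2 (f 1) (f 0)) → h = k) ∧ k.natDegree = 1 ∧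
            k ∣ red p (AA G1 G2 (f 1) (f 0)) → (p : ℤ) ^ 2 ∣ (AA G1 G2 (f 1) (f 0)).eval r := by
          intro f hf
          refine TE_one hD.gm p hp hs _ r hr2 ?_ (hT f hf.1).2
          intro h hh h4
          rw [← hk2]
          exact hf.2.1 h hh h4
        have h2 := dvd_sub (h1 f hf) (h1 f' hf')
        have h3 : (AA G1 G2 (f 1) (f 0)).eval r - (AA G1 G2 (f' 1) (f' 0)).eval r = (f 0 - f' 0) * G2.eval r ^ 2 := by
          unfold AA
          rw [hff]
          simp only [eval_add, eval_mul, eval_pow, eval_C]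
          ring
        rw [h3] at h2
        have h4 : IsCoprime ((p : ℤ) ^ 2) (G2.eval r ^ 2) := by
          apply IsCoprime.pow
          exact (Nat.prime_iff_prime_int.mp hp).coprime_iff_not_dvd.mpr hG2
        have h5 := h4.dvd_of_dvd_mul_right h2
        exact_mod_cast h5
    · have h1 : E k = ∅ := by
        rw [hE]
        refine Finset.filter_false_of_mem ?_
        intro f _ h2
        exact hd h2.2.1
      rw [h1, Finset.card_empty, Nat.cast_zero]
      positivity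
  have hN1 : (p : ℝ) ^ 2 ≤ N := by exact_mod_cast hN
  have hp1 : (1 : ℝ) ≤ p := by exact_mod_cast hp.one_lt.le
  have hNp : (p : ℝ) ≤ N := by nlinarith
  have hN2 : (1 : ℝ) ≤ N := by linarith
  have e1 : 2 * (N : ℝ) / p + 2 ≤ 4 * (N : ℝ) / p := by
    rw [div_add' _ _ _ hpr.ne', div_le_div_iff_of_pos_right hpr]
    linarith
  have e2 : 2 * (N : ℝ) / (p ^ 2 : ℕ) + 2 ≤ 4 * (N : ℝ) / (p : ℝ) ^ 2 := by
    push_cast
    rw [div_add' _ _ _ (by positivity), div_le_div_iff_of_pos_right (by positivity)]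
    linarith
  calc (T.card : ℝ) ≤ ((((facs (red p g)) ×ˢ (facs (red p g))).biUnion A ∪ (facs (red p g)).biUnion E).card : ℝ) := by
        exact_mod_cast Finset.card_le_card hsub
    _ ≤ ((((facs (red p g)) ×ˢ (facs (red p g))).biUnion A).card : ℝ) + (((facs (red p g)).biUnion E).card : ℝ) := by
        exact_mod_cast Finset.card_union_le _ _
    _ ≤ ∑ k ∈ (facs (red p g)) ×ˢ (facs (red p g)), ((A k).card : ℝ) + ∑ k ∈ facs (red p g), ((E k).card : ℝ) := by
        refine add_le_add ?_ ?_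
        · exact_mod_cast Finset.card_biUnion_le
        · exact_mod_cast Finset.card_biUnion_le
    _ ≤ ∑ _k ∈ (facs (red p g)) ×ˢ (facs (red p g)), (4 * (N : ℝ) / p) ^ 2 +
        ∑ _k ∈ facs (red p g), (3 * (N : ℝ)) * (4 * (N : ℝ) / (p : ℝ) ^ 2) := by
        refine add_le_add (Finset.sum_le_sum fun k hk => ?_) (Finset.sum_le_sum fun k hk => ?_)
        · refine (hAc k hk).trans ?_
          exact pow_le_pow_left₀ (by positivity) e1 2
        · refine (hEc k hk).trans ?_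
          exact mul_le_mul (by linarith) e2 (by positivity) (by positivity)
    _ ≤ 9 * (4 * (N : ℝ) / p) ^ 2 + 3 * ((3 * (N : ℝ)) * (4 * (N : ℝ) / (p : ℝ) ^ 2)) := by
        rw [Finset.sum_const, Finset.sum_const, nsmul_eq_mul, nsmul_eq_mul, Finset.card_product]
        have h1 : (((facs (red p g)).card * (facs (red p g)).card : ℕ) : ℝ) ≤ 9 := by
          have : (facs (red p g)).card * (facs (red p g)).card ≤ 3 * 3 := Nat.mul_le_mul hcard hcard
          exact_mod_cast this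
        have h2 : (((facs (red p g)).card : ℕ) : ℝ) ≤ 3 := by exact_mod_cast hcard
        refine add_le_add ?_ ?_
        · exact mul_le_mul_of_nonneg_right h1 (by positivity)
        · exact mul_le_mul_of_nonneg_right h2 (by positivity)
    _ ≤ 200 * (N : ℝ) ^ 2 * ((p : ℝ) ^ 2)⁻¹ := by
        have h1 : 9 * (4 * (N : ℝ) / p) ^ 2 + 3 * ((3 * (N : ℝ)) * (4 * (N : ℝ) / (p : ℝ) ^ 2)) =
            180 * ((N : ℝ) ^ 2 * ((p : ℝ) ^ 2)⁻¹) := by
          field_simp
          ring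
        rw [h1]
        have h2 : (0 : ℝ) ≤ (N : ℝ) ^ 2 * ((p : ℝ) ^ 2)⁻¹ := by positivity
        linarith

theorem TE_zz (N : ℕ) (hN : 16 ≤ N) : zz N ^ 2 ≤ N := by
  have hNr : (16 : ℝ) ≤ N := by exact_mod_cast hN
  have h1 : (Real.exp 1) < Real.log N := by
    have h2 : Real.log 16 ≤ Real.log N := Real.log_le_log (by norm_num) hNr
    have h3 : Real.log 16 = 4 * Real.log 2 := by
      rw [show (16 : ℝ) = 2 ^ (4 : ℕ) by norm_num, Real.log_pow]
      norm_num
    have h4 := Real.log_two_gt_d9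
    have h5 := Real.exp_one_lt_d9
    linarith
  have h6 : 1 ≤ Real.log (Real.log N) := by
    rw [Real.le_log_iff_exp_le (lt_trans (Real.exp_pos 1) h1)]
    exact h1.le
  have h7 : 0 < Real.log N := lt_trans (Real.exp_pos 1) h1
  have h8 : Real.log N / (10000 * Real.log (Real.log N)) ≤ Real.log N / 10000 := by
    apply div_le_div_of_nonneg_left h7.le (by norm_num)
    linarith
  unfold zz
  rw [← Real.exp_nat_mul]
  calc Real.exp ((2 : ℕ) * (Real.log N / (10000 * Real.log (Real.log N)))) ≤ Real.exp (Real.log N) := by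
        apply Real.exp_le_exp.mpr
        push_cast
        linarith
    _ = N := Real.exp_log (by linarith)

open Classical in
theorem t4_count {g G1 G2 : ℤ[X]} (hD : Dat g G1 G2) : ∃ C : ℝ, 0 < C ∧ ∀ P0 B : ℕ, 1 ≤ P0 → Good g G1 G2 P0 B → ∃ N0 : ℕ, ∀ N : ℕ, N0 ≤ N →
    (((boxN 1 N).filter fun f => ∃ p ∈ QN B N, (p : ℤ) ^ 2 ∣ nm g (AA G1 G2 (f 1) (f 0))).card : ℝ) ≤ C * (N : ℝ) ^ 2 / P0 := by
  refine ⟨200, by norm_num, ?_⟩
  intro P0 B hP0 hG
  refine ⟨16, ?_⟩
  intro N hN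
  have hzz := TE_zz N hN
  have hsub : ((boxN 1 N).filter fun f => ∃ p ∈ QN B N, (p : ℤ) ^ 2 ∣ nm g (AA G1 G2 (f 1) (f 0))) ⊆
      (QN B N).biUnion fun p => (boxN 1 N).filter fun f => (p : ℤ) ^ 2 ∣ nm g (AA G1 G2 (f 1) (f 0)) := by
    intro f hf
    rw [Finset.mem_filter] at hf
    obtain ⟨hf, p, hp, h1⟩ := hf
    exact Finset.mem_biUnion.mpr ⟨p, hp, Finset.mem_filter.mpr ⟨hf, h1⟩⟩
  have hQ : ∀ p ∈ QN B N, p.Prime ∧ ¬ p ∣ B ∧ P0 < p ∧ p ≤ ⌊zz N⌋₊ ∧ p ^ 2 ≤ N := by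
    intro p hp
    unfold QN at hp
    rw [Finset.mem_filter, Finset.mem_range] at hp
    obtain ⟨h1, h2, h3⟩ := hp
    have h4 : p ≤ ⌊zz N⌋₊ := by omega
    refine ⟨h2, h3, ?_, h4, ?_⟩
    · by_contra h5
      exact h3 (hG.small p h2 (by omega))
    · have h5 : (p : ℝ) ≤ zz N := (Nat.le_floor_iff (by unfold zz; positivity)).mp h4
      have h6 : (p : ℝ) ^ 2 ≤ N := (pow_le_pow_left₀ (by positivity) h5 2).trans hzz
      exact_mod_cast h6
  have hPr : (0 : ℝ) < P0 := by exact_mod_cast hP0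
  calc (((boxN 1 N).filter fun f => ∃ p ∈ QN B N, (p : ℤ) ^ 2 ∣ nm g (AA G1 G2 (f 1) (f 0))).card : ℝ)
      ≤ (((QN B N).biUnion fun p => (boxN 1 N).filter fun f => (p : ℤ) ^ 2 ∣ nm g (AA G1 G2 (f 1) (f 0))).card : ℝ) := by
        exact_mod_cast Finset.card_le_card hsub
    _ ≤ ∑ p ∈ QN B N, (((boxN 1 N).filter fun f => (p : ℤ) ^ 2 ∣ nm g (AA G1 G2 (f 1) (f 0))).card : ℝ) := by
        exact_mod_cast Finset.card_biUnion_le
    _ ≤ ∑ p ∈ QN B N, 200 * (N : ℝ) ^ 2 * ((p : ℝ) ^ 2)⁻¹ := by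
        refine Finset.sum_le_sum fun p hp => ?_
        obtain ⟨h1, h2, _, _, h3⟩ := hQ p hp
        refine TE_p hD hG p h1 h2 N h3 _ ?_
        intro f hf
        exact Finset.mem_filter.mp hf
    _ ≤ ∑ p ∈ Ioc P0 (max P0 ⌊zz N⌋₊), 200 * (N : ℝ) ^ 2 * ((p : ℝ) ^ 2)⁻¹ := by
        refine Finset.sum_le_sum_of_subset_of_nonneg ?_ ?_
        · intro p hp
          obtain ⟨_, _, h1, h2, _⟩ := hQ p hp
          rw [Finset.mem_Ioc]
          exact ⟨h1, h2.trans (le_max_right _ _)⟩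
        · intro p _ _
          positivity
    _ = 200 * (N : ℝ) ^ 2 * ∑ p ∈ Ioc P0 (max P0 ⌊zz N⌋₊), ((p : ℝ) ^ 2)⁻¹ := by
        rw [Finset.mul_sum]
    _ ≤ 200 * (N : ℝ) ^ 2 * (P0 : ℝ)⁻¹ := by
        refine mul_le_mul_of_nonneg_left ?_ (by positivity)
        have h1 := sum_Ioc_inv_sq_le_sub (α := ℝ) (k := P0) (n := max P0 ⌊zz N⌋₊) (by omega) (le_max_left _ _)
        have h2 : (0 : ℝ) ≤ ((max P0 ⌊zz N⌋₊ : ℕ) : ℝ)⁻¹ := by positivity
        linarith
    _ = 200 * (N : ℝ) ^ 2 / P0 := by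
        rw [div_eq_mul_inv]

end O1
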