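import Pool.Agent.Lib.MP_10e784_agO.TA
import Pool.Agent.Lib.MP_10e784_agO.TC
import Pool.Agent.Lib.MP_10e784_agO.TD
import Pool.Agent.Lib.MP_10e784_agO.TE

/-! JOB TY.  The non-typical pairs: the sum of the five bounds. -/

set_option autoImplicit false

namespace O1

open Polynomial Finset TW FQQ

private theorem TY_pow {N P0 : ℕ} (hP : 1 ≤ P0) (hN : P0 ^ 10 ≤ N) :
    (N : ℝ) ^ ((19 : ℝ) / 10) ≤ (N : ℝ) ^ 2 / P0 := by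
  have hP0 : (1 : ℝ) ≤ P0 := by exact_mod_cast hP
  have hN1 : (P0 : ℝ) ^ 10 ≤ N := by exact_mod_cast hN
  have hN0 : (0 : ℝ) < N := lt_of_lt_of_le (by positivity) hN1
  have h1 : (P0 : ℝ) ≤ (N : ℝ) ^ ((1 : ℝ) / 10) := by
    have h2 : ((P0 : ℝ) ^ 10) ^ ((1 : ℝ) / 10) = P0 := by
      rw [← Real.rpow_natCast, ← Real.rpow_mul (by linarith)]
      norm_num
    rw [← h2]
    exact Real.rpow_le_rpow (by positivity) hN1 (by norm_num)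
  rw [le_div_iff₀ (by linarith)]
  calc (N : ℝ) ^ ((19 : ℝ) / 10) * P0 ≤ (N : ℝ) ^ ((19 : ℝ) / 10) * (N : ℝ) ^ ((1 : ℝ) / 10) :=
        mul_le_mul_of_nonneg_left h1 (Real.rpow_nonneg hN0.le _)
    _ = (N : ℝ) ^ 2 := by
        rw [← Real.rpow_add hN0, ← Real.rpow_natCast]
        norm_num

open Classical in
theorem typ_count {g G1 G2 : ℤ[X]} (hD : Dat g G1 G2) : ∃ C : ℝ, 0 < C ∧ ∀ P0 B : ℕ, 1 ≤ P0 → Good g G1 G2 P0 B → ∃ N0 : ℕ, ∀ N : ℕ, N0 ≤ N →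
    (((boxN 1 N).filter fun f => ¬ Typ g G1 G2 B N (f 1) (f 0)).card : ℝ) ≤ C * (N : ℝ) ^ 2 / P0 := by
  obtain ⟨n0, h0⟩ := t0_count
  obtain ⟨C1, hC1, h1⟩ := t1_count
  obtain ⟨C2, hC2, h2⟩ := t2_count hD
  obtain ⟨C3, hC3, h3⟩ := t3_count hD
  obtain ⟨C4, hC4, h4⟩ := t4_count hD
  refine ⟨1 + C1 + C2 + C3 + C4, by positivity, fun P0 B hP hG => ?_⟩
  obtain ⟨n1, h1⟩ := h1 g G1 G2 P0 B hP hG
  obtain ⟨n2, h2⟩ := h2 P0 B hP hG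
  obtain ⟨n3, h3⟩ := h3 P0 B hP hG
  obtain ⟨n4, h4⟩ := h4 P0 B hP hG
  refine ⟨n0 + n1 + n2 + n3 + n4 + P0 ^ 10, fun N hN => ?_⟩
  have a0 := h0 N (by omega)
  have a1 := h1 N (by omega)
  have a2 := h2 N (by omega)
  have a3 := h3 N (by omega)
  have a4 := h4 N (by omega)
  have a5 := TY_pow hP (show P0 ^ 10 ≤ N by omega)
  obtain ⟨A0, hA0⟩ : ∃ A, A = ((boxN 1 N).filter fun f => IsSquare (f 1 ^ 2 - 4 * f 0)) := ⟨_, rfl⟩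
  obtain ⟨A1, hA1⟩ : ∃ A, A = ((boxN 1 N).filter fun f => ∃ p ∈ QN B N, (p : ℤ) ^ 2 ∣ f 1 ^ 2 - 4 * f 0) := ⟨_, rfl⟩
  obtain ⟨A2, hA2⟩ : ∃ A, A = ((boxN 1 N).filter fun f => ¬ ∀ p : ℕ, p.Prime → ¬ p ∣ B → ∀ h h', Fac g p h →
      Fac g p h' → h ∣ red p (AA G1 G2 (f 1) (f 0)) →
      h' ∣ red p (AA G1 G2 (f 1) (f 0)) → h = h' ∧ h.natDegree = 1) := ⟨_, rfl⟩
  obtain ⟨A3, hA3⟩ : ∃ A, A = ((boxN 1 N).filter fun f => ∃ p ∈ QN B N, (p : ℤ) ∣ f 1 ^ 2 - 4 * f 0 ∧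
      (p : ℤ) ∣ nm g (AA G1 G2 (f 1) (f 0))) := ⟨_, rfl⟩
  obtain ⟨A4, hA4⟩ : ∃ A, A = ((boxN 1 N).filter fun f => ∃ p ∈ QN B N,
      (p : ℤ) ^ 2 ∣ nm g (AA G1 G2 (f 1) (f 0))) := ⟨_, rfl⟩
  rw [← hA0] at a0
  rw [← hA1] at a1
  rw [← hA2] at a2
  rw [← hA3] at a3
  rw [← hA4] at a4
  have hsub : ((boxN 1 N).filter fun f => ¬ Typ g G1 G2 B N (f 1) (f 0)) ⊆ (((A0 ∪ A1) ∪ A2) ∪ A3) ∪ A4 := by
    intro f hf
    rw [mem_filter] at hf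
    obtain ⟨hb, hn⟩ := hf
    by_contra hcon
    simp only [mem_union, not_or] at hcon
    obtain ⟨⟨⟨⟨c0, c1⟩, c2⟩, c3⟩, c4⟩ := hcon
    apply hn
    refine ⟨fun hs => c0 ?_, fun p hp hd => c1 ?_, ?_, fun p hp hd hd' => c3 ?_, fun p hp hd => c4 ?_⟩
    · rw [hA0, mem_filter]
      exact ⟨hb, hs⟩
    · rw [hA1, mem_filter]
      exact ⟨hb, p, hp, hd⟩
    · by_contra hx
      apply c2
      rw [hA2, mem_filter]
      exact ⟨hb, hx⟩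
    · rw [hA3, mem_filter]
      exact ⟨hb, p, hp, hd, hd'⟩
    · rw [hA4, mem_filter]
      exact ⟨hb, p, hp, hd⟩
  have hcard : ((boxN 1 N).filter fun f => ¬ Typ g G1 G2 B N (f 1) (f 0)).card ≤
      A0.card + A1.card + A2.card + A3.card + A4.card := by
    refine (card_le_card hsub).trans ?_
    have e1 := card_union_le (((A0 ∪ A1) ∪ A2) ∪ A3) A4
    have e2 := card_union_le ((A0 ∪ A1) ∪ A2) A3
    have e3 := card_union_le (A0 ∪ A1) A2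
    have e4 := card_union_le A0 A1
    omega
  have hcardR : (((boxN 1 N).filter fun f => ¬ Typ g G1 G2 B N (f 1) (f 0)).card : ℝ) ≤
      (A0.card : ℝ) + A1.card + A2.card + A3.card + A4.card := by exact_mod_cast hcard
  have hfin : (1 + C1 + C2 + C3 + C4) * (N : ℝ) ^ 2 / P0 = (N : ℝ) ^ 2 / P0 + C1 * (N : ℝ) ^ 2 / P0 +
      C2 * (N : ℝ) ^ 2 / P0 + C3 * (N : ℝ) ^ 2 / P0 + C4 * (N : ℝ) ^ 2 / P0 := by ring
  rw [hfin]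
  linarith

end O1
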