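import Pool.Agent.Lib.MP_10e784_agO.ZZ
import Pool.Agent.Lib.MP_10e784_agO.DM
import Pool.Agent.Lib.MP_10e784_agO.TY
import Pool.Agent.Lib.MP_10e784_agF.KN1

/-! JOB Main.  The main theorem.

For `ε > 0` choose `P0 ≥ 1` with `C / P0 ≤ ε / 3` (`typ_count`), `B, C0` from `desc_main`, then `z_zero`, `z_one` with `ε / 3`, applied to `S0` = the set of all `δ` in a large box `boxN 2 H` (`H ≥ C0 (C0 N ^ (3/2)) ^ (1/3)`, all objects with `M ≤ C0 N ^ (3/2)` lie in it) satisfying the conditions, and `S1` similarly.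
The `f` in the box with a point `x` are non-typical or in `⋃_{δ ∈ S0} U0 δ ∪ ⋃_{δ ∈ S1} U1 δ`. -/

set_option autoImplicit false

namespace O1

open Polynomial Finset TW FQQ Filter

/-- for every `ε` the number of pairs is at most `ε N²` for large `N` -/
private theorem Main_eps {g G1 G2 : ℤ[X]} (hD : Dat g G1 G2) {ε : ℝ} (hε : 0 < ε) :
    ∃ N0 : ℕ, ∀ N : ℕ, N0 ≤ N → (Nat.card {w : ℤ × ℤ // |w.1| ≤ (N : ℤ) ∧ |w.2| ≤ (N : ℤ) ∧
      ∃ x : ℚ, IsSquare ((qq g).eval x * (qq (AA G1 G2 w.1 w.2)).eval x) ∧ ¬ IsSquare ((qq g).eval x)} : ℝ) ≤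
        ε * (N : ℝ) ^ 2 := by
  classical
  obtain ⟨C, hC, htyp⟩ := typ_count hD
  obtain ⟨P0, hP0⟩ := exists_nat_ge (3 * C / ε + 1)
  have hP1 : 1 ≤ P0 := by
    have h1 : (1 : ℝ) ≤ P0 := le_trans (by linarith [div_nonneg (by positivity : (0 : ℝ) ≤ 3 * C) hε.le]) hP0
    exact_mod_cast h1
  have hP : C / P0 ≤ ε / 3 := by
    have h0 : (0 : ℝ) < P0 := by exact_mod_cast hP1
    rw [div_le_iff₀ h0]
    have h1 : 3 * C / ε ≤ P0 := by linarith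
    rw [div_le_iff₀ hε] at h1
    linarith
  obtain ⟨B, C0, hG, hC0, hdesc⟩ := desc_main hD P0
  obtain ⟨N1, h1⟩ := htyp P0 B hP1 hG
  obtain ⟨N2, h2⟩ := z_zero hD hG C0 hC0 (ε / 3) (by positivity)
  obtain ⟨N3, h3⟩ := z_one hD hG C0 hC0 (ε / 3) (by positivity)
  refine ⟨max 1 (max N1 (max N2 N3)), fun N hN => ?_⟩
  have hN0 : 1 ≤ N := (le_max_left _ _).trans hN
  have hN1 : N1 ≤ N := ((le_max_left _ _).trans (le_max_right _ _)).trans hN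
  have hN2 : N2 ≤ N := ((le_max_left _ _).trans ((le_max_right _ _).trans (le_max_right _ _))).trans hN
  have hN3 : N3 ≤ N := ((le_max_right _ _).trans ((le_max_right _ _).trans (le_max_right _ _))).trans hN
  -- the objects
  obtain ⟨Hb, hHb⟩ := exists_nat_ge (C0 * (C0 * (N : ℝ) ^ ((3 : ℝ) / 2)) ^ ((1 : ℝ) / 3))
  have hbox : ∀ (δ : Vn 2) (M : ℕ) (r : ℤ), Ob g B C0 δ M r → (M : ℝ) ≤ C0 * (N : ℝ) ^ ((3 : ℝ) / 2) →
      δ ∈ boxN 2 Hb := by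
    intro δ M r hO hM
    rw [FQQ.mem_boxN]
    intro i
    have h4 : |(δ i : ℝ)| ≤ Hb := by
      refine (hO.sz i).trans (le_trans ?_ hHb)
      have h5 : (M : ℝ) ^ ((1 : ℝ) / 3) ≤ (C0 * (N : ℝ) ^ ((3 : ℝ) / 2)) ^ ((1 : ℝ) / 3) :=
        Real.rpow_le_rpow (Nat.cast_nonneg _) hM (by norm_num)
      exact mul_le_mul_of_nonneg_left h5 (by linarith)
    exact_mod_cast h4
  obtain ⟨S0, hS0⟩ : ∃ S0 : Finset (Vn 2), S0 = (boxN 2 Hb).filter fun δ => SelfAll g B δ ∧ ¬ IsSquare (nm g (Pf δ)) ∧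
    ∃ (M : ℕ) (r : ℤ), Ob g B C0 δ M r ∧ (M : ℝ) ≤ C0 * (N : ℝ) ^ ((3 : ℝ) / 2) := ⟨_, rfl⟩
  obtain ⟨S1, hS1⟩ : ∃ S1 : Finset (Vn 2), S1 = (boxN 2 Hb).filter fun δ =>
    ∃ (M : ℕ) (r : ℤ), Ob g B C0 δ M r ∧ (M : ℝ) ≤ C0 * (N : ℝ) ^ ((3 : ℝ) / 2) := ⟨_, rfl⟩
  have b1 := h1 N hN1
  have b2 := h2 N hN2 S0 fun δ hδ => by
    rw [hS0, mem_filter] at hδ
    exact hδ.2
  have b3 := h3 N hN3 S1 fun δ hδ => by
    rw [hS1, mem_filter] at hδ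
    exact hδ.2
  obtain ⟨E, hE⟩ : ∃ E : Finset (Vn 1), E = ((boxN 1 N).filter fun f => ¬ Typ g G1 G2 B N (f 1) (f 0)) ∪
    (S0.biUnion (fun δ => U0 g G1 G2 B N δ) ∪ S1.biUnion (fun δ => U1 g G1 G2 B N δ)) := ⟨_, rfl⟩
  have hEc : (E.card : ℝ) ≤ ε * (N : ℝ) ^ 2 := by
    have e1 : E.card ≤ ((boxN 1 N).filter fun f => ¬ Typ g G1 G2 B N (f 1) (f 0)).card +
        (∑ δ ∈ S0, (U0 g G1 G2 B N δ).card + ∑ δ ∈ S1, (U1 g G1 G2 B N δ).card) := by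
      rw [hE]
      exact (card_union_le _ _).trans (Nat.add_le_add_left
        ((card_union_le _ _).trans (Nat.add_le_add card_biUnion_le card_biUnion_le)) _)
    have e2 : (E.card : ℝ) ≤ (((boxN 1 N).filter fun f => ¬ Typ g G1 G2 B N (f 1) (f 0)).card : ℝ) +
        (∑ δ ∈ S0, ((U0 g G1 G2 B N δ).card : ℝ) + ∑ δ ∈ S1, ((U1 g G1 G2 B N δ).card : ℝ)) := by exact_mod_cast e1
    have e3 : C * (N : ℝ) ^ 2 / P0 ≤ ε / 3 * (N : ℝ) ^ 2 := by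
      rw [mul_div_right_comm]
      exact mul_le_mul_of_nonneg_right hP (by positivity)
    linarith
  refine le_trans ?_ hEc
  have hcard : Nat.card E = E.card := by simp
  rw [← hcard]
  have hmem : ∀ w : {w : ℤ × ℤ // |w.1| ≤ (N : ℤ) ∧ |w.2| ≤ (N : ℤ) ∧
      ∃ x : ℚ, IsSquare ((qq g).eval x * (qq (AA G1 G2 w.1 w.2)).eval x) ∧ ¬ IsSquare ((qq g).eval x)},
      (![w.1.2, w.1.1] : Vn 1) ∈ E := by
    rintro ⟨⟨u, v⟩, hu, hv, x, hx, hx'⟩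
    have hb : (![v, u] : Vn 1) ∈ boxN 1 N := by
      rw [FQQ.mem_boxN]
      intro i
      fin_cases i
      · exact hv
      · exact hu
    change (![v, u] : Vn 1) ∈ E
    rw [hE, mem_union]
    by_cases ht : Typ g G1 G2 B N ((![v, u] : Vn 1) 1) ((![v, u] : Vn 1) 0)
    · right
      obtain ⟨δ, M, r, hO, hM, h⟩ := hdesc N (![v, u] : Vn 1) hN0 hb ht x hx hx'
      have hδ := hbox δ M r hO hM
      rw [mem_union, mem_biUnion, mem_biUnion]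
      rcases h with ⟨s1, s2, s3⟩ | s3
      · left
        refine ⟨δ, ?_, s3⟩
        rw [hS0, mem_filter]
        exact ⟨hδ, s1, s2, M, r, hO, hM⟩
      · right
        refine ⟨δ, ?_, s3⟩
        rw [hS1, mem_filter]
        exact ⟨hδ, M, r, hO, hM⟩
    · left
      rw [mem_filter]
      exact ⟨hb, ht⟩
  have hinj := Nat.card_le_card_of_injective (fun w : {w : ℤ × ℤ // |w.1| ≤ (N : ℤ) ∧ |w.2| ≤ (N : ℤ) ∧
      ∃ x : ℚ, IsSquare ((qq g).eval x * (qq (AA G1 G2 w.1 w.2)).eval x) ∧ ¬ IsSquare ((qq g).eval x)} =>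
      (⟨![w.1.2, w.1.1], hmem w⟩ : E)) (by
    rintro ⟨⟨u, v⟩, h⟩ ⟨⟨u', v'⟩, h'⟩ he
    have h4 : (![v, u] : Vn 1) = ![v', u'] := congrArg Subtype.val he
    have h5 := congrFun h4 0
    have h6 := congrFun h4 1
    simp only [Matrix.cons_val_zero, Matrix.cons_val_one] at h5 h6
    rw [Subtype.mk.injEq, Prod.mk.injEq]
    exact ⟨h6, h5⟩)
  exact_mod_cast hinj

theorem main_one {g G1 G2 : ℤ[X]} (hD : Dat g G1 G2) :
    Tendsto (fun N : ℕ => (Nat.card {w : ℤ × ℤ // |w.1| ≤ (N : ℤ) ∧ |w.2| ≤ (N : ℤ) ∧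
      ∃ x : ℚ, IsSquare ((qq g).eval x * (qq (AA G1 G2 w.1 w.2)).eval x) ∧ ¬ IsSquare ((qq g).eval x)} : ℝ) / (N : ℝ) ^ 2)
      atTop (nhds 0) := by
  rw [Metric.tendsto_atTop]
  intro ε hε
  obtain ⟨N0, h⟩ := Main_eps hD (half_pos hε)
  refine ⟨max 1 N0, fun N hN => ?_⟩
  have hN1 : 1 ≤ N := (le_max_left _ _).trans hN
  have hN2 : (0 : ℝ) < (N : ℝ) ^ 2 := by
    have : (1 : ℝ) ≤ N := by exact_mod_cast hN1
    positivity
  have h1 := h N ((le_max_right _ _).trans hN)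
  rw [Real.dist_eq, sub_zero, abs_of_nonneg (by positivity), div_lt_iff₀ hN2]
  calc _ ≤ ε / 2 * (N : ℝ) ^ 2 := h1
    _ < _ := by nlinarith

end O1
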