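import Mathlib
import Pool.Agent.Lib.MP_10e784_ag.EL.ELMert

/-! JOB PF.  The sum of the reciprocals of the prime factors.

`y = log (M + 100) ≥ 4`.  Primes `p ≤ y`: `∑ 1/p ≤ log log y + C` (Mertens, `ELMert`).  Prime factors `p > y` of `M`: at most `log M / log 2` of them (`2 ^ ω(M) ≤ M`), each contributes at most `1 / y`: at most `2`. -/

set_option autoImplicit false

namespace O1

open Finset

private theorem pf_two_pow (M : ℕ) (hM : M ≠ 0) : 2 ^ M.primeFactors.card ≤ M := by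
  have h1 : ∏ p ∈ M.primeFactors, p ≤ M :=
    Nat.le_of_dvd (Nat.pos_of_ne_zero hM) (Nat.prod_primeFactors_dvd M)
  refine le_trans ?_ h1
  rw [← Finset.prod_const]
  exact Finset.prod_le_prod' fun p hp => (Nat.prime_of_mem_primeFactors hp).two_le

private theorem pf_small : ∃ C : ℝ, 0 ≤ C ∧ ∀ y : ℝ, 2 ≤ y →
    ∑ p ∈ (Icc 1 ⌊y⌋₊).filter Nat.Prime, (1 : ℝ) / (p : ℝ) ≤ Real.log (Real.log y) + C := by
  obtain ⟨A, hA, h⟩ := EL.ps_shift
  refine ⟨A + |PT.PS (PT.ind Set.univ) 2| + |Real.log (Real.log 2)|, by positivity, fun y hy => ?_⟩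
  have h1 := h Set.univ 2 y le_rfl hy
  have h2 : PT.PS (PT.ind Set.univ) y = ∑ p ∈ (Icc 1 ⌊y⌋₊).filter Nat.Prime, (1 : ℝ) / (p : ℝ) := by
    unfold PT.PS PT.ind
    simp
  rw [h2] at h1
  have h3 := le_abs_self (PT.PS (PT.ind Set.univ) 2)
  have h4 := neg_abs_le (Real.log (Real.log 2))
  linarith

theorem inv_pf : ∃ C : ℝ, ∀ M : ℕ, ∑ p ∈ M.primeFactors, (1 : ℝ) / (p : ℝ) ≤
    Real.log (Real.log (Real.log ((M : ℝ) + 100))) + C := by
  obtain ⟨C, hC, hs⟩ := pf_small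
  refine ⟨C + 2, fun M => ?_⟩
  have he : Real.exp 1 < 2.7182818286 := Real.exp_one_lt_d9
  have h100 : (4 : ℝ) ≤ Real.log 100 := by
    rw [Real.le_log_iff_exp_le (by norm_num)]
    have : Real.exp 4 = (Real.exp 1) ^ 4 := by rw [← Real.exp_nat_mul]; norm_num
    rw [this]
    calc (Real.exp 1) ^ 4 ≤ (2.7182818286 : ℝ) ^ 4 := by
          exact pow_le_pow_left₀ (Real.exp_pos 1).le he.le 4
      _ ≤ 100 := by norm_num
  set y : ℝ := Real.log ((M : ℝ) + 100) with hy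
  have hMn : (0 : ℝ) ≤ (M : ℝ) := Nat.cast_nonneg M
  have hy4 : 4 ≤ y := le_trans h100 (Real.log_le_log (by norm_num) (by linarith))
  have hlog1 : 1 ≤ Real.log y := by
    rw [Real.le_log_iff_exp_le (by linarith)]
    linarith
  have hll : 0 ≤ Real.log (Real.log y) := Real.log_nonneg hlog1
  rcases Nat.eq_zero_or_pos M with hM0 | hMpos
  · subst hM0
    simp only [Nat.primeFactors_zero, Finset.sum_empty]
    linarith
  have hsplit : ∑ p ∈ M.primeFactors, (1 : ℝ) / (p : ℝ) =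
      ∑ p ∈ M.primeFactors.filter (fun p : ℕ => (p : ℝ) ≤ y), (1 : ℝ) / (p : ℝ) +
      ∑ p ∈ M.primeFactors.filter (fun p : ℕ => ¬ (p : ℝ) ≤ y), (1 : ℝ) / (p : ℝ) :=
    (Finset.sum_filter_add_sum_filter_not _ _ _).symm
  have h1 : ∑ p ∈ M.primeFactors.filter (fun p : ℕ => (p : ℝ) ≤ y), (1 : ℝ) / (p : ℝ) ≤
      ∑ p ∈ (Icc 1 ⌊y⌋₊).filter Nat.Prime, (1 : ℝ) / (p : ℝ) := by
    refine Finset.sum_le_sum_of_subset_of_nonneg ?_ fun p _ _ => by positivity
    intro p hp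
    rw [Finset.mem_filter] at hp
    have hpp := Nat.prime_of_mem_primeFactors hp.1
    rw [Finset.mem_filter, Finset.mem_Icc]
    exact ⟨⟨hpp.one_lt.le, Nat.le_floor hp.2⟩, hpp⟩
  have h2 : ∑ p ∈ M.primeFactors.filter (fun p : ℕ => ¬ (p : ℝ) ≤ y), (1 : ℝ) / (p : ℝ) ≤ 2 := by
    have h3 : ∑ p ∈ M.primeFactors.filter (fun p : ℕ => ¬ (p : ℝ) ≤ y), (1 : ℝ) / (p : ℝ) ≤
        ∑ _p ∈ M.primeFactors.filter (fun p : ℕ => ¬ (p : ℝ) ≤ y), (1 : ℝ) / y := by
      refine Finset.sum_le_sum fun p hp => ?_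
      rw [Finset.mem_filter] at hp
      exact one_div_le_one_div_of_le (by linarith) (not_le.mp hp.2).le
    rw [Finset.sum_const, nsmul_eq_mul] at h3
    have h4 : ((M.primeFactors.filter (fun p : ℕ => ¬ (p : ℝ) ≤ y)).card : ℝ) ≤ (M.primeFactors.card : ℝ) := by
      exact_mod_cast Finset.card_le_card (Finset.filter_subset _ _)
    have h5 : (M.primeFactors.card : ℝ) * Real.log 2 ≤ y := by
      have h6 : ((2 : ℝ)) ^ M.primeFactors.card ≤ (M : ℝ) := by
        exact_mod_cast pf_two_pow M hMpos.ne'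
      have h7 := Real.log_le_log (by positivity) h6
      rw [Real.log_pow] at h7
      refine le_trans h7 (Real.log_le_log ?_ (by linarith))
      exact_mod_cast hMpos
    have hl2 : (1 / 2 : ℝ) ≤ Real.log 2 := by
      have := Real.log_two_gt_d9; linarith
    have h8 : (M.primeFactors.card : ℝ) ≤ 2 * y := by
      have hc : (0 : ℝ) ≤ (M.primeFactors.card : ℝ) := Nat.cast_nonneg _
      nlinarith
    refine le_trans h3 ?_
    rw [mul_one_div, div_le_iff₀ (by linarith)]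
    linarith
  have h9 := hs y (by linarith)
  linarith

end O1
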