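import Pool.Agent.Lib.MP_10e784_agF.KN5
import Pool.Agent.Lib.MP_10e784_agO.Defs

/-! JOB SA.  The affine version of `FQQ.ex_cosetN`.

Copy the proof of `FQQ.ex_cosetN` (file `MP_10e784_agF/KN5.lean`, with its private lemmas) for the coset `{f : f ≡ c mod q, M ∣ s + evn f r}` (a coset of the same lattice `CosN M q r 0`): `exists_moveN` is used unchanged;
`card_cosetN` and `char_sum_zeroN` (file `KN3.lean`) are transported by the translation by `f0`, `f0 ≡ 0 mod q`, `evn f0 r ≡ s mod M`. -/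

set_option autoImplicit false

namespace O1

open Polynomial Finset FQQ FGO

/-- the kernel as a sum of exponentials -/
private theorem SA_aux1 (J M : ℕ) (a : ℤ) :
    ((wt J M a : ℝ) : ℂ) = 2 / (J : ℂ) ^ 2 * ∑ p ∈ range J ×ˢ range J,
      Complex.exp (2 * Real.pi * Complex.I * ((((((p.1 : ℤ) - (p.2 : ℤ)) * a : ℤ) : ℂ)) / (M : ℂ))) := by
  unfold wt
  push_cast
  congr 1
  rw [← Complex.mul_conj', map_sum, Finset.sum_mul_sum, ← Finset.sum_product']
  refine Finset.sum_congr rfl fun p _ => ?_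
  rw [← Complex.exp_conj, ← Complex.exp_add]
  congr 1
  simp only [map_mul, map_div₀, Complex.conj_I, Complex.conj_ofReal, Complex.conj_natCast, map_intCast, map_ofNat]
  ring

/-- the frequency -/
private def SA_k {m : ℕ} (p : Fin (m + 1) → ℕ × ℕ) : Vn m := fun i => ((p i).1 : ℤ) - ((p i).2 : ℤ)

private noncomputable def SA_P (m J : ℕ) : Finset (Fin (m + 1) → ℕ × ℕ) :=
  Fintype.piFinset fun _ => range J ×ˢ range J

private theorem SA_aux2 {m : ℕ} (J M : ℕ) (f : Vn m) :
    ((WN J M f : ℝ) : ℂ) = (2 / (J : ℂ) ^ 2) ^ (m + 1) * ∑ p ∈ SA_P m J,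
      Complex.exp (2 * Real.pi * Complex.I * (((∑ i, SA_k p i * f i : ℤ) : ℂ) / (M : ℂ))) := by
  unfold WN
  rw [Complex.ofReal_prod]
  simp only [SA_aux1]
  rw [Finset.prod_mul_distrib, Finset.prod_const, Finset.card_univ, Fintype.card_fin, Finset.prod_univ_sum]
  congr 1
  unfold SA_P
  refine Finset.sum_congr rfl fun p _ => ?_
  rw [← Complex.exp_sum]
  congr 1
  rw [← Finset.mul_sum, ← Finset.sum_div]
  unfold SA_k
  push_cast
  rfl

private theorem SA_zero {m : ℕ} {p : Fin (m + 1) → ℕ × ℕ} :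
    SA_k p = 0 ↔ ∀ i, (p i).1 = (p i).2 := by
  unfold SA_k
  rw [funext_iff]
  refine forall_congr' fun i => ?_
  rw [Pi.zero_apply, sub_eq_zero, Nat.cast_inj]

private theorem SA_card (m J : ℕ) : ((SA_P m J).filter fun p => SA_k p = 0).card = J ^ (m + 1) := by
  have h : ((SA_P m J).filter fun p => SA_k p = 0) =
      (Fintype.piFinset fun _ : Fin (m + 1) => range J).image fun t => fun i => (t i, t i) := by
    ext p
    rw [mem_filter, mem_image, SA_zero]
    unfold SA_P
    simp only [Fintype.mem_piFinset, mem_product, mem_range]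
    constructor
    · rintro ⟨h1, h2⟩
      refine ⟨fun i => (p i).1, fun i => (h1 i).1, ?_⟩
      funext i
      exact Prod.ext rfl (h2 i)
    · rintro ⟨t, h1, rfl⟩
      exact ⟨fun i => ⟨h1 i, h1 i⟩, fun i => rfl⟩
  rw [h, Finset.card_image_of_injective, Fintype.card_piFinset]
  · simp
  · intro a b hab
    funext i
    have := congrFun hab i
    simp only [Prod.mk.injEq] at this
    exact this.1

private theorem SA_nm {m J : ℕ} {p : Fin (m + 1) → ℕ × ℕ} (hp : p ∈ SA_P m J) (i : Fin (m + 1)) :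
    (SA_k p i).natAbs < J := by
  unfold SA_P at hp
  simp only [Fintype.mem_piFinset, mem_product, mem_range] at hp
  have h := hp i
  unfold SA_k
  omega

/-- reduction of the coordinates modulo `q` -/
private def SA_md {m : ℕ} (q : ℕ) (f : Vn m) : Vn m := fun i => f i % (q : ℤ)

private theorem SA_mem {m q : ℕ} (hq : 0 < q) (f : Vn m) : SA_md q f ∈ cubeN m q := by
  rw [mem_cubeN]
  intro i
  have hq' : (0 : ℤ) < q := by exact_mod_cast hq
  exact ⟨Int.emod_nonneg _ hq'.ne', Int.emod_lt_of_pos _ hq'⟩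

private theorem SA_cg {m : ℕ} (q : ℕ) (f : Vn m) : CgN q f (SA_md q f) := by
  intro i
  exact Int.dvd_self_sub_emod

private theorem SA_uniq {m M : ℕ} {v w : Vn m} (hv : v ∈ cubeN m M) (hw : w ∈ cubeN m M) (h : CgN M v w) :
    v = w := by
  rw [mem_cubeN] at hv hw
  funext i
  have h1 : |v i - w i| < M := by
    rw [abs_lt]
    constructor
    · linarith [(hv i).1, (hw i).2]
    · linarith [(hv i).2, (hw i).1]
  have h2 := Int.eq_zero_of_abs_lt_dvd (h i) h1
  linarith

private theorem SA_evn {m M : ℕ} {f g : Vn m} (h : CgN M f g) (r : ℤ) :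
    (M : ℤ) ∣ evn f r - evn g r := by
  unfold evn
  rw [← Finset.sum_sub_distrib]
  refine Finset.dvd_sum fun i _ => ?_
  rw [← sub_mul]
  exact (h i).mul_right _

open Classical in
/-- The affine coset is a translate of the linear one. -/
theorem SA_shift {R : Type} [AddCommMonoid R] {m M' M q : ℕ} {r : ℤ} (hM' : 0 < M') (hM : M ∣ M') (hq : q ∣ M')
    (c f0 : Vn m) (s : ℤ) (h0 : ∀ i, (q : ℤ) ∣ f0 i) (h1 : (M : ℤ) ∣ evn f0 r - s) (F : Vn m → R)
    (hF : ∀ f g, CgN M' f g → F f = F g) :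
    ∑ f ∈ (cubeN m M').filter (fun f => CgN q f c ∧ (M : ℤ) ∣ s + evn f r), F f =
      ∑ g ∈ (cubeN m M').filter (CosN M q r c), F (fun i => g i - f0 i) := by
  have hMz : (M : ℤ) ∣ (M' : ℤ) := by exact_mod_cast hM
  have hqz : (q : ℤ) ∣ (M' : ℤ) := by exact_mod_cast hq
  have e1 : ∀ f g : Vn m, evn (fun i => f i + g i) r = evn f r + evn g r := by
    intro f g
    unfold evn
    rw [← Finset.sum_add_distrib]
    exact Finset.sum_congr rfl fun i _ => by ring
  have e2 : ∀ f g : Vn m, evn (fun i => f i - g i) r = evn f r - evn g r := by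
    intro f g
    unfold evn
    rw [← Finset.sum_sub_distrib]
    exact Finset.sum_congr rfl fun i _ => by ring
  refine Finset.sum_nbij' (fun f => SA_md M' (fun i => f i + f0 i)) (fun g => SA_md M' (fun i => g i - f0 i)) ?_ ?_ ?_ ?_ ?_
  · intro f hf
    rw [mem_filter] at hf ⊢
    obtain ⟨_, hf1, hf2⟩ := hf
    refine ⟨SA_mem hM' _, fun i => ?_, ?_⟩
    · have a1 := hqz.trans (SA_cg M' (fun i => f i + f0 i) i)
      have a2 := dvd_sub (dvd_add (hf1 i) (h0 i)) a1
      have a3 : f i - c i + f0 i - (f i + f0 i - SA_md M' (fun i => f i + f0 i) i) = SA_md M' (fun i => f i + f0 i) i - c i := by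
        ring
      rwa [a3] at a2
    · have a1 := hMz.trans (SA_evn (SA_cg M' (fun i => f i + f0 i)) r)
      rw [e1] at a1
      have a2 := dvd_sub (dvd_add hf2 h1) a1
      have a3 : s + evn f r + (evn f0 r - s) - (evn f r + evn f0 r - evn (SA_md M' fun i => f i + f0 i) r) =
        evn (SA_md M' fun i => f i + f0 i) r := by ring
      rwa [a3] at a2
  · intro g hg
    rw [mem_filter] at hg ⊢
    obtain ⟨_, hg1, hg2⟩ := hg
    refine ⟨SA_mem hM' _, fun i => ?_, ?_⟩
    · have a1 := hqz.trans (SA_cg M' (fun i => g i - f0 i) i)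
      have a2 := dvd_sub (dvd_sub (hg1 i) (h0 i)) a1
      have a3 : g i - c i - f0 i - (g i - f0 i - SA_md M' (fun i => g i - f0 i) i) = SA_md M' (fun i => g i - f0 i) i - c i := by
        ring
      rwa [a3] at a2
    · have a1 := hMz.trans (SA_evn (SA_cg M' (fun i => g i - f0 i)) r)
      rw [e2] at a1
      have a2 := dvd_sub (dvd_sub hg2 h1) a1
      have a3 : evn g r - (evn f0 r - s) - (evn g r - evn f0 r - evn (SA_md M' fun i => g i - f0 i) r) =
        s + evn (SA_md M' fun i => g i - f0 i) r := by ring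
      rwa [a3] at a2
  · intro f hf
    rw [mem_filter] at hf
    refine SA_uniq (SA_mem hM' _) hf.1 fun i => ?_
    have a1 := SA_cg M' (fun i => SA_md M' (fun i => f i + f0 i) i - f0 i) i
    have a2 := SA_cg M' (fun i => f i + f0 i) i
    have a3 := dvd_add a1 a2
    have a4 : (SA_md M' (fun i => f i + f0 i) i - f0 i - SA_md M' (fun i => SA_md M' (fun i => f i + f0 i) i - f0 i) i) +
      (f i + f0 i - SA_md M' (fun i => f i + f0 i) i) = -(SA_md M' (fun i => SA_md M' (fun i => f i + f0 i) i - f0 i) i - f i) := by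
      ring
    rw [a4, dvd_neg] at a3
    exact a3
  · intro g hg
    rw [mem_filter] at hg
    refine SA_uniq (SA_mem hM' _) hg.1 fun i => ?_
    have a1 := SA_cg M' (fun i => SA_md M' (fun i => g i - f0 i) i + f0 i) i
    have a2 := SA_cg M' (fun i => g i - f0 i) i
    have a3 := dvd_add a1 a2
    have a4 : (SA_md M' (fun i => g i - f0 i) i + f0 i - SA_md M' (fun i => SA_md M' (fun i => g i - f0 i) i + f0 i) i) +
      (g i - f0 i - SA_md M' (fun i => g i - f0 i) i) = -(SA_md M' (fun i => SA_md M' (fun i => g i - f0 i) i + f0 i) i - g i) := by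
      ring
    rw [a4, dvd_neg] at a3
    exact a3
  · intro f _
    refine hF _ _ fun i => ?_
    have a2 := SA_cg M' (fun i => f i + f0 i) i
    have a4 : f i + f0 i - SA_md M' (fun i => f i + f0 i) i = f i - (SA_md M' (fun i => f i + f0 i) i - f0 i) := by ring
    rwa [a4] at a2

private theorem SA_exp {m M : ℕ} (hM : 0 < M) (k : Vn m) {v w : Vn m} (h : CgN M v w) :
    Complex.exp (2 * Real.pi * Complex.I * (((∑ i, k i * v i : ℤ) : ℂ) / (M : ℂ))) =
      Complex.exp (2 * Real.pi * Complex.I * (((∑ i, k i * w i : ℤ) : ℂ) / (M : ℂ))) := by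
  have h2 : (M : ℤ) ∣ ∑ i, k i * v i - ∑ i, k i * w i := by
    rw [← Finset.sum_sub_distrib]
    refine Finset.dvd_sum fun i _ => ?_
    rw [← mul_sub]
    exact (h i).mul_left _
  obtain ⟨x, hx⟩ := h2
  have hM0 : (M : ℂ) ≠ 0 := by exact_mod_cast hM.ne'
  have h1 : ∑ i, k i * v i = ∑ i, k i * w i + M * x := by linarith
  rw [Complex.exp_eq_exp_iff_exists_int]
  refine ⟨x, ?_⟩
  rw [h1]
  push_cast
  field_simp

/-- the translation vector -/
private theorem SA_f0 {m M q : ℕ} (hc : M.Coprime q) (r s : ℤ) :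
    ∃ f0 : Vn m, (∀ i, (q : ℤ) ∣ f0 i) ∧ (M : ℤ) ∣ evn f0 r - s := by
  have hcop : IsCoprime (M : ℤ) (q : ℤ) := Nat.isCoprime_iff_coprime.mpr hc
  obtain ⟨a, b, hab⟩ := hcop
  refine ⟨Fin.cons (s * b * q) 0, fun i => ?_, ?_⟩
  · refine Fin.cases ?_ (fun j => ?_) i
    · rw [Fin.cons_zero]
      exact dvd_mul_left _ _
    · rw [Fin.cons_succ]
      exact dvd_zero _
  · have h1 : evn (Fin.cons (s * b * q) 0 : Vn m) r = s * b * q := by
      unfold evn
      rw [Fin.sum_univ_succ]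
      simp
    rw [h1]
    exact ⟨-(s * a), by linear_combination s * hab⟩

open Classical in
theorem ex_cosetA {m H J M q q0 : ℕ} {r : ℤ} (hH : 0 < H) (hJ : 0 < J) (hM : 0 < M) (hq : 0 < q)
    (hc : M.Coprime q) (hd : M * q ∣ J) (hq0 : q ≤ q0) (hG : GoodN m H q0 M r) (c : Vn m) (s : ℤ) :
    ∑ f ∈ (cubeN m (4 * H * J)).filter (fun f => CgN q f c ∧ (M : ℤ) ∣ s + evn f r), WN J (4 * H * J) f =
      (8 * (H : ℝ)) ^ (m + 1) / ((M : ℝ) * (q : ℝ) ^ (m + 1)) := by
  have hM' : 0 < 4 * H * J := by positivity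
  have hdM : M * q ∣ 4 * H * J := Dvd.dvd.mul_left hd _
  have hMM : M ∣ 4 * H * J := (dvd_mul_right M q).trans hdM
  have hqM : q ∣ 4 * H * J := (dvd_mul_left q M).trans hdM
  have hcard := card_cosetN (4 * H * J) M q hM' hM hq hc hdM r c
  obtain ⟨f0, h0, h1⟩ := SA_f0 (m := m) hc r s
  have key : ((∑ f ∈ (cubeN m (4 * H * J)).filter (fun f => CgN q f c ∧ (M : ℤ) ∣ s + evn f r), WN J (4 * H * J) f : ℝ) : ℂ) =
      (2 / (J : ℂ) ^ 2) ^ (m + 1) * ((J : ℂ) ^ (m + 1) * (((cubeN m (4 * H * J)).filter (CosN M q r c)).card : ℂ)) := by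
    rw [Complex.ofReal_sum]
    simp only [SA_aux2]
    rw [← Finset.mul_sum, Finset.sum_comm]
    congr 1
    have hsh : ∀ k : Vn m, ∑ f ∈ (cubeN m (4 * H * J)).filter (fun f => CgN q f c ∧ (M : ℤ) ∣ s + evn f r),
        Complex.exp (2 * Real.pi * Complex.I * (((∑ i, k i * f i : ℤ) : ℂ) / ((4 * H * J : ℕ) : ℂ))) =
        Complex.exp (-(2 * Real.pi * Complex.I * (((∑ i, k i * f0 i : ℤ) : ℂ) / ((4 * H * J : ℕ) : ℂ)))) *
          ∑ f ∈ (cubeN m (4 * H * J)).filter (CosN M q r c),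
            Complex.exp (2 * Real.pi * Complex.I * (((∑ i, k i * f i : ℤ) : ℂ) / ((4 * H * J : ℕ) : ℂ))) := by
      intro k
      rw [SA_shift hM' hMM hqM c f0 s h0 h1 _ fun f g h => SA_exp hM' k h, Finset.mul_sum]
      refine Finset.sum_congr rfl fun f _ => ?_
      rw [← Complex.exp_add]
      congr 1
      have : ∑ i, k i * (f i - f0 i) = ∑ i, k i * f i - ∑ i, k i * f0 i := by
        rw [← Finset.sum_sub_distrib]
        exact Finset.sum_congr rfl fun i _ => by ring
      rw [this]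
      push_cast
      ring
    rw [← Finset.sum_filter_add_sum_filter_not (SA_P m J) fun p => SA_k p = 0]
    have h1 : ∑ p ∈ (SA_P m J).filter (fun p => ¬ SA_k p = 0),
        ∑ f ∈ (cubeN m (4 * H * J)).filter (fun f => CgN q f c ∧ (M : ℤ) ∣ s + evn f r),
        Complex.exp (2 * Real.pi * Complex.I * (((∑ i, SA_k p i * f i : ℤ) : ℂ) / ((4 * H * J : ℕ) : ℂ))) = 0 := by
      refine Finset.sum_eq_zero fun p hp => ?_
      rw [mem_filter] at hp
      obtain ⟨u, hu, hku⟩ := exists_moveN hH hJ hM hq hd hq0 hG (SA_k p) hp.2 (SA_nm hp.1)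
      rw [hsh, char_sum_zeroN (4 * H * J) M q hM' hdM r c (SA_k p) u hu hku, mul_zero]
    have h2 : ∑ p ∈ (SA_P m J).filter (fun p => SA_k p = 0),
        ∑ f ∈ (cubeN m (4 * H * J)).filter (fun f => CgN q f c ∧ (M : ℤ) ∣ s + evn f r),
        Complex.exp (2 * Real.pi * Complex.I * (((∑ i, SA_k p i * f i : ℤ) : ℂ) / ((4 * H * J : ℕ) : ℂ))) =
          (J : ℂ) ^ (m + 1) * (((cubeN m (4 * H * J)).filter (CosN M q r c)).card : ℂ) := by
      rw [Finset.sum_congr rfl (g := fun _ => (((cubeN m (4 * H * J)).filter (CosN M q r c)).card : ℂ))]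
      · rw [Finset.sum_const, SA_card, nsmul_eq_mul]
        push_cast
        ring
      · intro p hp
        rw [mem_filter] at hp
        have h4 : ∀ g : Vn m, ∑ i, (0 : Vn m) i * g i = 0 := by
          intro g
          simp
        rw [hsh, hp.2, h4, Finset.sum_congr rfl (g := fun _ => (1 : ℂ))]
        · rw [Finset.sum_const, nsmul_eq_mul, mul_one]
          simp
        · intro f _
          rw [h4]
          simp
    rw [h1, h2, add_zero]
  have hR : (∑ f ∈ (cubeN m (4 * H * J)).filter (fun f => CgN q f c ∧ (M : ℤ) ∣ s + evn f r), WN J (4 * H * J) f : ℝ) =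
      (2 / (J : ℝ) ^ 2) ^ (m + 1) * ((J : ℝ) ^ (m + 1) * (((cubeN m (4 * H * J)).filter (CosN M q r c)).card : ℝ)) := by
    have h4 : ((∑ f ∈ (cubeN m (4 * H * J)).filter (fun f => CgN q f c ∧ (M : ℤ) ∣ s + evn f r), WN J (4 * H * J) f : ℝ) : ℂ) =
        (((2 / (J : ℝ) ^ 2) ^ (m + 1) * ((J : ℝ) ^ (m + 1) * (((cubeN m (4 * H * J)).filter (CosN M q r c)).card : ℝ)) : ℝ) : ℂ) := by
      rw [key]
      push_cast
      rfl
    exact Complex.ofReal_injective h4
  rw [hR]
  have hJ' : (J : ℝ) ≠ 0 := by exact_mod_cast hJ.ne'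
  have hM'' : (M : ℝ) ≠ 0 := by exact_mod_cast hM.ne'
  have hq' : (q : ℝ) ≠ 0 := by exact_mod_cast hq.ne'
  have hc' : (((cubeN m (4 * H * J)).filter (CosN M q r c)).card : ℝ) * ((M : ℝ) * (q : ℝ) ^ (m + 1)) =
      (4 * (H : ℝ) * (J : ℝ)) ^ (m + 1) := by
    have h5 := congrArg (fun n : ℕ => (n : ℝ)) hcard
    simp only [Nat.cast_mul, Nat.cast_pow, Nat.cast_ofNat] at h5
    exact h5
  rw [eq_div_iff (mul_ne_zero hM'' (pow_ne_zero (m + 1) hq'))]
  calc (2 / (J : ℝ) ^ 2) ^ (m + 1) * ((J : ℝ) ^ (m + 1) * (((cubeN m (4 * H * J)).filter (CosN M q r c)).card : ℝ)) *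
        ((M : ℝ) * (q : ℝ) ^ (m + 1))
      = (2 / (J : ℝ) ^ 2) ^ (m + 1) * (J : ℝ) ^ (m + 1) *
        ((((cubeN m (4 * H * J)).filter (CosN M q r c)).card : ℝ) * ((M : ℝ) * (q : ℝ) ^ (m + 1))) := by ring
    _ = (8 * (H : ℝ)) ^ (m + 1) := by
        rw [hc', ← mul_pow, ← mul_pow]
        congr 1
        field_simp
        ring

end O1
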