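import Pool.Agent.Lib.MP_10e784_agF.KN7
import Pool.Agent.Lib.MP_10e784_agO.SA

/-! JOB SB.  The affine sieve.

Copy the proofs of `FQQ.ex_perN` (`KN6.lean`), `box_le_cubeN` (where it is proved: grep) and `FQQ.sieveN` (`KN7.lean`) for the affine condition `M ∣ s + evn f r`, with `φ = 1` and `G = 1`, using `ex_cosetA` instead of `ex_cosetN`. -/

set_option autoImplicit false

namespace O1

open Polynomial Finset FQQ FGO

/-- reduction of the coordinates modulo `q` -/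
private def SB_md {m : ℕ} (q : ℕ) (f : Vn m) : Vn m := fun i => f i % (q : ℤ)

private theorem SB_mem {m q : ℕ} (hq : 0 < q) (f : Vn m) : SB_md q f ∈ cubeN m q := by
  rw [mem_cubeN]
  intro i
  have hq' : (0 : ℤ) < q := by exact_mod_cast hq
  exact ⟨Int.emod_nonneg _ hq'.ne', Int.emod_lt_of_pos _ hq'⟩

private theorem SB_cg {m : ℕ} (q : ℕ) (f : Vn m) : CgN q f (SB_md q f) := by
  intro i
  exact Int.dvd_self_sub_emod

private theorem SB_eq {m q : ℕ} {f c : Vn m} (hc : c ∈ cubeN m q) : SB_md q f = c ↔ CgN q f c := by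
  rw [mem_cubeN] at hc
  constructor
  · rintro rfl
    exact SB_cg q f
  · intro h
    funext i
    have h1 : f i % (q : ℤ) = c i % (q : ℤ) := (Int.emod_emod_of_dvd _ (dvd_refl _)).symm.trans
      (by
        have h2 := (Int.emod_emod_of_dvd (f i) (dvd_refl (q : ℤ)))
        rw [h2]
        exact (Int.emod_emod_of_dvd (f i) (dvd_refl (q : ℤ))).symm.trans (by
          rw [h2]
          exact (Int.emod_eq_emod_iff_emod_sub_eq_zero).2 (Int.emod_eq_zero_of_dvd (h i))))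
    change f i % (q : ℤ) = c i
    rw [h1, Int.emod_eq_of_lt (hc i).1 (hc i).2]

private theorem SB_evn {m M : ℕ} {f g : Vn m} (h : CgN M f g) (r s : ℤ) :
    (M : ℤ) ∣ s + evn f r ↔ (M : ℤ) ∣ s + evn g r := by
  have h1 : (M : ℤ) ∣ (s + evn f r) - (s + evn g r) := by
    rw [add_sub_add_left_eq_sub]
    unfold evn
    rw [← Finset.sum_sub_distrib]
    refine Finset.dvd_sum fun i _ => ?_
    rw [← sub_mul]
    exact (h i).mul_right _
  exact (dvd_iff_dvd_of_dvd_sub h1)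

open Classical in
/-- Copy of `FQQ.ex_perN`. -/
theorem ex_perA {m H J M q q0 : ℕ} {r s : ℤ} (hH : 0 < H) (hJ : 0 < J) (hM : 0 < M) (hq : 0 < q)
    (hc : M.Coprime q) (hd : M * q ∣ J) (hq0 : q ≤ q0) (hG : GoodN m H q0 M r) (φ : Vn m → ℝ) (hφ : PerN q φ) :
    ∑ f ∈ (cubeN m (4 * H * J)).filter (fun f => (M : ℤ) ∣ s + evn f r), WN J (4 * H * J) f * φ f =
      (8 * (H : ℝ)) ^ (m + 1) / (M : ℝ) * ExN m q φ := by
  rw [← Finset.sum_fiberwise_of_maps_to (s := (cubeN m (4 * H * J)).filter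
    (fun f => (M : ℤ) ∣ s + evn f r)) (t := cubeN m q) (g := SB_md q) (fun f _ => SB_mem hq f)]
  have h1 : ∀ c ∈ cubeN m q, (∑ f ∈ ((cubeN m (4 * H * J)).filter
      (fun f => (M : ℤ) ∣ s + evn f r)).filter (fun f => SB_md q f = c), WN J (4 * H * J) f * φ f) =
      φ c * ((8 * (H : ℝ)) ^ (m + 1) / ((M : ℝ) * (q : ℝ) ^ (m + 1))) := by
    intro c hcm
    rw [← ex_cosetA hH hJ hM hq hc hd hq0 hG c s, Finset.mul_sum, Finset.filter_filter]
    refine Finset.sum_congr ?_ ?_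
    · refine Finset.filter_congr fun f _ => ?_
      rw [SB_eq hcm, and_comm]
    · intro f hf
      rw [Finset.mem_filter] at hf
      rw [hφ f c hf.2.1, mul_comm]
  rw [Finset.sum_congr rfl h1, ← Finset.sum_mul]
  unfold ExN
  have hq' : (q : ℝ) ≠ 0 := by
    have : (0 : ℝ) < q := by exact_mod_cast hq
    exact this.ne'
  have hM' : (M : ℝ) ≠ 0 := by
    have : (0 : ℝ) < M := by exact_mod_cast hM
    exact this.ne'
  field_simp

open Classical in
/-- Copy of `FQQ.box_le_cubeN`. -/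
theorem box_le_cubeA {m H J M : ℕ} {r s : ℤ} (hH : 0 < H) (hJ : 0 < J) (hM : M ∣ J) (φ : Vn m → ℝ)
    (h0 : ∀ f, 0 ≤ φ f) (hφ : PerN (4 * H * J) φ) :
    ∑ f ∈ (boxN m H).filter (fun f => (M : ℤ) ∣ s + evn f r), φ f ≤
      ∑ f ∈ (cubeN m (4 * H * J)).filter (fun f => (M : ℤ) ∣ s + evn f r), WN J (4 * H * J) f * φ f := by
  have hM4 : 0 < 4 * H * J := by positivity
  have h1 : ∀ f ∈ (boxN m H).filter (fun f => (M : ℤ) ∣ s + evn f r),
      φ f ≤ WN J (4 * H * J) (SB_md (4 * H * J) f) * φ (SB_md (4 * H * J) f) := by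
    intro f hf
    rw [Finset.mem_filter] at hf
    rw [← WN_periodic J (4 * H * J) hM4 _ _ (SB_cg (4 * H * J) f),
      ← hφ _ _ (SB_cg (4 * H * J) f)]
    have h2 := WN_ge_one H J hH hJ f hf.1
    nlinarith [h0 f]
  refine (Finset.sum_le_sum h1).trans ?_
  have hinj : Set.InjOn (SB_md (m := m) (4 * H * J))
      ((boxN m H).filter (fun f => (M : ℤ) ∣ s + evn f r) : Finset (Vn m)) := by
    intro f hf g hg hfg
    rw [Finset.mem_coe, Finset.mem_filter, mem_boxN] at hf hg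
    funext i
    have h2 := SB_cg (4 * H * J) f i
    have h3 := SB_cg (4 * H * J) g i
    rw [hfg] at h2
    have h4 : ((4 * H * J : ℕ) : ℤ) ∣ f i - g i := by
      have h5 := dvd_sub h2 h3
      have h6 : f i - SB_md (4 * H * J) g i - (g i - SB_md (4 * H * J) g i) = f i - g i := by ring
      rwa [h6] at h5
    have h7 := abs_le.1 (hf.1 i)
    have h8 := abs_le.1 (hg.1 i)
    have h9 : |f i - g i| < ((4 * H * J : ℕ) : ℤ) := by
      rw [abs_lt]
      have hJ' : (1 : ℤ) ≤ J := by exact_mod_cast hJ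
      have hH' : (1 : ℤ) ≤ H := by exact_mod_cast hH
      push_cast
      constructor <;> nlinarith
    exact sub_eq_zero.1 (Int.eq_zero_of_abs_lt_dvd h4 h9)
  rw [← Finset.sum_image (f := fun f => WN J (4 * H * J) f * φ f) hinj]
  refine Finset.sum_le_sum_of_subset_of_nonneg ?_ ?_
  · intro g hg
    obtain ⟨f, hf, rfl⟩ := Finset.mem_image.1 hg
    rw [Finset.mem_filter] at hf ⊢
    refine ⟨SB_mem hM4 f, ?_⟩
    have h2 : CgN M f (SB_md (4 * H * J) f) := by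
      intro i
      refine (Int.natCast_dvd_natCast.2 ?_).trans (SB_cg (4 * H * J) f i)
      exact hM.trans (Dvd.intro_left _ rfl)
    exact (SB_evn h2 r s).1 hf.2
  · intro f _ _
    exact mul_nonneg (WN_nonneg J _ f) (h0 f)

open Classical in
theorem sieveA {m H M q0 k : ℕ} {r s : ℤ} (hH : 0 < H) (hM : 0 < M) (Q : Finset ℕ)
    (hQ : ∀ p ∈ Q, p.Prime ∧ ¬ p ∣ M) (hk : ∀ D ⊆ Q, D.card ≤ 2 * k → ∏ p ∈ D, p ≤ q0) (hG : GoodN m H q0 M r)
    (x : ℕ → Vn m → ℝ) (hx : ∀ p ∈ Q, PerN p (x p)) (h0 : ∀ p ∈ Q, ∀ f, 0 ≤ x p f) (h1 : ∀ p ∈ Q, ∀ f, x p f ≤ 1)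
    (B : ℝ) (hB : ∑ p ∈ Q, ExN m p (x p) ≤ B) :
    ∑ f ∈ (boxN m H).filter (fun f => (M : ℤ) ∣ s + evn f r), ∏ p ∈ Q, (1 - x p f) ≤
      (8 * (H : ℝ)) ^ (m + 1) / (M : ℝ) *
        (∏ p ∈ Q, (1 - ExN m p (x p)) + B ^ (2 * k + 1) / ((2 * k + 1).factorial : ℝ)) := by
  have hpp : ∀ p ∈ Q, p.Prime := fun p hp => (hQ p hp).1
  obtain ⟨J, hJdef⟩ : ∃ J : ℕ, J = M * ∏ p ∈ Q, p := ⟨_, rfl⟩
  have hprod : 0 < ∏ p ∈ Q, p := Finset.prod_pos fun p hp => (hpp p hp).pos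
  have hJ : 0 < J := by
    rw [hJdef]
    exact Nat.mul_pos hM hprod
  have hMJ : M ∣ J := by
    rw [hJdef]
    exact Dvd.intro _ rfl
  have hpM : ∀ p ∈ Q, p ∣ 4 * H * J := by
    intro p hp
    have e1 : p ∣ ∏ p ∈ Q, p := Finset.dvd_prod_of_mem (fun p => p) hp
    rw [hJdef]
    exact (e1.mul_left M).mul_left (4 * H)
  have hf0 : ∀ f : Vn m, 0 ≤ ∏ p ∈ Q, (1 - x p f) := fun f =>
    Finset.prod_nonneg fun p hp => sub_nonneg.2 (h1 p hp f)
  have hfP : PerN (4 * H * J) fun f => ∏ p ∈ Q, (1 - x p f) := by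
    intro f g e1
    refine Finset.prod_congr rfl fun p hp => ?_
    rw [(hx p hp).mono (hpM p hp) f g e1]
  refine (box_le_cubeA hH hJ hMJ (r := r) (s := s) _ hf0 hfP).trans ?_
  set K : Finset (Finset ℕ) := Q.powerset.filter (fun D => D.card ≤ 2 * k) with hK
  have hKm : ∀ D ∈ K, D ⊆ Q ∧ D.card ≤ 2 * k := by
    intro D hD
    rw [hK, Finset.mem_filter, Finset.mem_powerset] at hD
    exact hD
  -- the pointwise bound
  have hpt : ∀ f : Vn m, WN J (4 * H * J) f * ∏ p ∈ Q, (1 - x p f) ≤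
      ∑ D ∈ K, (-1 : ℝ) ^ D.card * (WN J (4 * H * J) f * ∏ p ∈ D, x p f) := by
    intro f
    have e1 := bonf Q (fun p => x p f) (fun p hp => h0 p hp f) (fun p hp => h1 p hp f) k
    refine (mul_le_mul_of_nonneg_left e1 (WN_nonneg _ _ _)).trans (le_of_eq ?_)
    rw [Finset.mul_sum]
    refine Finset.sum_congr rfl fun D _ => ?_
    ring
  refine (Finset.sum_le_sum fun f _ => hpt f).trans ?_
  rw [Finset.sum_comm]
  -- the mean values
  have hD : ∀ D ∈ K, ∑ f ∈ (cubeN m (4 * H * J)).filter (fun f => (M : ℤ) ∣ s + evn f r),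
      (-1 : ℝ) ^ D.card * (WN J (4 * H * J) f * ∏ p ∈ D, x p f) =
        (8 * (H : ℝ)) ^ (m + 1) / (M : ℝ) * ((-1 : ℝ) ^ D.card *
          ∏ p ∈ D, ExN m p (x p)) := by
    intro D hDK
    obtain ⟨hDQ, hDc⟩ := hKm D hDK
    have hDp : ∀ p ∈ D, p.Prime := fun p hp => hpp p (hDQ hp)
    have hP := ExN_prod (m := m) D hDp x fun p hp => hx p (hDQ hp)
    have hqD : 0 < ∏ p ∈ D, p := Finset.prod_pos fun p hp => (hDp p hp).pos
    have hc : M.Coprime (∏ p ∈ D, p) := by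
      refine Nat.Coprime.prod_right fun p hp => ?_
      exact ((Nat.Prime.coprime_iff_not_dvd (hDp p hp)).2 (hQ p (hDQ hp)).2).symm
    have hd : M * ∏ p ∈ D, p ∣ J := by
      rw [hJdef]
      exact mul_dvd_mul_left M (Finset.prod_dvd_prod_of_subset _ _ _ hDQ)
    have e1 := ex_perA (s := s) hH hJ hM hqD hc hd (hk D hDQ hDc) hG (fun f => ∏ p ∈ D, x p f) hP.1
    rw [← Finset.mul_sum, e1, hP.2]
    ring
  rw [Finset.sum_congr rfl hD, ← Finset.mul_sum]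
  have hE1 : 0 ≤ (8 * (H : ℝ)) ^ (m + 1) / (M : ℝ) :=
    div_nonneg (pow_nonneg (mul_nonneg (by norm_num) (Nat.cast_nonneg H)) _) (Nat.cast_nonneg M)
  refine mul_le_mul_of_nonneg_left ?_ hE1
  have hy0 : ∀ p ∈ Q, 0 ≤ ExN m p (x p) := fun p hp => ExN_nonneg m p (x p) (h0 p hp)
  have hy1 : ∀ p ∈ Q, ExN m p (x p) ≤ 1 := fun p hp =>
    ExN_le_one (hpp p hp).pos (x p) (h1 p hp)
  refine (bonf_up Q (fun p => ExN m p (x p)) hy0 hy1 k).trans ?_
  refine add_le_add le_rfl ((esymm_le Q _ hy0 (2 * k + 1)).trans ?_)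
  have hs0 : 0 ≤ ∑ p ∈ Q, ExN m p (x p) := Finset.sum_nonneg hy0
  exact div_le_div_of_nonneg_right (pow_le_pow_left₀ hs0 hB _) (Nat.cast_nonneg _)

end O1
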