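import Pool.Agent.Lib.MP_10e784_agO.SB
import Pool.Agent.Lib.MP_10e784_agO.C3

/-! JOB SV.  The sieve with its parameters chosen.

`x p f = 1` if `E p f`, else `0` (periodic by `hE`); `∏ (1 - x p f) = 1` on the set counted.  `sieveA` with `B = 10 (log log (zz H) + A)` (`∑_{p ≤ zz H} 1 / p`, Mertens: `ELMert`; `log log (zz H) ≤ log log H` as `log (zz H) = log H / (10000 log log H) ≤ log H` for large `H`), `k = ⌈40 log log H⌉`:
`(B ^ (2k+1)) / (2k+1)! ≤ (e B / (2k+1)) ^ (2k+1) ≤ e ^ (-(2k+1)) ≤ (log H) ^ (-10)` since `e ^ 2 B ≤ 74 log log H + C ≤ 2k + 1`; for `D ⊆ Q`, `|D| ≤ 2k`: `∏ p ≤ zz H ^ (2k) = exp (2k log H / (10000 log log H)) ≤ H ^ (1/100) ≤ q0` since `2k ≤ 80 log log H + 2 ≤ 100 log log H`.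
`∏ (1 - a_p) ≤ exp (- ∑ a_p)`.  Constant: `(8H) ^ (m+1) = 8 ^ (m+1) H ^ (m+1)`. -/

set_option autoImplicit false

namespace O1

open Polynomial Finset FQQ

open Filter in
theorem SV_large (L0 : ℝ) : ∃ H0 : ℕ, 3 ≤ H0 ∧ ∀ H : ℕ, H0 ≤ H →
    L0 ≤ Real.log (Real.log H) ∧ 10000 * Real.log (Real.log H) ≤ Real.log H := by
  have h1 : ∀ᶠ x : ℝ in atTop, L0 ≤ Real.log x := Real.tendsto_log_atTop.eventually_ge_atTop L0
  have h2 : ∀ᶠ x : ℝ in atTop, 10000 * Real.log x ≤ x := by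
    have h3 := Real.isLittleO_log_id_atTop.bound (c := 1 / 10000) (by norm_num)
    filter_upwards [h3, eventually_ge_atTop 1] with x hx hx1
    rw [Real.norm_eq_abs, Real.norm_eq_abs, id, abs_of_nonneg (Real.log_nonneg hx1),
      abs_of_nonneg (by linarith)] at hx
    linarith
  have h3 : Tendsto (fun H : ℕ => Real.log (H : ℝ)) atTop atTop :=
    Real.tendsto_log_atTop.comp tendsto_natCast_atTop_atTop
  obtain ⟨H0, h⟩ := eventually_atTop.1 (h3.eventually (h1.and h2))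
  exact ⟨max 3 H0, le_max_left _ _, fun H hH => h H ((le_max_right _ _).trans hH)⟩

theorem SV_fact {B : ℝ} {n : ℕ} (hB : 0 ≤ B) (h : Real.exp 2 * B ≤ n) :
    B ^ n / (n.factorial : ℝ) ≤ Real.exp (-(n : ℝ)) := by
  have h1 : (Real.exp 2 * B) ^ n ≤ (n : ℝ) ^ n :=
    pow_le_pow_left₀ (mul_nonneg (Real.exp_pos _).le hB) h n
  have h2 := Real.pow_div_factorial_le_exp (n : ℝ) (Nat.cast_nonneg n) n
  have h3 : Real.exp (2 * n) = Real.exp 2 ^ n := by
    rw [← Real.exp_nat_mul]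
    congr 1
    ring
  have h4 : Real.exp (2 * n) * (B ^ n / (n.factorial : ℝ)) ≤ Real.exp n := by
    calc Real.exp (2 * n) * (B ^ n / (n.factorial : ℝ)) = (Real.exp 2 * B) ^ n / (n.factorial : ℝ) := by
          rw [h3, mul_pow]
          ring
      _ ≤ (n : ℝ) ^ n / (n.factorial : ℝ) := div_le_div_of_nonneg_right h1 (by positivity)
      _ ≤ Real.exp n := h2
  have h5 : Real.exp (-(n : ℝ)) = Real.exp n / Real.exp (2 * n) := by
    rw [← Real.exp_sub]
    congr 1
    ring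
  rw [h5, le_div_iff₀ (Real.exp_pos _), mul_comm]
  exact h4

open Classical in
theorem sv (m : ℕ) : ∃ (C : ℝ) (H0 : ℕ), 0 < C ∧ ∀ H : ℕ, H0 ≤ H → ∀ (M q0 : ℕ) (r s : ℤ), 0 < M →
    (H : ℝ) ^ ((1 : ℝ) / 100) ≤ (q0 : ℝ) → GoodN m H q0 M r →
    ∀ Q : Finset ℕ, (∀ p ∈ Q, p.Prime ∧ ¬ p ∣ M ∧ (p : ℝ) ≤ zz H) →
    ∀ E : ℕ → Vn m → Prop, (∀ p ∈ Q, ∀ f f' : Vn m, CgN p f f' → (E p f ↔ E p f')) → (∀ p ∈ Q, dn m p (E p) ≤ 10 / (p : ℝ)) →
    (((boxN m H).filter fun f => (M : ℤ) ∣ s + evn f r ∧ ∀ p ∈ Q, ¬ E p f).card : ℝ) ≤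
      C * (H : ℝ) ^ (m + 1) / (M : ℝ) * (Real.exp (- ∑ p ∈ Q, dn m p (E p)) + (Real.log H) ^ (-(10 : ℝ))) := by
  obtain ⟨A, hA, hMert⟩ := mertens_two
  obtain ⟨H0, hH3, hlarge⟩ := SV_large (max 1 (13 * A))
  refine ⟨8 ^ (m + 1), H0, by positivity, fun H hH M q0 r s hM hq0 hG Q hQ E hE hd => ?_⟩
  obtain ⟨h1, h2⟩ := hlarge H hH
  obtain ⟨L, hL⟩ : ∃ L, L = Real.log H := ⟨_, rfl⟩
  obtain ⟨l, hl⟩ : ∃ l, l = Real.log L := ⟨_, rfl⟩
  rw [← hL, ← hl] at h1 h2
  have hl1 : 1 ≤ l := (le_max_left _ _).trans h1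
  have hlA : 13 * A ≤ l := (le_max_right _ _).trans h1
  have hL0 : 0 < L := by linarith
  have hH0 : 0 < H := by omega
  have hHR : (0 : ℝ) < H := by exact_mod_cast hH0
  obtain ⟨w, hw⟩ : ∃ w, w = L / (10000 * l) := ⟨_, rfl⟩
  have hzz : zz H = Real.exp w := by
    unfold zz
    rw [← hL, ← hl, ← hw]
  have hw1 : 1 ≤ w := by
    rw [hw, one_le_div (by linarith)]
    exact h2
  have hwL : w ≤ L := by
    rw [hw, div_le_iff₀ (by linarith)]
    nlinarith
  have hz2 : 2 ≤ zz H := by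
    rw [hzz]
    have := Real.add_one_le_exp w
    linarith
  -- the sum of the densities
  have hsum : ∑ p ∈ Q, dn m p (E p) ≤ 10 * (l + A) := by
    have h3 : ∑ p ∈ Q, dn m p (E p) ≤ ∑ p ∈ Q, 10 * (1 / (p : ℝ)) := by
      refine Finset.sum_le_sum fun p hp => ?_
      have := hd p hp
      rw [div_eq_mul_one_div] at this
      exact this
    have h4 : ∑ p ∈ Q, 10 * (1 / (p : ℝ)) ≤ 10 * PT.PS (fun _ => 1) (zz H) := by
      rw [← Finset.mul_sum]
      refine mul_le_mul_of_nonneg_left ?_ (by norm_num)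
      unfold PT.PS
      refine Finset.sum_le_sum_of_subset_of_nonneg (fun p hp => ?_) fun p _ _ => by positivity
      have h5 := hQ p hp
      rw [mem_filter, mem_Icc]
      exact ⟨⟨h5.1.one_le, Nat.le_floor h5.2.2⟩, h5.1⟩
    have h5 := (hMert (zz H) hz2).1
    rw [hzz, Real.log_exp] at h5
    have h6 : Real.log w ≤ l := by
      rw [hl]
      exact Real.log_le_log (by linarith) hwL
    rw [hzz] at h4
    linarith
  obtain ⟨k, hk⟩ : ∃ k, k = ⌈40 * l⌉₊ := ⟨_, rfl⟩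
  have hk1 : 40 * l ≤ k := by rw [hk]; exact Nat.le_ceil _
  have hk2 : (k : ℝ) < 40 * l + 1 := by rw [hk]; exact Nat.ceil_lt_add_one (by linarith)
  have hxind : ∀ p ∈ Q, PerN p (fun f : Vn m => if E p f then (1 : ℝ) else 0) := by
    intro p hp f f' hff
    have := hE p hp f f' hff
    show (if E p f then (1 : ℝ) else 0) = if E p f' then (1 : ℝ) else 0
    by_cases h3 : E p f
    · rw [if_pos h3, if_pos (this.1 h3)]
    · rw [if_neg h3, if_neg (fun h4 => h3 (this.2 h4))]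
  have key := sieveA (m := m) (k := k) (r := r) (s := s) hH0 hM Q (fun p hp => ⟨(hQ p hp).1, (hQ p hp).2.1⟩)
    (fun D hD hc => by
      have h3 : ((∏ p ∈ D, p : ℕ) : ℝ) ≤ (H : ℝ) ^ ((1 : ℝ) / 100) := by
        rw [Nat.cast_prod]
        calc ∏ p ∈ D, (p : ℝ) ≤ ∏ _p ∈ D, zz H :=
              Finset.prod_le_prod (fun p _ => Nat.cast_nonneg p) fun p hp => (hQ p (hD hp)).2.2
          _ = zz H ^ D.card := by rw [Finset.prod_const]
          _ ≤ zz H ^ (2 * k) := pow_le_pow_right₀ (by linarith) hc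
          _ ≤ (H : ℝ) ^ ((1 : ℝ) / 100) := by
            rw [hzz, ← Real.exp_nat_mul, Real.rpow_def_of_pos hHR, ← hL, Real.exp_le_exp]
            push_cast
            have h4 : w * (10000 * l) = L := by
              rw [hw, div_mul_cancel₀]
              linarith
            have h5 : 2 * (k : ℝ) ≤ 100 * l := by linarith
            have h6 : 2 * (k : ℝ) * w ≤ 100 * l * w := mul_le_mul_of_nonneg_right h5 (by linarith)
            linarith
      exact_mod_cast h3.trans hq0) hG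
    (fun p f => if E p f then (1 : ℝ) else 0) hxind
    (fun p _ f => by
      split_ifs
      · exact zero_le_one
      · exact le_rfl)
    (fun p _ f => by
      split_ifs
      · exact le_rfl
      · exact zero_le_one) (10 * (l + A)) hsum
  have hcard : (((boxN m H).filter fun f => (M : ℤ) ∣ s + evn f r ∧ ∀ p ∈ Q, ¬ E p f).card : ℝ) =
      ∑ f ∈ (boxN m H).filter (fun f => (M : ℤ) ∣ s + evn f r), ∏ p ∈ Q, (1 - if E p f then (1 : ℝ) else 0) := by
    rw [← Finset.filter_filter, Finset.card_filter, Nat.cast_sum]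
    refine Finset.sum_congr rfl fun f _ => ?_
    by_cases h3 : ∀ p ∈ Q, ¬ E p f
    · rw [if_pos h3, Nat.cast_one]
      symm
      refine Finset.prod_eq_one fun p hp => ?_
      rw [if_neg (h3 p hp), sub_zero]
    · rw [if_neg h3, Nat.cast_zero]
      push Not at h3
      obtain ⟨p, hp, h4⟩ := h3
      symm
      refine Finset.prod_eq_zero hp ?_
      rw [if_pos h4, sub_self]
  have hprod : ∏ p ∈ Q, (1 - ExN m p (fun f : Vn m => if E p f then (1 : ℝ) else 0)) ≤
      Real.exp (- ∑ p ∈ Q, dn m p (E p)) := by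
    rw [← Finset.sum_neg_distrib, Real.exp_sum]
    refine Finset.prod_le_prod (fun p hp => ?_) fun p _ => ?_
    · have h3 := ExN_le_one (m := m) (hQ p hp).1.pos (fun f : Vn m => if E p f then (1 : ℝ) else 0)
        (fun f => by
          split_ifs
          · exact le_rfl
          · exact zero_le_one)
      linarith
    · have h3 := Real.add_one_le_exp (-dn m p (E p))
      have h4 : dn m p (E p) = ExN m p (fun f : Vn m => if E p f then (1 : ℝ) else 0) := rfl
      rw [← h4]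
      linarith
  have hfact : (10 * (l + A)) ^ (2 * k + 1) / ((2 * k + 1).factorial : ℝ) ≤ (Real.log H) ^ (-(10 : ℝ)) := by
    have h3 : Real.exp 2 * (10 * (l + A)) ≤ ((2 * k + 1 : ℕ) : ℝ) := by
      have h4 : Real.exp 2 ≤ 7.39 := by
        have h5 := Real.exp_one_lt_d9
        have h6 : Real.exp 2 = Real.exp 1 * Real.exp 1 := by
          rw [← Real.exp_add]
          norm_num
        have h7 := Real.exp_pos 1
        rw [h6]
        nlinarith
      have h8 : Real.exp 2 * (10 * (l + A)) ≤ 7.39 * (10 * (l + A)) :=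
        mul_le_mul_of_nonneg_right h4 (by linarith)
      push_cast
      linarith
    refine (SV_fact (by linarith) h3).trans ?_
    rw [← hL, Real.rpow_def_of_pos hL0, ← hl, Real.exp_le_exp]
    push_cast
    linarith
  rw [hcard]
  refine key.trans ?_
  have e : (8 * (H : ℝ)) ^ (m + 1) / (M : ℝ) = 8 ^ (m + 1) * (H : ℝ) ^ (m + 1) / (M : ℝ) := by
    rw [mul_pow]
  rw [e]
  exact mul_le_mul_of_nonneg_left (add_le_add hprod hfact) (by positivity)

end O1
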