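import Pool.Agent.Lib.MP_10e784_agO.LS
import Pool.Agent.Lib.MP_10e784_agO.SV

/-! JOB SF.  The number of objects of the block `j` which satisfy the SELF conditions.

`sv 2` with `H = HJ C0 j`, `M = 1`, `r = 0`, `s = 0`, `q0 = 4 H` (`GoodN 2 H (4H) 1 0` is trivial: `k ≠ 0` has a coordinate with `|k i| ≥ 1`), `Q = QN B H`, `E p δ = ¬ Self g p (red p (Pf δ))` (`self_per`, `self_upper`, `self_lower`; `p ≠ 2` because `2 ∣ B`).
`∑_{p ∈ Q} dn ≥ PS (ew g) (zz H) - C_B`.  `H ^ 3 ≤ C0 ^ 3 2 ^ j`. -/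

set_option autoImplicit false

namespace O1

open Polynomial Finset TW FQQ

private theorem SF_good (H : ℕ) : GoodN 2 H (4 * H) 1 0 := by
  intro k hk _
  obtain ⟨i, hi⟩ := Function.ne_iff.1 hk
  refine ⟨i, ?_⟩
  have h1 : 1 ≤ (k i).natAbs := Nat.one_le_iff_ne_zero.2 fun h2 => hi (Int.natAbs_eq_zero.1 h2)
  rw [mul_one]
  exact Nat.le_mul_of_pos_right _ h1

private theorem SF_big (C0 : ℝ) (hC0 : 1 ≤ C0) (H0 j : ℕ) (hj : 3 * (H0 + 2) ≤ j) : H0 + 2 ≤ HJ C0 j := by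
  unfold HJ
  refine Nat.le_floor ?_
  have h1 : ((H0 + 2 : ℕ) : ℝ) ≤ (2 : ℝ) ^ ((j : ℝ) / 3) := by
    have h2 : ((H0 + 2 : ℕ) : ℝ) ≤ (2 : ℝ) ^ (((H0 + 2 : ℕ) : ℝ)) := by
      rw [Real.rpow_natCast]
      exact_mod_cast (Nat.lt_two_pow_self (n := H0 + 2)).le
    refine h2.trans (Real.rpow_le_rpow_of_exponent_le (by norm_num) ?_)
    have h3 : ((3 * (H0 + 2) : ℕ) : ℝ) ≤ (j : ℝ) := by exact_mod_cast hj
    rw [le_div_iff₀ (by norm_num)]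
    push_cast at h3 ⊢
    linarith
  have h2 : (0 : ℝ) ≤ (2 : ℝ) ^ ((j : ℝ) / 3) := by positivity
  nlinarith

private theorem SF_cube (C0 : ℝ) (hC0 : 1 ≤ C0) (j : ℕ) : ((HJ C0 j : ℕ) : ℝ) ^ 3 ≤ C0 ^ 3 * (2 : ℝ) ^ j := by
  have h1 : ((HJ C0 j : ℕ) : ℝ) ≤ C0 * (2 : ℝ) ^ ((j : ℝ) / 3) := by
    unfold HJ
    exact Nat.floor_le (by positivity)
  have h2 : ((2 : ℝ) ^ ((j : ℝ) / 3)) ^ 3 = (2 : ℝ) ^ j := by
    rw [← Real.rpow_natCast ((2 : ℝ) ^ ((j : ℝ) / 3)) 3, ← Real.rpow_mul (by norm_num), ← Real.rpow_natCast]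
    congr 1
    push_cast
    ring
  calc ((HJ C0 j : ℕ) : ℝ) ^ 3 ≤ (C0 * (2 : ℝ) ^ ((j : ℝ) / 3)) ^ 3 :=
        pow_le_pow_left₀ (Nat.cast_nonneg _) h1 3
    _ = C0 ^ 3 * (2 : ℝ) ^ j := by rw [mul_pow, h2]

/-- The sum of the weights over the sieving primes. -/
private theorem SF_sum (a : ℕ → ℝ) (B : ℕ) (hB : B ≠ 0) (H : ℕ) :
    PT.PS a (zz H) ≤ ∑ p ∈ QN B H, a p / (p : ℝ) + ∑ p ∈ B.primeFactors, |a p| / (p : ℝ) := by
  classical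
  unfold PT.PS
  rw [← Finset.sum_filter_add_sum_filter_not ((Icc 1 ⌊zz H⌋₊).filter Nat.Prime) (fun p => p ∣ B)]
  have h1 : ∑ p ∈ ((Icc 1 ⌊zz H⌋₊).filter Nat.Prime).filter (fun p => p ∣ B), a p / (p : ℝ) ≤
      ∑ p ∈ B.primeFactors, |a p| / (p : ℝ) := by
    refine (Finset.sum_le_sum fun p _ => div_le_div_of_nonneg_right (le_abs_self (a p))
      (Nat.cast_nonneg p)).trans ?_
    refine Finset.sum_le_sum_of_subset_of_nonneg (fun p hp => ?_) fun p _ _ => by positivity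
    obtain ⟨h2, h3⟩ := Finset.mem_filter.1 hp
    exact Nat.mem_primeFactors.2 ⟨(Finset.mem_filter.1 h2).2, h3, hB⟩
  have h2 : ((Icc 1 ⌊zz H⌋₊).filter Nat.Prime).filter (fun p => ¬ p ∣ B) = QN B H := by
    unfold QN
    ext p
    rw [Finset.mem_filter, Finset.mem_filter, Finset.mem_filter, Finset.mem_Icc, Finset.mem_range]
    constructor
    · rintro ⟨⟨⟨h3, h4⟩, h5⟩, h6⟩
      exact ⟨by omega, h5, h6⟩
    · rintro ⟨h3, h4, h5⟩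
      exact ⟨⟨⟨h4.pos, by omega⟩, h4⟩, h5⟩
  rw [h2]
  linarith

open Classical in
theorem self_count {g G1 G2 : ℤ[X]} (hD : Dat g G1 G2) {P0 B : ℕ} (hG : Good g G1 G2 P0 B) (C0 : ℝ) (hC0 : 1 ≤ C0) :
    ∃ (C : ℝ) (j0 : ℕ), 0 < C ∧ ∀ j : ℕ, j0 ≤ j →
      (((Blk g B C0 j).filter fun δ => ∀ p : ℕ, p.Prime → ¬ p ∣ B → Self g p (red p (Pf δ))).card : ℝ) ≤
        C * (2 : ℝ) ^ j * (Real.exp (- PT.PS (ew g) (zz (HJ C0 j))) + (Real.log (HJ C0 j)) ^ (-(10 : ℝ))) := by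
  obtain ⟨C1, H0, hC1, hsv⟩ := sv 2
  obtain ⟨CB, hCB⟩ : ∃ CB : ℝ, CB = ∑ p ∈ B.primeFactors, |ew g p| / (p : ℝ) := ⟨_, rfl⟩
  have hCB0 : 0 ≤ CB := by
    rw [hCB]
    positivity
  have hsum := Real.summable_one_div_nat_pow.2 (by norm_num : 1 < 2)
  obtain ⟨C2, hC2⟩ : ∃ C2 : ℝ, C2 = 100 * ∑' n : ℕ, 1 / (n : ℝ) ^ 2 := ⟨_, rfl⟩
  have hC20 : 0 ≤ C2 := by
    rw [hC2]
    exact mul_nonneg (by norm_num) (tsum_nonneg fun n => by positivity)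
  refine ⟨C1 * C0 ^ 3 * Real.exp (CB + C2), 3 * (H0 + 2), by positivity, fun j hj => ?_⟩
  have hH := SF_big C0 hC0 H0 j hj
  have hcube := SF_cube C0 hC0 j
  obtain ⟨H, hHJ⟩ : ∃ H : ℕ, H = HJ C0 j := ⟨_, rfl⟩
  rw [← hHJ] at hH hcube ⊢
  have hH1 : (1 : ℝ) ≤ (H : ℝ) := by
    have h1 : 1 ≤ H := by omega
    exact_mod_cast h1
  have hzz : 0 ≤ zz H := (Real.exp_pos _).le
  have hQ : ∀ p ∈ QN B H, p.Prime ∧ ¬ p ∣ B ∧ (p : ℝ) ≤ zz H := by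
    intro p hp
    unfold QN at hp
    obtain ⟨h1, h2, h3⟩ := Finset.mem_filter.1 hp
    refine ⟨h2, h3, ?_⟩
    rw [Finset.mem_range] at h1
    exact (Nat.cast_le.2 (by omega : p ≤ ⌊zz H⌋₊)).trans (Nat.floor_le hzz)
  have hp2 : ∀ p ∈ QN B H, p ≠ 2 := by
    intro p hp h1
    exact (hQ p hp).2.1 (h1 ▸ hG.two)
  have hlow : ∀ p ∈ QN B H, ew g p / (p : ℝ) - 100 / (p : ℝ) ^ 2 ≤
      dn 2 p (fun δ => ¬ Self g p (red p (Pf δ))) := fun p hp =>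
    self_lower hD.gm hD.gd p (hQ p hp).1 (hp2 p hp) (hG.sqf p (hQ p hp).1 (hQ p hp).2.1)
  have hmain := hsv H (by omega) 1 (4 * H) 0 0 one_pos (by
      have h1 : (H : ℝ) ^ ((1 : ℝ) / 100) ≤ (H : ℝ) ^ (1 : ℝ) :=
        Real.rpow_le_rpow_of_exponent_le hH1 (by norm_num)
      rw [Real.rpow_one] at h1
      push_cast
      linarith) (SF_good H) (QN B H)
    (fun p hp => ⟨(hQ p hp).1, (hQ p hp).1.not_dvd_one, (hQ p hp).2.2⟩)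
    (fun p δ => ¬ Self g p (red p (Pf δ))) (fun p _ δ δ' h => not_congr (self_per g p δ δ' h))
    (fun p hp => self_upper hD.gm hD.gd p (hQ p hp).1 (hp2 p hp) (hG.sqf p (hQ p hp).1 (hQ p hp).2.1))
  have key : ∀ δ ∈ ((Blk g B C0 j).filter fun δ => ∀ p : ℕ, p.Prime → ¬ p ∣ B → Self g p (red p (Pf δ))),
      δ ∈ boxN 2 H ∧ ((1 : ℕ) : ℤ) ∣ 0 + evn δ 0 ∧ ∀ p ∈ QN B H, ¬ ¬ Self g p (red p (Pf δ)) := by
    intro δ hδ
    obtain ⟨h2, h3⟩ := Finset.mem_filter.1 hδ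
    unfold Blk at h2
    obtain ⟨h4, -⟩ := Finset.mem_filter.1 h2
    rw [← hHJ] at h4
    refine ⟨h4, by rw [Nat.cast_one]; exact one_dvd _, fun p hp h5 => ?_⟩
    exact h5 (h3 p (hQ p hp).1 (hQ p hp).2.1)
  have hdn : PT.PS (ew g) (zz H) - (CB + C2) ≤
      ∑ p ∈ QN B H, dn 2 p (fun δ => ¬ Self g p (red p (Pf δ))) := by
    have h1 := SF_sum (ew g) B hG.ne H
    rw [← hCB] at h1
    have h2 := Finset.sum_le_sum hlow
    rw [Finset.sum_sub_distrib] at h2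
    have h3 : ∑ p ∈ QN B H, 100 / (p : ℝ) ^ 2 ≤ C2 := by
      have h4 := hsum.sum_le_tsum (QN B H) (fun n _ => by positivity)
      rw [hC2]
      calc ∑ p ∈ QN B H, 100 / (p : ℝ) ^ 2 = 100 * ∑ p ∈ QN B H, 1 / (p : ℝ) ^ 2 := by
            rw [Finset.mul_sum]
            exact Finset.sum_congr rfl fun p _ => by ring
        _ ≤ _ := mul_le_mul_of_nonneg_left h4 (by norm_num)
    linarith
  have hexp : Real.exp (- ∑ p ∈ QN B H, dn 2 p (fun δ => ¬ Self g p (red p (Pf δ)))) ≤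
      Real.exp (CB + C2) * Real.exp (- PT.PS (ew g) (zz H)) := by
    rw [← Real.exp_add]
    exact Real.exp_le_exp.2 (by linarith)
  have hE1 : 1 ≤ Real.exp (CB + C2) := Real.one_le_exp (by linarith)
  have hlog : 0 ≤ (Real.log H) ^ (-(10 : ℝ)) := Real.rpow_nonneg (Real.log_nonneg hH1) _
  refine le_trans ?_ (hmain.trans ?_)
  · refine Nat.cast_le.2 (Finset.card_le_card fun δ hδ => ?_)
    exact (@Finset.mem_filter _ _ (_) _ _).2 (key δ hδ)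
  rw [Nat.cast_one, div_one]
  have h1 : C1 * (H : ℝ) ^ (2 + 1) ≤ C1 * (C0 ^ 3 * (2 : ℝ) ^ j) :=
    mul_le_mul_of_nonneg_left hcube hC1.le
  have h2 : Real.exp (- ∑ p ∈ QN B H, dn 2 p (fun δ => ¬ Self g p (red p (Pf δ)))) +
      (Real.log H) ^ (-(10 : ℝ)) ≤ Real.exp (CB + C2) * (Real.exp (- PT.PS (ew g) (zz H)) +
        (Real.log H) ^ (-(10 : ℝ))) := by
    rw [mul_add]
    exact add_le_add hexp (le_mul_of_one_le_left hlog hE1)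
  calc C1 * (H : ℝ) ^ (2 + 1) * (Real.exp (- ∑ p ∈ QN B H, dn 2 p (fun δ => ¬ Self g p (red p (Pf δ)))) +
      (Real.log H) ^ (-(10 : ℝ)))
      ≤ C1 * (C0 ^ 3 * (2 : ℝ) ^ j) * (Real.exp (CB + C2) * (Real.exp (- PT.PS (ew g) (zz H)) +
        (Real.log H) ^ (-(10 : ℝ)))) := by
        refine mul_le_mul h1 h2 ?_ (by positivity)
        have : 0 ≤ Real.exp (- ∑ p ∈ QN B H, dn 2 p (fun δ => ¬ Self g p (red p (Pf δ)))) :=
          (Real.exp_pos _).le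
        linarith
    _ = _ := by ring

end O1
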