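import Pool.Agent.Lib.MP_10e784_agO.Defs

/-! JOB SQ.  For all but `O(N)` pairs the polynomial `g A` is squarefree.

Fix `u`; `F = G1 (G1 + u G2)`, `A = F + v G2²`, over `ℂ`.  If `g A` is not squarefree there is a complex number `a` with `A(a) = 0`
and `g(a) = 0` or `A'(a) = 0`.  `G2(a) ≠ 0`: otherwise `G1(a)² = 0`, contradiction to `hD.cop`.  So `v = - F(a) / G2(a)²` is determined
by `a`, and `a` is a root of `g W`, `W = F' G2 - 2 F G2'`, which is not zero: its coefficient of degree `2k + m - 1`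
(`k = natDegree G1`, `m = natDegree G2 < k`, `F` monic of degree `2k`) is `(2k - 2m) * leadingCoeff G2 ≠ 0`. -/

set_option autoImplicit false

namespace O1

open Polynomial Finset TW FQQ

private theorem SQ_aeval (a : ℂ) (p : ℤ[X]) : aeval a (qq p) = aeval a p := by
  unfold qq
  have e : (algebraMap ℚ ℂ).comp (Int.castRingHom ℚ) = algebraMap ℤ ℂ := RingHom.ext_int _ _
  rw [aeval_def, eval₂_map, aeval_def, e]

private theorem SQ_qqD (p : ℤ[X]) : derivative (qq p) = qq (derivative p) := by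
  unfold qq
  rw [derivative_map]

private theorem SQ_G2 {g G1 G2 : ℤ[X]} (hD : Dat g G1 G2) : G2 ≠ 0 := by
  intro h
  have hc := hD.cop
  have h0 : qq G2 = 0 := by rw [h]; unfold qq; simp
  rw [h0] at hc
  have hu : IsUnit (qq G1) := isCoprime_zero_right.mp hc
  have hd : (qq G1).natDegree = 0 := natDegree_eq_zero_of_isUnit hu
  have hm : (qq G1).natDegree = G1.natDegree := by
    unfold qq
    exact hD.m1.natDegree_map _
  have := hD.d2
  omega

/-- `F = G1² + u G1 G2` -/
private noncomputable def SQF (G1 G2 : ℤ[X]) (u : ℤ) : ℤ[X] := G1 ^ 2 + C u * G1 * G2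

private theorem SQF_deg {g G1 G2 : ℤ[X]} (hD : Dat g G1 G2) (u : ℤ) :
    (SQF G1 G2 u).natDegree ≤ 2 * G1.natDegree ∧ (SQF G1 G2 u).coeff (2 * G1.natDegree) = 1 := by
  have h1 : (G1 ^ 2).natDegree = 2 * G1.natDegree := hD.m1.natDegree_pow 2
  have h2 : (C u * G1 * G2).natDegree < 2 * G1.natDegree := by
    have a1 : (C u * G1 * G2).natDegree ≤ (C u * G1).natDegree + G2.natDegree := natDegree_mul_le
    have a2 : (C u * G1).natDegree ≤ G1.natDegree := natDegree_C_mul_le u G1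
    have := hD.d2
    omega
  constructor
  · refine (natDegree_add_le _ _).trans ?_
    rw [h1]
    exact max_le le_rfl h2.le
  · unfold SQF
    rw [coeff_add, coeff_eq_zero_of_natDegree_lt h2, add_zero, ← h1]
    exact (hD.m1.pow 2).coeff_natDegree

/-- `W = F' G2 - 2 F G2'` -/
private noncomputable def SQW (G1 G2 : ℤ[X]) (u : ℤ) : ℤ[X] :=
  derivative (SQF G1 G2 u) * G2 - C 2 * (SQF G1 G2 u * derivative G2)

private theorem SQW_ne {g G1 G2 : ℤ[X]} (hD : Dat g G1 G2) (u : ℤ) : SQW G1 G2 u ≠ 0 := by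
  obtain ⟨hdeg, hlc⟩ := SQF_deg hD u
  have hk : G2.natDegree < G1.natDegree := hD.d2
  have hG2 := SQ_G2 hD
  have hl : G2.coeff G2.natDegree ≠ 0 := by
    rw [coeff_natDegree]
    exact leadingCoeff_ne_zero.mpr hG2
  obtain ⟨k, hk1⟩ : ∃ k, 2 * G1.natDegree = k + 1 := ⟨2 * G1.natDegree - 1, by omega⟩
  have hdF : (derivative (SQF G1 G2 u)).natDegree ≤ k := by
    refine (natDegree_derivative_le _).trans ?_
    omega
  have hcF : (derivative (SQF G1 G2 u)).coeff k = (k : ℤ) + 1 := by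
    rw [coeff_derivative, ← hk1, hlc, one_mul]
  have c1 : (derivative (SQF G1 G2 u) * G2).coeff (k + G2.natDegree) = ((k : ℤ) + 1) * G2.coeff G2.natDegree := by
    rw [coeff_mul_add_eq_of_natDegree_le hdF le_rfl, hcF]
  have c2 : (SQF G1 G2 u * derivative G2).coeff (k + G2.natDegree) = (G2.natDegree : ℤ) * G2.coeff G2.natDegree := by
    rcases Nat.eq_zero_or_pos G2.natDegree with h0 | h0
    · have hz : derivative G2 = 0 := by
        rw [eq_C_of_natDegree_eq_zero h0, derivative_C]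
      rw [hz, mul_zero, coeff_zero, h0]
      simp
    · obtain ⟨m, hm⟩ : ∃ m, G2.natDegree = m + 1 := ⟨G2.natDegree - 1, by omega⟩
      have hdG : (derivative G2).natDegree ≤ m := by
        refine (natDegree_derivative_le _).trans ?_
        omega
      have e : k + G2.natDegree = 2 * G1.natDegree + m := by omega
      rw [e, coeff_mul_add_eq_of_natDegree_le hdeg hdG, hlc, one_mul, coeff_derivative, hm]
      push_cast
      ring
  intro h
  have h0 : (SQW G1 G2 u).coeff (k + G2.natDegree) = 0 := by rw [h, coeff_zero]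
  unfold SQW at h0
  rw [coeff_sub, coeff_C_mul, c1, c2] at h0
  have h3 : ((k : ℤ) + 1 - 2 * G2.natDegree) * G2.coeff G2.natDegree = 0 := by linear_combination h0
  rcases mul_eq_zero.mp h3 with h4 | h4
  · have : (k : ℤ) + 1 = 2 * G1.natDegree := by exact_mod_cast hk1.symm
    omega
  · exact hl h4

private theorem SQW_deg {g G1 G2 : ℤ[X]} (hD : Dat g G1 G2) (u : ℤ) :
    (SQW G1 G2 u).natDegree ≤ 3 * G1.natDegree := by
  obtain ⟨hdeg, -⟩ := SQF_deg hD u
  have hk : G2.natDegree < G1.natDegree := hD.d2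
  unfold SQW
  refine (natDegree_sub_le _ _).trans (max_le ?_ ?_)
  · refine natDegree_mul_le.trans ?_
    have := natDegree_derivative_le (SQF G1 G2 u)
    omega
  · refine (natDegree_C_mul_le _ _).trans (natDegree_mul_le.trans ?_)
    have := natDegree_derivative_le G2
    omega

private theorem SQ_AA {G1 G2 : ℤ[X]} (u v : ℤ) : AA G1 G2 u v = SQF G1 G2 u + C v * G2 ^ 2 := by
  unfold AA SQF
  ring

private theorem SQ_monic {g G1 G2 : ℤ[X]} (hD : Dat g G1 G2) (u v : ℤ) : AA G1 G2 u v ≠ 0 := by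
  obtain ⟨-, hlc⟩ := SQF_deg hD u
  have hk : G2.natDegree < G1.natDegree := hD.d2
  intro h
  have h0 : (AA G1 G2 u v).coeff (2 * G1.natDegree) = 0 := by rw [h, coeff_zero]
  rw [SQ_AA, coeff_add, hlc] at h0
  have h2 : (C v * G2 ^ 2).natDegree < 2 * G1.natDegree := by
    have a1 : (C v * G2 ^ 2).natDegree ≤ (G2 ^ 2).natDegree := natDegree_C_mul_le v _
    have a2 : (G2 ^ 2).natDegree ≤ 2 * G2.natDegree := natDegree_pow_le
    omega
  rw [coeff_eq_zero_of_natDegree_lt h2] at h0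
  norm_num at h0

private theorem SQ_root {g G1 G2 : ℤ[X]} (hD : Dat g G1 G2) (u v : ℤ)
    (h : ¬ Squarefree (qq g * qq (AA G1 G2 u v))) :
    ∃ a : ℂ, aeval a (AA G1 G2 u v) = 0 ∧ (aeval a g = 0 ∨ aeval a (derivative (AA G1 G2 u v)) = 0) := by
  have h1 : ¬ (qq g * qq (AA G1 G2 u v)).Separable := by
    intro hs
    exact h hs.squarefree
  have h2 : ¬ IsCoprime (qq g * qq (AA G1 G2 u v)) (derivative (qq g * qq (AA G1 G2 u v))) := h1
  rw [Polynomial.isCoprime_iff_aeval_ne_zero_of_isAlgClosed ℚ ℂ] at h2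
  push Not at h2
  obtain ⟨a, ha1, ha2⟩ := h2
  rw [derivative_mul, SQ_qqD, SQ_qqD, map_add, map_mul, map_mul, SQ_aeval, SQ_aeval, SQ_aeval, SQ_aeval] at ha2
  rw [map_mul, SQ_aeval, SQ_aeval] at ha1
  have hsep : (qq g).Separable := hD.gi.separable
  have hg : ¬ (aeval a g = 0 ∧ aeval a (derivative g) = 0) := by
    rintro ⟨e1, e2⟩
    have hc : IsCoprime (qq g) (derivative (qq g)) := hsep
    rw [Polynomial.isCoprime_iff_aeval_ne_zero_of_isAlgClosed ℚ ℂ] at hc
    rcases hc a with h3 | h3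
    · exact h3 (by rw [SQ_aeval]; exact e1)
    · exact h3 (by rw [SQ_qqD, SQ_aeval]; exact e2)
  refine ⟨a, ?_⟩
  by_cases hga : aeval a g = 0
  · rw [hga, zero_mul, add_zero] at ha2
    rcases mul_eq_zero.mp ha2 with h3 | h3
    · exact absurd ⟨hga, h3⟩ hg
    · exact ⟨h3, Or.inl hga⟩
  · rcases mul_eq_zero.mp ha1 with h3 | h3
    · exact absurd h3 hga
    · rw [h3, mul_zero, zero_add] at ha2
      rcases mul_eq_zero.mp ha2 with h4 | h4
      · exact absurd h4 hga
      · exact ⟨h3, Or.inr h4⟩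

private theorem SQ_G2a {g G1 G2 : ℤ[X]} (hD : Dat g G1 G2) (u v : ℤ) (a : ℂ) (h : aeval a (AA G1 G2 u v) = 0) :
    aeval a G2 ≠ 0 := by
  intro h2
  have h1 : aeval a G1 = 0 := by
    unfold AA at h
    simp only [map_add, map_mul, map_pow, h2, mul_zero, add_zero, ne_eq, OfNat.ofNat_ne_zero, not_false_eq_true,
      zero_pow] at h
    exact pow_eq_zero_iff (two_ne_zero) |>.mp h
  obtain ⟨x, y, hxy⟩ := hD.cop
  have h3 := congrArg (fun p : ℚ[X] => aeval a p) hxy
  simp only [map_add, map_mul, SQ_aeval, h1, h2, mul_zero, add_zero, map_one] at h3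
  exact zero_ne_one h3

private theorem SQ_Wa {g G1 G2 : ℤ[X]} (hD : Dat g G1 G2) (u v : ℤ)
    (h : ¬ Squarefree (qq g * qq (AA G1 G2 u v))) :
    ∃ a : ℂ, aeval a (SQW G1 G2 u * g) = 0 ∧ aeval a G2 ≠ 0 ∧
      aeval a (SQF G1 G2 u) + (v : ℂ) * (aeval a G2) ^ 2 = 0 := by
  obtain ⟨a, h1, h2⟩ := SQ_root hD u v h
  have h3 := SQ_G2a hD u v a h1
  have h4 : aeval a (SQF G1 G2 u) + (v : ℂ) * (aeval a G2) ^ 2 = 0 := by
    rw [SQ_AA, map_add, map_mul, map_pow, aeval_C] at h1
    simpa using h1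
  refine ⟨a, ?_, h3, h4⟩
  rw [map_mul]
  rcases h2 with h5 | h5
  · rw [h5, mul_zero]
  · rw [SQ_AA, derivative_add, derivative_C_mul, derivative_pow] at h5
    simp only [map_add, map_mul, map_pow, aeval_C] at h5
    have h6 : aeval a (SQW G1 G2 u) = 0 := by
      unfold SQW
      simp only [map_sub, map_mul, aeval_C]
      simp at h5 ⊢
      linear_combination (aeval a G2) * h5 - 2 * (aeval a (derivative G2)) * h4
    rw [h6, zero_mul]

open Classical in
private theorem SQ_fib {g G1 G2 : ℤ[X]} (hD : Dat g G1 G2) (u : ℤ) (N : ℕ) :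
    (((boxN 1 N).filter fun f => ¬ Squarefree (qq g * qq (AA G1 G2 (f 1) (f 0)))).filter fun f => f 1 = u).card ≤
      3 * G1.natDegree + 3 := by
  have hW : (SQW G1 G2 u * g) ≠ 0 := mul_ne_zero (SQW_ne hD u) hD.gm.ne_zero
  have hd : (SQW G1 G2 u * g).natDegree ≤ 3 * G1.natDegree + 3 := by
    refine natDegree_mul_le.trans ?_
    have := SQW_deg hD u
    have := hD.gd
    omega
  have hinj : Function.Injective (Int.castRingHom ℂ) := Int.cast_injective
  have hM : ((SQW G1 G2 u * g).map (Int.castRingHom ℂ)) ≠ 0 := by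
    intro h0
    exact hW ((Polynomial.map_eq_zero_iff hinj).mp h0)
  set R : Finset ℂ := ((SQW G1 G2 u * g).map (Int.castRingHom ℂ)).roots.toFinset with hR
  have hRc : R.card ≤ 3 * G1.natDegree + 3 := by
    refine (Multiset.toFinset_card_le _).trans ((card_roots' _).trans ?_)
    exact natDegree_map_le.trans hd
  refine le_trans ?_ hRc
  set s := (((boxN 1 N).filter fun f => ¬ Squarefree (qq g * qq (AA G1 G2 (f 1) (f 0)))).filter fun f => f 1 = u) with hs
  have hex : ∀ f ∈ s, ∃ a : ℂ, aeval a (SQW G1 G2 u * g) = 0 ∧ aeval a G2 ≠ 0 ∧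
      aeval a (SQF G1 G2 u) + ((f 0 : ℤ) : ℂ) * (aeval a G2) ^ 2 = 0 := by
    intro f hf
    rw [hs, mem_filter, mem_filter] at hf
    obtain ⟨⟨-, h1⟩, h2⟩ := hf
    rw [h2] at h1
    exact SQ_Wa hD u (f 0) h1
  choose! r hr using hex
  refine Finset.card_le_card_of_injOn r ?_ ?_
  · intro f hf
    obtain ⟨h1, -, -⟩ := hr f hf
    have : r f ∈ R := by
      rw [hR, Multiset.mem_toFinset, mem_roots hM, IsRoot.def, eval_map]
      have e : aeval (r f) (SQW G1 G2 u * g) = eval₂ (Int.castRingHom ℂ) (r f) (SQW G1 G2 u * g) := by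
        rw [aeval_def]
        rfl
      rw [← e]
      exact h1
    exact this
  · intro f hf f' hf' he
    have hf1 : f ∈ s := hf
    have hf2 : f' ∈ s := hf'
    obtain ⟨-, h2, h3⟩ := hr f hf1
    obtain ⟨-, h2', h3'⟩ := hr f' hf2
    rw [he] at h3 h2
    have h4 : (((f 0 : ℤ) : ℂ) - ((f' 0 : ℤ) : ℂ)) * (aeval (r f') G2) ^ 2 = 0 := by linear_combination h3 - h3'
    have h5 : ((f 0 : ℤ) : ℂ) - ((f' 0 : ℤ) : ℂ) = 0 := by
      rcases mul_eq_zero.mp h4 with h | h
      · exact h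
      · exact absurd h (pow_ne_zero 2 h2)
    have h6 : f 0 = f' 0 := by
      have := sub_eq_zero.mp h5
      exact_mod_cast this
    rw [hs, mem_filter] at hf1 hf2
    funext i
    fin_cases i
    · exact h6
    · exact hf1.2.trans hf2.2.symm

open Classical in
theorem sqf_count {g G1 G2 : ℤ[X]} (hD : Dat g G1 G2) : ∃ C : ℝ, 0 < C ∧ ∀ N : ℕ, 1 ≤ N →
    (((boxN 1 N).filter fun f => ¬ Squarefree (qq g * qq (AA G1 G2 (f 1) (f 0)))).card : ℝ) ≤ C * (N : ℝ) := by
  refine ⟨((3 * G1.natDegree + 3 : ℕ) : ℝ) * 3, by positivity, fun N hN => ?_⟩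
  set s := ((boxN 1 N).filter fun f => ¬ Squarefree (qq g * qq (AA G1 G2 (f 1) (f 0)))) with hs
  have h1 : s.card ≤ (3 * G1.natDegree + 3) * (s.image fun f => f 1).card := by
    refine Finset.card_le_mul_card_image s _ ?_
    intro u hu
    exact SQ_fib hD u N
  have h2 : (s.image fun f => f 1).card ≤ 2 * N + 1 := by
    have hsub : (s.image fun f => f 1) ⊆ Icc (-(N : ℤ)) (N : ℤ) := by
      intro u hu
      rw [mem_image] at hu
      obtain ⟨f, hf, rfl⟩ := hu
      rw [hs, mem_filter] at hf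
      exact (Fintype.mem_piFinset.mp hf.1) 1
    refine (card_le_card hsub).trans ?_
    rw [Int.card_Icc]
    omega
  have h3 : s.card ≤ (3 * G1.natDegree + 3) * (3 * N) := by
    refine h1.trans (Nat.mul_le_mul_left _ ?_)
    omega
  have h4 : (s.card : ℝ) ≤ (((3 * G1.natDegree + 3) * (3 * N) : ℕ) : ℝ) := by exact_mod_cast h3
  refine h4.trans (le_of_eq ?_)
  push_cast
  ring

end O1
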