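import Pool.Agent.Lib.MP_10e784_agO.Defs

/-! JOB TA.  The conditions t0 and t1 are typical.

`t0`: for every `u = f 1` the numbers `v = f 0` with `u² - 4v = m²`: `m² ∈ [u² - 4N, u² + 4N]`, `m ≥ 0`: at most `2 √(8N) + 2` values of `m` (an interval of length `8N` contains the squares of at most `√(8N) + 1` nonnegative integers); total `≤ (2N+1)(..) ≤ N ^ (19/10)`.
`t1`: `p ∈ QN B N`: `p` is odd, `p > P0`, `p ≤ zz N`, `p ^ 2 ≤ N` for large `N` (`zz N ≤ N ^ (1/4)`).  For every `u` exactly one class of `v` modulo `p ^ 2`: at most `(2N+1)((2N+1)/p² + 1) ≤ 20 N² / p²` pairs.  `∑_{p > P0} 1/p² ≤ 1/P0`.  `C = 20` or larger. -/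

set_option autoImplicit false

namespace O1

open Polynomial Finset TW FQQ

private theorem TA_sq (F : Finset ℕ) (D : ℕ) (h : ∀ a ∈ F, ∀ b ∈ F, a ^ 2 ≤ b ^ 2 + D) :
    F.card ≤ Nat.sqrt D + 1 := by
  rcases F.eq_empty_or_nonempty with rfl | hne
  · simp
  · have hsub : F ⊆ Icc (F.min' hne) (F.min' hne + Nat.sqrt D) := by
      intro m hm
      rw [mem_Icc]
      have h1 : F.min' hne ≤ m := F.min'_le m hm
      refine ⟨h1, ?_⟩
      obtain ⟨k, hk⟩ := Nat.exists_eq_add_of_le h1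
      have h2 := h m hm (F.min' hne) (F.min'_mem hne)
      have h3 : k * k ≤ D := by
        rw [hk] at h2
        nlinarith
      have h4 : k ≤ Nat.sqrt D := Nat.le_sqrt.2 h3
      omega
    refine (card_le_card hsub).trans ?_
    rw [Nat.card_Icc]
    omega

private theorem TA_cls (F : Finset ℤ) (N q : ℕ) (hq : 0 < q)
    (hF : ∀ a ∈ F, -(N : ℤ) ≤ a ∧ a ≤ N) (h : ∀ a ∈ F, ∀ b ∈ F, (q : ℤ) ∣ a - b) :
    F.card ≤ 2 * N / q + 1 := by
  rcases F.eq_empty_or_nonempty with rfl | hne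
  · simp
  · have hinj : Set.InjOn (fun a : ℤ => ((a - F.min' hne) / q).toNat) (F : Set ℤ) := by
      intro a ha b hb hab
      simp only at hab
      have h1 : F.min' hne ≤ a := F.min'_le a ha
      have h2 : F.min' hne ≤ b := F.min'_le b hb
      obtain ⟨s, hs⟩ := h a ha _ (F.min'_mem hne)
      obtain ⟨t, ht⟩ := h b hb _ (F.min'_mem hne)
      have hq' : (q : ℤ) ≠ 0 := by exact_mod_cast hq.ne'
      have hq0 : (0 : ℤ) < q := by exact_mod_cast hq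
      rw [hs, ht, Int.mul_ediv_cancel_left _ hq', Int.mul_ediv_cancel_left _ hq'] at hab
      have hs0 : 0 ≤ s := by
        by_contra hlt
        push Not at hlt
        nlinarith
      have ht0 : 0 ≤ t := by
        by_contra hlt
        push Not at hlt
        nlinarith
      have hst : s = t := by omega
      rw [hst] at hs
      linarith
    have hsub : F.image (fun a : ℤ => ((a - F.min' hne) / q).toNat) ⊆ range (2 * N / q + 1) := by
      intro m hm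
      rw [mem_image] at hm
      obtain ⟨a, ha, rfl⟩ := hm
      rw [mem_range, Nat.lt_succ_iff]
      have h1 : F.min' hne ≤ a := F.min'_le a ha
      have h2 := (hF a ha).2
      have h3 := (hF _ (F.min'_mem hne)).1
      have h4 : (a - F.min' hne) / (q : ℤ) ≤ (2 * N : ℤ) / q :=
        Int.ediv_le_ediv (by exact_mod_cast hq) (by linarith)
      have h5 : ((2 * N : ℤ) / q).toNat = 2 * N / q := by
        have : ((2 * N : ℤ) / q) = ((2 * N / q : ℕ) : ℤ) := by push_cast; rfl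
        rw [this, Int.toNat_natCast]
      rw [← h5]
      exact Int.toNat_le_toNat h4
    rw [← card_image_of_injOn hinj]
    refine (card_le_card hsub).trans ?_
    rw [card_range]

private theorem TA_fib (N n : ℕ) (P : Vn 1 → Prop) [DecidablePred P]
    (h : ∀ u : ℤ, (((boxN 1 N).filter P).filter fun f => f 1 = u).card ≤ n) :
    ((boxN 1 N).filter P).card ≤ n * (2 * N + 1) := by
  have h1 := card_le_mul_card_image_of_maps_to (s := (boxN 1 N).filter P)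
    (t := Icc (-(N : ℤ)) (N : ℤ)) (f := fun f : Vn 1 => f 1) ?_ n ?_
  · refine h1.trans (Nat.mul_le_mul_left _ ?_)
    rw [Int.card_Icc]
    omega
  · intro f hf
    rw [mem_filter] at hf
    have h2 := hf.1
    unfold boxN at h2
    rw [Fintype.mem_piFinset] at h2
    exact h2 1
  · intro u _
    exact h u

private theorem TA_ext {f f' : Vn 1} (h0 : f 0 = f' 0) (h1 : f 1 = f' 1) : f = f' := by
  funext i
  fin_cases i
  · exact h0
  · exact h1

private theorem TA_box {N : ℕ} {f : Vn 1} (h : f ∈ boxN 1 N) (i : Fin 2) :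
    -(N : ℤ) ≤ f i ∧ f i ≤ N := by
  unfold boxN at h
  rw [Fintype.mem_piFinset] at h
  exact mem_Icc.1 (h i)

open Classical in
private theorem TA_t0 (N : ℕ) :
    ((boxN 1 N).filter fun f => IsSquare (f 1 ^ 2 - 4 * f 0)).card ≤
      (Nat.sqrt (8 * N) + 1) * (2 * N + 1) := by
  refine TA_fib N _ _ ?_
  intro u
  have hinj : Set.InjOn (fun f : Vn 1 => Nat.sqrt (f 1 ^ 2 - 4 * f 0).toNat)
      ((((boxN 1 N).filter fun f => IsSquare (f 1 ^ 2 - 4 * f 0)).filter fun f => f 1 = u : Finset (Vn 1)) :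
        Set (Vn 1)) := by
    intro f hf f' hf' hff
    rw [mem_coe, mem_filter, mem_filter] at hf hf'
    obtain ⟨⟨_, r, hr⟩, hu⟩ := hf
    obtain ⟨⟨_, r', hr'⟩, hu'⟩ := hf'
    simp only at hff
    have key : ∀ (x r : ℤ), x = r * r → ((Nat.sqrt x.toNat : ℕ) : ℤ) * (Nat.sqrt x.toNat : ℕ) = x := by
      intro x r h
      have h1 : x.toNat = r.natAbs * r.natAbs := by
        rw [h, ← Int.natAbs_mul_self' r]
        exact Int.toNat_natCast _
      rw [h1, Nat.sqrt_eq, h, ← Int.natAbs_mul_self' r]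
    have k1 := key _ r hr
    have k2 := key _ r' hr'
    rw [hff] at k1
    have k3 := k1.symm.trans k2
    rw [hu, hu'] at k3
    exact TA_ext (by linarith) (by rw [hu, hu'])
  rw [← card_image_of_injOn hinj]
  refine TA_sq _ _ ?_
  intro a ha b hb
  rw [mem_image] at ha hb
  obtain ⟨f, hf, rfl⟩ := ha
  obtain ⟨f', hf', rfl⟩ := hb
  rw [mem_filter, mem_filter] at hf hf'
  obtain ⟨⟨hfb, r, hr⟩, hu⟩ := hf
  obtain ⟨⟨hfb', r', hr'⟩, hu'⟩ := hf'
  have key : ∀ (x r : ℤ), x = r * r → (((Nat.sqrt x.toNat : ℕ) : ℤ)) ^ 2 = x := by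
    intro x r h
    have h1 : x.toNat = r.natAbs * r.natAbs := by
      rw [h, ← Int.natAbs_mul_self' r]
      exact Int.toNat_natCast _
    rw [h1, Nat.sqrt_eq, h, ← Int.natAbs_mul_self' r]
    ring
  have k1 := key _ r hr
  have k2 := key _ r' hr'
  have k3 := TA_box hfb 0
  have k4 := TA_box hfb' 0
  have h5 : (((Nat.sqrt (f 1 ^ 2 - 4 * f 0).toNat : ℕ) : ℤ)) ^ 2 ≤
      (((Nat.sqrt (f' 1 ^ 2 - 4 * f' 0).toNat : ℕ) : ℤ)) ^ 2 + 8 * N := by
    rw [k1, k2, hu, hu']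
    linarith [k3.1, k4.2]
  exact_mod_cast h5

open Classical in
theorem t0_count : ∃ N0 : ℕ, ∀ N : ℕ, N0 ≤ N →
    (((boxN 1 N).filter fun f => IsSquare (f 1 ^ 2 - 4 * f 0)).card : ℝ) ≤ (N : ℝ) ^ ((19 : ℝ) / 10) := by
  refine ⟨1728, fun N hN => ?_⟩
  have h1 := TA_t0 N
  have h2 : (((boxN 1 N).filter fun f => IsSquare (f 1 ^ 2 - 4 * f 0)).card : ℝ) ≤
      ((Nat.sqrt (8 * N) : ℝ) + 1) * (2 * N + 1) := by exact_mod_cast h1
  have hN' : (1728 : ℝ) ≤ N := by exact_mod_cast hN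
  have hN0 : (0 : ℝ) < N := by linarith
  have h3 : (Nat.sqrt (8 * N) : ℝ) ≤ 3 * Real.sqrt N := by
    have h4 : (Nat.sqrt (8 * N) : ℝ) ≤ Real.sqrt ((8 * N : ℕ) : ℝ) := Real.nat_sqrt_le_real_sqrt
    refine h4.trans ?_
    rw [show (3 : ℝ) * Real.sqrt N = Real.sqrt (9 * N) by
      rw [Real.sqrt_mul (by norm_num)]
      congr 1
      rw [show (9 : ℝ) = 3 ^ 2 by norm_num, Real.sqrt_sq (by norm_num)]]
    apply Real.sqrt_le_sqrt
    push_cast
    linarith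
  have h4 : (1 : ℝ) ≤ Real.sqrt N := by
    rw [Real.one_le_sqrt]
    linarith
  have h5 : ((Nat.sqrt (8 * N) : ℝ) + 1) * (2 * N + 1) ≤ (4 * Real.sqrt N) * (3 * N) :=
    mul_le_mul (by linarith) (by linarith) (by positivity) (by positivity)
  refine (h2.trans h5).trans ?_
  have h6 : (N : ℝ) ^ ((19 : ℝ) / 10) = (N : ℝ) ^ ((2 : ℝ) / 5) * (Real.sqrt N * N) := by
    have e1 : Real.sqrt N * N = (N : ℝ) ^ ((3 : ℝ) / 2) := by
      rw [Real.sqrt_eq_rpow, ← Real.rpow_add_one hN0.ne']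
      norm_num
    rw [e1, ← Real.rpow_add hN0]
    norm_num
  rw [h6]
  have h7 : (12 : ℝ) ≤ (N : ℝ) ^ ((2 : ℝ) / 5) := by
    have h8 : ((12 : ℝ) ^ (3 : ℝ)) ^ ((2 : ℝ) / 5) ≤ (N : ℝ) ^ ((2 : ℝ) / 5) := by
      apply Real.rpow_le_rpow (by positivity) _ (by norm_num)
      refine le_trans ?_ hN'
      norm_num
    rw [← Real.rpow_mul (by norm_num)] at h8
    refine le_trans ?_ h8
    calc (12 : ℝ) = (12 : ℝ) ^ (1 : ℝ) := (Real.rpow_one _).symm
      _ ≤ (12 : ℝ) ^ ((3 : ℝ) * (2 / 5)) := Real.rpow_le_rpow_of_exponent_le (by norm_num) (by norm_num)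
  have h9 : (0 : ℝ) ≤ Real.sqrt N * N := by positivity
  calc 4 * Real.sqrt N * (3 * N) = 12 * (Real.sqrt N * N) := by ring
    _ ≤ (N : ℝ) ^ ((2 : ℝ) / 5) * (Real.sqrt N * N) := mul_le_mul_of_nonneg_right h7 h9

open Classical in
private theorem TA_t1 (N p : ℕ) (hp : p.Prime) (h2 : p ≠ 2) :
    ((boxN 1 N).filter fun f => (p : ℤ) ^ 2 ∣ f 1 ^ 2 - 4 * f 0).card ≤
      (2 * N / p ^ 2 + 1) * (2 * N + 1) := by
  refine TA_fib N _ _ ?_
  intro u
  have hinj : Set.InjOn (fun f : Vn 1 => f 0)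
      ((((boxN 1 N).filter fun f => (p : ℤ) ^ 2 ∣ f 1 ^ 2 - 4 * f 0).filter fun f => f 1 = u : Finset (Vn 1)) :
        Set (Vn 1)) := by
    intro f hf f' hf' hff
    rw [mem_coe, mem_filter, mem_filter] at hf hf'
    exact TA_ext hff (by rw [hf.2, hf'.2])
  rw [← card_image_of_injOn hinj]
  refine TA_cls _ N (p ^ 2) (pow_pos hp.pos 2) ?_ ?_
  · intro a ha
    rw [mem_image] at ha
    obtain ⟨f, hf, rfl⟩ := ha
    rw [mem_filter, mem_filter] at hf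
    exact TA_box hf.1.1 0
  · intro a ha b hb
    rw [mem_image] at ha hb
    obtain ⟨f, hf, rfl⟩ := ha
    obtain ⟨f', hf', rfl⟩ := hb
    rw [mem_filter, mem_filter] at hf hf'
    have h3 : (p : ℤ) ^ 2 ∣ 4 * (f 0 - f' 0) := by
      have h4 := dvd_sub hf'.1.2 hf.1.2
      have h5 : f' 1 ^ 2 - 4 * f' 0 - (f 1 ^ 2 - 4 * f 0) = 4 * (f 0 - f' 0) := by
        rw [hf.2, hf'.2]
        ring
      rwa [h5] at h4
    have h6 : IsCoprime ((p : ℤ) ^ 2) 4 := by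
      have h7 : Nat.Coprime (p ^ 2) (2 ^ 2) := by
        apply Nat.Coprime.pow
        exact (Nat.coprime_primes hp Nat.prime_two).2 h2
      have h8 := Nat.isCoprime_iff_coprime.2 h7
      push_cast at h8
      exact h8
    have h9 := h6.dvd_of_dvd_mul_left h3
    push_cast
    exact h9

private theorem TA_zz : ∃ N0 : ℕ, 1 ≤ N0 ∧ ∀ N : ℕ, N0 ≤ N → zz N ^ 2 ≤ (N : ℝ) := by
  refine ⟨16, by norm_num, fun N hN => ?_⟩
  have hN' : (16 : ℝ) ≤ N := by exact_mod_cast hN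
  have hN0 : (0 : ℝ) < N := by linarith
  have he : Real.exp 1 ≤ 2.7182818286 := Real.exp_one_lt_d9.le
  have h16 : Real.exp (Real.exp 1) ≤ 16 := by
    have h1 : Real.exp (Real.exp 1) ≤ Real.exp (11 / 4) := Real.exp_le_exp.2 (by linarith)
    have h2 : Real.exp (11 / 4) = (Real.exp 1) ^ ((11 : ℝ) / 4) := by
      rw [← Real.exp_mul, one_mul]
    have h3 : (Real.exp (11 / 4)) ^ 4 = (Real.exp 1) ^ 11 := by
      rw [← Real.exp_nat_mul, ← Real.exp_nat_mul]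
      norm_num
    have h4 : (Real.exp 1) ^ 11 ≤ 16 ^ 4 := by
      calc (Real.exp 1) ^ 11 ≤ (2.7182818286 : ℝ) ^ 11 := pow_le_pow_left₀ (Real.exp_pos 1).le he 11
        _ ≤ 16 ^ 4 := by norm_num
    have h5 : Real.exp (11 / 4) ≤ 16 := by
      rw [← h3] at h4
      exact le_of_pow_le_pow_left₀ (by norm_num) (by norm_num) h4
    exact h1.trans h5
  have hl : Real.exp 1 ≤ Real.log N := by
    rw [Real.le_log_iff_exp_le hN0]
    exact h16.trans hN'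
  have hl0 : 0 < Real.log N := (Real.exp_pos 1).trans_le hl
  have hll : 1 ≤ Real.log (Real.log N) := by
    rw [Real.le_log_iff_exp_le hl0]
    exact hl
  unfold zz
  rw [← Real.exp_nat_mul]
  conv_rhs => rw [← Real.exp_log hN0]
  apply Real.exp_le_exp.2
  have h1 : Real.log N / (10000 * Real.log (Real.log N)) ≤ Real.log N / 10000 := by
    apply div_le_div_of_nonneg_left hl0.le (by norm_num)
    linarith
  push_cast
  linarith

open Classical in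
theorem t1_count : ∃ C : ℝ, 0 < C ∧ ∀ (g G1 G2 : ℤ[X]) (P0 B : ℕ), 1 ≤ P0 → Good g G1 G2 P0 B → ∃ N0 : ℕ, ∀ N : ℕ, N0 ≤ N →
    (((boxN 1 N).filter fun f => ∃ p ∈ QN B N, (p : ℤ) ^ 2 ∣ f 1 ^ 2 - 4 * f 0).card : ℝ) ≤ C * (N : ℝ) ^ 2 / P0 := by
  refine ⟨9, by norm_num, ?_⟩
  intro g G1 G2 P0 B hP0 hG
  obtain ⟨N0, hN01, hN0⟩ := TA_zz
  refine ⟨N0, fun N hN => ?_⟩
  have hNpos : 1 ≤ N := hN01.trans hN
  have hNr : (1 : ℝ) ≤ N := by exact_mod_cast hNpos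
  have hprop : ∀ p ∈ QN B N, p.Prime ∧ P0 < p ∧ p ≠ 2 ∧ p ^ 2 ≤ N := by
    intro p hp
    unfold QN at hp
    rw [mem_filter, mem_range, Nat.lt_succ_iff] at hp
    obtain ⟨hp1, hp2, hp3⟩ := hp
    refine ⟨hp2, ?_, ?_, ?_⟩
    · by_contra hle
      push Not at hle
      exact hp3 (hG.small p hp2 hle)
    · intro h
      rw [h] at hp3
      exact hp3 hG.two
    · have h1 : (p : ℝ) ≤ zz N :=
        (Nat.cast_le.2 hp1).trans (Nat.floor_le (by unfold zz; positivity))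
      have h2 : (p : ℝ) ^ 2 ≤ (N : ℝ) := (pow_le_pow_left₀ (by positivity) h1 2).trans (hN0 N hN)
      exact_mod_cast h2
  have hsub : ((boxN 1 N).filter fun f => ∃ p ∈ QN B N, (p : ℤ) ^ 2 ∣ f 1 ^ 2 - 4 * f 0) ⊆
      (QN B N).biUnion fun p => (boxN 1 N).filter fun f => (p : ℤ) ^ 2 ∣ f 1 ^ 2 - 4 * f 0 := by
    intro f hf
    rw [mem_filter] at hf
    obtain ⟨hf1, p, hp, hd⟩ := hf
    rw [mem_biUnion]
    exact ⟨p, hp, mem_filter.2 ⟨hf1, hd⟩⟩
  have h1 : (((boxN 1 N).filter fun f => ∃ p ∈ QN B N, (p : ℤ) ^ 2 ∣ f 1 ^ 2 - 4 * f 0).card : ℝ) ≤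
      ∑ p ∈ QN B N, (((boxN 1 N).filter fun f => (p : ℤ) ^ 2 ∣ f 1 ^ 2 - 4 * f 0).card : ℝ) := by
    exact_mod_cast (card_le_card hsub).trans card_biUnion_le
  have h2 : ∀ p ∈ QN B N, (((boxN 1 N).filter fun f => (p : ℤ) ^ 2 ∣ f 1 ^ 2 - 4 * f 0).card : ℝ) ≤
      9 * (N : ℝ) ^ 2 * ((p : ℝ) ^ 2)⁻¹ := by
    intro p hp
    obtain ⟨hp1, hp2, hp3, hp4⟩ := hprop p hp
    have h3 := TA_t1 N p hp1 hp3
    have hpp : (0 : ℝ) < (p : ℝ) ^ 2 := by
      have : (0 : ℝ) < p := by exact_mod_cast hp1.pos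
      positivity
    have h4 : ((2 * N / p ^ 2 : ℕ) : ℝ) ≤ 2 * N / (p : ℝ) ^ 2 := by
      have := @Nat.cast_div_le ℝ _ _ _ (2 * N) (p ^ 2)
      push_cast at this
      exact this
    have h5 : (1 : ℝ) ≤ N / (p : ℝ) ^ 2 := by
      rw [le_div_iff₀ hpp, one_mul]
      exact_mod_cast hp4
    have h6 : (((boxN 1 N).filter fun f => (p : ℤ) ^ 2 ∣ f 1 ^ 2 - 4 * f 0).card : ℝ) ≤
        (((2 * N / p ^ 2 : ℕ) : ℝ) + 1) * (2 * N + 1) := by exact_mod_cast h3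
    refine h6.trans ?_
    calc (((2 * N / p ^ 2 : ℕ) : ℝ) + 1) * (2 * N + 1) ≤ (3 * (N / (p : ℝ) ^ 2)) * (3 * N) := by
          apply mul_le_mul _ (by linarith) (by positivity) (by positivity)
          have h7 : 2 * (N : ℝ) / (p : ℝ) ^ 2 = 2 * (N / (p : ℝ) ^ 2) := by ring
          rw [h7] at h4
          linarith
      _ = 9 * (N : ℝ) ^ 2 * ((p : ℝ) ^ 2)⁻¹ := by
          rw [div_eq_mul_inv]
          ring
  have h3 : ∑ p ∈ QN B N, ((p : ℝ) ^ 2)⁻¹ ≤ 1 / (P0 : ℝ) := by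
    have h4 : QN B N ⊆ Ioc P0 (max P0 (⌊zz N⌋₊ + 1)) := by
      intro p hp
      obtain ⟨hp1, hp2, hp3, hp4⟩ := hprop p hp
      unfold QN at hp
      rw [mem_filter, mem_range] at hp
      rw [mem_Ioc]
      exact ⟨hp2, le_max_of_le_right hp.1.le⟩
    have h5 : ∑ p ∈ QN B N, ((p : ℝ) ^ 2)⁻¹ ≤ ∑ p ∈ Ioc P0 (max P0 (⌊zz N⌋₊ + 1)), ((p : ℝ) ^ 2)⁻¹ :=
      sum_le_sum_of_subset_of_nonneg h4 fun i _ _ => by positivity
    have h6 := sum_Ioc_inv_sq_le_sub (α := ℝ) (k := P0) (n := max P0 (⌊zz N⌋₊ + 1)) (by omega)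
      (le_max_left _ _)
    have h7 : (0 : ℝ) ≤ ((max P0 (⌊zz N⌋₊ + 1) : ℕ) : ℝ)⁻¹ := by positivity
    rw [one_div]
    linarith
  calc (((boxN 1 N).filter fun f => ∃ p ∈ QN B N, (p : ℤ) ^ 2 ∣ f 1 ^ 2 - 4 * f 0).card : ℝ)
      ≤ ∑ p ∈ QN B N, 9 * (N : ℝ) ^ 2 * ((p : ℝ) ^ 2)⁻¹ := h1.trans (sum_le_sum h2)
    _ = 9 * (N : ℝ) ^ 2 * ∑ p ∈ QN B N, ((p : ℝ) ^ 2)⁻¹ := by rw [mul_sum]
    _ ≤ 9 * (N : ℝ) ^ 2 * (1 / (P0 : ℝ)) := mul_le_mul_of_nonneg_left h3 (by positivity)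
    _ = 9 * (N : ℝ) ^ 2 / P0 := by ring

end O1
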