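import Pool.Agent.Lib.MP_10e784_agO.Main

/-! JOB Triv.  The trivial class.

The exceptional pairs: those of `main_one`, and those for which one of the finitely many `x` with `g(x)` a square and `G2(x) ≠ 0` has `g(x) A(x)` a square; `g(x) ≠ 0` (irreducible), so `A(x)` is a square.  Write `(G1(x), G2(x)) = l (a, b)` with coprime integers `a, b`, `b ≠ 0`, `l ≠ 0` rational: `A(x) = l² (a² + u a b + v b²)`.
The number of `(u, v)` in the box with `a² + u a b + v b²` a square is at most `C N ^ (3/2)` (store file `T6_E0_helper30.lean`, `E0_fixed`).  Conversely `G2(x) = 0` and `g(x)` a square give `A(x) = G1(x)²`. -/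

set_option autoImplicit false

namespace O1

open Polynomial Finset TW FQQ Filter

/-- for a fixed rational number at most `C N ^ (3/2)` of the pairs `(u, v)` in the box have `a² + u a b + v b²` a square, if `b ≠ 0` -/
private theorem Triv_fixed (a b : ℤ) (hb : b ≠ 0) : ∃ C : ℝ, ∀ N : ℕ, 1 ≤ N →
    (((Finset.Icc (-(N : ℤ)) N ×ˢ Finset.Icc (-(N : ℤ)) N).filter fun w =>
      IsSquare (a ^ 2 + w.1 * a * b + w.2 * b ^ 2)).card : ℝ) ≤ C * (N : ℝ) ^ (3 / 2 : ℝ) := by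
  obtain ⟨K, hK⟩ : ∃ K : ℕ, K = (a ^ 2 + |a * b| + b ^ 2).toNat := ⟨_, rfl⟩
  have hK' : (K : ℤ) = a ^ 2 + |a * b| + b ^ 2 := by
    rw [hK, Int.toNat_of_nonneg (by positivity)]
  refine ⟨3 * (√K + 1), fun N hN => ?_⟩
  have hmaps : ∀ w ∈ (Finset.Icc (-(N : ℤ)) N ×ˢ Finset.Icc (-(N : ℤ)) N).filter fun w =>
      IsSquare (a ^ 2 + w.1 * a * b + w.2 * b ^ 2),
      (w.1, ((a ^ 2 + w.1 * a * b + w.2 * b ^ 2).toNat.sqrt)) ∈
        Finset.Icc (-(N : ℤ)) N ×ˢ Finset.range ((K * N).sqrt + 1) := by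
    intro w hw
    rw [Finset.mem_filter, Finset.mem_product, Finset.mem_Icc, Finset.mem_Icc] at hw
    rw [Finset.mem_product, Finset.mem_Icc, Finset.mem_range]
    refine ⟨hw.1.1, Nat.lt_succ_of_le (Nat.sqrt_le_sqrt ?_)⟩
    rw [Int.toNat_le]
    push_cast
    rw [hK']
    have h1 : w.1 * a * b ≤ N * |a * b| := by
      calc w.1 * a * b ≤ |w.1 * a * b| := le_abs_self _
        _ = |w.1| * |a * b| := by rw [mul_assoc, abs_mul]
        _ ≤ N * |a * b| := by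
          refine mul_le_mul_of_nonneg_right (abs_le.2 hw.1.1) (abs_nonneg _)
    have h2 : w.2 * b ^ 2 ≤ N * b ^ 2 := mul_le_mul_of_nonneg_right hw.1.2.2 (sq_nonneg b)
    have h3 : a ^ 2 ≤ a ^ 2 * N := by
      have : (1 : ℤ) ≤ N := by exact_mod_cast hN
      nlinarith [sq_nonneg a]
    nlinarith
  have hinj : ∀ w ∈ (Finset.Icc (-(N : ℤ)) N ×ˢ Finset.Icc (-(N : ℤ)) N).filter fun w =>
      IsSquare (a ^ 2 + w.1 * a * b + w.2 * b ^ 2), ∀ w' ∈ (Finset.Icc (-(N : ℤ)) N ×ˢ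
      Finset.Icc (-(N : ℤ)) N).filter fun w => IsSquare (a ^ 2 + w.1 * a * b + w.2 * b ^ 2),
      (w.1, ((a ^ 2 + w.1 * a * b + w.2 * b ^ 2).toNat.sqrt)) =
        (w'.1, ((a ^ 2 + w'.1 * a * b + w'.2 * b ^ 2).toNat.sqrt)) → w = w' := by
    intro w hw w' hw' h
    rw [Finset.mem_filter] at hw hw'
    obtain ⟨h1, h2⟩ := Prod.mk.inj h
    obtain ⟨r, hr⟩ := hw.2
    obtain ⟨r', hr'⟩ := hw'.2
    have e : ∀ t : ℤ, (t * t).toNat.sqrt = t.natAbs := by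
      intro t
      have : (t * t).toNat = t.natAbs * t.natAbs := by
        rw [← Int.natAbs_mul_self, Int.toNat_natCast]
      rw [this, Nat.sqrt_eq]
    rw [hr, hr', e, e] at h2
    have h3 : r * r = r' * r' := by
      rw [← Int.natAbs_mul_self' r, ← Int.natAbs_mul_self' r', h2]
    have h4 : w.2 * b ^ 2 = w'.2 * b ^ 2 := by
      have : a ^ 2 + w.1 * a * b + w.2 * b ^ 2 = a ^ 2 + w'.1 * a * b + w'.2 * b ^ 2 := by
        rw [hr, hr', h3]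
      rw [h1] at this
      linarith
    exact Prod.ext h1 (mul_right_cancel₀ (pow_ne_zero 2 hb) h4)
  have hcard := Finset.card_le_card_of_injOn _ hmaps (fun w hw w' hw' h => hinj w hw w' hw' h)
  rw [Finset.card_product, Finset.card_range, Int.card_Icc] at hcard
  have hN0 : (1 : ℝ) ≤ N := by exact_mod_cast hN
  have e1 : (((N : ℤ) + 1 - -(N : ℤ)).toNat : ℝ) = 2 * N + 1 := by
    have : ((N : ℤ) + 1 - -(N : ℤ)).toNat = 2 * N + 1 := by omega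
    rw [this]
    push_cast
    ring
  have e2 : (((K * N).sqrt + 1 : ℕ) : ℝ) ≤ (√K + 1) * √N := by
    have h1 : (((K * N).sqrt : ℕ) : ℝ) ≤ √((K * N : ℕ) : ℝ) := by
      exact Real.nat_sqrt_le_real_sqrt
    have h2 : √((K * N : ℕ) : ℝ) = √K * √N := by
      push_cast
      exact Real.sqrt_mul (by positivity) _
    have h3 : 1 ≤ √(N : ℝ) := Real.one_le_sqrt.2 hN0
    push_cast
    linarith [h1, h2]
  have e3 : (N : ℝ) ^ (3 / 2 : ℝ) = N * √N := by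
    rw [Real.sqrt_eq_rpow, show (3 / 2 : ℝ) = 1 + 1 / 2 by norm_num,
      Real.rpow_add (by positivity), Real.rpow_one]
  calc _ ≤ ((((N : ℤ) + 1 - -(N : ℤ)).toNat * ((K * N).sqrt + 1) : ℕ) : ℝ) := by
        exact_mod_cast hcard
    _ = (2 * N + 1) * (((K * N).sqrt + 1 : ℕ) : ℝ) := by
        rw [Nat.cast_mul, e1]
    _ ≤ (2 * N + 1) * ((√K + 1) * √N) := mul_le_mul_of_nonneg_left e2 (by positivity)
    _ ≤ (3 * N) * ((√K + 1) * √N) := mul_le_mul_of_nonneg_right (by linarith) (by positivity)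
    _ = 3 * (√K + 1) * (N : ℝ) ^ (3 / 2 : ℝ) := by rw [e3]; ring

private theorem Triv_AA (G1 G2 : ℤ[X]) (u v : ℤ) (x : ℚ) :
    (qq (AA G1 G2 u v)).eval x =
      ((qq G1).eval x) ^ 2 + (u : ℚ) * (qq G1).eval x * (qq G2).eval x + (v : ℚ) * ((qq G2).eval x) ^ 2 := by
  unfold AA qq
  simp only [Polynomial.map_add, Polynomial.map_mul, Polynomial.map_pow, eval_add, eval_mul, eval_pow,
    eq_intCast, Polynomial.map_intCast, eval_intCast]

private theorem Triv_g0 {g G1 G2 : ℤ[X]} (hD : Dat g G1 G2) (x : ℚ) : (qq g).eval x ≠ 0 := by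
  intro h
  have h1 : (qq g).IsRoot x := h
  have h2 : (qq g).natDegree = 3 := by
    unfold qq
    rw [hD.gm.natDegree_map, hD.gd]
  have h3 : (qq g).degree = 1 := degree_eq_one_of_irreducible_of_root hD.gi h1
  have h4 : (qq g).natDegree = 1 := natDegree_eq_of_degree_eq_some h3
  omega

private theorem Triv_pt {g G1 G2 : ℤ[X]} (hD : Dat g G1 G2) (x : ℚ) (hx : IsSquare ((qq g).eval x))
    (h2 : (qq G2).eval x ≠ 0) : ∃ (T : ℕ → Finset (ℤ × ℤ)) (C : ℝ),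
      (∀ N : ℕ, 1 ≤ N → ((T N).card : ℝ) ≤ C * (N : ℝ) ^ (3 / 2 : ℝ)) ∧
      ∀ (N : ℕ) (w : ℤ × ℤ), w ∈ Finset.Icc (-(N : ℤ)) N ×ˢ Finset.Icc (-(N : ℤ)) N →
        IsSquare ((qq g).eval x * (qq (AA G1 G2 w.1 w.2)).eval x) → w ∈ T N := by
  set r : ℚ := (qq G1).eval x with hr
  set s : ℚ := (qq G2).eval x with hs
  have hb : s.num * (r.den : ℤ) ≠ 0 := mul_ne_zero (Rat.num_ne_zero.mpr h2) (by exact_mod_cast r.den_nz)
  obtain ⟨C, hC⟩ := Triv_fixed (r.num * (s.den : ℤ)) (s.num * (r.den : ℤ)) hb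
  refine ⟨_, C, hC, fun N w hw hsq => ?_⟩
  rw [Finset.mem_filter]
  refine ⟨hw, ?_⟩
  rw [← Rat.isSquare_intCast_iff]
  rw [Triv_AA, ← hr, ← hs] at hsq
  obtain ⟨y, hy⟩ := hsq
  obtain ⟨z, hz⟩ := hx
  have hz0 : z ≠ 0 := by
    rintro rfl
    exact Triv_g0 hD x (by rw [hz, mul_zero])
  have hrd : (r.den : ℚ) ≠ 0 := by exact_mod_cast r.den_nz
  have hsd : (s.den : ℚ) ≠ 0 := by exact_mod_cast s.den_nz
  have hrn : (r.num : ℚ) = r * r.den := (Rat.mul_den_eq_num r).symm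
  have hsn : (s.num : ℚ) = s * s.den := (Rat.mul_den_eq_num s).symm
  refine ⟨y / z * (r.den * s.den), ?_⟩
  push_cast
  rw [hrn, hsn]
  rw [hz] at hy
  field_simp
  linear_combination hy

/-- the comparison -/
private theorem Triv_sum (p q : ℤ × ℤ → Prop) (F : Finset ℚ) (T : ℚ → ℕ → Finset (ℤ × ℤ)) (C : ℚ → ℝ)
    (hC : ∀ (x : ℚ) (N : ℕ), 1 ≤ N → ((T x N).card : ℝ) ≤ C x * (N : ℝ) ^ (3 / 2 : ℝ))
    (hpq : ∀ (N : ℕ) (w : ℤ × ℤ), w ∈ Finset.Icc (-(N : ℤ)) N ×ˢ Finset.Icc (-(N : ℤ)) N → p w →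
      q w ∨ ∃ x ∈ F, w ∈ T x N)
    (hq : Tendsto (fun N : ℕ => (Nat.card {w : ℤ × ℤ // |w.1| ≤ (N : ℤ) ∧ |w.2| ≤ (N : ℤ) ∧ q w} : ℝ) / (N : ℝ) ^ 2)
      atTop (nhds 0)) :
    Tendsto (fun N : ℕ => (Nat.card {w : ℤ × ℤ // |w.1| ≤ (N : ℤ) ∧ |w.2| ≤ (N : ℤ) ∧ p w} : ℝ) / (N : ℝ) ^ 2)
      atTop (nhds 0) := by
  classical
  set K : ℝ := ∑ x ∈ F, C x with hK
  have hcard : ∀ (N : ℕ) (p : ℤ × ℤ → Prop), Nat.card {w : ℤ × ℤ // |w.1| ≤ (N : ℤ) ∧ |w.2| ≤ (N : ℤ) ∧ p w} =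
      ((Finset.Icc (-(N : ℤ)) N ×ˢ Finset.Icc (-(N : ℤ)) N).filter p).card := by
    intro N p
    refine Nat.subtype_card _ fun w => ?_
    rw [Finset.mem_filter, Finset.mem_product, Finset.mem_Icc, Finset.mem_Icc, abs_le, abs_le, and_assoc]
  have hbd : ∀ N : ℕ, 1 ≤ N →
      (Nat.card {w : ℤ × ℤ // |w.1| ≤ (N : ℤ) ∧ |w.2| ≤ (N : ℤ) ∧ p w} : ℝ) / (N : ℝ) ^ 2 ≤
      (Nat.card {w : ℤ × ℤ // |w.1| ≤ (N : ℤ) ∧ |w.2| ≤ (N : ℤ) ∧ q w} : ℝ) / (N : ℝ) ^ 2 +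
        K * (N : ℝ) ^ (-(1 / 2) : ℝ) := by
    intro N hN
    have hN0 : (0 : ℝ) < N := by exact_mod_cast hN
    have hsub : (Finset.Icc (-(N : ℤ)) N ×ˢ Finset.Icc (-(N : ℤ)) N).filter p ⊆
        (Finset.Icc (-(N : ℤ)) N ×ˢ Finset.Icc (-(N : ℤ)) N).filter q ∪ F.biUnion fun x => T x N := by
      intro w hw
      rw [Finset.mem_filter] at hw
      obtain ⟨hw1, hw2⟩ := hw
      rw [Finset.mem_union, Finset.mem_filter, Finset.mem_biUnion]
      rcases hpq N w hw1 hw2 with h | h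
      · exact Or.inl ⟨hw1, h⟩
      · exact Or.inr h
    have h1 := (Finset.card_le_card hsub).trans (Finset.card_union_le _ _)
    have h2 : ((F.biUnion fun x => T x N).card : ℝ) ≤ K * (N : ℝ) ^ (3 / 2 : ℝ) := by
      have h3 : ((F.biUnion fun x => T x N).card : ℝ) ≤ ((∑ x ∈ F, (T x N).card : ℕ) : ℝ) := by
        exact_mod_cast Finset.card_biUnion_le
      refine h3.trans ?_
      rw [hK, Finset.sum_mul]
      push_cast
      exact Finset.sum_le_sum fun x _ => hC x N hN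
    have h4 : (N : ℝ) ^ (3 / 2 : ℝ) = (N : ℝ) ^ (-(1 / 2) : ℝ) * (N : ℝ) ^ 2 := by
      rw [← Real.rpow_natCast (N : ℝ) 2, ← Real.rpow_add hN0]
      norm_num
    rw [← hcard, ← hcard] at h1
    have h5 : (Nat.card {w : ℤ × ℤ // |w.1| ≤ (N : ℤ) ∧ |w.2| ≤ (N : ℤ) ∧ p w} : ℝ) ≤
        (Nat.card {w : ℤ × ℤ // |w.1| ≤ (N : ℤ) ∧ |w.2| ≤ (N : ℤ) ∧ q w} : ℝ) +
        ((F.biUnion fun x => T x N).card : ℝ) := by
      exact_mod_cast h1
    rw [div_le_iff₀ (by positivity), add_mul, div_mul_cancel₀ _ (by positivity), mul_assoc, ← h4]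
    linarith
  have hlim : Tendsto (fun N : ℕ => (Nat.card {w : ℤ × ℤ // |w.1| ≤ (N : ℤ) ∧ |w.2| ≤ (N : ℤ) ∧ q w} : ℝ) /
        (N : ℝ) ^ 2 + K * (N : ℝ) ^ (-(1 / 2) : ℝ)) atTop (nhds 0) := by
    have h1 : Tendsto (fun N : ℕ => K * (N : ℝ) ^ (-(1 / 2) : ℝ)) atTop (nhds 0) := by
      have h2 := ((tendsto_rpow_neg_atTop (y := 1 / 2) (by norm_num)).comp
        (tendsto_natCast_atTop_atTop (R := ℝ))).const_mul K
      rw [mul_zero] at h2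
      exact h2
    have h3 := hq.add h1
    rw [add_zero] at h3
    exact h3
  refine squeeze_zero' (Filter.Eventually.of_forall fun N => by positivity) ?_ hlim
  filter_upwards [Filter.eventually_ge_atTop 1] with N hN
  exact hbd N hN

theorem main_two {g G1 G2 : ℤ[X]} (hD : Dat g G1 G2) (hfin : {x : ℚ | IsSquare ((qq g).eval x)}.Finite) :
    Tendsto (fun N : ℕ => (Nat.card {w : ℤ × ℤ // |w.1| ≤ (N : ℤ) ∧ |w.2| ≤ (N : ℤ) ∧
      ¬ ∀ x : ℚ, IsSquare ((qq g).eval x * (qq (AA G1 G2 w.1 w.2)).eval x) ↔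
        (IsSquare ((qq g).eval x) ∧ (qq G2).eval x = 0)} : ℝ) / (N : ℝ) ^ 2)
      atTop (nhds 0) := by
  have hpt : ∀ x : ℚ, ∃ (T : ℕ → Finset (ℤ × ℤ)) (C : ℝ),
      (∀ N : ℕ, 1 ≤ N → ((T N).card : ℝ) ≤ C * (N : ℝ) ^ (3 / 2 : ℝ)) ∧
      (IsSquare ((qq g).eval x) → (qq G2).eval x ≠ 0 →
      ∀ (N : ℕ) (w : ℤ × ℤ), w ∈ Finset.Icc (-(N : ℤ)) N ×ˢ Finset.Icc (-(N : ℤ)) N →
        IsSquare ((qq g).eval x * (qq (AA G1 G2 w.1 w.2)).eval x) → w ∈ T N) := by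
    intro x
    by_cases h : IsSquare ((qq g).eval x) ∧ (qq G2).eval x ≠ 0
    · obtain ⟨T, C, h1, h2⟩ := Triv_pt hD x h.1 h.2
      exact ⟨T, C, h1, fun _ _ => h2⟩
    · exact ⟨fun _ => ∅, 0, fun N _ => by simp, fun h1 h2 => absurd ⟨h1, h2⟩ h⟩
  choose T C hC hT using hpt
  refine Triv_sum _ _ hfin.toFinset T C hC (fun N w hw hp => ?_) (main_one hD)
  by_contra hcon
  push Not at hcon
  obtain ⟨hc1, hc2⟩ := hcon
  apply hp
  intro x
  constructor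
  · intro h
    have h1 : IsSquare ((qq g).eval x) := hc1 x h
    refine ⟨h1, ?_⟩
    by_contra h2
    exact hc2 x (hfin.mem_toFinset.mpr h1) (hT x h1 h2 N w hw h)
  · rintro ⟨h1, h2⟩
    rw [Triv_AA, h2, mul_zero, add_zero, zero_pow two_ne_zero, mul_zero, add_zero]
    exact h1.mul (IsSquare.sq _)

end O1
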