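import Pool.Agent.Lib.MP_10e784_agO.AL
import Pool.Agent.Lib.MP_10e784_agO.LB
import Pool.Agent.Lib.MP_10e784_agO.SV

/-! JOB UV0.  The number of pairs attached to a good object, case `t = 0`.

If `U0` is empty nothing to prove; otherwise `att_lat`: `t` with `M ∣ t² + evn f t` for all `f` in `U0` and `Lt G1 G2 M r k ↔ M ∣ k 1 - k 0 t`.  `q0 = ⌈N ^ (1/100)⌉`; `GoodN 1 N q0 M t`: for `k ≠ 0` and `t'` with `M ∣ k i - t' t ^ i` (`i = 0, 1`): `M ∣ k 1 - k 0 t`, and not `BadO` gives `q0 M ≤ 4 N nrm k` and `nrm k = |k i|` for some `i`.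
`sv 1` with `H = N`, `s = t²`, `Q` = the primes `p ∈ QN B N` with `jacobiSym n p = -1` (`n = nm g (Pf δ)`; such `p` does not divide `M`, since `p ∣ M` implies `p ∣ n` by `van_iff`), `E p f = ¬ CC p n (f 1) (f 0)` (`c_per`, `c_dens`: `dn = 1 / p`; `p ≠ 2` because `2 ∣ B`).
`∑_{p ∈ Q} 1/p ≥ VC n (zz N) - ∑_{p ∣ B} 1/p`. -/

set_option autoImplicit false

namespace O1

open Polynomial Finset TW FQQ

theorem u0_good {g G1 G2 : ℤ[X]} (hD : Dat g G1 G2) {P0 B : ℕ} (hG : Good g G1 G2 P0 B) (C0 : ℝ) :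
    ∃ (C : ℝ) (N0 : ℕ), 0 < C ∧ ∀ N : ℕ, N0 ≤ N → ∀ (δ : Vn 2) (M : ℕ) (r : ℤ), Ob g B C0 δ M r →
      ¬ BadO g G1 G2 B C0 N δ →
      ((U0 g G1 G2 B N δ).card : ℝ) ≤ C * (N : ℝ) ^ 2 / M *
        (Real.exp (- VC (nm g (Pf δ)) (zz N)) + (Real.log N) ^ (-(10 : ℝ))) := by
  classical
  obtain ⟨C, H0, hC, hsv⟩ := sv 1
  set K : ℝ := ∑ p ∈ B.primeFactors, (1 : ℝ) / (p : ℝ) with hK
  have hK0 : 0 ≤ K := Finset.sum_nonneg fun _ _ => by positivity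
  refine ⟨C * Real.exp K, max H0 1, by positivity, fun N hN δ M r hO hBad => ?_⟩
  have hN0 : H0 ≤ N := (le_max_left _ _).trans hN
  have hN1 : 1 ≤ N := (le_max_right _ _).trans hN
  have hL : 0 ≤ (Real.log N) ^ (-(10 : ℝ)) := Real.rpow_nonneg (Real.log_natCast_nonneg N) _
  have hM0 : 0 < M := Nat.pos_of_ne_zero hO.sq.ne_zero
  have hM : (0 : ℝ) < (M : ℝ) := by exact_mod_cast hM0
  set n : ℤ := nm g (Pf δ) with hn
  rcases (U0 g G1 G2 B N δ).eq_empty_or_nonempty with hU | ⟨f0, hf0⟩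
  · rw [hU, Finset.card_empty, Nat.cast_zero]
    positivity
  obtain ⟨t, ht1, ht2⟩ := att_lat hD hG hO f0 (by
    rw [U0, Finset.mem_filter] at hf0
    exact hf0.2.1)
  have hgood : GoodN 1 N ⌈(N : ℝ) ^ ((1 : ℝ) / 100)⌉₊ M t := by
    intro k hk ⟨s, hs⟩
    have h0 := hs 0
    have h1 := hs 1
    simp only [Fin.val_zero, pow_zero, mul_one, Fin.val_one, pow_one] at h0 h1
    have hLt : Lt G1 G2 M r k := by
      rw [ht2]
      have h2 : k 1 - k 0 * t = (k 1 - s * t) - (k 0 - s) * t := by ring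
      rw [h2]
      exact dvd_sub h1 (Dvd.dvd.mul_right h0 t)
    have h3 : ¬ (4 * (N : ℝ) * nrm k < (⌈(N : ℝ) ^ ((1 : ℝ) / 100)⌉₊ : ℝ) * M) :=
      fun h => hBad ⟨M, r, hO, k, hk, hLt, h⟩
    rw [not_lt] at h3
    have h4 : ∃ i : Fin 2, nrm k = |(k i : ℝ)| := by
      rw [nrm]
      rcases max_choice |(k 0 : ℝ)| |(k 1 : ℝ)| with h | h
      · exact ⟨0, h⟩
      · exact ⟨1, h⟩
    obtain ⟨i, hi⟩ := h4
    refine ⟨i, ?_⟩
    rw [hi] at h3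
    have h5 : ((k i).natAbs : ℝ) = |(k i : ℝ)| := by rw [Nat.cast_natAbs, Int.cast_abs]
    rw [← h5] at h3
    exact_mod_cast h3
  set Q : Finset ℕ := (QN B N).filter fun p => jacobiSym n p = -1 with hQ
  have hQ1 : ∀ p ∈ Q, p.Prime ∧ ¬ p ∣ B ∧ (p : ℝ) ≤ zz N ∧ jacobiSym n p = -1 := by
    intro p hp
    rw [hQ, Finset.mem_filter, QN, Finset.mem_filter, Finset.mem_range] at hp
    obtain ⟨⟨h1, h2, h3⟩, h4⟩ := hp
    refine ⟨h2, h3, ?_, h4⟩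
    exact (Nat.cast_le.2 (Nat.lt_succ_iff.1 h1)).trans (Nat.floor_le (Real.exp_pos _).le)
  have hQM : ∀ p ∈ Q, ¬ p ∣ M := by
    intro p hp hpM
    obtain ⟨h1, h2, _, h4⟩ := hQ1 p hp
    have h5 := (hO.dv p h1 h2).2 hpM
    rw [van_iff hD.gm p h1] at h5
    have : Fact p.Prime := ⟨h1⟩
    have h6 : jacobiSym n p = 0 := by
      rw [← jacobiSym.legendreSym.to_jacobiSym, legendreSym.eq_zero_iff]
      exact (ZMod.intCast_zmod_eq_zero_iff_dvd _ _).2 h5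
    rw [h6] at h4
    exact absurd h4 (by norm_num)
  have hdn : ∀ p ∈ Q, dn 1 p (fun f => ¬ CC p n (f 1) (f 0)) = 1 / (p : ℝ) := by
    intro p hp
    obtain ⟨h1, h2, _, h4⟩ := hQ1 p hp
    rw [c_dens p h1 (fun h => h2 (h ▸ hG.two)) n, if_pos h4]
  have hcard := hsv N hN0 M ⌈(N : ℝ) ^ ((1 : ℝ) / 100)⌉₊ t (t ^ 2) hM0 (Nat.le_ceil _) hgood Q
    (fun p hp => ⟨(hQ1 p hp).1, hQM p hp, (hQ1 p hp).2.2.1⟩)
    (fun p f => ¬ CC p n (f 1) (f 0)) (fun p _ f f' h => not_congr (c_per p n f f' h))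
    (fun p hp => by
      rw [hdn p hp]
      exact div_le_div_of_nonneg_right (by norm_num) (Nat.cast_nonneg p))
  have hsum : ∑ p ∈ Q, dn 1 p (fun f => ¬ CC p n (f 1) (f 0)) = ∑ p ∈ Q, 1 / (p : ℝ) :=
    Finset.sum_congr rfl hdn
  have hVC : VC n (zz N) ≤ (∑ p ∈ Q, 1 / (p : ℝ)) + K := by
    have h1 : VC n (zz N) = ∑ p ∈ ((Icc 1 ⌊zz N⌋₊).filter Nat.Prime).filter (fun p => jacobiSym n p = -1),
        1 / (p : ℝ) := by
      rw [VC, PT.PS, Finset.sum_filter (s := (Icc 1 ⌊zz N⌋₊).filter Nat.Prime)]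
      refine Finset.sum_congr rfl fun p _ => ?_
      split_ifs
      · rfl
      · exact zero_div _
    rw [h1, hK]
    have h2 : ((Icc 1 ⌊zz N⌋₊).filter Nat.Prime).filter (fun p => jacobiSym n p = -1) ⊆ Q ∪ B.primeFactors := by
      intro p hp
      rw [Finset.mem_filter, Finset.mem_filter, Finset.mem_Icc] at hp
      obtain ⟨⟨⟨_, h4⟩, h5⟩, h6⟩ := hp
      rw [Finset.mem_union]
      by_cases hB : p ∣ B
      · exact Or.inr (Nat.mem_primeFactors.2 ⟨h5, hB, hG.ne⟩)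
      · left
        rw [hQ, Finset.mem_filter, QN, Finset.mem_filter, Finset.mem_range]
        exact ⟨⟨Nat.lt_succ_iff.2 h4, h5, hB⟩, h6⟩
    refine (Finset.sum_le_sum_of_subset_of_nonneg h2 fun _ _ _ => by positivity).trans ?_
    rw [← Finset.sum_union_inter]
    exact le_add_of_nonneg_right (Finset.sum_nonneg fun _ _ => by positivity)
  have h8 : ((U0 g G1 G2 B N δ).card : ℝ) ≤ C * (N : ℝ) ^ (1 + 1) / (M : ℝ) *
      (Real.exp (- ∑ p ∈ Q, 1 / (p : ℝ)) + (Real.log N) ^ (-(10 : ℝ))) := by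
    rw [hsum] at hcard
    refine (Nat.cast_le.2 (Finset.card_le_card ?_)).trans hcard
    intro f hf
    rw [U0, Finset.mem_filter] at hf
    refine (@Finset.mem_filter _ _ (_) _ _).2 ⟨hf.1, ht1 f hf.2.1, fun p hp => not_not.2 (hf.2.2 p ?_)⟩
    rw [hQ, Finset.mem_filter] at hp
    exact hp.1
  refine h8.trans ?_
  have h9 : Real.exp (- ∑ p ∈ Q, 1 / (p : ℝ)) ≤ Real.exp K * Real.exp (- VC n (zz N)) := by
    rw [← Real.exp_add]
    exact Real.exp_le_exp.2 (by linarith)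
  have h10 : (Real.log N) ^ (-(10 : ℝ)) ≤ Real.exp K * (Real.log N) ^ (-(10 : ℝ)) :=
    le_mul_of_one_le_left hL (Real.one_le_exp hK0)
  calc C * (N : ℝ) ^ (1 + 1) / (M : ℝ) * (Real.exp (- ∑ p ∈ Q, 1 / (p : ℝ)) + (Real.log N) ^ (-(10 : ℝ)))
      ≤ C * (N : ℝ) ^ (1 + 1) / (M : ℝ) *
        (Real.exp K * Real.exp (- VC n (zz N)) + Real.exp K * (Real.log N) ^ (-(10 : ℝ))) := by
        exact mul_le_mul_of_nonneg_left (add_le_add h9 h10) (by positivity)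
    _ = C * Real.exp K * (N : ℝ) ^ 2 / M * (Real.exp (- VC n (zz N)) + (Real.log N) ^ (-(10 : ℝ))) := by
        ring

end O1
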