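import Pool.Agent.Lib.MP_10e784_agO.AL
import Pool.Agent.Lib.MP_10e784_agO.LB
import Pool.Agent.Lib.MP_10e784_agO.SV

/-! JOB UV1.  The number of pairs attached to a good object, case `t = 1`.

As UV0 with `Q` = the primes `p ∈ QN B N` with `p ∤ M` (equivalently `¬ Van g p (red p (Pf δ))`, `hO.dv`), `E p f = ¬ (CC .. ∧ CB ..)`, `bc_per`, `bc_upper`, `bc_lower`.
`∑_{p ∈ Q} dn ≥ ∑_{p ∈ Q} (ew g p / p + [(n/p) = -1] / p - 100 / p²) ≥ PS (ew g) (zz N) + VC n (zz N) - ∑_{p ∣ M} ew g p / p - C_B`, since `jacobiSym n p = -1` implies `p ∤ M`, `0 ≤ ew g p ≤ 9/4` (`PT.rt g p ≤ 3` for the primes; for `p ∣ B` a bounded contribution), `∑ 100 / p² ≤ 200`. -/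

set_option autoImplicit false

namespace O1

open Polynomial Finset TW FQQ

/-- the number of roots of a monic cubic polynomial modulo a prime -/
private theorem UV1_rt {g : ℤ[X]} (hg : g.Monic) (hd : g.natDegree = 3) {p : ℕ} (hp : p.Prime) : PT.rt g p ≤ 3 := by
  have : Fact p.Prime := ⟨hp⟩
  set G : (ZMod p)[X] := g.map (Int.castRingHom (ZMod p)) with hG
  have hm : G.Monic := hg.map _
  have hd' : G.natDegree = 3 := by rw [hG, hg.natDegree_map, hd]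
  have h1 : PT.rt g p = Nat.card {ρ : ZMod p // ρ ∈ G.roots.toFinset} := by
    unfold PT.rt
    refine Nat.card_congr (Equiv.subtypeEquivRight fun ρ => ?_)
    rw [Multiset.mem_toFinset, mem_roots hm.ne_zero]
    rfl
  rw [h1, Nat.card_eq_fintype_card, Fintype.card_coe]
  exact (Multiset.toFinset_card_le _).trans ((card_roots' G).trans hd'.le)

private theorem UV1_ew {g : ℤ[X]} (hg : g.Monic) (hd : g.natDegree = 3) {p : ℕ} (hp : p.Prime) :
    0 ≤ ew g p ∧ ew g p ≤ 9 / 4 := by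
  have h1 := UV1_rt hg hd hp
  unfold ew
  interval_cases h : PT.rt g p
  · norm_num
  · norm_num
  · norm_num
  · norm_num

private theorem UV1_sq (S : Finset ℕ) (hS : ∀ p ∈ S, 1 ≤ p) : ∑ p ∈ S, 100 / (p : ℝ) ^ 2 ≤ 200 := by
  have h1 : ∑ p ∈ S, 100 / (p : ℝ) ^ 2 ≤ ∑ p ∈ Ioo 0 (S.sup id + 1), 100 / (p : ℝ) ^ 2 := by
    refine Finset.sum_le_sum_of_subset_of_nonneg ?_ fun _ _ _ => by positivity
    intro p hp
    rw [Finset.mem_Ioo]
    exact ⟨hS p hp, Nat.lt_succ_of_le (Finset.le_sup (f := id) hp)⟩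
  have h2 := sum_Ioo_inv_sq_le (α := ℝ) 0 (S.sup id + 1)
  have h3 : ∑ p ∈ Ioo 0 (S.sup id + 1), 100 / (p : ℝ) ^ 2 = 100 * ∑ p ∈ Ioo 0 (S.sup id + 1), ((p : ℝ) ^ 2)⁻¹ := by
    rw [Finset.mul_sum]
    exact Finset.sum_congr rfl fun p _ => by rw [div_eq_mul_inv]
  rw [h3] at h1
  push_cast at h2
  linarith

/-- the sum over the sieving primes -/
private theorem UV1_sum {B M N : ℕ} (hB : B ≠ 0) (hM : M ≠ 0) (a : ℕ → ℝ) (ha : ∀ p : ℕ, p.Prime → 0 ≤ a p ∧ a p ≤ 4) :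
    PT.PS a (zz N) - 4 * ∑ p ∈ M.primeFactors, (1 : ℝ) / (p : ℝ) - 4 * (B.primeFactors.card : ℝ) ≤
      ∑ p ∈ (QN B N).filter (fun p => ¬ p ∣ M), a p / (p : ℝ) := by
  classical
  set P := (Icc 1 ⌊zz N⌋₊).filter Nat.Prime with hP
  have hsub : P ⊆ ((QN B N).filter (fun p => ¬ p ∣ M)) ∪ (P.filter (fun p => p ∣ M) ∪ P.filter (fun p => p ∣ B)) := by
    intro p hp
    have hp' := hp
    rw [hP, Finset.mem_filter, Finset.mem_Icc] at hp'
    by_cases h1 : p ∣ M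
    · exact Finset.mem_union_right _ (Finset.mem_union_left _ (Finset.mem_filter.2 ⟨hp, h1⟩))
    · by_cases h2 : p ∣ B
      · exact Finset.mem_union_right _ (Finset.mem_union_right _ (Finset.mem_filter.2 ⟨hp, h2⟩))
      · refine Finset.mem_union_left _ (Finset.mem_filter.2 ⟨?_, h1⟩)
        unfold QN
        rw [Finset.mem_filter, Finset.mem_range]
        exact ⟨Nat.lt_succ_of_le hp'.1.2, hp'.2, h2⟩
  have hpos : ∀ p : ℕ, p.Prime → 0 ≤ a p / (p : ℝ) := fun p hp => div_nonneg (ha p hp).1 (Nat.cast_nonneg p)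
  have hPS : PT.PS a (zz N) = ∑ p ∈ P, a p / (p : ℝ) := rfl
  have hall : ∀ p ∈ ((QN B N).filter (fun p => ¬ p ∣ M)) ∪ (P.filter (fun p => p ∣ M) ∪ P.filter (fun p => p ∣ B)),
      p.Prime := by
    intro p hp
    rcases Finset.mem_union.1 hp with h | h
    · have h1 := (Finset.mem_filter.1 h).1
      unfold QN at h1
      exact (Finset.mem_filter.1 h1).2.1
    · rcases Finset.mem_union.1 h with h | h
      · exact (Finset.mem_filter.1 (Finset.mem_filter.1 h).1).2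
      · exact (Finset.mem_filter.1 (Finset.mem_filter.1 h).1).2
  have h1 : ∑ p ∈ P, a p / (p : ℝ) ≤ ∑ p ∈ (QN B N).filter (fun p => ¬ p ∣ M), a p / (p : ℝ) +
      (∑ p ∈ P.filter (fun p => p ∣ M), a p / (p : ℝ) + ∑ p ∈ P.filter (fun p => p ∣ B), a p / (p : ℝ)) := by
    have e0 := Finset.sum_le_sum_of_subset_of_nonneg (f := fun p : ℕ => a p / (p : ℝ)) hsub
      fun p hp _ => hpos p (hall p hp)
    have e1 := Finset.sum_union_inter (s₁ := (QN B N).filter (fun p => ¬ p ∣ M))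
      (s₂ := P.filter (fun p => p ∣ M) ∪ P.filter (fun p => p ∣ B)) (f := fun p : ℕ => a p / (p : ℝ))
    have e2 := Finset.sum_union_inter (s₁ := P.filter (fun p => p ∣ M))
      (s₂ := P.filter (fun p => p ∣ B)) (f := fun p : ℕ => a p / (p : ℝ))
    have e3 : 0 ≤ ∑ p ∈ ((QN B N).filter (fun p => ¬ p ∣ M)) ∩
        (P.filter (fun p => p ∣ M) ∪ P.filter (fun p => p ∣ B)), a p / (p : ℝ) :=
      Finset.sum_nonneg fun p hp => hpos p (hall p (Finset.mem_union_left _ (Finset.mem_inter.1 hp).1))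
    have e4 : 0 ≤ ∑ p ∈ P.filter (fun p => p ∣ M) ∩ P.filter (fun p => p ∣ B), a p / (p : ℝ) :=
      Finset.sum_nonneg fun p hp => hpos p
        (Finset.mem_filter.1 (Finset.mem_filter.1 (Finset.mem_inter.1 hp).1).1).2
    linarith
  have h2 : ∑ p ∈ P.filter (fun p => p ∣ M), a p / (p : ℝ) ≤ 4 * ∑ p ∈ M.primeFactors, (1 : ℝ) / (p : ℝ) := by
    rw [Finset.mul_sum]
    have e1 : P.filter (fun p => p ∣ M) ⊆ M.primeFactors := by
      intro p hp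
      have hp1 := Finset.mem_filter.1 hp
      exact Nat.mem_primeFactors.2 ⟨(Finset.mem_filter.1 hp1.1).2, hp1.2, hM⟩
    refine le_trans (Finset.sum_le_sum fun p hp => ?_)
      (Finset.sum_le_sum_of_subset_of_nonneg e1 fun p _ _ => by positivity)
    have hp1 := (Finset.mem_filter.1 (Finset.mem_filter.1 hp).1).2
    rw [mul_one_div]
    exact div_le_div_of_nonneg_right (ha p hp1).2 (Nat.cast_nonneg p)
  have h3 : ∑ p ∈ P.filter (fun p => p ∣ B), a p / (p : ℝ) ≤ 4 * (B.primeFactors.card : ℝ) := by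
    have e1 : P.filter (fun p => p ∣ B) ⊆ B.primeFactors := by
      intro p hp
      have hp1 := Finset.mem_filter.1 hp
      exact Nat.mem_primeFactors.2 ⟨(Finset.mem_filter.1 hp1.1).2, hp1.2, hB⟩
    have e2 : ∑ p ∈ P.filter (fun p => p ∣ B), a p / (p : ℝ) ≤ ∑ p ∈ P.filter (fun p => p ∣ B), (4 : ℝ) := by
      refine Finset.sum_le_sum fun p hp => ?_
      have hp1 := (Finset.mem_filter.1 (Finset.mem_filter.1 hp).1).2
      have hp2 : (1 : ℝ) ≤ p := by exact_mod_cast hp1.one_lt.le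
      rw [div_le_iff₀ (by linarith)]
      have := (ha p hp1).2
      nlinarith
    refine e2.trans ?_
    rw [Finset.sum_const, nsmul_eq_mul, mul_comm]
    have e3 : ((P.filter (fun p => p ∣ B)).card : ℝ) ≤ (B.primeFactors.card : ℝ) := by
      exact_mod_cast Finset.card_le_card e1
    linarith
  rw [hPS]
  linarith

theorem u1_good {g G1 G2 : ℤ[X]} (hD : Dat g G1 G2) {P0 B : ℕ} (hG : Good g G1 G2 P0 B) (C0 : ℝ) :
    ∃ (C : ℝ) (N0 : ℕ), 0 < C ∧ ∀ N : ℕ, N0 ≤ N → ∀ (δ : Vn 2) (M : ℕ) (r : ℤ), Ob g B C0 δ M r →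
      ¬ BadO g G1 G2 B C0 N δ →
      ((U1 g G1 G2 B N δ).card : ℝ) ≤ C * (N : ℝ) ^ 2 / M *
        (Real.exp (- VC (nm g (Pf δ)) (zz N) - PT.PS (ew g) (zz N) + 4 * ∑ p ∈ M.primeFactors, (1 : ℝ) / (p : ℝ)) +
          (Real.log N) ^ (-(10 : ℝ))) := by
  classical
  obtain ⟨C₁, H0, hC₁, hsv⟩ := sv 1
  refine ⟨C₁ * Real.exp (4 * (B.primeFactors.card : ℝ) + 200), H0, by positivity, ?_⟩
  intro N hN δ M r hO hnb
  have hM0 : M ≠ 0 := hO.sq.ne_zero
  have hMpos : 0 < M := Nat.pos_of_ne_zero hM0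
  have hMr : (0 : ℝ) < M := by exact_mod_cast hMpos
  have hlog : 0 ≤ (Real.log N) ^ (-(10 : ℝ)) := by
    refine Real.rpow_nonneg (Real.log_natCast_nonneg N) _
  rcases (U1 g G1 G2 B N δ).eq_empty_or_nonempty with hU | ⟨f0, hf0⟩
  · rw [hU, Finset.card_empty, Nat.cast_zero]
    positivity
  have hmem : ∀ f, f ∈ U1 g G1 G2 B N δ ↔ f ∈ boxN 1 N ∧ Att g G1 G2 B δ (f 1) (f 0) ∧
      ∀ p ∈ QN B N, CC p (nm g (Pf δ)) (f 1) (f 0) ∧
      (¬ Van g p (red p (Pf δ)) → CB g G1 G2 p (red p (Pf δ)) ((f 1 : ℤ) : ZMod p) ((f 0 : ℤ) : ZMod p)) := by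
    intro f
    unfold U1
    rw [Finset.mem_filter]
  obtain ⟨t, ht1, ht2⟩ := att_lat hD hG hO f0 ((hmem f0).1 hf0).2.1
  -- the lattice has no short vectors
  have hgood : GoodN 1 N ⌈(N : ℝ) ^ ((1 : ℝ) / 100)⌉₊ M t := by
    intro k hk hk'
    obtain ⟨t', hk'⟩ := hk'
    have h0 := hk' 0
    have h1 := hk' 1
    have e0 : ((0 : Fin 2) : ℕ) = 0 := rfl
    have e1 : ((1 : Fin 2) : ℕ) = 1 := rfl
    rw [e0, pow_zero, mul_one] at h0
    rw [e1, pow_one] at h1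
    have hL : Lt G1 G2 M r k := by
      rw [ht2 k]
      have h2 : k 1 - k 0 * t = (k 1 - t' * t) - t * (k 0 - t') := by ring
      rw [h2]
      exact dvd_sub h1 (dvd_mul_of_dvd_right h0 t)
    have hns : ¬ (4 * (N : ℝ) * nrm k < (⌈(N : ℝ) ^ ((1 : ℝ) / 100)⌉₊ : ℝ) * M) := by
      intro hlt
      exact hnb ⟨M, r, hO, k, hk, hL, hlt⟩
    rw [not_lt] at hns
    have hcast : ∀ i : Fin 2, nrm k = |(k i : ℝ)| → ⌈(N : ℝ) ^ ((1 : ℝ) / 100)⌉₊ * M ≤ 4 * N * (k i).natAbs := by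
      intro i hi
      rw [hi] at hns
      have h3 : ((k i).natAbs : ℝ) = |(k i : ℝ)| := by
        rw [Nat.cast_natAbs, Int.cast_abs]
      rw [← h3] at hns
      exact_mod_cast hns
    rcases max_choice |(k 0 : ℝ)| |(k 1 : ℝ)| with h | h
    · exact ⟨0, hcast 0 h⟩
    · exact ⟨1, hcast 1 h⟩
  set Q := (QN B N).filter (fun p => ¬ p ∣ M) with hQ
  have hzz : 0 ≤ zz N := (Real.exp_pos _).le
  have hQN : ∀ p ∈ QN B N, p.Prime ∧ ¬ p ∣ B ∧ (p : ℝ) ≤ zz N := by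
    intro p hp
    unfold QN at hp
    rw [Finset.mem_filter, Finset.mem_range] at hp
    exact ⟨hp.2.1, hp.2.2, (Nat.le_floor_iff hzz).1 (Nat.lt_succ_iff.1 hp.1)⟩
  have hQm : ∀ p ∈ Q, p.Prime ∧ ¬ p ∣ M ∧ (p : ℝ) ≤ zz N := by
    intro p hp
    rw [hQ, Finset.mem_filter] at hp
    have h1 := hQN p hp.1
    exact ⟨h1.1, hp.2, h1.2.2⟩
  have hQB : ∀ p ∈ Q, p.Prime ∧ ¬ p ∣ B := by
    intro p hp
    rw [hQ, Finset.mem_filter] at hp
    have h1 := hQN p hp.1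
    exact ⟨h1.1, h1.2.1⟩
  have hVan : ∀ p ∈ Q, ¬ Van g p (red p (Pf δ)) := by
    intro p hp
    rw [hO.dv p (hQB p hp).1 (hQB p hp).2]
    exact (hQm p hp).2.1
  obtain ⟨E, hE⟩ : ∃ E : ℕ → Vn 1 → Prop, E = fun p f => ¬ (CC p (nm g (Pf δ)) (f 1) (f 0) ∧
      CB g G1 G2 p (red p (Pf δ)) ((f 1 : ℤ) : ZMod p) ((f 0 : ℤ) : ZMod p)) := ⟨_, rfl⟩
  have hEi : ∀ p f, E p f ↔ ¬ (CC p (nm g (Pf δ)) (f 1) (f 0) ∧
      CB g G1 G2 p (red p (Pf δ)) ((f 1 : ℤ) : ZMod p) ((f 0 : ℤ) : ZMod p)) := by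
    intro p f
    rw [hE]
  have hEd : ∀ p, dn 1 p (E p) = dn 1 p (fun f => ¬ (CC p (nm g (Pf δ)) (f 1) (f 0) ∧
      CB g G1 G2 p (red p (Pf δ)) ((f 1 : ℤ) : ZMod p) ((f 0 : ℤ) : ZMod p))) := by
    intro p
    rw [hE]
  have hmain := hsv N hN M ⌈(N : ℝ) ^ ((1 : ℝ) / 100)⌉₊ t (t ^ 2) hMpos (Nat.le_ceil _) hgood Q hQm E
    (fun p _ f f' h => by
      rw [hEi, hEi]
      exact not_congr (bc_per g G1 G2 p (red p (Pf δ)) (nm g (Pf δ)) f f' h))
    (fun p hp => by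
      rw [hEd]
      exact bc_upper hD hG p (hQB p hp).1 (hQB p hp).2 (red p (Pf δ)) (nm g (Pf δ)))
  have hsubE : ∀ f ∈ U1 g G1 G2 B N δ, f ∈ boxN 1 N ∧ ((M : ℤ) ∣ t ^ 2 + evn f t ∧ ∀ p ∈ Q, ¬ E p f) := by
    intro f hf
    have h1 := (hmem f).1 hf
    refine ⟨h1.1, ht1 f h1.2.1, fun p hp => ?_⟩
    rw [hQ] at hp
    have hp' := h1.2.2 p (Finset.mem_filter.1 hp).1
    rw [hEi]
    exact not_not.2 ⟨hp'.1, hp'.2 (hVan p hp)⟩
  refine le_trans (Nat.cast_le.2 (Finset.card_le_card fun f hf => Finset.mem_filter.2 (hsubE f hf))) (hmain.trans ?_)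
  -- the sum of the densities
  obtain ⟨D, hD'⟩ : ∃ D : ℝ, D = ∑ p ∈ Q, dn 1 p (E p) := ⟨_, rfl⟩
  have hDs : VC (nm g (Pf δ)) (zz N) + PT.PS (ew g) (zz N) - 4 * ∑ p ∈ M.primeFactors, (1 : ℝ) / (p : ℝ) -
      4 * (B.primeFactors.card : ℝ) - 200 ≤ D := by
    have h1 : ∑ p ∈ Q, (ew g p / (p : ℝ) + (if jacobiSym (nm g (Pf δ)) p = -1 then 1 / (p : ℝ) else 0) -
        100 / (p : ℝ) ^ 2) ≤ D := by
      rw [hD']
      refine Finset.sum_le_sum fun p hp => ?_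
      rw [hEd]
      exact bc_lower hD hG p (hQB p hp).1 (hQB p hp).2 (red p (Pf δ)) (hVan p hp) (nm g (Pf δ))
    rw [Finset.sum_sub_distrib] at h1
    have h2 := UV1_sq Q fun p hp => (hQB p hp).1.one_lt.le
    have h3 := UV1_sum (N := N) hG.ne hM0
      (fun p => ew g p + (if jacobiSym (nm g (Pf δ)) p = -1 then 1 else 0)) (fun p hp => by
        have h4 := UV1_ew hD.gm hD.gd hp
        constructor
        · split_ifs <;> linarith
        · split_ifs <;> linarith)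
    rw [← hQ] at h3
    have h4 : PT.PS (fun p => ew g p + (if jacobiSym (nm g (Pf δ)) p = -1 then 1 else 0)) (zz N) =
        PT.PS (ew g) (zz N) + VC (nm g (Pf δ)) (zz N) := by
      unfold VC PT.PS
      rw [← Finset.sum_add_distrib]
      exact Finset.sum_congr rfl fun p _ => by rw [add_div]
    have h5 : ∑ p ∈ Q, (ew g p + (if jacobiSym (nm g (Pf δ)) p = -1 then 1 else 0)) / (p : ℝ) =
        ∑ p ∈ Q, (ew g p / (p : ℝ) + (if jacobiSym (nm g (Pf δ)) p = -1 then 1 / (p : ℝ) else 0)) := by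
      refine Finset.sum_congr rfl fun p _ => ?_
      rw [add_div]
      split_ifs
      · rfl
      · rw [zero_div]
    rw [h4, h5] at h3
    linarith
  rw [← hD']
  have hexp : Real.exp (-D) ≤ Real.exp (4 * (B.primeFactors.card : ℝ) + 200) *
      Real.exp (- VC (nm g (Pf δ)) (zz N) - PT.PS (ew g) (zz N) + 4 * ∑ p ∈ M.primeFactors, (1 : ℝ) / (p : ℝ)) := by
    rw [← Real.exp_add]
    refine Real.exp_le_exp.2 ?_
    linarith
  have hone : 1 ≤ Real.exp (4 * (B.primeFactors.card : ℝ) + 200) := Real.one_le_exp (by positivity)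
  have hN2 : (N : ℝ) ^ (1 + 1) = (N : ℝ) ^ 2 := rfl
  rw [hN2]
  have hfac : 0 ≤ C₁ * (N : ℝ) ^ 2 / (M : ℝ) := by positivity
  calc C₁ * (N : ℝ) ^ 2 / (M : ℝ) * (Real.exp (-D) + (Real.log N) ^ (-(10 : ℝ)))
      ≤ C₁ * (N : ℝ) ^ 2 / (M : ℝ) * (Real.exp (4 * (B.primeFactors.card : ℝ) + 200) *
          Real.exp (- VC (nm g (Pf δ)) (zz N) - PT.PS (ew g) (zz N) + 4 * ∑ p ∈ M.primeFactors, (1 : ℝ) / (p : ℝ)) +
          Real.exp (4 * (B.primeFactors.card : ℝ) + 200) * (Real.log N) ^ (-(10 : ℝ))) := by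
        refine mul_le_mul_of_nonneg_left (add_le_add hexp ?_) hfac
        exact le_mul_of_one_le_left hlog hone
    _ = _ := by ring

end O1
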