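import Pool.Agent.Lib.MP_10e784_agO.Defs
import Pool.Agent.Lib.MP_10e784_agO.C3
import Pool.Agent.Lib.MP_10e784_agO.PF

/-! JOB VCl.  The lower bound for `VC`.

For a prime `p ∤ n`: `[(n/p) = -1] = (1 - (n/p)) / 2`; for `p ∣ n`: `[(n/p) = -1] = 0 = (1 - 0) / 2 - 1 / 2`.  So `VC n z ≥ (1/2) ∑_{p ≤ z} 1/p - (1/2) ∑_{p ∣ n} 1/p - (1/2) ∑_{p ≤ z} (n/p)/p`.
`∑_{p ≤ z} 1/p ≥ log log z - C` (`ELMert`), `∑_{p ∣ n} 1/p ≤ log log log (X + 100) + C` (`PF`, monotone, `|n| ≤ X`), and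
`∑_{p ≤ z} (n/p)/p ≤ ∑_{p ≤ w} 1/p + SC n w y + ∑_{y < p ≤ z} (n/p)/p`, `∑_{p ≤ w} 1/p ≤ log log w + C`, `SC n w y ≤ 1`.
The last sum: if `y = z` it is empty.  Otherwise let `Y = max y ((4 |n|) ^ 4)`.  It is at most `∑_{y < p ≤ Y} 1/p` plus the sum over `Y < p ≤ z` (bounded above by `chi_upper`, lower end `⌊Y⌋ ≥ (4|n|)^4`; empty if `z ≤ Y`), and
`∑_{y < p ≤ Y} 1/p ≤ log (log Y / log y) + C ≤ log 1000 + C` as `Y ≤ y ^ 1000`, `y ≥ 3`. -/

set_option autoImplicit false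

namespace O1

open Polynomial Finset TW FQQ

private theorem VCl_rtX (p : ℕ) (hp : p.Prime) : PT.rt (X : ℤ[X]) p = 1 := by
  have : Fact p.Prime := ⟨hp⟩
  unfold PT.rt
  simp only [Polynomial.map_X, eval_X]
  rw [Nat.card_unique]

private theorem VCl_PS (x : ℝ) : PT.PS (fun p => (PT.rt (X : ℤ[X]) p : ℝ)) x = PT.PS (fun _ => 1) x := by
  unfold PT.PS
  refine Finset.sum_congr rfl fun p hp => ?_
  simp only [Finset.mem_filter] at hp
  simp only [VCl_rtX p hp.2, Nat.cast_one]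

private theorem VCl_mert : ∃ A : ℝ, 0 ≤ A ∧ ∀ x : ℝ, 2 ≤ x →
    PT.PS (fun _ => 1) x ≤ Real.log (Real.log x) + A ∧ Real.log (Real.log x) - A ≤ PT.PS (fun _ => 1) x := by
  have hirr : Irreducible ((X : ℤ[X]).map (Int.castRingHom ℚ)) := by rw [Polynomial.map_X]; exact irreducible_X
  obtain ⟨C1, hC1⟩ := PT.rt_sum (X : ℤ[X]) hirr
  obtain ⟨C2, hC2⟩ := TW.rt_low (X : ℤ[X]) monic_X hirr
  refine ⟨|C1| + |C2|, by positivity, fun x hx => ?_⟩
  have h1 := hC1 x hx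
  have h2 := hC2 x hx
  rw [VCl_PS] at h1 h2
  constructor
  · linarith [le_abs_self C1, abs_nonneg C2]
  · linarith [le_abs_self C2, abs_nonneg C1]

private theorem VCl_split (a : ℕ → ℝ) (y z : ℝ) (hy : 0 ≤ y) (hyz : y ≤ z) :
    PT.PS a z = PT.PS a y +
      ∑ p ∈ (Icc 1 ⌊z⌋₊).filter (fun p : ℕ => p.Prime ∧ y < (p : ℝ)), a p / (p : ℝ) := by
  unfold PT.PS
  rw [← Finset.sum_union]
  · refine Finset.sum_congr ?_ fun _ _ => rfl
    ext p
    simp only [mem_union, mem_filter, mem_Icc]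
    constructor
    · rintro ⟨⟨h1, h2⟩, h3⟩
      rcases le_or_gt (p : ℝ) y with h4 | h4
      · exact Or.inl ⟨⟨h1, Nat.le_floor h4⟩, h3⟩
      · exact Or.inr ⟨⟨h1, h2⟩, h3, h4⟩
    · rintro (⟨⟨h1, h2⟩, h3⟩ | ⟨⟨h1, h2⟩, h3, h4⟩)
      · exact ⟨⟨h1, h2.trans (Nat.floor_le_floor hyz)⟩, h3⟩
      · exact ⟨⟨h1, h2⟩, h3⟩
  · rw [Finset.disjoint_left]
    intro p hp hp'
    simp only [mem_filter, mem_Icc] at hp hp'
    have h1 : (p : ℝ) ≤ y := (Nat.le_floor_iff hy).1 hp.1.2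
    linarith [hp'.2.2]

private theorem VCl_one (n : ℤ) (p : ℕ) : (jacobiSym n p : ℝ) ≤ 1 := by
  rcases jacobiSym.trichotomy n p with h | h | h
  · rw [h]; norm_num
  · rw [h]; norm_num
  · rw [h]; norm_num

private theorem VCl_pt (n : ℤ) (hn : n ≠ 0) (p : ℕ) (hp : p.Prime) :
    1 / 2 - 1 / 2 * (jacobiSym n p : ℝ) - 1 / 2 * (if p ∈ n.natAbs.primeFactors then 1 else 0) ≤
      (if jacobiSym n p = -1 then (1 : ℝ) else 0) := by
  have h0 : (0 : ℝ) ≤ (if p ∈ n.natAbs.primeFactors then 1 else 0) := by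
    split_ifs <;> norm_num
  rcases jacobiSym.trichotomy n p with h | h | h
  · have h1 : p ∈ n.natAbs.primeFactors := by
      rw [Nat.mem_primeFactors]
      refine ⟨hp, ?_, Int.natAbs_ne_zero.2 hn⟩
      have h2 := (jacobiSym.eq_zero_iff.1 h).2
      rw [hp.dvd_iff_not_coprime, Nat.coprime_comm]
      exact h2
    rw [if_pos h1, h, if_neg (by norm_num)]
    norm_num
  · have h1 : ¬ jacobiSym n p = -1 := by rw [h]; norm_num
    rw [if_neg h1, h, Int.cast_one]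
    linarith
  · rw [if_pos h, h, Int.cast_neg, Int.cast_one]
    linarith

private theorem VCl_tail : ∃ C : ℝ, 0 ≤ C ∧ ∀ n : ℤ, ¬ IsSquare n → ∀ y z X : ℝ, 3 ≤ y → y ≤ z →
    |(n : ℝ)| ≤ X → (y = z ∨ (4 * X) ^ 4 ≤ y ^ 1000) →
    ∑ p ∈ (Icc 1 ⌊z⌋₊).filter (fun p : ℕ => p.Prime ∧ y < (p : ℝ)), (jacobiSym n p : ℝ) / (p : ℝ) ≤ C := by
  obtain ⟨C1, h1⟩ := chi_upper
  obtain ⟨A, hA, h2⟩ := EL.ps_pow
  have hl : 0 ≤ Real.log 1000 := Real.log_nonneg (by norm_num)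
  refine ⟨|C1| + (Real.log 1000 + A), by positivity, ?_⟩
  intro n hn y z X hy hyz hX hor
  have hC0 : 0 ≤ |C1| + (Real.log 1000 + A) := by positivity
  rcases hor with hor | hor
  · subst hor
    have he : (Icc 1 ⌊y⌋₊).filter (fun p : ℕ => p.Prime ∧ y < (p : ℝ)) = ∅ := by
      rw [Finset.eq_empty_iff_forall_notMem]
      intro p hp
      rw [Finset.mem_filter, Finset.mem_Icc] at hp
      have h3 : (p : ℝ) ≤ y := (Nat.le_floor_iff (by linarith)).1 hp.1.2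
      linarith [hp.2.2]
    rw [he, Finset.sum_empty]
    exact hC0
  · obtain ⟨Y, hY⟩ : ∃ Y : ℕ, Y = max ⌊y⌋₊ ((4 * n.natAbs) ^ 4) := ⟨_, rfl⟩
    have hYy : (Y : ℝ) ≤ y ^ 1000 := by
      rcases max_choice ⌊y⌋₊ ((4 * n.natAbs) ^ 4) with h3 | h3
      · rw [hY, h3]
        have h4 : ((⌊y⌋₊ : ℕ) : ℝ) ≤ y := Nat.floor_le (by linarith)
        exact h4.trans (le_self_pow₀ (by linarith) (by norm_num))
      · rw [hY, h3]
        refine le_trans ?_ hor
        have h4 : ((n.natAbs : ℕ) : ℝ) = |(n : ℝ)| := by rw [Nat.cast_natAbs, Int.cast_abs]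
        rw [Nat.cast_pow, Nat.cast_mul, h4]
        refine pow_le_pow_left₀ (by positivity) ?_ 4
        push_cast
        linarith
    obtain ⟨S, hS⟩ : ∃ S, S = (Icc 1 ⌊z⌋₊).filter (fun p : ℕ => p.Prime ∧ y < (p : ℝ)) := ⟨_, rfl⟩
    rw [← hS, ← Finset.sum_filter_add_sum_filter_not S (fun p => p ≤ Y)]
    have hA1 : ∑ p ∈ S.filter (fun p => ¬ p ≤ Y), (jacobiSym n p : ℝ) / (p : ℝ) ≤ |C1| := by
      have he : S.filter (fun p => ¬ p ≤ Y) = (Icc 1 ⌊z⌋₊).filter (fun p => p.Prime ∧ Y < p) := by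
        ext p
        rw [hS, Finset.mem_filter, Finset.mem_filter, Finset.mem_filter]
        constructor
        · rintro ⟨⟨a1, a2, a3⟩, a4⟩
          exact ⟨a1, a2, by omega⟩
        · rintro ⟨a1, a2, a3⟩
          refine ⟨⟨a1, a2, ?_⟩, by omega⟩
          refine Nat.lt_of_floor_lt ?_
          exact lt_of_le_of_lt (hY ▸ le_max_left _ _) a3
      rw [he]
      exact (h1 n hn Y ⌊z⌋₊ (hY ▸ le_max_right _ _)).trans (le_abs_self C1)
    have hB1 : ∑ p ∈ S.filter (fun p => p ≤ Y), (jacobiSym n p : ℝ) / (p : ℝ) ≤ Real.log 1000 + A := by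
      have hind : ∀ p : ℕ, PT.ind Set.univ p = 1 := fun p => by
        unfold PT.ind
        rw [if_pos (Set.mem_univ p)]
      have h3 := h2 Set.univ y 1000 (by linarith) (by norm_num)
      have h4 : y ^ (1000 : ℝ) = y ^ (1000 : ℕ) := by
        rw [← Real.rpow_natCast]
        norm_num
      rw [h4] at h3
      have h5 : y ≤ y ^ (1000 : ℕ) := le_self_pow₀ (by linarith) (by norm_num)
      have h6 := VCl_split (PT.ind Set.univ) y (y ^ (1000 : ℕ)) (by linarith) h5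
      have h7 : ∑ p ∈ S.filter (fun p => p ≤ Y), (jacobiSym n p : ℝ) / (p : ℝ) ≤
          ∑ p ∈ (Icc 1 ⌊y ^ (1000 : ℕ)⌋₊).filter (fun p : ℕ => p.Prime ∧ y < (p : ℝ)),
            PT.ind Set.univ p / (p : ℝ) := by
        calc ∑ p ∈ S.filter (fun p => p ≤ Y), (jacobiSym n p : ℝ) / (p : ℝ)
            ≤ ∑ p ∈ S.filter (fun p => p ≤ Y), PT.ind Set.univ p / (p : ℝ) := by
              refine Finset.sum_le_sum fun p _ => ?_
              rw [hind]
              exact div_le_div_of_nonneg_right (VCl_one n p) (Nat.cast_nonneg p)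
          _ ≤ _ := by
              refine Finset.sum_le_sum_of_subset_of_nonneg ?_ fun p _ _ => ?_
              · intro p hp
                rw [hS, Finset.mem_filter, Finset.mem_filter, Finset.mem_Icc] at hp
                rw [Finset.mem_filter, Finset.mem_Icc]
                refine ⟨⟨hp.1.1.1, ?_⟩, hp.1.2⟩
                refine Nat.le_floor ?_
                have h8 : (p : ℝ) ≤ (Y : ℝ) := by exact_mod_cast hp.2
                exact h8.trans hYy
              · rw [hind]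
                positivity
      linarith
    linarith

theorem vc_lower : ∃ C : ℝ, ∀ n : ℤ, ¬ IsSquare n → ∀ w y z X : ℝ, 3 ≤ w → w ≤ y → y ≤ z → |(n : ℝ)| ≤ X →
    SC n w y ≤ 1 → (y = z ∨ (4 * X) ^ 4 ≤ y ^ 1000) →
    1 / 2 * Real.log (Real.log z) - 1 / 2 * Real.log (Real.log w) -
      1 / 2 * Real.log (Real.log (Real.log (X + 100))) - C ≤ VC n z := by
  obtain ⟨A, hA, hmert⟩ := VCl_mert
  obtain ⟨Ct, hCt, htail⟩ := VCl_tail
  obtain ⟨Cp, hpf⟩ := inv_pf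
  refine ⟨A + 1 / 2 + 1 / 2 * Ct + 1 / 2 * Cp, ?_⟩
  intro n hn w y z X hw hwy hyz hX hSC hor
  have hn0 : n ≠ 0 := by
    rintro rfl
    exact hn IsSquare.zero
  -- the prime factors of n
  have hD : ∑ p ∈ n.natAbs.primeFactors, (1 : ℝ) / (p : ℝ) ≤
      Real.log (Real.log (Real.log (X + 100))) + Cp := by
    refine (hpf n.natAbs).trans ?_
    have h4 : ((n.natAbs : ℕ) : ℝ) = |(n : ℝ)| := by rw [Nat.cast_natAbs, Int.cast_abs]
    have h5 : (0 : ℝ) ≤ ((n.natAbs : ℕ) : ℝ) := Nat.cast_nonneg _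
    have h6 : ((n.natAbs : ℕ) : ℝ) + 100 ≤ X + 100 := by rw [h4]; linarith
    have h7 : 1 < Real.log (((n.natAbs : ℕ) : ℝ) + 100) := by
      rw [Real.lt_log_iff_exp_lt (by linarith)]
      have := Real.exp_one_lt_d9
      linarith
    have h8 : 0 < Real.log (Real.log (((n.natAbs : ℕ) : ℝ) + 100)) := Real.log_pos h7
    have h9 : Real.log (((n.natAbs : ℕ) : ℝ) + 100) ≤ Real.log (X + 100) :=
      Real.log_le_log (by linarith) h6
    have h10 : Real.log (Real.log (((n.natAbs : ℕ) : ℝ) + 100)) ≤ Real.log (Real.log (X + 100)) :=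
      Real.log_le_log (by linarith) h9
    have h11 := Real.log_le_log h8 h10
    linarith
  have hSW : PT.PS (fun p => (jacobiSym n p : ℝ)) w ≤ PT.PS (fun _ => 1) w := by
    unfold PT.PS
    exact Finset.sum_le_sum fun p _ =>
      div_le_div_of_nonneg_right (VCl_one n p) (Nat.cast_nonneg p)
  have e1 := VCl_split (fun p => (jacobiSym n p : ℝ)) w y (by linarith) hwy
  have e2 := VCl_split (fun p => (jacobiSym n p : ℝ)) y z (by linarith) hyz
  have e3 : ∑ p ∈ (Icc 1 ⌊y⌋₊).filter (fun p : ℕ => p.Prime ∧ w < (p : ℝ)),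
      (fun p => (jacobiSym n p : ℝ)) p / (p : ℝ) = SC n w y := rfl
  rw [e3] at e1
  have e4 := htail n hn y z X (by linarith) hyz hX hor
  have m1 := (hmert w (by linarith)).1
  have m2 := (hmert z (by linarith)).2
  -- the pointwise comparison
  have hV : 1 / 2 * PT.PS (fun _ => 1) z - 1 / 2 * PT.PS (fun p => (jacobiSym n p : ℝ)) z -
      1 / 2 * ∑ p ∈ n.natAbs.primeFactors, (1 : ℝ) / (p : ℝ) ≤ VC n z := by
    have hsub : ∑ p ∈ (Icc 1 ⌊z⌋₊).filter Nat.Prime,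
        (if p ∈ n.natAbs.primeFactors then (1 : ℝ) else 0) / (p : ℝ) ≤
        ∑ p ∈ n.natAbs.primeFactors, (1 : ℝ) / (p : ℝ) := by
      have h1 : ∑ p ∈ (Icc 1 ⌊z⌋₊).filter Nat.Prime,
          (if p ∈ n.natAbs.primeFactors then (1 : ℝ) else 0) / (p : ℝ) =
          ∑ p ∈ ((Icc 1 ⌊z⌋₊).filter Nat.Prime).filter (fun p => p ∈ n.natAbs.primeFactors),
            (1 : ℝ) / (p : ℝ) := by
        rw [Finset.sum_filter (fun p => p ∈ n.natAbs.primeFactors)]
        refine Finset.sum_congr rfl fun p _ => ?_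
        split_ifs
        · rfl
        · rw [zero_div]
      rw [h1]
      refine Finset.sum_le_sum_of_subset_of_nonneg ?_ fun p _ _ => by positivity
      intro p hp
      exact (Finset.mem_filter.1 hp).2
    have hpt : 1 / 2 * PT.PS (fun _ => 1) z - 1 / 2 * PT.PS (fun p => (jacobiSym n p : ℝ)) z -
        1 / 2 * ∑ p ∈ (Icc 1 ⌊z⌋₊).filter Nat.Prime,
          (if p ∈ n.natAbs.primeFactors then (1 : ℝ) else 0) / (p : ℝ) ≤ VC n z := by
      unfold VC PT.PS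
      rw [Finset.mul_sum, Finset.mul_sum, Finset.mul_sum, ← Finset.sum_sub_distrib,
        ← Finset.sum_sub_distrib]
      refine Finset.sum_le_sum fun p hp => ?_
      have hpp := (Finset.mem_filter.1 hp).2
      have h1 := VCl_pt n hn0 p hpp
      have h2 := div_le_div_of_nonneg_right h1 (Nat.cast_nonneg (α := ℝ) p)
      refine le_trans (le_of_eq ?_) h2
      ring
    linarith
  linarith

end O1
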