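import Pool.Agent.Lib.MP_10e784_agO.Defs2
import Pool.Agent.Lib.MP_10e784_agO.EW
import Pool.Agent.Lib.MP_10e784_agO.VCl
import Pool.Agent.Lib.MP_10e784_agO.M2
import Pool.Agent.Lib.MP_10e784_agO.UV0
import Pool.Agent.Lib.MP_10e784_agO.SF

/-! JOB ZB0.  The block `j`, case `t = 0`.

For `δ ∈ Blk g B C0 j` with `Ob g B C0 δ M r`, `2 ^ j < 2 M`, `M ≤ 2 ^ j`: `|nm g (Pf δ)| ≤ X := C 2 ^ j` (`nm_le`).  `w = j ^ 3`, `z = zz N`, `y = min (2 ^ (j/40)) z`; `3 ≤ w ≤ y` for `j ≥ j0`, `N ≥ N0` (`j ≤ 4 log N`, `zz N ≥ exp (√(log N))`), `y² ≤ 4 HJ C0 j`, and `y = z` or `(4X)^4 ≤ 2 ^ (25 j) = y ^ 1000`.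
Exceptional `δ` (`1 < SC n w y`): at most `C HJ³ / j³ ≤ C 2 ^ j j ^ (-3)` (`cheb`), each contributes at most `C N² / M * 2 ≤ 4 C N² 2 ^ (-j)` (`u0_good`, `VC ≥ 0`): total `C N² j ^ (-3)`.
Other `δ`: `vc_lower`: `exp (- VC) ≤ C (log z) ^ (-1/2) (log w) ^ (1/2) (log log (X + 100)) ^ (1/2) ≤ C (log N) ^ (-1/2) (log log N) ^ (3/2)` (`log z = log N / (10000 log log N)`, `log w = 3 log j ≤ C log log N`).  Their number (SELF): `self_count`, `ew_sum`: `≤ C 2 ^ j ((log zz(HJ)) ^ (-5/8) + j ^ (-10))`,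
`log zz(HJ) = log HJ / (10000 log log HJ) ≥ c j / log j`: `≤ C 2 ^ j j ^ (-5/8) (log j) ^ (5/8) ≤ C 2 ^ j j ^ (-5/8) log log N`.  Each contributes `C N² 2 ^ (-j) (exp (-VC) + (log N) ^ (-10))`. -/

set_option autoImplicit false

namespace O1

open Polynomial Finset TW FQQ

/-! ### elementary analysis -/

/-- `40000 (log t)² ≤ t` eventually -/
private theorem ZB0_log_sq : ∀ᶠ t : ℝ in Filter.atTop, 5 ≤ Real.log t ∧ 40000 * Real.log t ^ 2 ≤ t := by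
  have h1 : ∀ᶠ t : ℝ in Filter.atTop, 5 ≤ Real.log t := Real.tendsto_log_atTop.eventually_ge_atTop 5
  have h2 := (Real.isLittleO_pow_log_id_atTop (n := 2)).bound (by norm_num : (0 : ℝ) < 1 / 40000)
  filter_upwards [h1, h2, Filter.eventually_gt_atTop 0] with t a b c
  refine ⟨a, ?_⟩
  simp only [id, Real.norm_eq_abs] at b
  rw [abs_of_nonneg (sq_nonneg _), abs_of_pos c] at b
  linarith

/-- the facts about `N` -/
private theorem ZB0_N (K C0 : ℝ) : ∃ N0 : ℕ, ∀ N : ℕ, N0 ≤ N → 5 ≤ Real.log (Real.log N) ∧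
    40000 * Real.log (Real.log N) ^ 2 ≤ Real.log N ∧ (2 * C0) ^ 2 ≤ (N : ℝ) ∧ K + 100 ≤ (N : ℝ) ∧ C0 ^ 3 ≤ (N : ℝ) := by
  have hL : Filter.Tendsto (fun N : ℕ => Real.log (N : ℝ)) Filter.atTop Filter.atTop :=
    Real.tendsto_log_atTop.comp tendsto_natCast_atTop_atTop
  have h1 := hL.eventually ZB0_log_sq
  have h2 : ∀ c : ℝ, ∀ᶠ N : ℕ in Filter.atTop, c ≤ (N : ℝ) := fun c =>
    tendsto_natCast_atTop_atTop.eventually_ge_atTop c
  obtain ⟨N0, h⟩ := Filter.eventually_atTop.1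
    (((h1.and (h2 ((2 * C0) ^ 2))).and (h2 (K + 100))).and (h2 (C0 ^ 3)))
  exact ⟨N0, fun N hN => ⟨(h N hN).1.1.1.1, (h N hN).1.1.1.2, (h N hN).1.1.2, (h N hN).1.2, (h N hN).2⟩⟩

/-- the facts about `j` -/
private theorem ZB0_j (K : ℝ) : ∃ j0 : ℕ, ∀ j : ℕ, j0 ≤ j → 12 ≤ j ∧ (j : ℝ) ^ 3 ≤ (2 : ℝ) ^ ((j : ℝ) / 40) ∧
    (4 * K) ^ 4 ≤ (2 : ℝ) ^ (21 * j) ∧
    ∀ t : ℝ, (j : ℝ) / 12 ≤ t → 5 ≤ Real.log t ∧ 40000 * Real.log t ^ 2 ≤ t := by
  obtain ⟨t0, ht0⟩ := Filter.eventually_atTop.1 ZB0_log_sq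
  have h1 : ∀ᶠ j : ℕ in Filter.atTop, 12 * t0 ≤ (j : ℝ) := tendsto_natCast_atTop_atTop.eventually_ge_atTop _
  have h2 : ∀ᶠ j : ℕ in Filter.atTop, (4 * K) ^ 4 ≤ (j : ℝ) := tendsto_natCast_atTop_atTop.eventually_ge_atTop _
  have h3 : ∀ᶠ x : ℝ in Filter.atTop, x ^ (3 : ℝ) ≤ Real.exp (Real.log 2 / 40 * x) := by
    have := (isLittleO_rpow_exp_pos_mul_atTop 3 (b := Real.log 2 / 40) (by positivity)).bound
      (by norm_num : (0 : ℝ) < 1)
    filter_upwards [this, Filter.eventually_gt_atTop 0] with x a b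
    rw [Real.norm_eq_abs, Real.norm_eq_abs, abs_of_nonneg (by positivity), abs_of_pos (Real.exp_pos _), one_mul] at a
    exact a
  have h4 : ∀ᶠ j : ℕ in Filter.atTop, (j : ℝ) ^ (3 : ℝ) ≤ Real.exp (Real.log 2 / 40 * (j : ℝ)) :=
    tendsto_natCast_atTop_atTop.eventually h3
  obtain ⟨j0, h⟩ := Filter.eventually_atTop.1 (((h1.and h2).and h4).and (Filter.eventually_ge_atTop 12))
  refine ⟨j0, fun j hj => ?_⟩
  obtain ⟨⟨⟨a1, a2⟩, a3⟩, a4⟩ := h j hj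
  refine ⟨a4, ?_, ?_, fun t ht => ht0 t (by linarith)⟩
  · rw [Real.rpow_def_of_pos (by norm_num : (0 : ℝ) < 2)]
    have e : (j : ℝ) ^ (3 : ℝ) = (j : ℝ) ^ 3 := by
      rw [← Real.rpow_natCast]
      norm_num
    rw [e] at a3
    refine a3.trans (le_of_eq ?_)
    congr 1
    ring
  · refine a2.trans ?_
    have b1 : (j : ℝ) ≤ (2 : ℝ) ^ j := by
      have := (Nat.lt_two_pow_self (n := j)).le
      exact_mod_cast this
    refine b1.trans ?_
    exact pow_le_pow_right₀ (by norm_num) (by omega)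

private theorem ZB0_HJ {C0 : ℝ} (hC0 : 1 ≤ C0) {j : ℕ} (hj : 12 ≤ j) :
    (HJ C0 j : ℝ) ^ 3 ≤ C0 ^ 3 * (2 : ℝ) ^ j ∧ (2 : ℝ) ^ ((j : ℝ) / 6) ≤ (HJ C0 j : ℝ) ∧
      (HJ C0 j : ℝ) ≤ C0 * (2 : ℝ) ^ ((j : ℝ) / 3) ∧ (2 : ℝ) ^ ((j : ℝ) / 20) ≤ 4 * (HJ C0 j : ℝ) := by
  have hj' : (12 : ℝ) ≤ (j : ℝ) := by exact_mod_cast hj
  have h0 : (0 : ℝ) ≤ C0 * (2 : ℝ) ^ ((j : ℝ) / 3) := by positivity
  have h1 : (HJ C0 j : ℝ) ≤ C0 * (2 : ℝ) ^ ((j : ℝ) / 3) := Nat.floor_le h0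
  have h2 : C0 * (2 : ℝ) ^ ((j : ℝ) / 3) < (HJ C0 j : ℝ) + 1 := Nat.lt_floor_add_one _
  have e1 : ((2 : ℝ) ^ ((j : ℝ) / 3)) ^ 3 = (2 : ℝ) ^ j := by
    rw [← Real.rpow_natCast, ← Real.rpow_mul (by norm_num), ← Real.rpow_natCast 2 j]
    congr 1
    push_cast
    ring
  have e2 : (2 : ℝ) ^ ((j : ℝ) / 3) = ((2 : ℝ) ^ ((j : ℝ) / 6)) ^ 2 := by
    rw [← Real.rpow_natCast, ← Real.rpow_mul (by norm_num)]
    congr 1
    push_cast
    ring
  have e3 : (2 : ℝ) ≤ (2 : ℝ) ^ ((j : ℝ) / 6) := by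
    calc (2 : ℝ) = 2 ^ (1 : ℝ) := (Real.rpow_one 2).symm
      _ ≤ _ := Real.rpow_le_rpow_of_exponent_le (by norm_num) (by linarith)
  have h3 : (2 : ℝ) ^ ((j : ℝ) / 6) ≤ (HJ C0 j : ℝ) := by
    have : (2 : ℝ) ^ ((j : ℝ) / 3) ≤ C0 * (2 : ℝ) ^ ((j : ℝ) / 3) := le_mul_of_one_le_left (by positivity) hC0
    nlinarith
  refine ⟨?_, h3, h1, ?_⟩
  · calc (HJ C0 j : ℝ) ^ 3 ≤ (C0 * (2 : ℝ) ^ ((j : ℝ) / 3)) ^ 3 := pow_le_pow_left₀ (by positivity) h1 3
      _ = _ := by rw [mul_pow, e1]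
  · have : (2 : ℝ) ^ ((j : ℝ) / 20) ≤ (2 : ℝ) ^ ((j : ℝ) / 6) :=
      Real.rpow_le_rpow_of_exponent_le (by norm_num) (by linarith)
    linarith [this, h3, (by positivity : (0 : ℝ) ≤ (HJ C0 j : ℝ))]

/-- consequences of `2 ^ j ≤ 2 C0 N ^ (3/2)` -/
private theorem ZB0_jN {C0 : ℝ} (hC0 : 1 ≤ C0) {N j : ℕ} (hN : (2 * C0) ^ 2 ≤ (N : ℝ))
    (h : (2 : ℝ) ^ j ≤ 2 * C0 * (N : ℝ) ^ ((3 : ℝ) / 2)) :
    (2 : ℝ) ^ j ≤ (N : ℝ) ^ 2 ∧ (j : ℝ) ≤ 4 * Real.log N := by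
  have hN0 : (0 : ℝ) < N := lt_of_lt_of_le (by positivity) hN
  have h1 : 2 * C0 ≤ (N : ℝ) ^ ((1 : ℝ) / 2) := by
    rw [← Real.sqrt_eq_rpow]
    exact Real.le_sqrt_of_sq_le hN
  have h2 : (2 : ℝ) ^ j ≤ (N : ℝ) ^ 2 := by
    calc (2 : ℝ) ^ j ≤ 2 * C0 * (N : ℝ) ^ ((3 : ℝ) / 2) := h
      _ ≤ (N : ℝ) ^ ((1 : ℝ) / 2) * (N : ℝ) ^ ((3 : ℝ) / 2) := mul_le_mul_of_nonneg_right h1 (by positivity)
      _ = (N : ℝ) ^ 2 := by
        rw [← Real.rpow_add hN0, ← Real.rpow_natCast]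
        norm_num
  refine ⟨h2, ?_⟩
  have h3 := Real.log_le_log (by positivity) h2
  rw [Real.log_pow, Real.log_pow] at h3
  have h4 : (0.6931471803 : ℝ) < Real.log 2 := Real.log_two_gt_d9
  have h5 : (0 : ℝ) ≤ j := Nat.cast_nonneg j
  push_cast at h3
  nlinarith

private theorem ZB0_log_zz (H : ℕ) : Real.log (zz H) = Real.log H / (10000 * Real.log (Real.log H)) := by
  unfold zz
  rw [Real.log_exp]

/-- `w ≤ z` -/
private theorem ZB0_w_le_z {N j : ℕ} (h1 : 5 ≤ Real.log (Real.log N)) (h2 : 40000 * Real.log (Real.log N) ^ 2 ≤ Real.log N)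
    (hj : 12 ≤ j) (h : (j : ℝ) ≤ 4 * Real.log N) : (j : ℝ) ^ 3 ≤ zz N := by
  have hj0 : (0 : ℝ) < j := by
    have : 0 < j := by omega
    exact_mod_cast this
  have hL : 0 < Real.log N := by nlinarith
  unfold zz
  rw [← Real.log_le_iff_le_exp (by positivity), Real.log_pow, le_div_iff₀ (by positivity)]
  have h3 : Real.log j ≤ Real.log 4 + Real.log (Real.log N) := by
    rw [← Real.log_mul (by norm_num) hL.ne']
    exact Real.log_le_log hj0 h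
  have h4 : Real.log 4 ≤ 3 / 2 := by
    have : (4 : ℝ) = 2 ^ 2 := by norm_num
    rw [this, Real.log_pow]
    have := Real.log_two_lt_d9
    push_cast
    linarith
  push_cast
  nlinarith

/-- the bound for `exp (- VC)` -/
private theorem ZB0_vc {K : ℝ} (hK : 0 ≤ K) {N j : ℕ} (h1 : 5 ≤ Real.log (Real.log N))
    (h2 : 40000 * Real.log (Real.log N) ^ 2 ≤ Real.log N) (hKN : K + 100 ≤ (N : ℝ)) (hj : 12 ≤ j)
    (hjL : (j : ℝ) ≤ 4 * Real.log N) (h2j : (2 : ℝ) ^ j ≤ (N : ℝ) ^ 2) {C2 V : ℝ}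
    (hV : 1 / 2 * Real.log (Real.log (zz N)) - 1 / 2 * Real.log (Real.log ((j : ℝ) ^ 3)) -
      1 / 2 * Real.log (Real.log (Real.log (K * (2 : ℝ) ^ j + 100))) - C2 ≤ V) :
    Real.exp (-V) ≤ Real.exp (C2 + 1 / 2 * Real.log 120000) *
      ((Real.log N) ^ (-((1 : ℝ) / 2)) * Real.log (Real.log N) ^ 2) := by
  have hj0 : (12 : ℝ) ≤ j := by exact_mod_cast hj
  have hL : 0 < Real.log N := by nlinarith [h2]
  have hN0 : (0 : ℝ) < N := by linarith
  have hN1 : (1 : ℝ) ≤ N := by linarith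
  set LL := Real.log (Real.log N) with hLL
  have hLL0 : 0 < LL := by linarith
  have hlog4 : Real.log 4 ≤ 3 / 2 := by
    have : (4 : ℝ) = 2 ^ 2 := by norm_num
    rw [this, Real.log_pow]
    have := Real.log_two_lt_d9
    push_cast
    linarith
  have hlog3 : Real.log 3 ≤ 3 / 2 := (Real.log_le_log (by norm_num) (by norm_num)).trans hlog4
  -- first term
  have a1 : Real.log (Real.log (zz N)) = LL - (Real.log 10000 + Real.log LL) := by
    rw [ZB0_log_zz, Real.log_div hL.ne' (by positivity), Real.log_mul (by norm_num) hLL0.ne']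
  -- second term
  have a2 : Real.log (Real.log ((j : ℝ) ^ 3)) ≤ Real.log 6 + Real.log LL := by
    rw [← Real.log_mul (by norm_num) hLL0.ne']
    have h3 : Real.log j ≤ Real.log 4 + LL := by
      rw [hLL, ← Real.log_mul (by norm_num) hL.ne']
      exact Real.log_le_log (by linarith) hjL
    refine Real.log_le_log ?_ ?_
    · exact Real.log_pos (one_lt_pow₀ (by linarith) (by norm_num))
    · rw [Real.log_pow]
      push_cast
      linarith
  -- third term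
  have a3 : Real.log (Real.log (Real.log (K * (2 : ℝ) ^ j + 100))) ≤ Real.log 2 + Real.log LL := by
    rw [← Real.log_mul (by norm_num) hLL0.ne']
    have b0 : (100 : ℝ) ≤ K * (2 : ℝ) ^ j + 100 := by
      have : 0 ≤ K * (2 : ℝ) ^ j := by positivity
      linarith
    have b1 : 1 < Real.log (K * (2 : ℝ) ^ j + 100) := by
      rw [Real.lt_log_iff_exp_lt (by linarith)]
      have := Real.exp_one_lt_d9
      linarith
    have b2 : K * (2 : ℝ) ^ j + 100 ≤ (N : ℝ) ^ 3 := by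
      have c1 : (1 : ℝ) ≤ (N : ℝ) ^ 2 := one_le_pow₀ hN1
      calc K * (2 : ℝ) ^ j + 100 ≤ K * (N : ℝ) ^ 2 + 100 * (N : ℝ) ^ 2 := by
            have := mul_le_mul_of_nonneg_left h2j hK
            linarith
        _ = (K + 100) * (N : ℝ) ^ 2 := by ring
        _ ≤ (N : ℝ) * (N : ℝ) ^ 2 := mul_le_mul_of_nonneg_right hKN (by positivity)
        _ = _ := by ring
    have b3 : Real.log (K * (2 : ℝ) ^ j + 100) ≤ 3 * Real.log N := by
      have := Real.log_le_log (by linarith) b2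
      rw [Real.log_pow] at this
      push_cast at this
      exact this
    have b4 : Real.log (Real.log (K * (2 : ℝ) ^ j + 100)) ≤ Real.log 3 + LL := by
      rw [hLL, ← Real.log_mul (by norm_num) hL.ne']
      exact Real.log_le_log (by linarith) b3
    exact Real.log_le_log (Real.log_pos b1) (by linarith)
  have a4 : Real.log 120000 = Real.log 10000 + Real.log 6 + Real.log 2 := by
    rw [← Real.log_mul (by norm_num) (by norm_num), ← Real.log_mul (by norm_num) (by norm_num)]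
    norm_num
  have a5 : 0 ≤ Real.log LL := Real.log_nonneg (by linarith)
  have e1 : (Real.log N) ^ (-((1 : ℝ) / 2)) = Real.exp (LL * (-(1 / 2))) := by
    rw [Real.rpow_def_of_pos hL]
  have e2 : LL ^ 2 = Real.exp (2 * Real.log LL) := by
    rw [two_mul, Real.exp_add, Real.exp_log hLL0]
    ring
  rw [e1, e2, ← Real.exp_add, ← Real.exp_add]
  refine Real.exp_le_exp.2 ?_
  rw [a1] at hV
  linarith

/-- the bound for the number of the objects -/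
private theorem ZB0_ps {H N j : ℕ} (h1 : 5 ≤ Real.log (Real.log N)) (hHN : (H : ℝ) ≤ N) (hHj : (j : ℝ) / 12 ≤ Real.log H)
    (hH1 : 5 ≤ Real.log (Real.log H)) (hj : 12 ≤ j) {C6 S : ℝ} (hS : 5 / 8 * Real.log (Real.log (zz H)) - C6 ≤ S) :
    Real.exp (-S) + (Real.log H) ^ (-(10 : ℝ)) ≤
      (Real.exp C6 * 120000 + 12 ^ 10) * ((j : ℝ) ^ (-((5 : ℝ) / 8)) * Real.log (Real.log N)) := by
  have hj0 : (12 : ℝ) ≤ j := by exact_mod_cast hj
  have hH0 : (0 : ℝ) < H := by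
    rcases Nat.eq_zero_or_pos H with h | h
    · subst h
      simp at hHj
      linarith
    · exact_mod_cast h
  have hlH : 0 < Real.log H := by linarith
  set LL := Real.log (Real.log N) with hLL
  have hLL0 : 0 < LL := by linarith
  have b1 : Real.log (Real.log H) ≤ LL := Real.log_le_log hlH (Real.log_le_log hH0 hHN)
  have b2 : (j : ℝ) / (120000 * LL) ≤ Real.log (zz H) := by
    rw [ZB0_log_zz, div_le_div_iff₀ (by positivity) (by positivity)]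
    have c1 : (j : ℝ) * (10000 * Real.log (Real.log H)) ≤ j * (10000 * LL) :=
      mul_le_mul_of_nonneg_left (by linarith) (by linarith)
    have c2 : (j : ℝ) / 12 * (120000 * LL) ≤ Real.log H * (120000 * LL) :=
      mul_le_mul_of_nonneg_right hHj (by positivity)
    linarith
  have b3 : Real.log j - Real.log (120000 * LL) ≤ Real.log (Real.log (zz H)) := by
    rw [← Real.log_div (by positivity) (by positivity)]
    exact Real.log_le_log (by positivity) b2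
  have b4 : 0 ≤ Real.log (120000 * LL) := Real.log_nonneg (by linarith)
  have b5 : Real.exp (-S) ≤ Real.exp C6 * 120000 * ((j : ℝ) ^ (-((5 : ℝ) / 8)) * LL) := by
    have e1 : (j : ℝ) ^ (-((5 : ℝ) / 8)) = Real.exp (Real.log j * (-(5 / 8))) := by
      rw [Real.rpow_def_of_pos (by linarith)]
    have e2 : Real.exp C6 * 120000 * ((j : ℝ) ^ (-((5 : ℝ) / 8)) * LL) =
        Real.exp (C6 + Real.log j * (-(5 / 8)) + Real.log (120000 * LL)) := by
      rw [Real.exp_add, Real.exp_add, Real.exp_log (by positivity), e1]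
      ring
    rw [e2]
    refine Real.exp_le_exp.2 ?_
    linarith
  have b6 : (Real.log H) ^ (-(10 : ℝ)) ≤ 12 ^ 10 * ((j : ℝ) ^ (-((5 : ℝ) / 8)) * LL) := by
    calc (Real.log H) ^ (-(10 : ℝ)) ≤ ((j : ℝ) / 12) ^ (-(10 : ℝ)) :=
          Real.rpow_le_rpow_of_nonpos (by positivity) hHj (by norm_num)
      _ = 12 ^ 10 * (j : ℝ) ^ (-(10 : ℝ)) := by
          rw [Real.div_rpow (by positivity) (by norm_num), Real.rpow_neg (by norm_num : (0 : ℝ) ≤ 12), div_inv_eq_mul,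
            mul_comm]
          congr 1
          rw [← Real.rpow_natCast]
          norm_num
      _ ≤ 12 ^ 10 * ((j : ℝ) ^ (-((5 : ℝ) / 8)) * LL) := by
          refine mul_le_mul_of_nonneg_left ?_ (by norm_num)
          have c1 : (j : ℝ) ^ (-(10 : ℝ)) ≤ (j : ℝ) ^ (-((5 : ℝ) / 8)) :=
            Real.rpow_le_rpow_of_exponent_le (by linarith) (by norm_num)
          have c2 : (0 : ℝ) ≤ (j : ℝ) ^ (-((5 : ℝ) / 8)) := by positivity
          nlinarith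
  calc Real.exp (-S) + (Real.log H) ^ (-(10 : ℝ)) ≤ _ := add_le_add b5 b6
    _ = _ := by ring

/-- the final computation -/
private theorem ZB0_fin {A1 A2 A3 n2 T j58 L12 L10 L9 LL jj : ℝ} (hA1 : 0 ≤ A1) (hA2 : 0 ≤ A2) (hA3 : 0 ≤ A3) (hn : 0 ≤ n2)
    (hT : 0 < T) (hj : 0 ≤ j58) (hj1 : j58 ≤ 1) (hL12 : 0 ≤ L12) (hL9 : 0 ≤ L9) (hLL : 1 ≤ LL)
    (hL10 : L10 * LL ≤ L9) (h10 : 0 ≤ L10) (hjj : 0 ≤ jj) :
    A1 * n2 * jj + (n2 / T * (A2 * (L12 * LL ^ 2) + L10)) * (A3 * T * (j58 * LL)) ≤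
      (A1 + A3 * (A2 + 1)) * n2 * (j58 * L12 * LL ^ 5 + jj + L9) := by
  have e1 : (n2 / T * (A2 * (L12 * LL ^ 2) + L10)) * (A3 * T * (j58 * LL)) =
      A3 * n2 * (A2 * (j58 * L12 * LL ^ 3) + j58 * (L10 * LL)) := by
    field_simp
  rw [e1]
  have c1 : j58 * L12 * LL ^ 3 ≤ j58 * L12 * LL ^ 5 :=
    mul_le_mul_of_nonneg_left (pow_le_pow_right₀ hLL (by norm_num)) (by positivity)
  have c2 : j58 * (L10 * LL) ≤ L9 := by
    calc j58 * (L10 * LL) ≤ 1 * (L10 * LL) := mul_le_mul_of_nonneg_right hj1 (by positivity)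
      _ ≤ L9 := by linarith
  have c3 : A2 * (j58 * L12 * LL ^ 3) + j58 * (L10 * LL) ≤ (A2 + 1) * (j58 * L12 * LL ^ 5 + L9) := by
    have c4 : 0 ≤ j58 * L12 * LL ^ 5 := by positivity
    have c5 : A2 * (j58 * L12 * LL ^ 3) ≤ A2 * (j58 * L12 * LL ^ 5) := mul_le_mul_of_nonneg_left c1 hA2
    have c6 : 0 ≤ A2 * L9 := by positivity
    linarith
  have c7 : A3 * n2 * (A2 * (j58 * L12 * LL ^ 3) + j58 * (L10 * LL)) ≤
      A3 * n2 * ((A2 + 1) * (j58 * L12 * LL ^ 5 + L9)) := mul_le_mul_of_nonneg_left c3 (by positivity)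
  have c8 : 0 ≤ A1 * n2 * (j58 * L12 * LL ^ 5 + L9) := by positivity
  have c9 : 0 ≤ A3 * (A2 + 1) * n2 * jj := by positivity
  linarith

private theorem ZB0_VC_nonneg (n : ℤ) (z : ℝ) : 0 ≤ VC n z := by
  unfold VC PT.PS
  refine Finset.sum_nonneg fun p _ => div_nonneg ?_ (Nat.cast_nonneg p)
  show (0 : ℝ) ≤ if jacobiSym n p = -1 then 1 else 0
  split_ifs <;> norm_num

open Classical in
theorem blk_zero {g G1 G2 : ℤ[X]} (hD : Dat g G1 G2) {P0 B : ℕ} (hG : Good g G1 G2 P0 B) (C0 : ℝ) (hC0 : 1 ≤ C0) :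
    ∃ (C : ℝ) (j0 N0 : ℕ), 0 < C ∧ ∀ N j : ℕ, N0 ≤ N → j0 ≤ j → (2 : ℝ) ^ j ≤ 2 * C0 * (N : ℝ) ^ ((3 : ℝ) / 2) →
      ∑ δ ∈ (Blk g B C0 j).filter (fun δ => SelfAll g B δ ∧ ¬ IsSquare (nm g (Pf δ)) ∧ ¬ BadO g G1 G2 B C0 N δ),
        ((U0 g G1 G2 B N δ).card : ℝ) ≤
      C * (N : ℝ) ^ 2 * ((j : ℝ) ^ (-((5 : ℝ) / 8)) * (Real.log N) ^ (-((1 : ℝ) / 2)) * (Real.log (Real.log N)) ^ 5 +
        1 / (j : ℝ) ^ 3 + (Real.log N) ^ (-(9 : ℝ))) := by
  obtain ⟨Cn, hCn0, hCn⟩ := nm_le hD.gm hD.gd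
  obtain ⟨C1, hC1, hcheb⟩ := cheb hD.gm hD.gd
  obtain ⟨C2, hvc⟩ := vc_lower
  obtain ⟨C4, N4, hC4, hu0⟩ := u0_good hD hG C0
  obtain ⟨C5, j5, hC5, hself⟩ := self_count hD hG C0 hC0
  obtain ⟨C6, hew⟩ := ew_sum hD.gm hD.gd hD.gi
  set K : ℝ := Cn * C0 ^ 3 with hK
  have hK0 : 0 ≤ K := by positivity
  obtain ⟨N1, hN1⟩ := ZB0_N K C0
  obtain ⟨j1, hj1⟩ := ZB0_j K
  set A1 : ℝ := 4 * C4 * C1 * C0 ^ 3 with hA1
  set A2 : ℝ := Real.exp (C2 + 1 / 2 * Real.log 120000) with hA2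
  set A3 : ℝ := 2 * C4 * C5 * (Real.exp C6 * 120000 + 12 ^ 10) with hA3
  refine ⟨A1 + A3 * (A2 + 1), max j1 j5, max N1 N4, by positivity, fun N j hN hj h2 => ?_⟩
  obtain ⟨n1, n2, n3, n4, n5⟩ := hN1 N (le_trans (le_max_left _ _) hN)
  obtain ⟨p1, p2, p3, p4⟩ := hj1 j (le_trans (le_max_left _ _) hj)
  have hN4 : N4 ≤ N := le_trans (le_max_right _ _) hN
  have hj5 : j5 ≤ j := le_trans (le_max_right _ _) hj
  obtain ⟨q1, q2⟩ := ZB0_jN hC0 n3 h2
  obtain ⟨r1, r2, r3, r4⟩ := ZB0_HJ hC0 p1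
  have hj0 : (12 : ℝ) ≤ j := by exact_mod_cast p1
  set H : ℕ := HJ C0 j with hH
  set T : ℝ := (2 : ℝ) ^ j with hT
  have hT0 : 0 < T := by positivity
  have hN0 : (100 : ℝ) ≤ N := by linarith
  set LL := Real.log (Real.log N) with hLL
  set L := Real.log (N : ℝ) with hL
  have hL1 : 1 ≤ L := by nlinarith
  have hLLL : LL ≤ L := by nlinarith
  set w : ℝ := (j : ℝ) ^ 3 with hw
  set y : ℝ := min ((2 : ℝ) ^ ((j : ℝ) / 40)) (zz N) with hy
  have hzz0 : 0 < zz N := by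
    unfold zz
    exact Real.exp_pos _
  have hw3 : 3 ≤ w := by
    have : (12 : ℝ) ^ 3 ≤ w := pow_le_pow_left₀ (by norm_num) hj0 3
    linarith
  have hwy : w ≤ y := le_min p2 (ZB0_w_le_z n1 n2 p1 q2)
  have hyz : y ≤ zz N := min_le_right _ _
  have hy0 : 0 < y := by linarith
  have hyH : y ^ 2 ≤ 4 * (H : ℝ) := by
    refine le_trans ?_ r4
    calc y ^ 2 ≤ ((2 : ℝ) ^ ((j : ℝ) / 40)) ^ 2 := pow_le_pow_left₀ hy0.le (min_le_left _ _) 2
      _ = (2 : ℝ) ^ ((j : ℝ) / 20) := by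
        rw [← Real.rpow_natCast, ← Real.rpow_mul (by norm_num)]
        congr 1
        push_cast
        ring
  have hH1 : 1 ≤ H := by
    have : (1 : ℝ) ≤ (2 : ℝ) ^ ((j : ℝ) / 6) := Real.one_le_rpow (by norm_num) (by linarith)
    exact_mod_cast this.trans r2
  have hlogH : (j : ℝ) / 12 ≤ Real.log H := by
    have c1 := Real.log_le_log (by positivity) r2
    rw [Real.log_rpow (by norm_num)] at c1
    have := Real.log_two_gt_d9
    nlinarith
  obtain ⟨s1, s2⟩ := p4 _ hlogH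
  have hHN : (H : ℝ) ≤ N := by
    have c1 : (H : ℝ) ^ 3 ≤ (N : ℝ) ^ 3 := by
      calc (H : ℝ) ^ 3 ≤ C0 ^ 3 * T := r1
        _ ≤ N * (N : ℝ) ^ 2 := mul_le_mul n5 q1 hT0.le (by positivity)
        _ = _ := by ring
    exact le_of_pow_le_pow_left₀ (by norm_num) (by positivity) c1
  have hzzH : 3 ≤ zz H := by
    have c0 : 0 < Real.log (Real.log (H : ℝ)) := by linarith
    unfold zz
    have c1 : (20 : ℝ) ≤ Real.log H / (10000 * Real.log (Real.log H)) := by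
      rw [le_div_iff₀ (by positivity)]
      nlinarith
    have c2 := Real.add_one_le_exp (Real.log H / (10000 * Real.log (Real.log H)))
    linarith
  have hYX : y = zz N ∨ (4 * (K * T)) ^ 4 ≤ y ^ 1000 := by
    rcases min_choice ((2 : ℝ) ^ ((j : ℝ) / 40)) (zz N) with h | h
    · right
      rw [hy, h]
      have c1 : ((2 : ℝ) ^ ((j : ℝ) / 40)) ^ 1000 = (2 : ℝ) ^ (21 * j) * T ^ 4 := by
        rw [hT, ← pow_mul, ← pow_add, ← Real.rpow_natCast, ← Real.rpow_mul (by norm_num), ← Real.rpow_natCast]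
        congr 1
        push_cast
        ring
      rw [c1]
      calc (4 * (K * T)) ^ 4 = (4 * K) ^ 4 * T ^ 4 := by ring
        _ ≤ _ := mul_le_mul_of_nonneg_right p3 (by positivity)
    · left
      exact h
  -- the two bounds for one object
  have hX : ∀ δ ∈ Blk g B C0 j, |((nm g (Pf δ) : ℤ) : ℝ)| ≤ K * T := by
    intro δ hδ
    unfold Blk at hδ
    rw [Finset.mem_filter, mem_boxN] at hδ
    have c1 := hCn δ (H : ℝ) (fun i => by
      have := hδ.1 i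
      have h' : ((|δ i| : ℤ) : ℝ) ≤ ((H : ℤ) : ℝ) := by exact_mod_cast this
      push_cast at h'
      exact h')
    refine c1.trans ?_
    calc Cn * (H : ℝ) ^ 3 ≤ Cn * (C0 ^ 3 * T) := mul_le_mul_of_nonneg_left r1 hCn0.le
      _ = K * T := by rw [hK]; ring
  have hU : ∀ δ ∈ Blk g B C0 j, ¬ BadO g G1 G2 B C0 N δ → ((U0 g G1 G2 B N δ).card : ℝ) ≤
      2 * C4 * (N : ℝ) ^ 2 / T * (Real.exp (- VC (nm g (Pf δ)) (zz N)) + L ^ (-(10 : ℝ))) := by
    intro δ hδ hb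
    unfold Blk at hδ
    rw [Finset.mem_filter] at hδ
    obtain ⟨_, M, r, hO, hM1, hM2⟩ := hδ
    refine (hu0 N hN4 δ M r hO hb).trans ?_
    refine mul_le_mul_of_nonneg_right ?_ (by positivity)
    have hM0 : 0 < M := by
      rcases Nat.eq_zero_or_pos M with h | h
      · subst h
        simp at hM1
      · exact h
    have hM0' : (0 : ℝ) < M := by exact_mod_cast hM0
    rw [div_le_div_iff₀ hM0' hT0]
    have hM3 : T ≤ 2 * (M : ℝ) := by
      rw [hT]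
      exact_mod_cast hM1.le
    have : 0 ≤ C4 * (N : ℝ) ^ 2 := by positivity
    nlinarith
  have hL10 : L ^ (-(10 : ℝ)) ≤ 1 := Real.rpow_le_one_of_one_le_of_nonpos hL1 (by norm_num)
  have hL10' : 0 ≤ L ^ (-(10 : ℝ)) := by positivity
  set F := (Blk g B C0 j).filter
    (fun δ => SelfAll g B δ ∧ ¬ IsSquare (nm g (Pf δ)) ∧ ¬ BadO g G1 G2 B C0 N δ) with hF
  -- exceptional objects
  have hE1 : ∑ δ ∈ F.filter (fun δ => 1 < SC (nm g (Pf δ)) w y), ((U0 g G1 G2 B N δ).card : ℝ) ≤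
      A1 * (N : ℝ) ^ 2 * (1 / w) := by
    have c1 : ∀ δ ∈ F.filter (fun δ => 1 < SC (nm g (Pf δ)) w y),
        ((U0 g G1 G2 B N δ).card : ℝ) ≤ 4 * C4 * (N : ℝ) ^ 2 / T := by
      intro δ hδ
      rw [Finset.mem_filter, hF, Finset.mem_filter] at hδ
      refine (hU δ hδ.1.1 hδ.1.2.2.2).trans ?_
      have d1 : Real.exp (- VC (nm g (Pf δ)) (zz N)) ≤ 1 := by
        rw [Real.exp_le_one_iff]
        have := ZB0_VC_nonneg (nm g (Pf δ)) (zz N)
        linarith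
      calc 2 * C4 * (N : ℝ) ^ 2 / T * (Real.exp (- VC (nm g (Pf δ)) (zz N)) + L ^ (-(10 : ℝ))) ≤
            2 * C4 * (N : ℝ) ^ 2 / T * 2 := mul_le_mul_of_nonneg_left (by linarith) (by positivity)
        _ = _ := by ring
    have c2 := Finset.sum_le_card_nsmul _ _ _ c1
    rw [nsmul_eq_mul] at c2
    refine c2.trans ?_
    have c3 : ((F.filter (fun δ => 1 < SC (nm g (Pf δ)) w y)).card : ℝ) ≤ C1 * (H : ℝ) ^ 3 / w := by
      refine le_trans ?_ (hcheb H w y hH1 (by linarith) hyH)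
      have : F.filter (fun δ => 1 < SC (nm g (Pf δ)) w y) ⊆ (boxN 2 H).filter (fun δ => 1 < SC (nm g (Pf δ)) w y) := by
        intro δ hδ
        rw [Finset.mem_filter, hF, Finset.mem_filter] at hδ
        rw [Finset.mem_filter]
        refine ⟨?_, hδ.2⟩
        have := hδ.1.1
        unfold Blk at this
        exact (Finset.mem_filter.1 this).1
      exact_mod_cast Finset.card_le_card this
    calc ((F.filter (fun δ => 1 < SC (nm g (Pf δ)) w y)).card : ℝ) * (4 * C4 * (N : ℝ) ^ 2 / T) ≤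
          (C1 * (C0 ^ 3 * T) / w) * (4 * C4 * (N : ℝ) ^ 2 / T) := by
          refine mul_le_mul_of_nonneg_right (c3.trans ?_) (by positivity)
          exact div_le_div_of_nonneg_right (mul_le_mul_of_nonneg_left r1 hC1.le) (by linarith)
      _ = A1 * (N : ℝ) ^ 2 * (1 / w) := by
          rw [hA1]
          have : w ≠ 0 := by linarith
          field_simp
  -- the other objects
  have hE2 : ∑ δ ∈ F.filter (fun δ => ¬ 1 < SC (nm g (Pf δ)) w y), ((U0 g G1 G2 B N δ).card : ℝ) ≤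
      ((N : ℝ) ^ 2 / T * (A2 * (L ^ (-((1 : ℝ) / 2)) * LL ^ 2) + L ^ (-(10 : ℝ)))) *
        (A3 * T * ((j : ℝ) ^ (-((5 : ℝ) / 8)) * LL)) := by
    have c1 : ∀ δ ∈ F.filter (fun δ => ¬ 1 < SC (nm g (Pf δ)) w y), ((U0 g G1 G2 B N δ).card : ℝ) ≤
        2 * C4 * (N : ℝ) ^ 2 / T * (A2 * (L ^ (-((1 : ℝ) / 2)) * LL ^ 2) + L ^ (-(10 : ℝ))) := by
      intro δ hδ
      rw [Finset.mem_filter, hF, Finset.mem_filter] at hδ
      refine (hU δ hδ.1.1 hδ.1.2.2.2).trans ?_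
      refine mul_le_mul_of_nonneg_left ?_ (by positivity)
      refine add_le_add_left ?_ _
      have d1 := hvc (nm g (Pf δ)) hδ.1.2.2.1 w y (zz N) (K * T) hw3 hwy hyz (hX δ hδ.1.1) (not_lt.1 hδ.2) hYX
      exact ZB0_vc hK0 n1 n2 n4 p1 q2 q1 d1
    have c2 := Finset.sum_le_card_nsmul _ _ _ c1
    rw [nsmul_eq_mul] at c2
    refine c2.trans ?_
    have c3 : ((F.filter (fun δ => ¬ 1 < SC (nm g (Pf δ)) w y)).card : ℝ) ≤
        C5 * T * ((Real.exp C6 * 120000 + 12 ^ 10) * ((j : ℝ) ^ (-((5 : ℝ) / 8)) * LL)) := by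
      have d1 : ((F.filter (fun δ => ¬ 1 < SC (nm g (Pf δ)) w y)).card : ℝ) ≤
          (((Blk g B C0 j).filter fun δ => ∀ p : ℕ, p.Prime → ¬ p ∣ B → Self g p (red p (Pf δ))).card : ℝ) := by
        have : F.filter (fun δ => ¬ 1 < SC (nm g (Pf δ)) w y) ⊆
            (Blk g B C0 j).filter fun δ => ∀ p : ℕ, p.Prime → ¬ p ∣ B → Self g p (red p (Pf δ)) := by
          intro δ hδ
          rw [Finset.mem_filter, hF, Finset.mem_filter] at hδ
          rw [Finset.mem_filter]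
          exact ⟨hδ.1.1, hδ.1.2.1⟩
        exact_mod_cast Finset.card_le_card this
      refine (d1.trans (hself j hj5)).trans ?_
      refine mul_le_mul_of_nonneg_left ?_ (by positivity)
      exact ZB0_ps n1 hHN hlogH s1 p1 (hew (zz H) hzzH)
    calc ((F.filter (fun δ => ¬ 1 < SC (nm g (Pf δ)) w y)).card : ℝ) *
          (2 * C4 * (N : ℝ) ^ 2 / T * (A2 * (L ^ (-((1 : ℝ) / 2)) * LL ^ 2) + L ^ (-(10 : ℝ)))) ≤
        (C5 * T * ((Real.exp C6 * 120000 + 12 ^ 10) * ((j : ℝ) ^ (-((5 : ℝ) / 8)) * LL))) *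
          (2 * C4 * (N : ℝ) ^ 2 / T * (A2 * (L ^ (-((1 : ℝ) / 2)) * LL ^ 2) + L ^ (-(10 : ℝ)))) :=
          mul_le_mul_of_nonneg_right c3 (by positivity)
      _ = _ := by
          rw [hA3]
          ring
  rw [← Finset.sum_filter_add_sum_filter_not F (fun δ => 1 < SC (nm g (Pf δ)) w y)]
  refine (add_le_add hE1 hE2).trans ?_
  refine ZB0_fin (by positivity) (by positivity) (by positivity) (by positivity) hT0 (by positivity) ?_ (by positivity)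
    (by positivity) (by linarith) ?_ hL10' (by positivity)
  · exact Real.rpow_le_one_of_one_le_of_nonpos (by linarith) (by norm_num)
  · calc L ^ (-(10 : ℝ)) * LL ≤ L ^ (-(10 : ℝ)) * L := mul_le_mul_of_nonneg_left hLLL hL10'
      _ = L ^ (-(9 : ℝ)) := by
        rw [← Real.rpow_add_one (by linarith)]
        norm_num

end O1
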