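import Pool.Agent.Lib.MP_10e784_agO.Defs2
import Pool.Agent.Lib.MP_10e784_agO.EW
import Pool.Agent.Lib.MP_10e784_agO.VCl
import Pool.Agent.Lib.MP_10e784_agO.M2
import Pool.Agent.Lib.MP_10e784_agO.UV1
import Pool.Agent.Lib.MP_10e784_agO.PF
import Pool.Agent.Lib.MP_10e784_agO.Nm

/-! JOB ZB1.  The block `j`, case `t = 1`.

Notation as in ZB0.  For `j ≥ j0` the number `n = nm g (Pf δ)` is not a square: `M ∣ n` (every `p ∣ M` divides `n` by `van_iff`, `M` squarefree) and `|n| ≤ C1 M` (`nm_le`), so if `n` is a square then `p ∣ M` implies `p² ∣ n`, `M² ∣ n`, so `M ≤ C1`, but `M > 2 ^ (j-1)`.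
`exp (4 ∑_{p ∣ M} 1/p) ≤ C (log log (M + 100)) ^ 4 ≤ C (log log N) ^ 4` (`inv_pf`), `exp (- PS (ew g) (zz N)) ≤ C (log zz N) ^ (-5/8) ≤ C (log N) ^ (-5/8) log log N` (`ew_sum`).  The block has at most `(2 HJ + 1) ^ 3 ≤ C 2 ^ j` elements, each has `M > 2 ^ (j-1)`.
Non-exceptional `δ`: `exp (-VC) ≤ C (log N) ^ (-1/2) (log log N) ^ (3/2)`: total `C N² (log N) ^ (-9/8) (log log N) ^ 9`.  Exceptional `δ` (at most `C 2 ^ j j ^ (-3)`): `C N² j ^ (-3) (log N) ^ (-5/8) (log log N) ^ 9`.  The second terms of `u1_good`: `C N² (log N) ^ (-10)`. -/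

set_option autoImplicit false

namespace O1

open Polynomial Finset TW FQQ Filter

/-- conditions on `N` -/
theorem ZB1_N (K : ℝ) (hK : 1 ≤ K) : ∃ N0 : ℕ, ∀ N : ℕ, N0 ≤ N → 1 ≤ Real.log (Real.log N) ∧
    (4 * Real.log N) ^ 3 ≤ zz N ∧ K * (N : ℝ) ^ ((3 : ℝ) / 2) + 100 ≤ (N : ℝ) ^ 2 ∧
    Real.log K ≤ Real.log N ∧ 1 ≤ N := by
  have hlog : Tendsto (fun N : ℕ => Real.log (N : ℝ)) atTop atTop :=
    Real.tendsto_log_atTop.comp tendsto_natCast_atTop_atTop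
  have hll : Tendsto (fun N : ℕ => Real.log (Real.log (N : ℝ))) atTop atTop :=
    Real.tendsto_log_atTop.comp hlog
  have h1 : ∀ᶠ x : ℝ in atTop, x ^ 3 ≤ Real.exp (1 * x) := by
    have h2 := (isLittleO_pow_exp_pos_mul_atTop 3 one_pos).bound one_pos
    filter_upwards [h2, eventually_ge_atTop 0] with x hx hx0
    rw [one_mul, Real.norm_eq_abs, Real.norm_eq_abs, Real.abs_exp, abs_of_nonneg (by positivity)] at hx
    exact hx
  have hcast : Tendsto (fun N : ℕ => (N : ℝ)) atTop atTop := tendsto_natCast_atTop_atTop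
  obtain ⟨N0, hN0⟩ := eventually_atTop.1 ((hll.eventually h1).and ((hll.eventually_ge_atTop 40000).and
    ((hcast.eventually_ge_atTop ((K + 100) ^ 2)).and (eventually_ge_atTop 1))))
  refine ⟨N0, fun N hN => ?_⟩
  obtain ⟨a1, a2, a3, a4⟩ := hN0 N hN
  have hN1 : (1 : ℝ) ≤ N := by exact_mod_cast a4
  have hl0 : 0 < Real.log N := by
    by_contra h
    push Not at h
    have h3 : Real.log (Real.log N) ≤ 0 := by
      have hn : 0 ≤ Real.log N := Real.log_nonneg hN1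
      have h4 : Real.log N = 0 := le_antisymm h hn
      rw [h4, Real.log_zero]
    linarith
  rw [one_mul, Real.exp_log hl0] at a1
  have hKN : K ≤ N := by nlinarith
  refine ⟨by linarith, ?_, ?_, Real.log_le_log (by linarith) hKN, a4⟩
  · unfold zz
    rw [← Real.log_le_iff_le_exp (by positivity), Real.log_pow, Real.log_mul (by norm_num) hl0.ne',
      le_div_iff₀ (by positivity)]
    push_cast
    have h4 : Real.log 4 ≤ 2 := by
      have h5 : Real.log 4 = 2 * Real.log 2 := by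
        rw [show (4 : ℝ) = 2 ^ 2 by norm_num, Real.log_pow]
        norm_num
      have := Real.log_two_lt_d9
      rw [h5]
      linarith
    generalize Real.log (Real.log N) = x at a1 a2
    generalize Real.log N = l at a1
    have h6 : 3 * (Real.log 4 + x) * (10000 * x) ≤ 3 * (2 + x) * (10000 * x) := by
      refine mul_le_mul_of_nonneg_right ?_ (by linarith)
      linarith
    have h7 : 3 * (2 + x) * (10000 * x) ≤ x ^ 3 := by nlinarith [mul_nonneg (by linarith : 0 ≤ x) (by linarith : 0 ≤ x - 40000)]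
    linarith
  · have h5 : (N : ℝ) ^ ((3 : ℝ) / 2) * (N : ℝ) ^ ((1 : ℝ) / 2) = (N : ℝ) ^ 2 := by
      rw [← Real.rpow_add (by linarith)]
      norm_num
    have h6 : 1 ≤ (N : ℝ) ^ ((3 : ℝ) / 2) := Real.one_le_rpow hN1 (by norm_num)
    have h7 : K + 100 ≤ (N : ℝ) ^ ((1 : ℝ) / 2) := by
      rw [← Real.sqrt_eq_rpow]
      exact Real.le_sqrt_of_sq_le a3
    rw [← h5]
    nlinarith

/-- conditions on `j` -/
theorem ZB1_j (C : ℝ) : ∃ j0 : ℕ, ∀ j : ℕ, j0 ≤ j → 3 ≤ j ∧ (j : ℝ) ^ 3 ≤ (2 : ℝ) ^ ((j : ℝ) / 40) ∧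
    C < (2 : ℝ) ^ j := by
  have hcast : Tendsto (fun N : ℕ => (N : ℝ)) atTop atTop := tendsto_natCast_atTop_atTop
  have h1 : ∀ᶠ x : ℝ in atTop, x ^ 3 ≤ (2 : ℝ) ^ (x / 40) := by
    have hb : 0 < Real.log 2 / 40 := by
      have := Real.log_pos (by norm_num : (1 : ℝ) < 2)
      positivity
    have h2 := (isLittleO_pow_exp_pos_mul_atTop 3 hb).bound one_pos
    filter_upwards [h2, eventually_ge_atTop 0] with x hx hx0
    rw [one_mul, Real.norm_eq_abs, Real.norm_eq_abs, Real.abs_exp, abs_of_nonneg (by positivity)] at hx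
    refine hx.trans (le_of_eq ?_)
    rw [Real.rpow_def_of_pos (by norm_num)]
    congr 1
    ring
  have h2 : Tendsto (fun j : ℕ => (2 : ℝ) ^ j) atTop atTop :=
    tendsto_pow_atTop_atTop_of_one_lt (by norm_num)
  obtain ⟨j0, hj0⟩ := eventually_atTop.1 ((hcast.eventually h1).and
    ((h2.eventually_gt_atTop C).and (eventually_ge_atTop 3)))
  exact ⟨j0, fun j hj => ⟨(hj0 j hj).2.2, (hj0 j hj).1, (hj0 j hj).2.1⟩⟩

/-- the norm of an object is not a square -/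
theorem ZB1_sq {g : ℤ[X]} (hg : g.Monic) {B : ℕ} {C0 C1 : ℝ} {δ : Vn 2} {M : ℕ} {r : ℤ}
    (hO : Ob g B C0 δ M r) (hle : |((nm g (Pf δ) : ℤ) : ℝ)| ≤ C1 * M) (hM : C1 < M) :
    ¬ IsSquare (nm g (Pf δ)) := by
  rintro ⟨k, hk⟩
  have hp : ∀ p ∈ M.primeFactors, p ∣ k.natAbs := fun p hp => by
    obtain ⟨hpp, hpM, -⟩ := Nat.mem_primeFactors.1 hp
    have h1 := hO.rt p hpp hpM
    have : Fact p.Prime := ⟨hpp⟩
    have h2 : Van g p (red p (Pf δ)) := ⟨X - C (r : ZMod p),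
      ⟨monic_X_sub_C _, irreducible_X_sub_C _, dvd_iff_isRoot.2 h1.1⟩, dvd_iff_isRoot.2 h1.2⟩
    rw [van_iff hg p hpp, hk] at h2
    have h3 : (p : ℤ) ∣ k := by
      rcases (Nat.prime_iff_prime_int.1 hpp).dvd_or_dvd h2 with h | h <;> exact h
    exact Int.natCast_dvd.1 h3
  have h1 : M ∣ k.natAbs := by
    have h2 := Finset.prod_primes_dvd k.natAbs (s := M.primeFactors)
      (fun p hp => (Nat.prime_of_mem_primeFactors hp).prime) hp
    rwa [Nat.prod_primeFactors_of_squarefree hO.sq] at h2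
  have hk0 : k.natAbs ≠ 0 := fun h => by
    rw [Int.natAbs_eq_zero] at h
    exact hO.nz (by rw [hk, h, mul_zero])
  have h2 : (M : ℝ) ≤ |(k : ℝ)| := by
    have h3 := Nat.le_of_dvd (Nat.pos_of_ne_zero hk0) h1
    have h4 : ((k.natAbs : ℕ) : ℝ) = |(k : ℝ)| := by
      rw [Nat.cast_natAbs]
      push_cast
      rfl
    rw [← h4]
    exact_mod_cast h3
  rw [hk] at hle
  push_cast at hle
  rw [abs_mul] at hle
  have hM0 : (0 : ℝ) ≤ M := Nat.cast_nonneg _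
  have hMp : (0 : ℝ) < M := by
    have : M ≠ 0 := fun h => by
      have := hO.sq
      rw [h] at this
      exact not_squarefree_zero this
    positivity
  have h5 : (M : ℝ) * M ≤ |(k : ℝ)| * |(k : ℝ)| := mul_le_mul h2 h2 hM0 (abs_nonneg _)
  nlinarith

theorem ZB1_exp {l a c : ℝ} (hl : 0 < l) (hL : 0 < Real.log l) :
    Real.exp (-(a * Real.log l) + 9 * Real.log (Real.log l) + c)
      = Real.exp c * l ^ (-a) * Real.log l ^ 9 := by
  rw [Real.exp_add, Real.exp_add, Real.rpow_def_of_pos hl]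
  have h1 : Real.exp (9 * Real.log (Real.log l)) = Real.log l ^ 9 := by
    rw [show (9 : ℝ) * Real.log (Real.log l) = ((9 : ℕ) : ℝ) * Real.log (Real.log l) by norm_num,
      Real.exp_nat_mul, Real.exp_log hL]
  rw [h1, show -(a * Real.log l) = Real.log l * -a by ring]
  ring

/-- the third logarithm -/
theorem ZB1_lll {x l : ℝ} (hx : 100 ≤ x) (hl : Real.log x ≤ 2 * l) (hL : 1 ≤ Real.log l) :
    Real.log (Real.log (Real.log x)) ≤ 1 + Real.log (Real.log l) := by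
  have h1 : 4 < Real.log x := by
    refine lt_of_lt_of_le ?_ (Real.log_le_log (by norm_num) hx)
    rw [Real.lt_log_iff_exp_lt (by norm_num)]
    have h2 : Real.exp 4 = Real.exp 1 ^ 4 := by
      rw [← Real.exp_nat_mul]
      norm_num
    rw [h2]
    have h3 := Real.exp_one_lt_d9
    have h4 : Real.exp 1 ^ 4 < 2.7182818286 ^ 4 := pow_lt_pow_left₀ h3 (Real.exp_pos 1).le (by norm_num)
    refine h4.trans_le ?_
    norm_num
  have hl0 : 0 < l := by linarith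
  have h2 : 1 < Real.log (Real.log x) := by
    rw [Real.lt_log_iff_exp_lt (by linarith)]
    have := Real.exp_one_lt_d9
    linarith
  have h3 : Real.log (Real.log x) ≤ Real.log 2 + Real.log l := by
    rw [← Real.log_mul (by norm_num) hl0.ne']
    exact Real.log_le_log (by linarith) hl
  have h4 := Real.log_two_lt_d9
  have h5 : Real.log (Real.log x) ≤ 2 * Real.log l := by linarith
  have h6 : Real.log (Real.log (Real.log x)) ≤ Real.log (2 * Real.log l) :=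
    Real.log_le_log (by linarith) h5
  rw [Real.log_mul (by norm_num) (by linarith)] at h6
  linarith

theorem ZB1_f {ex R₁ R₂ a b : ℝ} (hex : 0 < ex) (h1 : 0 < R₁) (h2 : 0 < R₂) (h9 : 0 < a) (hb : b ≤ 1 * a) :
    ex * R₂ + b ≤ (ex + 1) * (R₁ + R₂ + a) ∧ ex * R₁ + b ≤ (ex + 1) * (R₁ + R₂ + a) := by
  have e : (ex + 1) * (R₁ + R₂ + a) = ex * R₁ + ex * R₂ + ex * a + (R₁ + R₂ + a) := by ring
  have f1 := mul_pos hex h1
  have f2 := mul_pos hex h2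
  have f3 := mul_pos hex h9
  rw [e]
  constructor <;> linarith

theorem ZB1_j4 {j l k : ℝ} (hj : 0 ≤ j) (h : j * Real.log 2 ≤ k + 3 / 2 * l) (hk : k ≤ l) (hl : 0 < l) : j ≤ 4 * l := by
  have h3 := Real.log_two_gt_d9
  have h4 : j * 0.69 ≤ j * Real.log 2 := mul_le_mul_of_nonneg_left (by linarith) hj
  linarith

theorem ZB1_X {C5 C0 x a n K : ℝ} (hC5 : 0 < C5) (hx : x ≤ (C5 + 1) * a) (ha : a ≤ 2 * C0 * n)
    (hK : K = 2 * C0 * (C5 + 1)) : x + 100 ≤ K * n + 100 := by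
  have h3 : (C5 + 1) * a ≤ (C5 + 1) * (2 * C0 * n) := mul_le_mul_of_nonneg_left ha (by linarith)
  have e : K * n = (C5 + 1) * (2 * C0 * n) := by rw [hK]; ring
  linarith

theorem ZB1_K {C5 C0 K : ℝ} (hC0 : 1 ≤ C0) (hC5 : 0 < C5) (hK : K = 2 * C0 * (C5 + 1)) : 1 ≤ K ∧ 2 * C0 ≤ K := by
  have h1 : 0 < C0 * C5 := by positivity
  rw [hK]
  constructor <;> nlinarith

open Classical in
theorem blk_one {g G1 G2 : ℤ[X]} (hD : Dat g G1 G2) {P0 B : ℕ} (hG : Good g G1 G2 P0 B) (C0 : ℝ) (hC0 : 1 ≤ C0) :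
    ∃ (C : ℝ) (j0 N0 : ℕ), 0 < C ∧ ∀ N j : ℕ, N0 ≤ N → j0 ≤ j → (2 : ℝ) ^ j ≤ 2 * C0 * (N : ℝ) ^ ((3 : ℝ) / 2) →
      ∑ δ ∈ (Blk g B C0 j).filter (fun δ => ¬ BadO g G1 G2 B C0 N δ), ((U1 g G1 G2 B N δ).card : ℝ) ≤
      C * (N : ℝ) ^ 2 * ((Real.log N) ^ (-((9 : ℝ) / 8)) * (Real.log (Real.log N)) ^ 9 +
        1 / (j : ℝ) ^ 3 * (Real.log N) ^ (-((5 : ℝ) / 8)) * (Real.log (Real.log N)) ^ 9 + (Real.log N) ^ (-(9 : ℝ))) := by
  obtain ⟨Cu, Nu, hCu, hu⟩ := u1_good hD hG C0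
  obtain ⟨Ce, hCe⟩ := ew_sum hD.gm hD.gd hD.gi
  obtain ⟨Cv, hCv⟩ := vc_lower
  obtain ⟨Cm, hCm, hcheb⟩ := cheb hD.gm hD.gd
  obtain ⟨Cp, hCp⟩ := inv_pf
  obtain ⟨Cn, hCn, hnm⟩ := nm_le hD.gm hD.gd
  obtain ⟨C5, hC5⟩ : ∃ C5, C5 = Cn * C0 ^ 3 := ⟨_, rfl⟩
  have hC50 : 0 < C5 := by rw [hC5]; positivity
  obtain ⟨K, hK⟩ : ∃ K, K = 2 * C0 * (C5 + 1) := ⟨_, rfl⟩
  obtain ⟨hK1, hK2⟩ := ZB1_K hC0 hC50 hK
  obtain ⟨Nz, hNz⟩ := ZB1_N K hK1
  obtain ⟨j0, hj0⟩ := ZB1_j (256 * (C5 + 1) ^ 4 + 2 * C5 + 1)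
  obtain ⟨c, hc⟩ : ∃ c, c = 9 / 8 * Real.log 10000 + 1 / 2 * Real.log 9 + 1 / 2 + |Cv| + |Ce| + 4 + 4 * |Cp| :=
    ⟨_, rfl⟩
  have hl1 : 0 ≤ Real.log 10000 := Real.log_nonneg (by norm_num)
  have hl9 : 0 ≤ Real.log 9 := Real.log_nonneg (by norm_num)
  refine ⟨54 * C0 ^ 3 * Cu * (Real.exp c + 1) + 2 * Cm * C0 ^ 3 * Cu * (Real.exp c + 1), j0,
    max Nu Nz, by positivity, ?_⟩
  intro N j hN hj h2j
  obtain ⟨hL1, hzl, hKN, hKl, hN1⟩ := hNz N ((le_max_right _ _).trans hN)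
  obtain ⟨hj3, hjw, hjC⟩ := hj0 j hj
  have hNu : Nu ≤ N := (le_max_left _ _).trans hN
  obtain ⟨l, hl⟩ : ∃ l, l = Real.log (N : ℝ) := ⟨_, rfl⟩
  obtain ⟨L, hL⟩ : ∃ L, L = Real.log l := ⟨_, rfl⟩
  rw [← hl] at hL1 hzl hKl ⊢
  rw [← hL] at hL1 ⊢
  have hNr : (1 : ℝ) ≤ N := by exact_mod_cast hN1
  have hl0 : 1 < l := by
    by_contra h
    push Not at h
    have h0 : 0 ≤ l := by rw [hl]; exact Real.log_nonneg hNr
    have h1 : Real.log l ≤ 0 := Real.log_nonpos h0 h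
    linarith
  have hLL : 0 ≤ Real.log L := Real.log_nonneg hL1
  have hjr : (3 : ℝ) ≤ j := by exact_mod_cast hj3
  have h2jp : (0 : ℝ) < (2 : ℝ) ^ j := by positivity
  -- `j ≤ 4 l`
  have hj4 : (j : ℝ) ≤ 4 * l := by
    have h1 : Real.log ((2 : ℝ) ^ j) ≤ Real.log (K * (N : ℝ) ^ ((3 : ℝ) / 2)) := by
      refine Real.log_le_log h2jp (h2j.trans ?_)
      exact mul_le_mul_of_nonneg_right hK2 (by positivity)
    rw [Real.log_pow, Real.log_mul (by linarith) (by positivity), Real.log_rpow (by linarith), ← hl] at h1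
    exact ZB1_j4 (Nat.cast_nonneg j) h1 hKl (by linarith)
  have hlogj : Real.log j ≤ 3 * L := by
    have h1 : Real.log j ≤ Real.log (4 * l) := Real.log_le_log (by linarith) hj4
    rw [Real.log_mul (by norm_num) (by linarith), ← hL] at h1
    have h4 : Real.log 4 ≤ 2 := by
      have h5 : Real.log 4 = 2 * Real.log 2 := by
        rw [show (4 : ℝ) = 2 ^ 2 by norm_num, Real.log_pow]
        norm_num
      have := Real.log_two_lt_d9
      rw [h5]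
      linarith
    linarith
  have hlogj1 : 1 < Real.log j := by
    rw [Real.lt_log_iff_exp_lt (by linarith)]
    have := Real.exp_one_lt_d9
    linarith
  -- the sieving limit
  have hzlog : Real.log (Real.log (zz N)) = L - (Real.log 10000 + Real.log L) := by
    unfold zz
    rw [Real.log_exp, ← hl, ← hL, Real.log_div (by linarith) (by positivity),
      Real.log_mul (by norm_num) (by linarith), ← hL]
  have hz64 : (64 : ℝ) ≤ zz N := by
    refine le_trans ?_ hzl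
    have h1 : (4 : ℝ) ≤ 4 * l := by linarith
    have h3 := pow_le_pow_left₀ (by norm_num) h1 3
    norm_num at h3 ⊢
    linarith
  have hPS := hCe (zz N) (by linarith)
  rw [hzlog] at hPS
  -- the parameters
  obtain ⟨w, hw⟩ : ∃ w : ℝ, w = (j : ℝ) ^ 3 := ⟨_, rfl⟩
  obtain ⟨y, hy⟩ : ∃ y : ℝ, y = min ((2 : ℝ) ^ ((j : ℝ) / 40)) (zz N) := ⟨_, rfl⟩
  have hw27 : 27 ≤ w := by
    rw [hw]
    have h3 := pow_le_pow_left₀ (by norm_num) hjr 3
    norm_num at h3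
    linarith
  have hwy : w ≤ y := by
    rw [hy, hw]
    refine le_min hjw (le_trans ?_ hzl)
    exact pow_le_pow_left₀ (by linarith) hj4 3
  have hyz : y ≤ zz N := by rw [hy]; exact min_le_right _ _
  have hyj : y ≤ (2 : ℝ) ^ ((j : ℝ) / 40) := by rw [hy]; exact min_le_left _ _
  have hy0 : 0 < y := by linarith
  obtain ⟨X, hX⟩ : ∃ X : ℝ, X = C5 * (2 : ℝ) ^ j := ⟨_, rfl⟩
  have hX0 : 0 < X := by rw [hX]; positivity
  have hlogX : ∀ x : ℝ, 0 ≤ x → x ≤ (C5 + 1) * (2 : ℝ) ^ j → Real.log (x + 100) ≤ 2 * l := fun x hx hx2 => by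
    have h1 : x + 100 ≤ (N : ℝ) ^ 2 := by
      exact (ZB1_X hC50 hx2 h2j hK).trans hKN
    have h3 := Real.log_le_log (by linarith) h1
    rw [Real.log_pow, ← hl] at h3
    push_cast at h3
    exact h3
  have hyX : y = zz N ∨ (4 * X) ^ 4 ≤ y ^ 1000 := by
    rcases le_total ((2 : ℝ) ^ ((j : ℝ) / 40)) (zz N) with h1 | h1
    · right
      rw [hy, min_eq_left h1, hX, ← Real.rpow_natCast ((2 : ℝ) ^ ((j : ℝ) / 40)) 1000, ← Real.rpow_mul (by norm_num)]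
      have h3 : (2 : ℝ) ^ ((j : ℝ) / 40 * ((1000 : ℕ) : ℝ)) = (2 : ℝ) ^ j * ((2 : ℝ) ^ j) ^ 4 * ((2 : ℝ) ^ j) ^ 20 := by
        rw [mul_assoc, ← pow_mul, ← pow_mul, ← pow_add, ← pow_add, ← Real.rpow_natCast]
        congr 1
        push_cast
        ring
      rw [h3]
      have h4 : (1 : ℝ) ≤ ((2 : ℝ) ^ j) ^ 20 := one_le_pow₀ (one_le_pow₀ (by norm_num))
      have h5 : 256 * C5 ^ 4 ≤ (2 : ℝ) ^ j := by
        have h6 : C5 ^ 4 ≤ (C5 + 1) ^ 4 := pow_le_pow_left₀ hC50.le (by linarith) 4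
        linarith
      calc (4 * (C5 * (2 : ℝ) ^ j)) ^ 4 = 256 * C5 ^ 4 * ((2 : ℝ) ^ j) ^ 4 * 1 := by ring
        _ ≤ (2 : ℝ) ^ j * ((2 : ℝ) ^ j) ^ 4 * ((2 : ℝ) ^ j) ^ 20 := by gcongr
    · left
      rw [hy, min_eq_right h1]
  -- one object
  obtain ⟨b, hb⟩ : ∃ b : ℝ → ℝ, b = fun E => Cu * (N : ℝ) ^ 2 * (2 / (2 : ℝ) ^ j) * (E + l ^ (-(10 : ℝ))) :=
    ⟨_, rfl⟩
  obtain ⟨E₁, hE₁⟩ : ∃ E₁, E₁ = Real.exp c * l ^ (-((9 : ℝ) / 8)) * L ^ 9 := ⟨_, rfl⟩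
  obtain ⟨E₂, hE₂⟩ : ∃ E₂, E₂ = Real.exp c * l ^ (-((5 : ℝ) / 8)) * L ^ 9 := ⟨_, rfl⟩
  have hlp : 0 < l := by linarith
  have hl10 : 0 < l ^ (-(10 : ℝ)) := Real.rpow_pos_of_pos hlp _
  have hone : ∀ δ ∈ (Blk g B C0 j).filter (fun δ => ¬ BadO g G1 G2 B C0 N δ),
      ((U1 g G1 G2 B N δ).card : ℝ) ≤ b E₂ ∧
        (¬ 1 < SC (nm g (Pf δ)) w y → ((U1 g G1 G2 B N δ).card : ℝ) ≤ b E₁) := by
    intro δ hδ
    obtain ⟨hδB, hbad⟩ := Finset.mem_filter.1 hδ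
    obtain ⟨M, r, hO, hM1, hM2⟩ := (Finset.mem_filter.1 hδB).2
    have hM1' : (2 : ℝ) ^ j < 2 * (M : ℝ) := by exact_mod_cast hM1
    have hM2' : (M : ℝ) ≤ (2 : ℝ) ^ j := by exact_mod_cast hM2
    have hMp : (0 : ℝ) < M := by linarith
    have hu1 := hu N hNu δ M r hO hbad
    rw [← hl] at hu1
    have hsum : ∑ p ∈ M.primeFactors, (1 : ℝ) / (p : ℝ) ≤ 1 + Real.log L + Cp := by
      have h1 := hCp M
      have h3 := ZB1_lll (x := (M : ℝ) + 100) (l := l) (by linarith)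
        (hlogX M hMp.le (hM2'.trans (le_mul_of_one_le_left h2jp.le (by linarith)))) (by rw [← hL]; exact hL1)
      rw [← hL] at h3
      linarith
    have hV0 : 0 ≤ VC (nm g (Pf δ)) (zz N) := by
      unfold VC PT.PS
      refine Finset.sum_nonneg fun p _ => div_nonneg ?_ (Nat.cast_nonneg _)
      show (0 : ℝ) ≤ if jacobiSym (nm g (Pf δ)) p = -1 then 1 else 0
      split_ifs <;> norm_num
    have hbb : ∀ E A : ℝ, Real.exp A ≤ E → Cu * (N : ℝ) ^ 2 / M * (Real.exp A + l ^ (-(10 : ℝ))) ≤ b E :=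
      fun E A hA => by
        rw [hb]
        have h1 : Cu * (N : ℝ) ^ 2 / M ≤ Cu * (N : ℝ) ^ 2 * (2 / (2 : ℝ) ^ j) := by
          rw [div_eq_mul_inv]
          refine mul_le_mul_of_nonneg_left ?_ (by positivity)
          rw [inv_eq_one_div, div_le_div_iff₀ hMp h2jp]
          linarith
        exact mul_le_mul h1 (by linarith) (by positivity) (by positivity)
    have hcv := le_abs_self Cv
    have hce := le_abs_self Ce
    have hcp := le_abs_self Cp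
    have hcv0 := abs_nonneg Cv
    have hLp : 0 < L := by linarith
    refine ⟨hu1.trans (hbb _ _ ?_), fun hP => hu1.trans (hbb _ _ ?_)⟩
    · rw [hE₂, hL, ← ZB1_exp hlp (by rw [← hL]; exact hLp), ← hL]
      refine Real.exp_le_exp.2 ?_
      linarith
    · rw [hE₁, hL, ← ZB1_exp hlp (by rw [← hL]; exact hLp), ← hL]
      refine Real.exp_le_exp.2 ?_
      have hn : |((nm g (Pf δ) : ℤ) : ℝ)| ≤ C5 * M := by
        have h1 := hnm δ (C0 * (M : ℝ) ^ ((1 : ℝ) / 3)) hO.sz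
        have h3 : ((M : ℝ) ^ ((1 : ℝ) / 3)) ^ 3 = M := by
          rw [← Real.rpow_natCast, ← Real.rpow_mul hMp.le]
          norm_num
        rw [mul_pow, h3] at h1
        rw [hC5]
        linarith
      have hsq := ZB1_sq hD.gm hO hn (by
        have h6 : 0 ≤ (C5 + 1) ^ 4 := by positivity
        linarith)
      have h1 := hCv (nm g (Pf δ)) hsq w y (zz N) X (by linarith) hwy hyz
        (hn.trans (by rw [hX]; exact mul_le_mul_of_nonneg_left hM2' hC50.le)) (not_lt.1 hP) hyX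
      have h3 := ZB1_lll (x := X + 100) (l := l) (by linarith)
        (hlogX X hX0.le (by rw [hX]; exact mul_le_mul_of_nonneg_right (by linarith) h2jp.le))
        (by rw [← hL]; exact hL1)
      rw [← hL] at h3
      have h4 : Real.log (Real.log w) ≤ Real.log 9 + Real.log L := by
        rw [← Real.log_mul (by norm_num) hLp.ne', hw, Real.log_pow]
        refine Real.log_le_log ?_ ?_
        · push_cast
          linarith
        · push_cast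
          linarith
      rw [hzlog] at h1
      linarith
  -- the numbers of objects
  obtain ⟨H, hH⟩ : ∃ H, H = HJ C0 j := ⟨_, rfl⟩
  obtain ⟨t, ht⟩ : ∃ t : ℝ, t = (2 : ℝ) ^ ((j : ℝ) / 3) := ⟨_, rfl⟩
  have ht3 : t ^ 3 = (2 : ℝ) ^ j := by
    rw [ht, ← Real.rpow_natCast, ← Real.rpow_mul (by norm_num), ← Real.rpow_natCast (2 : ℝ) j]
    congr 1
    push_cast
    ring
  have ht2 : 2 ≤ t := by
    rw [ht]
    have h1 : (2 : ℝ) ^ (1 : ℝ) ≤ (2 : ℝ) ^ ((j : ℝ) / 3) :=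
      Real.rpow_le_rpow_of_exponent_le (by norm_num) (by linarith)
    rwa [Real.rpow_one] at h1
  have hHle : (H : ℝ) ≤ C0 * t := by
    rw [hH, ht]
    exact Nat.floor_le (by positivity)
  have hHge : C0 * t - 1 < (H : ℝ) := by
    rw [hH, ht]
    unfold HJ
    have := Nat.lt_floor_add_one (C0 * (2 : ℝ) ^ ((j : ℝ) / 3))
    linarith
  have hC0t : t ≤ C0 * t := le_mul_of_one_le_left (by linarith) hC0
  have hH1 : 1 ≤ H := by
    have h1 : (0 : ℝ) < H := by linarith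
    exact_mod_cast h1
  have hbox : ((boxN 2 H).card : ℝ) ≤ 27 * C0 ^ 3 * (2 : ℝ) ^ j := by
    have h1 : (boxN 2 H).card = (2 * H + 1) ^ 3 := by
      unfold boxN
      rw [Fintype.card_piFinset]
      simp only [Int.card_Icc, Finset.prod_const, Finset.card_univ, Fintype.card_fin]
      congr 1
      omega
    rw [h1, ← ht3]
    push_cast
    have h3 : 2 * (H : ℝ) + 1 ≤ 3 * (C0 * t) := by linarith
    have h4 := pow_le_pow_left₀ (by positivity) h3 3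
    refine h4.trans (le_of_eq ?_)
    ring
  have hexc : (((boxN 2 H).filter fun δ => 1 < SC (nm g (Pf δ)) w y).card : ℝ)
      ≤ Cm * C0 ^ 3 * (2 : ℝ) ^ j / (j : ℝ) ^ 3 := by
    have hy4 : y ^ 2 ≤ 4 * (H : ℝ) := by
      have h1 : y ^ 2 ≤ t := by
        have h3 := pow_le_pow_left₀ hy0.le hyj 2
        refine h3.trans ?_
        rw [ht, ← Real.rpow_natCast, ← Real.rpow_mul (by norm_num)]
        refine Real.rpow_le_rpow_of_exponent_le (by norm_num) ?_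
        push_cast
        linarith
      linarith
    refine (hcheb H w y hH1 (by linarith) hy4).trans ?_
    rw [hw]
    refine div_le_div_of_nonneg_right ?_ (by positivity)
    rw [mul_assoc, ← ht3]
    refine mul_le_mul_of_nonneg_left ?_ hCm.le
    have h3 := pow_le_pow_left₀ (Nat.cast_nonneg H) hHle 3
    refine h3.trans (le_of_eq ?_)
    ring
  -- conclusion
  have hL9 : 0 < L ^ 9 := by positivity
  have hE₁0 : 0 < E₁ := by rw [hE₁]; positivity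
  have hE₂0 : 0 < E₂ := by rw [hE₂]; positivity
  have hb1 : 0 ≤ b E₁ := by rw [hb]; positivity
  have hb2 : 0 ≤ b E₂ := by rw [hb]; positivity
  have hsub : (Blk g B C0 j).filter (fun δ => ¬ BadO g G1 G2 B C0 N δ) ⊆ boxN 2 H := fun δ hδ => by
    rw [hH]
    exact (Finset.mem_filter.1 (Finset.mem_filter.1 hδ).1).1
  rw [← Finset.sum_filter_add_sum_filter_not _ (fun δ => 1 < SC (nm g (Pf δ)) w y)]
  have hS1 : ∑ δ ∈ ((Blk g B C0 j).filter (fun δ => ¬ BadO g G1 G2 B C0 N δ)).filter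
      (fun δ => 1 < SC (nm g (Pf δ)) w y), ((U1 g G1 G2 B N δ).card : ℝ)
      ≤ Cm * C0 ^ 3 * (2 : ℝ) ^ j / (j : ℝ) ^ 3 * b E₂ := by
    refine (Finset.sum_le_card_nsmul _ _ (b E₂) fun δ hδ =>
      (hone δ (Finset.mem_filter.1 hδ).1).1).trans ?_
    rw [nsmul_eq_mul]
    refine mul_le_mul_of_nonneg_right (le_trans ?_ hexc) hb2
    exact_mod_cast Finset.card_le_card (Finset.filter_subset_filter _ hsub)
  have hS2 : ∑ δ ∈ ((Blk g B C0 j).filter (fun δ => ¬ BadO g G1 G2 B C0 N δ)).filter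
      (fun δ => ¬ 1 < SC (nm g (Pf δ)) w y), ((U1 g G1 G2 B N δ).card : ℝ)
      ≤ 27 * C0 ^ 3 * (2 : ℝ) ^ j * b E₁ := by
    refine (Finset.sum_le_card_nsmul _ _ (b E₁) fun δ hδ =>
      (hone δ (Finset.mem_filter.1 hδ).1).2 (Finset.mem_filter.1 hδ).2).trans ?_
    rw [nsmul_eq_mul]
    refine mul_le_mul_of_nonneg_right (le_trans ?_ hbox) hb1
    exact_mod_cast Finset.card_le_card ((Finset.filter_subset _ _).trans hsub)
  refine (add_le_add hS1 hS2).trans ?_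
  have hl109 : l ^ (-(10 : ℝ)) ≤ l ^ (-(9 : ℝ)) := Real.rpow_le_rpow_of_exponent_le hl0.le (by norm_num)
  have hl9' : 0 < l ^ (-(9 : ℝ)) := Real.rpow_pos_of_pos hlp _
  have hj31 : 1 / (j : ℝ) ^ 3 ≤ 1 := by
    rw [div_le_one (by positivity)]
    exact one_le_pow₀ (by linarith)
  have hj30 : 0 < 1 / (j : ℝ) ^ 3 := by positivity
  have hN2 : 0 < (N : ℝ) ^ 2 := by positivity
  have e1 : Cm * C0 ^ 3 * (2 : ℝ) ^ j / (j : ℝ) ^ 3 * b E₂
      = 2 * Cm * C0 ^ 3 * Cu * ((N : ℝ) ^ 2 * (1 / (j : ℝ) ^ 3 * E₂ + 1 / (j : ℝ) ^ 3 * l ^ (-(10 : ℝ)))) := by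
    rw [hb]
    field_simp
  have e2 : 27 * C0 ^ 3 * (2 : ℝ) ^ j * b E₁
      = 54 * C0 ^ 3 * Cu * ((N : ℝ) ^ 2 * (E₁ + l ^ (-(10 : ℝ)))) := by
    rw [hb]
    field_simp
    ring
  rw [e1, e2]
  obtain ⟨R₁, hR₁⟩ : ∃ R₁, R₁ = l ^ (-((9 : ℝ) / 8)) * L ^ 9 := ⟨_, rfl⟩
  obtain ⟨R₂, hR₂⟩ : ∃ R₂, R₂ = 1 / (j : ℝ) ^ 3 * l ^ (-((5 : ℝ) / 8)) * L ^ 9 := ⟨_, rfl⟩
  have hR₁0 : 0 < R₁ := by rw [hR₁]; positivity
  have hR₂0 : 0 < R₂ := by rw [hR₂]; positivity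
  rw [← hR₁, ← hR₂]
  have hex : 0 < Real.exp c := Real.exp_pos c
  have f0 : 1 / (j : ℝ) ^ 3 * l ^ (-(10 : ℝ)) ≤ 1 * l ^ (-(9 : ℝ)) :=
    mul_le_mul hj31 hl109 hl10.le zero_le_one
  have f1 : 1 / (j : ℝ) ^ 3 * E₂ + 1 / (j : ℝ) ^ 3 * l ^ (-(10 : ℝ))
      ≤ (Real.exp c + 1) * (R₁ + R₂ + l ^ (-(9 : ℝ))) := by
    have h1 : 1 / (j : ℝ) ^ 3 * E₂ = Real.exp c * R₂ := by rw [hE₂, hR₂]; ring
    rw [h1]
    exact (ZB1_f hex hR₁0 hR₂0 hl9' f0).1
  have f2 : E₁ + l ^ (-(10 : ℝ)) ≤ (Real.exp c + 1) * (R₁ + R₂ + l ^ (-(9 : ℝ))) := by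
    have h1 : E₁ = Real.exp c * R₁ := by rw [hE₁, hR₁]; ring
    rw [h1]
    exact (ZB1_f hex hR₁0 hR₂0 hl9' (by rw [one_mul]; exact hl109)).2
  calc 2 * Cm * C0 ^ 3 * Cu * ((N : ℝ) ^ 2 * (1 / (j : ℝ) ^ 3 * E₂ + 1 / (j : ℝ) ^ 3 * l ^ (-(10 : ℝ))))
        + 54 * C0 ^ 3 * Cu * ((N : ℝ) ^ 2 * (E₁ + l ^ (-(10 : ℝ))))
      ≤ 2 * Cm * C0 ^ 3 * Cu * ((N : ℝ) ^ 2 * ((Real.exp c + 1) * (R₁ + R₂ + l ^ (-(9 : ℝ)))))
        + 54 * C0 ^ 3 * Cu * ((N : ℝ) ^ 2 * ((Real.exp c + 1) * (R₁ + R₂ + l ^ (-(9 : ℝ))))) := by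
        gcongr
    _ = _ := by ring

end O1
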