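import Pool.Agent.Lib.MP_10e784_agO.Defs2
import Pool.Agent.Lib.MP_10e784_agO.EW
import Pool.Agent.Lib.MP_10e784_agO.VCl
import Pool.Agent.Lib.MP_10e784_agO.UV0
import Pool.Agent.Lib.MP_10e784_agO.UV1

/-! JOB ZF.  A fixed block, `N → ∞`.

The block is a finite set of `δ`, so it is enough to treat one `δ` (with `Ob g B C0 δ M r`).  `zz N → ∞`.  Case `t = 0`: `n = nm g (Pf δ)` is not a square: `vc_lower` with `w = y = ` a large constant (`SC n y y = 0 ≤ 1`; `(4X)^4 ≤ y^1000`, `X = max |n| 1`) gives `VC n z ≥ (1/2) log log z - C(n)`, so `VC n (zz N) → ∞` and `u0_good` gives `o(N²)`.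
Case `t = 1`: `VC ≥ 0`, `PS (ew g) (zz N) → ∞` (`ew_sum`), `u1_good`.  `(log N) ^ (-10) → 0`. -/

set_option autoImplicit false

namespace O1

open Polynomial Finset TW FQQ

/-- `zz N → ∞` -/
theorem ZF_zz : Filter.Tendsto (fun N : ℕ => zz N) Filter.atTop Filter.atTop := by
  unfold zz
  refine Real.tendsto_exp_atTop.comp ?_
  have h1 : Filter.Tendsto (fun t : ℝ => t / (10000 * Real.log t)) Filter.atTop Filter.atTop := by
    have h2 : Filter.Tendsto (fun t : ℝ => Real.log t / t) Filter.atTop (nhds 0) := by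
      have := Real.isLittleO_log_id_atTop.tendsto_div_nhds_zero
      simpa using this
    have h3 : Filter.Tendsto (fun t : ℝ => 10000 * (Real.log t / t)) Filter.atTop
        (nhdsWithin 0 (Set.Ioi 0)) := by
      rw [tendsto_nhdsWithin_iff]
      refine ⟨?_, ?_⟩
      · have := h2.const_mul (10000 : ℝ)
        simpa using this
      · filter_upwards [Filter.eventually_gt_atTop (1 : ℝ)] with t ht
        have h4 := Real.log_pos ht
        have h5 : 0 < t := by linarith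
        exact Set.mem_Ioi.2 (by positivity)
    refine h3.inv_tendsto_nhdsGT_zero.congr fun t => ?_
    simp only [Pi.inv_apply]
    rw [← mul_div_assoc, inv_div]
  have h2 := h1.comp (Real.tendsto_log_atTop.comp tendsto_natCast_atTop_atTop)
  exact h2

theorem ZF_loglog : Filter.Tendsto (fun N : ℕ => Real.log (Real.log (zz N))) Filter.atTop
    Filter.atTop :=
  Real.tendsto_log_atTop.comp (Real.tendsto_log_atTop.comp ZF_zz)

theorem ZF_log10 : Filter.Tendsto (fun N : ℕ => (Real.log N) ^ (-(10 : ℝ))) Filter.atTop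
    (nhds 0) :=
  (tendsto_rpow_neg_atTop (by norm_num : (0 : ℝ) < 10)).comp
    (Real.tendsto_log_atTop.comp tendsto_natCast_atTop_atTop)

theorem ZF_SC (n : ℤ) (y : ℝ) : SC n y y = 0 := by
  unfold SC
  refine Finset.sum_eq_zero fun p hp => ?_
  exfalso
  rw [Finset.mem_filter, Finset.mem_Icc] at hp
  have h1 : 0 ≤ y := by
    by_contra hcon
    have h2 : ⌊y⌋₊ = 0 := Nat.floor_eq_zero.2 (by linarith)
    omega
  have h3 := Nat.floor_le h1
  have h4 : (p : ℝ) ≤ (⌊y⌋₊ : ℝ) := by exact_mod_cast hp.1.2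
  linarith [hp.2.2]

theorem ZF_VC {n : ℤ} (hn : ¬ IsSquare n) : Filter.Tendsto (fun N : ℕ => VC n (zz N)) Filter.atTop
    Filter.atTop := by
  obtain ⟨C, hC⟩ := vc_lower
  set X : ℝ := max |(n : ℝ)| 1 with hX
  have hX1 : 1 ≤ X := le_max_right _ _
  set y : ℝ := max 3 (4 * X) with hy
  have hy3 : 3 ≤ y := le_max_left _ _
  have hyX : 4 * X ≤ y := le_max_right _ _
  have hpow : (4 * X) ^ 4 ≤ y ^ 1000 := by
    calc (4 * X) ^ 4 ≤ y ^ 4 := pow_le_pow_left₀ (by positivity) hyX 4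
      _ ≤ y ^ 1000 := pow_le_pow_right₀ (by linarith) (by norm_num)
  set K := 1 / 2 * Real.log (Real.log y) + 1 / 2 * Real.log (Real.log (Real.log (X + 100))) + C
    with hK
  have h1 : Filter.Tendsto (fun N : ℕ => 1 / 2 * Real.log (Real.log (zz N)) + -K) Filter.atTop
      Filter.atTop :=
    Filter.tendsto_atTop_add_const_right _ _
      (ZF_loglog.const_mul_atTop (by norm_num : (0 : ℝ) < 1 / 2))
  refine Filter.tendsto_atTop_mono' _ ?_ h1
  filter_upwards [ZF_zz.eventually_ge_atTop y] with N hN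
  have h2 := hC n hn y y (zz N) X hy3 le_rfl hN (le_max_left _ _) (by rw [ZF_SC]; norm_num)
    (Or.inr hpow)
  rw [hK]
  linarith

theorem ZF_VC_nonneg (n : ℤ) (z : ℝ) : 0 ≤ VC n z := by
  unfold VC PT.PS
  refine Finset.sum_nonneg fun p _ => ?_
  dsimp only
  split_ifs <;> positivity

theorem ZF_ew {g : ℤ[X]} (hg : g.Monic) (hd : g.natDegree = 3) (hi : Irreducible (qq g)) :
    Filter.Tendsto (fun N : ℕ => PT.PS (ew g) (zz N)) Filter.atTop Filter.atTop := by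
  obtain ⟨C, hC⟩ := ew_sum hg hd hi
  have h1 : Filter.Tendsto (fun N : ℕ => 5 / 8 * Real.log (Real.log (zz N)) + -C) Filter.atTop
      Filter.atTop :=
    Filter.tendsto_atTop_add_const_right _ _
      (ZF_loglog.const_mul_atTop (by norm_num : (0 : ℝ) < 5 / 8))
  refine Filter.tendsto_atTop_mono' _ ?_ h1
  filter_upwards [ZF_zz.eventually_ge_atTop 3] with N hN
  have := hC (zz N) hN
  linarith

/-- the objects of a block -/
theorem ZF_blk {g : ℤ[X]} {B : ℕ} {C0 : ℝ} {j : ℕ} {δ : Vn 2} (h : δ ∈ Blk g B C0 j) :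
    ∃ (M : ℕ) (r : ℤ), Ob g B C0 δ M r ∧ 1 ≤ M := by
  classical
  unfold Blk at h
  rw [Finset.mem_filter] at h
  obtain ⟨M, r, hO, h1, -⟩ := h.2
  refine ⟨M, r, hO, ?_⟩
  rcases Nat.eq_zero_or_pos M with h2 | h2
  · subst h2
    omega
  · exact h2

/-- from each object to the sum over the block -/
theorem ZF_sum {S : Finset (Vn 2)} {P : ℕ → Vn 2 → Prop} [∀ N, DecidablePred (P N)] {f : ℕ → Vn 2 → ℝ}
    (h : ∀ δ ∈ S, ∀ ε : ℝ, 0 < ε → ∀ᶠ N : ℕ in Filter.atTop, P N δ → f N δ ≤ ε * (N : ℝ) ^ 2)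
    {ε : ℝ} (hε : 0 < ε) :
    ∃ N0 : ℕ, ∀ N : ℕ, N0 ≤ N → ∑ δ ∈ S.filter (fun δ => P N δ), f N δ ≤ ε * (N : ℝ) ^ 2 := by
  have h1 : ∀ᶠ N : ℕ in Filter.atTop, ∀ δ ∈ S, P N δ →
      f N δ ≤ (ε / (S.card + 1)) * (N : ℝ) ^ 2 :=
    (Filter.eventually_all_finset S).2 fun δ hδ => h δ hδ _ (by positivity)
  obtain ⟨N0, hN0⟩ := Filter.eventually_atTop.1 h1
  refine ⟨N0, fun N hN => ?_⟩
  have h2 : ∑ δ ∈ S.filter (fun δ => P N δ), f N δ ≤
      ∑ _δ ∈ S.filter (fun δ => P N δ), (ε / (S.card + 1)) * (N : ℝ) ^ 2 :=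
    Finset.sum_le_sum fun δ hδ => hN0 N hN δ (Finset.mem_filter.1 hδ).1 (Finset.mem_filter.1 hδ).2
  refine h2.trans ?_
  rw [Finset.sum_const, nsmul_eq_mul]
  have h3 : ((S.filter (fun δ => P N δ)).card : ℝ) ≤ S.card := by
    exact_mod_cast Finset.card_le_card (Finset.filter_subset _ _)
  calc ((S.filter (fun δ => P N δ)).card : ℝ) * ((ε / (S.card + 1)) * (N : ℝ) ^ 2) ≤
        (S.card + 1) * ((ε / (S.card + 1)) * (N : ℝ) ^ 2) :=
        mul_le_mul_of_nonneg_right (by linarith) (by positivity)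
    _ = ε * (N : ℝ) ^ 2 := by field_simp

/-- the limit for one object -/
theorem ZF_one (C : ℝ) {F : ℕ → ℝ} (hF : Filter.Tendsto F Filter.atTop Filter.atTop)
    (K : ℝ) {ε : ℝ} (hε : 0 < ε) :
    ∀ᶠ N : ℕ in Filter.atTop, C * (Real.exp (-F N + K) + (Real.log N) ^ (-(10 : ℝ))) ≤ ε := by
  have h1 : Filter.Tendsto (fun N : ℕ => Real.exp (-F N + K)) Filter.atTop (nhds 0) :=
    Real.tendsto_exp_atBot.comp (Filter.tendsto_atBot_add_const_right _ _
      (Filter.tendsto_neg_atTop_atBot.comp hF))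
  have h2 := (h1.add ZF_log10).const_mul C
  rw [add_zero, mul_zero] at h2
  exact h2.eventually_le_const hε

open Classical in
theorem fix_zero {g G1 G2 : ℤ[X]} (hD : Dat g G1 G2) {P0 B : ℕ} (hG : Good g G1 G2 P0 B) (C0 : ℝ) (j : ℕ) (ε : ℝ) (hε : 0 < ε) :
    ∃ N0 : ℕ, ∀ N : ℕ, N0 ≤ N →
      ∑ δ ∈ (Blk g B C0 j).filter (fun δ => ¬ IsSquare (nm g (Pf δ)) ∧ ¬ BadO g G1 G2 B C0 N δ),
        ((U0 g G1 G2 B N δ).card : ℝ) ≤ ε * (N : ℝ) ^ 2 := by
  obtain ⟨C, N1, hC, hU⟩ := u0_good hD hG C0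
  refine ZF_sum (P := fun N δ => ¬ IsSquare (nm g (Pf δ)) ∧ ¬ BadO g G1 G2 B C0 N δ)
    (f := fun N δ => ((U0 g G1 G2 B N δ).card : ℝ)) (fun δ hδ ε' hε' => ?_) hε
  obtain ⟨M, r, hO, hM⟩ := ZF_blk hδ
  by_cases hn : IsSquare (nm g (Pf δ))
  · exact Filter.Eventually.of_forall fun N h => absurd hn h.1
  filter_upwards [ZF_one C (ZF_VC hn) 0 hε', Filter.eventually_ge_atTop N1] with N h1 h2 h3
  rw [add_zero] at h1
  have hM1 : (1 : ℝ) ≤ M := by exact_mod_cast hM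
  refine (hU N h2 δ M r hO h3.2).trans ?_
  have h4 : 0 ≤ C * (Real.exp (-VC (nm g (Pf δ)) (zz N)) + (Real.log N) ^ (-(10 : ℝ))) := by
    have : 0 ≤ (Real.log N) ^ (-(10 : ℝ)) :=
      Real.rpow_nonneg (Real.log_natCast_nonneg N) _
    positivity
  calc C * (N : ℝ) ^ 2 / M * (Real.exp (-VC (nm g (Pf δ)) (zz N)) + (Real.log N) ^ (-(10 : ℝ))) =
        C * (Real.exp (-VC (nm g (Pf δ)) (zz N)) + (Real.log N) ^ (-(10 : ℝ))) *
          ((N : ℝ) ^ 2 / M) := by ring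
    _ ≤ ε' * (N : ℝ) ^ 2 := by
        refine mul_le_mul h1 ?_ (by positivity) hε'.le
        exact div_le_self (by positivity) hM1

open Classical in
theorem fix_one {g G1 G2 : ℤ[X]} (hD : Dat g G1 G2) {P0 B : ℕ} (hG : Good g G1 G2 P0 B) (C0 : ℝ) (j : ℕ) (ε : ℝ) (hε : 0 < ε) :
    ∃ N0 : ℕ, ∀ N : ℕ, N0 ≤ N →
      ∑ δ ∈ (Blk g B C0 j).filter (fun δ => ¬ BadO g G1 G2 B C0 N δ), ((U1 g G1 G2 B N δ).card : ℝ) ≤ ε * (N : ℝ) ^ 2 := by
  obtain ⟨C, N1, hC, hU⟩ := u1_good hD hG C0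
  refine ZF_sum (P := fun N δ => ¬ BadO g G1 G2 B C0 N δ)
    (f := fun N δ => ((U1 g G1 G2 B N δ).card : ℝ)) (fun δ hδ ε' hε' => ?_) hε
  obtain ⟨M, r, hO, hM⟩ := ZF_blk hδ
  filter_upwards [ZF_one C (ZF_ew hD.gm hD.gd hD.gi)
    (4 * ∑ p ∈ M.primeFactors, (1 : ℝ) / (p : ℝ)) hε', Filter.eventually_ge_atTop N1]
    with N h1 h2 h3
  have hM1 : (1 : ℝ) ≤ M := by exact_mod_cast hM
  refine (hU N h2 δ M r hO h3).trans ?_
  have h10 : 0 ≤ (Real.log N) ^ (-(10 : ℝ)) := Real.rpow_nonneg (Real.log_natCast_nonneg N) _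
  have h5 : C * (Real.exp (-VC (nm g (Pf δ)) (zz N) - PT.PS (ew g) (zz N) +
      4 * ∑ p ∈ M.primeFactors, (1 : ℝ) / (p : ℝ)) + (Real.log N) ^ (-(10 : ℝ))) ≤ ε' := by
    refine le_trans (mul_le_mul_of_nonneg_left ?_ hC.le) h1
    refine add_le_add (Real.exp_le_exp.2 ?_) le_rfl
    have := ZF_VC_nonneg (nm g (Pf δ)) (zz N)
    linarith
  calc C * (N : ℝ) ^ 2 / M * (Real.exp (-VC (nm g (Pf δ)) (zz N) - PT.PS (ew g) (zz N) +
      4 * ∑ p ∈ M.primeFactors, (1 : ℝ) / (p : ℝ)) + (Real.log N) ^ (-(10 : ℝ))) =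
        C * (Real.exp (-VC (nm g (Pf δ)) (zz N) - PT.PS (ew g) (zz N) +
          4 * ∑ p ∈ M.primeFactors, (1 : ℝ) / (p : ℝ)) + (Real.log N) ^ (-(10 : ℝ))) *
          ((N : ℝ) ^ 2 / M) := by ring
    _ ≤ ε' * (N : ℝ) ^ 2 := by
        refine mul_le_mul h5 ?_ (by positivity) hε'.le
        exact div_le_self (by positivity) hM1

end O1
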