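import Pool.Agent.Lib.MP_10e784_agO.ZB0
import Pool.Agent.Lib.MP_10e784_agO.ZB1
import Pool.Agent.Lib.MP_10e784_agO.ZF
import Pool.Agent.Lib.MP_10e784_agO.BL3

/-! JOB ZZ.  The sums over all objects.

Let `S` be as in the statement.  The bad ones: `bad_total` (`|U0|, |U1| ≤` the number of `f` in the box with `Att`), `≤ N ^ (19/10) ≤ (ε/4) N²`.  The others lie in the blocks: `δ` with `Ob g B C0 δ M r`, `M ≥ 1`: exactly one `j` with `2 ^ j < 2 M`, `M ≤ 2 ^ j`, `δ ∈ Blk g B C0 j` (`|δ i| ≤ C0 M ^ (1/3) ≤ C0 2 ^ (j/3)`),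
and `2 ^ j ≤ 2 M ≤ 2 C0 N ^ (3/2)`, so `j ≤ J := 4 log N` for large `N` (`log 2 > 1/2`).
Choose `j1 ≥ j0, 1` with `C ∑_{j ≥ j1} j ^ (-3) ≤ ε/8` (`∑_{j ≥ j1} 1/j³ ≤ 2/j1`).  Blocks `j < j1`: `fix_zero` / `fix_one` with `ε / (8 j1)`.  Blocks `j1 ≤ j ≤ J`: `blk_zero`: `∑_{j ≤ J} j ^ (-5/8) ≤ 3 J ^ (3/8)`: total `C N² ((log N) ^ (3/8 - 1/2) (log log N) ^ 5 + .. + J (log N) ^ (-9)) → 0` relative to `N²`;
`blk_one`: `C N² (J (log N) ^ (-9/8) (log log N) ^ 9 + .. ) → 0`. -/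

set_option autoImplicit false

namespace O1

open Polynomial Finset TW FQQ

private theorem ZZ_lim (k : ℕ) {s : ℝ} (hs : 0 < s) {c ε : ℝ} (hc : 0 ≤ c) (hε : 0 < ε) :
    ∀ᶠ x : ℝ in Filter.atTop, c * (x ^ (-s) * (Real.log x) ^ k) ≤ ε := by
  have h1 := (isLittleO_log_rpow_rpow_atTop (k : ℝ) hs).def (show 0 < ε / (c + 1) by positivity)
  filter_upwards [h1, Filter.eventually_ge_atTop (Real.exp 1), Filter.eventually_gt_atTop 0] with x hx hx1 hx0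
  have hl : 0 ≤ Real.log x := by
    refine Real.log_nonneg (le_trans ?_ hx1)
    exact Real.one_le_exp zero_le_one
  rw [Real.norm_of_nonneg (Real.rpow_nonneg hl _), Real.norm_of_nonneg (Real.rpow_nonneg hx0.le _), Real.rpow_natCast] at hx
  have hxs : 0 < x ^ s := Real.rpow_pos_of_pos hx0 s
  rw [Real.rpow_neg hx0.le]
  have h2 : (x ^ s)⁻¹ * Real.log x ^ k ≤ ε / (c + 1) := by
    rw [inv_mul_le_iff₀ hxs, mul_comm]
    exact hx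
  calc c * ((x ^ s)⁻¹ * Real.log x ^ k) ≤ (c + 1) * (ε / (c + 1)) :=
        mul_le_mul (by linarith) h2 (by positivity) (by positivity)
    _ = ε := by field_simp

private theorem ZZ_s1 (j1 : ℕ) (h1 : 1 ≤ j1) (J : ℕ) :
    ∑ j ∈ range (J + 1), (if j1 ≤ j then (j : ℝ) ^ (-((5 : ℝ) / 8)) else 0) ≤ 8 / 3 * (J : ℝ) ^ ((3 : ℝ) / 8) := by
  induction J with
  | zero =>
    rw [Finset.sum_range_one, if_neg (by omega)]
    positivity
  | succ J ih =>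
    rw [Finset.sum_range_succ]
    have h2 : (if j1 ≤ J + 1 then ((J + 1 : ℕ) : ℝ) ^ (-((5 : ℝ) / 8)) else 0) ≤ ((J + 1 : ℕ) : ℝ) ^ (-((5 : ℝ) / 8)) := by
      split_ifs
      · exact le_rfl
      · positivity
    have hJ : (0 : ℝ) < ((J + 1 : ℕ) : ℝ) := by positivity
    have h3 : (J : ℝ) ^ ((3 : ℝ) / 8) ≤ ((J + 1 : ℕ) : ℝ) ^ ((3 : ℝ) / 8) - 3 / 8 * ((J + 1 : ℕ) : ℝ) ^ (-((5 : ℝ) / 8)) := by
      have h4 : (1 + -(1 / ((J + 1 : ℕ) : ℝ))) ^ ((3 : ℝ) / 8) ≤ 1 + (3 : ℝ) / 8 * -(1 / ((J + 1 : ℕ) : ℝ)) := by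
        refine rpow_one_add_le_one_add_mul_self ?_ (by norm_num) (by norm_num)
        rw [neg_le_neg_iff, div_le_one hJ]
        push_cast
        have : (0 : ℝ) ≤ J := Nat.cast_nonneg J
        linarith
      have h5 : (J : ℝ) = ((J + 1 : ℕ) : ℝ) * (1 + -(1 / ((J + 1 : ℕ) : ℝ))) := by
        field_simp
        push_cast
        ring
      have h6 : 0 ≤ 1 + -(1 / ((J + 1 : ℕ) : ℝ)) := by
        have : 1 / ((J + 1 : ℕ) : ℝ) ≤ 1 := by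
          rw [div_le_one hJ]
          push_cast
          have : (0 : ℝ) ≤ J := Nat.cast_nonneg J
          linarith
        linarith
      have h7 : ((J + 1 : ℕ) : ℝ) ^ (-((5 : ℝ) / 8)) = ((J + 1 : ℕ) : ℝ) ^ ((3 : ℝ) / 8) * (1 / ((J + 1 : ℕ) : ℝ)) := by
        rw [show -((5 : ℝ) / 8) = (3 : ℝ) / 8 + -1 by norm_num, Real.rpow_add hJ, Real.rpow_neg_one, one_div]
      calc (J : ℝ) ^ ((3 : ℝ) / 8) = (((J + 1 : ℕ) : ℝ) * (1 + -(1 / ((J + 1 : ℕ) : ℝ)))) ^ ((3 : ℝ) / 8) := by rw [← h5]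
        _ = ((J + 1 : ℕ) : ℝ) ^ ((3 : ℝ) / 8) * (1 + -(1 / ((J + 1 : ℕ) : ℝ))) ^ ((3 : ℝ) / 8) := Real.mul_rpow hJ.le h6
        _ ≤ ((J + 1 : ℕ) : ℝ) ^ ((3 : ℝ) / 8) * (1 + (3 : ℝ) / 8 * -(1 / ((J + 1 : ℕ) : ℝ))) :=
            mul_le_mul_of_nonneg_left h4 (by positivity)
        _ = _ := by rw [h7]; ring
    linarith

private theorem ZZ_s2 (j1 : ℕ) (h1 : 2 ≤ j1) (J : ℕ) :
    ∑ j ∈ range (J + 1), (if j1 ≤ j then 1 / (j : ℝ) ^ 3 else 0) + 1 / max (J : ℝ) ((j1 : ℝ) - 1) ≤ 1 / ((j1 : ℝ) - 1) := by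
  have h2 : (2 : ℝ) ≤ j1 := by exact_mod_cast h1
  induction J with
  | zero =>
    rw [Finset.sum_range_one, if_neg (by omega), zero_add, Nat.cast_zero, max_eq_right (by linarith)]
  | succ J ih =>
    rw [Finset.sum_range_succ]
    by_cases hj : j1 ≤ J + 1
    · have h3 : (j1 : ℝ) ≤ (J : ℝ) + 1 := by exact_mod_cast hj
      have hJ0 : (0 : ℝ) < J := by linarith
      rw [max_eq_left (by linarith)] at ih
      rw [if_pos hj, max_eq_left (by push_cast; linarith)]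
      push_cast
      have h4 : 1 / ((J : ℝ) + 1) ^ 3 + 1 / ((J : ℝ) + 1) ≤ 1 / J := by
        rw [div_add_div _ _ (by positivity) (by positivity), div_le_div_iff₀ (by positivity) hJ0]
        nlinarith [hJ0, sq_nonneg (J : ℝ), mul_pos hJ0 hJ0, pow_pos hJ0 3, pow_pos hJ0 4]
      linarith
    · rw [not_le] at hj
      have h3 : (J : ℝ) + 1 + 1 ≤ j1 := by exact_mod_cast hj
      rw [max_eq_right (by linarith)] at ih
      rw [if_neg (by omega), max_eq_right (by push_cast; linarith)]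
      linarith

/-- The sum over the blocks. -/
private theorem ZZ_sum (a : ℕ → ℝ) (J j1 : ℕ) (T : Finset ℕ) (hT : T ⊆ range (J + 1)) (hj : 2 ≤ j1) {η X Y Z : ℝ}
    (hη : 0 ≤ η) (hX : 0 ≤ X) (hY : 0 ≤ Y) (hZ : 0 ≤ Z) (h1 : ∀ j ∈ T, j < j1 → a j ≤ η)
    (h2 : ∀ j ∈ T, j1 ≤ j → a j ≤ X * (j : ℝ) ^ (-((5 : ℝ) / 8)) + Y * (1 / (j : ℝ) ^ 3) + Z) :
    ∑ j ∈ T, a j ≤ j1 * η + X * (8 / 3 * (J : ℝ) ^ ((3 : ℝ) / 8)) + Y * (1 / ((j1 : ℝ) - 1)) + Z * (J + 1) := by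
  have e1 : ∀ j ∈ T, a j ≤ (if j < j1 then η else 0) + X * (if j1 ≤ j then (j : ℝ) ^ (-((5 : ℝ) / 8)) else 0) +
      Y * (if j1 ≤ j then 1 / (j : ℝ) ^ 3 else 0) + Z := by
    intro j hjT
    by_cases hjj : j < j1
    · rw [if_pos hjj, if_neg (by omega), if_neg (by omega)]
      have := h1 j hjT hjj
      linarith
    · rw [if_neg hjj, if_pos (by omega), if_pos (by omega)]
      have := h2 j hjT (by omega)
      linarith
  have e2 : ∑ j ∈ T, a j ≤ ∑ j ∈ range (J + 1), ((if j < j1 then η else 0) +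
      X * (if j1 ≤ j then (j : ℝ) ^ (-((5 : ℝ) / 8)) else 0) + Y * (if j1 ≤ j then 1 / (j : ℝ) ^ 3 else 0) + Z) := by
    refine (Finset.sum_le_sum e1).trans (Finset.sum_le_sum_of_subset_of_nonneg hT fun j _ _ => ?_)
    have f1 : 0 ≤ if j < j1 then η else 0 := by split_ifs <;> simp [hη]
    have f2 : 0 ≤ if j1 ≤ j then (j : ℝ) ^ (-((5 : ℝ) / 8)) else 0 := by
      split_ifs
      · positivity
      · exact le_rfl
    have f3 : 0 ≤ if j1 ≤ j then 1 / (j : ℝ) ^ 3 else 0 := by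
      split_ifs
      · positivity
      · exact le_rfl
    positivity
  refine e2.trans ?_
  rw [Finset.sum_add_distrib, Finset.sum_add_distrib, Finset.sum_add_distrib, ← Finset.mul_sum, ← Finset.mul_sum]
  have g1 : ∑ j ∈ range (J + 1), (if j < j1 then η else 0) ≤ j1 * η := by
    rw [← Finset.sum_filter, Finset.sum_const, nsmul_eq_mul]
    refine mul_le_mul_of_nonneg_right ?_ hη
    have : ((range (J + 1)).filter fun j => j < j1).card ≤ (range j1).card := Finset.card_le_card fun j hj => by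
      rw [Finset.mem_filter] at hj
      exact Finset.mem_range.2 hj.2
    rw [Finset.card_range] at this
    exact_mod_cast this
  have g2 := mul_le_mul_of_nonneg_left (ZZ_s1 j1 (by omega) J) hX
  have h2j : (2 : ℝ) ≤ j1 := by exact_mod_cast hj
  have g3 : ∑ j ∈ range (J + 1), (if j1 ≤ j then 1 / (j : ℝ) ^ 3 else 0) ≤ 1 / ((j1 : ℝ) - 1) := by
    have := ZZ_s2 j1 hj J
    have h3 : 0 ≤ 1 / max (J : ℝ) ((j1 : ℝ) - 1) := by
      have : (0 : ℝ) ≤ max (J : ℝ) ((j1 : ℝ) - 1) := le_max_of_le_left (Nat.cast_nonneg J)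
      positivity
    linarith
  have g4 := mul_le_mul_of_nonneg_left g3 hY
  have g5 : ∑ _j ∈ range (J + 1), Z = Z * (J + 1) := by
    rw [Finset.sum_const, Finset.card_range, nsmul_eq_mul]
    push_cast
    ring
  rw [g5]
  linarith

/-- Every object lies in a block. -/
private theorem ZZ_mem {g : ℤ[X]} {B : ℕ} {C0 : ℝ} (hC0 : 1 ≤ C0) {N M : ℕ} {r : ℤ} {δ : Vn 2} (h : Ob g B C0 δ M r)
    (hM : (M : ℝ) ≤ C0 * (N : ℝ) ^ ((3 : ℝ) / 2)) :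
    δ ∈ Blk g B C0 (Nat.clog 2 M) ∧ (2 : ℝ) ^ (Nat.clog 2 M) ≤ 2 * C0 * (N : ℝ) ^ ((3 : ℝ) / 2) := by
  classical
  have hM0 : M ≠ 0 := h.sq.ne_zero
  have h1 : M ≤ 2 ^ Nat.clog 2 M := Nat.le_pow_clog (by norm_num) M
  have h2 : 2 ^ Nat.clog 2 M < 2 * M := by
    rcases Nat.lt_or_ge 1 M with hM1 | hM1
    · have h3 := Nat.pow_pred_clog_lt_self (b := 2) (by norm_num) hM1
      have h4 : 0 < Nat.clog 2 M := Nat.clog_pos (by norm_num) hM1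
      have h5 : 2 ^ Nat.clog 2 M = 2 ^ (Nat.clog 2 M).pred * 2 := by
        rw [← pow_succ, ← Nat.succ_eq_add_one, Nat.succ_pred_eq_of_pos h4]
      omega
    · have : M = 1 := by omega
      subst this
      simp
  refine ⟨?_, ?_⟩
  · unfold Blk
    rw [Finset.mem_filter]
    refine ⟨?_, M, r, h, h2, h1⟩
    rw [mem_boxN]
    intro i
    have h3 := h.sz i
    have h4 : |(δ i : ℝ)| ≤ C0 * (2 : ℝ) ^ ((Nat.clog 2 M : ℝ) / 3) := by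
      refine h3.trans (mul_le_mul_of_nonneg_left ?_ (by linarith))
      have h5 : (M : ℝ) ≤ (2 : ℝ) ^ (Nat.clog 2 M : ℝ) := by
        rw [Real.rpow_natCast]
        exact_mod_cast h1
      calc (M : ℝ) ^ ((1 : ℝ) / 3) ≤ ((2 : ℝ) ^ (Nat.clog 2 M : ℝ)) ^ ((1 : ℝ) / 3) :=
            Real.rpow_le_rpow (Nat.cast_nonneg _) h5 (by norm_num)
        _ = _ := by
            rw [← Real.rpow_mul (by norm_num)]
            congr 1
            ring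
    have h6 : (δ i).natAbs ≤ HJ C0 (Nat.clog 2 M) := by
      unfold HJ
      refine Nat.le_floor ?_
      rw [Nat.cast_natAbs, Int.cast_abs]
      exact h4
    rw [Int.abs_eq_natAbs]
    exact_mod_cast h6
  · have h3 : (2 : ℝ) ^ Nat.clog 2 M ≤ 2 * M := by exact_mod_cast h2.le
    linarith

private theorem ZZ_blocks {g : ℤ[X]} {B : ℕ} {C0 : ℝ} (hC0 : 1 ≤ C0) (N J : ℕ)
    (hJ : ∀ j : ℕ, (2 : ℝ) ^ j ≤ 2 * C0 * (N : ℝ) ^ ((3 : ℝ) / 2) → j ≤ J) (P : Vn 2 → Prop) [DecidablePred P]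
    (U : Vn 2 → ℝ) (hU : ∀ δ, 0 ≤ U δ) (S : Finset (Vn 2))
    (hS : ∀ δ ∈ S, P δ ∧ ∃ (M : ℕ) (r : ℤ), Ob g B C0 δ M r ∧ (M : ℝ) ≤ C0 * (N : ℝ) ^ ((3 : ℝ) / 2)) :
    ∃ T ⊆ range (J + 1), (∀ j ∈ T, (2 : ℝ) ^ j ≤ 2 * C0 * (N : ℝ) ^ ((3 : ℝ) / 2)) ∧
      ∑ δ ∈ S, U δ ≤ ∑ j ∈ T, ∑ δ ∈ (Blk g B C0 j).filter P, U δ := by
  classical
  have h1 : ∀ δ : Vn 2, ∃ j : ℕ, δ ∈ S → δ ∈ Blk g B C0 j ∧ (2 : ℝ) ^ j ≤ 2 * C0 * (N : ℝ) ^ ((3 : ℝ) / 2) := by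
    intro δ
    by_cases hδ : δ ∈ S
    · obtain ⟨_, M, r, hO, hM⟩ := hS δ hδ
      exact ⟨Nat.clog 2 M, fun _ => ZZ_mem hC0 hO hM⟩
    · exact ⟨0, fun h => absurd h hδ⟩
  choose f hf using h1
  refine ⟨(range (J + 1)).filter fun j => (2 : ℝ) ^ j ≤ 2 * C0 * (N : ℝ) ^ ((3 : ℝ) / 2), Finset.filter_subset _ _,
    fun j hj => (Finset.mem_filter.1 hj).2, ?_⟩
  rw [← Finset.sum_fiberwise_of_maps_to (g := f) (t := (range (J + 1)).filter fun j => (2 : ℝ) ^ j ≤ 2 * C0 * (N : ℝ) ^ ((3 : ℝ) / 2))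
    (fun δ hδ => by
      rw [Finset.mem_filter, Finset.mem_range]
      have := hJ _ (hf δ hδ).2
      exact ⟨by omega, (hf δ hδ).2⟩)]
  refine Finset.sum_le_sum fun j _ => ?_
  refine Finset.sum_le_sum_of_subset_of_nonneg ?_ fun δ _ _ => hU δ
  intro δ hδ
  rw [Finset.mem_filter] at hδ ⊢
  have h2 := hf δ hδ.1
  rw [hδ.2] at h2
  exact ⟨h2.1, (hS δ hδ.1).1⟩

/-- The range of the blocks. -/
private theorem ZZ_J {C0 : ℝ} (hC0 : 1 ≤ C0) {N : ℕ} (hN : 1 ≤ N) (h : Real.log (2 * C0) ≤ Real.log N) (j : ℕ)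
    (hj : (2 : ℝ) ^ j ≤ 2 * C0 * (N : ℝ) ^ ((3 : ℝ) / 2)) : j ≤ ⌊4 * Real.log N⌋₊ := by
  have hN0 : (0 : ℝ) < N := by exact_mod_cast hN
  have h1 := Real.log_le_log (by positivity) hj
  rw [Real.log_pow, Real.log_mul (by positivity) (by positivity), Real.log_rpow hN0] at h1
  have h2 := Real.log_two_gt_d9
  have h3 : 0 ≤ Real.log N := Real.log_nonneg (by exact_mod_cast hN)
  refine Nat.le_floor ?_
  have h4 : (0 : ℝ) ≤ j := Nat.cast_nonneg j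
  nlinarith

/-- The bad objects. -/
private theorem ZZ_bad {g G1 G2 : ℤ[X]} (hD : Dat g G1 G2) {P0 B : ℕ} (hG : Good g G1 G2 P0 B) {C0 : ℝ} (hC0 : 1 ≤ C0)
    {ε : ℝ} (hε : 0 < ε) : ∃ N0 : ℕ, ∀ N : ℕ, N0 ≤ N → ∀ U : Vn 2 → ℝ,
      (∀ δ, ∀ T : Finset (Vn 1), (∀ f ∈ boxN 1 N, Att g G1 G2 B δ (f 1) (f 0) → f ∈ T) → U δ ≤ T.card) →
      ∀ S : Finset (Vn 2),
      (∀ δ ∈ S, BadO g G1 G2 B C0 N δ ∧ ∃ (M : ℕ) (r : ℤ), Ob g B C0 δ M r ∧ (M : ℝ) ≤ C0 * (N : ℝ) ^ ((3 : ℝ) / 2)) →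
      ∑ δ ∈ S, U δ ≤ ε * (N : ℝ) ^ 2 := by
  classical
  obtain ⟨N0, h0⟩ := bad_total hD hG C0 (by linarith)
  have h1 : ∀ᶠ N : ℕ in Filter.atTop, (1 : ℝ) * ((N : ℝ) ^ (-((1 : ℝ) / 10)) * (Real.log N) ^ 0) ≤ ε :=
    tendsto_natCast_atTop_atTop.eventually (ZZ_lim 0 (s := 1 / 10) (by norm_num) zero_le_one hε)
  obtain ⟨N1, h1⟩ := Filter.eventually_atTop.1 h1
  refine ⟨max N0 (max N1 1), fun N hN U hU S hS => ?_⟩
  have hN0 := (le_max_left _ _).trans hN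
  have hN1 := (le_max_left _ _).trans ((le_max_right _ _).trans hN)
  have hN2 := (le_max_right _ _).trans ((le_max_right _ _).trans hN)
  have hNr : (0 : ℝ) < N := by exact_mod_cast hN2
  have h2 := h1 N hN1
  rw [pow_zero, mul_one, one_mul] at h2
  have h3 : ∑ δ ∈ S, U δ ≤ (N : ℝ) ^ ((19 : ℝ) / 10) := by
    refine le_trans (Finset.sum_le_sum fun δ _ => hU δ _ fun f hf hA => ?_) (h0 N hN0 S hS)
    rw [Finset.mem_filter]
    exact ⟨hf, hA⟩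
  refine h3.trans ?_
  calc (N : ℝ) ^ ((19 : ℝ) / 10) = (N : ℝ) ^ (-((1 : ℝ) / 10)) * (N : ℝ) ^ (2 : ℝ) := by
        rw [← Real.rpow_add hNr]
        norm_num
    _ ≤ ε * (N : ℝ) ^ (2 : ℝ) := mul_le_mul_of_nonneg_right h2 (by positivity)
    _ = ε * (N : ℝ) ^ 2 := by rw [Real.rpow_two]

theorem z_zero {g G1 G2 : ℤ[X]} (hD : Dat g G1 G2) {P0 B : ℕ} (hG : Good g G1 G2 P0 B) (C0 : ℝ) (hC0 : 1 ≤ C0) (ε : ℝ) (hε : 0 < ε) :
    ∃ N0 : ℕ, ∀ N : ℕ, N0 ≤ N → ∀ S : Finset (Vn 2),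
      (∀ δ ∈ S, SelfAll g B δ ∧ ¬ IsSquare (nm g (Pf δ)) ∧
        ∃ (M : ℕ) (r : ℤ), Ob g B C0 δ M r ∧ (M : ℝ) ≤ C0 * (N : ℝ) ^ ((3 : ℝ) / 2)) →
      ∑ δ ∈ S, ((U0 g G1 G2 B N δ).card : ℝ) ≤ ε * (N : ℝ) ^ 2 := by
  classical
  obtain ⟨C, j0, Nb, hC, hblk⟩ := blk_zero hD hG C0 hC0
  obtain ⟨Nd, hbad⟩ := ZZ_bad hD hG hC0 (show 0 < ε / 4 by positivity)
  obtain ⟨j1, hj1⟩ : ∃ j1 : ℕ, j1 = max (max j0 2) (⌈8 * C / ε⌉₊ + 1) := ⟨_, rfl⟩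
  have hj10 : j0 ≤ j1 := by omega
  have hj12 : 2 ≤ j1 := by omega
  have hj1r : (2 : ℝ) ≤ j1 := by exact_mod_cast hj12
  have hj1C : C * (1 / ((j1 : ℝ) - 1)) ≤ ε / 8 := by
    have h1 : 8 * C / ε ≤ (j1 : ℝ) - 1 := by
      have h2 : (⌈8 * C / ε⌉₊ : ℝ) + 1 ≤ j1 := by
        have : ⌈8 * C / ε⌉₊ + 1 ≤ j1 := by omega
        exact_mod_cast this
      have h3 := Nat.le_ceil (8 * C / ε)
      linarith
    rw [div_le_iff₀ hε] at h1
    rw [mul_one_div, div_le_iff₀ (by linarith)]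
    linarith
  have hη : 0 < ε / (8 * j1) := by positivity
  choose Nf hNf using fun j : ℕ => fix_zero hD hG C0 j (ε / (8 * j1)) hη
  have hL : Filter.Tendsto (fun N : ℕ => Real.log N) Filter.atTop Filter.atTop :=
    Real.tendsto_log_atTop.comp tendsto_natCast_atTop_atTop
  have hev := (hL.eventually (ZZ_lim 5 (s := 1 / 8) (c := 11 * C) (by norm_num) (by positivity) (show 0 < ε / 8 by positivity))).and
    ((hL.eventually (ZZ_lim 0 (s := 8) (c := 5 * C) (by norm_num) (by positivity) (show 0 < ε / 8 by positivity))).and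
    (hL.eventually (Filter.eventually_ge_atTop (max 1 (Real.log (2 * C0))))))
  obtain ⟨Ne, hNe⟩ := Filter.eventually_atTop.1 hev
  refine ⟨max (max Nb Nd) (max (max Ne 1) ((range j1).sup Nf)), fun N hN S hS => ?_⟩
  have hNb : Nb ≤ N := by omega
  have hNd : Nd ≤ N := by omega
  have hNeN : Ne ≤ N := by omega
  have hN1 : 1 ≤ N := by omega
  have hNs : (range j1).sup Nf ≤ N := by omega
  obtain ⟨e1, e2, e3⟩ := hNe N hNeN
  have hL1 : 1 ≤ Real.log N := (le_max_left _ _).trans e3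
  have hL2 : Real.log (2 * C0) ≤ Real.log N := (le_max_right _ _).trans e3
  have hL0 : 0 < Real.log N := by linarith
  have hl0 : 0 ≤ Real.log (Real.log N) := Real.log_nonneg hL1
  have hNr : (0 : ℝ) < N := by exact_mod_cast hN1
  rw [← Finset.sum_filter_add_sum_filter_not S fun δ => BadO g G1 G2 B C0 N δ]
  have hb : ∑ δ ∈ S.filter (fun δ => BadO g G1 G2 B C0 N δ), ((U0 g G1 G2 B N δ).card : ℝ) ≤ ε / 4 * (N : ℝ) ^ 2 := by
    refine hbad N hNd (fun δ => ((U0 g G1 G2 B N δ).card : ℝ)) (fun δ T hT => ?_) _ fun δ hδ => ?_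
    · refine Nat.cast_le.2 (Finset.card_le_card fun f hf => ?_)
      unfold U0 at hf
      rw [Finset.mem_filter] at hf
      exact hT f hf.1 hf.2.1
    · rw [Finset.mem_filter] at hδ
      exact ⟨hδ.2, (hS δ hδ.1).2.2⟩
  obtain ⟨T, hT, hT2, hTs⟩ := ZZ_blocks (g := g) (B := B) hC0 N ⌊4 * Real.log N⌋₊ (fun j hj => ZZ_J hC0 hN1 hL2 j hj)
    (fun δ => SelfAll g B δ ∧ ¬ IsSquare (nm g (Pf δ)) ∧ ¬ BadO g G1 G2 B C0 N δ)
    (fun δ => ((U0 g G1 G2 B N δ).card : ℝ)) (fun δ => Nat.cast_nonneg _) (S.filter fun δ => ¬ BadO g G1 G2 B C0 N δ)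
    (fun δ hδ => by
      rw [Finset.mem_filter] at hδ
      exact ⟨⟨(hS δ hδ.1).1, (hS δ hδ.1).2.1, hδ.2⟩, (hS δ hδ.1).2.2⟩)
  have hsum := ZZ_sum (fun j => ∑ δ ∈ (Blk g B C0 j).filter
      (fun δ => SelfAll g B δ ∧ ¬ IsSquare (nm g (Pf δ)) ∧ ¬ BadO g G1 G2 B C0 N δ), ((U0 g G1 G2 B N δ).card : ℝ))
    ⌊4 * Real.log N⌋₊ j1 T hT hj12 (η := ε / (8 * j1) * (N : ℝ) ^ 2)
    (X := C * (N : ℝ) ^ 2 * ((Real.log N) ^ (-((1 : ℝ) / 2)) * (Real.log (Real.log N)) ^ 5)) (Y := C * (N : ℝ) ^ 2)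
    (Z := C * (N : ℝ) ^ 2 * (Real.log N) ^ (-(9 : ℝ))) (by positivity) (by positivity) (by positivity) (by positivity)
    (fun j _ hjj => by
      refine le_trans ?_ (hNf j N ((Finset.le_sup (Finset.mem_range.2 hjj)).trans hNs))
      refine Finset.sum_le_sum_of_subset_of_nonneg ?_ fun δ _ _ => Nat.cast_nonneg _
      intro δ hδ
      rw [Finset.mem_filter] at hδ ⊢
      exact ⟨hδ.1, hδ.2.2⟩)
    (fun j hj hjj => by
      refine (hblk N j hNb (hj10.trans hjj) (hT2 j hj)).trans (le_of_eq ?_)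
      ring)
  have hJ : ((⌊4 * Real.log N⌋₊ : ℕ) : ℝ) ≤ 4 * Real.log N := Nat.floor_le (by positivity)
  have hJ2 : ((⌊4 * Real.log N⌋₊ : ℕ) : ℝ) ^ ((3 : ℝ) / 8) ≤ 4 * (Real.log N) ^ ((3 : ℝ) / 8) := by
    calc ((⌊4 * Real.log N⌋₊ : ℕ) : ℝ) ^ ((3 : ℝ) / 8) ≤ (4 * Real.log N) ^ ((3 : ℝ) / 8) :=
          Real.rpow_le_rpow (Nat.cast_nonneg _) hJ (by norm_num)
      _ = (4 : ℝ) ^ ((3 : ℝ) / 8) * (Real.log N) ^ ((3 : ℝ) / 8) := Real.mul_rpow (by norm_num) hL0.le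
      _ ≤ (4 : ℝ) ^ (1 : ℝ) * (Real.log N) ^ ((3 : ℝ) / 8) := by
          refine mul_le_mul_of_nonneg_right ?_ (by positivity)
          exact Real.rpow_le_rpow_of_exponent_le (by norm_num) (by norm_num)
      _ = _ := by rw [Real.rpow_one]
  -- the three terms
  have t1 : C * (N : ℝ) ^ 2 * ((Real.log N) ^ (-((1 : ℝ) / 2)) * (Real.log (Real.log N)) ^ 5) *
      (8 / 3 * ((⌊4 * Real.log N⌋₊ : ℕ) : ℝ) ^ ((3 : ℝ) / 8)) ≤ ε / 8 * (N : ℝ) ^ 2 := by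
    calc C * (N : ℝ) ^ 2 * ((Real.log N) ^ (-((1 : ℝ) / 2)) * (Real.log (Real.log N)) ^ 5) *
          (8 / 3 * ((⌊4 * Real.log N⌋₊ : ℕ) : ℝ) ^ ((3 : ℝ) / 8))
        ≤ C * (N : ℝ) ^ 2 * ((Real.log N) ^ (-((1 : ℝ) / 2)) * (Real.log (Real.log N)) ^ 5) *
          (8 / 3 * (4 * (Real.log N) ^ ((3 : ℝ) / 8))) := by
          refine mul_le_mul_of_nonneg_left (mul_le_mul_of_nonneg_left hJ2 (by norm_num)) (by positivity)
      _ = 32 / 3 * C * ((Real.log N) ^ (-((1 : ℝ) / 2)) * (Real.log N) ^ ((3 : ℝ) / 8) * (Real.log (Real.log N)) ^ 5) * (N : ℝ) ^ 2 := by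
          ring
      _ = 32 / 3 * C * ((Real.log N) ^ (-((1 : ℝ) / 8)) * (Real.log (Real.log N)) ^ 5) * (N : ℝ) ^ 2 := by
          rw [← Real.rpow_add hL0, show -((1 : ℝ) / 2) + (3 : ℝ) / 8 = -((1 : ℝ) / 8) by norm_num]
      _ ≤ 11 * C * ((Real.log N) ^ (-((1 : ℝ) / 8)) * (Real.log (Real.log N)) ^ 5) * (N : ℝ) ^ 2 := by
          refine mul_le_mul_of_nonneg_right (mul_le_mul_of_nonneg_right ?_ (by positivity)) (by positivity)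
          nlinarith
      _ ≤ ε / 8 * (N : ℝ) ^ 2 := mul_le_mul_of_nonneg_right e1 (by positivity)
  have t2 : C * (N : ℝ) ^ 2 * (1 / ((j1 : ℝ) - 1)) ≤ ε / 8 * (N : ℝ) ^ 2 := by
    calc C * (N : ℝ) ^ 2 * (1 / ((j1 : ℝ) - 1)) = C * (1 / ((j1 : ℝ) - 1)) * (N : ℝ) ^ 2 := by ring
      _ ≤ _ := mul_le_mul_of_nonneg_right hj1C (by positivity)
  have t3 : C * (N : ℝ) ^ 2 * (Real.log N) ^ (-(9 : ℝ)) * (((⌊4 * Real.log N⌋₊ : ℕ) : ℝ) + 1) ≤ ε / 8 * (N : ℝ) ^ 2 := by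
    rw [pow_zero, mul_one] at e2
    calc C * (N : ℝ) ^ 2 * (Real.log N) ^ (-(9 : ℝ)) * (((⌊4 * Real.log N⌋₊ : ℕ) : ℝ) + 1)
        ≤ C * (N : ℝ) ^ 2 * (Real.log N) ^ (-(9 : ℝ)) * (5 * Real.log N) := by
          refine mul_le_mul_of_nonneg_left (by linarith) (by positivity)
      _ = 5 * C * ((Real.log N) ^ (-(9 : ℝ)) * (Real.log N) ^ (1 : ℝ)) * (N : ℝ) ^ 2 := by
          rw [Real.rpow_one]
          ring
      _ = 5 * C * (Real.log N) ^ (-(8 : ℝ)) * (N : ℝ) ^ 2 := by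
          rw [← Real.rpow_add hL0]
          norm_num
      _ ≤ ε / 8 * (N : ℝ) ^ 2 := mul_le_mul_of_nonneg_right e2 (by positivity)
  have t0 : (j1 : ℝ) * (ε / (8 * j1) * (N : ℝ) ^ 2) = ε / 8 * (N : ℝ) ^ 2 := by
    field_simp
  have hN2 : 0 ≤ ε * (N : ℝ) ^ 2 := by positivity
  linarith

theorem z_one {g G1 G2 : ℤ[X]} (hD : Dat g G1 G2) {P0 B : ℕ} (hG : Good g G1 G2 P0 B) (C0 : ℝ) (hC0 : 1 ≤ C0) (ε : ℝ) (hε : 0 < ε) :
    ∃ N0 : ℕ, ∀ N : ℕ, N0 ≤ N → ∀ S : Finset (Vn 2),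
      (∀ δ ∈ S, ∃ (M : ℕ) (r : ℤ), Ob g B C0 δ M r ∧ (M : ℝ) ≤ C0 * (N : ℝ) ^ ((3 : ℝ) / 2)) →
      ∑ δ ∈ S, ((U1 g G1 G2 B N δ).card : ℝ) ≤ ε * (N : ℝ) ^ 2 := by
  classical
  obtain ⟨C, j0, Nb, hC, hblk⟩ := blk_one hD hG C0 hC0
  obtain ⟨Nd, hbad⟩ := ZZ_bad hD hG hC0 (show 0 < ε / 4 by positivity)
  obtain ⟨j1, hj1⟩ : ∃ j1 : ℕ, j1 = max j0 2 := ⟨_, rfl⟩
  have hj10 : j0 ≤ j1 := by omega
  have hj12 : 2 ≤ j1 := by omega
  have hj1r : (2 : ℝ) ≤ j1 := by exact_mod_cast hj12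
  have hη : 0 < ε / (8 * j1) := by positivity
  choose Nf hNf using fun j : ℕ => fix_one hD hG C0 j (ε / (8 * j1)) hη
  have hL : Filter.Tendsto (fun N : ℕ => Real.log N) Filter.atTop Filter.atTop :=
    Real.tendsto_log_atTop.comp tendsto_natCast_atTop_atTop
  have hev := (hL.eventually (ZZ_lim 9 (s := 1 / 8) (c := 5 * C) (by norm_num) (by positivity) (show 0 < ε / 8 by positivity))).and
    ((hL.eventually (ZZ_lim 9 (s := 5 / 8) (c := C) (by norm_num) (by positivity) (show 0 < ε / 8 by positivity))).and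
    ((hL.eventually (ZZ_lim 0 (s := 8) (c := 5 * C) (by norm_num) (by positivity) (show 0 < ε / 8 by positivity))).and
    (hL.eventually (Filter.eventually_ge_atTop (max 1 (Real.log (2 * C0)))))))
  obtain ⟨Ne, hNe⟩ := Filter.eventually_atTop.1 hev
  refine ⟨max (max Nb Nd) (max (max Ne 1) ((range j1).sup Nf)), fun N hN S hS => ?_⟩
  have hNb : Nb ≤ N := by omega
  have hNd : Nd ≤ N := by omega
  have hNeN : Ne ≤ N := by omega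
  have hN1 : 1 ≤ N := by omega
  have hNs : (range j1).sup Nf ≤ N := by omega
  obtain ⟨e1, e4, e2, e3⟩ := hNe N hNeN
  have hL1 : 1 ≤ Real.log N := (le_max_left _ _).trans e3
  have hL2 : Real.log (2 * C0) ≤ Real.log N := (le_max_right _ _).trans e3
  have hL0 : 0 < Real.log N := by linarith
  have hl0 : 0 ≤ Real.log (Real.log N) := Real.log_nonneg hL1
  have hNr : (0 : ℝ) < N := by exact_mod_cast hN1
  rw [← Finset.sum_filter_add_sum_filter_not S fun δ => BadO g G1 G2 B C0 N δ]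
  have hb : ∑ δ ∈ S.filter (fun δ => BadO g G1 G2 B C0 N δ), ((U1 g G1 G2 B N δ).card : ℝ) ≤ ε / 4 * (N : ℝ) ^ 2 := by
    refine hbad N hNd (fun δ => ((U1 g G1 G2 B N δ).card : ℝ)) (fun δ T hT => ?_) _ fun δ hδ => ?_
    · refine Nat.cast_le.2 (Finset.card_le_card fun f hf => ?_)
      unfold U1 at hf
      rw [Finset.mem_filter] at hf
      exact hT f hf.1 hf.2.1
    · rw [Finset.mem_filter] at hδ
      exact ⟨hδ.2, hS δ hδ.1⟩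
  obtain ⟨T, hT, hT2, hTs⟩ := ZZ_blocks (g := g) (B := B) hC0 N ⌊4 * Real.log N⌋₊ (fun j hj => ZZ_J hC0 hN1 hL2 j hj)
    (fun δ => ¬ BadO g G1 G2 B C0 N δ)
    (fun δ => ((U1 g G1 G2 B N δ).card : ℝ)) (fun δ => Nat.cast_nonneg _) (S.filter fun δ => ¬ BadO g G1 G2 B C0 N δ)
    (fun δ hδ => by
      rw [Finset.mem_filter] at hδ
      exact ⟨hδ.2, hS δ hδ.1⟩)
  have hsum := ZZ_sum (fun j => ∑ δ ∈ (Blk g B C0 j).filter (fun δ => ¬ BadO g G1 G2 B C0 N δ), ((U1 g G1 G2 B N δ).card : ℝ))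
    ⌊4 * Real.log N⌋₊ j1 T hT hj12 (η := ε / (8 * j1) * (N : ℝ) ^ 2) (X := 0)
    (Y := C * (N : ℝ) ^ 2 * ((Real.log N) ^ (-((5 : ℝ) / 8)) * (Real.log (Real.log N)) ^ 9))
    (Z := C * (N : ℝ) ^ 2 * ((Real.log N) ^ (-((9 : ℝ) / 8)) * (Real.log (Real.log N)) ^ 9 + (Real.log N) ^ (-(9 : ℝ))))
    (by positivity) le_rfl (by positivity) (by positivity)
    (fun j _ hjj => hNf j N ((Finset.le_sup (Finset.mem_range.2 hjj)).trans hNs))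
    (fun j hj hjj => by
      refine (hblk N j hNb (hj10.trans hjj) (hT2 j hj)).trans (le_of_eq ?_)
      ring)
  have hJ : ((⌊4 * Real.log N⌋₊ : ℕ) : ℝ) ≤ 4 * Real.log N := Nat.floor_le (by positivity)
  have t2 : C * (N : ℝ) ^ 2 * ((Real.log N) ^ (-((5 : ℝ) / 8)) * (Real.log (Real.log N)) ^ 9) * (1 / ((j1 : ℝ) - 1)) ≤
      ε / 8 * (N : ℝ) ^ 2 := by
    have h1 : 1 / ((j1 : ℝ) - 1) ≤ 1 := by
      rw [div_le_one (by linarith)]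
      linarith
    calc C * (N : ℝ) ^ 2 * ((Real.log N) ^ (-((5 : ℝ) / 8)) * (Real.log (Real.log N)) ^ 9) * (1 / ((j1 : ℝ) - 1))
        ≤ C * (N : ℝ) ^ 2 * ((Real.log N) ^ (-((5 : ℝ) / 8)) * (Real.log (Real.log N)) ^ 9) * 1 :=
          mul_le_mul_of_nonneg_left h1 (by positivity)
      _ = C * ((Real.log N) ^ (-((5 : ℝ) / 8)) * (Real.log (Real.log N)) ^ 9) * (N : ℝ) ^ 2 := by ring
      _ ≤ _ := mul_le_mul_of_nonneg_right e4 (by positivity)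
  have t3 : C * (N : ℝ) ^ 2 * ((Real.log N) ^ (-((9 : ℝ) / 8)) * (Real.log (Real.log N)) ^ 9 + (Real.log N) ^ (-(9 : ℝ))) *
      (((⌊4 * Real.log N⌋₊ : ℕ) : ℝ) + 1) ≤ ε / 8 * (N : ℝ) ^ 2 + ε / 8 * (N : ℝ) ^ 2 := by
    rw [pow_zero, mul_one] at e2
    calc C * (N : ℝ) ^ 2 * ((Real.log N) ^ (-((9 : ℝ) / 8)) * (Real.log (Real.log N)) ^ 9 + (Real.log N) ^ (-(9 : ℝ))) *
          (((⌊4 * Real.log N⌋₊ : ℕ) : ℝ) + 1)
        ≤ C * (N : ℝ) ^ 2 * ((Real.log N) ^ (-((9 : ℝ) / 8)) * (Real.log (Real.log N)) ^ 9 + (Real.log N) ^ (-(9 : ℝ))) *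
          (5 * Real.log N) := by
          refine mul_le_mul_of_nonneg_left (by linarith) (by positivity)
      _ = 5 * C * (((Real.log N) ^ (-((9 : ℝ) / 8)) * (Real.log N) ^ (1 : ℝ)) * (Real.log (Real.log N)) ^ 9) * (N : ℝ) ^ 2 +
          5 * C * ((Real.log N) ^ (-(9 : ℝ)) * (Real.log N) ^ (1 : ℝ)) * (N : ℝ) ^ 2 := by
          rw [Real.rpow_one]
          ring
      _ = 5 * C * ((Real.log N) ^ (-((1 : ℝ) / 8)) * (Real.log (Real.log N)) ^ 9) * (N : ℝ) ^ 2 +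
          5 * C * (Real.log N) ^ (-(8 : ℝ)) * (N : ℝ) ^ 2 := by
          rw [← Real.rpow_add hL0, ← Real.rpow_add hL0]
          norm_num
      _ ≤ _ := add_le_add (mul_le_mul_of_nonneg_right e1 (by positivity)) (mul_le_mul_of_nonneg_right e2 (by positivity))
  have t0 : (j1 : ℝ) * (ε / (8 * j1) * (N : ℝ) ^ 2) = ε / 8 * (N : ℝ) ^ 2 := by
    field_simp
  rw [zero_mul] at hsum
  have hN2 : 0 ≤ ε * (N : ℝ) ^ 2 := by positivity
  linarith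

end O1
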